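import Pool.Agent.H330.CountGood

set_option linter.unusedSectionVars false
set_option linter.unusedVariables false

/-!
# Counting roots preserving subspaces
-/

namespace Pool.Agent.H330.Count

open Module Finset

theorem exists_count {α β : Type} [Finite α] (A : Set α) (B : Set β) (hB : B.Finite)
    (R : α → β → Prop) (hA : ∀ a ∈ A, ∃ b ∈ B, R a b) (n : ℕ)
    (hn : ∀ b ∈ B, {a ∈ A | R a b}.ncard ≤ n) : A.ncard ≤ B.ncard * n := by
  classical
  by_cases hne : A.Nonempty
  · obtain ⟨a0, ha0⟩ := hne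
    obtain ⟨b0, _, _⟩ := hA a0 ha0
    have : ∀ a, ∃ b, a ∈ A → b ∈ B ∧ R a b := by
      intro a
      by_cases ha : a ∈ A
      · obtain ⟨b, hb, hR⟩ := hA a ha
        exact ⟨b, fun _ => ⟨hb, hR⟩⟩
      · exact ⟨b0, fun h => absurd h ha⟩
    choose f hf using this
    refine ncard_le_of_fibers A f B hB (fun a ha => (hf a ha).1) n ?_
    intro b hb
    refine le_trans (Set.ncard_le_ncard ?_ (Set.toFinite _)) (hn b hb)
    rintro a ⟨ha, rfl⟩
    exact ⟨ha, (hf a ha).2⟩
  · rw [Set.not_nonempty_iff_eq_empty] at hne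
    rw [hne, Set.ncard_empty]
    exact Nat.zero_le _

theorem arith1 {q A c x y z w : ℕ} (hq : 0 < q) (h : A * q ^ x ≤ c * q ^ y)
    (h2 : y + z ≤ x + w) : A * q ^ z ≤ c * q ^ w := by
  have hpos : 0 < q ^ x := Nat.pow_pos hq
  apply Nat.le_of_mul_le_mul_right _ hpos
  calc A * q ^ z * q ^ x = A * q ^ x * q ^ z := by ring
    _ ≤ c * q ^ y * q ^ z := Nat.mul_le_mul_right _ h
    _ = c * q ^ (y + z) := by rw [pow_add]; ring
    _ ≤ c * q ^ (x + w) := Nat.mul_le_mul_left _ (Nat.pow_le_pow_right hq h2)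
    _ = c * q ^ w * q ^ x := by rw [pow_add]; ring

section

variable {k V : Type} [Field k] [Fintype k] [AddCommGroup V] [Module k V] [Finite V]
  (R : Type) [Field R] [Fintype R] [Algebra k R] [Module R V] [IsScalarTower k R V]

/-- the spread of `R`-lines -/
def Spread.ofField (k : Type) {V : Type} [Field k] [AddCommGroup V] [Module k V]
    (R : Type) [Field R] [Algebra k R] [Module R V] [IsScalarTower k R V] :
    Spread k V (finrank k R) where
  O v := (Submodule.span R {v}).restrictScalars k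
  mem v := Submodule.mem_span_singleton_self v
  eq_of_mem v y hy hy0 := by
    have := (Spread.triv R V).eq_of_mem v y hy hy0
    change (((Spread.triv R V).O y).restrictScalars k) = ((Spread.triv R V).O v).restrictScalars k
    rw [this]
  rank v hv := by
    have := ((Spread.triv R V).restrict k).rank v hv
    exact this.trans (mul_one _)
  zero := ((Spread.triv R V).restrict k).zero
  add x y := ((Spread.triv R V).restrict k).add x y

theorem Spread.ofField_O (v : V) :
    (Spread.ofField k R).O v = (Submodule.span R {v}).restrictScalars k := rfl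

theorem Spread.ofField_inv (X : Submodule k V) :
    (Spread.ofField k R).Inv X ↔ ∀ (r : R), ∀ x ∈ X, r • x ∈ X := by
  constructor
  · intro h r x hx
    apply h x hx
    rw [Spread.ofField_O, Submodule.restrictScalars_mem]
    exact Submodule.smul_mem _ _ (Submodule.mem_span_singleton_self x)
  · intro h x hx y hy
    rw [Spread.ofField_O, Submodule.restrictScalars_mem] at hy
    obtain ⟨r, rfl⟩ := Submodule.mem_span_singleton.mp hy
    exact h r x hx

/-- the dimension of an `R`-invariant subspace -/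
theorem dvd_finrank (X : Submodule k V) (hX : ∀ (r : R), ∀ x ∈ X, r • x ∈ X) :
    finrank k R ∣ finrank k X := by
  let Y : Submodule R V :=
    { carrier := X
      add_mem' := fun ha hb => X.add_mem ha hb
      zero_mem' := X.zero_mem
      smul_mem' := fun r x hx => hX r x hx }
  have h1 : finrank k X = finrank k Y := by
    apply LinearEquiv.finrank_eq
    exact { toFun := fun x => ⟨x, x.2⟩
            invFun := fun x => ⟨x, x.2⟩
            map_add' := fun x y => rfl
            map_smul' := fun c x => rfl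
            left_inv := fun x => rfl
            right_inv := fun x => rfl }
  rw [h1, ← Module.finrank_mul_finrank k R Y]
  exact Dvd.intro _ rfl

theorem three_le_pow {q t : ℕ} (hq : 3 ≤ q) (ht : 0 < t) : 3 ≤ q ^ t := by
  calc 3 ≤ q := hq
    _ = q ^ 1 := (pow_one q).symm
    _ ≤ q ^ t := Nat.pow_le_pow_right (by omega) ht

variable {ω : V →ₗ[k] V →ₗ[k] k} {ν : k} {t n m : ℕ}

/-- roots preserving a nondegenerate `R`-subspace -/
theorem w1_count (hω : NonDeg ω) (hν : ¬ IsSquare ν) (ht : finrank k R = t) (h3 : 3 ≤ t)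
    (hto : Odd t) (hm : finrank k V = 2 * m) (hmt : m = t * n) (hq : 3 ≤ Fintype.card k) :
    {J ∈ Roots k ω ν | ∃ W : Submodule k V, W ≠ ⊥ ∧ W ≠ ⊤ ∧ NonDeg (resForm ω W) ∧
      (∀ (r : R), ∀ x ∈ W, r • x ∈ W) ∧ ∀ x ∈ W, J x ∈ W}.ncard
      ≤ (n - 1) * (2 * Fintype.card k ^ (m * m)) := by
  classical
  set q := Fintype.card k with hqdef
  have hq0 : 0 < q := by omega
  have hcard : ((Finset.Icc 1 (n - 1) : Finset ℕ) : Set ℕ).ncard = n - 1 := by
    rw [Set.ncard_coe_finset, Nat.card_Icc]; omega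
  rw [← hcard]
  apply exists_count _ _ (Finset.finite_toSet _) (fun J k' => ∃ W : Submodule k V,
    (Spread.ofField k R).Inv W ∧ finrank k W = finrank k R * (2 * k') ∧ NonDeg (resForm ω W) ∧
      ∀ x ∈ W, J x ∈ W)
  · rintro J ⟨hJ, W, hW0, hW1, hWn, hWR, hWJ⟩
    obtain ⟨a, ha⟩ := dvd_finrank R W hWR
    have heven : Even (finrank k W) := by
      refine even_of_sq (J.restrict hWJ) hν ?_
      intro x
      ext
      exact hJ.2.1 x
    have haeven : Even a := by
      rw [ha, ht, Nat.even_mul] at heven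
      rcases heven with h | h
      · exact absurd h (Nat.not_even_iff_odd.mpr hto)
      · exact h
    obtain ⟨b, hb⟩ := haeven
    have hpos : 0 < finrank k W := by
      rw [Nat.pos_iff_ne_zero]
      intro h0
      exact hW0 (Submodule.finrank_eq_zero.mp h0)
    have hlt : finrank k W < finrank k V := Submodule.finrank_lt hW1
    have hbpos : 0 < b := by
      rw [Nat.pos_iff_ne_zero]
      rintro rfl
      rw [ha, hb] at hpos
      simp at hpos
    have hbn : b < n := by
      rw [ha, hb, ht, hm, hmt] at hlt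
      by_contra hcon
      push Not at hcon
      have : t * n ≤ t * b := Nat.mul_le_mul_left _ hcon
      have e : t * (b + b) = 2 * (t * b) := by ring
      omega
    refine ⟨b, ?_, W, (Spread.ofField_inv R W).mpr hWR, ?_, hWn, hWJ⟩
    · rw [Finset.mem_coe, Finset.mem_Icc]; omega
    · rw [ha, hb, two_mul]
  · intro k' hk'
    rw [Finset.mem_coe, Finset.mem_Icc] at hk'
    obtain ⟨hk1, hk2⟩ := hk'
    obtain ⟨b, hb⟩ : ∃ b, n = k' + b := ⟨n - k', by omega⟩
    have hb1 : 1 ≤ b := by omega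
    have h1 := (Spread.ofField k R (V := V)).sub_count_all (2 * k')
      {W | (Spread.ofField k R).Inv W ∧ finrank k W = finrank k R * (2 * k') ∧
        NonDeg (resForm ω W)} (fun W hW => ⟨hW.1, hW.2.1⟩)
      (three_le_pow hq (by rw [ht]; omega))
    have h2 := exists_count
      {J | J ∈ {J ∈ Roots k ω ν | ∃ W : Submodule k V, W ≠ ⊥ ∧ W ≠ ⊤ ∧ NonDeg (resForm ω W) ∧
        (∀ (r : R), ∀ x ∈ W, r • x ∈ W) ∧ ∀ x ∈ W, J x ∈ W} ∧
        ∃ W : Submodule k V, (Spread.ofField k R).Inv W ∧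
          finrank k W = finrank k R * (2 * k') ∧ NonDeg (resForm ω W) ∧ ∀ x ∈ W, J x ∈ W}
      {W | (Spread.ofField k R).Inv W ∧ finrank k W = finrank k R * (2 * k') ∧
        NonDeg (resForm ω W)} (Set.toFinite _) (fun J W => ∀ x ∈ W, J x ∈ W) ?_
      (q ^ (2 * tri (t * k') + 2 * tri (m - t * k'))) ?_
    · refine h2.trans (arith1 hq0 h1 ?_)
      rw [tri_two, tri_two, hm, ht]
      have e1 : m - t * k' = t * b := by
        rw [hmt, hb, mul_add, Nat.add_sub_cancel_left]
      rw [e1, hmt, hb]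
      have e2 : 2 * (k' * b) ≥ k' + b := by
        have f1 : k' ≤ k' * b := Nat.le_mul_of_pos_right k' hb1
        have f2 : b ≤ k' * b := Nat.le_mul_of_pos_left b hk1
        omega
      have e3 : 4 * (k' * b) + k' + b ≤ 2 * t * (k' * b) := by
        have e9 : 3 * (k' * b) ≤ t * (k' * b) := Nat.mul_le_mul_right _ h3
        linarith
      have e4 : t * (4 * (k' * b) + k' + b) ≤ t * (2 * t * (k' * b)) := Nat.mul_le_mul_left _ e3
      linarith [e4]
    · rintro J ⟨_, W, h3, h4, h5, h6⟩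
      exact ⟨W, ⟨h3, h4, h5⟩, h6⟩
    · rintro W ⟨h3, h4, h5⟩
      refine le_trans (Set.ncard_le_ncard ?_ (Set.toFinite _))
        (root_stab_nondeg hω hν hm W (t * k') (by rw [h4, ht]; ring) h5)
      rintro J ⟨⟨⟨hJ, _⟩, _⟩, hJW⟩
      exact ⟨hJ, hJW⟩

theorem sum_range_sub (N t : ℕ) (a : ℕ) (h : t * a ≤ N) :
    2 * ∑ i ∈ range a, (N - t * i) + t * (a * (a - 1)) = 2 * N * a := by
  induction a with
  | zero => simp
  | succ a ih =>
    have h' : t * a ≤ N := le_trans (Nat.mul_le_mul_left _ (Nat.le_succ a)) h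
    have h1 := ih h'
    rw [sum_range_succ, Nat.add_sub_cancel]
    obtain ⟨c, hc⟩ : ∃ c, N = t * a + c := ⟨N - t * a, by omega⟩
    have e1 : N - t * a = c := by omega
    rw [e1]
    rcases Nat.eq_zero_or_pos a with h0 | h0
    · subst h0; simp at *; omega
    · obtain ⟨b, rfl⟩ : ∃ b, a = b + 1 := ⟨a - 1, by omega⟩
      rw [Nat.add_sub_cancel] at h1
      have e2 : t * ((b + 1 + 1) * (b + 1)) = t * ((b + 1) * b) + 2 * (t * (b + 1)) := by ring
      rw [e2]
      have e3 : 2 * N * (b + 1 + 1) = 2 * N * (b + 1) + 2 * N := by ring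
      rw [e3, ← h1, hc]
      ring

/-- roots preserving an isotropic `R`-subspace -/
theorem w2_count (hω : NonDeg ω) (hν : ¬ IsSquare ν) (ht : finrank k R = t) (h3 : 3 ≤ t)
    (hto : Odd t) (hm : finrank k V = 2 * m) (hmt : m = t * n) (hno : Odd n)
    (hq : 3 ≤ Fintype.card k) :
    {J ∈ Roots k ω ν | ∃ W : Submodule k V, W ≠ ⊥ ∧ Isot ω W ∧
      (∀ (r : R), ∀ x ∈ W, r • x ∈ W) ∧ ∀ x ∈ W, J x ∈ W}.ncard
      ≤ (n - 1) * (2 * Fintype.card k ^ (m * m)) := by
  classical
  set q := Fintype.card k with hqdef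
  have hq0 : 0 < q := by omega
  have hcard : ((Finset.Icc 1 (n - 1) : Finset ℕ) : Set ℕ).ncard = n - 1 := by
    rw [Set.ncard_coe_finset, Nat.card_Icc]; omega
  rw [← hcard]
  apply exists_count _ _ (Finset.finite_toSet _) (fun J k' => 2 * k' ≤ n ∧ ∃ W : Submodule k V,
    (Spread.ofField k R).Inv W ∧ finrank k W = finrank k R * (2 * k') ∧ Isot ω W ∧
      ∀ x ∈ W, J x ∈ W)
  · rintro J ⟨hJ, W, hW0, hWn, hWR, hWJ⟩
    obtain ⟨a, ha⟩ := dvd_finrank R W hWR
    have heven : Even (finrank k W) := by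
      refine even_of_sq (J.restrict hWJ) hν ?_
      intro x
      ext
      exact hJ.2.1 x
    have haeven : Even a := by
      rw [ha, ht, Nat.even_mul] at heven
      rcases heven with h | h
      · exact absurd h (Nat.not_even_iff_odd.mpr hto)
      · exact h
    obtain ⟨b, hb⟩ := haeven
    have hpos : 0 < finrank k W := by
      rw [Nat.pos_iff_ne_zero]
      intro h0
      exact hW0 (Submodule.finrank_eq_zero.mp h0)
    have hle : finrank k W ≤ m := by
      have h1 := finrank_perp hω W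
      have h2 : W ≤ perp ω W := fun y hy x hx => hWn x hx y hy
      have h4 := Submodule.finrank_mono h2
      omega
    have hbpos : 0 < b := by
      rw [Nat.pos_iff_ne_zero]
      rintro rfl
      rw [ha, hb] at hpos
      simp at hpos
    have hbn : 2 * b ≤ n := by
      rw [ha, hb, ht, hmt] at hle
      have := Nat.le_of_mul_le_mul_left hle (by omega)
      omega
    refine ⟨b, ?_, hbn, W, (Spread.ofField_inv R W).mpr hWR, ?_, hWn, hWJ⟩
    · rw [Finset.mem_coe, Finset.mem_Icc]; omega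
    · rw [ha, hb, two_mul]
  · intro k' hk'
    rw [Finset.mem_coe, Finset.mem_Icc] at hk'
    obtain ⟨hk1, hk2⟩ := hk'
    by_cases hkn : 2 * k' ≤ n
    swap
    · have : {a | a ∈ {J ∈ Roots k ω ν | ∃ W : Submodule k V, W ≠ ⊥ ∧ Isot ω W ∧
          (∀ (r : R), ∀ x ∈ W, r • x ∈ W) ∧ ∀ x ∈ W, J x ∈ W} ∧ 2 * k' ≤ n ∧
          ∃ W : Submodule k V, (Spread.ofField k R).Inv W ∧
          finrank k W = finrank k R * (2 * k') ∧ Isot ω W ∧ ∀ x ∈ W, a x ∈ W} = ∅ := by
        rw [Set.eq_empty_iff_forall_notMem]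
        rintro a ⟨_, h, _⟩
        exact hkn h
      rw [this, Set.ncard_empty]
      exact Nat.zero_le _
    obtain ⟨b, hb⟩ : ∃ b, n = 2 * k' + b := ⟨n - 2 * k', by omega⟩
    have hb1 : 1 ≤ b := by
      rcases Nat.eq_zero_or_pos b with h0 | h0
      · subst h0
        rw [hb, add_zero] at hno
        exact absurd (even_two_mul k') (Nat.not_even_iff_odd.mpr hno)
      · exact h0
    have h1 := (Spread.ofField k R (V := V)).sub_count_isot hω (2 * k')
      {W | (Spread.ofField k R).Inv W ∧ finrank k W = finrank k R * (2 * k') ∧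
        Isot ω W} (fun W hW => ⟨hW.1, hW.2.1⟩) (fun W hW => hW.2.2)
      (three_le_pow hq (by rw [ht]; omega))
    have h2 := exists_count
      {J | J ∈ {J ∈ Roots k ω ν | ∃ W : Submodule k V, W ≠ ⊥ ∧ Isot ω W ∧
        (∀ (r : R), ∀ x ∈ W, r • x ∈ W) ∧ ∀ x ∈ W, J x ∈ W} ∧ 2 * k' ≤ n ∧
        ∃ W : Submodule k V, (Spread.ofField k R).Inv W ∧
          finrank k W = finrank k R * (2 * k') ∧ Isot ω W ∧ ∀ x ∈ W, J x ∈ W}
      {W | (Spread.ofField k R).Inv W ∧ finrank k W = finrank k R * (2 * k') ∧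
        Isot ω W} (Set.toFinite _) (fun J W => ∀ x ∈ W, J x ∈ W) ?_
      (q ^ (2 * ((t * k') * (t * k')) + 2 * tri (m - t * k'))) ?_
    · refine h2.trans (arith1 hq0 h1 ?_)
      have hsum := sum_range_sub (finrank k V) (finrank k R) (2 * k') (by
        rw [ht, hm, hmt, hb]
        calc t * (2 * k') ≤ t * (2 * k' + b) := Nat.mul_le_mul_left _ (by omega)
          _ ≤ 2 * (t * (2 * k' + b)) := by omega)
      have e1 : m - t * k' = t * (k' + b) := by
        rw [hmt, hb]
        have : t * (2 * k' + b) = t * k' + t * (k' + b) := by ring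
        rw [this, Nat.add_sub_cancel_left]
      have e2 := tri_two (m - t * k')
      rw [e1] at e2 ⊢
      rw [hm, ht] at hsum ⊢
      set S := ∑ i ∈ range (2 * k'), (2 * m - t * i) with hS
      set T := tri (t * (k' + b)) with hT
      obtain ⟨c, hc⟩ : ∃ c, 2 * k' = c + 1 := ⟨2 * k' - 1, by omega⟩
      have e3 : 2 * k' - 1 = c := by omega
      rw [e3] at hsum
      have e5 : k' * k' + 2 * (k' * b) ≥ 2 * k' + b := by
        rcases Nat.lt_or_ge k' 2 with h | h
        · have : k' = 1 := by omega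
          subst this; omega
        · have f1 : 2 * k' ≤ k' * k' := Nat.mul_le_mul_right k' h
          have f2 : b ≤ k' * b := Nat.le_mul_of_pos_left b (by omega)
          omega
      have e6 : 2 * (k' * k') + 4 * (k' * b) + 2 * k' + b ≤ t * (k' * k') + 2 * t * (k' * b) := by
        have e9 : 3 * (k' * k' + 2 * (k' * b)) ≤ t * (k' * k' + 2 * (k' * b)) :=
          Nat.mul_le_mul_right _ h3
        linarith
      have e7 : t * (2 * (k' * k') + 4 * (k' * b) + 2 * k' + b)
          ≤ t * (t * (k' * k') + 2 * t * (k' * b)) := Nat.mul_le_mul_left _ e6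
      have hm' : m = t * (2 * k' + b) := by rw [hmt, hb]
      have e8 : t * (2 * k' * c) + 2 * t * k' = 4 * t * (k' * k') := by
        have h5 : t * (2 * k' * c) + 2 * t * k' = t * (2 * k') * (c + 1) := by ring
        rw [h5, ← hc]; ring
      rw [hm'] at hsum ⊢
      linarith [hsum, e2, e7, e8]
    · rintro J ⟨_, _, W, h3, h4, h5, h6⟩
      exact ⟨W, ⟨h3, h4, h5⟩, h6⟩
    · rintro W ⟨h3, h4, h5⟩
      refine le_trans (Set.ncard_le_ncard ?_ (Set.toFinite _))
        (root_stab_all hω hν hm W (t * k') (by rw [h4, ht]; ring))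
      rintro J ⟨⟨⟨hJ, _⟩, _⟩, hJW⟩
      exact ⟨hJ, hJW⟩

/-- roots commuting with an `R`-linear root -/
theorem w3_count (hω : NonDeg ω) (hsw : ∀ x y, ω y x = - ω x y) (h2 : (2 : k) ≠ 0)
    (hν : ¬ IsSquare ν) (ht : finrank k R = t) (hto : Odd t)
    (hm : finrank k V = 2 * m) (hmt : m = t * n)
    (hq : 3 ≤ Fintype.card k) :
    {J ∈ Roots k ω ν | ∃ J2 ∈ Roots R ω ν, ∀ x, J2 (J x) = J (J2 x)}.ncard
      ≤ Fintype.card k ^ (m * n + m) * ((m + 1) * (2 * Fintype.card k ^ (m * m / 2))) := by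
  have hνR : ¬ IsSquare (algebraMap k R ν) := not_sq_of_odd hν (by rw [ht]; exact hto)
  have h1 := root_count_all (V := V) R hω hνR n (by rw [ht, hm, hmt]; ring)
  rw [ht] at h1
  have e1 : t * 2 * tri n = m * n + m := by
    rw [mul_assoc, tri_two, hmt]; ring
  rw [e1] at h1
  refine (exists_count _ (Roots R ω ν) (Set.toFinite _)
    (fun J J2 => ∀ x, J2 (J x) = J (J2 x)) ?_
    ((m + 1) * (2 * Fintype.card k ^ (m * m / 2))) ?_).trans (Nat.mul_le_mul_right _ h1)
  · rintro J ⟨_, J2, h3, h4⟩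
    exact ⟨J2, h3, h4⟩
  · intro J2 hJ2
    have hJ2' : J2 ∈ Roots k ω ν := ⟨hJ2.1, hJ2.2.1, fun r x => J2.map_smul r x⟩
    refine le_trans (Set.ncard_le_ncard ?_ (Set.toFinite _))
      (comm_count hω hsw h2 hν m hm hJ2' hq)
    rintro J ⟨⟨hJ, _⟩, hc⟩
    exact ⟨hJ, fun x => (hc x).symm⟩

end

end Pool.Agent.H330.Count
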