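import Pool.Agent.H330.CountBadA

set_option linter.unusedSectionVars false
set_option linter.unusedVariables false

/-!
# Elements of order four
-/

namespace Pool.Agent.H330.Count

open Module Finset

section

variable {k V : Type} [Field k] [Fintype k] [AddCommGroup V] [Module k V] [Finite V]
  (R : Type) [Field R] [Fintype R] [Algebra k R] [Module R V] [IsScalarTower k R V]

variable {ω : V →ₗ[k] V →ₗ[k] k} {ν : k} {t n m : ℕ}

theorem lagr_count (hω : NonDeg ω) (hm : finrank k V = 2 * m) (hm0 : 0 < m)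
    (hq : 3 ≤ Fintype.card k) :
    {W : Submodule k V | Isot ω W ∧ finrank k W = m}.ncard ≤ 2 * Fintype.card k ^ (tri m) := by
  have h1 := (Spread.triv k V).sub_count_isot hω m {W | Isot ω W ∧ finrank k W = m}
    (fun W hW => ⟨fun v hv => (Submodule.span_singleton_le_iff_mem v W).mpr hv, by
      rw [one_mul]; exact hW.2⟩) (fun W hW => hW.1) (by rw [pow_one]; exact hq)
  have hsum := sum_range_sub (2 * m) 1 m (by omega)
  rw [hm] at h1
  have h2 := arith1 (z := 0) (w := tri m) (by omega) h1 (by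
    have e := tri_two m
    set S := ∑ i ∈ range m, (2 * m - 1 * i) with hS
    obtain ⟨c, rfl⟩ : ∃ c, m = c + 1 := ⟨m - 1, by omega⟩
    rw [Nat.add_sub_cancel] at hsum
    have : 2 * (S + 0) ≤ 2 * (1 * ((c + 1) * (c + 1)) + tri (c + 1)) := by linarith
    omega)
  rwa [pow_zero, mul_one] at h2

theorem lagrR_count (hω : NonDeg ω) (ht : finrank k R = t) (ht0 : 0 < t)
    (hm : finrank k V = 2 * m)
    (hmt : m = t * n) (hn0 : 0 < n) (hq : 3 ≤ Fintype.card k) :
    {W : Submodule k V | (Spread.ofField k R).Inv W ∧ Isot ω W ∧ finrank k W = m}.ncard *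
    {W : Submodule k V | (Spread.ofField k R).Inv W ∧ Isot ω W ∧ finrank k W = m}.ncard
      ≤ 4 * Fintype.card k ^ (m * n + m) := by
  set N := {W : Submodule k V | (Spread.ofField k R).Inv W ∧ Isot ω W ∧ finrank k W = m}.ncard
    with hN
  have h1 := (Spread.ofField k R (V := V)).sub_count_isot hω n
    {W | (Spread.ofField k R).Inv W ∧ Isot ω W ∧ finrank k W = m}
    (fun W hW => ⟨hW.1, by rw [hW.2.2, ht, hmt]⟩) (fun W hW => hW.2.1)
    (three_le_pow hq (by rw [ht]; exact ht0))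
  rw [← hN, hm, ht] at h1
  have hsum := sum_range_sub (2 * m) t n (by rw [hmt]; omega)
  have h3 : N * N * Fintype.card k ^ (2 * (t * (n * n)))
      ≤ 4 * Fintype.card k ^ (2 * ∑ i ∈ range n, (2 * m - t * i)) := by
    calc N * N * Fintype.card k ^ (2 * (t * (n * n)))
        = (N * Fintype.card k ^ (t * (n * n))) * (N * Fintype.card k ^ (t * (n * n))) := by
          rw [two_mul, pow_add]; ring
      _ ≤ _ := Nat.mul_le_mul h1 h1
      _ = _ := by rw [mul_comm 2 (∑ i ∈ range n, (2 * m - t * i)), pow_mul]; ring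
  have h2 := arith1 (z := 0) (w := m * n + m) (by omega) h3 (by
    set S := ∑ i ∈ range n, (2 * m - t * i) with hS
    obtain ⟨c, rfl⟩ : ∃ c, n = c + 1 := ⟨n - 1, by omega⟩
    rw [Nat.add_sub_cancel] at hsum
    rw [hmt] at hsum ⊢
    linarith)
  rwa [pow_zero, mul_one] at h2

/-- eigenspaces of an involution -/
def eig (A : V →ₗ[k] V) (ε : k) : Submodule k V where
  carrier := {x | A x = ε • x}
  add_mem' := by
    intro a b ha hb
    change A (a + b) = ε • (a + b)
    rw [map_add, smul_add, show A a = ε • a from ha, show A b = ε • b from hb]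
  zero_mem' := by
    change A 0 = ε • (0 : V)
    rw [map_zero, smul_zero]
  smul_mem' := by
    intro c a ha
    change A (c • a) = ε • (c • a)
    rw [map_smul, show A a = ε • a from ha, smul_comm]

theorem mem_eig {A : V →ₗ[k] V} {ε : k} {x : V} : x ∈ eig A ε ↔ A x = ε • x := Iff.rfl

theorem eig_isot (h2 : (2 : k) ≠ 0) {A : V →ₗ[k] V} (hA : Skew ω A) {ε : k} (hε : ε * ε = 1) :
    Isot ω (eig A ε) := by
  intro x hx y hy
  rw [mem_eig] at hx hy
  have h := hA x y
  rw [hx, hy, map_smul, map_smul, LinearMap.smul_apply, smul_eq_mul] at h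
  have h3 : 2 * ω x y = 0 := by linear_combination ε * h - (2 * ω x y) * hε
  exact (mul_eq_zero.mp h3).resolve_left h2

theorem eig_split (h2 : (2 : k) ≠ 0) {A : V →ₗ[k] V} (hA : ∀ x, A (A x) = x) (x : V) :
    ∃ y ∈ eig A 1, ∃ z ∈ eig A (-1), x = y + z := by
  refine ⟨(2 : k)⁻¹ • (x + A x), ?_, (2 : k)⁻¹ • (x - A x), ?_, ?_⟩
  · rw [mem_eig, map_smul, map_add, hA, one_smul, add_comm]
  · rw [mem_eig, map_smul, map_sub, hA, neg_smul, one_smul, ← smul_neg, neg_sub]
  · rw [← smul_add, show x + A x + (x - A x) = (2 : k) • x by rw [two_smul]; abel, smul_smul,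
      inv_mul_cancel₀ h2, one_smul]

theorem eig_inj (h2 : (2 : k) ≠ 0) {A B : V →ₗ[k] V} (hA : ∀ x, A (A x) = x)
    (h1 : eig A 1 = eig B 1) (h3 : eig A (-1) = eig B (-1)) : A = B := by
  ext x
  obtain ⟨y, hy, z, hz, rfl⟩ := eig_split h2 hA x
  have hy' := h1 ▸ hy
  have hz' := h3 ▸ hz
  rw [mem_eig] at hy hz hy' hz'
  rw [map_add, map_add, hy, hz, hy', hz']

theorem eig_finrank (hω : NonDeg ω) (hm : finrank k V = 2 * m) (h2 : (2 : k) ≠ 0)
    {A : V →ₗ[k] V} (hA : Skew ω A)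
    (hAA : ∀ x, A (A x) = x) : finrank k (eig A 1) = m ∧ finrank k (eig A (-1)) = m := by
  have hle : ∀ ε : k, ε * ε = 1 → finrank k (eig A ε) ≤ m := by
    intro ε hε
    have h1 := finrank_perp hω (eig A ε)
    have h4 : eig A ε ≤ perp ω (eig A ε) := fun y hy x hx => eig_isot h2 hA hε x hx y hy
    have h5 := Submodule.finrank_mono h4
    omega
  have h1 := hle 1 (by ring)
  have h3 := hle (-1) (by ring)
  have h4 : eig A 1 ⊔ eig A (-1) = ⊤ := by
    rw [Submodule.eq_top_iff']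
    intro x
    obtain ⟨y, hy, z, hz, rfl⟩ := eig_split h2 hAA x
    exact Submodule.add_mem_sup hy hz
  have h5 := Submodule.finrank_sup_add_finrank_inf_eq (eig A 1) (eig A (-1))
  rw [h4, finrank_top, hm] at h5
  omega

/-- the isometries commuting with `R` of square `-1` -/
def HF (R : Type) [Field R] [Algebra k R] [Module R V] (ω : V →ₗ[k] V →ₗ[k] k) :
    Set (V →ₗ[k] V) :=
  {h | Isom ω ω h ∧ (∀ (r : R) x, h (r • x) = r • h x) ∧ ∀ x, h (h x) = -x}

theorem HF_skew {h : V →ₗ[k] V} (hi : Isom ω ω h) (hh : ∀ x, h (h x) = -x) : Skew ω h := by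
  intro x y
  rw [← hi (h x) y, hh, map_neg, LinearMap.neg_apply]

theorem HF_count (hω : NonDeg ω) (h2 : (2 : k) ≠ 0) (ht : finrank k R = t)
    (hto : Odd t) (hm : finrank k V = 2 * m) (hmt : m = t * n) (hn0 : 0 < n)
    (hq : 3 ≤ Fintype.card k) :
    (HF R ω).ncard ≤ 4 * Fintype.card k ^ (m * n + m) := by
  by_cases hs : IsSquare (-1 : k)
  · obtain ⟨i, hi⟩ := hs
    have hi0 : i ≠ 0 := by
      rintro rfl
      rw [mul_zero] at hi
      exact one_ne_zero (neg_eq_zero.mp hi)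
    refine le_trans ?_ (lagrR_count R hω ht hto.pos hm hmt hn0 hq)
    rw [← Set.ncard_prod]
    have hAA : ∀ h ∈ HF R ω, ∀ x, (i⁻¹ • h) ((i⁻¹ • h) x) = x := by
      intro h hh x
      rw [LinearMap.smul_apply, LinearMap.smul_apply, map_smul, hh.2.2, smul_smul, smul_neg,
        ← neg_smul, ← mul_inv, ← hi]
      norm_num
    have hsk : ∀ h ∈ HF R ω, Skew ω (i⁻¹ • h) := by
      intro h hh x y
      have := HF_skew hh.1 hh.2.2 x y
      rw [LinearMap.smul_apply, LinearMap.smul_apply, map_smul, map_smul, LinearMap.smul_apply,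
        this, smul_neg]
    apply Set.ncard_le_ncard_of_injOn (fun h => (eig (i⁻¹ • h) 1, eig (i⁻¹ • h) (-1))) _ _
      (Set.toFinite _)
    · intro h hh
      have hR : ∀ ε : k, (Spread.ofField k R).Inv (eig (i⁻¹ • h) ε) := by
        intro ε
        rw [Spread.ofField_inv]
        intro r x hx
        rw [mem_eig] at hx ⊢
        rw [LinearMap.smul_apply] at hx ⊢
        rw [hh.2.1, smul_comm i⁻¹ r, hx, smul_comm]
      exact ⟨⟨hR 1, eig_isot h2 (hsk h hh) (by ring), (eig_finrank hω hm h2 (hsk h hh)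
        (hAA h hh)).1⟩, ⟨hR (-1), eig_isot h2 (hsk h hh) (by ring),
        (eig_finrank hω hm h2 (hsk h hh) (hAA h hh)).2⟩⟩
    · intro h hh h' hh' heq
      have h1 : eig (i⁻¹ • h) 1 = eig (i⁻¹ • h') 1 := congrArg Prod.fst heq
      have h3 : eig (i⁻¹ • h) (-1) = eig (i⁻¹ • h') (-1) := congrArg Prod.snd heq
      have h4 := eig_inj h2 (hAA h hh) h1 h3
      have h5 := congrArg (fun f : V →ₗ[k] V => i • f) h4
      simpa [smul_smul, mul_inv_cancel₀ hi0] using h5
  · have hν' : ¬ IsSquare (algebraMap k R (-1)) := not_sq_of_odd hs (by rw [ht]; exact hto)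
    have h1 := root_count_all (V := V) R hω hν' n (by rw [ht, hm, hmt]; ring)
    rw [ht] at h1
    have e1 : t * 2 * tri n = m * n + m := by
      rw [mul_assoc, tri_two, hmt]; ring
    rw [e1] at h1
    refine le_trans ?_ (Nat.le_mul_of_pos_left _ (by norm_num))
    refine le_trans (Set.ncard_le_ncard ?_ (Set.toFinite _)) h1
    intro h hh
    refine ⟨HF_skew hh.1 hh.2.2, fun x => ?_, hh.2.1⟩
    rw [hh.2.2, neg_smul, one_smul]

theorem exists_two_sq (hodd : Fintype.card k % 2 = 1) (c : k) : ∃ x y : k, x ^ 2 + y ^ 2 = c := by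
  obtain ⟨a, b, hab⟩ := FiniteField.exists_root_sum_quadratic (R := k)
    (f := Polynomial.X ^ 2) (g := Polynomial.X ^ 2 - Polynomial.C c)
    (Polynomial.degree_X_pow 2) (Polynomial.degree_X_pow_sub_C (by norm_num) _) hodd
  refine ⟨a, b, ?_⟩
  simp at hab
  linear_combination hab

/-- roots anticommuting with `h`, `h² = -1` -/
theorem anti_count (hω : NonDeg ω) (h2 : (2 : k) ≠ 0) (hodd : Fintype.card k % 2 = 1)
    (hν0 : ν ≠ 0) (hm : finrank k V = 2 * m)
    (hm0 : 0 < m) (hq : 3 ≤ Fintype.card k) {h : V →ₗ[k] V} (hi : Isom ω ω h)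
    (hh : ∀ x, h (h x) = -x) :
    {J ∈ Roots k ω ν | ∀ x, h (J x) = -(J (h x))}.ncard ≤ 2 * Fintype.card k ^ (tri m) := by
  refine le_trans ?_ (lagr_count hω hm hm0 hq)
  obtain ⟨x, y, hxy⟩ := exists_two_sq hodd (ν⁻¹)
  have hsk := HF_skew hi hh
  obtain ⟨Λ, hΛ⟩ : ∃ Λ : (V →ₗ[k] V), ∀ v, Λ v = x • v + y • h v :=
    ⟨x • LinearMap.id + y • h, fun v => rfl⟩
  have hJΛ : ∀ J ∈ {J ∈ Roots k ω ν | ∀ x, h (J x) = -(J (h x))}, ∀ v,
      J (Λ v) = x • J v - y • h (J v) := by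
    rintro J ⟨hJ, hJh⟩ v
    rw [hΛ, map_add, map_smul, map_smul, hJh, smul_neg, sub_neg_eq_add]
  have hAA : ∀ J ∈ {J ∈ Roots k ω ν | ∀ x, h (J x) = -(J (h x))}, ∀ v,
      (Λ ∘ₗ J) ((Λ ∘ₗ J) v) = v := by
    rintro J hJ v
    rw [LinearMap.comp_apply, LinearMap.comp_apply, hJΛ J hJ, hJ.1.2.1, map_smul, hΛ]
    simp only [map_sub, map_smul, hh]
    have : x • (x • ν • v - y • ν • h v) + y • (x • ν • h v - y • ν • -v)
        = (ν * (x ^ 2 + y ^ 2)) • v := by
      module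
    rw [this, hxy, mul_inv_cancel₀ hν0, one_smul]
  have hskA : ∀ J ∈ {J ∈ Roots k ω ν | ∀ x, h (J x) = -(J (h x))}, Skew ω (Λ ∘ₗ J) := by
    rintro J hJ a b
    rw [LinearMap.comp_apply, LinearMap.comp_apply, hΛ, hΛ]
    simp only [map_add, map_smul, LinearMap.add_apply, LinearMap.smul_apply, smul_eq_mul]
    rw [hJ.1.1 a b, hsk (J a) b, hJ.1.1 a (h b), hJ.2 b, map_neg]
    ring
  have hmin : ∀ J ∈ {J ∈ Roots k ω ν | ∀ x, h (J x) = -(J (h x))}, ∀ v,
      v ∈ eig (Λ ∘ₗ J) (-1) ↔ h v ∈ eig (Λ ∘ₗ J) 1 := by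
    intro J hJ v
    have e : ∀ w, (Λ ∘ₗ J) (h w) = -(h ((Λ ∘ₗ J) w)) := by
      intro w
      rw [LinearMap.comp_apply, LinearMap.comp_apply, hΛ, hΛ]
      have := hJ.2 w
      have e1 : J (h w) = -(h (J w)) := by rw [this, neg_neg]
      rw [e1]
      simp only [map_neg, map_add, map_smul, hh]
      module
    rw [mem_eig, mem_eig, e, one_smul, neg_smul, one_smul]
    constructor
    · intro h1; rw [h1, map_neg, neg_neg]
    · intro h1
      have h3 := congrArg h h1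
      rw [map_neg, hh, hh, neg_neg] at h3
      exact h3
  apply Set.ncard_le_ncard_of_injOn (fun J => eig (Λ ∘ₗ J) 1) _ _ (Set.toFinite _)
  · intro J hJ
    exact ⟨eig_isot h2 (hskA J hJ) (by ring), (eig_finrank hω hm h2 (hskA J hJ) (hAA J hJ)).1⟩
  · intro J hJ J' hJ' heq
    have heq' : eig (Λ ∘ₗ J) 1 = eig (Λ ∘ₗ J') 1 := heq
    have h3 : eig (Λ ∘ₗ J) (-1) = eig (Λ ∘ₗ J') (-1) := by
      ext v
      rw [hmin J hJ, hmin J' hJ', heq']
    have h4 := eig_inj h2 (hAA J hJ) heq' h3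
    -- Λ is injective
    ext v
    have h5 : Λ (J v) = Λ (J' v) := congrArg (fun f : V →ₗ[k] V => f v) h4
    have h6 : ∀ w, x • Λ w - y • h (Λ w) = ν⁻¹ • w := by
      intro w
      rw [hΛ]
      simp only [map_add, map_smul, hh]
      rw [← hxy]
      module
    have h7 : ν⁻¹ • J v = ν⁻¹ • J' v := by rw [← h6, ← h6, h5]
    have h8 := congrArg (fun w => ν • w) h7
    simpa [smul_smul, mul_inv_cancel₀ hν0] using h8

theorem w4_count (hω : NonDeg ω) (h2 : (2 : k) ≠ 0) (hodd : Fintype.card k % 2 = 1)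
    (hν0 : ν ≠ 0) (ht : finrank k R = t)
    (hto : Odd t) (hm : finrank k V = 2 * m) (hmt : m = t * n) (hn0 : 0 < n)
    (hq : 3 ≤ Fintype.card k) :
    {J ∈ Roots k ω ν | ∃ h ∈ HF R ω, ∀ x, h (J x) = -(J (h x))}.ncard
      ≤ 8 * Fintype.card k ^ (m * n + m + tri m) := by
  have hm0 : 0 < m := by rw [hmt]; exact Nat.mul_pos hto.pos hn0
  refine (exists_count _ (HF R ω) (Set.toFinite _)
    (fun J h => ∀ x, h (J x) = -(J (h x))) ?_
    (2 * Fintype.card k ^ (tri m)) ?_).trans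
      ((Nat.mul_le_mul_right _ (HF_count R hω h2 ht hto hm hmt hn0 hq)).trans (le_of_eq ?_))
  · rintro J ⟨_, h, h3, h4⟩
    exact ⟨h, h3, h4⟩
  · intro h hh
    refine le_trans (Set.ncard_le_ncard ?_ (Set.toFinite _))
      (anti_count hω h2 hodd hν0 hm hm0 hq hh.1 hh.2.2)
    rintro J ⟨⟨hJ, _⟩, hc⟩
    exact ⟨hJ, hc⟩
  · rw [pow_add _ (m * n + m) (tri m)]; ring

end

end Pool.Agent.H330.Count
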