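import Pool.Agent.H330.CountBadJ

set_option linter.unusedSectionVars false
set_option linter.unusedVariables false

/-!
# Bad elements for two field extension subgroups: the inclusion
-/

namespace Pool.Agent.H330.Count

open Module Finset

section

variable {k V : Type} [Field k] [Fintype k] [AddCommGroup V] [Module k V] [Finite V]
variable (R : Type) [Field R] [Fintype R] [Algebra k R] [Module R V] [IsScalarTower k R V]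
variable (R' : Type) [Field R'] [Fintype R'] [Algebra k R'] [Module R' V] [IsScalarTower k R' V]
variable {ω : V →ₗ[k] V →ₗ[k] k} {ν : k} {t t' n n' m : ℕ} {τ : R ≃ₐ[k] R} {τ' : R' ≃ₐ[k] R'}

/-- bad isometries -/
def BG (ω : V →ₗ[k] V →ₗ[k] k) : Set (V ≃ₗ[k] V) :=
  {g | (∀ x y, ω (g x) (g y) = ω x y) ∧
    ∃ h : V ≃ₗ[k] V, (∀ x y, ω (h x) (h y) = ω x y) ∧
    (∃ σ : R ≃ₐ[k] R, Tw' σ h) ∧ (∃ σ' : R' ≃ₐ[k] R', Tw' σ' (g⁻¹ * h * g)) ∧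
    (¬ ∀ x, h x = x) ∧ ¬ ∀ x, h x = -x}

/-- untwisted bad isometries -/
def BG0 (ω : V →ₗ[k] V →ₗ[k] k) : Set (V ≃ₗ[k] V) :=
  {g | (∀ x y, ω (g x) (g y) = ω x y) ∧
    ∃ h : V ≃ₗ[k] V, (∀ x y, ω (h x) (h y) = ω x y) ∧
    (∀ (r : R) x, h (r • x) = r • h x) ∧ (∀ (r : R') x, (g⁻¹ * h * g) (r • x) = r • (g⁻¹ * h * g) x) ∧
    (¬ ∀ x, h x = x) ∧ ¬ ∀ x, h x = -x}

/-- nondegenerate witnesses -/
def G1 (ω : V →ₗ[k] V →ₗ[k] k) : Set (V →ₗ[k] V) :=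
  {g | Isom ω ω g ∧ ∃ W W' : Submodule k V, W ≠ ⊥ ∧ W ≠ ⊤ ∧ NonDeg (resForm ω W) ∧
    NonDeg (resForm ω W') ∧ finrank k W' = finrank k W ∧
    (∀ (r : R), ∀ x ∈ W, r • x ∈ W) ∧ (∀ (r : R'), ∀ x ∈ W', r • x ∈ W') ∧ ∀ x ∈ W', g x ∈ W}

/-- isotropic witnesses -/
def G2 (ω : V →ₗ[k] V →ₗ[k] k) : Set (V →ₗ[k] V) :=
  {g | Isom ω ω g ∧ ∃ W W' : Submodule k V, W ≠ ⊥ ∧ Isot ω W ∧
    Isot ω W' ∧ finrank k W' = finrank k W ∧
    (∀ (r : R), ∀ x ∈ W, r • x ∈ W) ∧ (∀ (r : R'), ∀ x ∈ W', r • x ∈ W') ∧ ∀ x ∈ W', g x ∈ W}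

/-- witnesses from roots -/
def G3 (ω : V →ₗ[k] V →ₗ[k] k) (ν : k) : Set (V →ₗ[k] V) :=
  {g | Isom ω ω g ∧ ∃ J ∈ Roots R ω ν, ∃ J' ∈ Roots R' ω ν, ∀ x, g (J' x) = J (g x)}

/-- `R'` twisted, `R` untwisted -/
def G4 (ω : V →ₗ[k] V →ₗ[k] k) (t' : ℕ) (τ' : R' ≃ₐ[k] R') : Set (V →ₗ[k] V) :=
  {g | Isom ω ω g ∧ ∃ l ∈ HH ω t' τ', ∃ h : V →ₗ[k] V, Isom ω ω h ∧
    (∀ (r : R) x, h (r • x) = r • h x) ∧ ∀ x, g (l x) = h (g x)}

/-- `R` twisted, `R'` untwisted -/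
def G5 (ω : V →ₗ[k] V →ₗ[k] k) (t : ℕ) (τ : R ≃ₐ[k] R) : Set (V →ₗ[k] V) :=
  {g | Isom ω ω g ∧ ∃ l ∈ HH ω t τ, ∃ h : V →ₗ[k] V, Isom ω ω h ∧
    (∀ (r : R') x, h (r • x) = r • h x) ∧ ∀ x, g (h x) = l (g x)}

/-- both twisted -/
def G6 (ω : V →ₗ[k] V →ₗ[k] k) (t : ℕ) (τ' : R' ≃ₐ[k] R') : Set (V →ₗ[k] V) :=
  {g | Isom ω ω g ∧ ∃ σ : R ≃ₐ[k] R, σ ≠ 1 ∧ ∃ h ∈ HH ω t σ, ∃ l ∈ HH ω t τ',
    ∀ x, g (l x) = h (g x)}

theorem BG0_sub (hω : NonDeg ω) (hsw : ∀ x y, ω y x = - ω x y)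
    (h2 : (2 : k) ≠ 0) (hR : ∀ (r : R) x y, ω (r • x) y = ω x (r • y))
    (hR' : ∀ (r : R') x y, ω (r • x) y = ω x (r • y))
    (hm : finrank k V = 2 * m) (hmo : Odd m) (hν : ¬ IsSquare ν) {g : V ≃ₗ[k] V}
    (hg : g ∈ BG0 R R' ω) :
    (g : V →ₗ[k] V) ∈ G1 R R' ω ∨ (g : V →ₗ[k] V) ∈ G2 R R' ω ∨
      (g : V →ₗ[k] V) ∈ G3 R R' ω ν := by
  obtain ⟨hgi, h, hiso, hhR, hhR', hne, hne'⟩ := hg
  let L : R → (V →ₗ[k] V) := fun r =>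
    { toFun := fun x => r • x
      map_add' := fun x y => smul_add r x y
      map_smul' := fun c x => smul_comm r c x }
  let L' : R' → (V →ₗ[k] V) := fun r =>
    { toFun := fun x => g (r • g⁻¹ x)
      map_add' := fun x y => by rw [map_add, smul_add, map_add]
      map_smul' := fun c x => by
        rw [(g⁻¹ : V ≃ₗ[k] V).map_smul c x, smul_comm r c, g.map_smul c]; rfl }
  have hL : ∀ r x, L r x = r • x := fun r x => rfl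
  have hL' : ∀ r x, L' r x = g (r • g⁻¹ x) := fun r x => rfl
  have hg1 : ∀ x, g (g⁻¹ x) = x := by
    intro x; rw [← LinearEquiv.mul_apply, mul_inv_cancel]; rfl
  have hg2 : ∀ x, g⁻¹ (g x) = x := by
    intro x; rw [← LinearEquiv.mul_apply, inv_mul_cancel]; rfl
  have hgi' : ∀ x y, ω (g⁻¹ x) y = ω x (g y) := by
    intro x y; rw [← hgi, hg1]
  have hmulapp : ∀ x, (g⁻¹ * h * g) x = g⁻¹ (h (g x)) := fun x => rfl
  -- pull back of subspaces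
  have hpull : ∀ W : Submodule k V, (∀ r', ∀ x ∈ W, L' r' x ∈ W) →
      (∀ (r : R'), ∀ x ∈ W.comap (g : V →ₗ[k] V), r • x ∈ W.comap (g : V →ₗ[k] V)) := by
    intro W hW r x hx
    have := hW r (g x) hx
    rw [hL', hg2] at this
    exact this
  have hfr : ∀ W : Submodule k V, finrank k (W.comap (g : V →ₗ[k] V)) = finrank k W := by
    intro W
    exact LinearEquiv.finrank_eq (LinearEquiv.ofSubmodule' g W)
  rcases witness hω hsw h2 hm hmo hν {T | (∃ r, T = L r) ∨ ∃ r, T = L' r} (by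
    rintro T (⟨r, rfl⟩ | ⟨r, rfl⟩)
    · exact ⟨1, fun x y => by rw [hL, hL, hR, one_mul]⟩
    · refine ⟨1, fun x y => ?_⟩
      rw [hL', hL', one_mul, ← hgi', ← hR', ← hgi, hg1]) h hiso (by
    rintro T (⟨r, rfl⟩ | ⟨r, rfl⟩)
    · intro x; rw [hL, hL, hhR]
    · intro x
      have h3 := hhR' r (g⁻¹ x)
      rw [hmulapp, hmulapp, hg1] at h3
      have h4 := congrArg g h3
      rw [hg1] at h4
      exact h4) hne hne' with ⟨W, hW1, hW2, hW3, hW4⟩ | ⟨W, hW1, hW3, hW4⟩ | ⟨J2, hJ2, hJ2T⟩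
  · left
    refine ⟨hgi, W, W.comap (g : V →ₗ[k] V), hW1, hW2, hW3, ?_, hfr W,
      fun r x hx => hW4 (L r) (Or.inl ⟨r, rfl⟩) x hx,
      hpull W (fun r' x hx => hW4 (L' r') (Or.inr ⟨r', rfl⟩) x hx), fun x hx => hx⟩
    intro x hx
    apply Subtype.ext
    have h5 : (⟨g x, x.2⟩ : W) = 0 := by
      apply hW3
      intro y
      have h6 : g⁻¹ (y : V) ∈ W.comap (g : V →ₗ[k] V) := by
        change g (g⁻¹ (y : V)) ∈ W
        rw [hg1]; exact y.2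
      have h7 := hx ⟨_, h6⟩
      rw [resForm_apply] at h7 ⊢
      change ω (x : V) (g⁻¹ (y : V)) = 0 at h7
      change ω (g x) y = 0
      rw [← hgi, hg1] at h7
      exact h7
    have h6 : g (x : V) = 0 := congrArg Subtype.val h5
    exact g.injective (h6.trans (map_zero g).symm)
  · right; left
    refine ⟨hgi, W, W.comap (g : V →ₗ[k] V), hW1, hW3, ?_, hfr W,
      fun r x hx => hW4 (L r) (Or.inl ⟨r, rfl⟩) x hx,
      hpull W (fun r' x hx => hW4 (L' r') (Or.inr ⟨r', rfl⟩) x hx), fun x hx => hx⟩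
    intro x hx y hy
    rw [← hgi]
    exact hW3 _ hx _ hy
  · right; right
    refine ⟨hgi, J2, ⟨hJ2.1, hJ2.2.1, fun r x => hJ2T (L r) (Or.inl ⟨r, rfl⟩) x⟩,
      (g.symm : V →ₗ[k] V) ∘ₗ J2 ∘ₗ (g : V →ₗ[k] V), ⟨?_, ?_, ?_⟩, ?_⟩
    · intro x y
      change ω (g⁻¹ (J2 (g x))) y = - ω x (g⁻¹ (J2 (g y)))
      rw [hgi', hJ2.1, ← hgi x, hg1]
    · intro x
      change g⁻¹ (J2 (g (g⁻¹ (J2 (g x))))) = ν • x
      rw [hg1, hJ2.2.1, map_smul, hg2]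
    · intro r x
      change g⁻¹ (J2 (g (r • x))) = r • g⁻¹ (J2 (g x))
      have h3 := hJ2T (L' r) (Or.inr ⟨r, rfl⟩) (g x)
      rw [hL', hL', hg2] at h3
      rw [h3, hg2]
    · intro x
      change g (g⁻¹ (J2 (g x))) = J2 (g x)
      rw [hg1]

end

end Pool.Agent.H330.Count
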