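import Pool.Agent.H330.CountBadG

set_option linter.unusedSectionVars false
set_option linter.unusedVariables false

/-!
# Bad elements for two field extension subgroups: twisted elements
-/

namespace Pool.Agent.H330.Count

open Module Finset

section

variable {k V : Type} [Field k] [Fintype k] [AddCommGroup V] [Module k V] [Finite V]
variable {R : Type} [Field R] [Fintype R] [Algebra k R] [Module R V] [IsScalarTower k R V]
variable {R' : Type} [Field R'] [Fintype R'] [Algebra k R'] [Module R' V] [IsScalarTower k R' V]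
variable {ω : V →ₗ[k] V →ₗ[k] k} {ν : k} {t t' n n' m : ℕ} {τ : R ≃ₐ[k] R} {τ' : R' ≃ₐ[k] R'}

theorem to_HH' (hτ : τ ≠ 1) (ht : finrank k R = t) (htp : t.Prime) {σ : R ≃ₐ[k] R} (hσ : σ ≠ 1)
    {g : V ≃ₗ[k] V} (hg : Tw' σ g) (hiso : ∀ x y, ω (g x) (g y) = ω x y)
    (hgt : g ^ t = 1) :
    ∃ j : ℕ, τ = σ ^ j ∧ ((g ^ j : V ≃ₗ[k] V) : V →ₗ[k] V) ∈ HH ω t τ := by
  obtain ⟨j, hj⟩ := tau_gen σ hσ ht htp τ
  refine ⟨j, hj, ⟨?_, ?_⟩, ?_⟩
  · intro r x
    rw [hj]
    exact hg.pow j r x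
  · intro x
    rw [coe_pow', ← pow_mul, mul_comm, pow_mul, hgt, one_pow]; rfl
  · exact iso_pow hiso j

theorem conj_pow_app (g h : V ≃ₗ[k] V) (j : ℕ) : (g⁻¹ * h * g) ^ j = g⁻¹ * h ^ j * g := by
  induction j with
  | zero => rw [pow_zero, pow_zero]; group
  | succ j ih => rw [pow_succ, ih, pow_succ]; group

theorem conj_app (g h : V ≃ₗ[k] V) (x : V) : g ((g⁻¹ * h * g) x) = h (g x) := by
  change g (g⁻¹ (h (g x))) = h (g x)
  rw [← LinearEquiv.mul_apply, mul_inv_cancel]; rfl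

theorem conj_iso {g h : V ≃ₗ[k] V} (hg : ∀ x y, ω (g x) (g y) = ω x y)
    (hh : ∀ x y, ω (h x) (h y) = ω x y) :
    ∀ x y, ω ((g⁻¹ * h * g) x) ((g⁻¹ * h * g) y) = ω x y := by
  intro x y
  rw [← hg ((g⁻¹ * h * g) x), conj_app, conj_app, hh, hg]

theorem ng_conj (g h : V ≃ₗ[k] V) : g⁻¹ * ng h * g = ng (g⁻¹ * h * g) := by
  ext x
  change g⁻¹ (-(h (g x))) = -(g⁻¹ (h (g x)))
  rw [map_neg]

theorem ng_iso {h : V ≃ₗ[k] V} (hh : ∀ x y, ω (h x) (h y) = ω x y) :
    ∀ x y, ω (ng h x) (ng h y) = ω x y := by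
  intro x y
  rw [ng_apply, ng_apply, map_neg, map_neg, LinearMap.neg_apply, neg_neg, hh]

theorem ng_tw {σ : R ≃ₐ[k] R} {h : V ≃ₗ[k] V} (hh : Tw' σ h) : Tw' σ (ng h) := by
  intro r x
  rw [ng_apply, ng_apply, hh, smul_neg]

theorem ng_pow_one {h : V ≃ₗ[k] V} (hto : Odd t) (hp : ∀ x, (h ^ t) x = -x) : (ng h) ^ t = 1 := by
  ext x
  rw [ng_pow, hp, hto.neg_one_pow, neg_one_smul, neg_neg]; rfl

theorem tw_pow_order {σ : R ≃ₐ[k] R} (ht : finrank k R = t) (htp : t.Prime) : σ ^ t = 1 := by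
  by_cases hσ : σ = 1
  · rw [hσ, one_pow]
  · rw [← tau_order σ hσ ht htp]; exact pow_orderOf_eq_one σ

theorem tw_one {h : V ≃ₗ[k] V} (hh : Tw' (1 : R ≃ₐ[k] R) h) : ∀ (r : R) x, h (r • x) = r • h x := hh

/-- `R` untwisted, `R'` twisted -/
theorem caseA (hτ' : τ' ≠ 1) (ht' : finrank k R' = t') (htp' : t'.Prime) (hto' : Odd t')
    {g h : V ≃ₗ[k] V} (hg : ∀ x y, ω (g x) (g y) = ω x y)
    (hh : ∀ x y, ω (h x) (h y) = ω x y) (hR1 : Tw' (1 : R ≃ₐ[k] R) h)
    {σ' : R' ≃ₐ[k] R'} (hσ' : σ' ≠ 1) (hR2 : Tw' σ' (g⁻¹ * h * g)) :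
    g ∈ BG0 R R' ω ∨ (g : V →ₗ[k] V) ∈ G4 R R' ω t' τ' := by
  have key : ∀ h : V ≃ₗ[k] V, (∀ x y, ω (h x) (h y) = ω x y) → Tw' (1 : R ≃ₐ[k] R) h →
      Tw' σ' (g⁻¹ * h * g) → h ^ t' = 1 → (g : V →ₗ[k] V) ∈ G4 R R' ω t' τ' := by
    intro h hh hR1 hR2 hp
    obtain ⟨j, _, hj⟩ := to_HH' hτ' ht' htp' hσ' hR2 (conj_iso hg hh) (by
      rw [conj_pow_app, hp]; group)
    refine ⟨hg, _, hj, ((h ^ j : V ≃ₗ[k] V) : V →ₗ[k] V), iso_pow hh j, ?_, ?_⟩
    · have := hR1.pow j
      rw [one_pow] at this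
      exact this
    · intro x
      change g (((g⁻¹ * h * g) ^ j) x) = (h ^ j) (g x)
      rw [conj_pow_app, conj_app]
  by_cases hp : ∀ x, (h ^ t') x = x
  · right
    exact key h hh hR1 hR2 (by ext x; exact hp x)
  · by_cases hp' : ∀ x, (h ^ t') x = -x
    · right
      exact key (ng h) (ng_iso hh) (ng_tw hR1) (by rw [ng_conj]; exact ng_tw hR2)
        (ng_pow_one hto' hp')
    · left
      refine ⟨hg, h ^ t', iso_pow hh t', ?_, ?_, hp, hp'⟩
      · have := hR1.pow t'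
        rw [one_pow] at this
        exact this
      · have := hR2.pow t'
        rw [tw_pow_order ht' htp', conj_pow_app] at this
        exact this

/-- `R` twisted, `R'` untwisted -/
theorem caseB (hτ : τ ≠ 1) (ht : finrank k R = t) (htp : t.Prime) (hto : Odd t)
    {g h : V ≃ₗ[k] V} (hg : ∀ x y, ω (g x) (g y) = ω x y)
    (hh : ∀ x y, ω (h x) (h y) = ω x y) {σ : R ≃ₐ[k] R} (hσ : σ ≠ 1) (hR1 : Tw' σ h)
    (hR2 : Tw' (1 : R' ≃ₐ[k] R') (g⁻¹ * h * g)) :
    g ∈ BG0 R R' ω ∨ (g : V →ₗ[k] V) ∈ G5 R R' ω t τ := by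
  have key : ∀ h : V ≃ₗ[k] V, (∀ x y, ω (h x) (h y) = ω x y) → Tw' σ h →
      Tw' (1 : R' ≃ₐ[k] R') (g⁻¹ * h * g) → h ^ t = 1 → (g : V →ₗ[k] V) ∈ G5 R R' ω t τ := by
    intro h hh hR1 hR2 hp
    obtain ⟨j, _, hj⟩ := to_HH' hτ ht htp hσ hR1 hh hp
    refine ⟨hg, _, hj, (((g⁻¹ * h * g) ^ j : V ≃ₗ[k] V) : V →ₗ[k] V),
      iso_pow (conj_iso hg hh) j, ?_, ?_⟩
    · have := hR2.pow j
      rw [one_pow] at this
      exact this
    · intro x
      change g (((g⁻¹ * h * g) ^ j) x) = (h ^ j) (g x)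
      rw [conj_pow_app, conj_app]
  by_cases hp : ∀ x, (h ^ t) x = x
  · right
    exact key h hh hR1 hR2 (by ext x; exact hp x)
  · by_cases hp' : ∀ x, (h ^ t) x = -x
    · right
      exact key (ng h) (ng_iso hh) (ng_tw hR1) (by rw [ng_conj]; exact ng_tw hR2)
        (ng_pow_one hto hp')
    · left
      refine ⟨hg, h ^ t, iso_pow hh t, ?_, ?_, hp, hp'⟩
      · have := hR1.pow t
        rw [tw_pow_order ht htp] at this
        exact this
      · have := hR2.pow t
        rw [one_pow, conj_pow_app] at this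
        exact this

theorem BG_sub (hτ : τ ≠ 1) (ht : finrank k R = t) (htp : t.Prime) (hto : Odd t)
    (hτ' : τ' ≠ 1) (ht' : finrank k R' = t') (htp' : t'.Prime) (hto' : Odd t')
    {g : V ≃ₗ[k] V} (hg : g ∈ BG R R' ω) :
    g ∈ BG0 R R' ω ∨ (g : V →ₗ[k] V) ∈ G4 R R' ω t' τ' ∨ (g : V →ₗ[k] V) ∈ G5 R R' ω t τ ∨
      (t = t' ∧ (g : V →ₗ[k] V) ∈ G6 R R' ω t τ') := by
  obtain ⟨hgi, h, hiso, ⟨σ, hσ⟩, ⟨σ', hσ'⟩, hne, hne'⟩ := hg
  by_cases h1 : σ = 1
  · subst h1
    by_cases h1' : σ' = 1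
    · subst h1'
      left
      exact ⟨hgi, h, hiso, hσ, hσ', hne, hne'⟩
    · rcases caseA hτ' ht' htp' hto' hgi hiso hσ h1' hσ' with h3 | h3
      · left; exact h3
      · right; left; exact h3
  · by_cases h1' : σ' = 1
    · subst h1'
      rcases caseB hτ ht htp hto hgi hiso h1 hσ hσ' with h3 | h3
      · left; exact h3
      · right; right; left; exact h3
    · by_cases htt : t = t'
      · subst htt
        have key : ∀ h : V ≃ₗ[k] V, (∀ x y, ω (h x) (h y) = ω x y) → Tw' σ h →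
            Tw' σ' (g⁻¹ * h * g) → h ^ t = 1 → (g : V →ₗ[k] V) ∈ G6 R R' ω t τ' := by
          intro h hh hR1 hR2 hp
          obtain ⟨j, hj1, hj⟩ := to_HH' hτ' ht' htp' h1' hR2 (conj_iso hgi hh) (by
            rw [conj_pow_app, hp]; group)
          have hndvd : ¬ t ∣ j := by
            rintro ⟨c, rfl⟩
            apply hτ'
            rw [hj1, pow_mul, tw_pow_order ht' htp', one_pow]
          have hσj : σ ^ j ≠ 1 := by
            intro h0
            apply hndvd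
            rw [← tau_order σ h1 ht htp]
            exact orderOf_dvd_of_pow_eq_one h0
          refine ⟨hgi, σ ^ j, hσj, ((h ^ j : V ≃ₗ[k] V) : V →ₗ[k] V), ⟨⟨?_, ?_⟩, iso_pow hh j⟩,
            _, hj, ?_⟩
          · intro r x
            exact hR1.pow j r x
          · intro x
            rw [coe_pow', ← pow_mul, mul_comm, pow_mul, hp, one_pow]; rfl
          · intro x
            change g (((g⁻¹ * h * g) ^ j) x) = (h ^ j) (g x)
            rw [conj_pow_app, conj_app]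
        by_cases hp : ∀ x, (h ^ t) x = x
        · right; right; right
          exact ⟨rfl, key h hiso hσ hσ' (by ext x; exact hp x)⟩
        · by_cases hp' : ∀ x, (h ^ t) x = -x
          · right; right; right
            exact ⟨rfl, key (ng h) (ng_iso hiso) (ng_tw hσ) (by rw [ng_conj]; exact ng_tw hσ')
              (ng_pow_one hto hp')⟩
          · left
            refine ⟨hgi, h ^ t, iso_pow hiso t, ?_, ?_, hp, hp'⟩
            · have := hσ.pow t
              rw [tw_pow_order ht htp] at this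
              exact this
            · have := hσ'.pow t
              rw [tw_pow_order ht' htp', conj_pow_app] at this
              exact this
      · -- different primes
        have hσt : σ ^ t' ≠ 1 := by
          intro h0
          have h3 := orderOf_dvd_of_pow_eq_one h0
          rw [tau_order σ h1 ht htp] at h3
          exact htt ((Nat.prime_dvd_prime_iff_eq htp htp').mp h3)
        have h4 : Tw' (1 : R' ≃ₐ[k] R') (g⁻¹ * h ^ t' * g) := by
          have := hσ'.pow t'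
          rw [tw_pow_order ht' htp', conj_pow_app] at this
          exact this
        rcases caseB hτ ht htp hto hgi (iso_pow hiso t') hσt (hσ.pow t') h4 with h3 | h3
        · left; exact h3
        · right; right; left; exact h3

end

end Pool.Agent.H330.Count
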