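import Pool.Agent.H330.CountBadG2

set_option linter.unusedSectionVars false
set_option linter.unusedVariables false

/-!
# Counting bad elements for two field extension subgroups
-/

namespace Pool.Agent.H330.Count

open Module Finset

section

variable {k V : Type} [Field k] [Fintype k] [AddCommGroup V] [Module k V] [Finite V]
variable {R : Type} [Field R] [Fintype R] [Algebra k R] [Module R V] [IsScalarTower k R V]
variable {R' : Type} [Field R'] [Fintype R'] [Algebra k R'] [Module R' V] [IsScalarTower k R' V]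
variable {ω : V →ₗ[k] V →ₗ[k] k} {ν : k} {t t' n n' m : ℕ} {τ : R ≃ₐ[k] R} {τ' : R' ≃ₐ[k] R'}

theorem mul_bound {q A B x x' y y' : ℕ} (h : A * q ^ x ≤ 2 * q ^ y) (h' : B * q ^ x' ≤ 2 * q ^ y') :
    A * B * q ^ (x + x') ≤ 4 * q ^ (y + y') := by
  calc A * B * q ^ (x + x') = (A * q ^ x) * (B * q ^ x') := by rw [pow_add]; ring
    _ ≤ (2 * q ^ y) * (2 * q ^ y') := Nat.mul_le_mul h h'
    _ = _ := by rw [pow_add]; ring

theorem G1_count (hω : NonDeg ω) (hsw : ∀ x y, ω y x = - ω x y) (h2 : (2 : k) ≠ 0)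
    (ht : finrank k R = t) (h3 : 3 ≤ t) (hto : Odd t)
    (ht' : finrank k R' = t') (h3' : 3 ≤ t')
    (hm : finrank k V = 2 * m) (hmt : m = t * n) (hmt' : m = t' * n') (hq : 3 ≤ Fintype.card k) :
    (G1 R R' ω).ncard ≤ (n - 1) * (4 * Fintype.card k ^ (2 * (m * m))) := by
  classical
  set q := Fintype.card k with hqdef
  have hq0 : 0 < q := by omega
  have hcard : ((Finset.Icc 1 (n - 1) : Finset ℕ) : Set ℕ).ncard = n - 1 := by
    rw [Set.ncard_coe_finset, Nat.card_Icc]; omega
  rw [← hcard]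
  apply exists_count _ _ (Finset.finite_toSet _) (fun (g : V →ₗ[k] V) b => ∃ W W' : Submodule k V,
    NonDeg (resForm ω W) ∧ NonDeg (resForm ω W') ∧ finrank k W = t * (2 * b) ∧
    finrank k W' = finrank k W ∧
    (∀ (r : R), ∀ x ∈ W, r • x ∈ W) ∧ (∀ (r : R'), ∀ x ∈ W', r • x ∈ W') ∧ ∀ x ∈ W', g x ∈ W)
  · rintro g ⟨hg, W, W', hW0, hW1, hWn, hWn', hfr, hWR, hWR', hgW⟩
    obtain ⟨a, ha⟩ := dvd_finrank R W hWR
    have heven : Even (finrank k W) := even_of_alt (resForm ω W) hWn (fun x y => hsw x y) h2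
    have haeven : Even a := by
      rw [ha, ht, Nat.even_mul] at heven
      rcases heven with h | h
      · exact absurd h (Nat.not_even_iff_odd.mpr hto)
      · exact h
    obtain ⟨b, hb⟩ := haeven
    have hpos : 0 < finrank k W := by
      rw [Nat.pos_iff_ne_zero]
      intro h0
      exact hW0 (Submodule.finrank_eq_zero.mp h0)
    have hlt : finrank k W < finrank k V := Submodule.finrank_lt hW1
    have hbpos : 0 < b := by
      rw [Nat.pos_iff_ne_zero]
      rintro rfl
      rw [ha, hb] at hpos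
      simp at hpos
    have hbn : b < n := by
      rw [ha, hb, ht, hm, hmt] at hlt
      by_contra hcon
      push Not at hcon
      have : t * n ≤ t * b := Nat.mul_le_mul_left _ hcon
      have e : t * (b + b) = 2 * (t * b) := by ring
      omega
    refine ⟨b, ?_, W, W', hWn, hWn', ?_, hfr, hWR, hWR', hgW⟩
    · rw [Finset.mem_coe, Finset.mem_Icc]; omega
    · rw [ha, hb, ht, two_mul]
  · intro b hb
    rw [Finset.mem_coe, Finset.mem_Icc] at hb
    by_cases hne : {a | a ∈ G1 R R' ω ∧ ∃ W W' : Submodule k V,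
      NonDeg (resForm ω W) ∧ NonDeg (resForm ω W') ∧ finrank k W = t * (2 * b) ∧
      finrank k W' = finrank k W ∧ (∀ (r : R), ∀ x ∈ W, r • x ∈ W) ∧
      (∀ (r : R'), ∀ x ∈ W', r • x ∈ W') ∧ ∀ x ∈ W', a x ∈ W}.Nonempty
    swap
    · rw [Set.not_nonempty_iff_eq_empty] at hne
      rw [hne, Set.ncard_empty]
      exact Nat.zero_le _
    obtain ⟨_, _, _, W0', _, _, hW0, hfr0, _, hWR0', _⟩ := hne
    obtain ⟨a', ha'⟩ := dvd_finrank R' W0' hWR0'
    rw [hfr0, hW0, ht'] at ha'
    have h1 := (Spread.ofField k R (V := V)).sub_count_all (2 * b)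
      {W | (Spread.ofField k R).Inv W ∧ finrank k W = finrank k R * (2 * b) ∧
        NonDeg (resForm ω W)} (fun W hW => ⟨hW.1, hW.2.1⟩)
      (three_le_pow hq (by rw [ht]; omega))
    have h1' := (Spread.ofField k R' (V := V)).sub_count_all a'
      {W | (Spread.ofField k R').Inv W ∧ finrank k W = finrank k R' * a' ∧
        NonDeg (resForm ω W)} (fun W hW => ⟨hW.1, hW.2.1⟩)
      (three_le_pow hq (by rw [ht']; omega))
    have h4 := mul_bound h1 h1'
    have h5 := exists_count
      {a | a ∈ G1 R R' ω ∧ ∃ W W' : Submodule k V,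
        NonDeg (resForm ω W) ∧ NonDeg (resForm ω W') ∧ finrank k W = t * (2 * b) ∧
        finrank k W' = finrank k W ∧ (∀ (r : R), ∀ x ∈ W, r • x ∈ W) ∧
        (∀ (r : R'), ∀ x ∈ W', r • x ∈ W') ∧ ∀ x ∈ W', a x ∈ W}
      ({W | (Spread.ofField k R).Inv W ∧ finrank k W = finrank k R * (2 * b) ∧
        NonDeg (resForm ω W)} ×ˢ
      {W | (Spread.ofField k R').Inv W ∧ finrank k W = finrank k R' * a' ∧
        NonDeg (resForm ω W)}) (Set.toFinite _) (fun g p => ∀ x ∈ p.2, g x ∈ p.1) ?_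
      (q ^ (tri (t * (2 * b)) + tri (2 * m - t * (2 * b)))) ?_
    · rw [Set.ncard_prod] at h5
      refine h5.trans (arith1 hq0 h4 ?_)
      obtain ⟨c, hc⟩ : ∃ c, n = b + c := ⟨n - b, by omega⟩
      have hc1 : 1 ≤ c := by omega
      have e1 : 2 * m - t * (2 * b) = t * (2 * c) := by
        rw [hmt, hc]
        have : 2 * (t * (b + c)) = t * (2 * b) + t * (2 * c) := by ring
        rw [this, Nat.add_sub_cancel_left]
      rw [e1, hm, ht, ht']
      have e2 := tri_two (t * (2 * b))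
      have e3 := tri_two (t * (2 * c))
      set X := t * (2 * b) with hX
      set Y := t * (2 * c) with hY
      have hXY : 2 * m = X + Y := by rw [hmt, hc, hX, hY]; ring
      have hX3 : 3 * (2 * b) ≤ X := Nat.mul_le_mul_right _ h3
      have hX3' : 3 * a' ≤ X := by rw [ha']; exact Nat.mul_le_mul_right _ h3'
      have hY3 : 6 ≤ Y := by
        have : 3 * 2 ≤ t * (2 * c) := Nat.mul_le_mul h3 (by omega)
        exact this
      have hX6 : 6 ≤ X := by
        have : 3 * 2 ≤ t * (2 * b) := Nat.mul_le_mul h3 (by omega)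
        exact this
      have f1 : 3 * (2 * b) * Y ≤ X * Y := Nat.mul_le_mul_right _ hX3
      have f2 : 3 * a' * Y ≤ X * Y := Nat.mul_le_mul_right _ hX3'
      have f3 : X * 6 ≤ X * Y := Nat.mul_le_mul_left _ hY3
      have f4 : 6 * Y ≤ X * Y := Nat.mul_le_mul_right _ hX6
      have g1 : t * (2 * b * (2 * b)) = X * (2 * b) := by rw [hX]; ring
      have g2 : t' * (a' * a') = X * a' := by rw [ha']; ring
      have g3 : 2 * (2 * (m * m)) = (X + Y) * (X + Y) := by rw [← hXY]; ring
      rw [g1, g2, hXY]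
      have : 2 * ((X + Y) * (2 * b) + (X + Y) * a' + (tri X + tri Y))
          ≤ 2 * (X * (2 * b) + X * a' + 2 * (m * m)) := by
        rw [mul_add 2 (X * (2 * b) + X * a'), g3]
        linarith [f1, f2, f3, f4, e2, e3]
      omega
    · rintro g ⟨_, W, W', h6, h7, h8, h9, h10, h11, h12⟩
      refine ⟨(W, W'), ⟨⟨(Spread.ofField_inv R W).mpr h10, by rw [h8, ht], h6⟩,
        ⟨(Spread.ofField_inv R' W').mpr h11, by rw [h9, h8, ha', ht'], h7⟩⟩, h12⟩
    · rintro ⟨W, W'⟩ ⟨⟨h6, h7, h8⟩, ⟨h9, h10, h11⟩⟩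
      have hW' : finrank k W' = t * (2 * b) := by rw [h10, ht', ha']
      refine le_trans (Set.ncard_le_ncard ?_ (Set.toFinite _))
        (iso_stab_nondeg hω hm W' W (t * (2 * b)) hW' (by rw [h7, ht]) h8 h11)
      rintro g ⟨⟨⟨hg, _⟩, _⟩, hgW⟩
      exact ⟨hg, hgW⟩

theorem G2_count (hω : NonDeg ω)
    (ht : finrank k R = t) (h3 : 3 ≤ t)
    (ht' : finrank k R' = t') (h3' : 3 ≤ t')
    (hm : finrank k V = 2 * m) (hmt : m = t * n) (hmt' : m = t' * n') (hq : 3 ≤ Fintype.card k)
    (hcase : 9 ≤ m ∨ (n = 1 ∧ n' = 1 ∧ 5 ≤ m)) :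
    (G2 R R' ω).ncard ≤ n * (4 * Fintype.card k ^ (2 * (m * m))) := by
  classical
  set q := Fintype.card k with hqdef
  have hq0 : 0 < q := by omega
  have hcard : ((Finset.Icc 1 n : Finset ℕ) : Set ℕ).ncard = n := by
    rw [Set.ncard_coe_finset, Nat.card_Icc]; omega
  rw [← hcard]
  apply exists_count _ _ (Finset.finite_toSet _) (fun (g : V →ₗ[k] V) b => ∃ W W' : Submodule k V,
    Isot ω W ∧ Isot ω W' ∧ finrank k W = t * b ∧
    finrank k W' = finrank k W ∧
    (∀ (r : R), ∀ x ∈ W, r • x ∈ W) ∧ (∀ (r : R'), ∀ x ∈ W', r • x ∈ W') ∧ ∀ x ∈ W', g x ∈ W)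
  · rintro g ⟨hg, W, W', hW0, hWn, hWn', hfr, hWR, hWR', hgW⟩
    obtain ⟨b, hb⟩ := dvd_finrank R W hWR
    have hpos : 0 < finrank k W := by
      rw [Nat.pos_iff_ne_zero]
      intro h0
      exact hW0 (Submodule.finrank_eq_zero.mp h0)
    have hle : finrank k W ≤ m := by
      have h1 := finrank_perp hω W
      have h2 : W ≤ perp ω W := fun y hy x hx => hWn x hx y hy
      have h4 := Submodule.finrank_mono h2
      omega
    have hbpos : 0 < b := by
      rw [Nat.pos_iff_ne_zero]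
      rintro rfl
      rw [hb] at hpos
      simp at hpos
    have hbn : b ≤ n := by
      rw [hb, ht, hmt] at hle
      exact Nat.le_of_mul_le_mul_left hle (by omega)
    refine ⟨b, ?_, W, W', hWn, hWn', ?_, hfr, hWR, hWR', hgW⟩
    · rw [Finset.mem_coe, Finset.mem_Icc]; omega
    · rw [hb, ht]
  · intro b hb
    rw [Finset.mem_coe, Finset.mem_Icc] at hb
    by_cases hne : {a | a ∈ G2 R R' ω ∧ ∃ W W' : Submodule k V,
      Isot ω W ∧ Isot ω W' ∧ finrank k W = t * b ∧
      finrank k W' = finrank k W ∧ (∀ (r : R), ∀ x ∈ W, r • x ∈ W) ∧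
      (∀ (r : R'), ∀ x ∈ W', r • x ∈ W') ∧ ∀ x ∈ W', a x ∈ W}.Nonempty
    swap
    · rw [Set.not_nonempty_iff_eq_empty] at hne
      rw [hne, Set.ncard_empty]
      exact Nat.zero_le _
    obtain ⟨_, _, _, W0', _, _, hW0, hfr0, _, hWR0', _⟩ := hne
    obtain ⟨a', ha'⟩ := dvd_finrank R' W0' hWR0'
    rw [hfr0, hW0, ht'] at ha'
    have hXm : t * b ≤ m := by rw [hmt]; exact Nat.mul_le_mul_left _ hb.2
    have h1 := (Spread.ofField k R (V := V)).sub_count_isot hω b
      {W | (Spread.ofField k R).Inv W ∧ finrank k W = finrank k R * b ∧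
        Isot ω W} (fun W hW => ⟨hW.1, hW.2.1⟩) (fun W hW => hW.2.2)
      (three_le_pow hq (by rw [ht]; omega))
    have h1' := (Spread.ofField k R' (V := V)).sub_count_isot hω a'
      {W | (Spread.ofField k R').Inv W ∧ finrank k W = finrank k R' * a' ∧
        Isot ω W} (fun W hW => ⟨hW.1, hW.2.1⟩) (fun W hW => hW.2.2)
      (three_le_pow hq (by rw [ht']; omega))
    have h4 := mul_bound h1 h1'
    have h5 := exists_count
      {a | a ∈ G2 R R' ω ∧ ∃ W W' : Submodule k V,
        Isot ω W ∧ Isot ω W' ∧ finrank k W = t * b ∧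
        finrank k W' = finrank k W ∧ (∀ (r : R), ∀ x ∈ W, r • x ∈ W) ∧
        (∀ (r : R'), ∀ x ∈ W', r • x ∈ W') ∧ ∀ x ∈ W', a x ∈ W}
      ({W | (Spread.ofField k R).Inv W ∧ finrank k W = finrank k R * b ∧ Isot ω W} ×ˢ
      {W | (Spread.ofField k R').Inv W ∧ finrank k W = finrank k R' * a' ∧ Isot ω W})
      (Set.toFinite _) (fun g p => ∀ x ∈ p.2, g x ∈ p.1) ?_
      (q ^ ((t * b) * (t * b) + tri (2 * m - t * b))) ?_
    · rw [Set.ncard_prod] at h5
      refine h5.trans (arith1 hq0 h4 ?_)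
      rw [hm, ht, ht']
      have hs1 := sum_range_sub (2 * m) t b (by omega)
      have hs2 := sum_range_sub (2 * m) t' a' (by rw [← ha']; omega)
      have e3 := tri_two (2 * m - t * b)
      set X := t * b with hX
      obtain ⟨c, hc⟩ : ∃ c, m = X + c := ⟨m - X, by omega⟩
      have e1 : 2 * m - X = X + 2 * c := by omega
      rw [e1] at e3 ⊢
      set S := ∑ i ∈ range b, (2 * m - t * i) with hS
      set S' := ∑ i ∈ range a', (2 * m - t' * i) with hS'
      have hapos : 1 ≤ a' := by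
        rcases Nat.eq_zero_or_pos a' with h | h
        · exfalso
          rw [h, mul_zero] at ha'
          have : 0 < X := Nat.mul_pos (by omega) (by omega)
          omega
        · exact h
      have g1 : t * (b * (b - 1)) + X = X * b := by
        obtain ⟨u, rfl⟩ : ∃ u, b = u + 1 := ⟨b - 1, by omega⟩
        rw [Nat.add_sub_cancel, hX]; ring
      have g2 : t' * (a' * (a' - 1)) + X = X * a' := by
        obtain ⟨u, rfl⟩ : ∃ u, a' = u + 1 := ⟨a' - 1, by omega⟩
        rw [Nat.add_sub_cancel, ha']; ring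
      have g3 : t * (b * b) = X * b := by rw [hX]; ring
      have g4 : t' * (a' * a') = X * a' := by rw [ha']; ring
      rw [g3, g4]
      -- the key inequality
      have hkey : (X + 4 * c) * (b + a') + 3 * X + 2 * c ≤ X * (X + 4 * c) := by
        rcases hcase with h9 | ⟨hn1, hn1', h5m⟩
        · have hX3 : 3 * b ≤ X := Nat.mul_le_mul_right _ h3
          have hX3' : 3 * a' ≤ X := by rw [ha']; exact Nat.mul_le_mul_right _ h3'
          have hXX : 3 ≤ X := le_trans (by omega) hX3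
          have f1 : 3 * b * (X + 4 * c) ≤ X * (X + 4 * c) := Nat.mul_le_mul_right _ hX3
          have f2 : 3 * a' * (X + 4 * c) ≤ X * (X + 4 * c) := Nat.mul_le_mul_right _ hX3'
          have f3 : 9 * X + 6 * c ≤ X * (X + 4 * c) := by
            obtain ⟨d, hd⟩ : ∃ d, X = 3 + d := ⟨X - 3, by omega⟩
            have h9' : 9 ≤ X + c := by omega
            have f4 : X * 9 ≤ X * (X + c) := Nat.mul_le_mul_left _ h9'
            have f5 : 2 * c ≤ X * c := Nat.mul_le_mul_right _ (by omega)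
            linarith [f4, f5]
          linarith [f1, f2, f3]
        · have hb1 : b = 1 := by omega
          have hX' : X = m := by rw [hX, hb1, hmt, hn1]
          have ha1 : a' = 1 := by
            have h7 : t' * a' = t' * 1 := by rw [← ha', hX', hmt', hn1']
            exact Nat.eq_of_mul_eq_mul_left (by omega) h7
          have hc0 : c = 0 := by omega
          rw [hb1, ha1, hc0, hX']
          have : 5 * m ≤ m * m := Nat.mul_le_mul_right _ h5m
          linarith
      rw [hc] at hs1 hs2 ⊢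
      generalize t * (b * (b - 1)) = u1 at g1 hs1
      generalize t' * (a' * (a' - 1)) = u2 at g2 hs2
      clear_value S S' X
      clear h5 h4 h1 h1' hcase
      generalize tri (X + 2 * c) = T at e3 ⊢
      linarith [hs1, hs2, e3, g1, g2, hkey]
    · rintro g ⟨_, W, W', h6, h7, h8, h9, h10, h11, h12⟩
      refine ⟨(W, W'), ⟨⟨(Spread.ofField_inv R W).mpr h10, by rw [h8, ht], h6⟩,
        ⟨(Spread.ofField_inv R' W').mpr h11, by rw [h9, h8, ha', ht'], h7⟩⟩, h12⟩
    · rintro ⟨W, W'⟩ ⟨⟨h6, h7, h8⟩, ⟨h9, h10, h11⟩⟩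
      have hW' : finrank k W' = t * b := by rw [h10, ht', ha']
      refine le_trans (Set.ncard_le_ncard ?_ (Set.toFinite _))
        (iso_stab_all hω hm W' W (t * b) hW' (by rw [h7, ht]))
      rintro g ⟨⟨⟨hg, _⟩, _⟩, hgW⟩
      exact ⟨hg, hgW⟩

end

end Pool.Agent.H330.Count
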