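import Pool.Agent.H330.CountBadH

set_option linter.unusedSectionVars false
set_option linter.unusedVariables false

/-!
# Counting bad elements for two field extension subgroups, II
-/

namespace Pool.Agent.H330.Count

open Module Finset

section

variable {k V : Type} [Field k] [Fintype k] [AddCommGroup V] [Module k V] [Finite V]
variable {R : Type} [Field R] [Fintype R] [Algebra k R] [Module R V] [IsScalarTower k R V]
variable {R' : Type} [Field R'] [Fintype R'] [Algebra k R'] [Module R' V] [IsScalarTower k R' V]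
variable {ω : V →ₗ[k] V →ₗ[k] k} {ν : k} {t t' n n' m : ℕ} {τ : R ≃ₐ[k] R} {τ' : R' ≃ₐ[k] R'}

/-- isometries conjugating two roots -/
theorem conj_root_count (hω : NonDeg ω) (hν : ¬ IsSquare ν) (hm : finrank k V = 2 * m)
    {J J' : V →ₗ[k] V} (hJ' : ∀ x, J' (J' x) = ν • x) :
    {g : V →ₗ[k] V | Isom ω ω g ∧ ∀ x, g (J' x) = J (g x)}.ncard
      ≤ Fintype.card k ^ (2 * tri m) := by
  by_cases hne : {g : V →ₗ[k] V | Isom ω ω g ∧ ∀ x, g (J' x) = J (g x)}.Nonempty
  · obtain ⟨g1, hg1⟩ := hne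
    have h := iso_count hω hω (s := 2) (by norm_num) (Spread.ofJ hν J' hJ') hm hm
      {g : V →ₗ[k] V | Isom ω ω g ∧ ∀ x, g (J' x) = J (g x)} (fun g hg => hg.1) (by
        rintro g ⟨_, hg⟩ g2 ⟨_, hg2⟩ v hv x hx
        rw [Spread.ofJ_O, Submodule.mem_span_pair] at hx
        obtain ⟨a, b, rfl⟩ := hx
        rw [map_add, map_add, map_smul, map_smul, map_smul, map_smul, hg, hg2, hv])
      m g1 ⊥ hg1 (Spread.inv_bot _) (by rw [finrank_bot, zero_add])
    refine le_trans (Set.ncard_le_ncard ?_ (Set.toFinite _)) h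
    intro g hg
    refine ⟨hg, fun x hx => ?_⟩
    rw [Submodule.mem_bot] at hx
    rw [hx, map_zero, map_zero]
  · rw [Set.not_nonempty_iff_eq_empty] at hne
    rw [hne, Set.ncard_empty]
    exact Nat.zero_le _

theorem G3_count (hω : NonDeg ω) (hν : ¬ IsSquare ν)
    (ht : finrank k R = t) (hto : Odd t) (ht' : finrank k R' = t') (hto' : Odd t')
    (hm : finrank k V = 2 * m) (hmt : m = t * n) (hmt' : m = t' * n') :
    (G3 R R' ω ν).ncard ≤ Fintype.card k ^ ((m * n + m) + (m * n' + m) + 2 * tri m) := by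
  have hνR : ¬ IsSquare (algebraMap k R ν) := not_sq_of_odd hν (by rw [ht]; exact hto)
  have hνR' : ¬ IsSquare (algebraMap k R' ν) := not_sq_of_odd hν (by rw [ht']; exact hto')
  have h1 := root_count_all (V := V) R hω hνR n (by rw [ht, hm, hmt]; ring)
  have h1' := root_count_all (V := V) R' hω hνR' n' (by rw [ht', hm, hmt']; ring)
  rw [ht] at h1
  rw [ht'] at h1'
  have e1 : t * 2 * tri n = m * n + m := by
    rw [mul_assoc, tri_two, hmt]; ring
  have e1' : t' * 2 * tri n' = m * n' + m := by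
    rw [mul_assoc, tri_two, hmt']; ring
  rw [e1] at h1
  rw [e1'] at h1'
  have h5 := exists_count (G3 R R' ω ν) (Roots R ω ν ×ˢ Roots R' ω ν) (Set.toFinite _)
    (fun g p => ∀ x, g (p.2 x) = p.1 (g x)) ?_ (Fintype.card k ^ (2 * tri m)) ?_
  · rw [Set.ncard_prod] at h5
    refine h5.trans ?_
    rw [pow_add, pow_add]
    exact Nat.mul_le_mul_right _ (Nat.mul_le_mul h1 h1')
  · rintro g ⟨_, J, hJ, J', hJ', h⟩
    exact ⟨(J, J'), ⟨hJ, hJ'⟩, h⟩
  · rintro ⟨J, J'⟩ ⟨hJ, hJ'⟩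
    refine le_trans (Set.ncard_le_ncard ?_ (Set.toFinite _))
      (conj_root_count hω hν hm (J := J) hJ'.2.1)
    rintro g ⟨⟨hg, _⟩, hgc⟩
    exact ⟨hg, hgc⟩

/-- `R`-linear isometries agreeing with the identity on an invariant subspace -/
theorem lin_fix_count (hω : NonDeg ω) (ht : finrank k R = t) (ht0 : 0 < t) {N : ℕ}
    (hN : finrank k V = N) (X : Submodule k V) (hX : ∀ (r : R), ∀ x ∈ X, r • x ∈ X) (c : ℕ)
    (hc : finrank k X + t * c = N) :
    {h : V →ₗ[k] V | (Isom ω ω h ∧ ∀ (r : R) x, h (r • x) = r • h x) ∧ ∀ x ∈ X, h x = x}.ncard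
      ≤ Fintype.card k ^ (t * tri c) := by
  subst ht
  have h := iso_count hω hω (s := finrank k R) ht0 (Spread.ofField k R) hN hN
    {h : V →ₗ[k] V | Isom ω ω h ∧ ∀ (r : R) x, h (r • x) = r • h x} (fun g hg => hg.1) (by
      rintro g ⟨_, hg⟩ g2 ⟨_, hg2⟩ v hv x hx
      rw [Spread.ofField_O, Submodule.restrictScalars_mem] at hx
      obtain ⟨r, rfl⟩ := Submodule.mem_span_singleton.mp hx
      rw [hg, hg2, hv])
    c LinearMap.id X ⟨fun x y => rfl, fun r x => rfl⟩ ((Spread.ofField_inv R X).mpr hX) hc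
  refine le_trans (Set.ncard_le_ncard ?_ (Set.toFinite _)) h
  intro g hg
  exact ⟨hg.1, fun x hx => hg.2 x hx⟩

/-- all `R`-linear isometries -/
theorem lin_count (hω : NonDeg ω) (ht : finrank k R = t) (ht0 : 0 < t)
    (hm : finrank k V = 2 * m) (hmt : m = t * n) :
    {h : V →ₗ[k] V | Isom ω ω h ∧ ∀ (r : R) x, h (r • x) = r • h x}.ncard
      ≤ Fintype.card k ^ (t * tri (2 * n)) := by
  have h := lin_fix_count (ω := ω) hω ht ht0 hm ⊥ (by
    intro r x hx
    rw [Submodule.mem_bot] at hx ⊢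
    rw [hx, smul_zero]) (2 * n) (by rw [finrank_bot, hmt]; ring)
  refine le_trans (Set.ncard_le_ncard ?_ (Set.toFinite _)) h
  intro g hg
  refine ⟨hg, fun x hx => ?_⟩
  rw [Submodule.mem_bot] at hx
  rw [hx, map_zero]

/-- `R`-linear isometries with a fixed space of dimension `t c` -/
theorem fixdim_count (hω : NonDeg ω) (ht : finrank k R = t) (ht0 : 0 < t)
    (hm : finrank k V = 2 * m) (hmt : m = t * n) (hq : 3 ≤ Fintype.card k) (c : ℕ)
    (hc : c ≤ 2 * n) :
    {h : V →ₗ[k] V | (Isom ω ω h ∧ ∀ (r : R) x, h (r • x) = r • h x) ∧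
      finrank k (V0 h) = t * c}.ncard * Fintype.card k ^ (t * (c * c))
      ≤ 2 * Fintype.card k ^ (2 * m * c + t * tri (2 * n - c)) := by
  subst ht
  have h1 := (Spread.ofField k R (V := V)).sub_count_all c
    {W | (Spread.ofField k R).Inv W ∧ finrank k W = finrank k R * c} (fun W hW => hW)
    (three_le_pow hq ht0)
  rw [hm] at h1
  have h2 := exists_count
    {h : V →ₗ[k] V | (Isom ω ω h ∧ ∀ (r : R) x, h (r • x) = r • h x) ∧
      finrank k (V0 h) = finrank k R * c}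
    {W : Submodule k V | (Spread.ofField k R).Inv W ∧ finrank k W = finrank k R * c}
    (Set.toFinite _) (fun h W => ∀ x ∈ W, h x = x) ?_
    (Fintype.card k ^ (finrank k R * tri (2 * n - c))) ?_
  · calc _ ≤ ({W : Submodule k V | (Spread.ofField k R).Inv W ∧
          finrank k W = finrank k R * c}.ncard *
          Fintype.card k ^ (finrank k R * tri (2 * n - c))) *
          Fintype.card k ^ (finrank k R * (c * c)) :=
          Nat.mul_le_mul_right _ h2
      _ = ({W : Submodule k V | (Spread.ofField k R).Inv W ∧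
          finrank k W = finrank k R * c}.ncard *
          Fintype.card k ^ (finrank k R * (c * c))) *
          Fintype.card k ^ (finrank k R * tri (2 * n - c)) := by ring
      _ ≤ (2 * Fintype.card k ^ (2 * m * c)) *
          Fintype.card k ^ (finrank k R * tri (2 * n - c)) :=
          Nat.mul_le_mul_right _ h1
      _ = _ := by rw [pow_add]; ring
  · rintro h ⟨⟨hh, hhR⟩, hfr⟩
    refine ⟨V0 h, ⟨?_, hfr⟩, fun x hx => hx⟩
    rw [Spread.ofField_inv]
    intro r x hx
    rw [mem_V0] at hx ⊢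
    rw [hhR, hx]
  · rintro W ⟨hW, hfr⟩
    rw [Spread.ofField_inv] at hW
    refine le_trans (Set.ncard_le_ncard ?_ (Set.toFinite _))
      (lin_fix_count (ω := ω) hω rfl ht0 hm W hW (2 * n - c) (by
        rw [hfr, hmt]
        obtain ⟨d, hd⟩ : ∃ d, 2 * n = c + d := ⟨2 * n - c, by omega⟩
        rw [hd, Nat.add_sub_cancel_left, ← mul_assoc, mul_comm 2 (finrank k R), mul_assoc, hd]
        ring))
    rintro h ⟨⟨h1, _⟩, h3⟩
    exact ⟨h1, h3⟩

theorem iso_surj (hω : NonDeg ω) {g : V →ₗ[k] V} (hg : Isom ω ω g) : Function.Bijective g := by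
  have h1 := hg.injective hω
  have : FiniteDimensional k V := inferInstance
  exact ⟨h1, LinearMap.injective_iff_surjective.mp h1⟩

/-- the fixed space of a conjugate -/
theorem conj_V0 (hω : NonDeg ω) {g l h : V →ₗ[k] V} (hg : Isom ω ω g)
    (hc : ∀ x, g (l x) = h (g x)) : finrank k (V0 h) = finrank k (V0 l) := by
  have hb := iso_surj hω hg
  have h1 : V0 h = (V0 l).map g := by
    ext x
    constructor
    · intro hx
      obtain ⟨y, rfl⟩ := hb.2 x
      refine ⟨y, ?_, rfl⟩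
      change l y = y
      apply hb.1
      rw [hc]
      exact hx
    · rintro ⟨y, hy, rfl⟩
      have hy' : l y = y := hy
      change h (g y) = g y
      rw [← hc, hy']
  rw [h1]
  exact (LinearEquiv.finrank_eq (Submodule.equivMapOfInjective g hb.1 (V0 l))).symm

/-- the number of `g` in `G4`, abstractly -/
theorem G4_aux (hω : NonDeg ω) (hR' : ∀ (r : R') x y, ω (r • x) y = ω x (r • y))
    (hτ' : τ' ≠ 1) (ht' : finrank k R' = t') (htp' : t'.Prime)
    (hm : finrank k V = 2 * m) (hmt' : m = t' * n') (hq : 3 ≤ Fintype.card k) (M : ℕ)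
    (hM : {h : V →ₗ[k] V | (Isom ω ω h ∧ ∀ (r : R) x, h (r • x) = r • h x) ∧
      finrank k (V0 h) = 2 * n'}.ncard ≤ M) :
    (G4 R R' ω t' τ').ncard ≤
      (2 * Fintype.card k ^ ((t' - 1) * tri (2 * n'))) * M *
        Fintype.card k ^ (t' * tri (2 * n')) := by
  have hn : finrank k V = t' * (2 * n') := by rw [hm, hmt']; ring
  have h1 := HH_count τ' hω hR' hτ' ht' htp' (2 * n') hn hq
  have h5 := exists_count (G4 R R' ω t' τ') (HH ω t' τ' ×ˢ
    {h : V →ₗ[k] V | (Isom ω ω h ∧ ∀ (r : R) x, h (r • x) = r • h x) ∧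
      finrank k (V0 h) = 2 * n'}) (Set.toFinite _)
    (fun g p => ∀ x, g (p.1 x) = p.2 (g x)) ?_ (Fintype.card k ^ (t' * tri (2 * n'))) ?_
  · rw [Set.ncard_prod] at h5
    exact h5.trans (Nat.mul_le_mul_right _ (Nat.mul_le_mul h1 hM))
  · rintro g ⟨hg, l, hl, h, hh, hhR, hc⟩
    refine ⟨(l, h), ⟨hl, ⟨⟨hh, hhR⟩, ?_⟩⟩, hc⟩
    rw [conj_V0 hω hg hc]
    exact finrank_V0 hτ' ht' htp' hl.1 (2 * n') hn
  · rintro ⟨l, h⟩ ⟨hl, _⟩
    refine le_trans (Set.ncard_le_ncard ?_ (Set.toFinite _))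
      (intertwine_count hω hτ' ht' htp' hl.1 (2 * n') hn h)
    rintro g ⟨⟨hg, _⟩, hgc⟩
    exact ⟨hg, hgc⟩

theorem G4_count (hω : NonDeg ω) (hR' : ∀ (r : R') x y, ω (r • x) y = ω x (r • y))
    (ht : finrank k R = t) (ht0 : 0 < t) (hmt : m = t * n)
    (hτ' : τ' ≠ 1) (ht' : finrank k R' = t') (htp' : t'.Prime)
    (hm : finrank k V = 2 * m) (hmt' : m = t' * n') (hq : 3 ≤ Fintype.card k) :
    (G4 R R' ω t' τ').ncard ≤ 2 * Fintype.card k ^
      ((t' - 1) * tri (2 * n') + t * tri (2 * n) + t' * tri (2 * n')) := by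
  refine (G4_aux hω hR' hτ' ht' htp' hm hmt' hq (Fintype.card k ^ (t * tri (2 * n))) ?_).trans
    (le_of_eq ?_)
  · refine le_trans (Set.ncard_le_ncard ?_ (Set.toFinite _)) (lin_count (ω := ω) hω ht ht0 hm hmt)
    rintro h ⟨h1, _⟩
    exact h1
  · rw [pow_add, pow_add]; ring

/-- the case `m = 9` -/
theorem G4_count9 (hω : NonDeg ω) (hR' : ∀ (r : R') x y, ω (r • x) y = ω x (r • y))
    (ht : finrank k R = 3) (hτ' : τ' ≠ 1) (ht' : finrank k R' = 3)
    (hm : finrank k V = 2 * 9) (hq : 3 ≤ Fintype.card k) :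
    (G4 R R' ω 3 τ').ncard ≤ 4 * Fintype.card k ^ 159 := by
  have hq0 : 0 < Fintype.card k := by omega
  have h1 := fixdim_count (ω := ω) (m := 9) (n := 3) hω ht (by norm_num) hm (by norm_num) hq 2
    (by norm_num)
  have h2 := arith1 (z := 0) (w := 54) hq0 h1 (by norm_num [tri, Finset.sum_range_succ])
  rw [pow_zero, mul_one] at h2
  refine (G4_aux (n' := 3) hω hR' hτ' ht' (by norm_num) hm (by norm_num) hq
    (2 * Fintype.card k ^ 54) ?_).trans (le_of_eq ?_)
  · refine le_trans (Set.ncard_le_ncard ?_ (Set.toFinite _)) h2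
    rintro h ⟨h3, h4⟩
    exact ⟨h3, h4.trans (by norm_num)⟩
  · norm_num [tri, Finset.sum_range_succ]
    ring

/-- inverses -/
noncomputable def inv' (g : V →ₗ[k] V) : V →ₗ[k] V :=
  open Classical in
  if h : Function.Bijective g then ((LinearEquiv.ofBijective g h).symm : V →ₗ[k] V) else 0

theorem inv'_left {g : V →ₗ[k] V} (h : Function.Bijective g) (x : V) : inv' g (g x) = x := by
  rw [inv', dif_pos h]
  exact (LinearEquiv.ofBijective g h).symm_apply_apply x

theorem inv'_right {g : V →ₗ[k] V} (h : Function.Bijective g) (x : V) : g (inv' g x) = x := by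
  rw [inv', dif_pos h]
  exact (LinearEquiv.ofBijective g h).apply_symm_apply x

theorem G5_count (hω : NonDeg ω) : (G5 R R' ω t τ).ncard ≤ (G4 R' R ω t τ).ncard := by
  apply Set.ncard_le_ncard_of_injOn inv' _ _ (Set.toFinite _)
  · rintro g ⟨hg, l, hl, h, hh, hhR, hc⟩
    have hb := iso_surj hω hg
    refine ⟨fun x y => ?_, l, hl, h, hh, hhR, fun x => ?_⟩
    · rw [← hg, inv'_right hb, inv'_right hb]
    · apply hb.1
      rw [inv'_right hb, hc, inv'_right hb]
  · rintro g ⟨hg, _⟩ g' ⟨hg', _⟩ heq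
    have hb := iso_surj hω hg
    have hb' := iso_surj hω hg'
    ext x
    have h1 := inv'_left hb x
    have h2 : inv' g' (g x) = x := by rw [← heq]; exact h1
    rw [← inv'_right hb' (g x), h2]

theorem G6_count (hω : NonDeg ω) (hR : ∀ (r : R) x y, ω (r • x) y = ω x (r • y))
    (hR' : ∀ (r : R') x y, ω (r • x) y = ω x (r • y))
    (ht : finrank k R = t) (htp : t.Prime) (hmt : m = t * n)
    (hτ' : τ' ≠ 1) (ht' : finrank k R' = t)
    (hm : finrank k V = 2 * m) (hq : 3 ≤ Fintype.card k) :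
    (G6 R R' ω t τ').ncard ≤ (4 * t) * Fintype.card k ^ ((3 * t - 2) * tri (2 * n)) := by
  have hn : finrank k V = t * (2 * n) := by rw [hm, hmt]; ring
  have hcard : Nat.card (R ≃ₐ[k] R) = t := by rw [← ht]; exact IsGalois.card_aut_eq_finrank k R
  have : Finite (R ≃ₐ[k] R) := Nat.finite_of_card_ne_zero (by rw [hcard]; exact htp.ne_zero)
  have h5 := exists_count (G6 R R' ω t τ') {σ : R ≃ₐ[k] R | σ ≠ 1} (Set.toFinite _)
    (fun g σ => ∃ h ∈ HH ω t σ, ∃ l ∈ HH ω t τ', ∀ x, g (l x) = h (g x)) ?_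
    ((2 * Fintype.card k ^ ((t - 1) * tri (2 * n))) *
      (2 * Fintype.card k ^ ((t - 1) * tri (2 * n))) *
        Fintype.card k ^ (t * tri (2 * n))) ?_
  · have h6 : {σ : R ≃ₐ[k] R | σ ≠ 1}.ncard ≤ t := by
      rw [← hcard]
      exact Set.ncard_le_card _
    refine h5.trans ((Nat.mul_le_mul_right _ h6).trans (le_of_eq ?_))
    have e : (3 * t - 2) * tri (2 * n)
        = (t - 1) * tri (2 * n) + (t - 1) * tri (2 * n) + t * tri (2 * n) := by
      rw [← add_mul, ← add_mul]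
      congr 1
      have := htp.pos
      omega
    rw [e, pow_add, pow_add]; ring
  · rintro g ⟨_, σ, hσ, h⟩
    exact ⟨σ, hσ, h⟩
  · intro σ hσ
    have h1 := HH_count σ hω hR hσ ht htp (2 * n) hn hq
    have h1' := HH_count τ' hω hR' hτ' ht' htp (2 * n) hn hq
    have h6 := exists_count {g | g ∈ G6 R R' ω t τ' ∧ ∃ h ∈ HH ω t σ, ∃ l ∈ HH ω t τ',
      ∀ x, g (l x) = h (g x)} (HH ω t σ ×ˢ HH ω t τ') (Set.toFinite _)
      (fun g p => ∀ x, g (p.2 x) = p.1 (g x)) ?_ (Fintype.card k ^ (t * tri (2 * n))) ?_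
    · rw [Set.ncard_prod] at h6
      exact h6.trans (Nat.mul_le_mul_right _ (Nat.mul_le_mul h1 h1'))
    · rintro g ⟨_, h, hh, l, hl, hc⟩
      exact ⟨(h, l), ⟨hh, hl⟩, hc⟩
    · rintro ⟨h, l⟩ ⟨_, hl⟩
      refine le_trans (Set.ncard_le_ncard ?_ (Set.toFinite _))
        (intertwine_count hω hτ' ht' htp hl.1 (2 * n) hn h)
      rintro g ⟨⟨⟨hg, _⟩, _⟩, hgc⟩
      exact ⟨hg, hgc⟩

end

end Pool.Agent.H330.Count
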