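import Pool.Agent.H330.CountThreeB

set_option linter.unusedSectionVars false
set_option linter.unusedVariables false

/-!
# Bad skew roots for a field extension subgroup
-/

namespace Pool.Agent.H330.Count

open Module Finset

section

variable {k V : Type} [Field k] [Fintype k] [AddCommGroup V] [Module k V] [Finite V]

/-- nondegenerate alternating forms live in even dimension -/
theorem even_of_alt {W : Type} [AddCommGroup W] [Module k W] [Finite W] (β : W →ₗ[k] W →ₗ[k] k)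
    (hβ : NonDeg β) (hsw : ∀ x y, β y x = - β x y) (h2 : (2 : k) ≠ 0) :
    Even (finrank k W) := by
  classical
  by_contra h
  rw [Nat.not_even_iff_odd] at h
  let b := Module.finBasis k W
  have h1 := (LinearMap.BilinForm.nondegenerate_iff_det_ne_zero b).mp (nondegenerate_of hβ)
  set M := LinearMap.BilinForm.toMatrix b β with hM
  apply h1
  have h3 : M.transpose = -M := by
    ext i j
    rw [Matrix.transpose_apply, Matrix.neg_apply, hM, LinearMap.BilinForm.toMatrix_apply,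
      LinearMap.BilinForm.toMatrix_apply]
    exact hsw _ _
  have h4 : M.det = - M.det := by
    conv_lhs => rw [← Matrix.det_transpose, h3, Matrix.det_neg, Fintype.card_fin, h.neg_one_pow]
    ring
  have h5 : 2 * M.det = 0 := by linear_combination h4
  exact (mul_eq_zero.mp h5).resolve_left h2

variable {R : Type} [Field R] [Fintype R] [Algebra k R] [Module R V] [IsScalarTower k R V]
variable {ω : V →ₗ[k] V →ₗ[k] k} {ν : k} {t n m : ℕ} {τ : R ≃ₐ[k] R}

/-- twisted by `σ` -/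
def Tw' (σ : R ≃ₐ[k] R) (h : V ≃ₗ[k] V) : Prop := ∀ (r : R) x, h (r • x) = σ r • h x

theorem Tw'.pow {σ : R ≃ₐ[k] R} {h : V ≃ₗ[k] V} (hh : Tw' σ h) (n : ℕ) :
    Tw' (σ ^ n) (h ^ n) := by
  induction n with
  | zero => intro r x; rfl
  | succ n ih =>
    intro r x
    rw [pow_succ, pow_succ, LinearEquiv.mul_apply, LinearEquiv.mul_apply, hh, ih,
      AlgEquiv.mul_apply]

theorem iso_pow {h : V ≃ₗ[k] V} (hh : ∀ x y, ω (h x) (h y) = ω x y) (n : ℕ) :
    ∀ x y, ω ((h ^ n) x) ((h ^ n) y) = ω x y := by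
  induction n with
  | zero => intro x y; rfl
  | succ n ih =>
    intro x y
    rw [pow_succ, LinearEquiv.mul_apply, LinearEquiv.mul_apply, ih, hh]

theorem comm_pow {h : V ≃ₗ[k] V} {J : V →ₗ[k] V} (hh : ∀ x, h (J x) = J (h x)) (n : ℕ) :
    ∀ x, (h ^ n) (J x) = J ((h ^ n) x) := by
  induction n with
  | zero => intro x; rfl
  | succ n ih =>
    intro x
    rw [pow_succ, LinearEquiv.mul_apply, LinearEquiv.mul_apply, hh, ih]

/-- `-h` -/
def ng (h : V ≃ₗ[k] V) : V ≃ₗ[k] V := h.trans (LinearEquiv.neg k)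

theorem ng_apply (h : V ≃ₗ[k] V) (x : V) : ng h x = -(h x) := rfl

theorem ng_pow (h : V ≃ₗ[k] V) (n : ℕ) (x : V) : ((ng h) ^ n) x = (-1 : k) ^ n • (h ^ n) x := by
  induction n generalizing x with
  | zero => simp
  | succ n ih =>
    rw [pow_succ, LinearEquiv.mul_apply, ng_apply, map_neg, ih, pow_succ, pow_succ,
      LinearEquiv.mul_apply, mul_smul, neg_one_smul, smul_neg]

theorem coe_pow' (h : V ≃ₗ[k] V) (n : ℕ) (x : V) :
    (((h : V →ₗ[k] V) : Module.End k V) ^ n) x = (h ^ n) x := by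
  induction n generalizing x with
  | zero => rfl
  | succ n ih =>
    rw [pow_succ, pow_succ, LinearEquiv.mul_apply, Module.End.mul_apply, ih]; rfl

/-- from an element of order `t` with nontrivial twist to one with twist `τ` -/
theorem to_HH (hτ : τ ≠ 1) (ht : finrank k R = t) (htp : t.Prime) {σ : R ≃ₐ[k] R} (hσ : σ ≠ 1)
    {g : V ≃ₗ[k] V} (hg : Tw' σ g) (hiso : ∀ x y, ω (g x) (g y) = ω x y)
    (hgt : ∀ x, (g ^ t) x = x) :
    ∃ j : ℕ, ((g ^ j : V ≃ₗ[k] V) : V →ₗ[k] V) ∈ HH ω t τ := by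
  obtain ⟨j, hj⟩ := tau_gen σ hσ ht htp τ
  refine ⟨j, ⟨?_, ?_⟩, ?_⟩
  · intro r x
    rw [hj]
    exact hg.pow j r x
  · intro x
    rw [coe_pow', ← pow_mul, mul_comm, pow_mul]
    have h1 : g ^ t = 1 := by
      ext x; exact hgt x
    rw [h1, one_pow]; rfl
  · exact iso_pow hiso j

/-- normalising `h` with twist, order considerations -/
theorem reduce_twist (hto : Odd t) (h2 : (2 : k) ≠ 0) (ht : finrank k R = t) (htp : t.Prime)
    {σ : R ≃ₐ[k] R}
    {g : V ≃ₗ[k] V} (hg : Tw' σ g) (hiso : ∀ x y, ω (g x) (g y) = ω x y)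
    (hpm : (∀ x, (g ^ t) x = x) ∨ ∀ x, (g ^ t) x = -x) :
    ∃ g' : V ≃ₗ[k] V, (∀ x, g' x = g x) ∧ (∀ x, (g' ^ t) x = x) ∨
      (∀ x, g' x = -(g x)) ∧ (∀ x, (g' ^ t) x = x) := by
  rcases hpm with h | h
  · exact ⟨g, Or.inl ⟨fun x => rfl, h⟩⟩
  · refine ⟨ng g, Or.inr ⟨fun x => rfl, fun x => ?_⟩⟩
    rw [ng_pow, h, hto.neg_one_pow, neg_one_smul, neg_neg]

variable (R)

/-- the bad skew roots -/
def BJ (ω : V →ₗ[k] V →ₗ[k] k) (ν : k) : Set (V →ₗ[k] V) :=
  {J ∈ Roots k ω ν | ∃ h : V ≃ₗ[k] V, (∀ x y, ω (h x) (h y) = ω x y) ∧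
    (∃ σ : R ≃ₐ[k] R, Tw' σ h) ∧ ((∀ x, h (J x) = J (h x)) ∨ ∀ x, h (J x) = -(J (h x))) ∧
    (¬ ∀ x, h x = x) ∧ ¬ ∀ x, h x = -x}

/-- the untwisted ones -/
def BJ0 (ω : V →ₗ[k] V →ₗ[k] k) (ν : k) : Set (V →ₗ[k] V) :=
  {J ∈ Roots k ω ν | ∃ h : V ≃ₗ[k] V, (∀ x y, ω (h x) (h y) = ω x y) ∧
    (∀ (r : R) x, h (r • x) = r • h x) ∧ (∀ x, h (J x) = J (h x)) ∧
    (¬ ∀ x, h x = x) ∧ ¬ ∀ x, h x = -x}

theorem BJ0_sub (hω : NonDeg ω) (hsw : ∀ x y, ω y x = - ω x y)
    (h2 : (2 : k) ≠ 0) (hR : ∀ (r : R) x y, ω (r • x) y = ω x (r • y))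
    (hm : finrank k V = 2 * m) (hmo : Odd m) (hν : ¬ IsSquare ν) :
    BJ0 R ω ν ⊆ {J ∈ Roots k ω ν | ∃ W : Submodule k V, W ≠ ⊥ ∧ W ≠ ⊤ ∧ NonDeg (resForm ω W) ∧
      (∀ (r : R), ∀ x ∈ W, r • x ∈ W) ∧ ∀ x ∈ W, J x ∈ W} ∪
      ({J ∈ Roots k ω ν | ∃ W : Submodule k V, W ≠ ⊥ ∧ Isot ω W ∧
      (∀ (r : R), ∀ x ∈ W, r • x ∈ W) ∧ ∀ x ∈ W, J x ∈ W} ∪
      {J ∈ Roots k ω ν | ∃ J2 ∈ Roots R ω ν, ∀ x, J2 (J x) = J (J2 x)}) := by
  rintro J ⟨hJ, h, hiso, hhR, hhJ, hne, hne'⟩
  let L : R → (V →ₗ[k] V) := fun r =>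
    { toFun := fun x => r • x
      map_add' := fun x y => smul_add r x y
      map_smul' := fun c x => smul_comm r c x }
  have hL : ∀ r x, L r x = r • x := fun r x => rfl
  rcases witness hω hsw h2 hm hmo hν {T | (∃ r, T = L r) ∨ T = J} (by
    rintro T (⟨r, rfl⟩ | rfl)
    · exact ⟨1, fun x y => by rw [hL, hL, hR, one_mul]⟩
    · exact ⟨-1, fun x y => by rw [hJ.1]; ring⟩) h hiso (by
    rintro T (⟨r, rfl⟩ | rfl)
    · intro x; rw [hL, hL, hhR]
    · exact hhJ) hne hne' with ⟨W, hW1, hW2, hW3, hW4⟩ | ⟨W, hW1, hW3, hW4⟩ | ⟨J2, hJ2, hJ2T⟩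
  · left
    exact ⟨hJ, W, hW1, hW2, hW3, fun r x hx => hW4 (L r) (Or.inl ⟨r, rfl⟩) x hx,
      fun x hx => hW4 J (Or.inr rfl) x hx⟩
  · right; left
    exact ⟨hJ, W, hW1, hW3, fun r x hx => hW4 (L r) (Or.inl ⟨r, rfl⟩) x hx,
      fun x hx => hW4 J (Or.inr rfl) x hx⟩
  · right; right
    exact ⟨hJ, J2, ⟨hJ2.1, hJ2.2.1, fun r x => hJ2T (L r) (Or.inl ⟨r, rfl⟩) x⟩,
      hJ2T J (Or.inr rfl)⟩

theorem BJ_sub (hω : NonDeg ω) (hsw : ∀ x y, ω y x = - ω x y) (hν : ¬ IsSquare ν)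
    (h2 : (2 : k) ≠ 0) (hm : finrank k V = 2 * m) (hmo : Odd m)
    (hτ : τ ≠ 1) (ht : finrank k R = t) (htp : t.Prime) (hto : Odd t) :
    BJ R ω ν ⊆ BJ0 R ω ν ∪ ({J ∈ Roots k ω ν | ∃ h ∈ HF R ω, ∀ x, h (J x) = -(J (h x))} ∪
      {J ∈ Roots k ω ν | ∃ g ∈ HH ω t τ, ∀ x, J (g x) = g (J x)}) := by
  rintro J ⟨hJ, h, hiso, ⟨σ, hσ⟩, hε, hne, hne'⟩
  -- h² commutes with J
  have hh : ∀ x, (h ^ 2) x = h (h x) := fun x => rfl
  have hJ2 : ∀ x, (h ^ 2) (J x) = J ((h ^ 2) x) := by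
    intro x
    rw [hh, hh]
    rcases hε with h1 | h1
    · rw [h1, h1]
    · rw [h1, map_neg, h1, neg_neg]
  by_cases hσ1 : σ = 1
  · subst hσ1
    have hhR : ∀ (r : R) x, h (r • x) = r • h x := hσ
    rcases hε with h1 | h1
    · left
      exact ⟨hJ, h, hiso, hhR, h1, hne, hne'⟩
    · by_cases hp : ∀ x, (h ^ 2) x = x
      · -- impossible
        exfalso
        have hs : ∀ x, h (h x) = x := hp
        have heig : ∀ (ε : k) x, x ∈ eig (h : V →ₗ[k] V) ε ↔ h x = ε • x := fun ε x => Iff.rfl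
        have hJe : ∀ ε : k, ∀ x ∈ eig (h : V →ₗ[k] V) ε, J x ∈ eig (h : V →ₗ[k] V) (-ε) := by
          intro ε x hx
          rw [heig] at hx ⊢
          rw [h1, hx, map_smul, neg_smul]
        have hν0 : ν ≠ 0 := by rintro rfl; exact hν IsSquare.zero
        have hJinj : Function.Injective J := by
          rw [injective_iff_map_eq_zero]
          intro x hx
          have h3 := hJ.2.1 x
          rw [hx, map_zero] at h3
          exact (smul_eq_zero.mp h3.symm).resolve_left hν0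
        have hle : ∀ ε : k, finrank k (eig (h : V →ₗ[k] V) ε)
            ≤ finrank k (eig (h : V →ₗ[k] V) (-ε)) := by
          intro ε
          apply LinearMap.finrank_le_finrank_of_injective (f := J.restrict (hJe ε))
          intro x y hxy
          have h7 : ((J.restrict (hJe ε) x : eig (h : V →ₗ[k] V) (-ε)) : V)
            = ((J.restrict (hJe ε) y : eig (h : V →ₗ[k] V) (-ε)) : V) := by rw [hxy]
          exact Subtype.ext (hJinj h7)
        have h3 := hle 1
        have h4 := hle (-1)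
        rw [neg_neg] at h4
        have hss : ∀ x, (h : V →ₗ[k] V) ((h : V →ₗ[k] V) x) = x := hs
        have h5 : eig (h : V →ₗ[k] V) 1 ⊔ eig (h : V →ₗ[k] V) (-1) = ⊤ := by
          rw [Submodule.eq_top_iff']
          intro x
          obtain ⟨y, hy, z, hz, rfl⟩ := eig_split h2 hss x
          exact Submodule.add_mem_sup hy hz
        have h6 : eig (h : V →ₗ[k] V) 1 ⊓ eig (h : V →ₗ[k] V) (-1) = ⊥ := by
          rw [Submodule.eq_bot_iff]
          rintro x ⟨hx1, hx2⟩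
          have e1 : h x = (1 : k) • x := hx1
          have e2 : h x = (-1 : k) • x := hx2
          rw [e1] at e2
          have e3 : (2 : k) • x = 0 := by
            have : (2 : k) • x = (1 : k) • x - (-1 : k) • x := by module
            rw [this, e2, sub_self]
          exact (smul_eq_zero.mp e3).resolve_left h2
        have h7 := Submodule.finrank_sup_add_finrank_inf_eq (eig (h : V →ₗ[k] V) 1)
          (eig (h : V →ₗ[k] V) (-1))
        rw [h5, h6, finrank_top, finrank_bot, hm] at h7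
        have h8 : NonDeg (resForm ω (eig (h : V →ₗ[k] V) 1)) := by
          intro x hx
          apply Subtype.ext
          apply hω
          intro v
          obtain ⟨y, hy, z, hz, rfl⟩ := eig_split h2 hss v
          have e1 : ω (x : V) y = 0 := hx ⟨y, hy⟩
          have e2 : h (x : V) = (1 : k) • (x : V) := x.2
          have e3 : h z = (-1 : k) • z := hz
          have e4 := hiso (x : V) z
          rw [e2, e3, one_smul, map_smul, smul_eq_mul] at e4
          have e5 : 2 * ω (x : V) z = 0 := by linear_combination -e4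
          rw [map_add, e1, (mul_eq_zero.mp e5).resolve_left h2, add_zero]
        have h9 := even_of_alt (resForm ω (eig (h : V →ₗ[k] V) 1)) h8 (fun x y => hsw x y) h2
        have h10 : finrank k (eig (h : V →ₗ[k] V) 1) = m := by omega
        rw [h10] at h9
        exact (Nat.not_even_iff_odd.mpr hmo) h9
      · by_cases hp' : ∀ x, (h ^ 2) x = -x
        · right; left
          refine ⟨hJ, (h : V →ₗ[k] V), ⟨fun x y => hiso x y, fun r x => hhR r x, fun x => hp' x⟩, h1⟩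
        · left
          exact ⟨hJ, h ^ 2, iso_pow hiso 2, fun r x => by rw [hh, hh, hhR, hhR], hJ2, hp, hp'⟩
  · -- nontrivial twist
    have hord := tau_order σ hσ1 ht htp
    have hσ2 : σ ^ 2 ≠ 1 := by
      intro h0
      have h3 := orderOf_dvd_of_pow_eq_one h0
      rw [hord] at h3
      have h4 := Nat.le_of_dvd (by norm_num) h3
      have := htp.two_le
      have h5 : t = 2 := by omega
      rw [h5] at hto
      exact absurd hto (by decide)
    set g := h ^ 2 with hg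
    have hgtw : Tw' (σ ^ 2) g := hσ.pow 2
    have hgiso := iso_pow hiso 2
    rw [← hg] at hgiso
    have hst : (σ ^ 2) ^ t = 1 := by
      rw [← pow_mul, mul_comm, pow_mul, ← hord, pow_orderOf_eq_one, one_pow]
    have hpt : ∀ (r : R) x, (g ^ t) (r • x) = r • (g ^ t) x := by
      intro r x
      have := hgtw.pow t r x
      rwa [hst] at this
    by_cases hp : ∀ x, (g ^ t) x = x
    · right; right
      obtain ⟨j, hj⟩ := to_HH hτ ht htp hσ2 hgtw hgiso hp
      exact ⟨hJ, _, hj, fun x => (comm_pow hJ2 j x).symm⟩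
    · by_cases hp' : ∀ x, (g ^ t) x = -x
      · right; right
        have htw : Tw' (σ ^ 2) (ng g) := by
          intro r x
          rw [ng_apply, ng_apply, hgtw, smul_neg]
        have hiso' : ∀ x y, ω (ng g x) (ng g y) = ω x y := by
          intro x y
          rw [ng_apply, ng_apply, map_neg, map_neg, LinearMap.neg_apply, neg_neg, hgiso]
        have hJ' : ∀ x, (ng g) (J x) = J (ng g x) := by
          intro x
          rw [ng_apply, ng_apply, hJ2, map_neg]
        have hpow : ∀ x, ((ng g) ^ t) x = x := by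
          intro x
          rw [ng_pow, hp', hto.neg_one_pow, neg_one_smul, neg_neg]
        obtain ⟨j, hj⟩ := to_HH hτ ht htp hσ2 htw hiso' hpow
        exact ⟨hJ, _, hj, fun x => (comm_pow hJ' j x).symm⟩
      · left
        exact ⟨hJ, g ^ t, iso_pow hgiso t, hpt, comm_pow hJ2 t, hp, hp'⟩

end

end Pool.Agent.H330.Count
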