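import Pool.Agent.H330.CountBadI

set_option linter.unusedSectionVars false
set_option linter.unusedVariables false

/-!
# The final bounds for bad elements
-/

namespace Pool.Agent.H330.Count

open Module Finset

section

variable {k V : Type} [Field k] [Fintype k] [AddCommGroup V] [Module k V] [Finite V]
variable {R : Type} [Field R] [Fintype R] [Algebra k R] [Module R V] [IsScalarTower k R V]
variable {R' : Type} [Field R'] [Fintype R'] [Algebra k R'] [Module R' V] [IsScalarTower k R' V]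
variable {ω : V →ₗ[k] V →ₗ[k] k} {ν : k} {t t' n n' m : ℕ} {τ : R ≃ₐ[k] R} {τ' : R' ≃ₐ[k] R'}

theorem w5_count (hω : NonDeg ω) (hR : ∀ (r : R) x y, ω (r • x) y = ω x (r • y))
    (hτ : τ ≠ 1) (ht : finrank k R = t) (htp : t.Prime)
    (hm : finrank k V = 2 * m) (hmt : m = t * n) (hq : 3 ≤ Fintype.card k) :
    {J ∈ Roots k ω ν | ∃ g ∈ HH ω t τ, ∀ x, J (g x) = g (J x)}.ncard
      ≤ 2 * Fintype.card k ^ ((2 * t - 1) * tri (2 * n)) := by
  have hn : finrank k V = t * (2 * n) := by rw [hm, hmt]; ring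
  have h1 := HH_count τ hω hR hτ ht htp (2 * n) hn hq
  refine (exists_count _ (HH ω t τ) (Set.toFinite _)
    (fun J g => ∀ x, J (g x) = g (J x)) ?_ (Fintype.card k ^ (t * tri (2 * n))) ?_).trans
    ((Nat.mul_le_mul_right _ h1).trans (le_of_eq ?_))
  · rintro J ⟨_, h⟩
    exact h
  · rintro g hg
    refine le_trans (Set.ncard_le_ncard ?_ (Set.toFinite _))
      (skew_comm_count hω hτ ht htp hg.1 (2 * n) hn)
    rintro J ⟨⟨hJ, _⟩, hc⟩
    exact ⟨hJ.1, hc⟩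
  · have e : (2 * t - 1) * tri (2 * n) = (t - 1) * tri (2 * n) + t * tri (2 * n) := by
      rw [← add_mul]; congr 1
      have := htp.pos
      omega
    rw [e, pow_add]; ring

theorem w5_three (hω : NonDeg ω) (hsw : ∀ x y, ω y x = - ω x y) (h2 : (2 : k) ≠ 0)
    (hν : ¬ IsSquare ν) (hR : ∀ (r : R) x y, ω (r • x) y = ω x (r • y))
    (hτ : τ ≠ 1) (ht : finrank k R = 3)
    (hm : finrank k V = 2 * m) (hmt : m = 3 * n) (hq : 3 ≤ Fintype.card k) :
    {J ∈ Roots k ω ν | ∃ g ∈ HH ω 3 τ, ∀ x, J (g x) = g (J x)}.ncard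
      ≤ (8 * n + 4) * Fintype.card k ^ (7 * (n * n) + 5 * n) := by
  have hn : finrank k V = 3 * (2 * n) := by rw [hm, hmt]; ring
  have h1 := HH_count τ hω hR hτ ht (by norm_num) (2 * n) hn hq
  refine (exists_count _ (HH ω 3 τ) (Set.toFinite _)
    (fun J g => ∀ x, J (g x) = g (J x)) ?_
    ((4 * n + 2) * Fintype.card k ^ (3 * (n * n) + 3 * n)) ?_).trans
    ((Nat.mul_le_mul_right _ h1).trans (le_of_eq ?_))
  · rintro J ⟨_, h⟩
    exact h
  · rintro g hg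
    refine le_trans (Set.ncard_le_ncard ?_ (Set.toFinite _))
      (three_all hω hsw h2 hq hν hτ ht hg hn)
    rintro J ⟨⟨hJ, _⟩, hc⟩
    exact ⟨hJ, hc⟩
  · have e : 7 * (n * n) + 5 * n = (3 - 1) * tri (2 * n) + (3 * (n * n) + 3 * n) := by
      have := tri_two (2 * n)
      linarith
    rw [e, pow_add]; ring

/-- bound for the union -/
theorem BJ_le (hω : NonDeg ω) (hsw : ∀ x y, ω y x = - ω x y) (hν : ¬ IsSquare ν)
    (h2 : (2 : k) ≠ 0) (hR : ∀ (r : R) x y, ω (r • x) y = ω x (r • y))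
    (hm : finrank k V = 2 * m) (hmo : Odd m)
    (hτ : τ ≠ 1) (ht : finrank k R = t) (htp : t.Prime) (hto : Odd t) {b1 b2 b3 b4 b5 : ℕ}
    (h1 : {J ∈ Roots k ω ν | ∃ W : Submodule k V, W ≠ ⊥ ∧ W ≠ ⊤ ∧ NonDeg (resForm ω W) ∧
      (∀ (r : R), ∀ x ∈ W, r • x ∈ W) ∧ ∀ x ∈ W, J x ∈ W}.ncard ≤ b1)
    (h3 : {J ∈ Roots k ω ν | ∃ W : Submodule k V, W ≠ ⊥ ∧ Isot ω W ∧
      (∀ (r : R), ∀ x ∈ W, r • x ∈ W) ∧ ∀ x ∈ W, J x ∈ W}.ncard ≤ b2)
    (h4 : {J ∈ Roots k ω ν | ∃ J2 ∈ Roots R ω ν, ∀ x, J2 (J x) = J (J2 x)}.ncard ≤ b3)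
    (h5 : {J ∈ Roots k ω ν | ∃ h ∈ HF R ω, ∀ x, h (J x) = -(J (h x))}.ncard ≤ b4)
    (h6 : {J ∈ Roots k ω ν | ∃ g ∈ HH ω t τ, ∀ x, J (g x) = g (J x)}.ncard ≤ b5) :
    (BJ R ω ν).ncard ≤ b1 + b2 + b3 + b4 + b5 := by
  have e1 := Set.ncard_le_ncard (BJ_sub R hω hsw hν h2 hm hmo hτ ht htp hto) (Set.toFinite _)
  have e2 := Set.ncard_le_ncard (BJ0_sub R (ν := ν) hω hsw h2 hR hm hmo hν) (Set.toFinite _)
  have e3 := Set.ncard_union_le (BJ0 R ω ν)
    ({J ∈ Roots k ω ν | ∃ h ∈ HF R ω, ∀ x, h (J x) = -(J (h x))} ∪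
      {J ∈ Roots k ω ν | ∃ g ∈ HH ω t τ, ∀ x, J (g x) = g (J x)})
  have e4 := Set.ncard_union_le {J ∈ Roots k ω ν | ∃ h ∈ HF R ω, ∀ x, h (J x) = -(J (h x))}
      {J ∈ Roots k ω ν | ∃ g ∈ HH ω t τ, ∀ x, J (g x) = g (J x)}
  have e5 := Set.ncard_union_le {J ∈ Roots k ω ν | ∃ W : Submodule k V, W ≠ ⊥ ∧ W ≠ ⊤ ∧
      NonDeg (resForm ω W) ∧ (∀ (r : R), ∀ x ∈ W, r • x ∈ W) ∧ ∀ x ∈ W, J x ∈ W}
      ({J ∈ Roots k ω ν | ∃ W : Submodule k V, W ≠ ⊥ ∧ Isot ω W ∧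
      (∀ (r : R), ∀ x ∈ W, r • x ∈ W) ∧ ∀ x ∈ W, J x ∈ W} ∪
      {J ∈ Roots k ω ν | ∃ J2 ∈ Roots R ω ν, ∀ x, J2 (J x) = J (J2 x)})
  have e6 := Set.ncard_union_le {J ∈ Roots k ω ν | ∃ W : Submodule k V, W ≠ ⊥ ∧ Isot ω W ∧
      (∀ (r : R), ∀ x ∈ W, r • x ∈ W) ∧ ∀ x ∈ W, J x ∈ W}
      {J ∈ Roots k ω ν | ∃ J2 ∈ Roots R ω ν, ∀ x, J2 (J x) = J (J2 x)}
  omega

theorem pow_bound {q a b c : ℕ} (hq : 0 < q) (h : a ≤ b) : c * q ^ a ≤ c * q ^ b :=
  Nat.mul_le_mul_left _ (Nat.pow_le_pow_right hq h)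

/-- bad roots, `m ≥ 9` -/
theorem BJ_count (hω : NonDeg ω) (hsw : ∀ x y, ω y x = - ω x y) (hν : ¬ IsSquare ν)
    (h2 : (2 : k) ≠ 0) (hodd : Fintype.card k % 2 = 1)
    (hR : ∀ (r : R) x y, ω (r • x) y = ω x (r • y))
    (hm : finrank k V = 2 * m) (hmt : m = t * n) (hmo : Odd m) (hn3 : 3 ≤ n)
    (hτ : τ ≠ 1) (ht : finrank k R = t) (htp : t.Prime) (hto : Odd t)
    (hq : 3 ≤ Fintype.card k) :
    (BJ R ω ν).ncard ≤ (6 * m + 10) * Fintype.card k ^ (m * m) := by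
  have hq0 : 0 < Fintype.card k := by omega
  have ht3 : 3 ≤ t := by
    have h := htp.two_le
    rcases Nat.lt_or_ge 2 t with h' | h'
    · exact h'
    · exfalso
      have : t = 2 := by omega
      rw [this] at hto
      exact absurd hto (by decide)
  have hno : Odd n := by rw [hmt] at hmo; exact (Nat.odd_mul.mp hmo).2
  have hν0 : ν ≠ 0 := by rintro rfl; exact hν IsSquare.zero
  have h3n : 3 * n ≤ m := by rw [hmt]; exact Nat.mul_le_mul_right _ ht3
  have e := tri_two m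
  have f1 : m * (2 * n + 3) ≤ m * m := Nat.mul_le_mul_left _ (by omega)
  have hb1 := w1_count R (ω := ω) (ν := ν) hω hν ht ht3 hto hm hmt hq
  have hb2 := w2_count R (ω := ω) (ν := ν) hω hν ht ht3 hto hm hmt hno hq
  have hb3 := w3_count R (ω := ω) (ν := ν) hω hsw h2 hν ht hto hm hmt hq
  have hb4 := w4_count R (ω := ω) (ν := ν) hω h2 hodd hν0 ht hto hm hmt (by omega) hq
  have hb3' : {J ∈ Roots k ω ν | ∃ J2 ∈ Roots R ω ν, ∀ x, J2 (J x) = J (J2 x)}.ncard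
      ≤ (2 * (m + 1)) * Fintype.card k ^ (m * m) := by
    refine hb3.trans ?_
    calc _ = (2 * (m + 1)) * Fintype.card k ^ (m * n + m + m * m / 2) := by
          rw [pow_add _ (m * n + m)]; ring
      _ ≤ _ := pow_bound hq0 (by
          have h5 : m * (2 * n + 3) = 2 * (m * n) + 3 * m := by ring
          omega)
  have hb4' : {J ∈ Roots k ω ν | ∃ h ∈ HF R ω, ∀ x, h (J x) = -(J (h x))}.ncard
      ≤ 8 * Fintype.card k ^ (m * m) := by
    refine hb4.trans (pow_bound hq0 ?_)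
    have h5 : m * (2 * n + 3) = 2 * (m * n) + 3 * m := by ring
    have h6 : m * (m + 1) = m * m + m := by ring
    omega
  have hb5 : {J ∈ Roots k ω ν | ∃ g ∈ HH ω t τ, ∀ x, J (g x) = g (J x)}.ncard
      ≤ (8 * n + 4) * Fintype.card k ^ (m * m) := by
    by_cases h3 : t = 3
    · subst h3
      refine (w5_three hω hsw h2 hν hR hτ ht hm hmt hq).trans (pow_bound hq0 ?_)
      have h5 : m * m = 9 * (n * n) := by rw [hmt]; ring
      have h6 : 3 * n ≤ n * n := Nat.mul_le_mul_right _ hn3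
      omega
    · refine (w5_count hω hR hτ ht htp hm hmt hq).trans ?_
      refine le_trans (Nat.mul_le_mul_right _ (by omega : 2 ≤ 8 * n + 4)) (pow_bound hq0 ?_)
      have ht5 : 5 ≤ t := by
        have : t ≠ 4 := by
          rintro rfl
          exact absurd hto (by decide)
        omega
      have e5 := tri_two (2 * n)
      obtain ⟨s, rfl⟩ : ∃ s, t = 5 + s := ⟨t - 5, by omega⟩
      obtain ⟨r, rfl⟩ : ∃ r, n = 3 + r := ⟨n - 3, by omega⟩
      have e6 : tri (2 * (3 + r)) = (3 + r) * (7 + 2 * r) := by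
        have : 2 * tri (2 * (3 + r)) = 2 * ((3 + r) * (7 + 2 * r)) := by rw [e5]; ring
        omega
      have e7 : 2 * (5 + s) - 1 = 9 + 2 * s := by omega
      rw [e6, e7, hmt]
      have e8 : (5 + s) * (3 + r) * ((5 + s) * (3 + r)) = (9 + 2 * s) * ((3 + r) * (7 + 2 * r))
          + (3 + r) * (12 + 16 * s + 3 * (s * s) + 7 * r + 6 * (s * r) + s * s * r) := by ring
      rw [e8]
      exact Nat.le_add_right _ _
  refine (BJ_le hω hsw hν h2 hR hm hmo hτ ht htp hto hb1 hb2 hb3' hb4' hb5).trans ?_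
  set X := Fintype.card k ^ (m * m) with hX
  obtain ⟨r, hr⟩ : ∃ r, n = 3 + r := ⟨n - 3, by omega⟩
  have e9 : (n - 1) * (2 * X) + (n - 1) * (2 * X) + (2 * (m + 1)) * X + 8 * X + (8 * n + 4) * X
      = (12 * n + 2 * m + 10) * X := by
    have : n - 1 = 2 + r := by omega
    rw [this, hr]; ring
  rw [e9]
  exact Nat.mul_le_mul_right _ (by omega)

/-- bad roots, `m = 5` -/
theorem BJ_count5 (hω : NonDeg ω) (hsw : ∀ x y, ω y x = - ω x y) (hν : ¬ IsSquare ν)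
    (h2 : (2 : k) ≠ 0) (hodd : Fintype.card k % 2 = 1)
    (hR : ∀ (r : R) x y, ω (r • x) y = ω x (r • y))
    (hm : finrank k V = 2 * 5)
    (hτ : τ ≠ 1) (ht : finrank k R = 5) (hq : 3 ≤ Fintype.card k) :
    (BJ R ω ν).ncard ≤ 12 * Fintype.card k ^ 22 + 8 * Fintype.card k ^ 25 +
      2 * Fintype.card k ^ 27 := by
  have hν0 : ν ≠ 0 := by rintro rfl; exact hν IsSquare.zero
  have hb1 := w1_count R (n := 1) (ω := ω) (ν := ν) hω hν ht (by norm_num) (by decide) hm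
    (by norm_num) hq
  have hb2 := w2_count R (n := 1) (ω := ω) (ν := ν) hω hν ht (by norm_num) (by decide) hm
    (by norm_num) (by decide) hq
  have hb3 := w3_count R (n := 1) (ω := ω) (ν := ν) hω hsw h2 hν ht (by decide) hm (by norm_num) hq
  have hb4 := w4_count R (n := 1) (ω := ω) (ν := ν) hω h2 hodd hν0 ht (by decide) hm (by norm_num)
    (by norm_num) hq
  have hb5 := w5_count (n := 1) (ω := ω) (ν := ν) hω hR hτ ht (by norm_num) hm (by norm_num) hq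
  refine (BJ_le hω hsw hν h2 hR hm (by decide) hτ ht (by norm_num) (by decide)
    hb1 hb2 hb3 hb4 hb5).trans (le_of_eq ?_)
  norm_num [tri, Finset.sum_range_succ]
  ring

/-- bound for the union, two fields -/
theorem BG_le (hω : NonDeg ω) (hsw : ∀ x y, ω y x = - ω x y) (hν : ¬ IsSquare ν)
    (h2 : (2 : k) ≠ 0) (hR : ∀ (r : R) x y, ω (r • x) y = ω x (r • y))
    (hR' : ∀ (r : R') x y, ω (r • x) y = ω x (r • y))
    (hm : finrank k V = 2 * m) (hmo : Odd m)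
    (hτ : τ ≠ 1) (ht : finrank k R = t) (htp : t.Prime) (hto : Odd t)
    (hτ' : τ' ≠ 1) (ht' : finrank k R' = t') (htp' : t'.Prime) (hto' : Odd t')
    {b1 b2 b3 b4 b5 b6 : ℕ}
    (h1 : (G1 R R' ω).ncard ≤ b1) (h3 : (G2 R R' ω).ncard ≤ b2) (h4 : (G3 R R' ω ν).ncard ≤ b3)
    (h5 : (G4 R R' ω t' τ').ncard ≤ b4) (h6 : (G5 R R' ω t τ).ncard ≤ b5)
    (h7 : t = t' → (G6 R R' ω t τ').ncard ≤ b6) :
    (BG R R' ω).ncard ≤ b1 + b2 + b3 + b4 + b5 + b6 := by
  classical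
  have hmap : (BG R R' ω).ncard ≤ (G1 R R' ω ∪ (G2 R R' ω ∪ (G3 R R' ω ν ∪ (G4 R R' ω t' τ' ∪
      (G5 R R' ω t τ ∪ (if t = t' then G6 R R' ω t τ' else ∅)))))).ncard := by
    apply Set.ncard_le_ncard_of_injOn (fun g : V ≃ₗ[k] V => (g : V →ₗ[k] V)) _ _ (Set.toFinite _)
    · intro g hg
      rcases BG_sub hτ ht htp hto hτ' ht' htp' hto' hg with h | h | h | ⟨h8, h⟩
      · rcases BG0_sub R R' hω hsw h2 hR hR' hm hmo hν h with h | h | h
        · exact Or.inl h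
        · exact Or.inr (Or.inl h)
        · exact Or.inr (Or.inr (Or.inl h))
      · exact Or.inr (Or.inr (Or.inr (Or.inl h)))
      · exact Or.inr (Or.inr (Or.inr (Or.inr (Or.inl h))))
      · refine Or.inr (Or.inr (Or.inr (Or.inr (Or.inr ?_))))
        rw [if_pos h8]; exact h
    · intro g _ g' _ h
      exact LinearEquiv.toLinearMap_injective h
  have e1 := Set.ncard_union_le (G1 R R' ω) (G2 R R' ω ∪ (G3 R R' ω ν ∪ (G4 R R' ω t' τ' ∪
      (G5 R R' ω t τ ∪ (if t = t' then G6 R R' ω t τ' else ∅)))))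
  have e2 := Set.ncard_union_le (G2 R R' ω) (G3 R R' ω ν ∪ (G4 R R' ω t' τ' ∪
      (G5 R R' ω t τ ∪ (if t = t' then G6 R R' ω t τ' else ∅))))
  have e3 := Set.ncard_union_le (G3 R R' ω ν) (G4 R R' ω t' τ' ∪
      (G5 R R' ω t τ ∪ (if t = t' then G6 R R' ω t τ' else ∅)))
  have e4 := Set.ncard_union_le (G4 R R' ω t' τ')
      (G5 R R' ω t τ ∪ (if t = t' then G6 R R' ω t τ' else ∅))
  have e5 := Set.ncard_union_le (G5 R R' ω t τ) (if t = t' then G6 R R' ω t τ' else ∅)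
  have e6 : (if t = t' then G6 R R' ω t τ' else ∅ : Set (V →ₗ[k] V)).ncard ≤ b6 := by
    by_cases h : t = t'
    · rw [if_pos h]; exact h7 h
    · rw [if_neg h, Set.ncard_empty]; exact Nat.zero_le _
  omega

theorem g4_exp (hmt : m = t * n) (hmt' : m = t' * n') (h3n : 3 * n ≤ m) (h3n' : 3 * n' ≤ m)
    (hn3 : 3 ≤ n') (ht0 : 0 < t') (hm9 : 9 < m) :
    (t' - 1) * tri (2 * n') + t * tri (2 * n) + t' * tri (2 * n') ≤ 2 * (m * m) := by
  have e1 := tri_two (2 * n)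
  have e2 := tri_two (2 * n')
  have e3 : tri (2 * n) = n * (2 * n + 1) := by
    have : 2 * tri (2 * n) = 2 * (n * (2 * n + 1)) := by rw [e1]; ring
    omega
  have e4 : tri (2 * n') = n' * (2 * n' + 1) := by
    have : 2 * tri (2 * n') = 2 * (n' * (2 * n' + 1)) := by rw [e2]; ring
    omega
  rw [e3, e4]
  have e5 : (t' - 1) * (n' * (2 * n' + 1)) + n' * (2 * n' + 1) = m * (2 * n' + 1) := by
    obtain ⟨s, rfl⟩ : ∃ s, t' = s + 1 := ⟨t' - 1, by omega⟩
    rw [Nat.add_sub_cancel, hmt']; ring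
  have e6 : t * (n * (2 * n + 1)) = m * (2 * n + 1) := by rw [hmt]; ring
  have e7 : t' * (n' * (2 * n' + 1)) = m * (2 * n' + 1) := by rw [hmt']; ring
  rw [e6, e7]
  have f1 : 3 * n * m ≤ m * m := Nat.mul_le_mul_right _ h3n
  obtain ⟨d, hd⟩ : ∃ d, m = 3 * n' + d := ⟨m - 3 * n', by omega⟩
  obtain ⟨e, he⟩ : ∃ e, n' = 3 + e := ⟨n' - 3, by omega⟩
  have key : 12 * (m * n') + 9 * m ≤ 4 * (m * m) + 6 * (n' * n') + 3 * n' := by
    rw [hd, he]
    have g1 : 18 ≤ 27 * d + 12 * (e * d) + 4 * (d * d) + 12 * e + 6 * (e * e) := by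
      rcases Nat.eq_zero_or_pos d with h0 | h0
      · have he1 : 1 ≤ e := by omega
        have : 1 * 1 ≤ e * e := Nat.mul_le_mul he1 he1
        omega
      · omega
    have g2 : 4 * ((3 * (3 + e) + d) * (3 * (3 + e) + d)) + 6 * ((3 + e) * (3 + e)) + 3 * (3 + e)
        + 18 = 12 * ((3 * (3 + e) + d) * (3 + e)) + 9 * (3 * (3 + e) + d) +
        (27 * d + 12 * (e * d) + 4 * (d * d) + 12 * e + 6 * (e * e)) := by ring
    omega
  have g3 : n' * (2 * n' + 1) = 2 * (n' * n') + n' := by ring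
  have g4 : m * (2 * n' + 1) = 2 * (m * n') + m := by ring
  have g5 : m * (2 * n + 1) = 2 * (n * m) + m := by ring
  have g6 : 3 * n * m = 3 * (n * m) := by ring
  omega

theorem g6_exp (hmt : m = t * n) (ht3 : 3 ≤ t) (hn3 : 3 ≤ n) :
    (3 * t - 2) * tri (2 * n) ≤ 2 * (m * m) := by
  have e1 := tri_two (2 * n)
  have e3 : tri (2 * n) = n * (2 * n + 1) := by
    have : 2 * tri (2 * n) = 2 * (n * (2 * n + 1)) := by rw [e1]; ring
    omega
  rw [e3, hmt]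
  obtain ⟨s, rfl⟩ : ∃ s, t = 3 + s := ⟨t - 3, by omega⟩
  obtain ⟨r, rfl⟩ : ∃ r, n = 3 + r := ⟨n - 3, by omega⟩
  have e7 : 3 * (3 + s) - 2 = 7 + 3 * s := by omega
  rw [e7]
  have e8 : 2 * ((3 + s) * (3 + r) * ((3 + s) * (3 + r)))
      = (7 + 3 * s) * ((3 + r) * (2 * (3 + r) + 1))
        + (3 + r) * (5 + 15 * s + 6 * (s * s) + 4 * r + 6 * (s * r) + 2 * (s * s * r)) := by ring
  rw [e8]
  exact Nat.le_add_right _ _

theorem G4_bound (hω : NonDeg ω) (hR' : ∀ (r : R') x y, ω (r • x) y = ω x (r • y))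
    (ht : finrank k R = t) (htp : t.Prime) (hmt : m = t * n) (hn3 : 3 ≤ n)
    (ht3 : 3 ≤ t) (hτ' : τ' ≠ 1) (ht' : finrank k R' = t') (htp' : t'.Prime) (ht3' : 3 ≤ t')
    (hm : finrank k V = 2 * m) (hmt' : m = t' * n') (hn3' : 3 ≤ n') (hq : 3 ≤ Fintype.card k) :
    (G4 R R' ω t' τ').ncard ≤ 4 * Fintype.card k ^ (2 * (m * m)) := by
  have hq0 : 0 < Fintype.card k := by omega
  have h9 : 9 ≤ m := by
    have : 3 * 3 ≤ t * n := Nat.mul_le_mul ht3 hn3
    omega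
  rcases Nat.lt_or_ge 9 m with h | h
  · refine (G4_count hω hR' ht htp.pos hmt hτ' ht' htp' hm hmt' hq).trans ?_
    refine (Nat.mul_le_mul_right _ (by norm_num : 2 ≤ 4)).trans (pow_bound hq0 ?_)
    refine g4_exp hmt hmt' ?_ ?_ hn3' htp'.pos h
    · rw [hmt]; exact Nat.mul_le_mul_right _ ht3
    · rw [hmt']; exact Nat.mul_le_mul_right _ ht3'
  · have hm9 : m = 9 := by omega
    subst hm9
    have h1 : t = 3 := by
      have : t * 3 ≤ t * n := Nat.mul_le_mul_left _ hn3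
      omega
    have h1' : t' = 3 := by
      have : t' * 3 ≤ t' * n' := Nat.mul_le_mul_left _ hn3'
      omega
    subst h1
    subst h1'
    exact (G4_count9 hω hR' ht hτ' ht' hm hq).trans (pow_bound hq0 (by norm_num))

theorem BG_count (hω : NonDeg ω) (hsw : ∀ x y, ω y x = - ω x y) (hν : ¬ IsSquare ν)
    (h2 : (2 : k) ≠ 0) (hR : ∀ (r : R) x y, ω (r • x) y = ω x (r • y))
    (hR' : ∀ (r : R') x y, ω (r • x) y = ω x (r • y))
    (hm : finrank k V = 2 * m) (hmo : Odd m)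
    (hτ : τ ≠ 1) (ht : finrank k R = t) (htp : t.Prime) (hto : Odd t)
    (hτ' : τ' ≠ 1) (ht' : finrank k R' = t') (htp' : t'.Prime) (hto' : Odd t')
    (hmt : m = t * n) (hmt' : m = t' * n') (hn3 : 3 ≤ n) (hn3' : 3 ≤ n')
    (hq : 3 ≤ Fintype.card k) :
    (BG R R' ω).ncard ≤ (4 * m + 5) * Fintype.card k ^ (2 * (m * m)) := by
  have hq0 : 0 < Fintype.card k := by omega
  have ht3 : 3 ≤ t := by
    have h := htp.two_le
    rcases Nat.lt_or_ge 2 t with h' | h'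
    · exact h'
    · exfalso
      have : t = 2 := by omega
      rw [this] at hto
      exact absurd hto (by decide)
  have ht3' : 3 ≤ t' := by
    have h := htp'.two_le
    rcases Nat.lt_or_ge 2 t' with h' | h'
    · exact h'
    · exfalso
      have : t' = 2 := by omega
      rw [this] at hto'
      exact absurd hto' (by decide)
  have h3n : 3 * n ≤ m := by rw [hmt]; exact Nat.mul_le_mul_right _ ht3
  have h3n' : 3 * n' ≤ m := by rw [hmt']; exact Nat.mul_le_mul_right _ ht3'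
  have h3t : t * 3 ≤ m := by rw [hmt]; exact Nat.mul_le_mul_left _ hn3
  have h9 : 9 ≤ m := by omega
  have g1 := G1_count (R := R) (R' := R') (ω := ω) hω hsw h2 ht ht3 hto ht' ht3' hm hmt hmt' hq
  have g2 := G2_count (R := R) (R' := R') (ω := ω) hω ht ht3 ht' ht3' hm hmt hmt' hq (Or.inl h9)
  have hexp3 : (m * n + m) + (m * n' + m) + 2 * tri m ≤ 2 * (m * m) := by
    have e := tri_two m
    have f1 : m * (n + n' + 3) ≤ m * m := Nat.mul_le_mul_left _ (by omega)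
    have f2 : m * (n + n' + 3) = m * n + m * n' + 3 * m := by ring
    have f3 : m * (m + 1) = m * m + m := by ring
    omega
  have g3 := (G3_count (R := R) (R' := R') (ω := ω) hω hν ht hto ht' hto' hm hmt hmt').trans
    (Nat.pow_le_pow_right hq0 hexp3)
  have g4 := G4_bound (R := R) (ω := ω) hω hR' ht htp hmt hn3 ht3 hτ' ht' htp' ht3' hm hmt' hn3' hq
  have g5 := (G5_count (R := R) (R' := R') (ω := ω) (τ := τ) (t := t) hω).trans
    (G4_bound (R := R') (ω := ω) hω hR ht' htp' hmt' hn3' ht3' hτ ht htp ht3 hm hmt hn3 hq)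
  have g6 : t = t' → (G6 R R' ω t τ').ncard ≤ (4 * t) * Fintype.card k ^ (2 * (m * m)) := by
    rintro rfl
    exact (G6_count (R := R) hω hR hR' ht htp hmt hτ' ht' hm hq).trans
      (pow_bound hq0 (g6_exp hmt ht3 hn3))
  refine (BG_le hω hsw hν h2 hR hR' hm hmo hτ ht htp hto hτ' ht' htp' hto' g1 g2 g3 g4 g5
    g6).trans ?_
  set X := Fintype.card k ^ (2 * (m * m)) with hX
  obtain ⟨r, hr⟩ : ∃ r, n = 3 + r := ⟨n - 3, by omega⟩
  have e9 : (n - 1) * (4 * X) + n * (4 * X) + X + 4 * X + 4 * X + 4 * t * X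
      = (8 * n + 4 * t + 5) * X := by
    have : n - 1 = 2 + r := by omega
    rw [this, hr]; ring
  rw [e9]
  exact Nat.mul_le_mul_right _ (by omega)

theorem BG_count5 (hω : NonDeg ω) (hsw : ∀ x y, ω y x = - ω x y) (hν : ¬ IsSquare ν)
    (h2 : (2 : k) ≠ 0) (hR : ∀ (r : R) x y, ω (r • x) y = ω x (r • y))
    (hR' : ∀ (r : R') x y, ω (r • x) y = ω x (r • y))
    (hm : finrank k V = 2 * 5)
    (hτ : τ ≠ 1) (ht : finrank k R = 5) (hτ' : τ' ≠ 1) (ht' : finrank k R' = 5)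
    (hq : 3 ≤ Fintype.card k) :
    (BG R R' ω).ncard ≤ 5 * Fintype.card k ^ 50 + 4 * Fintype.card k ^ 42
      + 20 * Fintype.card k ^ 39 := by
  have g1 := G1_count (R := R) (R' := R') (n := 1) (n' := 1) (ω := ω) hω hsw h2 ht (by norm_num)
    (by decide) ht' (by norm_num) hm (by norm_num) (by norm_num) hq
  have g2 := G2_count (R := R) (R' := R') (n := 1) (n' := 1) (ω := ω) hω ht (by norm_num)
    ht' (by norm_num) hm (by norm_num) (by norm_num) hq (Or.inr ⟨rfl, rfl, by norm_num⟩)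
  have g3 := G3_count (R := R) (R' := R') (n := 1) (n' := 1) (ω := ω) hω hν ht (by decide) ht'
    (by decide) hm (by norm_num) (by norm_num)
  have g4 := G4_count (R := R) (R' := R') (n := 1) (n' := 1) (ω := ω) hω hR' ht (by norm_num)
    (by norm_num) hτ' ht' (by norm_num) hm (by norm_num) hq
  have g5 := (G5_count (R := R) (R' := R') (ω := ω) (τ := τ) (t := 5) hω).trans
    (G4_count (R := R') (R' := R) (n := 1) (n' := 1) (ω := ω) hω hR ht' (by norm_num)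
    (by norm_num) hτ ht (by norm_num) hm (by norm_num) hq)
  have g6 : 5 = 5 → (G6 R R' ω 5 τ').ncard ≤ (4 * 5) * Fintype.card k ^ ((3 * 5 - 2) * tri (2 * 1)) :=
    fun _ => G6_count (R := R) (n := 1) hω hR hR' ht (by norm_num) (by norm_num) hτ' ht' hm hq
  refine (BG_le hω hsw hν h2 hR hR' hm (by decide) hτ ht (by norm_num) (by decide) hτ' ht'
    (by norm_num) (by decide) g1 g2 g3 g4 g5 g6).trans (le_of_eq ?_)
  norm_num [tri, Finset.sum_range_succ]
  ring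

end

end Pool.Agent.H330.Count
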