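import Pool.Agent.H330.CountForms

set_option linter.unusedSectionVars false

/-!
# Commuting skew roots
-/

namespace Pool.Agent.H330.Count

open Module Finset

variable {k V : Type} [Field k] [Fintype k] [AddCommGroup V] [Module k V] [Finite V]

/-- where two roots agree -/
def agr (J J2 : V →ₗ[k] V) : Submodule k V := LinearMap.eqLocus J J2

theorem mem_agr {J J2 : V →ₗ[k] V} {x : V} : x ∈ agr J J2 ↔ J x = J2 x := Iff.rfl

section

variable {ω : V →ₗ[k] V →ₗ[k] k} {ν : k} {J J2 : V →ₗ[k] V}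

theorem split_pm (h2 : (2 : k) ≠ 0) (hν0 : ν ≠ 0) (hJ : J ∈ Roots k ω ν)
    (hJ2 : J2 ∈ Roots k ω ν) (hc : ∀ x, J (J2 x) = J2 (J x)) (x : V) :
    ∃ y z, x = y + z ∧ J y = J2 y ∧ J z = - J2 z := by
  refine ⟨(2 : k)⁻¹ • (x + ν⁻¹ • J (J2 x)), (2 : k)⁻¹ • (x - ν⁻¹ • J (J2 x)), ?_, ?_, ?_⟩
  · rw [← smul_add, show x + ν⁻¹ • J (J2 x) + (x - ν⁻¹ • J (J2 x)) = (2 : k) • x by
      rw [two_smul]; abel, smul_smul, inv_mul_cancel₀ h2, one_smul]
  · rw [map_smul, map_smul, map_add, map_add, map_smul, map_smul, hJ.2.1, ← hc (J2 x), hJ2.2.1,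
      map_smul, smul_smul, smul_smul, inv_mul_cancel₀ hν0, one_smul, one_smul, add_comm]
  · rw [map_smul, map_smul, map_sub, map_sub, map_smul, map_smul, hJ.2.1, ← hc (J2 x), hJ2.2.1,
      map_smul, smul_smul, smul_smul, inv_mul_cancel₀ hν0, one_smul, one_smul, ← smul_neg, neg_sub]

theorem orth_pm (h2 : (2 : k) ≠ 0) (hν0 : ν ≠ 0) (hJ : J ∈ Roots k ω ν)
    (hJ2 : J2 ∈ Roots k ω ν) {y z : V} (hy : J y = J2 y) (hz : J z = - J2 z) :
    ω y z = 0 := by
  have h1 : ω (J y) (J z) = - (ν * ω y z) := by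
    rw [hJ.1, hJ.2.1, map_smul, smul_eq_mul]
  have h3 : ω (J y) (J z) = ν * ω y z := by
    rw [hy, hz, map_neg, hJ2.1, hJ2.2.1, map_smul, smul_eq_mul, neg_neg]
  have h4 : 2 * ν * ω y z = 0 := by linear_combination h1 - h3
  exact (mul_eq_zero.mp h4).resolve_left (mul_ne_zero h2 hν0)

theorem agr_inj (hω : NonDeg ω) (hsw : ∀ x y, ω y x = - ω x y) (h2 : (2 : k) ≠ 0) (hν0 : ν ≠ 0)
    {J0 : V →ₗ[k] V}
    (hJ0 : J0 ∈ Roots k ω ν) (hJ : J ∈ Roots k ω ν) (hJ2 : J2 ∈ Roots k ω ν)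
    (hc : ∀ x, J (J0 x) = J0 (J x)) (hc2 : ∀ x, J2 (J0 x) = J0 (J2 x))
    (h : agr J J0 = agr J2 J0) : J = J2 := by
  ext x
  obtain ⟨y, z, rfl, hy, hz⟩ := split_pm h2 hν0 hJ hJ0 hc x
  obtain ⟨y', z', hyz, hy', hz'⟩ := split_pm h2 hν0 hJ2 hJ0 hc2 (y + z)
  have hd : y - y' = z' - z := by
    rw [sub_eq_sub_iff_add_eq_add, hyz]; abel
  have hyy : y - y' = 0 := by
    apply hω
    intro v
    obtain ⟨a, b, rfl, ha, hb⟩ := split_pm h2 hν0 hJ hJ0 hc v
    have hyJ : J (y - y') = J0 (y - y') := by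
      have h1 : y' ∈ agr J J0 := by rw [h]; exact hy'
      rw [map_sub, map_sub, hy, mem_agr.mp h1]
    rw [map_add, orth_pm h2 hν0 hJ hJ0 hyJ hb, add_zero]
    -- a ∈ agr
    have e1 : ω a z = 0 := orth_pm h2 hν0 hJ hJ0 ha hz
    have e2 : ω a z' = 0 := by
      have h1 : a ∈ agr J2 J0 := by rw [← h]; exact ha
      exact orth_pm h2 hν0 hJ2 hJ0 h1 hz'
    rw [hd, hsw, map_sub, e1, e2, sub_zero, neg_zero]
  have hzz : z' - z = 0 := by rw [← hd, hyy]
  have h1 : y = y' := sub_eq_zero.mp hyy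
  have h3 : z' = z := sub_eq_zero.mp hzz
  subst h1
  subst h3
  rw [map_add, map_add, hy, hy', hz, hz']

/-- number of roots commuting with a given root -/
theorem comm_count (hω : NonDeg ω) (hsw : ∀ x y, ω y x = - ω x y) (h2 : (2 : k) ≠ 0)
    (hν : ¬ IsSquare ν) (M : ℕ) (hM : finrank k V = 2 * M) {J0 : V →ₗ[k] V}
    (hJ0 : J0 ∈ Roots k ω ν) (hq : 3 ≤ Fintype.card k) :
    {J ∈ Roots k ω ν | ∀ x, J (J0 x) = J0 (J x)}.ncard
      ≤ (M + 1) * (2 * Fintype.card k ^ (M * M / 2)) := by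
  have hν0 : ν ≠ 0 := by rintro rfl; exact hν IsSquare.zero
  have hinv : ∀ J : V →ₗ[k] V, (∀ x, J (J0 x) = J0 (J x)) → ∀ x ∈ agr J J0, J0 x ∈ agr J J0 := by
    intro J hc x hx
    rw [mem_agr] at hx ⊢
    rw [hc, hx]
  have hcard : (Finset.range (M + 1) : Set ℕ).ncard = M + 1 := by
    rw [Set.ncard_coe_finset, Finset.card_range]
  have h := ncard_le_of_fibers {J ∈ Roots k ω ν | ∀ x, J (J0 x) = J0 (J x)}
    (fun J => finrank k (agr J J0) / 2) (Finset.range (M + 1) : Set ℕ) (Set.toFinite _) ?_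
    (2 * Fintype.card k ^ (M * M / 2)) ?_
  · rwa [hcard] at h
  · rintro J _
    rw [Finset.mem_coe, Finset.mem_range]
    have := Submodule.finrank_le (agr J J0)
    omega
  · intro a ha
    rw [Finset.mem_coe, Finset.mem_range] at ha
    set σ := Spread.ofJ hν J0 hJ0.2.1 with hσ
    have h1 := σ.sub_count_all a {W | σ.Inv W ∧ finrank k W = 2 * a} (fun W hW => hW) (by
      have : Fintype.card k ^ 1 ≤ Fintype.card k ^ 2 :=
        Nat.pow_le_pow_right (by omega) (by norm_num)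
      rw [pow_one] at this
      omega)
    have h3 : {J | J ∈ {J ∈ Roots k ω ν | ∀ x, J (J0 x) = J0 (J x)} ∧
        finrank k (agr J J0) / 2 = a}.ncard ≤ {W | σ.Inv W ∧ finrank k W = 2 * a}.ncard := by
      apply Set.ncard_le_ncard_of_injOn (fun J => agr J J0)
      · rintro J ⟨⟨hJ, hc⟩, hJa⟩
        refine ⟨(Spread.ofJ_inv hν J0 hJ0.2.1 _).mpr (hinv J hc), ?_⟩
        have heven : Even (finrank k (agr J J0)) := by
          refine even_of_sq (J0.restrict (hinv J hc)) hν ?_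
          intro x
          ext
          exact hJ0.2.1 x
        obtain ⟨r, hr⟩ := heven
        omega
      · rintro J ⟨⟨hJ, hc⟩, _⟩ J2 ⟨⟨hJ2, hc2⟩, _⟩ h
        exact agr_inj hω hsw h2 hν0 hJ0 hJ hJ2 hc hc2 h
    refine h3.trans ?_
    have hq0 : 0 < Fintype.card k := by omega
    have h4 : 2 * (a * a) + 2 * a * (M - a) = finrank k V * a := by
      rw [hM]
      obtain ⟨b, rfl⟩ : ∃ b, M = a + b := ⟨M - a, by omega⟩
      rw [Nat.add_sub_cancel_left]; ring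
    have h5 : {W | σ.Inv W ∧ finrank k W = 2 * a}.ncard ≤ 2 * Fintype.card k ^ (2 * a * (M - a)) := by
      rw [← h4, pow_add] at h1
      have hpos : 0 < Fintype.card k ^ (2 * (a * a)) := Nat.pow_pos hq0
      apply Nat.le_of_mul_le_mul_right _ hpos
      calc _ ≤ 2 * (Fintype.card k ^ (2 * (a * a)) * Fintype.card k ^ (2 * a * (M - a))) := h1
        _ = _ := by ring
    refine h5.trans (Nat.mul_le_mul_left _ (Nat.pow_le_pow_right hq0 ?_))
    rw [Nat.le_div_iff_mul_le (by norm_num)]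
    obtain ⟨b, rfl⟩ : ∃ b, M = a + b := ⟨M - a, by omega⟩
    rw [Nat.add_sub_cancel_left]
    nlinarith [Nat.zero_le a, Nat.zero_le b, sq_nonneg ((a : ℤ) - b), (by
      have : (4 * (a : ℤ) * b) ≤ (a + b) * (a + b) := by nlinarith [sq_nonneg ((a : ℤ) - b)]
      exact_mod_cast this : 4 * a * b ≤ (a + b) * (a + b))]

end

end Pool.Agent.H330.Count
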