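import Pool.Agent.H330.CountUnitK

set_option linter.unusedSectionVars false

/-!
# The intersection of two unitary groups, for general parameters
-/

namespace Pool.Agent.H330.Symp

open Module Pool.Agent.H330 Pool.Agent.H330.Minus

variable {F K : Type} [Field F] [Fintype F] [Field K] [Fintype K] [Algebra F K] {m : ℕ}

theorem coreK2 (hq : Odd (Fintype.card F)) (hm : finrank F K = 2 * m) (hmo : Odd m) (hm2 : 2 ≤ m)
    {lam : K} (hl : bar F K m lam = -lam) (hl0 : lam ≠ 0)
    {j : K} {ν : F} (hν0 : ν ≠ 0) (hj2 : j ^ 2 = algebraMap F K ν) (hjb : bar F K m j = -j)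
    {t : K} (hgen : ∀ P : IntermediateField F K, t ^ 2 ∈ P → ∀ d, bar F K m d = d → d ∈ P)
    {s e ζ : K} (hs0 : s ≠ 0) (hs : bar F K m s = s) (he : bar F K m e = e) (he0 : e ≠ 0)
    (hζ : ζ * bar F K m ζ = 1) (hts : t ^ 2 * (1 - s) = algebraMap F K ν * (1 + s))
    (h : K ≃ₗ[F] K) (hiso : ∀ x y, bil F K m lam (h x) (h y) = bil F K m lam x y)
    (h1 : (∀ x, h (j * x) = j * h x) ∨ (∀ x, h (j * x) = -(j * h x)))
    (h2 : (∀ x, h (s * j * x + e * ζ * bar F K m x)
        = s * j * h x + e * ζ * bar F K m (h x)) ∨
      (∀ x, h (s * j * x + e * ζ * bar F K m x)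
        = -(s * j * h x + e * ζ * bar F K m (h x)))) :
    (∀ x, h x = x) ∨ (∀ x, h x = -x) := by
  have h2K : (2 : K) ≠ 0 := two_ne hq
  have hν : algebraMap F K ν ≠ 0 := by simpa using hν0
  have hj0 : j ≠ 0 := by
    rintro rfl
    rw [zero_pow (by norm_num)] at hj2
    exact hν hj2.symm
  have hm0 : 0 < m := hmo.pos
  set c := bar F K m with hc
  have hcc : ∀ x, c (c x) = x := bar_bar hm
  have hs1 : 1 - s ≠ 0 := by
    intro h3
    rw [h3, mul_zero] at hts
    rcases mul_eq_zero.mp hts.symm with h4 | h4
    · exact hν h4
    · have : (2 : K) = 0 := by linear_combination h3 + h4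
      exact h2K this
  -- multiplication by `s`
  have hsP : s ∈ PP h := by
    have hcalc : ∀ x, j * (s * j * x + e * ζ * c x) + (s * j * (j * x) + e * ζ * c (j * x))
        = algebraMap F K ν * (2 * (s * x)) := by
      intro x
      rw [map_mul, hjb, ← hj2]; ring
    have hν2 : ∀ x y : K, algebraMap F K ν * (2 * x) = algebraMap F K ν * (2 * y) → x = y := by
      intro x y hxy
      exact mul_left_cancel₀ h2K (mul_left_cancel₀ hν hxy)
    have hlin : ∀ x, h (algebraMap F K ν * (2 * x)) = algebraMap F K ν * (2 * h x) := by
      intro x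
      rw [← Algebra.smul_def, ← Algebra.smul_def, map_smul, two_mul, map_add, two_mul]
    rcases h1 with h1 | h1 <;> rcases h2 with h2 | h2
    · intro x
      apply hν2
      rw [← hlin, ← hcalc, ← hcalc, map_add, h1, h2, h2, h1]
    · -- h s = - s h
      have h3 : ∀ x, h (s * x) = -(s * h x) := by
        intro x
        apply hν2
        have e1 : algebraMap F K ν * (2 * -(s * h x)) = -(algebraMap F K ν * (2 * (s * h x))) := by
          ring
        rw [e1, ← hlin, ← hcalc, ← hcalc, map_add, h1, h2, h2, h1]
        ring
      have h4 : s ^ 2 ∈ PP h := by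
        intro u
        rw [sq, mul_assoc, h3, h3]; ring
      exact mem_of_sq_mem hq hmo _ hs h4
    · have h3 : ∀ x, h (s * x) = -(s * h x) := by
        intro x
        apply hν2
        have e1 : algebraMap F K ν * (2 * -(s * h x)) = -(algebraMap F K ν * (2 * (s * h x))) := by
          ring
        have e2 := hcalc (h x)
        rw [e1, ← hlin, ← hcalc, ← e2, map_add, h1, h2, h2, h1]
        have e3 : c (-(j * h x)) = -(c (j * h x)) := map_neg c _
        rw [e3]
        ring
      have h4 : s ^ 2 ∈ PP h := by
        intro u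
        rw [sq, mul_assoc, h3, h3]; ring
      exact mem_of_sq_mem hq hmo _ hs h4
    · intro x
      apply hν2
      rw [← hlin, ← hcalc, ← hcalc, map_add, h1, h2, h2, h1]
      have e3 : c (-(j * h x)) = -(c (j * h x)) := map_neg c _
      rw [e3]
      ring
  have ht2 : t ^ 2 ∈ PP h := by
    have : t ^ 2 = algebraMap F K ν * (1 + s) / (1 - s) := by
      rw [eq_div_iff hs1]; exact hts
    rw [this]
    exact div_mem (mul_mem (IntermediateField.algebraMap_mem _ ν) (add_mem (one_mem _) hsP))
      (sub_mem (one_mem _) hsP)
  have hD : ∀ d, c d = d → ∀ u, h (d * u) = d * h u := fun d hd =>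
    hgen (PP h) ht2 d hd
  set β : K := h 1 with hβ
  have hβ0 : β ≠ 0 := by
    intro h0
    have : (1 : K) = 0 := h.injective (by rw [← hβ, h0, map_zero])
    exact one_ne_zero this
  rcases h1 with h1 | h1
  · -- h x = β x
    have hx : ∀ x, h x = x * β := by
      intro x
      obtain ⟨a, b, ha, hb, rfl⟩ := decomp hq hm hj0 hjb x
      rw [map_add, ← mul_one a, hD a ha, hD b hb, ← mul_one j, h1, ← hβ]
      ring
    have h4ne : (4 : K) ≠ 0 := by
      have : (4 : K) = 2 * 2 := by norm_num
      rw [this]; exact mul_ne_zero h2K h2K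
    have hcβ : c β = β := by
      rcases h2 with h2 | h2
      · have h3 := h2 1
        rw [hx, hx, map_one, one_mul] at h3
        have h4 : e * ζ * (c β - β) = 0 := by linear_combination -h3
        have hζ0 : ζ ≠ 0 := by rintro rfl; simp at hζ
        exact sub_eq_zero.mp ((mul_eq_zero.mp h4).resolve_left (mul_ne_zero he0 hζ0))
      · exfalso
        have h3 := h2 1
        rw [hx, hx, map_one, one_mul] at h3
        have h4 := h2 j
        rw [hx, hx, map_mul c, hjb] at h4
        have h5 : 4 * (s * (j * (j * β))) = 0 := by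
          linear_combination j * h3 + h4
        exact (mul_ne_zero h4ne (mul_ne_zero hs0 (mul_ne_zero hj0 (mul_ne_zero hj0 hβ0)))) h5
    have hββ : β * β = 1 := by
      have h3 : (β * β - 1) * 1 = 0 := by
        apply bil_nondeg' hm hl hl0
        intro x
        have h4 := hiso x 1
        rw [hx, hx, mul_comm x β, bil_D lam x _ (show bar F K m β = β from hcβ)] at h4
        have h5 : (β * β - 1) * 1 = β * (1 * β) - 1 := by ring
        rw [h5, map_sub, h4, sub_self]
      linear_combination h3
    have h3 : (β - 1) * (β + 1) = 0 := by linear_combination hββ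
    rcases mul_eq_zero.mp h3 with h4 | h4
    · left; intro x; rw [hx, sub_eq_zero.mp h4, mul_one]
    · right; intro x; rw [hx, eq_neg_of_add_eq_zero_left h4]; ring
  · exfalso
    have h4ne : (4 : K) ≠ 0 := by
      have : (4 : K) = 2 * 2 := by norm_num
      rw [this]; exact mul_ne_zero h2K h2K
    have hj1 : h j = -(j * β) := by
      have := h1 1
      rwa [mul_one] at this
    have hx : ∀ x, h x = c x * β := by
      intro x
      obtain ⟨a, b, ha, hb, rfl⟩ := decomp hq hm hj0 hjb x
      have ha' : c a = a := ha
      have hb' : c b = b := hb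
      rw [map_add, map_add, map_mul c, ha', hb', hjb, hD b hb, hj1]
      nth_rewrite 1 [← mul_one a]
      rw [hD a ha, ← hβ]
      ring
    rcases h2 with h2 | h2
    · have h3 := h2 1
      rw [hx, hx, map_one, one_mul, map_add, map_mul c, map_mul c, map_mul c, map_mul c, hs, he, hjb,
        map_one] at h3
      have h4 := h2 j
      simp only [hx, map_add, map_mul c, hs, he, hjb, map_neg] at h4
      have h5 : 4 * (s * (j * (j * β))) = 0 := by
        linear_combination h4 - j * h3
      exact (mul_ne_zero h4ne (mul_ne_zero hs0 (mul_ne_zero hj0 (mul_ne_zero hj0 hβ0)))) h5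
    · have h3 := h2 1
      rw [hx, hx, map_one, one_mul, map_add, map_mul c, map_mul c, map_mul c, map_mul c, hs, he, hjb,
        map_one] at h3
      have h4 : e * (c ζ * β + ζ * c β) = 0 := by linear_combination h3
      have h5 : c ζ * β + ζ * c β = 0 := (mul_eq_zero.mp h4).resolve_left he0
      -- isometry
      have h6 : β * c β = -1 := by
        have h7 : (β * c β + 1) * 1 = 0 := by
          apply bil_nondeg' hm hl hl0
          intro x
          have h8 := hiso x 1
          rw [hx, hx, bil_apply, bil_apply] at h8
          rw [bil_apply]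
          rw [← hc] at h8 ⊢
          have h9 : Algebra.trace F K (lam * (c x * β) * c (c 1 * β))
              = - Algebra.trace F K (lam * x * (β * c β)) := by
            rw [← trace_bar (m := m) (lam * (c x * β) * c (c 1 * β)), ← hc, ← map_neg]
            congr 1
            simp only [map_mul c, hcc, hl, map_one]
            ring
          rw [h9] at h8
          have h10 : lam * x * c ((β * c β + 1) * 1) = lam * x * (β * c β) + lam * x * c 1 := by
            rw [mul_one, map_add, map_mul c, hcc]; ring
          rw [h10, map_add, ← h8]; ring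
        linear_combination h7
      have hζ' : ζ * c ζ = 1 := hζ
      have h7 : (β - ζ) * (β + ζ) = 0 := by
        linear_combination (ζ * β) * h5 - ζ ^ 2 * h6 - β ^ 2 * hζ'
      have h8 : β * c β = 1 := by
        rcases mul_eq_zero.mp h7 with h9 | h9
        · rw [sub_eq_zero.mp h9]; exact hζ
        · rw [eq_neg_of_add_eq_zero_left h9, map_neg, neg_mul_neg]; exact hζ
      rw [h6] at h8
      exact h2K (by linear_combination -h8)

end Pool.Agent.H330.Symp
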