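import Pool.Agent.H330.SympMain

namespace Pool.Agent.H330.Symp

open Module Pool.Agent.H330 Pool.Agent.H330.Minus Pool.Agent.H330.Short

variable {F K : Type} [Field F] [Fintype F] [Field K] [Fintype K] [Algebra F K] {m : ℕ}

/-- `h` normalises the multiplications by `L` -/
def NL (L : IntermediateField F K) (h : K ≃ₗ[F] K) : Prop :=
  ∀ l ∈ L, ∃ l' ∈ L, ∀ y, h (l * y) = l' * h y

theorem mem_of_finrank_m (L : IntermediateField F K) (hL : finrank F L = m) (x : K) :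
    x ∈ L ↔ bar F K m x = x := by
  constructor
  · intro h
    rw [bar_apply, ← hL]; exact pow_of_mem L x h
  · intro h
    apply mem_of_pow
    rw [hL, ← bar_apply]; exact h

theorem tw_of_NL {L : IntermediateField F K} (hL : finrank F L = m) {h : K ≃ₗ[F] K}
    (hn : NL L h) : ∃ i, Tw m i h := by
  apply exists_twist h
  intro d hd
  obtain ⟨l', hl', h1⟩ := hn d ((mem_of_finrank_m L hL d).mpr hd)
  exact ⟨l', (mem_of_finrank_m L hL l').mp hl', h1⟩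

/-- signs -/
theorem sign_of (h J : K → K) (h1 : (∀ x, h (J x) = J (h x)) ∨ (∀ x, h (J x) = -(J (h x)))) :
    ∃ ε : F, ε * ε = 1 ∧ ∀ x, h (J x) = ε • J (h x) := by
  rcases h1 with h1 | h1
  · exact ⟨1, one_mul 1, fun x => by rw [h1, one_smul]⟩
  · exact ⟨-1, by ring, fun x => by rw [h1, neg_smul, one_smul]⟩

theorem U_comm {lam : K} {ν : F} {J0 J1 : K →ₗ[F] K} {a p r r' : K}
    (P : Pair m lam ν J0 J1 a p r r') (γ : F) (x : K) : P.U γ (J0 x) = J0 (P.U γ x) := by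
  unfold Pair.U
  rw [UU_apply, UU_apply, NN_comm lam ν P.nu0 P.s0, map_add, map_smul]

theorem U'_comm {lam : K} {ν : F} {J0 J1 : K →ₗ[F] K} {a p r r' : K}
    (P : Pair m lam ν J0 J1 a p r r') (γ : F) (x : K) : P.U' γ (J1 x) = J1 (P.U' γ x) := by
  unfold Pair.U'
  rw [UU_apply, UU_apply, NN_comm lam ν P.nu0 P.s1, map_add, map_smul]

theorem main0 (hq : Odd (Fintype.card F)) (hm : finrank F K = 2 * m) (hmp : m.Prime)
    (hm7 : 7 ≤ m) :
    ∃ lam : K, bar F K m lam = -lam ∧ lam ≠ 0 ∧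
    ∃ g ∈ Sp F K m lam, ∀ L₁ L₂ : IntermediateField F K,
      (finrank F L₁ = 2 ∨ finrank F L₁ = m) → (finrank F L₂ = 2 ∨ finrank F L₂ = m) →
      ∀ h ∈ Sp F K m lam, NL L₁ h → NL L₂ (g⁻¹ * h * g) → ∃ c : F, ∀ x, h x = c • x := by
  have hmo : Odd m := hmp.odd_of_ne_two (by omega)
  have h2F : (2 : F) ≠ 0 := two_ne_zero' hq
  obtain ⟨ν, j, t, s, e, ζ, lam, p, r, r', p2, r2, r2', P1, P2, hν0, hj2, hjb, hjq, ht0, ht, hs,
    he, he0, hs1, hts, hse, hζ, hl, hl0, hx1, hx2, hx3⟩ := exists_pairs (K := K) hq hm hmp hm7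
  obtain ⟨z, hz, hzD, hzj⟩ := exists_zz hq hm (by omega) hν0 hj2 hjb hs he hs1 hζ hse
  set J0 := JJ F j with hJ0
  set J1 := JP F m s j e ζ with hJ1
  set U := P1.U (1 : F) with hU
  set U' := P1.U' (-1 : F) with hU'
  have hUmem : U ∈ Sp F K m lam := UU_mem P1.two P1.hm P1.hl P1.ab ν 1
  have hU'mem : U' ∈ Sp F K m lam := UU_mem P1.two P1.hm P1.hl P1.ab1 ν (-1)
  have hU2 : P2.U (-1 : F) = U' := rfl
  set w := P1.W (1 : F) (-1 : F) with hw
  have hwdef : w = U⁻¹ * U' := rfl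
  have hwmem : w ∈ Sp F K m lam := (Sp F K m lam).mul_mem ((Sp F K m lam).inv_mem hUmem) hU'mem
  have hUJ : ∀ x, U (J0 x) = J0 (U x) := U_comm P1 1
  have hU'J : ∀ x, U' (J1 x) = J1 (U' x) := U'_comm P1 (-1)
  have hUU : ∀ x, U (U⁻¹ x) = x := by
    intro x; rw [← LinearEquiv.mul_apply, mul_inv_cancel]; rfl
  have hUU' : ∀ x, U⁻¹ (U x) = x := by
    intro x; rw [← LinearEquiv.mul_apply, inv_mul_cancel]; rfl
  have hVV : ∀ x, U' (U'⁻¹ x) = x := by
    intro x; rw [← LinearEquiv.mul_apply, mul_inv_cancel]; rfl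
  have hVV' : ∀ x, U'⁻¹ (U' x) = x := by
    intro x; rw [← LinearEquiv.mul_apply, inv_mul_cancel]; rfl
  have hzz : ∀ x, z (z⁻¹ x) = x := by
    intro x; rw [← LinearEquiv.mul_apply, mul_inv_cancel]; rfl
  have hzz' : ∀ x, z⁻¹ (z x) = x := by
    intro x; rw [← LinearEquiv.mul_apply, inv_mul_cancel]; rfl
  have hUiJ : ∀ x, U⁻¹ (J0 x) = J0 (U⁻¹ x) := by
    intro x
    apply U.injective
    rw [hUU, hUJ, hUU]
  have hU'iJ : ∀ x, U'⁻¹ (J1 x) = J1 (U'⁻¹ x) := by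
    intro x
    apply U'.injective
    rw [hVV, hU'J, hVV]
  refine ⟨lam, hl, hl0, w * z, (Sp F K m lam).mul_mem hwmem (hz lam hl), ?_⟩
  intro L₁ L₂ hL₁ hL₂ h hh hn1 hn2
  -- k = w⁻¹ h w
  set k : K ≃ₗ[F] K := w⁻¹ * h * w with hk
  have hkmem : k ∈ Sp F K m lam :=
    (Sp F K m lam).mul_mem ((Sp F K m lam).mul_mem ((Sp F K m lam).inv_mem hwmem) hh) hwmem
  have hgk : (w * z)⁻¹ * h * (w * z) = z⁻¹ * k * z := by rw [hk]; group
  rw [hgk] at hn2
  have hkapp : ∀ x, k x = U'⁻¹ (U (h (U⁻¹ (U' x)))) := by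
    intro x
    rw [hk, hwdef, mul_inv_rev, inv_inv]; rfl
  have hh_of_k : ∀ x, h x = U⁻¹ (U' (k (U'⁻¹ (U x)))) := by
    intro x
    rw [hkapp, hVV, hVV, hUU', hUU']
  -- consequences of the conditions at z
  have hn2D : finrank F L₂ = m → ∃ i, Tw m i k := by
    intro hL
    obtain ⟨i, hi⟩ := tw_of_NL hL hn2
    refine ⟨i, fun d hd y => ?_⟩
    have h1 := hi d hd (z⁻¹ y)
    have h2 : ∀ u, (z⁻¹ * k * z) u = z⁻¹ (k (z u)) := fun u => rfl
    rw [h2, h2, hzD d hd, hzz] at h1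
    have h3 := congrArg z h1
    have hbd : bar F K m (bar F K i d) = bar F K i d := by rw [bar_comm, hd]
    rw [hzz, hzD _ hbd, hzz] at h3
    exact h3
  have hn2J : finrank F L₂ = 2 → ((∀ x, k (J1 x) = J1 (k x)) ∨ (∀ x, k (J1 x) = -(J1 (k x)))) := by
    intro hL
    have h1 := norm_quad hL hj2 hjq hq _ hn2
    have h2 : ∀ u, (z⁻¹ * k * z) u = z⁻¹ (k (z u)) := fun u => rfl
    have hzj' : ∀ x, z (j * x) = J1 (z x) := hzj
    rcases h1 with h1 | h1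
    · left
      intro x
      have h3 := h1 (z⁻¹ x)
      rw [h2, h2, hzj', hzz] at h3
      have h4 := congrArg z h3
      rw [hzz, hzj', hzz] at h4
      exact h4
    · right
      intro x
      have h3 := h1 (z⁻¹ x)
      rw [h2, h2, hzj', hzz] at h3
      have h4 := congrArg z h3
      rw [hzz, map_neg, hzj', hzz] at h4
      exact h4
  rcases hL₁ with hL₁ | hL₁ <;> rcases hL₂ with hL₂ | hL₂
  · -- N(J) and N(J)
    have c1 := norm_quad hL₁ hj2 hjq hq h hn1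
    have c2 := hn2J hL₂
    have hx : U * h * U⁻¹ ∈ Sp F K m lam :=
      (Sp F K m lam).mul_mem ((Sp F K m lam).mul_mem hUmem hh) ((Sp F K m lam).inv_mem hUmem)
    have hxapp : ∀ x, (U * h * U⁻¹) x = U (h (U⁻¹ x)) := fun x => rfl
    have d1 : (∀ x, (U * h * U⁻¹) (j * x) = j * (U * h * U⁻¹) x) ∨
        (∀ x, (U * h * U⁻¹) (j * x) = -(j * (U * h * U⁻¹) x)) := by
      have hUJ' : ∀ x, U (j * x) = j * U x := hUJ
      have hUiJ' : ∀ x, U⁻¹ (j * x) = j * U⁻¹ x := hUiJ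
      rcases c1 with c1 | c1
      · left; intro x; rw [hxapp, hxapp, hUiJ', c1, hUJ']
      · right; intro x; rw [hxapp, hxapp, hUiJ', c1, map_neg, hUJ']
    have hxk : ∀ x, (U * h * U⁻¹) x = U' (k (U'⁻¹ x)) := by
      intro x
      rw [hxapp, hkapp, hVV, hVV]
    have d2 : (∀ x, (U * h * U⁻¹) (J1 x) = J1 ((U * h * U⁻¹) x)) ∨
        (∀ x, (U * h * U⁻¹) (J1 x) = -(J1 ((U * h * U⁻¹) x))) := by
      rcases c2 with c2 | c2
      · left; intro x; rw [hxk, hxk, hU'iJ, c2, hU'J]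
      · right; intro x; rw [hxk, hxk, hU'iJ, c2, map_neg, hU'J]
    rcases coreK hq hm hmo (by omega) hl hl0 hν0 hj2 hjb ht ht0 hs he he0 hζ hts
        (U * h * U⁻¹) hx d1 d2 with h3 | h3
    · refine ⟨1, fun x => ?_⟩
      have h4 := h3 (U x)
      rw [hxapp, hUU'] at h4
      rw [one_smul]
      exact U.injective h4
    · refine ⟨-1, fun x => ?_⟩
      have h4 := h3 (U x)
      rw [hxapp, hUU', ← map_neg] at h4
      rw [neg_smul, one_smul]
      exact U.injective h4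
  · -- N(J) and N(D)
    have c1 := norm_quad hL₁ hj2 hjq hq h hn1
    obtain ⟨i, hi⟩ := hn2D hL₂
    have hJU : ∀ x, k (U'⁻¹ (J0 (U' x))) = U'⁻¹ (U (h (J0 (U⁻¹ (U' x))))) := by
      intro x
      rw [hkapp, hVV, hUiJ]
    have d1 : ∃ ε : F, ε * ε = 1 ∧ ∀ x, k ((P2.U (-1 : F)).symm (J0 (P2.U (-1 : F) x)))
        = ε • (P2.U (-1 : F)).symm (J0 (P2.U (-1 : F) (k x))) := by
      change ∃ ε : F, ε * ε = 1 ∧ ∀ x, k (U'⁻¹ (J0 (U' x))) = ε • U'⁻¹ (J0 (U' (k x)))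
      have e0 : ∀ x, U' (k x) = U (h (U⁻¹ (U' x))) := by
        intro x; rw [hkapp, hVV]
      rcases c1 with c1 | c1
      · refine ⟨1, one_mul 1, fun x => ?_⟩
        have c1' : ∀ x, h (J0 x) = J0 (h x) := c1
        rw [hJU, c1', hUJ, e0, one_smul]
      · refine ⟨-1, by ring, fun x => ?_⟩
        have c1' : ∀ x, h (J0 x) = -(J0 (h x)) := c1
        rw [hJU, c1', map_neg, map_neg, hUJ, e0, neg_smul, one_smul]
    obtain ⟨c, hc⟩ := P2.core_two hq hmp (by omega) (neg_ne_zero.mpr one_ne_zero) hx3 k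
      ⟨hkmem, ⟨i, hi⟩, d1⟩
    refine ⟨c, fun x => ?_⟩
    rw [hh_of_k, hc, map_smul, map_smul, hVV, hUU']
  · -- N(D) and N(J)
    obtain ⟨i, hi⟩ := tw_of_NL hL₁ hn1
    have c2 := hn2J hL₂
    have hJU : ∀ x, h (U⁻¹ (J1 (U x))) = U⁻¹ (U' (k (J1 (U'⁻¹ (U x))))) := by
      intro x
      rw [hh_of_k, hUU, hU'iJ]
    have d1 : ∃ ε : F, ε * ε = 1 ∧ ∀ x, h ((P1.U (1 : F)).symm (J1 (P1.U (1 : F) x)))
        = ε • (P1.U (1 : F)).symm (J1 (P1.U (1 : F) (h x))) := by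
      change ∃ ε : F, ε * ε = 1 ∧ ∀ x, h (U⁻¹ (J1 (U x))) = ε • U⁻¹ (J1 (U (h x)))
      have e0 : ∀ x, U (h x) = U' (k (U'⁻¹ (U x))) := by
        intro x; rw [hh_of_k, hUU]
      rcases c2 with c2 | c2
      · refine ⟨1, one_mul 1, fun x => ?_⟩
        rw [hJU, c2, hU'J, e0, one_smul]
      · refine ⟨-1, by ring, fun x => ?_⟩
        rw [hJU, c2, map_neg, map_neg, hU'J, e0, neg_smul, one_smul]
    exact P1.core_two hq hmp (by omega) one_ne_zero hx2 h ⟨hh, ⟨i, hi⟩, d1⟩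
  · -- N(D) and N(D)
    obtain ⟨i, hi⟩ := tw_of_NL hL₁ hn1
    have hne : (-1 : F) - 1 ≠ 0 := by
      intro h0
      apply h2F
      linear_combination -h0
    exact P1.core_one hq hmp hm7 one_ne_zero (neg_ne_zero.mpr one_ne_zero) hne hx1 h
      ⟨hh, ⟨i, hi⟩, hn2D hL₂⟩

theorem main1 (hq : Odd (Fintype.card F)) (hm : finrank F K = 2 * m) (hmp : m.Prime)
    (hm7 : 7 ≤ m) {lam0 : K} (hl : bar F K m lam0 = -lam0) (hl0 : lam0 ≠ 0) :
    ∃ g ∈ Sp F K m lam0, ∀ L₁ L₂ : IntermediateField F K,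
      (finrank F L₁).Prime → (finrank F L₂).Prime →
      ∀ h ∈ Sp F K m lam0, NL L₁ h → NL L₂ (g⁻¹ * h * g) → ∃ c : F, ∀ x, h x = c • x := by
  obtain ⟨lam, hlb, hlne, g, hg, hmain⟩ := main0 (K := K) hq hm hmp hm7
  obtain ⟨κ, hκ⟩ := exists_norm hm hmp.pos (e := lam / lam0) (by
    rw [map_div₀, hlb, hl, neg_div_neg_eq])
  have hκ0 : κ ≠ 0 := by
    rintro rfl
    rw [zero_mul] at hκ
    exact div_ne_zero hlne hl0 hκ.symm
  set M := mulE F κ hκ0 with hM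
  have hform : ∀ x y, form F K m lam0 (M x) (M y) = form F K m lam x y := by
    intro x y
    rw [form_eq, form_eq, hM, mulE_apply, mulE_apply, map_mul (bar F K m)]
    congr 1
    have : lam0 * (κ * bar F K m κ) = lam := by rw [hκ]; field_simp
    linear_combination (x * bar F K m y) * this
  have hMM : ∀ x, M (M⁻¹ x) = x := by
    intro x; rw [← LinearEquiv.mul_apply, mul_inv_cancel]; rfl
  have hMM' : ∀ x, M⁻¹ (M x) = x := by
    intro x; rw [← LinearEquiv.mul_apply, inv_mul_cancel]; rfl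
  have hform' : ∀ x y, form F K m lam (M⁻¹ x) (M⁻¹ y) = form F K m lam0 x y := by
    intro x y
    rw [← hform, hMM, hMM]
  have hMl : ∀ l x, M (l * x) = l * M x := by
    intro l x; rw [hM, mulE_apply, mulE_apply]; ring
  have hMl' : ∀ l x, M⁻¹ (l * x) = l * M⁻¹ x := by
    intro l x
    apply M.injective
    rw [hMM, hMl, hMM]
  have hdeg : ∀ L : IntermediateField F K, (finrank F L).Prime →
      (finrank F L = 2 ∨ finrank F L = m) := by
    intro L hL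
    have hdvd : finrank F L ∣ 2 * m := by
      rw [← hm]; exact Dvd.intro _ (Module.finrank_mul_finrank F L K)
    rcases (Nat.Prime.dvd_mul hL).mp hdvd with h1 | h1
    · left; exact (Nat.prime_dvd_prime_iff_eq hL Nat.prime_two).mp h1
    · right; exact (Nat.prime_dvd_prime_iff_eq hL hmp).mp h1
  refine ⟨M * g * M⁻¹, ?_, ?_⟩
  · intro x y
    change form F K m lam0 (M (g (M⁻¹ x))) (M (g (M⁻¹ y))) = _
    rw [hform, hg, hform']
  · intro L₁ L₂ hL₁ hL₂ h hh hn1 hn2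
    obtain ⟨c, hc⟩ := hmain L₁ L₂ (hdeg L₁ hL₁) (hdeg L₂ hL₂) (M⁻¹ * h * M) (by
      intro x y
      change form F K m lam (M⁻¹ (h (M x))) (M⁻¹ (h (M y))) = _
      rw [hform', hh, hform]) (by
      intro l hl
      obtain ⟨l', hl', h1⟩ := hn1 l hl
      refine ⟨l', hl', fun y => ?_⟩
      change M⁻¹ (h (M (l * y))) = l' * M⁻¹ (h (M y))
      rw [hMl, h1, hMl']) (by
      have e1 : g⁻¹ * (M⁻¹ * h * M) * g = M⁻¹ * ((M * g * M⁻¹)⁻¹ * h * (M * g * M⁻¹)) * M := by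
        group
      rw [e1]
      intro l hl
      obtain ⟨l', hl', h1⟩ := hn2 l hl
      refine ⟨l', hl', fun y => ?_⟩
      change M⁻¹ (((M * g * M⁻¹)⁻¹ * h * (M * g * M⁻¹)) (M (l * y)))
        = l' * M⁻¹ (((M * g * M⁻¹)⁻¹ * h * (M * g * M⁻¹)) (M y))
      rw [hMl, h1, hMl'])
    refine ⟨c, fun x => ?_⟩
    have h1 := hc (M⁻¹ x)
    change M⁻¹ (h (M (M⁻¹ x))) = _ at h1
    rw [hMM] at h1
    have h2 := congrArg M h1
    rw [hMM, map_smul, hMM] at h2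
    exact h2

variable (F K m) in
/-- the subgroups `N(L)`, `L` of prime degree -/
def primeSet (lam : K) : Set (Subgroup (G F K m lam)) :=
  {A | ∃ L : IntermediateField F K, (finrank F L).Prime ∧ A = H m lam L}

theorem resultP (hq : Odd (Fintype.card F)) (hm : finrank F K = 2 * m) (hmp : m.Prime)
    (hm7 : 7 ≤ m) {lam : K} (hl : bar F K m lam = -lam) (hl0 : lam ≠ 0) :
    IsSymp F K m lam ∧ (∀ A, (∃ L : IntermediateField F K, (finrank F L = 2 ∨ finrank F L = m) ∧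
      A = H m lam L) ↔ A ∈ primeSet F K m lam) ∧ TrivialMeet (primeSet F K m lam) ∧
    BaseTwo (primeSet F K m lam) ∧ SingerIn F K m lam (primeSet F K m lam) ∧
    UniformPair (primeSet F K m lam) := by
  have hmo : Odd m := hmp.odd_of_ne_two (by omega)
  obtain ⟨g, hg, hmain⟩ := main1 hq hm hmp hm7 hl hl0
  have key : ∀ A ∈ primeSet F K m lam, ∀ B ∈ primeSet F K m lam, ∀ h ∈ A,
      (QuotientGroup.mk' (scalars (Sp F K m lam)) ⟨g, hg⟩)⁻¹ * h *
        (QuotientGroup.mk' (scalars (Sp F K m lam)) ⟨g, hg⟩) ∈ B → h = 1 := by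
    rintro _ ⟨L₁, h1, rfl⟩ _ ⟨L₂, h2, rfl⟩
    apply proj_inter
    intro x hx hx'
    exact hmain L₁ L₂ h1 h2 x x.2 (norm_elem L₁ x hx) (norm_elem L₂ _ hx')
  refine ⟨⟨bil_self (two_ne_zero' hq) hm hl, bil_nondeg hm hl0⟩, ?_, ⟨_, key⟩, ?_, ?_, ?_⟩
  · intro A
    constructor
    · rintro ⟨L, hL, rfl⟩
      refine ⟨L, ?_, rfl⟩
      rcases hL with hL | hL
      · rw [hL]; exact Nat.prime_two
      · rw [hL]; exact hmp
    · rintro ⟨L, hL, rfl⟩
      have hdvd : finrank F L ∣ 2 * m := by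
        rw [← hm]; exact Dvd.intro _ (Module.finrank_mul_finrank F L K)
      refine ⟨L, ?_, rfl⟩
      rcases (Nat.Prime.dvd_mul hL).mp hdvd with h1 | h1
      · left; exact (Nat.prime_dvd_prime_iff_eq hL Nat.prime_two).mp h1
      · right; exact (Nat.prime_dvd_prime_iff_eq hL hmp).mp h1
  · rintro _ ⟨L, hL, rfl⟩
    exact baseSize_eq_two (H m lam L) (H_ne_bot hq hm (by omega) lam L) _
      (key _ ⟨L, hL, rfl⟩ _ ⟨L, hL, rfl⟩)
  · apply singer_in
    rintro A ⟨L, -, rfl⟩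
    exact ⟨L, rfl⟩
  · intro s hs1 hs
    have : Finite (K ≃ₗ[F] K) := Finite.of_injective (fun e => (e : K → K)) DFunLike.coe_injective
    obtain ⟨L0, hL0⟩ := exists_quad (K := K) hq hm hmo
    have h := gammaU_eq_two_family (ι := {L : IntermediateField F K // (finrank F L).Prime})
      (fun L => H m lam L.1) ⟨L0, by rw [hL0]; exact Nat.prime_two⟩
      (H_ne_bot hq hm (by omega) lam L0) (QuotientGroup.mk' (scalars (Sp F K m lam)) ⟨g, hg⟩)
      (fun i j => key _ ⟨i.1, i.2, rfl⟩ _ ⟨j.1, j.2, rfl⟩) s hs1 (by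
        intro M hM hsM
        obtain ⟨L, h1, h3⟩ := hs M hM hsM
        exact ⟨⟨L, h1⟩, h3⟩)
    exact ⟨⟨_, h.1⟩, h.2⟩

end Pool.Agent.H330.Symp
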