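import Pool.Agent.H330.CountBadK
import Pool.Agent.H330.SympFinal

set_option linter.unusedSectionVars false
set_option linter.unusedVariables false

/-!
# Existence of a good element by counting
-/

namespace Pool.Agent.H330.Count

open Module Finset Pool.Agent.H330 Pool.Agent.H330.Minus Pool.Agent.H330.Symp

variable {F K : Type} [Field F] [Fintype F] [Field K] [Fintype K] [Algebra F K] {m : ℕ}

variable (F K) in
/-- subfields of odd prime degree -/
def OddL : Set (IntermediateField F K) := {L | (finrank F L).Prime ∧ Odd (finrank F L)}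

instance finite_interm : Finite (IntermediateField F K) :=
  Finite.of_injective (fun L => (L : Set K)) SetLike.coe_injective

theorem dvd_of_odd (hm : finrank F K = 2 * m) {L : IntermediateField F K} (hL : L ∈ OddL F K) :
    finrank F L ∣ m := by
  have hdvd : finrank F L ∣ 2 * m := by
    rw [← hm]; exact Dvd.intro _ (Module.finrank_mul_finrank F L K)
  rcases (Nat.Prime.dvd_mul hL.1).mp hdvd with h | h
  · exfalso
    have h1 := (Nat.prime_dvd_prime_iff_eq hL.1 Nat.prime_two).mp h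
    have h2 := hL.2
    rw [h1] at h2
    exact absurd h2 (by decide)
  · exact h

theorem bar_of_mem {L : IntermediateField F K} (hd : finrank F L ∣ m) {x : K} (hx : x ∈ L) :
    bar F K m x = x := by
  obtain ⟨n, hn⟩ := hd
  rw [bar_apply, hn]
  clear hn
  induction n with
  | zero => rw [mul_zero, pow_zero, pow_one]
  | succ n ih => rw [mul_add, mul_one, pow_add, pow_mul, ih, pow_of_mem L x hx]

theorem card_OddL (hm : finrank F K = 2 * m) (hm0 : 0 < m) :
    (OddL F K).ncard ≤ m.primeFactors.card := by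
  rw [← Set.ncard_coe_finset]
  apply Set.ncard_le_ncard_of_injOn (fun L : IntermediateField F K => finrank F L) _ _
    (Set.toFinite _)
  · intro L hL
    rw [Finset.mem_coe, Nat.mem_primeFactors]
    exact ⟨hL.1, dvd_of_odd hm hL, by omega⟩
  · intro L hL L' hL' h
    have h' : finrank F L = finrank F L' := h
    ext x
    constructor
    · intro hx
      apply mem_of_pow
      rw [← h']; exact pow_of_mem L x hx
    · intro hx
      apply mem_of_pow
      rw [h']; exact pow_of_mem L' x hx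

theorem exists_tw (L : IntermediateField F K) (h : K ≃ₗ[F] K) (hn : NL L h) :
    ∃ σ : L ≃ₐ[F] L, Tw' σ h := by
  classical
  set a : K := h 1 with ha
  have ha0 : a ≠ 0 := by
    intro h0
    have : (1 : K) = 0 := h.injective (by rw [← ha, h0, map_zero])
    exact one_ne_zero this
  have h1 : ∀ d ∈ L, h d / a ∈ L ∧ ∀ y, h (d * y) = h d / a * h y := by
    intro d hd
    obtain ⟨d', hd', h2⟩ := hn d hd
    have h3 := h2 1
    rw [mul_one, ← ha] at h3
    have h4 : h d / a = d' := by rw [h3, mul_div_cancel_right₀ _ ha0]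
    rw [h4]
    exact ⟨hd', h2⟩
  let η : L →ₐ[F] L :=
    { toFun := fun d => ⟨h d / a, (h1 d d.2).1⟩
      map_one' := by
        ext
        change h 1 / a = 1
        exact div_self ha0
      map_mul' := by
        intro x y
        ext
        change h (x * y) / a = h x / a * (h y / a)
        rw [(h1 x x.2).2]; ring
      map_zero' := by
        ext
        change h 0 / a = 0
        rw [map_zero, zero_div]
      map_add' := by
        intro x y
        ext
        change h (x + y) / a = h x / a + h y / a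
        rw [map_add, add_div]
      commutes' := by
        intro r
        ext
        change h (algebraMap F K r) / a = algebraMap F K r
        rw [Algebra.algebraMap_eq_smul_one, map_smul, ← ha, smul_div_assoc, div_self ha0] }
  have hbij : Function.Bijective η :=
    Finite.injective_iff_bijective.mp η.toRingHom.injective
  refine ⟨AlgEquiv.ofBijective η hbij, fun r x => ?_⟩
  exact (h1 r r.2).2 x

theorem exists_tau (L : IntermediateField F K) (hL : (finrank F L).Prime) :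
    ∃ τ : L ≃ₐ[F] L, τ ≠ 1 := by
  have h1 : Nat.card (L ≃ₐ[F] L) = finrank F L := IsGalois.card_aut_eq_finrank F L
  have : Finite (L ≃ₐ[F] L) := Nat.finite_of_card_ne_zero (by rw [h1]; exact hL.ne_zero)
  have h2 : 1 < Nat.card (L ≃ₐ[F] L) := by rw [h1]; exact hL.one_lt
  have h3 : Nontrivial (L ≃ₐ[F] L) := Finite.one_lt_card_iff_nontrivial.mp h2
  exact exists_ne 1

/-- commutes with `j` up to sign -/
def PM (j : K) (h : K ≃ₗ[F] K) : Prop :=
  (∀ x, h (j * x) = j * h x) ∨ (∀ x, h (j * x) = -(j * h x))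

/-- isometries -/
def Iso' (m : ℕ) (lam : K) (h : K ≃ₗ[F] K) : Prop :=
  ∀ x y, bil F K m lam (h x) (h y) = bil F K m lam x y

/-- nonscalar -/
def NS (h : K ≃ₗ[F] K) : Prop := (¬ ∀ x, h x = x) ∧ ¬ ∀ x, h x = -x

/-- bad for two odd subfields -/
def bad1 (m : ℕ) (lam : K) (L L' : IntermediateField F K) : Set (K ≃ₗ[F] K) :=
  {g | Iso' m lam g ∧ ∃ h, Iso' m lam h ∧ NL L h ∧ NL L' (g⁻¹ * h * g) ∧ NS h}

/-- bad for an odd subfield and `j` -/
def bad2 (m : ℕ) (lam j : K) (L : IntermediateField F K) : Set (K ≃ₗ[F] K) :=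
  {g | Iso' m lam g ∧ ∃ h, Iso' m lam h ∧ NL L h ∧ PM j (g⁻¹ * h * g) ∧ NS h}

/-- bad for `j` and an odd subfield -/
def bad3 (m : ℕ) (lam j : K) (L : IntermediateField F K) : Set (K ≃ₗ[F] K) :=
  {g | Iso' m lam g ∧ ∃ h, Iso' m lam h ∧ PM j h ∧ NL L (g⁻¹ * h * g) ∧ NS h}

theorem app_inv (g : K ≃ₗ[F] K) (x : K) : g (g⁻¹ x) = x := by
  rw [← LinearEquiv.mul_apply, mul_inv_cancel]; rfl

theorem inv_app (g : K ≃ₗ[F] K) (x : K) : g⁻¹ (g x) = x := by
  rw [← LinearEquiv.mul_apply, inv_mul_cancel]; rfl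

theorem Iso'.inv {lam : K} {g : K ≃ₗ[F] K} (hg : Iso' m lam g) : Iso' m lam g⁻¹ := by
  intro x y
  rw [← hg, app_inv, app_inv]

theorem Iso'.mul {lam : K} {g h : K ≃ₗ[F] K} (hg : Iso' m lam g) (hh : Iso' m lam h) :
    Iso' m lam (g * h) := by
  intro x y
  rw [LinearEquiv.mul_apply, LinearEquiv.mul_apply, hg, hh]

theorem NS.conj {g h : K ≃ₗ[F] K} (hh : NS h) : NS (g⁻¹ * h * g) := by
  constructor
  · intro h1
    apply hh.1
    intro x
    have h2 := h1 (g⁻¹ x)
    change g⁻¹ (h (g (g⁻¹ x))) = g⁻¹ x at h2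
    rw [app_inv] at h2
    exact g⁻¹.injective h2
  · intro h1
    apply hh.2
    intro x
    have h2 := h1 (g⁻¹ x)
    change g⁻¹ (h (g (g⁻¹ x))) = -(g⁻¹ x) at h2
    rw [app_inv, ← map_neg] at h2
    exact g⁻¹.injective h2

theorem bad1_sub (lam : K) (L L' : IntermediateField F K) :
    bad1 m lam L L' ⊆ BG L L' (bil F K m lam) := by
  rintro g ⟨hg, h, hh, hn, hn', hns⟩
  exact ⟨hg, h, hh, exists_tw L h hn, exists_tw L' _ hn', hns.1, hns.2⟩

theorem bad3_le (lam j : K) (L : IntermediateField F K) :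
    (bad3 m lam j L).ncard ≤ (bad2 m lam j L).ncard := by
  apply Set.ncard_le_ncard_of_injOn (fun g : K ≃ₗ[F] K => g⁻¹) _ _ (Set.toFinite _)
  · rintro g ⟨hg, h, hh, hp, hn, hns⟩
    refine ⟨hg.inv, g⁻¹ * h * g, (hg.inv.mul hh).mul hg, hn, ?_, hns.conj⟩
    have : (g⁻¹)⁻¹ * (g⁻¹ * h * g) * g⁻¹ = h := by group
    rw [this]; exact hp
  · intro g _ g' _ h
    exact inv_injective h

theorem bad2_le (hm : finrank F K = 2 * m) {lam j : K} {ν : F}
    (hj2 : j ^ 2 = algebraMap F K ν) (hjb : bar F K m j = -j) (L : IntermediateField F K) :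
    (bad2 m lam j L).ncard ≤ (BJ L (bil F K m lam) ν).ncard *
      (UU (bil F K m lam) (LinearMap.mulLeft F j)).ncard := by
  have hJ := mem_roots hm (lam := lam) hj2 hjb
  apply ncard_le_of_fibers _ (fun g : K ≃ₗ[F] K =>
    (g : K →ₗ[F] K) ∘ₗ LinearMap.mulLeft F j ∘ₗ ((g⁻¹ : K ≃ₗ[F] K) : K →ₗ[F] K)) _ (Set.toFinite _)
  · rintro g ⟨hg, h, hh, hn, hp, hns⟩
    refine ⟨⟨?_, ?_, ?_⟩, h, hh, exists_tw L h hn, ?_, hns.1, hns.2⟩
    · intro x y
      change bil F K m lam (g (j * g⁻¹ x)) y = - bil F K m lam x (g (j * g⁻¹ y))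
      have e1 := hJ.1 (g⁻¹ x) (g⁻¹ y)
      rw [LinearMap.mulLeft_apply, LinearMap.mulLeft_apply] at e1
      have e2 : bil F K m lam (g (j * g⁻¹ x)) y = bil F K m lam (j * g⁻¹ x) (g⁻¹ y) := by
        rw [← hg (j * g⁻¹ x) (g⁻¹ y), app_inv]
      have e3 : bil F K m lam x (g (j * g⁻¹ y)) = bil F K m lam (g⁻¹ x) (j * g⁻¹ y) := by
        rw [← hg (g⁻¹ x) (j * g⁻¹ y), app_inv]
      rw [e2, e3, e1]
    · intro x
      change g (j * g⁻¹ (g (j * g⁻¹ x))) = ν • x
      rw [inv_app, ← mul_assoc, ← sq, hj2, ← Algebra.smul_def, map_smul, app_inv]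
    · intro r x
      rw [map_smul]
    · have e1 : ∀ x, (g⁻¹ * h * g) x = g⁻¹ (h (g x)) := fun x => rfl
      rcases hp with hp | hp
      · left
        intro x
        change h (g (j * g⁻¹ x)) = g (j * g⁻¹ (h x))
        have h2 := congrArg g (hp (g⁻¹ x))
        rw [e1, e1, app_inv, app_inv] at h2
        exact h2
      · right
        intro x
        change h (g (j * g⁻¹ x)) = -(g (j * g⁻¹ (h x)))
        have h2 := congrArg g (hp (g⁻¹ x))
        rw [e1, e1, app_inv, app_inv, map_neg] at h2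
        exact h2
  · intro B _
    by_cases hne : {a | a ∈ bad2 m lam j L ∧
        (a : K →ₗ[F] K) ∘ₗ LinearMap.mulLeft F j ∘ₗ ((a⁻¹ : K ≃ₗ[F] K) : K →ₗ[F] K) = B}.Nonempty
    swap
    · rw [Set.not_nonempty_iff_eq_empty] at hne
      rw [hne, Set.ncard_empty]
      exact Nat.zero_le _
    obtain ⟨g0, ⟨hg0, _⟩, hB0⟩ := hne
    apply Set.ncard_le_ncard_of_injOn (fun g : K ≃ₗ[F] K => g0⁻¹ * g) _ _ (Set.toFinite _)
    · rintro g ⟨⟨hg, _⟩, hB⟩
      refine ⟨hg0.inv.mul hg, fun x => ?_⟩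
      change g0⁻¹ (g (j * x)) = j * g0⁻¹ (g x)
      have h1 := congrArg (fun f : K →ₗ[F] K => f (g x)) (hB.trans hB0.symm)
      change g (j * g⁻¹ (g x)) = g0 (j * g0⁻¹ (g x)) at h1
      rw [inv_app] at h1
      rw [h1, inv_app]
    · intro g _ g' _ h
      exact mul_left_cancel h

theorem exists_good (hq : Odd (Fintype.card F)) (hm : finrank F K = 2 * m) (hmo : Odd m)
    (hm2 : 2 ≤ m) {lam : K} (hl : bar F K m lam = -lam) (hl0 : lam ≠ 0) {j : K}
    {ν : F} (hν : ¬ IsSquare ν) (hj2 : j ^ 2 = algebraMap F K ν) (hjb : bar F K m j = -j)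
    (hjq : j ^ Fintype.card F = -j) {B B1 : ℕ}
    (hB : ∀ L ∈ OddL F K, (BJ L (bil F K m lam) ν).ncard ≤ B)
    (hB1 : ∀ L ∈ OddL F K, ∀ L' ∈ OddL F K, (BG L L' (bil F K m lam)).ncard ≤ B1)
    (hlt : ((OddL F K).ncard * (2 * (B * (UU (bil F K m lam) (LinearMap.mulLeft F j)).ncard)) +
      ((OddL F K).ncard * (OddL F K).ncard) * B1) * (4 * m) <
      (Gam F K m).ncard * ((UU (bil F K m lam) (LinearMap.mulLeft F j)).ncard *
      (UU (bil F K m lam) (LinearMap.mulLeft F j)).ncard)) :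
    ∃ g ∈ Sp F K m lam, ∀ L₁ L₂ : IntermediateField F K,
      (finrank F L₁).Prime → (finrank F L₂).Prime →
      ∀ h ∈ Sp F K m lam, NL L₁ h → NL L₂ (g⁻¹ * h * g) → ∃ c : F, ∀ x, h x = c • x := by
  classical
  set u := (UU (bil F K m lam) (LinearMap.mulLeft F j)).ncard with hu
  set ℓ := (OddL F K).ncard with hℓ
  have hgood := many_good (F := F) (K := K) hq hm hmo hm2 hl hl0 hν hj2 hjb
  rw [← hu] at hgood
  -- the bad set
  let A1 : Set (K ≃ₗ[F] K) := {g | ∃ p ∈ (OddL F K) ×ˢ (OddL F K), g ∈ bad1 m lam p.1 p.2}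
  let A2 : Set (K ≃ₗ[F] K) := {g | ∃ L ∈ OddL F K, g ∈ bad2 m lam j L ∪ bad3 m lam j L}
  have hA1 : A1.ncard ≤ ℓ * ℓ * B1 := by
    have h := exists_count A1 ((OddL F K) ×ˢ (OddL F K)) (Set.toFinite _)
      (fun g p => g ∈ bad1 m lam p.1 p.2) (fun g hg => hg) B1 (by
        rintro ⟨L, L'⟩ ⟨hL, hL'⟩
        refine le_trans (Set.ncard_le_ncard ?_ (Set.toFinite _)) (hB1 L hL L' hL')
        rintro g ⟨_, hg⟩
        exact bad1_sub lam L L' hg)
    rwa [Set.ncard_prod] at h
  have hA2 : A2.ncard ≤ ℓ * (2 * (B * u)) := by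
    apply exists_count A2 (OddL F K) (Set.toFinite _)
      (fun g L => g ∈ bad2 m lam j L ∪ bad3 m lam j L) (fun g hg => hg)
    intro L hL
    have h1 : (bad2 m lam j L).ncard ≤ B * u :=
      (bad2_le hm hj2 hjb L).trans (Nat.mul_le_mul_right _ (hB L hL))
    have h2 := (bad3_le (m := m) lam j L).trans h1
    refine le_trans (Set.ncard_le_ncard (t := bad2 m lam j L ∪ bad3 m lam j L) ?_ (Set.toFinite _))
      ((Set.ncard_union_le _ _).trans (by omega))
    rintro g ⟨_, hg⟩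
    exact hg
  have hex : ∃ g ∈ GoodU F m lam j, g ∉ A2 ∪ A1 := by
    by_contra hcon
    push Not at hcon
    have h1 : (GoodU F m lam j).ncard ≤ ℓ * (2 * (B * u)) + ℓ * ℓ * B1 := by
      refine le_trans (Set.ncard_le_ncard (t := A2 ∪ A1) hcon (Set.toFinite _))
        ((Set.ncard_union_le _ _).trans (by omega))
    have h2 := hgood.trans (Nat.mul_le_mul_right (4 * m) h1)
    exact absurd (lt_of_le_of_lt h2 hlt) (lt_irrefl _)
  obtain ⟨g, ⟨hg, hgU⟩, hgA⟩ := hex
  have hgA2 : g ∉ A2 := fun h => hgA (Or.inl h)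
  have hgA1 : g ∉ A1 := fun h => hgA (Or.inr h)
  refine ⟨g, hg, ?_⟩
  intro L₁ L₂ hL₁ hL₂ h hh hn1 hn2
  have hdeg : ∀ L : IntermediateField F K, (finrank F L).Prime →
      (finrank F L = 2 ∨ L ∈ OddL F K) := by
    intro L hL
    rcases hL.eq_two_or_odd' with h | h
    · left; exact h
    · right; exact ⟨hL, h⟩
  have hiso : Iso' m lam h := hh
  have key : (∀ x, h x = x) ∨ (∀ x, h x = -x) := by
    by_contra hcon
    push Not at hcon
    have hns : NS h := by
      constructor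
      · intro h1
        obtain ⟨x, hx⟩ := hcon.1
        exact hx (h1 x)
      · intro h1
        obtain ⟨x, hx⟩ := hcon.2
        exact hx (h1 x)
    rcases hdeg L₁ hL₁ with h1 | h1 <;> rcases hdeg L₂ hL₂ with h2 | h2
    · have e1 := norm_quad h1 hj2 hjq hq h hn1
      have e2 := norm_quad h2 hj2 hjq hq _ hn2
      rcases hgU h hh e1 e2 with h3 | h3
      · exact hns.1 h3
      · exact hns.2 h3
    · exact hgA2 ⟨L₂, h2, Or.inr ⟨hg, h, hiso, norm_quad h1 hj2 hjq hq h hn1, hn2, hns⟩⟩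
    · exact hgA2 ⟨L₁, h1, Or.inl ⟨hg, h, hiso, hn1, norm_quad h2 hj2 hjq hq _ hn2, hns⟩⟩
    · exact hgA1 ⟨(L₁, L₂), ⟨h1, h2⟩, ⟨hg, h, hiso, hn1, hn2, hns⟩⟩
  rcases key with h1 | h1
  · exact ⟨1, fun x => by rw [h1, one_smul]⟩
  · exact ⟨-1, fun x => by rw [h1, neg_smul, one_smul]⟩

end Pool.Agent.H330.Count
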