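import Pool.Agent.H330.CountSub

set_option linter.unusedSectionVars false

/-!
# Sequential counts for isometries and skew maps
-/

namespace Pool.Agent.H330.Count

open Module Finset

section

variable {k V V' : Type} [Field k] [Fintype k] [AddCommGroup V] [Module k V] [Finite V]
  [AddCommGroup V'] [Module k V'] [Finite V']

/-- isometries -/
def Isom (ω' : V' →ₗ[k] V' →ₗ[k] k) (ω : V →ₗ[k] V →ₗ[k] k) (g : V' →ₗ[k] V) : Prop :=
  ∀ x y, ω (g x) (g y) = ω' x y

/-- skew maps -/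
def Skew (ω : V →ₗ[k] V →ₗ[k] k) (A : V →ₗ[k] V) : Prop := ∀ x y, ω (A x) y = - ω x (A y)

theorem Isom.injective {ω' : V' →ₗ[k] V' →ₗ[k] k} {ω : V →ₗ[k] V →ₗ[k] k} {g : V' →ₗ[k] V}
    (hω' : NonDeg ω') (hg : Isom ω' ω g) : Function.Injective g := by
  rw [injective_iff_map_eq_zero]
  intro x hx
  apply hω'
  intro y
  rw [← hg, hx, map_zero, LinearMap.zero_apply]

theorem card_affine' {ω : V →ₗ[k] V →ₗ[k] k} (h : NonDeg ω) (f : V' →ₗ[k] V)
    (hf : Function.Injective f) (X : Submodule k V') (c : V' → k) :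
    {w : V | ∀ x ∈ X, ω (f x) w = c x}.ncard ≤
      Fintype.card k ^ (finrank k V - finrank k X) := by
  have h1 := card_affine h (X.map f) (fun z => c (Function.invFun f z))
  have h2 : finrank k (X.map f) = finrank k X :=
    (LinearEquiv.finrank_eq (Submodule.equivMapOfInjective f hf X)).symm
  rw [h2] at h1
  refine le_trans (Set.ncard_le_ncard ?_ (Set.toFinite _)) h1
  rintro w hw _ ⟨x, hx, rfl⟩
  rw [Function.leftInverse_invFun hf x]
  exact hw x hx

/-- sequential count of isometries -/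
theorem iso_count {ω' : V' →ₗ[k] V' →ₗ[k] k} {ω : V →ₗ[k] V →ₗ[k] k} (hω' : NonDeg ω')
    (hω : NonDeg ω) {s N : ℕ} (hs : 0 < s) (σ : Spread k V' s) (hN' : finrank k V' = N)
    (hN : finrank k V = N) (S : Set (V' →ₗ[k] V)) (hS : ∀ g ∈ S, Isom ω' ω g)
    (hdet : ∀ g ∈ S, ∀ g2 ∈ S, ∀ v, g v = g2 v → ∀ x ∈ σ.O v, g x = g2 x)
    (c : ℕ) (g1 : V' →ₗ[k] V) (X : Submodule k V') (hg1 : g1 ∈ S) (hX : σ.Inv X)
    (hc : finrank k X + s * c = N) :
    {g ∈ S | ∀ x ∈ X, g x = g1 x}.ncard ≤ Fintype.card k ^ (s * tri c) := by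
  refine seq_uniform S s N hs hN' (fun _ X => σ.Inv X) ?_ c g1 X hg1 hX hc
  intro g1 hg1 X hX hXt
  obtain ⟨v, hv⟩ : ∃ v, v ∉ X := by
    by_contra hcon
    push Not at hcon
    exact hXt (Submodule.eq_top_iff'.mpr hcon)
  refine ⟨v, {w : V | ∀ x ∈ X, ω (g1 x) w = ω' x v}, ?_, ?_, ?_⟩
  · rw [← hN]
    exact card_affine' hω g1 ((hS g1 hg1).injective hω') X _
  · intro g hg hag x hx
    rw [← hag x hx, hS g hg]
  · intro g2 hg2 hag
    refine ⟨X ⊔ σ.O v, σ.inv_sup hX (σ.inv_O v), σ.finrank_step hX hv, ?_⟩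
    intro g hg hag' hgv
    apply agree_sup
    · intro x hx
      rw [hag' x hx, hag x hx]
    · exact hdet g hg g2 hg2 v hgv

/-- sequential count of skew maps -/
theorem skew_count {ω : V →ₗ[k] V →ₗ[k] k}
    (hω : NonDeg ω) {s N : ℕ} (hs : 0 < s) (σ : Spread k V s)
    (hN : finrank k V = N) (S : Set (V →ₗ[k] V)) (hS : ∀ g ∈ S, Skew ω g)
    (hdet : ∀ g ∈ S, ∀ g2 ∈ S, ∀ v, g v = g2 v → ∀ x ∈ σ.O v, g x = g2 x)
    (c : ℕ) (g1 : V →ₗ[k] V) (X : Submodule k V) (hg1 : g1 ∈ S) (hX : σ.Inv X)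
    (hc : finrank k X + s * c = N) :
    {g ∈ S | ∀ x ∈ X, g x = g1 x}.ncard ≤ Fintype.card k ^ (s * tri c) := by
  refine seq_uniform S s N hs hN (fun _ X => σ.Inv X) ?_ c g1 X hg1 hX hc
  intro g1 hg1 X hX hXt
  obtain ⟨v, hv⟩ : ∃ v, v ∉ X := by
    by_contra hcon
    push Not at hcon
    exact hXt (Submodule.eq_top_iff'.mpr hcon)
  refine ⟨v, {w : V | ∀ x ∈ X, ω x w = - ω (g1 x) v}, ?_, ?_, ?_⟩
  · rw [← hN]
    exact card_affine hω X _
  · intro g hg hag x hx
    rw [← hag x hx, hS g hg, neg_neg]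
  · intro g2 hg2 hag
    refine ⟨X ⊔ σ.O v, σ.inv_sup hX (σ.inv_O v), σ.finrank_step hX hv, ?_⟩
    intro g hg hag' hgv
    apply agree_sup
    · intro x hx
      rw [hag' x hx, hag x hx]
    · exact hdet g hg g2 hg2 v hgv

/-- skew square roots of `ν` commuting with `R` -/
def Roots (R : Type) [Field R] [Algebra k R] [Module R V] (ω : V →ₗ[k] V →ₗ[k] k) (ν : k) :
    Set (V →ₗ[k] V) :=
  {J | Skew ω J ∧ (∀ x, J (J x) = ν • x) ∧ ∀ (r : R) x, J (r • x) = r • J x}

/-- a `k`-linear map commuting with `R` is `R`-linear -/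
def toR (R : Type) [Field R] [Module R V] (J : V →ₗ[k] V)
    (h : ∀ (r : R) x, J (r • x) = r • J x) : V →ₗ[R] V where
  toFun := J
  map_add' := J.map_add
  map_smul' := h

theorem root_count (R : Type) [Field R] [Fintype R] [Algebra k R] [Module R V]
    [IsScalarTower k R V] {ω : V →ₗ[k] V →ₗ[k] k} (hω : NonDeg ω) {N : ℕ} {ν : k}
    (hν : ¬ IsSquare (algebraMap k R ν)) (hN : finrank k V = N)
    (c : ℕ) (g1 : V →ₗ[k] V) (X : Submodule k V) (hg1 : g1 ∈ Roots R ω ν)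
    (hX : ∀ (r : R), ∀ x ∈ X, r • x ∈ X) (hX1 : ∀ x ∈ X, g1 x ∈ X)
    (hc : finrank k X + (finrank k R * 2) * c = N) :
    {g ∈ Roots R ω ν | ∀ x ∈ X, g x = g1 x}.ncard
      ≤ Fintype.card k ^ ((finrank k R * 2) * tri c) := by
  have hpos : 0 < finrank k R * 2 := Nat.mul_pos finrank_pos (by norm_num)
  refine seq_uniform (Roots R ω ν) (finrank k R * 2) N hpos hN
    (fun g X => (∀ (r : R), ∀ x ∈ X, r • x ∈ X) ∧ ∀ x ∈ X, g x ∈ X) ?_ c g1 X hg1 ⟨hX, hX1⟩ hc
  rintro g1 hg1 X ⟨hXR, hXJ⟩ hXt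
  obtain ⟨v, hv⟩ : ∃ v, v ∉ X := by
    by_contra hcon
    push Not at hcon
    exact hXt (Submodule.eq_top_iff'.mpr hcon)
  refine ⟨v, {w : V | ∀ x ∈ X, ω x w = - ω (g1 x) v}, ?_, ?_, ?_⟩
  · rw [← hN]
    exact card_affine hω X _
  · intro g hg hag x hx
    rw [← hag x hx, hg.1, neg_neg]
  · intro g2 hg2 hag
    have hJ : ∀ x, (toR R g2 hg2.2.2) ((toR R g2 hg2.2.2) x) = algebraMap k R ν • x := by
      intro x
      rw [algebraMap_smul]
      exact hg2.2.1 x
    let σ := (Spread.ofJ hν (toR R g2 hg2.2.2) hJ).restrict k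
    have hOv : ∀ v, σ.O v = (Submodule.span R {v, g2 v}).restrictScalars k := fun v => rfl
    have hinv : ∀ Y : Submodule k V, σ.Inv Y ↔
        ((∀ (r : R), ∀ x ∈ Y, r • x ∈ Y) ∧ ∀ x ∈ Y, g2 x ∈ Y) := by
      intro Y
      constructor
      · intro h
        constructor
        · intro r x hx
          apply h x hx
          rw [hOv, Submodule.restrictScalars_mem]
          exact Submodule.smul_mem _ _ (Submodule.subset_span (by simp))
        · intro x hx
          apply h x hx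
          rw [hOv, Submodule.restrictScalars_mem]
          exact Submodule.subset_span (by simp)
      · rintro ⟨h1, h2⟩ x hx y hy
        rw [hOv, Submodule.restrictScalars_mem] at hy
        obtain ⟨a, b, rfl⟩ := Submodule.mem_span_pair.mp hy
        exact Y.add_mem (h1 a x hx) (h1 b _ (h2 x hx))
    have hX2 : σ.Inv X := (hinv X).mpr ⟨hXR, fun x hx => by rw [hag x hx]; exact hXJ x hx⟩
    refine ⟨X ⊔ σ.O v, (hinv _).mp (σ.inv_sup hX2 (σ.inv_O v)), σ.finrank_step hX2 hv, ?_⟩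
    intro g hg hag' hgv
    apply agree_sup
    · intro x hx
      rw [hag' x hx, hag x hx]
    · intro x hx
      rw [hOv, Submodule.restrictScalars_mem] at hx
      obtain ⟨a, b, rfl⟩ := Submodule.mem_span_pair.mp hx
      rw [map_add, map_add, hg.2.2, hg.2.2, hg2.2.2, hg2.2.2, hgv]
      congr 2
      rw [hg2.2.1, ← hgv, hg.2.1]

/-- all roots commuting with `R` -/
theorem root_count_all (R : Type) [Field R] [Fintype R] [Algebra k R] [Module R V]
    [IsScalarTower k R V] {ω : V →ₗ[k] V →ₗ[k] k} (hω : NonDeg ω) {ν : k}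
    (hν : ¬ IsSquare (algebraMap k R ν))
    (c : ℕ) (hc : (finrank k R * 2) * c = finrank k V) :
    (Roots R ω ν).ncard ≤ Fintype.card k ^ ((finrank k R * 2) * tri c) := by
  by_cases hne : (Roots R ω ν).Nonempty
  · obtain ⟨g1, hg1⟩ := hne
    have h := root_count R hω hν rfl c g1 ⊥ hg1 (by
      intro r x hx
      rw [Submodule.mem_bot] at hx ⊢
      rw [hx, smul_zero]) (by
      intro x hx
      rw [Submodule.mem_bot] at hx ⊢
      rw [hx, map_zero]) (by rw [finrank_bot, zero_add, hc])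
    refine le_trans (Set.ncard_le_ncard ?_ (Set.toFinite _)) h
    intro g hg
    refine ⟨hg, fun x hx => ?_⟩
    rw [Submodule.mem_bot] at hx
    rw [hx, map_zero, map_zero]
  · rw [Set.not_nonempty_iff_eq_empty] at hne
    rw [hne, Set.ncard_empty]
    exact Nat.zero_le _

/-- square roots of a nonsquare -/
theorem sq_count {ν : k} (hν : ¬ IsSquare ν) (a : ℕ) (ha : finrank k V = 2 * a) :
    {A : V →ₗ[k] V | ∀ x, A (A x) = ν • x}.ncard ≤ Fintype.card k ^ (2 * (a * a)) := by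
  by_cases hne : {A : V →ₗ[k] V | ∀ x, A (A x) = ν • x}.Nonempty
  · obtain ⟨g1, hg1⟩ := hne
    have h := seq_count (G := V →ₗ[k] V) (V' := V) (V := V) (fun g => g)
      {A : V →ₗ[k] V | ∀ x, A (A x) = ν • x} (fun _ => Fintype.card k ^ (2 * a))
      (fun c g X => ∃ X0 : Submodule k V, (X0 : Set V) = X ∧ (∀ x ∈ X0, g x ∈ X0) ∧
        finrank k X0 + 2 * c = 2 * a) ?_ ?_ a g1 ((⊥ : Submodule k V) : Set V) hg1
        ⟨⊥, rfl, ?_, by rw [finrank_bot, zero_add]⟩
    · rw [prod_const, card_range, ← pow_mul, mul_assoc] at h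
      refine le_trans (Set.ncard_le_ncard ?_ (Set.toFinite _)) h
      intro g hg
      refine ⟨hg, fun x hx => ?_⟩
      have hx' : x = 0 := hx
      rw [hx', map_zero, map_zero]
    · rintro g1 _ hg1 ⟨X, rfl, hc, hX⟩ g hg hagree
      have hX' : X = ⊤ := Submodule.eq_top_of_finrank_eq (by rw [ha]; omega)
      ext x
      exact hagree x (by rw [hX']; trivial)
    · rintro c g1 _ hg1 ⟨X, rfl, hc, hX⟩
      obtain ⟨v, hv⟩ : ∃ v, v ∉ X := by
        by_contra hcon
        push Not at hcon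
        rw [Submodule.eq_top_iff'.mpr hcon, finrank_top, ha] at hX
        omega
      refine ⟨v, Set.univ, ?_, fun _ _ _ => trivial, ?_⟩
      · rw [Set.ncard_univ, Spread.card_space (k := k), ha]
      · intro g2 hg2 hag
        let σ := Spread.ofJ hν g2 hg2
        have hX2 : σ.Inv X := (Spread.ofJ_inv hν g2 hg2 X).mpr (fun x hx => by
          have := hag x hx
          rw [this]; exact hc x hx)
        refine ⟨_, ⟨X ⊔ σ.O v, rfl,
          (Spread.ofJ_inv hν g2 hg2 _).mp (σ.inv_sup hX2 (σ.inv_O v)), ?_⟩, ?_⟩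
        · rw [σ.finrank_step hX2 hv]; omega
        · intro g hg hag' hgv
          apply agree_sup
          · intro x hx
            have e1 := hag' x hx
            have e2 := hag x hx
            rw [e1, e2]
          · intro x hx
            have hx' : x ∈ Submodule.span k {v, g2 v} := hx
            obtain ⟨a, b, rfl⟩ := Submodule.mem_span_pair.mp hx'
            have hgv' : g v = g2 v := hgv
            have e1 : g (g2 v) = g2 (g2 v) := by
              rw [hg2 v, ← hgv', hg v]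
            rw [map_add, map_add, map_smul, map_smul, map_smul, map_smul, hgv', e1]
    · intro x hx
      rw [Submodule.mem_bot] at hx ⊢
      rw [hx, map_zero]
  · rw [Set.not_nonempty_iff_eq_empty] at hne
    rw [hne, Set.ncard_empty]
    exact Nat.zero_le _

/-- skew roots preserving `W` -/
theorem root_stab {ω : V →ₗ[k] V →ₗ[k] k} (hω : NonDeg ω) {m : ℕ} {ν : k}
    (hν : ¬ IsSquare ν) (hN : finrank k V = 2 * m) (W : Submodule k V) (a : ℕ)
    (hWa : finrank k W = 2 * a) (n : ℕ)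
    (hT : {A : W →ₗ[k] W | ∃ J ∈ Roots k ω ν, ∀ w : W, (A w : V) = J w}.ncard ≤ n) :
    {J ∈ Roots k ω ν | ∀ x ∈ W, J x ∈ W}.ncard ≤ n * Fintype.card k ^ (2 * tri (m - a)) := by
  have ham : a ≤ m := by
    have := Submodule.finrank_le W
    omega
  have hν' : ¬ IsSquare (algebraMap k k ν) := hν
  refine (ncard_le_of_fibers _ (fun J => J ∘ₗ W.subtype)
    ((fun A : W →ₗ[k] W => W.subtype ∘ₗ A) ''
      {A : W →ₗ[k] W | ∃ J ∈ Roots k ω ν, ∀ w : W, (A w : V) = J w})
    (Set.toFinite _) ?_ (Fintype.card k ^ (2 * tri (m - a))) ?_).trans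
      (Nat.mul_le_mul_right _ ((Set.ncard_image_le (Set.toFinite _)).trans hT))
  · rintro J ⟨hJ, hJW⟩
    refine ⟨J.restrict hJW, ⟨J, hJ, fun w => rfl⟩, rfl⟩
  · intro b _
    by_cases hne : {J | J ∈ {J ∈ Roots k ω ν | ∀ x ∈ W, J x ∈ W} ∧ J ∘ₗ W.subtype = b}.Nonempty
    · obtain ⟨g1, ⟨hg1, hg1W⟩, hg1b⟩ := hne
      have h := root_count k hω hν' hN (m - a) g1 W hg1 (fun r x hx => W.smul_mem r hx) hg1W
        (by rw [finrank_self, hWa]; omega)
      rw [finrank_self, one_mul] at h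
      refine le_trans (Set.ncard_le_ncard ?_ (Set.toFinite _)) h
      rintro J ⟨⟨hJ, _⟩, hJb⟩
      refine ⟨hJ, fun x hx => ?_⟩
      have e : (J ∘ₗ W.subtype) ⟨x, hx⟩ = (g1 ∘ₗ W.subtype) ⟨x, hx⟩ := by
        rw [show J ∘ₗ W.subtype = b from hJb, show g1 ∘ₗ W.subtype = b from hg1b]
      exact e
    · rw [Set.not_nonempty_iff_eq_empty] at hne
      rw [hne, Set.ncard_empty]
      exact Nat.zero_le _

/-- skew roots preserving any `W` -/
theorem root_stab_all {ω : V →ₗ[k] V →ₗ[k] k} (hω : NonDeg ω) {m : ℕ} {ν : k}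
    (hν : ¬ IsSquare ν) (hN : finrank k V = 2 * m) (W : Submodule k V) (a : ℕ)
    (hWa : finrank k W = 2 * a) :
    {J ∈ Roots k ω ν | ∀ x ∈ W, J x ∈ W}.ncard
      ≤ Fintype.card k ^ (2 * (a * a) + 2 * tri (m - a)) := by
  have h := root_stab hω hν hN W a hWa (Fintype.card k ^ (2 * (a * a))) (by
    refine le_trans (Set.ncard_le_ncard ?_ (Set.toFinite _)) (sq_count hν a hWa)
    rintro A ⟨J, hJ, hA⟩ w
    ext
    rw [hA, hA, hJ.2.1]
    rfl)
  rwa [pow_add]

/-- the restriction of a form -/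
def resForm (ω : V →ₗ[k] V →ₗ[k] k) (W : Submodule k V) : W →ₗ[k] W →ₗ[k] k :=
  (ω.domRestrict₁₂ W W)

theorem resForm_apply (ω : V →ₗ[k] V →ₗ[k] k) (W : Submodule k V) (x y : W) :
    resForm ω W x y = ω x y := rfl

/-- skew roots preserving nondegenerate `W` -/
theorem root_stab_nondeg {ω : V →ₗ[k] V →ₗ[k] k} (hω : NonDeg ω) {m : ℕ} {ν : k}
    (hν : ¬ IsSquare ν) (hN : finrank k V = 2 * m) (W : Submodule k V) (a : ℕ)
    (hWa : finrank k W = 2 * a) (hW : NonDeg (resForm ω W)) :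
    {J ∈ Roots k ω ν | ∀ x ∈ W, J x ∈ W}.ncard
      ≤ Fintype.card k ^ (2 * tri a + 2 * tri (m - a)) := by
  have hν' : ¬ IsSquare (algebraMap k k ν) := hν
  have h := root_stab hω hν hN W a hWa (Fintype.card k ^ (2 * tri a)) (by
    have h1 := root_count_all (V := W) k hW hν' a (by rw [finrank_self, one_mul, hWa])
    rw [finrank_self, one_mul] at h1
    refine le_trans (Set.ncard_le_ncard ?_ (Set.toFinite _)) h1
    rintro A ⟨J, hJ, hA⟩
    refine ⟨fun x y => ?_, fun w => ?_, fun r x => A.map_smul r x⟩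
    · rw [resForm_apply, resForm_apply, hA, hA, hJ.1]
    · ext
      rw [hA, hA, hJ.2.1]
      rfl)
  rwa [pow_add]

/-- isometries mapping `W'` into `W` -/
theorem iso_stab {ω : V →ₗ[k] V →ₗ[k] k} (hω : NonDeg ω) {N : ℕ}
    (hN : finrank k V = N) (W' W : Submodule k V) (n1 : ℕ)
    (hW' : finrank k W' = n1) (n : ℕ)
    (hT : {A : W' →ₗ[k] W | ∃ g : V →ₗ[k] V, Isom ω ω g ∧ ∀ w : W', (A w : V) = g w}.ncard ≤ n) :
    {g : V →ₗ[k] V | Isom ω ω g ∧ ∀ x ∈ W', g x ∈ W}.ncard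
      ≤ n * Fintype.card k ^ (tri (N - n1)) := by
  have ham : n1 ≤ N := by
    have := Submodule.finrank_le W'
    omega
  refine (ncard_le_of_fibers _ (fun g => g ∘ₗ W'.subtype)
    ((fun A : W' →ₗ[k] W => W.subtype ∘ₗ A) ''
      {A : W' →ₗ[k] W | ∃ g : V →ₗ[k] V, Isom ω ω g ∧ ∀ w : W', (A w : V) = g w})
    (Set.toFinite _) ?_ (Fintype.card k ^ (tri (N - n1))) ?_).trans
      (Nat.mul_le_mul_right _ ((Set.ncard_image_le (Set.toFinite _)).trans hT))
  · rintro g ⟨hg, hgW⟩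
    refine ⟨LinearMap.codRestrict W (g ∘ₗ W'.subtype) (fun x => hgW x x.2),
      ⟨g, hg, fun w => rfl⟩, rfl⟩
  · intro b _
    by_cases hne : {g | g ∈ {g : V →ₗ[k] V | Isom ω ω g ∧ ∀ x ∈ W', g x ∈ W} ∧
        g ∘ₗ W'.subtype = b}.Nonempty
    · obtain ⟨g1, ⟨hg1, hg1W⟩, hg1b⟩ := hne
      have h := iso_count hω hω (s := 1) (by norm_num) (Spread.triv k V) hN hN
        {g : V →ₗ[k] V | Isom ω ω g} (fun g hg => hg) (by
          intro g hg g2 hg2 v hv x hx
          obtain ⟨c, rfl⟩ := Submodule.mem_span_singleton.mp hx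
          rw [map_smul, map_smul, hv]) (N - n1) g1 W' hg1 (by
          intro v hv
          exact (Submodule.span_singleton_le_iff_mem v W').mpr hv) (by rw [hW']; omega)
      rw [one_mul] at h
      refine le_trans (Set.ncard_le_ncard ?_ (Set.toFinite _)) h
      rintro J ⟨⟨hJ, _⟩, hJb⟩
      refine ⟨hJ, fun x hx => ?_⟩
      have e : (J ∘ₗ W'.subtype) ⟨x, hx⟩ = (g1 ∘ₗ W'.subtype) ⟨x, hx⟩ := by
        rw [show J ∘ₗ W'.subtype = b from hJb, show g1 ∘ₗ W'.subtype = b from hg1b]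
      exact e
    · rw [Set.not_nonempty_iff_eq_empty] at hne
      rw [hne, Set.ncard_empty]
      exact Nat.zero_le _

theorem iso_stab_all {ω : V →ₗ[k] V →ₗ[k] k} (hω : NonDeg ω) {N : ℕ}
    (hN : finrank k V = N) (W' W : Submodule k V) (n1 : ℕ)
    (hW' : finrank k W' = n1) (hW : finrank k W = n1) :
    {g : V →ₗ[k] V | Isom ω ω g ∧ ∀ x ∈ W', g x ∈ W}.ncard
      ≤ Fintype.card k ^ (n1 * n1 + tri (N - n1)) := by
  have h := iso_stab hω hN W' W n1 hW' (Fintype.card k ^ (n1 * n1)) (by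
    refine (Set.ncard_le_ncard (Set.subset_univ _) (Set.toFinite _)).trans (le_of_eq ?_)
    rw [Set.ncard_univ, Spread.card_space (k := k), finrank_linearMap, hW, hW'])
  rwa [pow_add]

theorem iso_stab_nondeg {ω : V →ₗ[k] V →ₗ[k] k} (hω : NonDeg ω) {N : ℕ}
    (hN : finrank k V = N) (W' W : Submodule k V) (n1 : ℕ)
    (hW' : finrank k W' = n1) (hW : finrank k W = n1) (hnW : NonDeg (resForm ω W))
    (hnW' : NonDeg (resForm ω W')) :
    {g : V →ₗ[k] V | Isom ω ω g ∧ ∀ x ∈ W', g x ∈ W}.ncard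
      ≤ Fintype.card k ^ (tri n1 + tri (N - n1)) := by
  have h := iso_stab hω hN W' W n1 hW' (Fintype.card k ^ (tri n1)) (by
    by_cases hne : {A : W' →ₗ[k] W | ∃ g : V →ₗ[k] V, Isom ω ω g ∧
        ∀ w : W', (A w : V) = g w}.Nonempty
    · obtain ⟨A1, hA1⟩ := hne
      have hiso : ∀ A : W' →ₗ[k] W, (∃ g : V →ₗ[k] V, Isom ω ω g ∧ ∀ w : W', (A w : V) = g w) →
          Isom (resForm ω W') (resForm ω W) A := by
        rintro A ⟨g, hg, hA⟩ x y
        rw [resForm_apply, resForm_apply, hA, hA, hg]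
      have h := iso_count hnW' hnW (s := 1) (by norm_num) (Spread.triv k W') hW' hW
        {A : W' →ₗ[k] W | ∃ g : V →ₗ[k] V, Isom ω ω g ∧ ∀ w : W', (A w : V) = g w}
        (fun g hg => hiso g hg) (by
          intro g hg g2 hg2 v hv x hx
          obtain ⟨c, rfl⟩ := Submodule.mem_span_singleton.mp hx
          rw [map_smul, map_smul, hv]) n1 A1 ⊥ hA1 (Spread.inv_bot _)
          (by rw [finrank_bot]; omega)
      rw [one_mul] at h
      refine le_trans (Set.ncard_le_ncard ?_ (Set.toFinite _)) h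
      intro g hg
      refine ⟨hg, fun x hx => ?_⟩
      rw [Submodule.mem_bot] at hx
      rw [hx, map_zero, map_zero]
    · rw [Set.not_nonempty_iff_eq_empty] at hne
      rw [hne, Set.ncard_empty]
      exact Nat.zero_le _)
  rwa [pow_add]

end

end Pool.Agent.H330.Count
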