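import Pool.Agent.H330.CountCoreK

set_option linter.unusedSectionVars false
set_option linter.unusedVariables false

/-!
# Many good elements for the unitary group
-/

namespace Pool.Agent.H330.Count

open Module Finset Pool.Agent.H330 Pool.Agent.H330.Minus Pool.Agent.H330.Symp

variable {F K : Type} [Field F] [Fintype F] [Field K] [Fintype K] [Algebra F K] {m : ℕ}

variable (F K m) in
/-- generators of `D` -/
def Gam : Set K :=
  {t | bar F K m t = t ∧ ∀ d ∈ Finset.Icc 1 (m / 3), t ^ (Fintype.card F ^ d) ≠ t}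

theorem gen_of_Gam (hq : Odd (Fintype.card F)) (hm : finrank F K = 2 * m) (hmo : Odd m) {t : K}
    (ht : t ∈ Gam F K m) (P : IntermediateField F K) (hP : t ^ 2 ∈ P) :
    ∀ d, bar F K m d = d → d ∈ P := by
  have hm0 : 0 < m := hmo.pos
  have htP : t ∈ P := mem_of_sq_mem hq hmo P ht.1 hP
  set L0 := IntermediateField.adjoin F {t} with hL0
  have htL : t ∈ L0 := IntermediateField.mem_adjoin_simple_self F t
  have hle1 : L0 ≤ P := by
    rw [hL0, IntermediateField.adjoin_le_iff]
    intro x hx
    rw [Set.mem_singleton_iff] at hx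
    rw [hx]; exact htP
  have hle2 : L0 ≤ DD F K m := by
    rw [hL0, IntermediateField.adjoin_le_iff]
    intro x hx
    rw [Set.mem_singleton_iff] at hx
    rw [hx]; exact ht.1
  have hdvd : finrank F L0 ∣ m := by
    have := IntermediateField.finrank_dvd_of_le_right hle2
    rwa [finrank_DD hm hm0] at this
  have hdm : finrank F L0 = m := by
    by_contra hne
    obtain ⟨r, hr⟩ := hdvd
    have hr1 : r ≠ 1 := by rintro rfl; rw [mul_one] at hr; exact hne hr.symm
    have hr0 : r ≠ 0 := by rintro rfl; omega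
    have hro : Odd r := by rw [hr] at hmo; exact (Nat.odd_mul.mp hmo).2
    obtain ⟨a, ha⟩ := hro
    have h3 : 3 ≤ r := by omega
    have hpos : 0 < finrank F L0 := finrank_pos
    have h4 : finrank F L0 ≤ m / 3 := by
      rw [Nat.le_div_iff_mul_le (by norm_num)]
      calc finrank F L0 * 3 ≤ finrank F L0 * r := Nat.mul_le_mul_left _ h3
        _ = m := hr.symm
    exact ht.2 _ (Finset.mem_Icc.mpr ⟨hpos, h4⟩) (pow_of_mem L0 t htL)
  have heq : L0 = DD F K m := IntermediateField.eq_of_le_of_finrank_eq hle2 (by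
    rw [hdm, finrank_DD hm hm0])
  intro d hd
  apply hle1
  rw [heq]; exact hd

theorem card_pow_eq (n : ℕ) (hn : 1 < n) : {x : K | x ^ n = x}.ncard ≤ n := by
  classical
  set P : Polynomial K := Polynomial.X ^ n - Polynomial.X with hP
  have hdeg : P.natDegree = n := by
    have h1 : P.natDegree = (Polynomial.X ^ n : Polynomial K).natDegree := by
      apply Polynomial.natDegree_sub_eq_left_of_natDegree_lt
      rw [Polynomial.natDegree_X, Polynomial.natDegree_X_pow]; exact hn
    rw [h1, Polynomial.natDegree_X_pow]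
  have hP0 : P ≠ 0 := by
    intro h0
    rw [h0, Polynomial.natDegree_zero] at hdeg
    omega
  have h1 : {x : K | x ^ n = x} ⊆ (P.roots.toFinset : Set K) := by
    intro x hx
    have hx' : x ^ n = x := hx
    rw [Finset.mem_coe, Multiset.mem_toFinset, Polynomial.mem_roots hP0, Polynomial.IsRoot, hP]
    simp [hx']
  refine (Set.ncard_le_ncard h1 (Set.toFinite _)).trans ?_
  rw [Set.ncard_coe_finset]
  refine (Multiset.toFinset_card_le _).trans ?_
  rw [← hdeg]
  exact Polynomial.card_roots' P

theorem card_Gam (hm : finrank F K = 2 * m) (hm0 : 0 < m) (hq3 : 3 ≤ Fintype.card F) :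
    Fintype.card F ^ m ≤ (Gam F K m).ncard + 2 * Fintype.card F ^ (m / 3) := by
  classical
  set q := Fintype.card F with hqdef
  have h1 : (((DD F K m).toSubalgebra.toSubmodule : Submodule F K) : Set K).ncard = q ^ m := by
    rw [card_submodule]
    congr 1
    exact finrank_DD hm hm0
  have hbad : ∀ D : ℕ, (⋃ d ∈ Finset.Icc 1 D, {x : K | x ^ (q ^ d) = x}).ncard ≤ 2 * q ^ D := by
    intro D
    induction D with
    | zero => simp
    | succ D ih =>
      have h2 : (⋃ d ∈ Finset.Icc 1 (D + 1), {x : K | x ^ (q ^ d) = x})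
          = (⋃ d ∈ Finset.Icc 1 D, {x : K | x ^ (q ^ d) = x}) ∪ {x : K | x ^ (q ^ (D + 1)) = x} := by
        ext x
        simp only [Set.mem_iUnion, Set.mem_union, Finset.mem_Icc, exists_prop, Set.mem_ofPred_eq]
        constructor
        · rintro ⟨d, ⟨hd1, hd2⟩, hx⟩
          rcases Nat.lt_or_ge D d with h | h
          · right
            have : d = D + 1 := by omega
            rw [← this]; exact hx
          · left; exact ⟨d, ⟨hd1, h⟩, hx⟩
        · rintro (⟨d, ⟨hd1, hd2⟩, hx⟩ | hx)
          · exact ⟨d, ⟨hd1, by omega⟩, hx⟩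
          · exact ⟨D + 1, ⟨by omega, le_rfl⟩, hx⟩
      rw [h2]
      refine (Set.ncard_union_le _ _).trans ?_
      have h3 := card_pow_eq (K := K) (q ^ (D + 1)) (Nat.one_lt_pow (by omega) (by omega))
      have h4 : 3 * q ^ D ≤ q ^ (D + 1) := by
        rw [pow_succ, mul_comm]; exact Nat.mul_le_mul_left _ hq3
      omega
  rw [← h1]
  refine le_trans (Set.ncard_le_ncard ?_ (Set.toFinite _))
    ((Set.ncard_union_le (Gam F K m) (⋃ d ∈ Finset.Icc 1 (m / 3), {x : K | x ^ (q ^ d) = x})).trans
      (Nat.add_le_add_left (hbad _) _))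
  intro t ht
  by_cases h : ∃ d ∈ Finset.Icc 1 (m / 3), t ^ (q ^ d) = t
  · right
    obtain ⟨d, hd, h⟩ := h
    rw [Set.mem_iUnion₂]
    exact ⟨d, hd, h⟩
  · left
    push Not at h
    exact ⟨ht, h⟩

/-- `g` is good for the pair of unitary groups -/
def GoodU (F : Type) {K : Type} [Field F] [Fintype F] [Field K] [Fintype K] [Algebra F K] (m : ℕ)
    (lam j : K) : Set (K ≃ₗ[F] K) :=
  {g | (∀ x y, bil F K m lam (g x) (g y) = bil F K m lam x y) ∧
    ∀ h : K ≃ₗ[F] K, (∀ x y, bil F K m lam (h x) (h y) = bil F K m lam x y) →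
      ((∀ x, h (j * x) = j * h x) ∨ (∀ x, h (j * x) = -(j * h x))) →
      ((∀ x, (g⁻¹ * h * g) (j * x) = j * (g⁻¹ * h * g) x) ∨
        (∀ x, (g⁻¹ * h * g) (j * x) = -(j * (g⁻¹ * h * g) x))) →
      (∀ x, h x = x) ∨ (∀ x, h x = -x)}

theorem many_good (hq : Odd (Fintype.card F)) (hm : finrank F K = 2 * m) (hmo : Odd m)
    (hm2 : 2 ≤ m) {lam : K}
    (hl : bar F K m lam = -lam) (hl0 : lam ≠ 0) {j : K}
    {ν : F} (hν : ¬ IsSquare ν) (hj2 : j ^ 2 = algebraMap F K ν) (hjb : bar F K m j = -j) :
    (Gam F K m).ncard * ((UU (bil F K m lam) (LinearMap.mulLeft F j)).ncard *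
      (UU (bil F K m lam) (LinearMap.mulLeft F j)).ncard) ≤ (GoodU F m lam j).ncard * (4 * m) := by
  classical
  have hm0 : 0 < m := by omega
  have h2K : (2 : K) ≠ 0 := two_ne hq
  have hν0 : ν ≠ 0 := by rintro rfl; exact hν IsSquare.zero
  have hνK : algebraMap F K ν ≠ 0 := by simpa using hν0
  have hj0 : j ≠ 0 := by
    rintro rfl
    rw [zero_pow (by norm_num)] at hj2
    exact hνK hj2.symm
  set c := bar F K m with hc
  have hcc : ∀ x, c (c x) = x := bar_bar hm
  have hcν : c (algebraMap F K ν) = algebraMap F K ν := c.commutes ν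
  have hc2 : c (2 : K) = 2 := map_ofNat _ 2
  set U := UU (bil F K m lam) (LinearMap.mulLeft F j) with hU
  -- squares are not scalars
  have hns : ∀ t ∈ Gam F K m, ∀ r : F, t ^ 2 ≠ algebraMap F K r := by
    intro t ht r hr
    have h1 := gen_of_Gam hq hm hmo ht ⊥ (by rw [hr]; exact IntermediateField.algebraMap_mem _ r)
    have h2 : DD F K m ≤ ⊥ := fun x hx => h1 x hx
    have h3 := IntermediateField.finrank_le_of_le_right h2
    rw [finrank_DD hm hm0, IntermediateField.finrank_bot] at h3
    omega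
  -- parameters
  have hpar : ∀ t ∈ Gam F K m, ∃ (s e : K) (z : K ≃ₗ[F] K), c s = s ∧ c e = e ∧ e ≠ 0 ∧ s ≠ 0 ∧
      t ^ 2 * (1 - s) = algebraMap F K ν * (1 + s) ∧
      (∀ x y, bil F K m lam (z x) (z y) = bil F K m lam x y) ∧
      (∀ x, z (j * x) = s * j * z x + e * 1 * c (z x)) := by
    intro t ht
    have ht1 : c t = t := ht.1
    have hden : t ^ 2 + algebraMap F K ν ≠ 0 := by
      intro h
      apply hns t ht (-ν)
      rw [map_neg]; exact eq_neg_of_add_eq_zero_left h
    have hnum : t ^ 2 - algebraMap F K ν ≠ 0 := by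
      intro h
      exact hns t ht ν (sub_eq_zero.mp h)
    have ht0 : t ≠ 0 := by
      intro h
      apply hns t ht 0
      rw [h, map_zero]; ring
    have hs : c ((t ^ 2 - algebraMap F K ν) / (t ^ 2 + algebraMap F K ν))
        = (t ^ 2 - algebraMap F K ν) / (t ^ 2 + algebraMap F K ν) := by
      rw [map_div₀, map_sub, map_add, map_pow, hcν, ht1]
    have he : c (2 * algebraMap F K ν * t / (t ^ 2 + algebraMap F K ν))
        = 2 * algebraMap F K ν * t / (t ^ 2 + algebraMap F K ν) := by
      rw [map_div₀, map_mul c, map_mul c, map_add, map_pow, hcν, ht1, hc2]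
    have hs1 : 1 + (t ^ 2 - algebraMap F K ν) / (t ^ 2 + algebraMap F K ν) ≠ 0 := by
      have : 1 + (t ^ 2 - algebraMap F K ν) / (t ^ 2 + algebraMap F K ν)
          = 2 * t ^ 2 / (t ^ 2 + algebraMap F K ν) := by field_simp; ring
      rw [this]
      exact div_ne_zero (mul_ne_zero h2K (pow_ne_zero 2 ht0)) hden
    obtain ⟨z, hz1, hz2, hz3⟩ := exists_zz hq hm hm0 hν0 hj2 hjb hs he hs1 (ζ := 1)
      (by rw [map_one, mul_one]) (by field_simp; ring)
    refine ⟨_, _, z, hs, he, ?_, ?_, ?_, hz1 lam hl, hz3⟩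
    · exact div_ne_zero (mul_ne_zero (mul_ne_zero h2K hνK) ht0) hden
    · exact div_ne_zero hnum hden
    · field_simp; ring
  choose! s e z hs he he0 hs0 hts hz hzj using hpar
  have hcalc : ∀ t x, j * (s t * j * x + e t * 1 * c x)
      + (s t * j * (j * x) + e t * 1 * c (j * x)) = algebraMap F K ν * (2 * (s t * x)) := by
    intro t x
    rw [map_mul c, hjb, ← hj2]; ring
  have happ : ∀ (a b : K ≃ₗ[F] K) x, (a * b) x = a (b x) := fun _ _ _ => rfl
  have hinv1 : ∀ (a : K ≃ₗ[F] K) x, a (a⁻¹ x) = x := by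
    intro a x; rw [← happ, mul_inv_cancel]; rfl
  have hinv2 : ∀ (a : K ≃ₗ[F] K) x, a⁻¹ (a x) = x := by
    intro a x; rw [← happ, inv_mul_cancel]; rfl
  have hUj : ∀ u ∈ U, ∀ x, u (j * x) = j * u x := fun u hu x => hu.2 x
  have hUj' : ∀ u ∈ U, ∀ x, u⁻¹ (j * x) = j * u⁻¹ x := by
    intro u hu x
    apply u.injective
    rw [hinv1, hUj u hu, hinv1]
  have hUi : ∀ u ∈ U, ∀ x y, bil F K m lam (u x) (u y) = bil F K m lam x y := fun u hu => hu.1
  have hUi' : ∀ u ∈ U, ∀ x y, bil F K m lam (u⁻¹ x) (u⁻¹ y) = bil F K m lam x y := by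
    intro u hu x y
    rw [← hUi u hu, hinv1, hinv1]
  -- core
  have hcore : ∀ t ∈ Gam F K m, ∀ h : K ≃ₗ[F] K,
      (∀ x y, bil F K m lam (h x) (h y) = bil F K m lam x y) →
      ((∀ x, h (j * x) = j * h x) ∨ (∀ x, h (j * x) = -(j * h x))) →
      ((∀ x, ((z t)⁻¹ * h * z t) (j * x) = j * ((z t)⁻¹ * h * z t) x) ∨
        (∀ x, ((z t)⁻¹ * h * z t) (j * x) = -(j * ((z t)⁻¹ * h * z t) x))) →
      (∀ x, h x = x) ∨ (∀ x, h x = -x) := by
    intro t ht h hh h1 h2
    refine coreK2 hq hm hmo hm2 hl hl0 hν0 hj2 hjb (fun P hP => gen_of_Gam hq hm hmo ht P hP)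
      (hs0 t ht) (hs t ht) (he t ht) (he0 t ht) (ζ := 1) (by rw [map_one, mul_one]) (hts t ht) h hh
      h1 ?_
    rcases h2 with h2 | h2
    · left
      intro x
      obtain ⟨y, rfl⟩ := (z t).surjective x
      have h3 := congrArg (z t) (h2 y)
      rw [happ, happ, happ, happ, hinv1, hzj t ht, hzj t ht, hinv1] at h3
      exact h3
    · right
      intro x
      obtain ⟨y, rfl⟩ := (z t).surjective x
      have h3 := congrArg (z t) (h2 y)
      rw [map_neg, happ, happ, happ, happ, hinv1, hzj t ht, hzj t ht, hinv1] at h3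
      exact h3
  have hcard : ((Gam F K m) ×ˢ (U ×ˢ U)).ncard = (Gam F K m).ncard * (U.ncard * U.ncard) := by
    rw [Set.ncard_prod, Set.ncard_prod]
  rw [← hcard]
  have hG : Finite (K ≃ₗ[F] K) := inferInstance
  refine ncard_le_of_fibers _ (fun a => a.2.1 * z a.1 * a.2.2) (GoodU F m lam j) (Set.toFinite _)
    ?_ (4 * m) ?_
  · rintro ⟨t, u, u'⟩ ⟨ht, hu, hu'⟩
    simp only at ht hu hu'
    refine ⟨?_, ?_⟩
    · intro x y
      change bil F K m lam (u (z t (u' x))) (u (z t (u' y))) = _
      rw [hUi u hu, hz t ht, hUi u' hu']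
    · intro h hh h1 h2
      have h3 := hcore t ht (u⁻¹ * h * u) (by
        intro x y
        change bil F K m lam (u⁻¹ (h (u x))) (u⁻¹ (h (u y))) = _
        rw [hUi' u hu, hh, hUi u hu]) (by
        rcases h1 with h1 | h1
        · left; intro x
          change u⁻¹ (h (u (j * x))) = j * u⁻¹ (h (u x))
          rw [hUj u hu, h1, hUj' u hu]
        · right; intro x
          change u⁻¹ (h (u (j * x))) = -(j * u⁻¹ (h (u x)))
          rw [hUj u hu, h1, map_neg, hUj' u hu]) (by
        obtain ⟨k, hk⟩ : ∃ k, k = (u * z t * u')⁻¹ * h * (u * z t * u') := ⟨_, rfl⟩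
        have h2' : (∀ x, k (j * x) = j * k x) ∨ (∀ x, k (j * x) = -(j * k x)) := by
          rw [hk]; exact h2
        have e1 : (z t)⁻¹ * (u⁻¹ * h * u) * z t = u' * k * u'⁻¹ := by
          rw [hk]; group
        rw [e1]
        rcases h2' with h2 | h2
        · left; intro x
          change u' (k (u'⁻¹ (j * x))) = j * u' (k (u'⁻¹ x))
          rw [hUj' u' hu', h2, hUj u' hu']
        · right; intro x
          change u' (k (u'⁻¹ (j * x))) = -(j * u' (k (u'⁻¹ x)))
          rw [hUj' u' hu', h2, map_neg, hUj u' hu'])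
      rcases h3 with h3 | h3
      · left; intro x
        have h4 := congrArg u (h3 (u⁻¹ x))
        rw [happ, happ, hinv1, hinv1] at h4
        exact h4
      · right; intro x
        have h4 := congrArg u (h3 (u⁻¹ x))
        rw [happ, happ, hinv1, hinv1, map_neg, hinv1] at h4
        exact h4
  · intro g _
    by_cases hne : {a | a ∈ (Gam F K m) ×ˢ (U ×ˢ U) ∧ a.2.1 * z a.1 * a.2.2 = g}.Nonempty
    swap
    · rw [Set.not_nonempty_iff_eq_empty] at hne
      rw [hne, Set.ncard_empty]
      exact Nat.zero_le _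
    obtain ⟨⟨t0, u0, u0'⟩, ⟨ht0, hu0, hu0'⟩, hg0⟩ := hne
    simp only at ht0 hu0 hu0' hg0
    -- the polynomial
    set P := minpoly F (t0 ^ 2) with hP
    have hPm : P.natDegree ≤ m := by
      have hint : IsIntegral F (t0 ^ 2) := Algebra.IsIntegral.isIntegral _
      rw [hP, ← IntermediateField.adjoin.finrank hint, ← finrank_DD hm hm0]
      apply IntermediateField.finrank_le_of_le_right
      rw [IntermediateField.adjoin_le_iff]
      intro x hx
      rw [Set.mem_singleton_iff] at hx
      rw [hx]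
      exact pow_mem (show t0 ∈ DD F K m from ht0.1) 2
    have hP0 : P ≠ 0 := minpoly.ne_zero (Algebra.IsIntegral.isIntegral _)
    set Q : Polynomial K := (P.map (algebraMap F K)).comp (Polynomial.X ^ 2) with hQ
    have hQdeg : Q.natDegree = P.natDegree * 2 := by
      rw [hQ, Polynomial.natDegree_comp, Polynomial.natDegree_X_pow,
        Polynomial.natDegree_map]
    have hPpos : 0 < P.natDegree := minpoly.natDegree_pos (Algebra.IsIntegral.isIntegral _)
    have hQ0 : Q ≠ 0 := by
      intro h0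
      rw [h0, Polynomial.natDegree_zero] at hQdeg
      omega
    have hT : (Q.roots.toFinset : Set K).ncard ≤ 2 * m := by
      rw [Set.ncard_coe_finset]
      refine (Multiset.toFinset_card_le _).trans ((Polynomial.card_roots' Q).trans ?_)
      rw [hQdeg]; omega
    -- intertwiners
    have hint : ∀ t ∈ Gam F K m, ∀ u ∈ U, ∀ u' ∈ U, u * z t * u' = g →
        ∀ t1 ∈ Gam F K m, ∀ u1 ∈ U, ∀ u1' ∈ U, u1 * z t1 * u1' = g →
        ∀ x, (u1⁻¹ * u) (s t * j * x + e t * 1 * c x)
          = s t1 * j * (u1⁻¹ * u) x + e t1 * 1 * c ((u1⁻¹ * u) x) := by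
      intro t ht u hu u' hu' hgt t1 ht1 u1 hu1 u1' hu1' hgt1 x
      obtain ⟨y, rfl⟩ := (z t).surjective x
      rw [← hzj t ht]
      have e1 : ∀ w, (u1⁻¹ * u) (z t w) = z t1 (u1' (u'⁻¹ w)) := by
        intro w
        have e2 : u1⁻¹ * u * z t = z t1 * u1' * u'⁻¹ := by
          have : u * z t * u' = u1 * z t1 * u1' := by rw [hgt, hgt1]
          calc u1⁻¹ * u * z t = u1⁻¹ * (u * z t * u') * u'⁻¹ := by group
            _ = u1⁻¹ * (u1 * z t1 * u1') * u'⁻¹ := by rw [this]
            _ = _ := by group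
        have e3 := congrArg (fun f : K ≃ₗ[F] K => f w) e2
        exact e3
      rw [e1, e1, hUj' u' hu', hUj u1' hu1', hzj t1 ht1]
    have hfib := ncard_le_of_fibers
      {a | a ∈ (Gam F K m) ×ˢ (U ×ˢ U) ∧ a.2.1 * z a.1 * a.2.2 = g}
      (fun a => a.1) (Q.roots.toFinset : Set K) (Set.toFinite _) ?_ 2 ?_
    · refine hfib.trans ((Nat.mul_le_mul_right _ hT).trans (le_of_eq (by ring)))
    · rintro ⟨t, u, u'⟩ ⟨⟨ht, hu, hu'⟩, hgt⟩
      simp only at ht hu hu' hgt ⊢
      have h1 := hint t ht u hu u' hu' hgt t0 ht0 u0 hu0 u0' hu0' hg0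
      set h := u0⁻¹ * u with hh
      have hhj : ∀ x, h (j * x) = j * h x := by
        intro x; rw [hh, happ, happ, hUj u hu, hUj' u0 hu0]
      have hlin : ∀ x, h (algebraMap F K ν * (2 * x)) = algebraMap F K ν * (2 * h x) := by
        intro x
        rw [← Algebra.smul_def, ← Algebra.smul_def, map_smul, two_mul, map_add, two_mul]
      have hsx : ∀ x, h (s t * x) = s t0 * h x := by
        intro x
        have e1 : h (algebraMap F K ν * (2 * (s t * x)))
            = algebraMap F K ν * (2 * (s t0 * h x)) := by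
          rw [← hcalc, ← hcalc, map_add, hhj, h1, h1, hhj]
        rw [hlin] at e1
        exact mul_left_cancel₀ h2K (mul_left_cancel₀ hνK e1)
      have hs1 : 1 - s t0 ≠ 0 := by
        intro h3
        have h5 := hts t0 ht0
        rw [h3, mul_zero] at h5
        rcases mul_eq_zero.mp h5.symm with h4 | h4
        · exact hνK h4
        · have : (2 : K) = 0 := by linear_combination h3 + h4
          exact h2K this
      have ht2 : ∀ x, h (t ^ 2 * x) = t0 ^ 2 * h x := by
        intro x
        apply mul_left_cancel₀ hs1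
        have e1 : (1 - s t0) * h (t ^ 2 * x) = h (t ^ 2 * (1 - s t) * x) := by
          have : t ^ 2 * (1 - s t) * x = t ^ 2 * x - s t * (t ^ 2 * x) := by ring
          rw [this, map_sub, hsx]; ring
        have e2 : h (algebraMap F K ν * (1 + s t) * x)
            = algebraMap F K ν * (1 + s t0) * h x := by
          have : algebraMap F K ν * (1 + s t) * x = ν • (x + s t * x) := by
            rw [Algebra.smul_def]; ring
          rw [this, map_smul, map_add, hsx, Algebra.smul_def]; ring
        rw [e1, hts t ht, e2, ← hts t0 ht0]; ring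
      have hpoly : ∀ (p : Polynomial F) x, h (Polynomial.aeval (t ^ 2) p * x)
          = Polynomial.aeval (t0 ^ 2) p * h x := by
        intro p
        induction p using Polynomial.induction_on with
        | C a =>
          intro x
          rw [Polynomial.aeval_C, Polynomial.aeval_C, ← Algebra.smul_def, ← Algebra.smul_def,
            map_smul]
        | add p q hp hq =>
          intro x
          rw [map_add, map_add, add_mul, add_mul, map_add, hp, hq]
        | monomial n a ih =>
          intro x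
          rw [pow_succ (Polynomial.X : Polynomial F) n, ← mul_assoc,
            map_mul (Polynomial.aeval (t ^ 2)), map_mul (Polynomial.aeval (t0 ^ 2)),
            Polynomial.aeval_X, Polynomial.aeval_X, mul_assoc, ih, ht2]
          ring
      have h4 := hpoly P 1
      rw [hP, minpoly.aeval, zero_mul] at h4
      have h5 : Polynomial.aeval (t ^ 2) P = 0 := by
        have := h.injective (h4.trans (map_zero h).symm)
        rwa [mul_one] at this
      rw [Finset.mem_coe, Multiset.mem_toFinset, Polynomial.mem_roots hQ0, Polynomial.IsRoot, hQ,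
        Polynomial.eval_comp, Polynomial.eval_pow, Polynomial.eval_X, Polynomial.eval_map]
      exact h5
    · intro t1 _
      by_cases hne1 : {a | a ∈ {a | a ∈ (Gam F K m) ×ˢ (U ×ˢ U) ∧ a.2.1 * z a.1 * a.2.2 = g} ∧
          a.1 = t1}.Nonempty
      swap
      · rw [Set.not_nonempty_iff_eq_empty] at hne1
        rw [hne1, Set.ncard_empty]
        exact Nat.zero_le _
      obtain ⟨⟨t1', u1, u1'⟩, ⟨⟨ht1, hu1, hu1'⟩, hg1⟩, rfl⟩ := hne1
      simp only at ht1 hu1 hu1' hg1 ⊢
      have hpm : ∀ u ∈ U, ∀ u' ∈ U, u * z t1' * u' = g →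
          (∀ x, u x = u1 x) ∨ (∀ x, u x = - u1 x) := by
        intro u hu u' hu' hgt
        have h1 := hint t1' ht1 u hu u' hu' hgt t1' ht1 u1 hu1 u1' hu1' hg1
        have h3 := coreK2 hq hm hmo hm2 hl hl0 hν0 hj2 hjb
          (fun P hP => gen_of_Gam hq hm hmo ht1 P hP)
          (hs0 t1' ht1) (hs t1' ht1) (he t1' ht1) (he0 t1' ht1) (ζ := 1)
          (by rw [map_one, mul_one]) (hts t1' ht1) (u1⁻¹ * u) (by
            intro x y
            change bil F K m lam (u1⁻¹ (u x)) (u1⁻¹ (u y)) = _
            rw [hUi' u1 hu1, hUi u hu]) (by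
            left; intro x; rw [happ, happ, hUj u hu, hUj' u1 hu1]) (Or.inl h1)
        rcases h3 with h3 | h3
        · left; intro x
          have := congrArg u1 (h3 x)
          rwa [happ, hinv1] at this
        · right; intro x
          have := congrArg u1 (h3 x)
          rwa [happ, hinv1, map_neg] at this
      have h2 : ({u1 1, - u1 1} : Set K).ncard ≤ 2 :=
        (Set.ncard_insert_le _ _).trans (by rw [Set.ncard_singleton])
      refine le_trans (Set.ncard_le_ncard_of_injOn (fun a => a.2.1 1) ?_ ?_ (Set.toFinite _)) h2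
      · rintro ⟨t, u, u'⟩ ⟨⟨⟨ht, hu, hu'⟩, hgt⟩, htt⟩
        simp only at ht hu hu' hgt htt
        subst htt
        rcases hpm u hu u' hu' hgt with h3 | h3
        · left; exact h3 1
        · right; exact h3 1
      · rintro ⟨t, u, u'⟩ ⟨⟨⟨ht, hu, hu'⟩, hgt⟩, htt⟩ ⟨t2, u2, u2'⟩ ⟨⟨⟨ht2, hu2, hu2'⟩, hgt2⟩, htt2⟩
          huu
        simp only at ht hu hu' hgt htt ht2 hu2 hu2' hgt2 htt2 huu
        subst htt
        subst htt2
        have hu10 : u1 1 ≠ 0 := by
          intro h0
          exact one_ne_zero (u1.injective (h0.trans (map_zero u1).symm))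
        have hne2 : u1 1 ≠ - u1 1 := by
          intro h0
          have : 2 * u1 1 = 0 := by linear_combination h0
          exact hu10 ((mul_eq_zero.mp this).resolve_left h2K)
        have huu2 : u = u2 := by
          ext x
          rcases hpm u hu u' hu' hgt with h3 | h3 <;> rcases hpm u2 hu2 u2' hu2' hgt2 with h4 | h4
          · rw [h3, h4]
          · exfalso
            rw [h3, h4] at huu
            exact hne2 huu
          · exfalso
            rw [h3, h4] at huu
            exact hne2 huu.symm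
          · rw [h3, h4]
        subst huu2
        have : u' = u2' := by
          have e1 : u * z t2 * u' = u * z t2 * u2' := by rw [hgt, hgt2]
          exact mul_left_cancel e1
        rw [this]

end Pool.Agent.H330.Count
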