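import Pool.Agent.H330.CountFinal

set_option linter.unusedSectionVars false
set_option linter.unusedVariables false

/-!
# The main theorem for all odd `m ≥ 5`
-/

namespace Pool.Agent.H330.Count

open Module Finset Pool.Agent.H330 Pool.Agent.H330.Minus Pool.Agent.H330.Symp

section Arith

theorem poly_lt (m : ℕ) (hm : 15 ≤ m) :
    9216 * m ^ 4 + 35712 * m ^ 3 + 40320 * m ^ 2 < 343 * 3 ^ m := by
  induction m, hm using Nat.le_induction with
  | base => norm_num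
  | succ m hm ih =>
    have h : 15 * (m + 1) ≤ 16 * m := by omega
    have h4 := Nat.pow_le_pow_left h 4
    have h3 := Nat.pow_le_pow_left h 3
    have h2 := Nat.pow_le_pow_left h 2
    rw [mul_pow, mul_pow] at h4 h3 h2
    norm_num at h4 h3 h2
    rw [pow_succ 3 m]
    omega

theorem arithA {Γ u X ℓ B B1 m : ℕ} (hX : 0 < X) (h78 : 7 * X ≤ 8 * u)
    (h : 4 * m * (112 * (ℓ * B) + 64 * (ℓ * ℓ * B1)) < 49 * Γ) :
    (ℓ * (2 * ((B * X) * u)) + (ℓ * ℓ) * (B1 * (X * X))) * (4 * m) < Γ * (u * u) := by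
  have hu : 0 < u := by omega
  have e1 : 49 * (2 * (X * u)) ≤ 112 * (u * u) := by
    have : (7 * X) * u ≤ (8 * u) * u := Nat.mul_le_mul_right _ h78
    have e : 7 * X * u = 7 * (X * u) := by ring
    have e' : 8 * u * u = 8 * (u * u) := by ring
    omega
  have e2 : 49 * (X * X) ≤ 64 * (u * u) := by
    have : (7 * X) * (7 * X) ≤ (8 * u) * (8 * u) := Nat.mul_le_mul h78 h78
    have e : 7 * X * (7 * X) = 49 * (X * X) := by ring
    have e' : 8 * u * (8 * u) = 64 * (u * u) := by ring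
    omega
  have huu : 0 < u * u := Nat.mul_pos hu hu
  have h1 : 49 * ((ℓ * (2 * ((B * X) * u)) + (ℓ * ℓ) * (B1 * (X * X))) * (4 * m))
      ≤ 4 * m * (112 * (ℓ * B) + 64 * (ℓ * ℓ * B1)) * (u * u) := by
    calc _ = 4 * m * (ℓ * B * (49 * (2 * (X * u))) + ℓ * ℓ * B1 * (49 * (X * X))) := by ring
      _ ≤ 4 * m * (ℓ * B * (112 * (u * u)) + ℓ * ℓ * B1 * (64 * (u * u))) :=
        Nat.mul_le_mul_left _ (Nat.add_le_add (Nat.mul_le_mul_left _ e1)
          (Nat.mul_le_mul_left _ e2))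
      _ = _ := by ring
  have h2 : 4 * m * (112 * (ℓ * B) + 64 * (ℓ * ℓ * B1)) * (u * u) < 49 * Γ * (u * u) :=
    Nat.mul_lt_mul_of_pos_right h huu
  have h3 : 49 * Γ * (u * u) = 49 * (Γ * (u * u)) := by ring
  omega

theorem num_big {q m Γ ℓ : ℕ} (hq : 3 ≤ q) (hm : 15 ≤ m) (hℓ : ℓ ≤ m)
    (hΓ : q ^ m ≤ Γ + 2 * q ^ (m / 3)) :
    4 * m * (112 * (ℓ * (6 * m + 10)) + 64 * (ℓ * ℓ * (4 * m + 5))) < 49 * Γ := by
  have h1 : 9 * q ^ (m / 3) ≤ q ^ m := by
    calc 9 * q ^ (m / 3) ≤ q ^ 2 * q ^ (m / 3) := Nat.mul_le_mul_right _ (by nlinarith)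
      _ = q ^ (2 + m / 3) := (pow_add q 2 (m / 3)).symm
      _ ≤ q ^ m := Nat.pow_le_pow_right (by omega) (by omega)
  have h2 : 3 ^ m ≤ q ^ m := Nat.pow_le_pow_left hq m
  have h3 := poly_lt m hm
  have h4 : 4 * m * (112 * (ℓ * (6 * m + 10)) + 64 * (ℓ * ℓ * (4 * m + 5)))
      ≤ 4 * m * (112 * (m * (6 * m + 10)) + 64 * (m * m * (4 * m + 5))) := by
    apply Nat.mul_le_mul_left
    apply Nat.add_le_add
    · exact Nat.mul_le_mul_left _ (Nat.mul_le_mul_right _ hℓ)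
    · exact Nat.mul_le_mul_left _ (Nat.mul_le_mul_right _ (Nat.mul_le_mul hℓ hℓ))
  have h5 : 9 * (4 * m * (112 * (m * (6 * m + 10)) + 64 * (m * m * (4 * m + 5))))
      = 9216 * m ^ 4 + 35712 * m ^ 3 + 40320 * m ^ 2 := by ring
  omega

theorem num_nine {q Γ ℓ : ℕ} (hq : 3 ≤ q) (hℓ : ℓ ≤ 1)
    (hΓ : q ^ 9 ≤ Γ + 2 * q ^ (9 / 3)) :
    4 * 9 * (112 * (ℓ * (6 * 9 + 10)) + 64 * (ℓ * ℓ * (4 * 9 + 5))) < 49 * Γ := by
  have h1 : q ^ 9 = q ^ 6 * q ^ 3 := by ring
  have h2 : 3 ^ 6 ≤ q ^ 6 := Nat.pow_le_pow_left hq 6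
  have h3 : 3 ^ 3 ≤ q ^ 3 := Nat.pow_le_pow_left hq 3
  have h4 : 3 ^ 6 * q ^ 3 ≤ q ^ 6 * q ^ 3 := Nat.mul_le_mul_right _ h2
  norm_num at hΓ h3 h4
  have h5 : ℓ * ℓ ≤ 1 := by
    calc ℓ * ℓ ≤ 1 * 1 := Nat.mul_le_mul hℓ hℓ
      _ = 1 := rfl
  omega

theorem num_five {q Γ u X β β1 : ℕ} (hq : 5 ≤ q) (hX : X = q ^ 25)
    (hβ : β = 12 * q ^ 22 + 8 * q ^ 25 + 2 * q ^ 27)
    (hβ1 : β1 = 5 * q ^ 50 + 4 * q ^ 42 + 20 * q ^ 39)
    (h23 : 23 * X ≤ 24 * u) (hΓ : q ^ 5 ≤ Γ + 2 * q ^ (5 / 3)) {ℓ : ℕ} (hℓ : ℓ ≤ 1) :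
    (ℓ * (2 * (β * u)) + (ℓ * ℓ) * β1) * (4 * 5) < Γ * (u * u) := by
  have hX0 : 0 < X := by rw [hX]; exact Nat.pow_pos (by omega)
  have hu : 0 < u := by omega
  have huu : 0 < u * u := Nat.mul_pos hu hu
  have hℓℓ : ℓ * ℓ ≤ 1 := by
    calc ℓ * ℓ ≤ 1 * 1 := Nat.mul_le_mul hℓ hℓ
      _ = 1 := rfl
  have h0 : (ℓ * (2 * (β * u)) + (ℓ * ℓ) * β1) * (4 * 5) ≤ (2 * (β * u) + β1) * 20 := by
    apply Nat.mul_le_mul_right
    apply Nat.add_le_add
    · calc ℓ * (2 * (β * u)) ≤ 1 * (2 * (β * u)) := Nat.mul_le_mul_right _ hℓ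
        _ = _ := one_mul _
    · calc (ℓ * ℓ) * β1 ≤ 1 * β1 := Nat.mul_le_mul_right _ hℓℓ
        _ = _ := one_mul _
  -- bound β
  have hq3 : 5 ^ 3 ≤ q ^ 3 := Nat.pow_le_pow_left hq 3
  have b1 : β ≤ (2 * q ^ 2 + 9) * X := by
    have e1 : 12 * q ^ 22 ≤ q ^ 25 := by
      calc 12 * q ^ 22 ≤ q ^ 3 * q ^ 22 := Nat.mul_le_mul_right _ (by omega)
        _ = q ^ 25 := by ring
    have e2 : (2 * q ^ 2 + 9) * X = 2 * q ^ 27 + 9 * q ^ 25 := by rw [hX]; ring
    omega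
  have b2 : β1 ≤ 6 * (X * X) := by
    have e1 : 4 * q ^ 42 + 20 * q ^ 39 ≤ q ^ 50 := by
      have f1 : 5 ^ 8 ≤ q ^ 8 := Nat.pow_le_pow_left hq 8
      have f2 : 20 * q ^ 39 ≤ q ^ 42 := by
        calc 20 * q ^ 39 ≤ q ^ 3 * q ^ 39 := Nat.mul_le_mul_right _ (by omega)
          _ = q ^ 42 := by ring
      have f3 : 5 * q ^ 42 ≤ q ^ 50 := by
        calc 5 * q ^ 42 ≤ q ^ 8 * q ^ 42 := Nat.mul_le_mul_right _ (by norm_num at f1; omega)
          _ = q ^ 50 := by ring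
      omega
    have e2 : 6 * (X * X) = 6 * q ^ 50 := by rw [hX]; ring
    omega
  have c1 : 529 * (2 * (β * u) + β1) ≤ (2208 * q ^ 2 + 13392) * (u * u) := by
    have d1 : 23 * X * u ≤ 24 * u * u := Nat.mul_le_mul_right _ h23
    have d2 : 23 * X * (23 * X) ≤ 24 * u * (24 * u) := Nat.mul_le_mul h23 h23
    calc 529 * (2 * (β * u) + β1)
        ≤ 529 * (2 * (((2 * q ^ 2 + 9) * X) * u) + 6 * (X * X)) :=
          Nat.mul_le_mul_left _ (Nat.add_le_add (Nat.mul_le_mul_left _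
            (Nat.mul_le_mul_right _ b1)) b2)
      _ = 46 * (2 * q ^ 2 + 9) * (23 * X * u) + 6 * (23 * X * (23 * X)) := by ring
      _ ≤ 46 * (2 * q ^ 2 + 9) * (24 * u * u) + 6 * (24 * u * (24 * u)) :=
          Nat.add_le_add (Nat.mul_le_mul_left _ d1) (Nat.mul_le_mul_left _ d2)
      _ = (2208 * q ^ 2 + 13392) * (u * u) := by ring
  have c2 : 20 * (2208 * q ^ 2 + 13392) < 529 * Γ := by
    have e5 : 5 / 3 = 1 := rfl
    rw [e5, pow_one] at hΓ
    have e1 : q ^ 5 = q ^ 3 * q ^ 2 := by ring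
    have e2 : 5 ^ 3 * q ^ 2 ≤ q ^ 3 * q ^ 2 := Nat.mul_le_mul_right _ hq3
    have e3 : 5 * q ≤ q ^ 2 := by rw [sq]; exact Nat.mul_le_mul_right _ hq
    norm_num at e2
    omega
  have c3 : 529 * ((2 * (β * u) + β1) * 20) < 529 * (Γ * (u * u)) := by
    calc 529 * ((2 * (β * u) + β1) * 20) = 20 * (529 * (2 * (β * u) + β1)) := by ring
      _ ≤ 20 * ((2208 * q ^ 2 + 13392) * (u * u)) := Nat.mul_le_mul_left _ c1
      _ = (20 * (2208 * q ^ 2 + 13392)) * (u * u) := by ring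
      _ < (529 * Γ) * (u * u) := Nat.mul_lt_mul_of_pos_right c2 huu
      _ = _ := by ring
  omega

end Arith

variable {F K : Type} [Field F] [Fintype F] [Field K] [Fintype K] [Algebra F K] {m : ℕ}

theorem mainC (hq : Odd (Fintype.card F)) (hm : finrank F K = 2 * m) (hmo : Odd m)
    (hm5 : 5 ≤ m) (hex : ¬ (m = 5 ∧ Fintype.card F = 3)) {lam : K} (hl : bar F K m lam = -lam)
    (hl0 : lam ≠ 0) :
    ∃ g ∈ Sp F K m lam, ∀ L₁ L₂ : IntermediateField F K,
      (finrank F L₁).Prime → (finrank F L₂).Prime →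
      ∀ h ∈ Sp F K m lam, NL L₁ h → NL L₂ (g⁻¹ * h * g) → ∃ c : F, ∀ x, h x = c • x := by
  classical
  have hm0 : 0 < m := by omega
  have h2F : (2 : F) ≠ 0 := two_ne_zero' hq
  have hq1 : 1 < Fintype.card F := Fintype.one_lt_card
  have hq3 : 3 ≤ Fintype.card F := by
    obtain ⟨a, ha⟩ := hq
    omega
  have hodd : Fintype.card F % 2 = 1 := Nat.odd_iff.mp hq
  obtain ⟨ν, hν⟩ := exists_nonsq hq
  obtain ⟨j, hj2, hjb, hjq⟩ := exists_j (K := K) hq hm hmo hν
  obtain ⟨E, hE⟩ := exists_quad (K := K) hq hm hmo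
  have hU := unit_lower (F := F) (K := K) hq hm hm0 hl hl0 hν hj2 hjb hjq E hE
  have hG := card_Gam (F := F) (K := K) hm hm0 hq3
  have hω := nonDeg_bil (F := F) (K := K) hm hl0
  have hsw : ∀ x y, bil F K m lam y x = - bil F K m lam x y := bil_swap hm hl
  have hR : ∀ L ∈ OddL F K, ∀ (r : L) (x y : K),
      bil F K m lam (r • x) y = bil F K m lam x (r • y) := fun L hL r x y =>
    bil_D lam x y (bar_of_mem (dvd_of_odd hm hL) r.2)
  have hcard := card_OddL (F := F) (K := K) hm hm0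
  set q := Fintype.card F with hqdef
  set u := (UU (bil F K m lam) (LinearMap.mulLeft F j)).ncard with hu
  by_cases hmp : m.Prime
  · rcases Nat.lt_or_ge m 7 with h7 | h7
    · -- m = 5
      have hm5' : m = 5 := by
        rcases hmo with ⟨a, ha⟩
        omega
      subst hm5'
      have hq5 : 5 ≤ q := by
        rcases hq with ⟨a, ha⟩
        have : q ≠ 3 := fun h => hex ⟨rfl, h⟩
        omega
      have hfr : ∀ L ∈ OddL F K, finrank F L = 5 := by
        intro L hL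
        exact (Nat.prime_dvd_prime_iff_eq hL.1 hmp).mp (dvd_of_odd hm hL)
      refine exists_good hq hm hmo (by norm_num) hl hl0 hν hj2 hjb hjq
        (B := 12 * q ^ 22 + 8 * q ^ 25 + 2 * q ^ 27)
        (B1 := 5 * q ^ 50 + 4 * q ^ 42 + 20 * q ^ 39) ?_ ?_ ?_
      · intro L hL
        have : Fintype L := Fintype.ofFinite L
        obtain ⟨τ, hτ⟩ := exists_tau L hL.1
        exact BJ_count5 hω hsw hν h2F hodd (hR L hL) hm hτ (hfr L hL) hq3
      · intro L hL L' hL'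
        have : Fintype L := Fintype.ofFinite L
        have : Fintype L' := Fintype.ofFinite L'
        obtain ⟨τ, hτ⟩ := exists_tau L hL.1
        obtain ⟨τ', hτ'⟩ := exists_tau L' hL'.1
        exact BG_count5 hω hsw hν h2F (hR L hL) (hR L' hL') hm hτ (hfr L hL) hτ' (hfr L' hL') hq3
      · have hcard' : (OddL F K).ncard ≤ 1 := by
          refine hcard.trans ?_
          rw [Nat.Prime.primeFactors hmp, Finset.card_singleton]
        have h23 : 23 * q ^ 25 ≤ 24 * u := by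
          have hqq : 25 ≤ q ^ 2 := by nlinarith
          have e1 : 23 * (q ^ 2 - 1) ≤ 24 * (q ^ 2 - 2) := by omega
          have hpos : 0 < q ^ 2 - 1 := by omega
          apply Nat.le_of_mul_le_mul_right _ hpos
          calc 23 * q ^ 25 * (q ^ 2 - 1) = q ^ 25 * (23 * (q ^ 2 - 1)) := by ring
            _ ≤ q ^ 25 * (24 * (q ^ 2 - 2)) := Nat.mul_le_mul_left _ e1
            _ = 24 * (q ^ (5 * 5) * (q ^ 2 - 2)) := by norm_num; ring
            _ ≤ 24 * (u * (q ^ 2 - 1)) := Nat.mul_le_mul_left _ hU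
            _ = _ := by ring
        exact num_five hq5 rfl rfl rfl h23 hG hcard'
    · exact main1 hq hm hmp h7 hl hl0
  · -- composite
    have hn : ∀ L ∈ OddL F K, ∃ n, m = finrank F L * n ∧ 3 ≤ n := by
      intro L hL
      obtain ⟨n, hn⟩ := dvd_of_odd hm hL
      refine ⟨n, hn, ?_⟩
      have hno : Odd n := by rw [hn] at hmo; exact (Nat.odd_mul.mp hmo).2
      have hn1 : n ≠ 1 := by
        rintro rfl
        rw [mul_one] at hn
        apply hmp
        rw [hn]; exact hL.1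
      obtain ⟨a, ha⟩ := hno
      omega
    have hm9 : m = 9 ∨ 15 ≤ m := by
      by_contra hcon
      push Not at hcon
      obtain ⟨h1, h2⟩ := hcon
      obtain ⟨a, ha⟩ := hmo
      have : m = 5 ∨ m = 7 ∨ m = 11 ∨ m = 13 := by omega
      rcases this with h | h | h | h <;> rw [h] at hmp <;> exact hmp (by norm_num)
    have hqq : 9 ≤ q ^ 2 := by nlinarith
    have h78 : 7 * q ^ (m * m) ≤ 8 * u := by
      have e1 : 7 * (q ^ 2 - 1) ≤ 8 * (q ^ 2 - 2) := by omega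
      have hpos : 0 < q ^ 2 - 1 := by omega
      apply Nat.le_of_mul_le_mul_right _ hpos
      calc 7 * q ^ (m * m) * (q ^ 2 - 1) = q ^ (m * m) * (7 * (q ^ 2 - 1)) := by ring
        _ ≤ q ^ (m * m) * (8 * (q ^ 2 - 2)) := Nat.mul_le_mul_left _ e1
        _ = 8 * (q ^ (m * m) * (q ^ 2 - 2)) := by ring
        _ ≤ 8 * (u * (q ^ 2 - 1)) := Nat.mul_le_mul_left _ hU
        _ = _ := by ring
    refine exists_good hq hm hmo (by omega) hl hl0 hν hj2 hjb hjq
      (B := (6 * m + 10) * q ^ (m * m))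
      (B1 := (4 * m + 5) * q ^ (2 * (m * m))) ?_ ?_ ?_
    · intro L hL
      have : Fintype L := Fintype.ofFinite L
      obtain ⟨τ, hτ⟩ := exists_tau L hL.1
      obtain ⟨n, hn1, hn2⟩ := hn L hL
      exact BJ_count hω hsw hν h2F hodd (hR L hL) hm hn1 hmo hn2 hτ rfl hL.1 hL.2 hq3
    · intro L hL L' hL'
      have : Fintype L := Fintype.ofFinite L
      have : Fintype L' := Fintype.ofFinite L'
      obtain ⟨τ, hτ⟩ := exists_tau L hL.1
      obtain ⟨τ', hτ'⟩ := exists_tau L' hL'.1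
      obtain ⟨n, hn1, hn2⟩ := hn L hL
      obtain ⟨n', hn1', hn2'⟩ := hn L' hL'
      exact BG_count hω hsw hν h2F (hR L hL) (hR L' hL') hm hmo hτ rfl hL.1 hL.2 hτ' rfl hL'.1
        hL'.2 hn1 hn1' hn2 hn2' hq3
    · have e2 : q ^ (2 * (m * m)) = q ^ (m * m) * q ^ (m * m) := by rw [two_mul, pow_add]
      rw [e2]
      apply arithA (Nat.pow_pos (by omega)) h78
      rcases hm9 with h9 | h15
      · subst h9
        have hcard' : (OddL F K).ncard ≤ 1 := by
          refine hcard.trans ?_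
          have : (9 : ℕ).primeFactors = {3} := by
            have := Nat.primeFactors_prime_pow (k := 2) (by norm_num) Nat.prime_three
            norm_num at this
            exact this
          rw [this, Finset.card_singleton]
        exact num_nine hq3 hcard' hG
      · have hcard' : (OddL F K).ncard ≤ m := by
          refine hcard.trans ?_
          have h1 : m.primeFactors ⊆ Finset.Icc 1 m := by
            intro p hp
            rw [Nat.mem_primeFactors] at hp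
            rw [Finset.mem_Icc]
            exact ⟨hp.1.one_lt.le, Nat.le_of_dvd hm0 hp.2.1⟩
          refine (Finset.card_le_card h1).trans ?_
          rw [Nat.card_Icc]; omega
        exact num_big hq3 h15 hcard' hG

end Pool.Agent.H330.Count
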