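import Pool.Agent.H330.CountMain

set_option linter.unusedSectionVars false
set_option linter.unusedVariables false

/-!
# Subfields of prime degree, and the result for all odd `m ≥ 5`
-/

namespace Pool.Agent.H330.Count

open Module Pool.Agent.H330 Pool.Agent.H330.Minus Pool.Agent.H330.Symp Pool.Agent.H330.Short

variable {F K : Type} [Field F] [Fintype F] [Field K] [Fintype K] [Algebra F K] {m : ℕ}

theorem exists_subfield (t : ℕ) (ht : t ∣ finrank F K) :
    ∃ L : IntermediateField F K, finrank F L = t := by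
  classical
  have hcard : Nat.card (K ≃ₐ[F] K) = finrank F K := IsGalois.card_aut_eq_finrank F K
  have hfin : Finite (K ≃ₐ[F] K) := Nat.finite_of_card_ne_zero (by
    rw [hcard]; exact finrank_pos.ne')
  have hpos : 0 < finrank F K := finrank_pos
  obtain ⟨d, hd⟩ := ht
  have hd0 : 0 < d := by
    rw [Nat.pos_iff_ne_zero]
    rintro rfl
    omega
  set φ := FiniteField.frobeniusAlgEquivOfAlgebraic F K with hφ
  have hord : orderOf φ = finrank F K := by
    rw [← hcard]
    apply orderOf_eq_card_of_forall_mem_zpowers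
    intro x
    obtain ⟨n, hn⟩ := (FiniteField.bijective_frobeniusAlgEquivOfAlgebraic_pow F K).2 x
    exact ⟨n.1, (zpow_natCast φ n.1).trans hn⟩
  have h1 : orderOf (φ ^ t) = d := by
    have ht0 : t ≠ 0 := by rintro rfl; omega
    rw [orderOf_pow_of_dvd ht0 (by rw [hord, hd]; exact Dvd.intro _ rfl), hord, hd]
    exact Nat.mul_div_cancel_left _ (by omega)
  refine ⟨IntermediateField.fixedField (Subgroup.zpowers (φ ^ t)), ?_⟩
  have h2 := IntermediateField.finrank_fixedField_eq_card (Subgroup.zpowers (φ ^ t))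
  rw [Nat.card_zpowers, h1] at h2
  have h3 := Module.finrank_mul_finrank F
    (IntermediateField.fixedField (Subgroup.zpowers (φ ^ t))) K
  rw [h2, hd] at h3
  exact Nat.eq_of_mul_eq_mul_right hd0 h3

theorem subfield_unique (L L' : IntermediateField F K) (h : finrank F L = finrank F L') :
    L = L' := by
  ext x
  constructor
  · intro hx
    apply mem_of_pow
    rw [← h]; exact pow_of_mem L x hx
  · intro hx
    apply mem_of_pow
    rw [h]; exact pow_of_mem L' x hx

theorem resultC (hq : Odd (Fintype.card F)) (hm : finrank F K = 2 * m) (hmo : Odd m)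
    (hm5 : 5 ≤ m) (hex : ¬ (m = 5 ∧ Fintype.card F = 3)) {lam : K} (hl : bar F K m lam = -lam)
    (hl0 : lam ≠ 0) :
    IsSymp F K m lam ∧ TrivialMeet (primeSet F K m lam) ∧
    BaseTwo (primeSet F K m lam) ∧ SingerIn F K m lam (primeSet F K m lam) ∧
    UniformPair (primeSet F K m lam) := by
  obtain ⟨g, hg, hmain⟩ := mainC hq hm hmo hm5 hex hl hl0
  have key : ∀ A ∈ primeSet F K m lam, ∀ B ∈ primeSet F K m lam, ∀ h ∈ A,
      (QuotientGroup.mk' (scalars (Sp F K m lam)) ⟨g, hg⟩)⁻¹ * h *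
        (QuotientGroup.mk' (scalars (Sp F K m lam)) ⟨g, hg⟩) ∈ B → h = 1 := by
    rintro _ ⟨L₁, h1, rfl⟩ _ ⟨L₂, h2, rfl⟩
    apply proj_inter
    intro x hx hx'
    exact hmain L₁ L₂ h1 h2 x x.2 (norm_elem L₁ x hx) (norm_elem L₂ _ hx')
  refine ⟨⟨bil_self (two_ne_zero' hq) hm hl, bil_nondeg hm hl0⟩, ⟨_, key⟩, ?_, ?_, ?_⟩
  · rintro _ ⟨L, hL, rfl⟩
    exact baseSize_eq_two (H m lam L) (H_ne_bot hq hm (by omega) lam L) _
      (key _ ⟨L, hL, rfl⟩ _ ⟨L, hL, rfl⟩)
  · apply singer_in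
    rintro A ⟨L, -, rfl⟩
    exact ⟨L, rfl⟩
  · intro s hs1 hs
    have : Finite (K ≃ₗ[F] K) := Finite.of_injective (fun e => (e : K → K)) DFunLike.coe_injective
    obtain ⟨L0, hL0⟩ := exists_quad (K := K) hq hm hmo
    have h := gammaU_eq_two_family (ι := {L : IntermediateField F K // (finrank F L).Prime})
      (fun L => H m lam L.1) ⟨L0, by rw [hL0]; exact Nat.prime_two⟩
      (H_ne_bot hq hm (by omega) lam L0) (QuotientGroup.mk' (scalars (Sp F K m lam)) ⟨g, hg⟩)
      (fun i j => key _ ⟨i.1, i.2, rfl⟩ _ ⟨j.1, j.2, rfl⟩) s hs1 (by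
        intro M hM hsM
        obtain ⟨L, h1, h3⟩ := hs M hM hsM
        exact ⟨⟨L, h1⟩, h3⟩)
    exact ⟨⟨_, h.1⟩, h.2⟩

end Pool.Agent.H330.Count
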