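import Pool.Agent.H330.SympFinal

/-!
# Sequential counting
-/

namespace Pool.Agent.H330.Count

open Module Finset

/-- sum of `1, …, c` -/
def tri (c : ℕ) : ℕ := ∑ i ∈ range c, (i + 1)

theorem tri_two (c : ℕ) : 2 * tri c = c * (c + 1) := by
  induction c with
  | zero => rfl
  | succ c ih =>
    rw [tri, sum_range_succ, mul_add, ← tri, ih]; ring

theorem tri_succ (c : ℕ) : tri (c + 1) = tri c + (c + 1) := by
  rw [tri, sum_range_succ, ← tri]

theorem ncard_le_of_fibers {α β : Type} [Finite α] (A : Set α) (f : α → β) (T : Set β)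
    (hT : T.Finite) (hf : ∀ a ∈ A, f a ∈ T) (n : ℕ)
    (hn : ∀ b ∈ T, {a ∈ A | f a = b}.ncard ≤ n) : A.ncard ≤ T.ncard * n := by
  classical
  have hA : A.Finite := Set.toFinite A
  have h1 : hA.toFinset.card ≤ n * hT.toFinset.card := by
    apply card_le_mul_card_image_of_maps_to (f := f)
    · intro a ha
      rw [Set.Finite.mem_toFinset] at ha ⊢
      exact hf a ha
    · intro b hb
      rw [Set.Finite.mem_toFinset] at hb
      have h2 := hn b hb
      have h3 : (hA.toFinset.filter (fun a => f a = b)).card = {a ∈ A | f a = b}.ncard := by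
        rw [Set.ncard_eq_toFinset_card _ (Set.toFinite _)]
        congr 1
        ext a
        simp
      rw [h3]; exact h2
  rw [← Set.ncard_eq_toFinset_card A hA, ← Set.ncard_eq_toFinset_card T hT] at h1
  rw [mul_comm]; exact h1

/-- double counting: if each `a` has at least `n` related `b`, and each `b` at most `k` related
`a` -/
theorem double_count {α β : Type} [Finite α] [Finite β] (A : Set α) (B : Set β)
    (R : α → β → Prop) (n k : ℕ) (hA : ∀ a ∈ A, n ≤ {b ∈ B | R a b}.ncard)
    (hB : ∀ b ∈ B, {a ∈ A | R a b}.ncard ≤ k) : A.ncard * n ≤ B.ncard * k := by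
  classical
  have fA : A.Finite := Set.toFinite A
  have fB : B.Finite := Set.toFinite B
  have h := Finset.card_mul_le_card_mul (r := R) (s := fA.toFinset) (t := fB.toFinset)
    (m := n) (n := k) (by
      intro a ha
      rw [Set.Finite.mem_toFinset] at ha
      have h3 : (bipartiteAbove R fB.toFinset a).card = {b ∈ B | R a b}.ncard := by
        rw [Set.ncard_eq_toFinset_card _ (Set.toFinite _)]
        congr 1
        ext b
        simp [bipartiteAbove]
      rw [h3]; exact hA a ha) (by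
      intro b hb
      rw [Set.Finite.mem_toFinset] at hb
      have h3 : (bipartiteBelow R fA.toFinset b).card = {a ∈ A | R a b}.ncard := by
        rw [Set.ncard_eq_toFinset_card _ (Set.toFinite _)]
        congr 1
        ext a
        simp [bipartiteBelow]
      rw [h3]; exact hB b hb)
  rw [← Set.ncard_eq_toFinset_card A fA, ← Set.ncard_eq_toFinset_card B fB] at h
  exact h

/-- The sequential counting principle. -/
theorem seq_count {G V' V : Type} [Finite G] [Finite V] (ev : G → V' → V) (S : Set G) (B : ℕ → ℕ)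
    (good : ℕ → G → Set V' → Prop)
    (h0 : ∀ g1 X, g1 ∈ S → good 0 g1 X → ∀ g ∈ S, (∀ x ∈ X, ev g x = ev g1 x) → g = g1)
    (hs : ∀ c g1 X, g1 ∈ S → good (c + 1) g1 X → ∃ (v : V') (Y : Set V), Y.ncard ≤ B (c + 1) ∧
      (∀ g ∈ S, (∀ x ∈ X, ev g x = ev g1 x) → ev g v ∈ Y) ∧
      ∀ g2 ∈ S, (∀ x ∈ X, ev g2 x = ev g1 x) → ∃ X', good c g2 X' ∧
        ∀ g ∈ S, (∀ x ∈ X, ev g x = ev g1 x) → ev g v = ev g2 v → ∀ x ∈ X', ev g x = ev g2 x) :
    ∀ c g1 X, g1 ∈ S → good c g1 X →
      {g ∈ S | ∀ x ∈ X, ev g x = ev g1 x}.ncard ≤ ∏ i ∈ range c, B (i + 1) := by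
  intro c
  induction c with
  | zero =>
    intro g1 X hg1 hgood
    have h1 : {g ∈ S | ∀ x ∈ X, ev g x = ev g1 x} ⊆ {g1} := by
      rintro g ⟨hg, hx⟩
      exact h0 g1 X hg1 hgood g hg hx
    have := Set.ncard_le_ncard h1 (Set.toFinite _)
    rw [Set.ncard_singleton] at this
    simpa using this
  | succ c ih =>
    intro g1 X hg1 hgood
    obtain ⟨v, Y, hY, hv, hnext⟩ := hs c g1 X hg1 hgood
    rw [prod_range_succ, mul_comm]
    refine (ncard_le_of_fibers _ (fun g => ev g v) Y (Set.toFinite _) ?_ _ ?_).trans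
      (Nat.mul_le_mul_right _ hY)
    · rintro g ⟨hg, hx⟩
      exact hv g hg hx
    · intro b _
      by_cases hne : {a | a ∈ {g ∈ S | ∀ x ∈ X, ev g x = ev g1 x} ∧ ev a v = b}.Nonempty
      · obtain ⟨g2, ⟨hg2, hx2⟩, hb⟩ := hne
        obtain ⟨X', hgood', hX'⟩ := hnext g2 hg2 hx2
        refine le_trans (Set.ncard_le_ncard ?_ (Set.toFinite _)) (ih g2 X' hg2 hgood')
        rintro g ⟨⟨hg, hx⟩, hgb⟩
        exact ⟨hg, hX' g hg hx (by rw [hb]; exact hgb)⟩
      · rw [Set.not_nonempty_iff_eq_empty] at hne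
        rw [hne, Set.ncard_empty]
        exact Nat.zero_le _

section Lin

variable {k V V' : Type} [Field k] [Fintype k] [AddCommGroup V] [Module k V] [Finite V]
  [AddCommGroup V'] [Module k V'] [Finite V']

instance finite_lin : Finite (V' →ₗ[k] V) :=
  Finite.of_injective (fun f => (f : V' → V)) DFunLike.coe_injective

instance finite_equiv : Finite (V' ≃ₗ[k] V) :=
  Finite.of_injective (fun f => (f : V' → V)) DFunLike.coe_injective

instance finite_submodule : Finite (Submodule k V) :=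
  Finite.of_injective (fun f => (f : Set V)) SetLike.coe_injective

/-- Sequential counting with steps of constant size. -/
theorem seq_uniform (S : Set (V' →ₗ[k] V)) (s N : ℕ) (hs0 : 0 < s) (hN : finrank k V' = N)
    (cl : (V' →ₗ[k] V) → Submodule k V' → Prop)
    (hs : ∀ g1 ∈ S, ∀ X, cl g1 X → X ≠ ⊤ → ∃ (v : V') (Y : Set V),
      Y.ncard ≤ Fintype.card k ^ (N - finrank k X) ∧
      (∀ g ∈ S, (∀ x ∈ X, g x = g1 x) → g v ∈ Y) ∧
      ∀ g2 ∈ S, (∀ x ∈ X, g2 x = g1 x) → ∃ X', cl g2 X' ∧ finrank k X' = finrank k X + s ∧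
        ∀ g ∈ S, (∀ x ∈ X, g x = g1 x) → g v = g2 v → ∀ x ∈ X', g x = g2 x) :
    ∀ c g1 X, g1 ∈ S → cl g1 X → finrank k X + s * c = N →
      {g ∈ S | ∀ x ∈ X, g x = g1 x}.ncard ≤ Fintype.card k ^ (s * tri c) := by
  intro c g1 X hg1 hcl hX
  have h := seq_count (G := V' →ₗ[k] V) (V' := V') (V := V) (fun g => g) S
    (fun c => Fintype.card k ^ (s * c))
    (fun c g X => ∃ X0 : Submodule k V', (X0 : Set V') = X ∧ cl g X0 ∧
      finrank k X0 + s * c = N) ?_ ?_ c g1 X hg1 ⟨X, rfl, hcl, hX⟩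
  · refine h.trans (le_of_eq ?_)
    rw [Finset.prod_pow_eq_pow_sum, tri, Finset.mul_sum]
  · rintro g1 _ hg1 ⟨X, rfl, hc, hX⟩ g hg hagree
    have hX' : X = ⊤ := Submodule.eq_top_of_finrank_eq (by rw [hN]; omega)
    ext x
    exact hagree x (by rw [hX']; trivial)
  · rintro c g1 _ hg1 ⟨X, rfl, hc, hX⟩
    have hX' : X ≠ ⊤ := by
      intro h
      rw [h, finrank_top, hN] at hX
      have : 0 < s * (c + 1) := Nat.mul_pos hs0 (by omega)
      omega
    obtain ⟨v, Y, hY, h1, h2⟩ := hs g1 hg1 X hc hX'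
    refine ⟨v, Y, ?_, h1, ?_⟩
    · have : N - finrank k X = s * (c + 1) := by omega
      rwa [this] at hY
    · intro g2 hg2 hagree
      obtain ⟨X', hc', hX', h3⟩ := h2 g2 hg2 hagree
      refine ⟨X', ⟨X', rfl, hc', ?_⟩, h3⟩
      rw [hX', ← hX]; ring

end Lin

section Perp

variable {k V : Type} [Field k] [Fintype k] [AddCommGroup V] [Module k V] [Finite V]

/-- nondegenerate (on the left) -/
def NonDeg (ω : V →ₗ[k] V →ₗ[k] k) : Prop := ∀ x, (∀ y, ω x y = 0) → x = 0

/-- `X^⊥` -/
def perp (ω : V →ₗ[k] V →ₗ[k] k) (X : Submodule k V) : Submodule k V where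
  carrier := {w | ∀ x ∈ X, ω x w = 0}
  add_mem' := by
    intro a b ha hb x hx
    rw [map_add, ha x hx, hb x hx, add_zero]
  zero_mem' := fun x _ => by rw [map_zero]
  smul_mem' := by
    intro c a ha x hx
    rw [map_smul, ha x hx, smul_zero]

theorem mem_perp {ω : V →ₗ[k] V →ₗ[k] k} {X : Submodule k V} {w : V} :
    w ∈ perp ω X ↔ ∀ x ∈ X, ω x w = 0 := Iff.rfl

theorem nondegenerate_of {ω : V →ₗ[k] V →ₗ[k] k} (h : NonDeg ω) :
    LinearMap.BilinForm.Nondegenerate ω := by
  apply LinearMap.BilinForm.Nondegenerate.ofSeparatingLeft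
  exact h

theorem finrank_perp {ω : V →ₗ[k] V →ₗ[k] k} (h : NonDeg ω) (X : Submodule k V) :
    finrank k (perp ω X) + finrank k X = finrank k V := by
  have h1 := LinearMap.BilinForm.finrank_orthogonal (nondegenerate_of h) X
  have h2 : LinearMap.BilinForm.orthogonal ω X = perp ω X := by
    ext w
    rw [LinearMap.BilinForm.mem_orthogonal_iff, mem_perp]
  rw [h2] at h1
  have h3 := Submodule.finrank_le X
  omega

theorem card_submodule (X : Submodule k V) : (X : Set V).ncard = Fintype.card k ^ finrank k X := by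
  classical
  have : Fintype V := Fintype.ofFinite V
  rw [← Nat.card_coe_set_eq]
  have h := Module.card_eq_pow_finrank (K := k) (V := X)
  rw [← h, Nat.card_eq_fintype_card]
  rfl

/-- cosets of a subspace -/
theorem card_coset (Y : Submodule k V) (w : V) :
    {x : V | x - w ∈ Y}.ncard = Fintype.card k ^ finrank k Y := by
  rw [← card_submodule]
  have : {x : V | x - w ∈ Y} = (fun y => y + w) '' (Y : Set V) := by
    ext x
    simp only [Set.mem_image, SetLike.mem_coe]
    constructor
    · intro h; exact ⟨x - w, h, sub_add_cancel _ _⟩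
    · rintro ⟨y, hy, rfl⟩
      change y + w - w ∈ Y
      simpa using hy
  rw [this, Set.ncard_image_of_injective]
  exact fun a b h => add_right_cancel h

/-- affine subspaces cut out by `Z` -/
theorem card_affine {ω : V →ₗ[k] V →ₗ[k] k} (h : NonDeg ω) (Z : Submodule k V) (c : V → k) :
    {w : V | ∀ z ∈ Z, ω z w = c z}.ncard ≤ Fintype.card k ^ (finrank k V - finrank k Z) := by
  by_cases hne : {w : V | ∀ z ∈ Z, ω z w = c z}.Nonempty
  · obtain ⟨w0, hw0⟩ := hne
    have h1 : {w : V | ∀ z ∈ Z, ω z w = c z} ⊆ {w : V | w - w0 ∈ perp ω Z} := by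
      intro w hw
      change w - w0 ∈ perp ω Z
      rw [mem_perp]
      intro z hz
      rw [map_sub, hw z hz, hw0 z hz, sub_self]
    refine (Set.ncard_le_ncard h1 (Set.toFinite _)).trans (le_of_eq ?_)
    rw [card_coset]
    congr 1
    have := finrank_perp h Z
    omega
  · rw [Set.not_nonempty_iff_eq_empty] at hne
    rw [hne, Set.ncard_empty]
    exact Nat.zero_le _

/-- the determinant argument: a nonsquare scalar is a square of an operator only in even
dimension -/
theorem even_of_sq {W : Type} [AddCommGroup W] [Module k W] [Finite W] (J : W →ₗ[k] W) {ν : k}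
    (hν : ¬ IsSquare ν) (hJ : ∀ x, J (J x) = ν • x) : Even (finrank k W) := by
  by_contra h
  rw [Nat.not_even_iff_odd] at h
  obtain ⟨r, hr⟩ := h
  apply hν
  have h1 : J * J = ν • (1 : W →ₗ[k] W) := by
    ext x
    exact hJ x
  have h2 : LinearMap.det J * LinearMap.det J = ν ^ finrank k W := by
    rw [← map_mul, h1, LinearMap.det_smul, map_one, mul_one]
  have hν0 : ν ≠ 0 := by rintro rfl; exact hν IsSquare.zero
  refine ⟨LinearMap.det J / ν ^ r, ?_⟩
  have h3 : LinearMap.det J / ν ^ r * (LinearMap.det J / ν ^ r)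
      = LinearMap.det J * LinearMap.det J / (ν ^ r * ν ^ r) := by
    field_simp
  rw [h3, h2, hr, pow_succ, two_mul, pow_add]
  field_simp

end Perp

end Pool.Agent.H330.Count
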