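import Pool.Agent.H330.CountSeq

set_option linter.unusedSectionVars false

/-!
# Spreads: orbits of field-like actions, and counting invariant subspaces
-/

namespace Pool.Agent.H330.Count

open Module Finset

section

variable {k V : Type} [Field k] [Fintype k] [AddCommGroup V] [Module k V] [Finite V]

/-- the partition of `V` into the lines of a field-like action -/
structure Spread (k V : Type) [Field k] [AddCommGroup V] [Module k V] (s : ℕ) where
  O : V → Submodule k V
  mem : ∀ v, v ∈ O v
  eq_of_mem : ∀ v y, y ∈ O v → y ≠ 0 → O y = O v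
  rank : ∀ v, v ≠ 0 → finrank k (O v) = s
  zero : O 0 = ⊥
  add : ∀ x y, O (x + y) ≤ O x ⊔ O y

namespace Spread

variable {s : ℕ} (σ : Spread k V s)

/-- invariant subspaces -/
def Inv (X : Submodule k V) : Prop := ∀ v ∈ X, σ.O v ≤ X

theorem inf_eq_bot {X : Submodule k V} (hX : σ.Inv X) {v : V} (hv : v ∉ X) : X ⊓ σ.O v = ⊥ := by
  rw [Submodule.eq_bot_iff]
  rintro y ⟨hy1, hy2⟩
  by_contra hy0
  apply hv
  have h := hX y hy1
  rw [σ.eq_of_mem v y hy2 hy0] at h
  exact h (σ.mem v)

theorem ne_zero_of_notMem {X : Submodule k V} {v : V} (hv : v ∉ X) : v ≠ 0 := by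
  rintro rfl
  exact hv X.zero_mem

theorem finrank_step {X : Submodule k V} (hX : σ.Inv X) {v : V} (hv : v ∉ X) :
    finrank k (X ⊔ σ.O v : Submodule k V) = finrank k X + s := by
  have h := Submodule.finrank_sup_add_finrank_inf_eq X (σ.O v)
  rw [σ.inf_eq_bot hX hv, finrank_bot, σ.rank v (ne_zero_of_notMem hv)] at h
  exact h

theorem inv_O (v : V) : σ.Inv (σ.O v) := by
  intro y hy
  by_cases hy0 : y = 0
  · rw [hy0, σ.zero]; exact bot_le
  · rw [σ.eq_of_mem v y hy hy0]

theorem inv_sup {X Y : Submodule k V} (hX : σ.Inv X) (hY : σ.Inv Y) : σ.Inv (X ⊔ Y) := by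
  intro z hz
  obtain ⟨x, hx, y, hy, rfl⟩ := Submodule.mem_sup.mp hz
  exact (σ.add x y).trans (sup_le_sup (hX x hx) (hY y hy))

theorem inv_bot : σ.Inv ⊥ := by
  intro v hv
  rw [Submodule.mem_bot] at hv
  rw [hv, σ.zero]

end Spread

theorem agree_sup {V' : Type} [AddCommGroup V'] [Module k V'] {g g2 : V' →ₗ[k] V}
    {X O : Submodule k V'}
    (h1 : ∀ x ∈ X, g x = g2 x) (h2 : ∀ x ∈ O, g x = g2 x) : ∀ x ∈ X ⊔ O, g x = g2 x := by
  have h : X ⊔ O ≤ LinearMap.eqLocus g g2 := sup_le h1 h2
  exact fun x hx => h hx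

/-- trivial spread -/
def Spread.triv (k V : Type) [Field k] [AddCommGroup V] [Module k V] : Spread k V 1 where
  O v := Submodule.span k {v}
  mem v := Submodule.mem_span_singleton_self v
  eq_of_mem v y hy hy0 := by
    obtain ⟨c, rfl⟩ := Submodule.mem_span_singleton.mp hy
    have hc : c ≠ 0 := by rintro rfl; exact hy0 (zero_smul _ _)
    exact Submodule.span_singleton_smul_eq (IsUnit.mk0 c hc) v
  rank v hv := finrank_span_singleton hv
  zero := Submodule.span_zero_singleton k
  add x y := by
    rw [Submodule.span_singleton_le_iff_mem]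
    exact Submodule.add_mem_sup (Submodule.mem_span_singleton_self x)
      (Submodule.mem_span_singleton_self y)

/-- spread of a square root of a nonsquare -/
def Spread.ofJ {ν : k} (hν : ¬ IsSquare ν) (J : V →ₗ[k] V) (hJ : ∀ x, J (J x) = ν • x) :
    Spread k V 2 :=
  have hrank : ∀ v : V, v ≠ 0 → finrank k (Submodule.span k {v, J v}) = 2 := by
    intro v hv
    have hli : LinearIndependent k ![v, J v] := by
      rw [LinearIndependent.pair_iff]
      intro a b hab
      by_cases hb : b = 0
      · subst hb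
        rw [zero_smul, add_zero] at hab
        exact ⟨(smul_eq_zero.mp hab).resolve_right hv, rfl⟩
      · exfalso
        apply hν
        have h1 : J v = (-(a / b)) • v := by
          have h2 : b • J v = (-a) • v := by
            rw [neg_smul]; exact eq_neg_of_add_eq_zero_right hab
          have h3 : b⁻¹ • (b • J v) = b⁻¹ • ((-a) • v) := by rw [h2]
          rw [smul_smul, smul_smul, inv_mul_cancel₀ hb, one_smul] at h3
          rw [h3]; congr 1; field_simp
        have h4 := hJ v
        rw [h1, map_smul, h1, smul_smul] at h4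
        refine ⟨-(a / b), ?_⟩
        have h5 : (-(a / b) * -(a / b) - ν) • v = 0 := by rw [sub_smul, h4, sub_self]
        exact (sub_eq_zero.mp ((smul_eq_zero.mp h5).resolve_right hv)).symm
    have h := finrank_span_eq_card hli
    have h2 : Set.range ![v, J v] = {v, J v} := by
      simp [Matrix.range_cons, Matrix.range_empty, Set.pair_comm]
    rw [h2] at h
    simpa using h
  have hle : ∀ v y : V, y ∈ Submodule.span k {v, J v} →
      Submodule.span k {y, J y} ≤ Submodule.span k {v, J v} := by
    intro v y hy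
    obtain ⟨a, b, rfl⟩ := Submodule.mem_span_pair.mp hy
    rw [Submodule.span_le]
    rintro z (rfl | hz)
    · exact hy
    · rw [Set.mem_singleton_iff] at hz
      rw [hz, map_add, map_smul, map_smul, hJ]
      exact Submodule.mem_span_pair.mpr ⟨b * ν, a, by rw [mul_smul]; abel⟩
  { O := fun v => Submodule.span k {v, J v}
    mem := fun v => Submodule.subset_span (by simp)
    eq_of_mem := fun v y hy hy0 => by
      apply Submodule.eq_of_le_of_finrank_eq (hle v y hy)
      have hv0 : v ≠ 0 := by
        rintro rfl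
        rw [map_zero] at hy
        simp at hy
        exact hy0 hy
      rw [hrank y hy0, hrank v hv0]
    rank := hrank
    zero := by simp
    add := fun x y => by
      rw [Submodule.span_le]
      rintro z (rfl | hz)
      · exact Submodule.add_mem_sup (Submodule.subset_span (by simp))
          (Submodule.subset_span (by simp))
      · rw [Set.mem_singleton_iff] at hz
        rw [hz, map_add]
        exact Submodule.add_mem_sup (Submodule.subset_span (by simp))
          (Submodule.subset_span (by simp)) }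

theorem Spread.ofJ_O {ν : k} (hν : ¬ IsSquare ν) (J : V →ₗ[k] V) (hJ : ∀ x, J (J x) = ν • x)
    (v : V) : (Spread.ofJ hν J hJ).O v = Submodule.span k {v, J v} := rfl

theorem Spread.ofJ_inv {ν : k} (hν : ¬ IsSquare ν) (J : V →ₗ[k] V) (hJ : ∀ x, J (J x) = ν • x)
    (X : Submodule k V) : (Spread.ofJ hν J hJ).Inv X ↔ ∀ x ∈ X, J x ∈ X := by
  constructor
  · intro h x hx
    exact h x hx (Submodule.subset_span (by simp))
  · intro h x hx
    rw [Spread.ofJ_O, Submodule.span_le]
    rintro z (rfl | hz)
    · exact hx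
    · rw [Set.mem_singleton_iff] at hz
      rw [hz]; exact h x hx

/-- restriction of scalars -/
def Spread.restrict (k : Type) {R V : Type} [Field k] [Field R] [Algebra k R] [AddCommGroup V]
    [Module k V] [Module R V] [IsScalarTower k R V] {s : ℕ} (σ : Spread R V s) :
    Spread k V (finrank k R * s) where
  O v := (σ.O v).restrictScalars k
  mem v := σ.mem v
  eq_of_mem v y hy hy0 := by rw [σ.eq_of_mem v y hy hy0]
  rank v hv := by
    have h := Module.finrank_mul_finrank k R (σ.O v)
    rw [σ.rank v hv] at h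
    exact h.symm
  zero := by rw [σ.zero]; rfl
  add x y := by
    intro z hz
    have h := σ.add x y hz
    obtain ⟨a, ha, b, hb, rfl⟩ := Submodule.mem_sup.mp h
    exact Submodule.add_mem_sup ha hb

end

section Tuples

variable {V : Type} [Finite V]

theorem tuple_upper (P : ∀ a, (Fin a → V) → Prop) (B : ℕ → ℕ)
    (hinit : ∀ a (b : Fin (a + 1) → V), P (a + 1) b → P a (Fin.init b))
    (hB : ∀ a (b : Fin a → V), P a b →
      {v : V | P (a + 1) (Fin.snoc (α := fun _ => V) b v)}.ncard ≤ B a) :
    ∀ a, {b : Fin a → V | P a b}.ncard ≤ ∏ i ∈ range a, B i := by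
  intro a
  induction a with
  | zero =>
    rw [range_zero, prod_empty]
    have : {b : Fin 0 → V | P 0 b} ⊆ {Fin.elim0} := by
      intro b _
      rw [Set.mem_singleton_iff]
      exact Subsingleton.elim _ _
    have := Set.ncard_le_ncard this (Set.toFinite _)
    rwa [Set.ncard_singleton] at this
  | succ a ih =>
    rw [prod_range_succ]
    refine (ncard_le_of_fibers _ (fun b => Fin.init b) {b : Fin a → V | P a b} (Set.toFinite _)
      (by intro b hb; exact hinit a b hb) (B a) ?_).trans (Nat.mul_le_mul_right _ ih)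
    intro b0 hb0
    refine le_trans ?_ (hB a b0 hb0)
    apply Set.ncard_le_ncard_of_injOn (fun b => b (Fin.last a))
    · rintro b ⟨hb, hb1⟩
      change P (a + 1) _
      have hb1' : Fin.init b = b0 := hb1
      rw [← hb1', Fin.snoc_init_self]
      exact hb
    · rintro b ⟨hb, hb1⟩ c ⟨hc, hc1⟩ hbc
      have hb1' : Fin.init b = b0 := hb1
      have hc1' : Fin.init c = b0 := hc1
      have hbc' : b (Fin.last a) = c (Fin.last a) := hbc
      rw [← Fin.snoc_init_self b, ← Fin.snoc_init_self c, hb1', hc1', hbc']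

theorem tuple_lower (P : ∀ a, (Fin a → V) → Prop) (B : ℕ → ℕ) (n : ℕ) (h0 : ∀ b, P 0 b)
    (hB : ∀ a < n, ∀ (b : Fin a → V), P a b →
      B a ≤ {v : V | P (a + 1) (Fin.snoc (α := fun _ => V) b v)}.ncard) :
    ∀ a ≤ n, ∏ i ∈ range a, B i ≤ {b : Fin a → V | P a b}.ncard := by
  intro a
  induction a with
  | zero =>
    intro _
    rw [range_zero, prod_empty]
    have : {Fin.elim0} ⊆ {b : Fin 0 → V | P 0 b} := by
      intro b _
      exact h0 b
    have := Set.ncard_le_ncard this (Set.toFinite _)
    rwa [Set.ncard_singleton] at this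
  | succ a ih =>
    intro ha
    rw [prod_range_succ]
    refine (Nat.mul_le_mul_right _ (ih (by omega))).trans ?_
    have h := double_count {b : Fin a → V | P a b} {b : Fin (a + 1) → V | P (a + 1) b}
      (fun b0 b => Fin.init b = b0) (B a) 1 ?_ ?_
    · rwa [mul_one] at h
    · intro b0 hb0
      refine (hB a (by omega) b0 hb0).trans ?_
      apply Set.ncard_le_ncard_of_injOn (fun v => Fin.snoc (α := fun _ => V) b0 v)
      · intro v hv
        exact ⟨hv, Fin.init_snoc _ _⟩
      · intro v _ w _ hvw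
        have := congrFun hvw (Fin.last a)
        simpa using this
    · intro b hb
      have : {a_1 | a_1 ∈ {b : Fin a → V | P a b} ∧ Fin.init b = a_1} ⊆ {Fin.init b} := by
        rintro c ⟨_, hc⟩
        rw [Set.mem_singleton_iff]; exact hc.symm
      have := Set.ncard_le_ncard this (Set.toFinite _)
      rwa [Set.ncard_singleton] at this

end Tuples

/-- the order of `GL_a` -/
theorem gl_lower (Q a : ℕ) (hQ : 3 ≤ Q) :
    Q ^ (a * a) ≤ 2 * ∏ i ∈ range a, (Q ^ a - Q ^ i) := by
  have key : ∀ a : ℕ, (1 + (1 / (Q : ℝ)) ^ a) / 2 ≤ ∏ j ∈ range a, (1 - (1 / (Q : ℝ)) ^ (j + 1)) := by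
    intro a
    have hQ' : (3 : ℝ) ≤ Q := by exact_mod_cast hQ
    set x : ℝ := 1 / (Q : ℝ) with hx
    have hx0 : 0 < x := by positivity
    have hx1 : 3 * x ≤ 1 := by
      rw [hx, mul_one_div, div_le_one (by linarith)]; exact hQ'
    induction a with
    | zero => simp
    | succ a ih =>
      rw [prod_range_succ]
      have hxa : 0 < x ^ a := by positivity
      have hxa1 : x ^ a ≤ 1 := pow_le_one₀ hx0.le (by linarith)
      have h1 : 0 ≤ 1 - x ^ (a + 1) := by
        have : x ^ (a + 1) ≤ 1 := pow_le_one₀ hx0.le (by linarith)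
        linarith
      refine le_trans ?_ (mul_le_mul_of_nonneg_right ih h1)
      rw [pow_succ]
      nlinarith [mul_pos hxa hx0, mul_nonneg hxa.le (sub_nonneg.mpr hx1),
        mul_nonneg (mul_pos hxa hx0).le (sub_nonneg.mpr hxa1)]
  have hQpos : (0 : ℝ) < Q := by exact_mod_cast (by omega : 0 < Q)
  have h1 : ((∏ i ∈ range a, (Q ^ a - Q ^ i) : ℕ) : ℝ)
      = (Q : ℝ) ^ (a * a) * ∏ j ∈ range a, (1 - (1 / (Q : ℝ)) ^ (j + 1)) := by
    rw [Nat.cast_prod, ← prod_range_reflect (fun j => (1 - (1 / (Q : ℝ)) ^ (j + 1)))]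
    have : (Q : ℝ) ^ (a * a) = ∏ _i ∈ range a, (Q : ℝ) ^ a := by
      rw [prod_const, card_range, ← pow_mul]
    rw [this, ← prod_mul_distrib]
    apply prod_congr rfl
    intro i hi
    rw [mem_range] at hi
    rw [Nat.cast_sub (Nat.pow_le_pow_right (by omega) (by omega)), Nat.cast_pow, Nat.cast_pow,
      mul_sub, mul_one, show a - 1 - i + 1 = a - i by omega, one_div, inv_pow]
    congr 1
    rw [eq_mul_inv_iff_mul_eq₀ (by positivity), ← pow_add]
    congr 1; omega
  have h2 : (Q : ℝ) ^ (a * a) ≤ ((2 * ∏ i ∈ range a, (Q ^ a - Q ^ i) : ℕ) : ℝ) := by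
    rw [Nat.cast_mul, h1]
    have h3 := key a
    have h4 : (1 : ℝ) / 2 ≤ ∏ j ∈ range a, (1 - (1 / (Q : ℝ)) ^ (j + 1)) := by
      refine le_trans ?_ h3
      have : (0 : ℝ) ≤ (1 / (Q : ℝ)) ^ a := by positivity
      linarith
    have h5 : (0 : ℝ) < (Q : ℝ) ^ (a * a) := by positivity
    push_cast
    nlinarith [mul_le_mul_of_nonneg_left h4 h5.le]
  exact_mod_cast h2

end Pool.Agent.H330.Count
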