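import Pool.Agent.H330.CountSpread

set_option linter.unusedSectionVars false

/-!
# Counting invariant subspaces
-/

namespace Pool.Agent.H330.Count

open Module Finset

variable {k V : Type} [Field k] [Fintype k] [AddCommGroup V] [Module k V] [Finite V]

namespace Spread

variable {s : ℕ} (σ : Spread k V s)

/-- the invariant subspace spanned by a tuple -/
def spn {a : ℕ} (b : Fin a → V) : Submodule k V := ⨆ i, σ.O (b i)

theorem spn_snoc {a : ℕ} (b : Fin a → V) (v : V) :
    σ.spn (Fin.snoc (α := fun _ => V) b v) = σ.spn b ⊔ σ.O v := by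
  unfold spn
  apply le_antisymm
  · apply iSup_le
    intro i
    refine Fin.lastCases ?_ (fun j => ?_) i
    · rw [Fin.snoc_last]; exact le_sup_right
    · rw [Fin.snoc_castSucc]
      exact (le_iSup (fun i => σ.O (b i)) j).trans le_sup_left
  · apply sup_le
    · apply iSup_le
      intro i
      have h := le_iSup (fun i => σ.O (Fin.snoc (α := fun _ => V) b v i)) i.castSucc
      simp only [Fin.snoc_castSucc] at h
      exact h
    · have h := le_iSup (fun i => σ.O (Fin.snoc (α := fun _ => V) b v i)) (Fin.last a)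
      simp only [Fin.snoc_last] at h
      exact h

theorem inv_spn {a : ℕ} (b : Fin a → V) : σ.Inv (σ.spn b) := by
  intro z hz
  unfold spn at hz
  induction hz using Submodule.iSup_induction' with
  | mem i y hy => exact (σ.inv_O _ y hy).trans (le_iSup (fun i => σ.O (b i)) i)
  | zero => rw [σ.zero]; exact bot_le
  | add x y hx hy ihx ihy => exact (σ.add x y).trans (sup_le ihx ihy)

theorem finrank_sup_O_le (X : Submodule k V) (v : V) :
    finrank k (X ⊔ σ.O v : Submodule k V) ≤ finrank k X + s := by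
  have h := Submodule.finrank_sup_add_finrank_inf_eq X (σ.O v)
  have h2 : finrank k (σ.O v) ≤ s := by
    by_cases hv : v = 0
    · rw [hv, σ.zero, finrank_bot]; exact Nat.zero_le _
    · rw [σ.rank v hv]
  omega

theorem finrank_spn_le {a : ℕ} (b : Fin a → V) : finrank k (σ.spn b) ≤ s * a := by
  induction a with
  | zero =>
    have : σ.spn b = ⊥ := by
      unfold spn; exact iSup_of_empty _
    rw [this, finrank_bot]; exact Nat.zero_le _
  | succ a ih =>
    rw [← Fin.snoc_init_self b, spn_snoc]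
    refine (σ.finrank_sup_O_le _ _).trans ?_
    have := ih (Fin.init b)
    rw [mul_add, mul_one]; omega

theorem finrank_init {a : ℕ} (b : Fin (a + 1) → V) (h : finrank k (σ.spn b) = s * (a + 1)) :
    finrank k (σ.spn (Fin.init b)) = s * a := by
  have h1 := σ.finrank_spn_le (Fin.init b)
  have h2 : finrank k (σ.spn b) ≤ finrank k (σ.spn (Fin.init b)) + s := by
    conv_lhs => rw [← Fin.snoc_init_self b, spn_snoc]
    exact σ.finrank_sup_O_le _ _
  rw [h, mul_add, mul_one] at h2
  omega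

theorem spn_init_le {a : ℕ} (b : Fin (a + 1) → V) : σ.spn (Fin.init b) ≤ σ.spn b := by
  conv_rhs => rw [← Fin.snoc_init_self b, spn_snoc]
  exact le_sup_left

/-- many bases -/
theorem many_bases {a : ℕ} (W : Submodule k V) (hW : σ.Inv W) (hWa : finrank k W = s * a) :
    ∏ i ∈ range a, ((Fintype.card k ^ s) ^ a - (Fintype.card k ^ s) ^ i) ≤
      {b : Fin a → V | σ.spn b = W}.ncard := by
  classical
  have hle : ∀ j, ∀ b : Fin j → V, (∀ i, b i ∈ W) → σ.spn b ≤ W := by
    intro j b hb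
    unfold spn
    exact iSup_le (fun i => hW _ (hb i))
  have h := tuple_lower (V := V)
    (fun j b => (∀ i, b i ∈ W) ∧ finrank k (σ.spn b) = s * j)
    (fun i => (Fintype.card k ^ s) ^ a - (Fintype.card k ^ s) ^ i) a
    (fun b => ⟨fun i => i.elim0, by
      have : σ.spn b = ⊥ := by
        unfold spn; exact iSup_of_empty _
      rw [this, finrank_bot, mul_zero]⟩) ?_ a le_rfl
  · refine h.trans (Set.ncard_le_ncard ?_ (Set.toFinite _))
    rintro b ⟨hb, hb1⟩
    exact Submodule.eq_of_le_of_finrank_eq (hle a b hb) (by rw [hb1, hWa])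
  · rintro j hj b ⟨hb, hb1⟩
    have h1 : (W : Set V) \ (σ.spn b : Set V) ⊆ {v : V |
        (∀ i, Fin.snoc (α := fun _ => V) b v i ∈ W) ∧
        finrank k (σ.spn (Fin.snoc (α := fun _ => V) b v)) = s * (j + 1)} := by
      rintro v ⟨hv, hv2⟩
      refine ⟨fun i => ?_, ?_⟩
      · refine Fin.lastCases ?_ (fun l => ?_) i
        · rw [Fin.snoc_last]; exact hv
        · rw [Fin.snoc_castSucc]; exact hb l
      · rw [spn_snoc, σ.finrank_step (σ.inv_spn b) hv2, hb1, mul_add, mul_one]
    refine le_trans ?_ (Set.ncard_le_ncard h1 (Set.toFinite _))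
    have h2 : (σ.spn b : Set V) ⊆ (W : Set V) := hle j b hb
    rw [Set.ncard_sdiff h2 (Set.toFinite _), card_submodule, card_submodule, hb1, hWa, pow_mul, pow_mul]

/-- comparison of invariant subspaces and tuples -/
theorem sub_count {a : ℕ} (𝒲 : Set (Submodule k V))
    (h𝒲 : ∀ W ∈ 𝒲, σ.Inv W ∧ finrank k W = s * a) (T : Set (Fin a → V))
    (hT : ∀ W ∈ 𝒲, ∀ b : Fin a → V, σ.spn b = W → b ∈ T) (hq : 3 ≤ Fintype.card k ^ s) :
    𝒲.ncard * (Fintype.card k ^ s) ^ (a * a) ≤ 2 * T.ncard := by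
  classical
  have h := double_count 𝒲 T (fun W b => σ.spn b = W)
    (∏ i ∈ range a, ((Fintype.card k ^ s) ^ a - (Fintype.card k ^ s) ^ i)) 1 ?_ ?_
  · have h2 := gl_lower (Fintype.card k ^ s) a hq
    calc 𝒲.ncard * (Fintype.card k ^ s) ^ (a * a)
        ≤ 𝒲.ncard * (2 * ∏ i ∈ range a, ((Fintype.card k ^ s) ^ a - (Fintype.card k ^ s) ^ i)) :=
          Nat.mul_le_mul_left _ h2
      _ = 2 * (𝒲.ncard * ∏ i ∈ range a, ((Fintype.card k ^ s) ^ a - (Fintype.card k ^ s) ^ i)) := by
          ring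
      _ ≤ 2 * T.ncard := by
          apply Nat.mul_le_mul_left
          rwa [mul_one] at h
  · intro W hW
    refine (σ.many_bases W (h𝒲 W hW).1 (h𝒲 W hW).2).trans (Set.ncard_le_ncard ?_ (Set.toFinite _))
    intro b hb
    exact ⟨hT W hW b hb, hb⟩
  · intro b hb
    have : {W | W ∈ 𝒲 ∧ σ.spn b = W} ⊆ {σ.spn b} := by
      rintro W ⟨_, hW⟩
      rw [Set.mem_singleton_iff]; exact hW.symm
    have := Set.ncard_le_ncard this (Set.toFinite _)
    rwa [Set.ncard_singleton] at this

theorem card_space : Nat.card V = Fintype.card k ^ finrank k V := by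
  have : Fintype V := Fintype.ofFinite V
  rw [Nat.card_eq_fintype_card]
  exact Module.card_eq_pow_finrank

/-- number of invariant subspaces of dimension `s a` -/
theorem sub_count_all (a : ℕ) (𝒲 : Set (Submodule k V))
    (h𝒲 : ∀ W ∈ 𝒲, σ.Inv W ∧ finrank k W = s * a) (hq : 3 ≤ Fintype.card k ^ s) :
    𝒲.ncard * Fintype.card k ^ (s * (a * a)) ≤ 2 * Fintype.card k ^ (finrank k V * a) := by
  have h := σ.sub_count 𝒲 h𝒲 Set.univ (fun _ _ _ _ => trivial) hq
  rw [Set.ncard_univ, Nat.card_fun, card_space (k := k)] at h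
  simpa [pow_mul] using h

/-- totally isotropic -/
def _root_.Pool.Agent.H330.Count.Isot (ω : V →ₗ[k] V →ₗ[k] k) (W : Submodule k V) : Prop :=
  ∀ x ∈ W, ∀ y ∈ W, ω x y = 0

/-- number of isotropic invariant subspaces of dimension `s a` -/
theorem sub_count_isot {ω : V →ₗ[k] V →ₗ[k] k} (hω : NonDeg ω) (a : ℕ) (𝒲 : Set (Submodule k V))
    (h𝒲 : ∀ W ∈ 𝒲, σ.Inv W ∧ finrank k W = s * a) (hiso : ∀ W ∈ 𝒲, Isot ω W)
    (hq : 3 ≤ Fintype.card k ^ s) :
    𝒲.ncard * Fintype.card k ^ (s * (a * a)) ≤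
      2 * Fintype.card k ^ (∑ i ∈ range a, (finrank k V - s * i)) := by
  have h := σ.sub_count 𝒲 h𝒲 {b : Fin a → V | finrank k (σ.spn b) = s * a ∧ Isot ω (σ.spn b)}
    (by
      rintro W hW b rfl
      exact ⟨(h𝒲 _ hW).2, hiso _ hW⟩) hq
  have h2 := tuple_upper (V := V)
    (fun a b => finrank k (σ.spn b) = s * a ∧ Isot ω (σ.spn b))
    (fun i => Fintype.card k ^ (finrank k V - s * i)) ?_ ?_ a
  · rw [Finset.prod_pow_eq_pow_sum] at h2
    rw [pow_mul]
    exact h.trans (Nat.mul_le_mul_left _ h2)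
  · rintro a b ⟨hb, hb1⟩
    refine ⟨σ.finrank_init b hb, ?_⟩
    intro x hx y hy
    exact hb1 x (σ.spn_init_le b hx) y (σ.spn_init_le b hy)
  · rintro a b ⟨hb, hb1⟩
    have h3 : {v : V | finrank k (σ.spn (Fin.snoc (α := fun _ => V) b v)) = s * (a + 1) ∧
        Isot ω (σ.spn (Fin.snoc (α := fun _ => V) b v))} ⊆ (perp ω (σ.spn b) : Set V) := by
      rintro v ⟨_, hv⟩
      rw [spn_snoc] at hv
      intro x hx
      exact hv x (Submodule.mem_sup_left hx) v (Submodule.mem_sup_right (σ.mem v))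
    refine (Set.ncard_le_ncard h3 (Set.toFinite _)).trans (le_of_eq ?_)
    rw [card_submodule]
    congr 1
    have := finrank_perp hω (σ.spn b)
    omega

end Spread

end Pool.Agent.H330.Count
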