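import Pool.Agent.H330.CountTwistB

set_option linter.unusedSectionVars false
set_option linter.unusedVariables false

/-!
# Skew roots commuting with a semilinear isometry of order three
-/

namespace Pool.Agent.H330.Count

open Module Finset

section

variable {k V : Type} [Field k] [Fintype k] [AddCommGroup V] [Module k V] [Finite V]

theorem two_restrict (S : Set (V →ₗ[k] V)) (W1 W2 : Submodule k V)
    (hS : ∀ J ∈ S, (∀ x ∈ W1, J x ∈ W1) ∧ ∀ x ∈ W2, J x ∈ W2)
    (hinj : ∀ J ∈ S, ∀ J' ∈ S, (∀ x ∈ W1, J x = J' x) → (∀ x ∈ W2, J x = J' x) → J = J')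
    (n1 n2 : ℕ)
    (h1 : {A : W1 →ₗ[k] W1 | ∃ J ∈ S, ∀ w : W1, (A w : V) = J w}.ncard ≤ n1)
    (h2 : {A : W2 →ₗ[k] W2 | ∃ J ∈ S, ∀ w : W2, (A w : V) = J w}.ncard ≤ n2) :
    S.ncard ≤ n1 * n2 := by
  refine le_trans ?_ (Nat.mul_le_mul h1 h2)
  rw [← Set.ncard_prod]
  refine le_trans ?_ (Set.ncard_image_le (f := fun p : (W1 →ₗ[k] W1) × (W2 →ₗ[k] W2) =>
    (W1.subtype ∘ₗ p.1, W2.subtype ∘ₗ p.2)) (Set.toFinite _))
  apply Set.ncard_le_ncard_of_injOn (fun J => (J ∘ₗ W1.subtype, J ∘ₗ W2.subtype)) _ _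
    (Set.toFinite _)
  · intro J hJ
    exact ⟨(J.restrict (hS J hJ).1, J.restrict (hS J hJ).2),
      ⟨⟨J, hJ, fun w => rfl⟩, ⟨J, hJ, fun w => rfl⟩⟩, rfl⟩
  · intro J hJ J' hJ' heq
    have e1 : J ∘ₗ W1.subtype = J' ∘ₗ W1.subtype := congrArg Prod.fst heq
    have e2 : J ∘ₗ W2.subtype = J' ∘ₗ W2.subtype := congrArg Prod.snd heq
    apply hinj J hJ J' hJ'
    · intro x hx
      exact congrArg (fun f : W1 →ₗ[k] V => f ⟨x, hx⟩) e1
    · intro x hx
      exact congrArg (fun f : W2 →ₗ[k] V => f ⟨x, hx⟩) e2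

variable {ω : V →ₗ[k] V →ₗ[k] k} {ν : k}

/-- restriction count on a nondegenerate subspace -/
theorem roots_on (hν : ¬ IsSquare ν) (S : Set (V →ₗ[k] V)) (hS : ∀ J ∈ S, J ∈ Roots k ω ν)
    (W : Submodule k V) (hW : NonDeg (resForm ω W)) (a : ℕ) (ha : finrank k W = 2 * a) :
    {A : W →ₗ[k] W | ∃ J ∈ S, ∀ w : W, (A w : V) = J w}.ncard ≤ Fintype.card k ^ (2 * tri a) := by
  have hν' : ¬ IsSquare (algebraMap k k ν) := hν
  have h1 := root_count_all (V := W) k hW hν' a (by rw [finrank_self, one_mul, ha])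
  rw [finrank_self, one_mul] at h1
  refine le_trans (Set.ncard_le_ncard ?_ (Set.toFinite _)) h1
  rintro A ⟨J, hJ, hA⟩
  have hJ' := hS J hJ
  refine ⟨fun x y => ?_, fun w => ?_, fun r x => A.map_smul r x⟩
  · rw [resForm_apply, resForm_apply, hA, hA, hJ'.1]
  · ext
    rw [hA, hA, hJ'.2.1]
    rfl

variable {R : Type} [Field R] [Fintype R] [Algebra k R] [Module R V] [IsScalarTower k R V]
  {τ : R ≃ₐ[k] R} {n : ℕ}

theorem pow_three (g : V →ₗ[k] V) (x : V) : (g ^ 3 : Module.End k V) x = g (g (g x)) := rfl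

/-- characteristic three -/
theorem three_char (hω : NonDeg ω) (hν : ¬ IsSquare ν) (hτ : τ ≠ 1) (ht : finrank k R = 3)
    {g : V →ₗ[k] V} (hg : g ∈ HH ω 3 τ) (hn : finrank k V = 3 * (2 * n)) (h3 : (3 : k) = 0) :
    {J ∈ Roots k ω ν | ∀ x, J (g x) = g (J x)}.ncard ≤ Fintype.card k ^ (6 * tri n) := by
  have hν0 : ν ≠ 0 := by rintro rfl; exact hν IsSquare.zero
  have h3v : ∀ v : V, v + v + v = 0 := by
    intro v
    have : v + v + v = (3 : k) • v := by
      rw [show (3 : k) = 1 + 1 + 1 by norm_num, add_smul, add_smul, one_smul]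
    rw [this, h3, zero_smul]
  obtain ⟨y, hy⟩ : ∃ y : V →ₗ[k] V, ∀ x, y x = g x - x := ⟨g - LinearMap.id, fun x => rfl⟩
  have hyyy : ∀ x, y (y (y x)) = 0 := by
    intro x
    simp only [hy, map_sub]
    have h1 : g (g (g x)) = x := by
      have := hg.1.2 x
      rwa [pow_three] at this
    rw [h1]
    have e1 := h3v (g x)
    have e2 := h3v (g (g x))
    calc x - g (g x) - (g (g x) - g x) - (g (g x) - g x - (g x - x))
        = (g x + g x + g x) - (g (g x) + g (g x) + g (g x)) := by abel
      _ = 0 := by rw [e1, e2, sub_zero]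
  have hker : finrank k (LinearMap.ker y) = 2 * n := by
    have h1 := finrank_V0 hτ ht Nat.prime_three hg.1 (2 * n) hn
    have : LinearMap.ker y = V0 g := by
      ext x
      rw [LinearMap.mem_ker, mem_V0, hy, sub_eq_zero]
    rw [this]; exact h1
  -- ker y = y² V
  have hfree : ∀ x, y x = 0 → ∃ v, y (y v) = x := by
    have h1 := LinearMap.finrank_range_add_finrank_ker y
    have h2 := LinearMap.finrank_range_add_finrank_ker (y.domRestrict (LinearMap.range y))
    have h4 : finrank k (LinearMap.ker (y.domRestrict (LinearMap.range y))) ≤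
        finrank k (LinearMap.ker y) := by
      let f : LinearMap.ker (y.domRestrict (LinearMap.range y)) →ₗ[k] LinearMap.ker y :=
        { toFun := fun x => ⟨x.1.1, x.2⟩
          map_add' := fun a b => rfl
          map_smul' := fun c a => rfl }
      apply LinearMap.finrank_le_finrank_of_injective (f := f)
      intro a b hab
      have h7 : ((f a : LinearMap.ker y) : V) = ((f b : LinearMap.ker y) : V) := by rw [hab]
      exact Subtype.ext (Subtype.ext h7)
    have h5 : LinearMap.range (y.domRestrict (LinearMap.range y)) ≤ LinearMap.ker y := by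
      rintro _ ⟨⟨_, v, rfl⟩, rfl⟩
      exact hyyy v
    have h6 := Submodule.eq_of_le_of_finrank_le h5 (by
      rw [hker] at *
      rw [hn] at h1
      omega)
    intro x hx
    have hx' : x ∈ LinearMap.range (y.domRestrict (LinearMap.range y)) := by
      rw [h6]; exact hx
    obtain ⟨⟨_, v, rfl⟩, hv⟩ := hx'
    exact ⟨v, hv⟩
  by_cases hne : {J ∈ Roots k ω ν | ∀ x, J (g x) = g (J x)}.Nonempty
  swap
  · rw [Set.not_nonempty_iff_eq_empty] at hne
    rw [hne, Set.ncard_empty]
    exact Nat.zero_le _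
  obtain ⟨f0, hf0⟩ := hne
  have h := seq_uniform {J ∈ Roots k ω ν | ∀ x, J (g x) = g (J x)} 6 (finrank k V) (by norm_num)
    rfl (fun J X => (∀ x ∈ X, y x ∈ X) ∧ (∀ x ∈ X, J x ∈ X) ∧
      ∀ x ∈ X, y x = 0 → ∃ v ∈ X, y (y v) = x) ?_ n f0 ⊥ hf0 ⟨?_, ?_, ?_⟩
      (by rw [finrank_bot, zero_add, hn]; ring)
  · refine le_trans (Set.ncard_le_ncard ?_ (Set.toFinite _)) h
    intro f hf
    refine ⟨hf, fun x hx => ?_⟩
    rw [Submodule.mem_bot] at hx
    rw [hx, map_zero, map_zero]
  · rintro J1 ⟨hJ1, hJ1g⟩ X ⟨hXy, hXJ, hXP⟩ hXt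
    -- a vector with y² v ∉ X
    obtain ⟨v, hv⟩ : ∃ v, y (y v) ∉ X := by
      by_contra hcon
      push Not at hcon
      apply hXt
      rw [Submodule.eq_top_iff']
      have hkerX : ∀ x, y x = 0 → x ∈ X := by
        intro x hx
        obtain ⟨v, rfl⟩ := hfree x hx
        exact hcon v
      intro v
      obtain ⟨a, ha, hav⟩ := hXP (y (y v)) (hcon v) (hyyy v)
      have h1 : y (y (v - a)) = 0 := by rw [map_sub, map_sub, hav, sub_self]
      obtain ⟨b, hb, hbv⟩ := hXP (y (v - a)) (hkerX _ h1) h1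
      have h2 : y (v - a - y b) = 0 := by rw [map_sub, hbv, sub_self]
      have h4 := hkerX _ h2
      have h5 : v = (v - a - y b) + a + y b := by abel
      rw [h5]
      exact X.add_mem (X.add_mem h4 ha) (hXy b hb)
    refine ⟨v, {w : V | ∀ x ∈ X, ω x w = - ω (J1 x) v}, card_affine hω X _, ?_, ?_⟩
    · rintro J ⟨hJ, _⟩ hag x hx
      rw [← hag x hx, hJ.1, neg_neg]
    · rintro J2 ⟨hJ2, hJ2g⟩ hag
      have hJ2y : ∀ x, J2 (y x) = y (J2 x) := by
        intro x; rw [hy, hy, map_sub, hJ2g]
      have hX2 : ∀ x ∈ X, J2 x ∈ X := fun x hx => by rw [hag x hx]; exact hXJ x hx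
      -- independence of b, J2 b mod X
      have hind : ∀ a a' : k, a • y (y v) + a' • y (y (J2 v)) ∈ X → a = 0 ∧ a' = 0 := by
        intro a a' hx
        have hJb : y (y (J2 v)) = J2 (y (y v)) := by rw [hJ2y, hJ2y]
        rw [hJb] at hx
        by_cases ha' : a' = 0
        · subst ha'
          rw [zero_smul, add_zero] at hx
          refine ⟨?_, rfl⟩
          by_contra ha
          apply hv
          have := X.smul_mem a⁻¹ hx
          rwa [smul_smul, inv_mul_cancel₀ ha, one_smul] at this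
        · exfalso
          -- J2 b ≡ c b, so ν b ≡ c² b
          have h1 : (a / a') • y (y v) + J2 (y (y v)) ∈ X := by
            have h2 := X.smul_mem a'⁻¹ hx
            rw [smul_add, smul_smul, smul_smul, inv_mul_cancel₀ ha', one_smul, inv_mul_eq_div] at h2
            exact h2
          have h2 := hX2 _ h1
          rw [map_add, map_smul, hJ2.2.1] at h2
          have h4 := X.smul_mem (a / a') h1
          have h5 := X.sub_mem h4 h2
          have h6 : (a / a') • ((a / a') • y (y v) + J2 (y (y v)))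
              - ((a / a') • J2 (y (y v)) + ν • y (y v))
              = ((a / a') * (a / a') - ν) • y (y v) := by module
          rw [h6] at h5
          by_cases hc : (a / a') * (a / a') - ν = 0
          · exact hν ⟨a / a', (sub_eq_zero.mp hc).symm⟩
          · apply hv
            have := X.smul_mem ((a / a') * (a / a') - ν)⁻¹ h5
            rwa [smul_smul, inv_mul_cancel₀ hc, one_smul] at this
      -- full independence
      have hful : ∀ a b c a' b' c' : k, a • v + b • y v + c • y (y v) + a' • J2 v + b' • y (J2 v)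
          + c' • y (y (J2 v)) ∈ X → a = 0 ∧ b = 0 ∧ c = 0 ∧ a' = 0 ∧ b' = 0 ∧ c' = 0 := by
        intro a b c a' b' c' hx
        have h1 := hXy _ (hXy _ hx)
        simp only [map_add, map_smul, hyyy, map_zero, smul_zero, add_zero] at h1
        obtain ⟨rfl, rfl⟩ := hind a a' h1
        have h2 := hXy _ hx
        simp only [map_add, map_smul, hyyy, map_zero, smul_zero, add_zero, zero_smul,
          zero_add] at h2
        obtain ⟨rfl, rfl⟩ := hind b b' h2
        simp only [zero_smul, zero_add, add_zero] at hx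
        obtain ⟨rfl, rfl⟩ := hind c c' hx
        exact ⟨rfl, rfl, rfl, rfl, rfl, rfl⟩
      let u : Fin 6 → V := ![v, y v, y (y v), J2 v, y (J2 v), y (y (J2 v))]
      have hsum : ∀ c : Fin 6 → k, ∑ i, c i • u i = c 0 • v + c 1 • y v + c 2 • y (y v)
          + c 3 • J2 v + c 4 • y (J2 v) + c 5 • y (y (J2 v)) := by
        intro c
        simp [Fin.sum_univ_succ, u]
        abel
      have hli : LinearIndependent k u := by
        rw [Fintype.linearIndependent_iff]
        intro c hc i
        rw [hsum] at hc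
        obtain ⟨e0, e1, e2, e3, e4, e5⟩ := hful _ _ _ _ _ _ (by rw [hc]; exact X.zero_mem)
        fin_cases i <;> assumption
      have hrank : finrank k (Submodule.span k (Set.range u)) = 6 := by
        rw [finrank_span_eq_card hli, Fintype.card_fin]
      have hmemP : ∀ z, z ∈ Submodule.span k (Set.range u) ↔ ∃ c : Fin 6 → k,
          c 0 • v + c 1 • y v + c 2 • y (y v) + c 3 • J2 v + c 4 • y (J2 v)
            + c 5 • y (y (J2 v)) = z := by
        intro z
        rw [Submodule.mem_span_range_iff_exists_fun]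
        constructor
        · rintro ⟨c, hc⟩; exact ⟨c, by rw [← hsum]; exact hc⟩
        · rintro ⟨c, hc⟩; exact ⟨c, by rw [hsum]; exact hc⟩
      have hinf : X ⊓ Submodule.span k (Set.range u) = ⊥ := by
        rw [Submodule.eq_bot_iff]
        rintro z ⟨hz1, hz2⟩
        obtain ⟨c, rfl⟩ := (hmemP z).mp hz2
        obtain ⟨e0, e1, e2, e3, e4, e5⟩ := hful _ _ _ _ _ _ hz1
        rw [e0, e1, e2, e3, e4, e5]
        simp
      have hPy : ∀ z ∈ Submodule.span k (Set.range u), y z ∈ Submodule.span k (Set.range u) := by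
        intro z hz
        obtain ⟨c, rfl⟩ := (hmemP z).mp hz
        rw [hmemP]
        refine ⟨![0, c 0, c 1, 0, c 3, c 4], ?_⟩
        simp [hyyy]
      have hPJ : ∀ z ∈ Submodule.span k (Set.range u), J2 z ∈ Submodule.span k (Set.range u) := by
        intro z hz
        obtain ⟨c, rfl⟩ := (hmemP z).mp hz
        rw [hmemP]
        refine ⟨![ν * c 3, ν * c 4, ν * c 5, c 0, c 1, c 2], ?_⟩
        simp only [map_add, map_smul, hJ2y, hJ2.2.1]
        simp
        module
      refine ⟨X ⊔ Submodule.span k (Set.range u), ⟨?_, ?_, ?_⟩, ?_, ?_⟩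
      · intro z hz
        obtain ⟨a, ha, b, hb, rfl⟩ := Submodule.mem_sup.mp hz
        rw [map_add]
        exact Submodule.add_mem_sup (hXy a ha) (hPy b hb)
      · intro z hz
        obtain ⟨a, ha, b, hb, rfl⟩ := Submodule.mem_sup.mp hz
        rw [map_add]
        exact Submodule.add_mem_sup (hX2 a ha) (hPJ b hb)
      · intro z hz hz0
        obtain ⟨a, ha, b, hb, rfl⟩ := Submodule.mem_sup.mp hz
        rw [map_add] at hz0
        have h1 : y b ∈ X := by
          have : y b = -(y a) := eq_neg_of_add_eq_zero_right hz0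
          rw [this]; exact X.neg_mem (hXy a ha)
        obtain ⟨c, rfl⟩ := (hmemP b).mp hb
        have h2 : y (c 0 • v + c 1 • y v + c 2 • y (y v) + c 3 • J2 v + c 4 • y (J2 v)
            + c 5 • y (y (J2 v))) = (0 : k) • v + c 0 • y v + c 1 • y (y v) + (0 : k) • J2 v
              + c 3 • y (J2 v) + c 4 • y (y (J2 v)) := by
          simp [hyyy]
        rw [h2] at h1
        obtain ⟨-, e0, e1, -, e3, e4⟩ := hful _ _ _ _ _ _ h1
        have h4 : y (c 0 • v + c 1 • y v + c 2 • y (y v) + c 3 • J2 v + c 4 • y (J2 v)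
            + c 5 • y (y (J2 v))) = 0 := by
          rw [h2, e0, e1, e3, e4]; simp
        rw [h4, add_zero] at hz0
        obtain ⟨a', ha', ha2⟩ := hXP a ha hz0
        refine ⟨a' + (c 2 • v + c 5 • J2 v), Submodule.add_mem_sup ha' ?_, ?_⟩
        · rw [hmemP]
          exact ⟨![c 2, 0, 0, c 5, 0, 0], by simp⟩
        · rw [map_add, map_add, ha2, e0, e1, e3, e4]
          simp
      · have := Submodule.finrank_sup_add_finrank_inf_eq X (Submodule.span k (Set.range u))
        rw [hinf, finrank_bot, hrank] at this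
        exact this
      · rintro J ⟨hJ, hJg⟩ hag' hJv
        have hJy : ∀ x, J (y x) = y (J x) := by
          intro x; rw [hy, hy, map_sub, hJg]
        apply agree_sup
        · intro x hx
          rw [hag' x hx, hag x hx]
        · intro z hz
          obtain ⟨c, rfl⟩ := (hmemP z).mp hz
          have e1 : J (J2 v) = J2 (J2 v) := by rw [← hJv, hJ.2.1, hJv, hJ2.2.1]
          simp only [map_add, map_smul, hJy, hJ2y, hJv, e1]
  · intro x hx
    rw [Submodule.mem_bot] at hx ⊢
    rw [hx, map_zero]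
  · intro x hx
    rw [Submodule.mem_bot] at hx ⊢
    rw [hx, map_zero]
  · intro x hx _
    rw [Submodule.mem_bot] at hx
    exact ⟨0, Submodule.zero_mem _, by rw [hx, map_zero, map_zero]⟩

end

end Pool.Agent.H330.Count
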