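import Pool.Agent.H330.CountThree

set_option linter.unusedSectionVars false
set_option linter.unusedVariables false

/-!
# Skew roots commuting with a semilinear isometry of order three, characteristic not three
-/

namespace Pool.Agent.H330.Count

open Module Finset

section

variable {k V : Type} [Field k] [Fintype k] [AddCommGroup V] [Module k V] [Finite V]
variable {ω : V →ₗ[k] V →ₗ[k] k} {ν : k}
variable {R : Type} [Field R] [Fintype R] [Algebra k R] [Module R V] [IsScalarTower k R V]
  {τ : R ≃ₐ[k] R} {n : ℕ}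

theorem ggg {g : V →ₗ[k] V} (hg : g ∈ HH ω 3 τ) (x : V) : g (g (g x)) = x := by
  have := hg.1.2 x
  rwa [pow_three] at this

/-- the norm-type projection -/
theorem V0_nondeg (hω : NonDeg ω) {g : V →ₗ[k] V} (hg : g ∈ HH ω 3 τ) (h3 : (3 : k) ≠ 0) :
    NonDeg (resForm ω (V0 g)) := by
  intro x hx
  apply Subtype.ext
  apply hω
  intro v
  have h1 : (v + g v + g (g v)) ∈ V0 g := by
    rw [mem_V0, map_add, map_add, ggg hg]; abel
  have h2 := hx ⟨_, h1⟩
  rw [resForm_apply] at h2
  have hgx : g (x : V) = x := x.2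
  have e1 : ω x (g v) = ω x v := by
    have := hg.2 x v
    rwa [hgx] at this
  have e2 : ω x (g (g v)) = ω x v := by
    have := hg.2 x (g v)
    rw [hgx] at this
    rw [this, e1]
  have h4 : ω x (v + g v + g (g v)) = 3 * ω x v := by
    rw [map_add, map_add, e1, e2]; ring
  have h5 : ω (x : V) (v + g v + g (g v)) = 0 := h2
  rw [h4] at h5
  exact (mul_eq_zero.mp h5).resolve_left h3

/-- the kernel of `1 + g + g²` -/
def WW (g : V →ₗ[k] V) : Submodule k V := LinearMap.ker (LinearMap.id + g + g ∘ₗ g)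

theorem mem_WW {g : V →ₗ[k] V} {x : V} : x ∈ WW g ↔ x + g x + g (g x) = 0 := by
  unfold WW
  rw [LinearMap.mem_ker]
  rfl

theorem split_three {g : V →ₗ[k] V} (hg : g ∈ HH ω 3 τ) (h3 : (3 : k) ≠ 0) (v : V) :
    ∃ a ∈ V0 g, ∃ b ∈ WW g, v = a + b := by
  have h1 : (v + g v + g (g v)) ∈ V0 g := by
    rw [mem_V0, map_add, map_add, ggg hg]; abel
  refine ⟨(3 : k)⁻¹ • (v + g v + g (g v)), (V0 g).smul_mem _ h1,
    v - (3 : k)⁻¹ • (v + g v + g (g v)), ?_, by abel⟩
  rw [mem_WW]
  have h2 := (V0 g).smul_mem (3 : k)⁻¹ h1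
  rw [mem_V0] at h2
  rw [map_sub, map_sub, h2, h2]
  have h4 : v - (3 : k)⁻¹ • (v + g v + g (g v)) + (g v - (3 : k)⁻¹ • (v + g v + g (g v)))
      + (g (g v) - (3 : k)⁻¹ • (v + g v + g (g v)))
      = (v + g v + g (g v)) - (3 : k) • ((3 : k)⁻¹ • (v + g v + g (g v))) := by module
  rw [h4, smul_smul, mul_inv_cancel₀ h3, one_smul, sub_self]

theorem WW_nondeg (hω : NonDeg ω) {g : V →ₗ[k] V} (hg : g ∈ HH ω 3 τ) (h3 : (3 : k) ≠ 0) :
    NonDeg (resForm ω (WW g)) := by
  intro x hx
  apply Subtype.ext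
  apply hω
  intro v
  obtain ⟨a, ha, b, hb, rfl⟩ := split_three hg h3 v
  rw [map_add]
  have h1 : ω (x : V) b = 0 := hx ⟨b, hb⟩
  rw [h1, add_zero]
  rw [mem_V0] at ha
  have hx0 := mem_WW.mp x.2
  have e1 : ω (g x) a = ω x a := by
    have := hg.2 x a
    rwa [ha] at this
  have e2 : ω (g (g x)) a = ω x a := by
    have := hg.2 (g x) a
    rw [ha] at this
    rw [this, e1]
  have h4 : ω ((x : V) + g x + g (g x)) a = 3 * ω x a := by
    rw [map_add, map_add, LinearMap.add_apply, LinearMap.add_apply, e1, e2]; ring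
  rw [hx0, map_zero, LinearMap.zero_apply] at h4
  exact (mul_eq_zero.mp h4.symm).resolve_left h3

theorem finrank_WW (hτ : τ ≠ 1) (ht : finrank k R = 3)
    {g : V →ₗ[k] V} (hg : g ∈ HH ω 3 τ) (hn : finrank k V = 3 * (2 * n)) (h3 : (3 : k) ≠ 0) :
    finrank k (WW g) = 2 * (2 * n) := by
  have h1 := finrank_V0 hτ ht Nat.prime_three hg.1 (2 * n) hn
  have h2 : V0 g ⊔ WW g = ⊤ := by
    rw [Submodule.eq_top_iff']
    intro v
    obtain ⟨a, ha, b, hb, rfl⟩ := split_three hg h3 v
    exact Submodule.add_mem_sup ha hb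
  have h4 : V0 g ⊓ WW g = ⊥ := by
    rw [Submodule.eq_bot_iff]
    rintro x ⟨hx1, hx2⟩
    have hx1' : g x = x := hx1
    have hx2' := mem_WW.mp hx2
    rw [hx1', hx1'] at hx2'
    have : (3 : k) • x = 0 := by
      rw [show (3 : k) = 1 + 1 + 1 by norm_num, add_smul, add_smul, one_smul, hx2']
    exact (smul_eq_zero.mp this).resolve_left h3
  have h5 := Submodule.finrank_sup_add_finrank_inf_eq (V0 g) (WW g)
  rw [h2, h4, finrank_top, finrank_bot, h1, hn] at h5
  omega

/-- `-3` is not a square -/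
theorem three_nonsq (hω : NonDeg ω) (hsw : ∀ x y, ω y x = - ω x y) (h2 : (2 : k) ≠ 0)
    (hq : 3 ≤ Fintype.card k)
    (hν : ¬ IsSquare ν) (hτ : τ ≠ 1) (ht : finrank k R = 3)
    {g : V →ₗ[k] V} (hg : g ∈ HH ω 3 τ) (hn : finrank k V = 3 * (2 * n)) (h3 : (3 : k) ≠ 0)
    (hs : ¬ IsSquare (-3 : k)) :
    {J ∈ Roots k ω ν | ∀ x, J (g x) = g (J x)}.ncard
      ≤ Fintype.card k ^ (2 * tri n) * ((2 * n + 1) * (2 * Fintype.card k ^ ((2 * n) * (2 * n) / 2))) := by
  have hcomm : ∀ J ∈ {J ∈ Roots k ω ν | ∀ x, J (g x) = g (J x)}, ∀ x, J (g x) = g (J x) :=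
    fun J hJ => hJ.2
  apply two_restrict _ (V0 g) (WW g)
  · rintro J ⟨hJ, hJg⟩
    constructor
    · intro x hx
      have hx' : g x = x := hx
      rw [mem_V0, ← hJg, hx']
    · intro x hx
      rw [mem_WW] at hx ⊢
      rw [← hJg, ← hJg, ← map_add, ← map_add, hx, map_zero]
  · rintro J ⟨hJ, hJg⟩ J' ⟨hJ', hJg'⟩ h1 h4
    ext v
    obtain ⟨a, ha, b, hb, rfl⟩ := split_three hg h3 v
    rw [map_add, map_add, h1 a ha, h4 b hb]
  · exact roots_on hν _ (fun J hJ => hJ.1) (V0 g) (V0_nondeg hω hg h3) n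
      (finrank_V0 hτ ht Nat.prime_three hg.1 (2 * n) hn)
  · have hW := WW_nondeg hω hg h3
    have hWr := finrank_WW hτ ht hg hn h3
    obtain ⟨d, hd⟩ := nonsq_mul hν hs
    have h9 : (3 : k) * 3 ≠ 0 := mul_ne_zero h3 h3
    have hgW : ∀ x ∈ WW g, g x ∈ WW g := by
      intro x hx
      rw [mem_WW] at hx ⊢
      rw [← map_add, ← map_add, hx, map_zero]
    obtain ⟨J0, hJ0⟩ : ∃ J0 : WW g →ₗ[k] WW g, ∀ x : WW g,
        ((J0 x : WW g) : V) = (d / 3) • (g x - g (g x)) := by
      refine ⟨(d / 3) • (g.restrict hgW - g.restrict hgW ∘ₗ g.restrict hgW), fun x => rfl⟩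
    have hJ0R : J0 ∈ Roots k (resForm ω (WW g)) ν := by
      refine ⟨fun x y => ?_, fun x => ?_, fun r x => J0.map_smul r x⟩
      · rw [resForm_apply, resForm_apply, hJ0, hJ0, map_smul, map_smul, map_sub, map_sub,
          LinearMap.smul_apply, LinearMap.sub_apply]
        have e1 : ω (g x) y = ω (x : V) (g (g y)) := by
          rw [← hg.2 (x : V) (g (g y)), ggg hg]
        have e2 : ω (g (g x)) y = ω (x : V) (g y) := by
          rw [← hg.2 (x : V) (g y), ← hg.2 (g x) (g (g y)), ggg hg]
        rw [e1, e2, smul_eq_mul, smul_eq_mul]; ring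
      · ext
        rw [hJ0, hJ0]
        have hx := mem_WW.mp x.2
        simp only [map_smul, map_sub, ggg hg]
        have hgg : g (g (x : V)) = - (x : V) - g x := by
          rw [eq_sub_iff_add_eq, eq_neg_iff_add_eq_zero, ← hx]; abel
        change _ = ν • (x : V)
        rw [hgg]
        have : d / 3 * (d / 3) * (-3) = ν := by
          have : ν = d * d / (-3) := by
            rw [← hd, mul_div_assoc, div_self (by
              intro h0
              apply h3
              linear_combination -h0), mul_one]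
          rw [this]
          field_simp
        rw [← this]
        module
    refine le_trans (Set.ncard_le_ncard ?_ (Set.toFinite _))
      (comm_count hW (fun x y => hsw x y) h2 hν (2 * n) hWr hJ0R hq)
    rintro A ⟨J, hJ, hA⟩
    refine ⟨⟨fun x y => ?_, fun w => ?_, fun r x => A.map_smul r x⟩, fun x => ?_⟩
    · rw [resForm_apply, resForm_apply, hA, hA, hJ.1.1]
    · ext
      rw [hA, hA, hJ.1.2.1]
      rfl
    · ext
      rw [hA, hJ0, hJ0, hA, map_smul, map_sub, hcomm J hJ, hcomm J hJ, hcomm J hJ]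

/-- a primitive cube root of unity in `k` -/
theorem three_sq (hω : NonDeg ω) (hν : ¬ IsSquare ν) (hτ : τ ≠ 1) (ht : finrank k R = 3)
    {g : V →ₗ[k] V} (hg : g ∈ HH ω 3 τ) (hn : finrank k V = 3 * (2 * n)) (h3 : (3 : k) ≠ 0)
    {w : k} (hw : w * w + w + 1 = 0) :
    {J ∈ Roots k ω ν | ∀ x, J (g x) = g (J x)}.ncard
      ≤ Fintype.card k ^ (2 * tri n) * Fintype.card k ^ (2 * (n * n)) := by
  have hw1 : w ≠ 1 := by
    rintro rfl
    apply h3
    linear_combination hw
  have hw0 : w ≠ 0 := by
    rintro rfl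
    simp at hw
  have hww1 : w * w - 1 ≠ 0 := by
    intro h
    apply h3
    linear_combination (w - 1) * h - (w - 2) * hw
  have hw3 : w * w * w = 1 := by linear_combination (w - 1) * hw
  have hV0 := finrank_V0 hτ ht Nat.prime_three hg.1 (2 * n) hn
  -- Lagrange resolvent
  obtain ⟨θ, hθ0, hθ⟩ : ∃ θ : R, θ ≠ 0 ∧ τ θ = algebraMap k R w * θ := by
    by_contra hcon
    push Not at hcon
    have h1 : ∀ r : R, r + algebraMap k R (w * w) * τ r + algebraMap k R w * τ (τ r) = 0 := by
      intro r
      by_contra hne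
      apply hcon _ hne
      have hτ3 : τ (τ (τ r)) = r := by
        have h2 := tau_order τ hτ ht Nat.prime_three
        have h4 : τ ^ 3 = 1 := by rw [← h2]; exact pow_orderOf_eq_one τ
        have := congrArg (fun f : R ≃ₐ[k] R => f r) h4
        exact this
      simp only [map_add, map_mul, AlgEquiv.commutes, hτ3]
      have h5 : algebraMap k R w * (algebraMap k R w * algebraMap k R w) = 1 := by
        rw [← map_mul, ← map_mul, ← mul_assoc, hw3, map_one]
      linear_combination (-(τ r)) * h5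
    have h2 := Fintype.linearIndependent_iff.mp (tau_indep τ hτ ht Nat.prime_three)
      ![1, algebraMap k R (w * w), algebraMap k R w] (by
        ext r
        simp only [Fin.sum_univ_three, Pi.add_apply, Pi.smul_apply, smul_eq_mul, Pi.zero_apply]
        have := h1 r
        simpa [pow_two, AlgEquiv.mul_apply] using this)
    have h4 := h2 0
    simp at h4
  -- dimension of the eigenspace
  have hdim : finrank k (eig g w) = 2 * n := by
    rw [← hV0]
    apply le_antisymm
    · let f : eig g w →ₗ[k] V0 g :=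
        { toFun := fun x => ⟨θ⁻¹ • (x : V), by
            rw [mem_V0, hg.1.1, map_inv₀, hθ, (mem_eig.mp x.2), ← algebraMap_smul R w (x : V),
              smul_smul]
            congr 1
            have : algebraMap k R w ≠ 0 := by simpa using hw0
            field_simp⟩
          map_add' := fun a b => by
            ext
            change θ⁻¹ • ((a : V) + b) = θ⁻¹ • (a : V) + θ⁻¹ • (b : V)
            rw [smul_add]
          map_smul' := fun c a => by
            ext
            change θ⁻¹ • (c • (a : V)) = c • (θ⁻¹ • (a : V))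
            rw [smul_comm] }
      apply LinearMap.finrank_le_finrank_of_injective (f := f)
      intro a b hab
      have h7 : ((f a : V0 g) : V) = ((f b : V0 g) : V) := by rw [hab]
      have h8 : θ⁻¹ • (a : V) = θ⁻¹ • (b : V) := h7
      exact Subtype.ext (smul_right_injective V (inv_ne_zero hθ0) h8)
    · let f : V0 g →ₗ[k] eig g w :=
        { toFun := fun x => ⟨θ • (x : V), by
            rw [mem_eig, hg.1.1, hθ, (mem_V0.mp x.2), mul_smul, algebraMap_smul]⟩
          map_add' := fun a b => by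
            ext
            change θ • ((a : V) + b) = θ • (a : V) + θ • (b : V)
            rw [smul_add]
          map_smul' := fun c a => by
            ext
            change θ • (c • (a : V)) = c • (θ • (a : V))
            rw [smul_comm] }
      apply LinearMap.finrank_le_finrank_of_injective (f := f)
      intro a b hab
      have h7 : ((f a : eig g w) : V) = ((f b : eig g w) : V) := by rw [hab]
      have h8 : θ • (a : V) = θ • (b : V) := h7
      exact Subtype.ext (smul_right_injective V hθ0 h8)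
  -- splitting
  have hsplit : ∀ v : V, ∃ a ∈ V0 g, ∃ b ∈ eig g w, ∃ c ∈ eig g (w * w), v = a + b + c := by
    intro v
    refine ⟨(3 : k)⁻¹ • (v + g v + g (g v)), ?_,
      (3 : k)⁻¹ • (v + (w * w) • g v + w • g (g v)), ?_,
      (3 : k)⁻¹ • (v + w • g v + (w * w) • g (g v)), ?_, ?_⟩
    · rw [mem_V0]
      simp only [map_smul, map_add, ggg hg]
      congr 1; abel
    · rw [mem_eig]
      simp only [map_smul, map_add, ggg hg]
      have e : w • ((3 : k)⁻¹ • (v + (w * w) • g v + w • g (g v)))
          = (3 : k)⁻¹ • (w • v + (w * w * w) • g v + (w * w) • g (g v)) := by module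
      rw [e, hw3, one_smul]
      congr 1; abel
    · rw [mem_eig]
      simp only [map_smul, map_add, ggg hg]
      have e : (w * w) • ((3 : k)⁻¹ • (v + w • g v + (w * w) • g (g v)))
          = (3 : k)⁻¹ • ((w * w) • v + (w * w * w) • g v + ((w * w * w) * w) • g (g v)) := by
        module
      rw [e, hw3, one_smul, one_mul]
      congr 1; abel
    · have e : (3 : k)⁻¹ • (v + g v + g (g v)) + (3 : k)⁻¹ • (v + (w * w) • g v + w • g (g v))
          + (3 : k)⁻¹ • (v + w • g v + (w * w) • g (g v))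
          = ((3 : k)⁻¹ * 3) • v + ((3 : k)⁻¹ * (w * w + w + 1)) • g v
            + ((3 : k)⁻¹ * (w * w + w + 1)) • g (g v) := by module
      rw [e, hw, inv_mul_cancel₀ h3, mul_zero, zero_smul, zero_smul, one_smul, add_zero, add_zero]
  apply two_restrict _ (V0 g) (eig g w)
  · rintro J ⟨hJ, hJg⟩
    constructor
    · intro x hx
      have hx' : g x = x := hx
      rw [mem_V0, ← hJg, hx']
    · intro x hx
      rw [mem_eig] at hx ⊢
      rw [← hJg, hx, map_smul]
  · rintro J ⟨hJ, hJg⟩ J' ⟨hJ', hJg'⟩ h1 h4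
    have h5 : ∀ z ∈ eig g (w * w), J z = J' z := by
      intro z hz
      rw [← sub_eq_zero]
      apply hω
      intro v
      have hz' := mem_eig.mp hz
      have hd : g (J z - J' z) = (w * w) • (J z - J' z) := by
        rw [map_sub, ← hJg, ← hJg', hz', map_smul, map_smul, smul_sub]
      obtain ⟨a, ha, b, hb, c, hc, rfl⟩ := hsplit v
      rw [mem_V0] at ha
      have hb' := mem_eig.mp hb
      rw [mem_eig] at hc
      have e1 : ω (J z - J' z) a = 0 := by
        have := hg.2 (J z - J' z) a
        rw [hd, ha, map_smul, LinearMap.smul_apply, smul_eq_mul] at this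
        have h6 : (w * w - 1) * ω (J z - J' z) a = 0 := by linear_combination this
        exact (mul_eq_zero.mp h6).resolve_left hww1
      have e2 : ω (J z - J' z) b = 0 := by
        rw [map_sub, LinearMap.sub_apply, hJ.1, hJ'.1, h4 b hb, sub_self]
      have e3 : ω (J z - J' z) c = 0 := by
        have := hg.2 (J z - J' z) c
        rw [hd, hc, map_smul, map_smul, LinearMap.smul_apply, smul_eq_mul, smul_eq_mul] at this
        have h6 : (w - 1) * ω (J z - J' z) c = 0 := by
          linear_combination this - (w * ω (J z - J' z) c) * hw3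
        exact (mul_eq_zero.mp h6).resolve_left (sub_ne_zero.mpr hw1)
      rw [map_add, map_add, e1, e2, e3]; ring
    ext v
    obtain ⟨a, ha, b, hb, c, hc, rfl⟩ := hsplit v
    rw [map_add, map_add, map_add, map_add, h1 a ha, h4 b hb, h5 c hc]
  · exact roots_on hν _ (fun J hJ => hJ.1) (V0 g) (V0_nondeg hω hg h3) n hV0
  · refine le_trans (Set.ncard_le_ncard ?_ (Set.toFinite _)) (sq_count hν n hdim)
    rintro A ⟨J, hJ, hA⟩ x
    ext
    rw [hA, hA, hJ.1.2.1]
    rfl

/-- all characteristics -/
theorem three_all (hω : NonDeg ω) (hsw : ∀ x y, ω y x = - ω x y) (h2 : (2 : k) ≠ 0)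
    (hq : 3 ≤ Fintype.card k)
    (hν : ¬ IsSquare ν) (hτ : τ ≠ 1) (ht : finrank k R = 3)
    {g : V →ₗ[k] V} (hg : g ∈ HH ω 3 τ) (hn : finrank k V = 3 * (2 * n)) :
    {J ∈ Roots k ω ν | ∀ x, J (g x) = g (J x)}.ncard
      ≤ (4 * n + 2) * Fintype.card k ^ (3 * (n * n) + 3 * n) := by
  have hq0 : 0 < Fintype.card k := by omega
  have htri := tri_two n
  by_cases h3 : (3 : k) = 0
  · refine (three_char hω hν hτ ht hg hn h3).trans ?_
    have : 6 * tri n = 3 * (n * n) + 3 * n := by linarith
    rw [this]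
    exact Nat.le_mul_of_pos_left _ (by omega)
  · by_cases hs : IsSquare (-3 : k)
    · obtain ⟨d, hd⟩ := hs
      have hw : ((d - 1) / 2) * ((d - 1) / 2) + (d - 1) / 2 + 1 = 0 := by
        field_simp
        linear_combination -hd
      refine (three_sq hω hν hτ ht hg hn h3 hw).trans ?_
      rw [← pow_add, htri]
      refine le_trans (Nat.pow_le_pow_right hq0 ?_) (Nat.le_mul_of_pos_left _ (by omega))
      linarith
    · refine (three_nonsq hω hsw h2 hq hν hτ ht hg hn h3 hs).trans ?_
      have e1 : 2 * n * (2 * n) / 2 = 2 * (n * n) := by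
        have : 2 * n * (2 * n) = 2 * (2 * (n * n)) := by ring
        rw [this, Nat.mul_div_cancel_left _ (by norm_num)]
      rw [e1, htri]
      calc Fintype.card k ^ (n * (n + 1)) * ((2 * n + 1) * (2 * Fintype.card k ^ (2 * (n * n))))
          = (4 * n + 2) * Fintype.card k ^ (n * (n + 1) + 2 * (n * n)) := by rw [pow_add]; ring
        _ ≤ _ := by
          apply Nat.mul_le_mul_left
          apply Nat.pow_le_pow_right hq0
          linarith

end

end Pool.Agent.H330.Count
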