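import Pool.Agent.H330.CountBadB

set_option linter.unusedSectionVars false
set_option linter.unusedVariables false

/-!
# Semilinear isometries of prime order
-/

namespace Pool.Agent.H330.Count

open Module Finset

section Gal

variable {k R : Type} [Field k] [Fintype k] [Field R] [Fintype R] [Algebra k R] {t : ℕ}
  (τ : R ≃ₐ[k] R)

theorem tau_order (hτ : τ ≠ 1) (ht : finrank k R = t) (htp : t.Prime) : orderOf τ = t := by
  have h1 : Nat.card (R ≃ₐ[k] R) = t := by rw [← ht]; exact IsGalois.card_aut_eq_finrank k R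
  have h2 : orderOf τ ∣ t := by rw [← h1]; exact orderOf_dvd_natCard τ
  rcases (Nat.dvd_prime htp).mp h2 with h | h
  · exact absurd (orderOf_eq_one_iff.mp h) hτ
  · exact h

theorem tau_gen (hτ : τ ≠ 1) (ht : finrank k R = t) (htp : t.Prime) (σ : R ≃ₐ[k] R) :
    ∃ j : ℕ, σ = τ ^ j := by
  have h1 : Nat.card (R ≃ₐ[k] R) = t := by rw [← ht]; exact IsGalois.card_aut_eq_finrank k R
  have : Fact t.Prime := ⟨htp⟩
  have h2 := mem_powers_of_prime_card h1 hτ (g' := σ)
  obtain ⟨j, hj⟩ := h2
  exact ⟨j, hj.symm⟩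

theorem tau_fix (hτ : τ ≠ 1) (ht : finrank k R = t) (htp : t.Prime) {x : R} (hx : τ x = x) :
    ∃ c : k, algebraMap k R c = x := by
  have h1 : x ∈ Set.range (algebraMap k R) := by
    rw [IsGalois.mem_range_algebraMap_iff_fixed]
    intro f
    obtain ⟨j, rfl⟩ := tau_gen τ hτ ht htp f
    induction j with
    | zero => rfl
    | succ j ih => rw [pow_succ, AlgEquiv.mul_apply, hx, ih]
  exact h1

theorem tau_indep (hτ : τ ≠ 1) (ht : finrank k R = t) (htp : t.Prime) :
    LinearIndependent R (fun j : Fin t => (fun r => (τ ^ (j : ℕ)) r : R → R)) := by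
  have h := linearIndependent_monoidHom R R
  have h2 : Function.Injective (fun j : Fin t =>
      ((τ ^ (j : ℕ) : R ≃ₐ[k] R) : R →* R)) := by
    intro i j hij
    have h3 : τ ^ (i : ℕ) = τ ^ (j : ℕ) := by
      ext x
      exact congrArg (fun f : R →* R => f x) hij
    have h4 := tau_order τ hτ ht htp
    have hi : (i : ℕ) < orderOf τ := by rw [h4]; exact i.2
    have hj : (j : ℕ) < orderOf τ := by rw [h4]; exact j.2
    exact Fin.ext (pow_injOn_Iio_orderOf hi hj h3)
  exact h.comp _ h2

theorem tau_normal (hτ : τ ≠ 1) (ht : finrank k R = t) (htp : t.Prime) :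
    ∃ θ : R, Submodule.span k (Set.range (fun j : ℕ => (τ ^ j) θ)) = ⊤ := by
  obtain ⟨θ, hθ⟩ := exists_linearIndependent_algEquiv_apply k R
  refine ⟨θ, ?_⟩
  have h1 : Nat.card (R ≃ₐ[k] R) = finrank k R := IsGalois.card_aut_eq_finrank k R
  have : Fintype (R ≃ₐ[k] R) := Fintype.ofFinite _
  rw [Nat.card_eq_fintype_card] at h1
  have h2 := hθ.span_eq_top_of_card_eq_finrank' h1
  rw [eq_top_iff, ← h2]
  apply Submodule.span_mono
  rintro _ ⟨σ, rfl⟩
  obtain ⟨j, rfl⟩ := tau_gen τ hτ ht htp σ
  exact ⟨j, rfl⟩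

end Gal

section Twist

variable {k V : Type} [Field k] [Fintype k] [AddCommGroup V] [Module k V] [Finite V]
  {R : Type} [Field R] [Fintype R] [Algebra k R] [Module R V] [IsScalarTower k R V]
  {t : ℕ} (τ : R ≃ₐ[k] R)

/-- semilinear maps of order dividing `t` -/
def SL (V : Type) [AddCommGroup V] [Module k V] [Module R V] (t : ℕ) (τ : R ≃ₐ[k] R) :
    Set (V →ₗ[k] V) :=
  {g | (∀ (r : R) x, g (r • x) = τ r • g x) ∧ ∀ x, (g ^ t : Module.End k V) x = x}

/-- fixed vectors -/
def V0 (g : V →ₗ[k] V) : Submodule k V := LinearMap.eqLocus g LinearMap.id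

theorem mem_V0 {g : V →ₗ[k] V} {x : V} : x ∈ V0 g ↔ g x = x := Iff.rfl

variable {τ}

theorem SL_pow {g : V →ₗ[k] V} (hg : g ∈ SL V t τ) (j : ℕ) (r : R) (x : V) :
    (g ^ j : Module.End k V) (r • x) = (τ ^ j) r • (g ^ j : Module.End k V) x := by
  induction j generalizing r x with
  | zero => rfl
  | succ j ih => rw [pow_succ, Module.End.mul_apply, hg.1, ih, ← AlgEquiv.mul_apply, ← pow_succ]; rfl

/-- Galois descent: the fixed vectors span -/
theorem descent (hτ : τ ≠ 1) (ht : finrank k R = t) (htp : t.Prime) {g : V →ₗ[k] V}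
    (hg : g ∈ SL V t τ) (X : Submodule R V) (hX : ∀ x, g x = x → x ∈ X) : X = ⊤ := by
  classical
  rw [Submodule.eq_top_iff']
  intro v
  let Ψ : (Fin t → R) →ₗ[R] V :=
    { toFun := fun a => ∑ j, a j • (g ^ (j : ℕ) : Module.End k V) v
      map_add' := fun a b => by
        rw [← Finset.sum_add_distrib]
        exact Finset.sum_congr rfl (fun j _ => by rw [Pi.add_apply, add_smul])
      map_smul' := fun c a => by
        rw [RingHom.id_apply, Finset.smul_sum]
        exact Finset.sum_congr rfl (fun j _ => by rw [Pi.smul_apply, smul_eq_mul, mul_smul]) }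
  have hΨ : ∀ a, Ψ a = ∑ j, a j • (g ^ (j : ℕ) : Module.End k V) v := fun a => rfl
  let e : R → (Fin t → R) := fun r j => (τ ^ (j : ℕ)) r
  have hspan : Submodule.span R (Set.range e) = ⊤ := by
    by_contra hne
    obtain ⟨f, hf0, hf⟩ := Submodule.exists_le_ker_of_lt_top _ (lt_top_iff_ne_top.mpr hne)
    have h1 : ∀ r, ∑ j : Fin t, f (Pi.single j 1) * (τ ^ (j : ℕ)) r = 0 := by
      intro r
      have h2 : f (e r) = 0 := hf (Submodule.subset_span ⟨r, rfl⟩)
      have h3 : e r = ∑ j : Fin t, ((τ ^ (j : ℕ)) r) • (Pi.single j (1 : R) : Fin t → R) := by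
        ext i
        rw [Finset.sum_apply]
        simp [e, Pi.single_apply]
      rw [h3, map_sum] at h2
      rw [← h2]
      apply Finset.sum_congr rfl
      intro j _
      rw [map_smul, smul_eq_mul, mul_comm]
    have h4 := Fintype.linearIndependent_iff.mp (tau_indep τ hτ ht htp)
      (fun j => f (Pi.single j 1)) (by
        ext r
        rw [Finset.sum_apply]
        exact h1 r)
    apply hf0
    ext i
    simpa using h4 i
  have hle : Submodule.span R (Set.range e) ≤ X.comap Ψ := by
    rw [Submodule.span_le]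
    rintro _ ⟨r, rfl⟩
    change Ψ (e r) ∈ X
    apply hX
    have h1 : Ψ (e r) = ∑ j ∈ range t, (g ^ j : Module.End k V) (r • v) := by
      rw [hΨ, Finset.sum_range]
      apply Finset.sum_congr rfl
      intro j _
      rw [SL_pow hg]
    rw [h1, map_sum]
    have h2 : ∑ j ∈ range t, g ((g ^ j : Module.End k V) (r • v))
        = ∑ j ∈ range t, (g ^ (j + 1) : Module.End k V) (r • v) := by
      apply Finset.sum_congr rfl
      intro j _
      rw [pow_succ', Module.End.mul_apply]
    rw [h2]
    have h3 := Finset.sum_range_succ (fun j => (g ^ j : Module.End k V) (r • v)) t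
    have h4 := Finset.sum_range_succ' (fun j => (g ^ j : Module.End k V) (r • v)) t
    rw [h3, hg.2, pow_zero, Module.End.one_apply] at h4
    exact (add_right_cancel h4).symm
  rw [hspan] at hle
  have h5 : Ψ (Pi.single ⟨0, htp.pos⟩ 1) ∈ X := hle (Submodule.mem_top)
  have h6 : Ψ (Pi.single ⟨0, htp.pos⟩ 1) = v := by
    rw [hΨ, Finset.sum_eq_single ⟨0, htp.pos⟩]
    · simp
    · intro j _ hj
      rw [Pi.single_eq_of_ne hj, zero_smul]
    · intro h; exact absurd (Finset.mem_univ _) h
  rwa [h6] at h5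

/-- a vector fixed by `g` outside an invariant subspace -/
theorem exists_fixed (hτ : τ ≠ 1) (ht : finrank k R = t) (htp : t.Prime) {g : V →ₗ[k] V}
    (hg : g ∈ SL V t τ) (X : Submodule k V) (hX : ∀ (r : R), ∀ x ∈ X, r • x ∈ X) (hXt : X ≠ ⊤) :
    ∃ b, g b = b ∧ b ∉ X := by
  by_contra hcon
  push Not at hcon
  let Y : Submodule R V :=
    { carrier := X
      add_mem' := fun ha hb => X.add_mem ha hb
      zero_mem' := X.zero_mem
      smul_mem' := fun r x hx => hX r x hx }
  have h := descent hτ ht htp hg Y hcon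
  apply hXt
  rw [Submodule.eq_top_iff']
  intro x
  have : x ∈ Y := by rw [h]; trivial
  exact this

theorem spn_eq {a : ℕ} (b : Fin a → V) :
    (Spread.ofField k R).spn b = (Submodule.span R (Set.range b)).restrictScalars k := by
  apply le_antisymm
  · unfold Spread.spn
    apply iSup_le
    intro i
    rw [Spread.ofField_O]
    intro x hx
    have h : ({b i} : Set V) ⊆ Set.range b := Set.singleton_subset_iff.mpr ⟨i, rfl⟩
    exact Submodule.span_mono (R := R) h hx
  · intro x hx
    rw [Submodule.restrictScalars_mem, Submodule.mem_span_range_iff_exists_fun] at hx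
    obtain ⟨c, rfl⟩ := hx
    apply Submodule.sum_mem
    intro i _
    have hbi : b i ∈ (Spread.ofField k R).spn b :=
      Submodule.mem_iSup_of_mem i ((Spread.ofField k R).mem (b i))
    exact (Spread.ofField_inv R _).mp ((Spread.ofField k R).inv_spn b) (c i) _ hbi

theorem indep_of_spn (ht0 : 0 < finrank k R) {a : ℕ} (b : Fin a → V)
    (hb : finrank k ((Spread.ofField k R).spn b) = finrank k R * a) :
    LinearIndependent R b := by
  rw [linearIndependent_iff_card_eq_finrank_span, Fintype.card_fin]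
  have h1 : finrank k ((Submodule.span R (Set.range b)).restrictScalars k)
      = finrank k R * finrank R (Submodule.span R (Set.range b)) :=
    (Module.finrank_mul_finrank k R (Submodule.span R (Set.range b))).symm
  rw [← spn_eq, hb] at h1
  exact Nat.eq_of_mul_eq_mul_left ht0 h1

/-- fixed vectors in the `R`-span of independent fixed vectors -/
theorem fixed_span (hτ : τ ≠ 1) (ht : finrank k R = t) (htp : t.Prime) {g : V →ₗ[k] V}
    (hg : g ∈ SL V t τ) {a : ℕ} (b : Fin a → V) (hb0 : ∀ i, g (b i) = b i)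
    (hb : finrank k ((Spread.ofField k R).spn b) = finrank k R * a) :
    (V0 g ⊓ (Spread.ofField k R).spn b : Submodule k V) ≤ Submodule.span k (Set.range b) := by
  have hli := indep_of_spn (by rw [ht]; exact htp.pos) b hb
  rintro x ⟨hx0, hx⟩
  rw [spn_eq] at hx
  have hx' : x ∈ Submodule.span R (Set.range b) := hx
  rw [Submodule.mem_span_range_iff_exists_fun] at hx'
  obtain ⟨c, rfl⟩ := hx'
  have hx0' : g (∑ i, c i • b i) = ∑ i, c i • b i := hx0
  rw [map_sum] at hx0'
  have h1 : ∑ i, (τ (c i) - c i) • b i = 0 := by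
    have : ∀ i, (τ (c i) - c i) • b i = g (c i • b i) - c i • b i := by
      intro i; rw [hg.1, hb0, sub_smul]
    rw [Finset.sum_congr rfl (fun i _ => this i), Finset.sum_sub_distrib, hx0', sub_self]
  have h2 := Fintype.linearIndependent_iff.mp hli _ h1
  have h3 : ∀ i, ∃ d : k, algebraMap k R d = c i := fun i =>
    tau_fix τ hτ ht htp (sub_eq_zero.mp (h2 i))
  choose d hd using h3
  apply Submodule.sum_mem
  intro i _
  rw [← hd, algebraMap_smul]
  exact Submodule.smul_mem _ _ (Submodule.subset_span ⟨i, rfl⟩)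

/-- tuples of fixed vectors -/
theorem fixed_tuples (hτ : τ ≠ 1) (ht : finrank k R = t) (htp : t.Prime) {g : V →ₗ[k] V}
    (hg : g ∈ SL V t τ) (d : ℕ) (hd : d ≤ finrank k (V0 g)) :
    ∀ a ≤ d, ∏ i ∈ range a, (Fintype.card k ^ d - Fintype.card k ^ i) ≤
      {b : Fin a → V | (∀ i, g (b i) = b i) ∧
        finrank k ((Spread.ofField k R).spn b) = finrank k R * a}.ncard := by
  classical
  apply tuple_lower (V := V)
    (fun a b => (∀ i, g (b i) = b i) ∧ finrank k ((Spread.ofField k R).spn b) = finrank k R * a)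
  · intro b
    refine ⟨fun i => i.elim0, ?_⟩
    have : (Spread.ofField k R).spn b = ⊥ := by
      unfold Spread.spn; exact iSup_of_empty _
    rw [this, finrank_bot, mul_zero]
  · rintro a ha b ⟨hb, hb1⟩
    have h1 : (V0 g : Set V) \ ((V0 g ⊓ (Spread.ofField k R).spn b : Submodule k V) : Set V) ⊆
        {v : V | (∀ i, g (Fin.snoc (α := fun _ => V) b v i) = Fin.snoc (α := fun _ => V) b v i) ∧
        finrank k ((Spread.ofField k R).spn (Fin.snoc (α := fun _ => V) b v))
          = finrank k R * (a + 1)} := by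
      rintro v ⟨hv, hv2⟩
      have hv3 : v ∉ (Spread.ofField k R).spn b := fun h => hv2 ⟨hv, h⟩
      refine ⟨fun i => ?_, ?_⟩
      · refine Fin.lastCases ?_ (fun l => ?_) i
        · rw [Fin.snoc_last]; exact hv
        · rw [Fin.snoc_castSucc]; exact hb l
      · rw [Spread.spn_snoc, Spread.finrank_step _ (Spread.inv_spn _ b) hv3, hb1, mul_add, mul_one]
    refine le_trans ?_ (Set.ncard_le_ncard h1 (Set.toFinite _))
    have h2 : ((V0 g ⊓ (Spread.ofField k R).spn b : Submodule k V) : Set V) ⊆ (V0 g : Set V) :=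
      fun x hx => hx.1
    rw [Set.ncard_sdiff h2 (Set.toFinite _), card_submodule, card_submodule]
    have h3 : finrank k (V0 g ⊓ (Spread.ofField k R).spn b : Submodule k V) ≤ a := by
      refine (Submodule.finrank_mono (fixed_span hτ ht htp hg b hb hb1)).trans ?_
      have := finrank_range_le_card (R := k) b
      rw [Fintype.card_fin] at this
      exact this
    apply tsub_le_tsub
    · exact Nat.pow_le_pow_right Fintype.card_pos hd
    · exact Nat.pow_le_pow_right Fintype.card_pos h3

/-- the dimension of the fixed space -/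
theorem finrank_V0 (hτ : τ ≠ 1) (ht : finrank k R = t) (htp : t.Prime) {g : V →ₗ[k] V}
    (hg : g ∈ SL V t τ) (n2 : ℕ) (hn : finrank k V = t * n2) : finrank k (V0 g) = n2 := by
  classical
  have hq : 1 < Fintype.card k := Fintype.one_lt_card
  apply le_antisymm
  · set d := finrank k (V0 g) with hd
    have h := fixed_tuples (R := R) hτ ht htp hg d le_rfl d le_rfl
    have hpos : 0 < ∏ i ∈ range d, (Fintype.card k ^ d - Fintype.card k ^ i) := by
      apply Finset.prod_pos
      intro i hi
      rw [Finset.mem_range] at hi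
      exact Nat.sub_pos_of_lt (Nat.pow_lt_pow_right hq hi)
    have hne : {b : Fin d → V | (∀ i, g (b i) = b i) ∧
        finrank k ((Spread.ofField k R).spn b) = finrank k R * d}.Nonempty := by
      rw [← Set.ncard_pos (Set.toFinite _)]
      omega
    obtain ⟨b, _, hb⟩ := hne
    have h2 := Submodule.finrank_le ((Spread.ofField k R).spn b)
    rw [hb, ht, hn] at h2
    exact Nat.le_of_mul_le_mul_left h2 htp.pos
  · -- the R-span of a basis of V0 is everything
    have hfr : finrank R V = n2 := by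
      have h1 := Module.finrank_mul_finrank k R V
      rw [ht, hn] at h1
      exact Nat.eq_of_mul_eq_mul_left htp.pos h1
    let b := Module.finBasis k (V0 g)
    let b' : Fin (finrank k (V0 g)) → V := fun i => (b i : V)
    have htop : Submodule.span R (Set.range b') = ⊤ := by
      apply descent hτ ht htp hg
      intro x hx
      have hx' : (⟨x, hx⟩ : V0 g) ∈ Submodule.span k (Set.range b) := by
        rw [b.span_eq]; trivial
      have h2 : x ∈ Submodule.span k (Set.range b') := by
        have h3 := Submodule.mem_map_of_mem (f := (V0 g).subtype) hx'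
        rw [Submodule.map_span, ← Set.range_comp] at h3
        exact h3
      exact Submodule.span_le_restrictScalars k R _ h2
    have h3 := finrank_range_le_card (R := R) b'
    rw [Set.finrank, htop, finrank_top, hfr, Fintype.card_fin] at h3
    exact h3

/-- sequential counting with the normal basis -/
theorem twist_seq (hτ : τ ≠ 1) (ht : finrank k R = t) (htp : t.Prime) {g : V →ₗ[k] V}
    (hg : g ∈ SL V t τ) (n2 : ℕ) (hn : finrank k V = t * n2) (S : Set (V →ₗ[k] V))
    (hdet : ∀ f ∈ S, ∀ f2 ∈ S, ∀ x, f x = f2 x → f (g x) = f2 (g x))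
    (hY : ∀ f1 ∈ S, ∀ (X : Submodule k V) (v : V), ∃ Y : Set V,
      Y.ncard ≤ Fintype.card k ^ (finrank k V - finrank k X) ∧
      ∀ f ∈ S, (∀ x ∈ X, f x = f1 x) → f v ∈ Y) :
    S.ncard ≤ Fintype.card k ^ (t * tri n2) := by
  obtain ⟨θ, hθ⟩ := tau_normal τ hτ ht htp
  have htp0 := htp.pos
  by_cases hne : S.Nonempty
  swap
  · rw [Set.not_nonempty_iff_eq_empty] at hne
    rw [hne, Set.ncard_empty]
    exact Nat.zero_le _
  obtain ⟨f0, hf0⟩ := hne
  let σ := Spread.ofField k R (V := V)
  have h := seq_uniform S t (finrank k V) htp0 rfl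
    (fun _ X => σ.Inv X ∧ ∀ x ∈ X, g x ∈ X) ?_ n2 f0 ⊥ hf0 ⟨σ.inv_bot, by
      intro x hx
      rw [Submodule.mem_bot] at hx ⊢
      rw [hx, map_zero]⟩ (by rw [finrank_bot, zero_add, hn])
  · refine le_trans (Set.ncard_le_ncard ?_ (Set.toFinite _)) h
    intro f hf
    refine ⟨hf, fun x hx => ?_⟩
    rw [Submodule.mem_bot] at hx
    rw [hx, map_zero, map_zero]
  · rintro f1 hf1 X ⟨hXR, hXg⟩ hXt
    obtain ⟨b, hb, hbX⟩ := exists_fixed hτ ht htp hg X ((Spread.ofField_inv R X).mp hXR) hXt
    obtain ⟨Y, hY1, hY2⟩ := hY f1 hf1 X (θ • b)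
    refine ⟨θ • b, Y, hY1, hY2, ?_⟩
    intro f2 hf2 hag
    have hOb : ∀ x, x ∈ σ.O b ↔ ∃ r : R, r • b = x := by
      intro x
      change x ∈ (Submodule.span R {b}).restrictScalars k ↔ _
      rw [Submodule.restrictScalars_mem, Submodule.mem_span_singleton]
    refine ⟨X ⊔ σ.O b, ⟨σ.inv_sup hXR (σ.inv_O b), ?_⟩, ?_, ?_⟩
    · intro x hx
      obtain ⟨y, hy, z, hz, rfl⟩ := Submodule.mem_sup.mp hx
      obtain ⟨r, rfl⟩ := (hOb z).mp hz
      rw [map_add, hg.1, hb]
      exact Submodule.add_mem_sup (hXg y hy) ((hOb _).mpr ⟨τ r, rfl⟩)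
    · rw [σ.finrank_step hXR hbX, ht]
    · intro f hf hag' hfv
      apply agree_sup
      · intro x hx
        rw [hag' x hx, hag x hx]
      · -- agreement on R b
        have h1 : ∀ j : ℕ, f (((τ ^ j) θ) • b) = f2 (((τ ^ j) θ) • b) := by
          intro j
          induction j with
          | zero => exact hfv
          | succ j ih =>
            have h2 := hdet f hf f2 hf2 _ ih
            rw [hg.1, hb, ← AlgEquiv.mul_apply, ← pow_succ'] at h2
            exact h2
        let M : Submodule k R :=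
          { carrier := {r | f (r • b) = f2 (r • b)}
            add_mem' := by
              intro r s hr hs
              have hr' : f (r • b) = f2 (r • b) := hr
              have hs' : f (s • b) = f2 (s • b) := hs
              change f ((r + s) • b) = f2 ((r + s) • b)
              rw [add_smul, map_add, map_add, hr', hs']
            zero_mem' := by
              change f ((0 : R) • b) = f2 ((0 : R) • b)
              rw [zero_smul, map_zero, map_zero]
            smul_mem' := by
              intro c r hr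
              have hr' : f (r • b) = f2 (r • b) := hr
              change f ((c • r) • b) = f2 ((c • r) • b)
              rw [smul_assoc, LinearMap.map_smul f c, LinearMap.map_smul f2 c, hr'] }
        have h3 : M = ⊤ := by
          rw [eq_top_iff, ← hθ, Submodule.span_le]
          rintro _ ⟨j, rfl⟩
          exact h1 j
        intro x hx
        obtain ⟨r, rfl⟩ := (hOb x).mp hx
        have h4 : r ∈ M := by rw [h3]; trivial
        exact h4

variable {ω : V →ₗ[k] V →ₗ[k] k}

/-- isometries intertwining `g` with another map -/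
theorem intertwine_count (hω : NonDeg ω) (hτ : τ ≠ 1) (ht : finrank k R = t) (htp : t.Prime)
    {g : V →ₗ[k] V} (hg : g ∈ SL V t τ) (n2 : ℕ) (hn : finrank k V = t * n2) (h : V →ₗ[k] V) :
    {f : V →ₗ[k] V | Isom ω ω f ∧ ∀ x, f (g x) = h (f x)}.ncard
      ≤ Fintype.card k ^ (t * tri n2) := by
  apply twist_seq hτ ht htp hg n2 hn
  · rintro f ⟨hf, hf'⟩ f2 ⟨hf2, hf2'⟩ x hx
    rw [hf', hf2', hx]
  · rintro f1 ⟨hf1, _⟩ X v
    refine ⟨{w : V | ∀ x ∈ X, ω (f1 x) w = ω x v}, card_affine' hω f1 (hf1.injective hω) X _, ?_⟩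
    rintro f ⟨hf, _⟩ hag x hx
    rw [← hag x hx, hf]

/-- skew maps commuting with `g` -/
theorem skew_comm_count (hω : NonDeg ω) (hτ : τ ≠ 1) (ht : finrank k R = t) (htp : t.Prime)
    {g : V →ₗ[k] V} (hg : g ∈ SL V t τ) (n2 : ℕ) (hn : finrank k V = t * n2) :
    {f : V →ₗ[k] V | Skew ω f ∧ ∀ x, f (g x) = g (f x)}.ncard
      ≤ Fintype.card k ^ (t * tri n2) := by
  apply twist_seq hτ ht htp hg n2 hn
  · rintro f ⟨hf, hf'⟩ f2 ⟨hf2, hf2'⟩ x hx
    rw [hf', hf2', hx]
  · rintro f1 ⟨hf1, _⟩ X v
    refine ⟨{w : V | ∀ x ∈ X, ω x w = - ω (f1 x) v}, card_affine hω X _, ?_⟩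
    rintro f ⟨hf, _⟩ hag x hx
    rw [← hag x hx, hf, neg_neg]

end Twist

end Pool.Agent.H330.Count
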