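import Pool.Agent.H330.CountTwist

set_option linter.unusedSectionVars false
set_option linter.unusedVariables false

/-!
# The number of semilinear isometries of prime order
-/

namespace Pool.Agent.H330.Count

open Module Finset

section Twist

variable {k V : Type} [Field k] [Fintype k] [AddCommGroup V] [Module k V] [Finite V]
  {R : Type} [Field R] [Fintype R] [Algebra k R] [Module R V] [IsScalarTower k R V]
  {t : ℕ} (τ : R ≃ₐ[k] R)

/-- the image of `τ - 1` -/
def MM : Submodule k R := LinearMap.range ((τ : R →ₗ[k] R) - LinearMap.id)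

theorem finrank_MM (hτ : τ ≠ 1) (ht : finrank k R = t) (htp : t.Prime) :
    t - 1 ≤ finrank k (MM τ) := by
  have h := LinearMap.finrank_range_add_finrank_ker ((τ : R →ₗ[k] R) - LinearMap.id)
  have h1 : finrank k (LinearMap.ker ((τ : R →ₗ[k] R) - LinearMap.id)) ≤ 1 := by
    have h2 : LinearMap.ker ((τ : R →ₗ[k] R) - LinearMap.id) ≤ Submodule.span k {(1 : R)} := by
      intro x hx
      rw [LinearMap.mem_ker, LinearMap.sub_apply] at hx
      have hx' : τ x = x := sub_eq_zero.mp hx
      obtain ⟨c, rfl⟩ := tau_fix τ hτ ht htp hx'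
      rw [Algebra.algebraMap_eq_smul_one]
      exact Submodule.smul_mem _ _ (Submodule.mem_span_singleton_self _)
    refine (Submodule.finrank_mono h2).trans ?_
    rw [finrank_span_singleton one_ne_zero]
  unfold MM
  omega

/-- `r ↦ r • v` -/
def fv (k R : Type) {V : Type} [Field k] [AddCommGroup V] [Module k V] [Field R] [Algebra k R]
    [Module R V] [IsScalarTower k R V] (v : V) : R →ₗ[k] V where
  toFun r := r • v
  map_add' := fun r s => add_smul r s v
  map_smul' := fun c r => by rw [RingHom.id_apply, smul_assoc]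

/-- `M v` -/
def Nn (v : V) : Submodule k V := (MM τ).map (fv k R v)

theorem Nn_le (v : V) : Nn τ v ≤ (Spread.ofField k R).O v := by
  rintro _ ⟨r, _, rfl⟩
  rw [Spread.ofField_O, Submodule.restrictScalars_mem]
  exact Submodule.smul_mem _ _ (Submodule.mem_span_singleton_self _)

theorem finrank_Nn (hτ : τ ≠ 1) (ht : finrank k R = t) (htp : t.Prime) {v : V} (hv : v ≠ 0) :
    t - 1 ≤ finrank k (Nn τ v) := by
  have hinj : Function.Injective (fv k R v) := by
    rw [injective_iff_map_eq_zero]
    intro r hr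
    exact (smul_eq_zero.mp hr).resolve_right hv
  rw [Nn, ← LinearEquiv.finrank_eq (Submodule.equivMapOfInjective _ hinj (MM τ))]
  exact finrank_MM τ hτ ht htp

/-- the subspace `⊕ M b_i` -/
def Zz {a : ℕ} (b : Fin a → V) : Submodule k V := ⨆ i, Nn τ (b i)

theorem Zz_le {a : ℕ} (b : Fin a → V) : Zz τ b ≤ (Spread.ofField k R).spn b :=
  iSup_mono (fun i => Nn_le τ (b i))

theorem finrank_Zz (hτ : τ ≠ 1) (ht : finrank k R = t) (htp : t.Prime) :
    ∀ {a : ℕ} (b : Fin a → V), finrank k ((Spread.ofField k R).spn b) = finrank k R * a →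
      (t - 1) * a ≤ finrank k (Zz τ b) := by
  intro a
  induction a with
  | zero => intro b _; simp
  | succ a ih =>
    intro b hb
    set σ := Spread.ofField k R (V := V) with hσ
    have h1 := σ.finrank_init b hb
    have h2 := ih (Fin.init b) h1
    have hlast : b (Fin.last a) ∉ σ.spn (Fin.init b) := by
      intro h
      have h3 : σ.spn b ≤ σ.spn (Fin.init b) := by
        conv_lhs => rw [← Fin.snoc_init_self b, Spread.spn_snoc]
        exact sup_le le_rfl (σ.inv_spn _ _ h)
      have h4 := Submodule.finrank_mono h3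
      rw [h1, hb] at h4
      have : finrank k R * (a + 1) = finrank k R * a + finrank k R := by ring
      have hpos : 0 < finrank k R := by rw [ht]; exact htp.pos
      omega
    have h3 : Zz τ (Fin.init b) ⊔ Nn τ (b (Fin.last a)) ≤ Zz τ b := by
      apply sup_le
      · exact iSup_le (fun i => le_iSup (fun i => Nn τ (b i)) i.castSucc)
      · exact le_iSup (fun i => Nn τ (b i)) (Fin.last a)
    have h4 : Zz τ (Fin.init b) ⊓ Nn τ (b (Fin.last a)) = ⊥ := by
      rw [eq_bot_iff, ← σ.inf_eq_bot (σ.inv_spn (Fin.init b)) hlast]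
      exact inf_le_inf (Zz_le τ _) (Nn_le τ _)
    have h5 := Submodule.finrank_sup_add_finrank_inf_eq (Zz τ (Fin.init b))
      (Nn τ (b (Fin.last a)))
    rw [h4, finrank_bot] at h5
    have h6 := Submodule.finrank_mono h3
    have h7 := finrank_Nn τ hτ ht htp (Spread.ne_zero_of_notMem hlast)
    have : (t - 1) * (a + 1) = (t - 1) * a + (t - 1) := by ring
    omega

variable {ω : V →ₗ[k] V →ₗ[k] k}

/-- semilinear isometries of order dividing `t` -/
def HH (ω : V →ₗ[k] V →ₗ[k] k) (t : ℕ) (τ : R ≃ₐ[k] R) : Set (V →ₗ[k] V) :=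
  {g | g ∈ SL V t τ ∧ Isom ω ω g}

theorem HH_count (hω : NonDeg ω) (hR : ∀ (r : R) x y, ω (r • x) y = ω x (r • y))
    (hτ : τ ≠ 1) (ht : finrank k R = t) (htp : t.Prime) (n2 : ℕ)
    (hn : finrank k V = t * n2) (hq : 3 ≤ Fintype.card k) :
    (HH ω t τ).ncard ≤ 2 * Fintype.card k ^ ((t - 1) * tri n2) := by
  classical
  set σ := Spread.ofField k R (V := V) with hσ
  set q := Fintype.card k with hqdef
  let T : Set (Fin n2 → V) := {b | finrank k (σ.spn b) = finrank k R * n2 ∧
    ∀ i j : Fin n2, i < j → ∀ r : R, ω (r • b i) (b j) = ω (τ r • b i) (b j)}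
  have hT : T.ncard ≤ q ^ (∑ i ∈ range n2, (finrank k V - (t - 1) * i)) := by
    have h := tuple_upper (V := V)
      (fun a b => finrank k (σ.spn b) = finrank k R * a ∧
        ∀ i j : Fin a, i < j → ∀ r : R, ω (r • b i) (b j) = ω (τ r • b i) (b j))
      (fun i => q ^ (finrank k V - (t - 1) * i)) ?_ ?_ n2
    · rw [Finset.prod_pow_eq_pow_sum] at h
      exact h
    · rintro a b ⟨hb, hb1⟩
      refine ⟨σ.finrank_init b hb, fun i j hij r => ?_⟩
      exact hb1 i.castSucc j.castSucc (Fin.castSucc_lt_castSucc_iff.mpr hij) r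
    · rintro a b ⟨hb, hb1⟩
      have h3 : {v : V | finrank k (σ.spn (Fin.snoc (α := fun _ => V) b v))
          = finrank k R * (a + 1) ∧ ∀ i j : Fin (a + 1), i < j → ∀ r : R,
            ω (r • (Fin.snoc (α := fun _ => V) b v) i) ((Fin.snoc (α := fun _ => V) b v) j)
            = ω (τ r • (Fin.snoc (α := fun _ => V) b v) i) ((Fin.snoc (α := fun _ => V) b v) j)} ⊆
          (perp ω (Zz τ b) : Set V) := by
        rintro v ⟨_, hv⟩
        have h4 : Zz τ b ≤ LinearMap.ker (ω.flip v) := by
          apply iSup_le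
          rintro i _ ⟨s, ⟨r, rfl⟩, rfl⟩
          rw [LinearMap.mem_ker, LinearMap.flip_apply]
          have h5 := hv i.castSucc (Fin.last a) (Fin.castSucc_lt_last i) r
          simp only [Fin.snoc_castSucc, Fin.snoc_last] at h5
          change ω ((τ r - r) • b i) v = 0
          rw [sub_smul, map_sub, LinearMap.sub_apply, h5, sub_self]
        intro x hx
        have := h4 hx
        rwa [LinearMap.mem_ker, LinearMap.flip_apply] at this
      refine (Set.ncard_le_ncard h3 (Set.toFinite _)).trans ?_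
      rw [card_submodule]
      apply Nat.pow_le_pow_right (by omega)
      have h6 := finrank_perp hω (Zz τ b)
      have h7 := finrank_Zz τ hτ ht htp b hb
      omega
  have h := double_count (HH ω t τ) T (fun g b => ∀ i, g (b i) = b i)
    (∏ i ∈ range n2, (q ^ n2 - q ^ i)) 1 ?_ ?_
  · have h2 := gl_lower q n2 hq
    have h3 : (HH ω t τ).ncard * q ^ (n2 * n2) ≤
        2 * q ^ (∑ i ∈ range n2, (finrank k V - (t - 1) * i)) := by
      calc (HH ω t τ).ncard * q ^ (n2 * n2)
          ≤ (HH ω t τ).ncard * (2 * ∏ i ∈ range n2, (q ^ n2 - q ^ i)) := Nat.mul_le_mul_left _ h2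
        _ = 2 * ((HH ω t τ).ncard * ∏ i ∈ range n2, (q ^ n2 - q ^ i)) := by ring
        _ ≤ 2 * (T.ncard * 1) := Nat.mul_le_mul_left _ h
        _ ≤ _ := by rw [mul_one]; exact Nat.mul_le_mul_left _ hT
    have hsum := sum_range_sub (finrank k V) (t - 1) n2 (by
      rw [hn]; exact Nat.mul_le_mul_right _ (by omega))
    have h4 := arith1 (z := 0) (w := (t - 1) * tri n2) (by omega) h3 (by
      set S := ∑ i ∈ range n2, (finrank k V - (t - 1) * i) with hS
      have e := tri_two n2
      obtain ⟨u, hu⟩ : ∃ u, t = u + 1 := ⟨t - 1, by have := htp.pos; omega⟩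
      rw [hn, hu] at hsum
      rw [hu]
      rw [Nat.add_sub_cancel] at hsum ⊢
      rcases Nat.eq_zero_or_pos n2 with h0 | h0
      · rw [h0] at hsum ⊢
        simp at hsum
        omega
      · obtain ⟨c, hc⟩ : ∃ c, n2 = c + 1 := ⟨n2 - 1, by omega⟩
        rw [hc, Nat.add_sub_cancel] at hsum
        rw [hc] at e ⊢
        have e2 : u * (2 * tri (c + 1)) = u * ((c + 1) * (c + 1 + 1)) := by rw [e]
        have : 2 * (S + 0) ≤ 2 * ((c + 1) * (c + 1) + u * tri (c + 1)) := by linarith
        omega)
    rwa [pow_zero, mul_one] at h4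
  · rintro g ⟨hg, hgi⟩
    have h1 := fixed_tuples hτ ht htp hg n2 (finrank_V0 hτ ht htp hg n2 hn).ge n2 le_rfl
    refine h1.trans (Set.ncard_le_ncard ?_ (Set.toFinite _))
    rintro b ⟨hb, hb1⟩
    refine ⟨⟨hb1, fun i j _ r => ?_⟩, hb⟩
    have h2 := hgi (r • b i) (b j)
    rw [hg.1, hb, hb] at h2
    exact h2.symm
  · rintro b ⟨hb, _⟩
    have htop : Submodule.span R (Set.range b) = ⊤ := by
      have h1 : σ.spn b = ⊤ := by
        apply Submodule.eq_top_of_finrank_eq
        rw [hb, hn, ht]
      rw [Submodule.eq_top_iff']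
      intro x
      have h2 : x ∈ σ.spn b := by rw [h1]; trivial
      rw [hσ, spn_eq] at h2
      exact h2
    have h1 : {a | a ∈ HH ω t τ ∧ ∀ i, a (b i) = b i}.Subsingleton := by
      rintro g ⟨hg, hgb⟩ g' ⟨hg', hgb'⟩
      ext x
      have hx : x ∈ Submodule.span R (Set.range b) := by rw [htop]; trivial
      rw [Submodule.mem_span_range_iff_exists_fun] at hx
      obtain ⟨c, rfl⟩ := hx
      rw [map_sum, map_sum]
      apply Finset.sum_congr rfl
      intro i _
      rw [hg.1.1, hg'.1.1, hgb, hgb']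
    exact Set.ncard_le_one_iff_subsingleton.mpr h1

end Twist

end Pool.Agent.H330.Count
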