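import Pool.Agent.H330.CountWitness

set_option linter.unusedSectionVars false

/-!
# A lower bound for the order of the unitary group
-/

namespace Pool.Agent.H330.Count

open Module Finset

section

variable {k V : Type} [Field k] [Fintype k] [AddCommGroup V] [Module k V] [Finite V]

/-- the Lie algebra of the unitary group -/
def uu (ω : V →ₗ[k] V →ₗ[k] k) (J : V →ₗ[k] V) : Set (V →ₗ[k] V) :=
  {X | Skew ω X ∧ ∀ x, X (J x) = J (X x)}

/-- the unitary group -/
def UU (ω : V →ₗ[k] V →ₗ[k] k) (J : V →ₗ[k] V) : Set (V ≃ₗ[k] V) :=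
  {g | (∀ x y, ω (g x) (g y) = ω x y) ∧ ∀ x, g (J x) = J (g x)}

theorem uu_fix_count {ω : V →ₗ[k] V →ₗ[k] k} (hω : NonDeg ω) (hsw : ∀ x y, ω y x = - ω x y)
    (h2 : (2 : k) ≠ 0) {ν : k} (hν : ¬ IsSquare ν) {m : ℕ} (hm : finrank k V = 2 * m)
    (hm0 : 0 < m) {J : V →ₗ[k] V} (hJ : J ∈ Roots k ω ν) {v : V} (hv : v ≠ 0) :
    {X ∈ uu ω J | X v = -v}.ncard ≤ Fintype.card k ^ ((m - 1) * (m - 1)) := by
  set σ := Spread.ofJ hν J hJ.2.1 with hσ
  have hν0 : ν ≠ 0 := by rintro rfl; exact hν IsSquare.zero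
  by_cases hne : {X ∈ uu ω J | X v = -v}.Nonempty
  · obtain ⟨g1, hg1, hg1v⟩ := hne
    have h := seq_count (G := V →ₗ[k] V) (V' := V) (V := V) (fun g => g)
      (uu ω J) (fun c => Fintype.card k ^ (2 * c - 1))
      (fun c _ X => ∃ X0 : Submodule k V, (X0 : Set V) = X ∧ (∀ x ∈ X0, J x ∈ X0) ∧
        finrank k X0 + 2 * c = 2 * m) ?_ ?_ (m - 1) g1 (σ.O v : Set V) hg1
        ⟨σ.O v, rfl, (Spread.ofJ_inv hν J hJ.2.1 _).mp (σ.inv_O v), by rw [σ.rank v hv]; omega⟩
    · have hsum : ∀ n : ℕ, ∏ i ∈ range n, Fintype.card k ^ (2 * (i + 1) - 1)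
          = Fintype.card k ^ (n * n) := by
        intro n
        induction n with
        | zero => simp
        | succ n ih =>
          rw [prod_range_succ, ih, ← pow_add]
          congr 1
          have : 2 * (n + 1) - 1 = 2 * n + 1 := by omega
          rw [this]; ring
      rw [hsum] at h
      refine le_trans (Set.ncard_le_ncard ?_ (Set.toFinite _)) h
      rintro g ⟨hg, hgv⟩
      refine ⟨hg, fun x hx => ?_⟩
      have hx' : x ∈ Submodule.span k {v, J v} := hx
      obtain ⟨a, b, rfl⟩ := Submodule.mem_span_pair.mp hx'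
      rw [map_add, map_add, map_smul, map_smul, map_smul, map_smul, hg.2, hg1.2, hgv, hg1v]
    · rintro g1 _ hg1 ⟨X, rfl, hc, hX⟩ g hg hagree
      have hX' : X = ⊤ := Submodule.eq_top_of_finrank_eq (by rw [hm]; omega)
      ext x
      exact hagree x (by rw [hX']; trivial)
    · rintro c g1 _ hg1 ⟨X, rfl, hc, hX⟩
      obtain ⟨w, hw⟩ : ∃ w, w ∉ X := by
        by_contra hcon
        push Not at hcon
        rw [Submodule.eq_top_iff'.mpr hcon, finrank_top, hm] at hX
        omega
      have hXinv : σ.Inv X := (Spread.ofJ_inv hν J hJ.2.1 _).mpr hc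
      have hJw : J w ∉ X := by
        intro h
        apply hw
        have h3 := hc _ h
        rw [hJ.2.1] at h3
        have h4 := X.smul_mem ν⁻¹ h3
        rwa [smul_smul, inv_mul_cancel₀ hν0, one_smul] at h4
      refine ⟨w, {y | (∀ x ∈ X, ω x y = - ω (g1 x) w) ∧ ω (J w) y = 0}, ?_, ?_, ?_⟩
      · by_cases hY : {y | (∀ x ∈ X, ω x y = - ω (g1 x) w) ∧ ω (J w) y = 0}.Nonempty
        · obtain ⟨y0, hy0, hy0'⟩ := hY
          have h5 : {y | (∀ x ∈ X, ω x y = - ω (g1 x) w) ∧ ω (J w) y = 0} ⊆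
              {y | y - y0 ∈ perp ω (X ⊔ Submodule.span k {J w})} := by
            rintro y ⟨hy, hy'⟩ z hz
            obtain ⟨a, ha, b, hb, rfl⟩ := Submodule.mem_sup.mp hz
            obtain ⟨r, rfl⟩ := Submodule.mem_span_singleton.mp hb
            rw [map_add, LinearMap.add_apply, map_smul, LinearMap.smul_apply, map_sub, map_sub,
              hy a ha, hy0 a ha, hy', hy0']
            simp
          refine (Set.ncard_le_ncard h5 (Set.toFinite _)).trans ?_
          rw [card_coset]
          apply Nat.pow_le_pow_right Fintype.card_pos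
          have h6 := finrank_perp hω (X ⊔ Submodule.span k {J w})
          have h7 : finrank k (X ⊔ Submodule.span k {J w} : Submodule k V) = finrank k X + 1 :=
            (Spread.triv k V).finrank_step (X := X) (fun x hx =>
              (Submodule.span_singleton_le_iff_mem x X).mpr hx) hJw
          omega
        · rw [Set.not_nonempty_iff_eq_empty] at hY
          rw [hY, Set.ncard_empty]
          exact Nat.zero_le _
      · rintro g hg hag
        constructor
        · intro x hx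
          rw [← hag x hx, hg.1, neg_neg]
        · have e1 := hg.1 w (J w)
          rw [hg.2, hsw (J w) (g w)] at e1
          have e2 : ω w (J (g w)) = - ω (J w) (g w) := by rw [hJ.1, neg_neg]
          rw [e2, neg_neg] at e1
          have e3 : 2 * ω (J w) (g w) = 0 := by linear_combination -e1
          exact (mul_eq_zero.mp e3).resolve_left h2
      · intro g2 hg2 hag
        refine ⟨_, ⟨X ⊔ σ.O w, rfl,
          (Spread.ofJ_inv hν J hJ.2.1 _).mp (σ.inv_sup hXinv (σ.inv_O w)), ?_⟩, ?_⟩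
        · rw [σ.finrank_step hXinv hw]; omega
        · intro g hg hag' hgv
          apply agree_sup
          · intro x hx
            have e1 := hag' x hx
            have e2 := hag x hx
            rw [e1, e2]
          · intro x hx
            have hx' : x ∈ Submodule.span k {w, J w} := hx
            obtain ⟨a, b, rfl⟩ := Submodule.mem_span_pair.mp hx'
            have hgv' : g w = g2 w := hgv
            rw [map_add, map_add, map_smul, map_smul, map_smul, map_smul, hg.2, hg2.2, hgv']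
  · rw [Set.not_nonempty_iff_eq_empty] at hne
    rw [hne, Set.ncard_empty]
    exact Nat.zero_le _

/-- the Cayley transform -/
theorem cayley {ω : V →ₗ[k] V →ₗ[k] k} (hω : NonDeg ω) (h2 : (2 : k) ≠ 0) {J : V →ₗ[k] V} :
    {X ∈ uu ω J | ∀ v, X v = -v → v = 0}.ncard ≤ (UU ω J).ncard := by
  classical
  -- the transform
  have hex : ∀ X ∈ {X ∈ uu ω J | ∀ v, X v = -v → v = 0}, ∃ g ∈ UU ω J,
      ∀ x, g (x + X x) = x - X x := by
    rintro X ⟨⟨hX, hXJ⟩, hXv⟩
    have hinj : Function.Injective ((1 : Module.End k V) + X) := by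
      rw [injective_iff_map_eq_zero]
      intro x hx
      apply hXv
      rw [LinearMap.add_apply, Module.End.one_apply] at hx
      exact (neg_eq_of_add_eq_zero_right hx).symm
    let P := LinearEquiv.ofInjectiveEndo _ hinj
    have hP : ∀ x, P x = x + X x := fun x => rfl
    let f : V →ₗ[k] V := ((1 : Module.End k V) - X) ∘ₗ (P.symm : V →ₗ[k] V)
    have hf : ∀ x, f (x + X x) = x - X x := by
      intro x
      change P.symm (x + X x) - X (P.symm (x + X x)) = x - X x
      rw [← hP, P.symm_apply_apply]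
    have hiso : ∀ x y, ω (f x) (f y) = ω x y := by
      intro x y
      obtain ⟨a, rfl⟩ := P.surjective x
      obtain ⟨b, rfl⟩ := P.surjective y
      rw [hP, hP, hf, hf]
      have e1 := hX a b
      simp only [map_sub, map_add, LinearMap.sub_apply, LinearMap.add_apply]
      linear_combination (-2 : k) * e1
    have hfinj : Function.Injective f := by
      apply Isom.injective (ω' := ω) (ω := ω) hω
      exact hiso
    refine ⟨LinearEquiv.ofInjectiveEndo f hfinj, ⟨hiso, ?_⟩, hf⟩
    intro x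
    change f (J x) = J (f x)
    obtain ⟨a, rfl⟩ := P.surjective x
    rw [hP, map_add, ← hXJ, hf, hf, map_sub, hXJ]
  choose! Φ hΦ using hex
  apply Set.ncard_le_ncard_of_injOn Φ (fun X hX => (hΦ X hX).1) _ (Set.toFinite _)
  intro X hX Y hY hXY
  -- (g+1)(1+X) = 2
  have e1 : ∀ x, Φ X (x + X x) + (x + X x) = (2 : k) • x := by
    intro x; rw [(hΦ X hX).2, two_smul]; abel
  have e2 : ∀ x, Φ X (x + Y x) + (x + Y x) = (2 : k) • x := by
    intro x; rw [hXY, (hΦ Y hY).2, two_smul]; abel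
  let Gm : Module.End k V := (Φ X).toLinearMap + (1 : Module.End k V)
  have hsurj : Function.Surjective Gm := by
    intro y
    refine ⟨(2 : k)⁻¹ • y + X ((2 : k)⁻¹ • y), ?_⟩
    change Φ X ((2 : k)⁻¹ • y + X ((2 : k)⁻¹ • y)) + ((2 : k)⁻¹ • y + X ((2 : k)⁻¹ • y)) = y
    rw [e1, smul_smul, mul_inv_cancel₀ h2, one_smul]
  have hinj : Function.Injective Gm :=
    Finite.injective_iff_surjective.mpr hsurj
  ext x
  have e3 : Gm (x + X x) = Gm (x + Y x) := by
    change Φ X (x + X x) + (x + X x) = Φ X (x + Y x) + (x + Y x)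
    rw [e1, e2]
  exact add_left_cancel (hinj e3)

/-- lower bound for the unitary group -/
theorem UU_lower {ω : V →ₗ[k] V →ₗ[k] k} (hω : NonDeg ω) (hsw : ∀ x y, ω y x = - ω x y)
    (h2 : (2 : k) ≠ 0) {ν : k} (hν : ¬ IsSquare ν) {m : ℕ} (hm : finrank k V = 2 * m)
    (hm0 : 0 < m) {J : V →ₗ[k] V} (hJ : J ∈ Roots k ω ν)
    (h1 : Fintype.card k ^ (m * m) ≤ (uu ω J).ncard)
    (h3 : {v : V | v ≠ 0 ∧ ω v (J v) = 0}.ncard ≤ Fintype.card k ^ (2 * m - 1)) :
    Fintype.card k ^ (m * m) * (Fintype.card k ^ 2 - 2)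
      ≤ (UU ω J).ncard * (Fintype.card k ^ 2 - 1) := by
  set q := Fintype.card k with hq
  have hq1 : 1 < q := Fintype.one_lt_card
  have hq2 : 2 ≤ q ^ 2 := by nlinarith
  have hbad : {X ∈ uu ω J | ∃ v, v ≠ 0 ∧ X v = -v}.ncard * (q ^ 2 - 1) ≤ q ^ (m * m) := by
    have h := double_count {X ∈ uu ω J | ∃ v, v ≠ 0 ∧ X v = -v} {v : V | v ≠ 0 ∧ ω v (J v) = 0}
      (fun X v => X v = -v) (q ^ 2 - 1) (q ^ ((m - 1) * (m - 1))) ?_ ?_
    · refine h.trans ((Nat.mul_le_mul_right _ h3).trans (le_of_eq ?_))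
      rw [← pow_add]
      congr 1
      obtain ⟨n, rfl⟩ : ∃ n, m = n + 1 := ⟨m - 1, by omega⟩
      rw [Nat.add_sub_cancel, show 2 * (n + 1) - 1 = 2 * n + 1 by omega]; ring
    · rintro X ⟨⟨hX, hXJ⟩, v, hv, hXv⟩
      set σ := Spread.ofJ hν J hJ.2.1 with hσ
      have h4 : (σ.O v : Set V) \ {0} ⊆
          {b | b ∈ {v : V | v ≠ 0 ∧ ω v (J v) = 0} ∧ X b = -b} := by
        rintro y ⟨hy, hy0⟩
        have hy' : y ∈ Submodule.span k {v, J v} := hy
        have hXy : X y = -y := by
          obtain ⟨a, b, rfl⟩ := Submodule.mem_span_pair.mp hy'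
          rw [map_add, map_smul, map_smul, hXJ, hXv, map_neg]
          simp only [smul_neg]; abel
        refine ⟨⟨hy0, ?_⟩, hXy⟩
        have e1 := hX y (J y)
        rw [hXJ, hXy, map_neg, map_neg, LinearMap.neg_apply, map_neg, neg_neg] at e1
        have e3 : 2 * ω y (J y) = 0 := by linear_combination -e1
        exact (mul_eq_zero.mp e3).resolve_left h2
      refine le_trans (le_of_eq ?_) (Set.ncard_le_ncard h4 (Set.toFinite _))
      rw [Set.ncard_sdiff_singleton_of_mem (σ.O v).zero_mem, card_submodule, σ.rank v hv]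
    · rintro v ⟨hv, _⟩
      refine le_trans (Set.ncard_le_ncard ?_ (Set.toFinite _))
        (uu_fix_count hω hsw h2 hν hm hm0 hJ hv)
      rintro X ⟨⟨hX, _⟩, hXv⟩
      exact ⟨hX, hXv⟩
  have hsplit : (uu ω J).ncard ≤ {X ∈ uu ω J | ∀ v, X v = -v → v = 0}.ncard
      + {X ∈ uu ω J | ∃ v, v ≠ 0 ∧ X v = -v}.ncard := by
    refine le_trans (Set.ncard_le_ncard ?_ (Set.toFinite _)) (Set.ncard_union_le _ _)
    intro X hX
    by_cases hc : ∃ v, v ≠ 0 ∧ X v = -v
    · right; exact ⟨hX, hc⟩
    · left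
      push Not at hc
      refine ⟨hX, fun v hv => ?_⟩
      by_contra h0
      exact hc v h0 hv
  have hc := cayley hω h2 (J := J)
  obtain ⟨r, hr⟩ : ∃ r, q ^ 2 = r + 2 := ⟨q ^ 2 - 2, by omega⟩
  rw [hr] at hbad ⊢
  simp only [Nat.add_sub_cancel] at *
  rw [show r + 2 - 1 = r + 1 by omega] at hbad ⊢
  nlinarith

end

end Pool.Agent.H330.Count
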