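import Pool.Agent.H330.CountUnit

set_option linter.unusedSectionVars false

/-!
# The unitary group in the `K`-model
-/

namespace Pool.Agent.H330.Count

open Module Finset Pool.Agent.H330 Pool.Agent.H330.Minus Pool.Agent.H330.Symp

variable {F K : Type} [Field F] [Fintype F] [Field K] [Fintype K] [Algebra F K] {m : ℕ}

theorem nonDeg_bil (hm : finrank F K = 2 * m) {lam : K} (hl0 : lam ≠ 0) :
    NonDeg (bil F K m lam) := bil_nondeg hm hl0

theorem mem_roots (hm : finrank F K = 2 * m) {lam j : K}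
    {ν : F} (hj2 : j ^ 2 = algebraMap F K ν) (hjb : bar F K m j = -j) :
    LinearMap.mulLeft F j ∈ Roots F (bil F K m lam) ν := by
  refine ⟨fun x y => ?_, fun x => ?_, fun r x => ?_⟩
  · rw [LinearMap.mulLeft_apply, LinearMap.mulLeft_apply, bil_apply, bil_apply, ← map_neg,
      map_mul (bar F K m) j y, hjb]
    congr 1; ring
  · rw [LinearMap.mulLeft_apply, LinearMap.mulLeft_apply, ← mul_assoc, ← sq, hj2,
      Algebra.smul_def]
  · rw [map_smul]

theorem uu_large (hq : Odd (Fintype.card F)) (hm : finrank F K = 2 * m) (hm0 : 0 < m) {lam : K}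
    (hl : bar F K m lam = -lam) (hl0 : lam ≠ 0) {j : K}
    {ν : F} (hj2 : j ^ 2 = algebraMap F K ν) (hjb : bar F K m j = -j)
    (E : IntermediateField F K) (hE : finrank F E = 2) (hjE : j ∈ E) (hj0 : j ≠ 0) :
    Fintype.card F ^ (m * m) ≤ (uu (bil F K m lam) (LinearMap.mulLeft F j)).ncard := by
  classical
  have h2F : (2 : F) ≠ 0 := two_ne_zero' hq
  set ω := bil F K m lam with hω
  have hnd : NonDeg ω := nonDeg_bil hm hl0
  have hsw : ∀ x y, ω y x = - ω x y := bil_swap hm hl
  have hJ := mem_roots hm (lam := lam) hj2 hjb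
  have hJs : ∀ x y, ω (j * x) y = - ω x (j * y) := hJ.1
  have hKE : finrank E K = m := by
    have := Module.finrank_mul_finrank F E K
    rw [hE, hm] at this
    omega
  -- adjoint
  have hadj : ∀ A : K →ₗ[F] K, ∃ B : K →ₗ[F] K, ∀ x y, ω (B x) y = ω x (A y) := by
    intro A
    exact ⟨_, LinearMap.BilinForm.isAdjointPairLeftAdjointOfNondegenerate ω
      (nondegenerate_of hnd) A⟩
  choose adj hadj using hadj
  let toF : (K →ₗ[E] K) → (K →ₗ[F] K) := fun A => A.restrictScalars F
  have hAj : ∀ (A : K →ₗ[E] K) x, A (j * x) = j * A x := by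
    intro A x
    have := A.map_smul (⟨j, hjE⟩ : E) x
    exact this
  have hadj' : ∀ A x y, ω (A x) y = ω x (adj A y) := by
    intro A x y
    rw [hsw, ← hadj, ← hsw]
  have hBj : ∀ (A : K →ₗ[E] K) x, adj (toF A) (j * x) = j * adj (toF A) x := by
    intro A x
    rw [← sub_eq_zero]
    apply hnd
    intro y
    rw [map_sub, LinearMap.sub_apply, hadj, hJs, hJs, hadj]
    change -(ω x (j * A y)) - -(ω x (A (j * y))) = 0
    rw [hAj]; ring
  let Ψ : (K →ₗ[E] K) → (K →ₗ[F] K) × (K →ₗ[F] K) := fun A =>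
    (toF A - adj (toF A), LinearMap.mulLeft F j ∘ₗ (toF A + adj (toF A)))
  have h1 : (Set.univ : Set (K →ₗ[E] K)).ncard ≤
      ((uu ω (LinearMap.mulLeft F j)) ×ˢ (uu ω (LinearMap.mulLeft F j))).ncard := by
    apply Set.ncard_le_ncard_of_injOn Ψ _ _ (Set.toFinite _)
    · intro A _
      refine ⟨⟨fun x y => ?_, fun x => ?_⟩, ⟨fun x y => ?_, fun x => ?_⟩⟩
      · change ω (toF A x - adj (toF A) x) y = - ω x (toF A y - adj (toF A) y)
        rw [map_sub, LinearMap.sub_apply, hadj, hadj', map_sub]; ring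
      · change A (j * x) - adj (toF A) (j * x) = j * (A x - adj (toF A) x)
        rw [hAj, hBj]; ring
      · change ω (j * (toF A x + adj (toF A) x)) y = - ω x (j * (toF A y + adj (toF A) y))
        have e1 : j * (toF A y + adj (toF A) y) = toF A (j * y) + adj (toF A) (j * y) := by
          rw [hBj]
          change j * (A y + _) = A (j * y) + _
          rw [hAj]; ring
        rw [hJs, map_add, LinearMap.add_apply, hadj, hadj', e1, map_add]
        ring
      · change j * (A (j * x) + adj (toF A) (j * x)) = j * (j * (A x + adj (toF A) x))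
        rw [hAj, hBj]; ring
    · intro A _ B _ hAB
      have e1 : toF A - adj (toF A) = toF B - adj (toF B) := congrArg Prod.fst hAB
      have e2 := congrArg Prod.snd hAB
      ext x
      have e3 := congrArg (fun f : K →ₗ[F] K => f x) e1
      have e4 := congrArg (fun f : K →ₗ[F] K => f x) e2
      have e3' : A x - adj (toF A) x = B x - adj (toF B) x := e3
      have e4' : j * (A x + adj (toF A) x) = j * (B x + adj (toF B) x) := e4
      have e5 := mul_left_cancel₀ hj0 e4'
      have h2K : (2 : K) ≠ 0 := two_ne hq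
      apply mul_left_cancel₀ h2K
      linear_combination e3' + e5
  rw [Set.ncard_univ, Set.ncard_prod] at h1
  have h3 : Nat.card (K →ₗ[E] K) = (Fintype.card F ^ (m * m)) ^ 2 := by
    have : Fintype E := Fintype.ofFinite E
    have hcE : Fintype.card E = Fintype.card F ^ 2 := by
      rw [← hE]; exact Module.card_eq_pow_finrank (K := F) (V := E)
    rw [Spread.card_space (k := E), finrank_linearMap, hKE, hcE, ← pow_mul, ← pow_mul]
    congr 1; ring
  rw [h3] at h1
  have h4 : (Fintype.card F ^ (m * m)) ^ 2 ≤ (uu ω (LinearMap.mulLeft F j)).ncard ^ 2 := by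
    rw [sq ((uu ω (LinearMap.mulLeft F j)).ncard)]; exact h1
  exact (Nat.pow_le_pow_iff_left (by norm_num)).mp h4

theorem isotropic_count (hq : Odd (Fintype.card F)) (hm : finrank F K = 2 * m) (hm0 : 0 < m)
    {lam : K} (hl : bar F K m lam = -lam) (hl0 : lam ≠ 0) {j : K} (hj0 : j ≠ 0)
    (hjb : bar F K m j = -j) :
    {v : K | v ≠ 0 ∧ bil F K m lam v (LinearMap.mulLeft F j v) = 0}.ncard
      ≤ Fintype.card F ^ (2 * m - 1) := by
  classical
  have h2F : (2 : F) ≠ 0 := two_ne_zero' hq
  set q := Fintype.card F with hqdef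
  have hq1 : 1 < q := Fintype.one_lt_card
  have hljb : bar F K m (lam * j) = lam * j := by rw [map_mul, hl, hjb]; ring
  have hlj0 : lam * j ≠ 0 := mul_ne_zero hl0 hj0
  -- the subspace
  let D : Submodule F K := (DD F K m).toSubalgebra.toSubmodule
  have hD : ∀ x, x ∈ D ↔ bar F K m x = x := fun x => Iff.rfl
  have hDr : finrank F D = m := finrank_DD hm hm0
  let Z : Submodule F K := D ⊓ LinearMap.ker ((Algebra.trace F K) ∘ₗ LinearMap.mulLeft F (lam * j))
  have hZ : ∀ x, x ∈ Z ↔ bar F K m x = x ∧ Algebra.trace F K (lam * j * x) = 0 := fun x => Iff.rfl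
  have hZD : Z < D := by
    refine lt_of_le_of_ne inf_le_left ?_
    intro h
    apply hlj0
    apply eq_zero_of_trace h2F hm hljb
    intro d hd
    have : d ∈ Z := by rw [h]; exact hd
    rw [mul_comm]
    exact ((hZ d).mp this).2
  have hZr : finrank F Z ≤ m - 1 := by
    have := Submodule.finrank_lt_finrank_of_lt hZD
    omega
  have h := ncard_le_of_fibers {v : K | v ≠ 0 ∧ bil F K m lam v (LinearMap.mulLeft F j v) = 0}
    (fun v => v * bar F K m v) ((Z : Set K) \ {0}) (Set.toFinite _) ?_ (q ^ m + 1) ?_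
  · refine h.trans ?_
    rw [Set.ncard_sdiff_singleton_of_mem Z.zero_mem, card_submodule]
    have h1 : q ^ finrank F Z ≤ q ^ (m - 1) := Nat.pow_le_pow_right (by omega) hZr
    obtain ⟨n, rfl⟩ : ∃ n, m = n + 1 := ⟨m - 1, by omega⟩
    rw [Nat.add_sub_cancel] at h1
    rw [show 2 * (n + 1) - 1 = n + (n + 1) by omega, pow_add q n (n + 1)]
    have h3 : 0 < q ^ finrank F Z := Nat.pow_pos (by omega)
    have h4 : q ^ n ≤ q ^ (n + 1) := Nat.pow_le_pow_right (by omega) (by omega)
    obtain ⟨a, ha⟩ : ∃ a, q ^ finrank F Z = a + 1 := ⟨_, (Nat.sub_add_cancel h3).symm⟩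
    rw [ha, Nat.add_sub_cancel]
    nlinarith
  · rintro v ⟨hv, hv2⟩
    have hbv : bar F K m v ≠ 0 := by simpa using hv
    refine ⟨?_, mul_ne_zero hv hbv⟩
    rw [SetLike.mem_coe, hZ]
    refine ⟨by rw [map_mul, bar_bar hm, mul_comm], ?_⟩
    rw [LinearMap.mulLeft_apply, bil_apply, map_mul (bar F K m) j v, hjb] at hv2
    have : lam * j * (v * bar F K m v) = -(lam * v * (-j * bar F K m v)) := by ring
    rw [this, map_neg, hv2, neg_zero]
  · intro b _
    have h1 : {a | a ∈ {v : K | v ≠ 0 ∧ bil F K m lam v (LinearMap.mulLeft F j v) = 0} ∧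
        a * bar F K m a = b} ⊆ ((Polynomial.nthRoots (q ^ m + 1) b).toFinset : Set K) := by
      rintro a ⟨_, ha⟩
      rw [Finset.mem_coe, Multiset.mem_toFinset, Polynomial.mem_nthRoots (by omega), pow_succ,
        ← bar_apply, mul_comm]
      exact ha
    refine (Set.ncard_le_ncard h1 (Set.toFinite _)).trans ?_
    rw [Set.ncard_coe_finset]
    exact (Multiset.toFinset_card_le _).trans (Polynomial.card_nthRoots _ _)

/-- lower bound for the unitary group -/
theorem unit_lower (hq : Odd (Fintype.card F)) (hm : finrank F K = 2 * m) (hm0 : 0 < m)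
    {lam : K} (hl : bar F K m lam = -lam) (hl0 : lam ≠ 0) {j : K}
    {ν : F} (hν : ¬ IsSquare ν) (hj2 : j ^ 2 = algebraMap F K ν) (hjb : bar F K m j = -j)
    (hjq : j ^ Fintype.card F = -j) (E : IntermediateField F K) (hE : finrank F E = 2) :
    Fintype.card F ^ (m * m) * (Fintype.card F ^ 2 - 2)
      ≤ (UU (bil F K m lam) (LinearMap.mulLeft F j)).ncard * (Fintype.card F ^ 2 - 1) := by
  have hν0 : ν ≠ 0 := by rintro rfl; exact hν IsSquare.zero
  have hj0 : j ≠ 0 := by
    rintro rfl
    rw [zero_pow (by norm_num)] at hj2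
    exact hν0 ((map_eq_zero _).mp hj2.symm)
  have hjE : j ∈ E := by
    apply mem_of_pow
    rw [hE, sq, pow_mul, hjq, hq.neg_pow, hjq, neg_neg]
  exact UU_lower (nonDeg_bil hm hl0) (bil_swap hm hl) (two_ne_zero' hq) hν hm hm0
    (mem_roots hm hj2 hjb) (uu_large hq hm hm0 hl hl0 hj2 hjb E hE hjE hj0)
    (isotropic_count hq hm hm0 hl hl0 hj0 hjb)

end Pool.Agent.H330.Count
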