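import Pool.Agent.H330.CountComm

set_option linter.unusedSectionVars false

/-!
# The witness lemma
-/

namespace Pool.Agent.H330.Count

open Module Finset Polynomial

section

variable {k V : Type} [Field k] [Fintype k] [AddCommGroup V] [Module k V] [Finite V]

theorem finite_end : Finite (Module.End k V) :=
  Finite.of_injective (fun f => (f : V → V)) DFunLike.coe_injective

/-- if all polynomials in `b` are zero or injective, `k[b]` is a field -/
theorem exists_field [Nontrivial V] (b : Module.End k V)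
    (hb : ∀ p : k[X], aeval b p = 0 ∨ Function.Injective (aeval b p)) :
    ∃ (Φ : Type) (_ : Field Φ) (_ : Fintype Φ) (_ : Algebra k Φ) (ρ : Φ →+* Module.End k V),
      (∀ c : k, ρ (algebraMap k Φ c) = algebraMap k (Module.End k V) c) ∧
      (∀ φ, ∃ p : k[X], ρ φ = aeval b p) ∧ ∃ β, ρ β = b := by
  classical
  have : Finite (Module.End k V) := finite_end
  set I : Ideal k[X] := RingHom.ker (aeval b : k[X] →ₐ[k] Module.End k V).toRingHom with hI
  have hmem : ∀ p, p ∈ I ↔ aeval b p = 0 := fun p => Iff.rfl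
  have hprime : I.IsPrime := by
    constructor
    · rw [Ideal.ne_top_iff_one, hmem, map_one]
      intro h
      obtain ⟨v, hv⟩ := exists_ne (0 : V)
      apply hv
      have := congrArg (fun f : Module.End k V => f v) h
      simpa using this
    · intro p q hpq
      rw [hmem] at hpq ⊢
      rw [hmem]
      rcases hb p with h | h
      · left; exact h
      · right
        ext v
        apply h
        have := congrArg (fun f : Module.End k V => f v) hpq
        rw [map_mul] at this
        simpa using this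
  have hbot : I ≠ ⊥ := by
    intro h
    have hint : IsIntegral k b := by
      have : Module.Finite k (Module.End k V) := inferInstance
      exact Algebra.IsIntegral.isIntegral b
    have h1 : minpoly k b ∈ I := (hmem _).mpr (minpoly.aeval k b)
    rw [h, Ideal.mem_bot] at h1
    exact minpoly.ne_zero hint h1
  have hmax : I.IsMaximal := IsPrime.to_maximal_ideal hbot
  let _ : Field (k[X] ⧸ I) := Ideal.Quotient.field I
  let ρ : (k[X] ⧸ I) →+* Module.End k V :=
    Ideal.Quotient.lift I (aeval b : k[X] →ₐ[k] Module.End k V).toRingHom (fun a ha => ha)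
  have hnt : Nontrivial (Module.End k V) := inferInstance
  have hρ : Function.Injective ρ := by
    rw [injective_iff_map_eq_zero]
    intro x hx
    obtain ⟨p, rfl⟩ := Ideal.Quotient.mk_surjective x
    rw [Ideal.Quotient.eq_zero_iff_mem]
    exact hx
  have hfin : Finite (k[X] ⧸ I) := Finite.of_injective ρ hρ
  refine ⟨k[X] ⧸ I, inferInstance, Fintype.ofFinite _, inferInstance, ρ, ?_, ?_, ?_⟩
  · intro c
    have : (algebraMap k (k[X] ⧸ I) c) = Ideal.Quotient.mk I (C c) := rfl
    rw [this]
    change aeval b (C c) = _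
    rw [aeval_C]
  · intro φ
    obtain ⟨p, rfl⟩ := Ideal.Quotient.mk_surjective φ
    exact ⟨p, rfl⟩
  · refine ⟨Ideal.Quotient.mk I X, ?_⟩
    change aeval b X = _
    rw [aeval_X]

theorem comm_aeval {T b : Module.End k V} (h : ∀ x, T (b x) = b (T x)) (p : k[X]) :
    ∀ x, T (aeval b p x) = aeval b p (T x) := by
  induction p using Polynomial.induction_on with
  | C a =>
    intro x
    rw [aeval_C, Module.algebraMap_end_apply, Module.algebraMap_end_apply, map_smul]
  | add p q hp hq =>
    intro x
    rw [map_add, LinearMap.add_apply, LinearMap.add_apply, map_add, hp, hq]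
  | monomial n a ih =>
    intro x
    rw [pow_succ, ← mul_assoc, map_mul, aeval_X, Module.End.mul_apply, Module.End.mul_apply, ih, h]

theorem symm_aeval {ω : V →ₗ[k] V →ₗ[k] k} {b : Module.End k V}
    (h : ∀ x y, ω (b x) y = ω x (b y)) (p : k[X]) :
    ∀ x y, ω (aeval b p x) y = ω x (aeval b p y) := by
  induction p using Polynomial.induction_on with
  | C a =>
    intro x y
    rw [aeval_C, Module.algebraMap_end_apply, Module.algebraMap_end_apply, map_smul, map_smul]
    rfl
  | add p q hp hq =>
    intro x y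
    rw [map_add, LinearMap.add_apply, LinearMap.add_apply, map_add, map_add, LinearMap.add_apply,
      hp, hq]
  | monomial n a ih =>
    intro x y
    have hc := comm_aeval (T := b) (b := b) (fun x => rfl) (C a * X ^ n) y
    rw [pow_succ, ← mul_assoc, map_mul, aeval_X, Module.End.mul_apply, Module.End.mul_apply, ih, h,
      hc]

theorem not_sq_of_odd {Φ : Type} [Field Φ] [Finite Φ] [Algebra k Φ] {ν : k} (hν : ¬ IsSquare ν)
    (hodd : Odd (finrank k Φ)) : ¬ IsSquare (algebraMap k Φ ν) := by
  rintro ⟨r, hr⟩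
  have h : Even (finrank k Φ) := by
    apply even_of_sq (LinearMap.mulLeft k r) hν
    intro x
    rw [LinearMap.mulLeft_apply, LinearMap.mulLeft_apply, ← mul_assoc, ← hr, Algebra.smul_def]
  exact (Nat.not_even_iff_odd.mpr hodd) h

theorem nonsq_mul {Φ : Type} [Field Φ] [Finite Φ] {x y : Φ} (hx : ¬ IsSquare x)
    (hy : ¬ IsSquare y) : IsSquare (x * y) := by
  classical
  have := Fintype.ofFinite Φ
  have hx0 : x ≠ 0 := by rintro rfl; exact hx IsSquare.zero
  have hy0 : y ≠ 0 := by rintro rfl; exact hy IsSquare.zero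
  rw [← quadraticChar_one_iff_isSquare (mul_ne_zero hx0 hy0), map_mul,
    quadraticChar_neg_one_iff_not_isSquare.mpr hx, quadraticChar_neg_one_iff_not_isSquare.mpr hy]
  norm_num

/-- The witness lemma. -/
theorem witness {ω : V →ₗ[k] V →ₗ[k] k} (hω : NonDeg ω) (hsw : ∀ x y, ω y x = - ω x y)
    (h2 : (2 : k) ≠ 0) {m : ℕ} (hm : finrank k V = 2 * m) (hmo : Odd m) {ν : k}
    (hν : ¬ IsSquare ν) (𝒯 : Set (V →ₗ[k] V))
    (hadj : ∀ T ∈ 𝒯, ∃ ε : k, ∀ x y, ω x (T y) = ε * ω (T x) y)
    (h : V ≃ₗ[k] V) (hiso : ∀ x y, ω (h x) (h y) = ω x y)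
    (hcomm : ∀ T ∈ 𝒯, ∀ x, h (T x) = T (h x))
    (hne : ¬ ∀ x, h x = x) (hne' : ¬ ∀ x, h x = -x) :
    (∃ W : Submodule k V, W ≠ ⊥ ∧ W ≠ ⊤ ∧ NonDeg (resForm ω W) ∧ ∀ T ∈ 𝒯, ∀ x ∈ W, T x ∈ W) ∨
    (∃ W : Submodule k V, W ≠ ⊥ ∧ Isot ω W ∧ ∀ T ∈ 𝒯, ∀ x ∈ W, T x ∈ W) ∨
    (∃ J ∈ Roots k ω ν, ∀ T ∈ 𝒯, ∀ x, J (T x) = T (J x)) := by
  classical
  by_cases hred : ∃ W : Submodule k V, W ≠ ⊥ ∧ W ≠ ⊤ ∧ ∀ T ∈ 𝒯, ∀ x ∈ W, T x ∈ W
  · obtain ⟨W, hW0, hW1, hW⟩ := hred
    by_cases hR : W ⊓ perp ω W = ⊥
    · left
      refine ⟨W, hW0, hW1, ?_, hW⟩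
      intro x hx
      have : (x : V) ∈ W ⊓ perp ω W := by
        refine ⟨x.2, fun y hy => ?_⟩
        rw [hsw]
        have := hx ⟨y, hy⟩
        rw [resForm_apply] at this
        rw [this, neg_zero]
      rw [hR, Submodule.mem_bot] at this
      exact Subtype.ext this
    · right; left
      refine ⟨W ⊓ perp ω W, hR, ?_, ?_⟩
      · rintro x ⟨hx, _⟩ y ⟨_, hy⟩
        exact hy x hx
      · rintro T hT x ⟨hx, hx'⟩
        obtain ⟨ε, hε⟩ := hadj T hT
        refine ⟨hW T hT x hx, fun y hy => ?_⟩
        rw [hε, hx' (T y) (hW T hT y hy), mul_zero]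
  · right; right
    have hirr : ∀ W : Submodule k V, (∀ T ∈ 𝒯, ∀ x ∈ W, T x ∈ W) → W = ⊥ ∨ W = ⊤ := by
      intro W hW
      by_contra hcon
      push Not at hcon
      exact hred ⟨W, hcon.1, hcon.2, hW⟩
    have hmpos : 0 < m := hmo.pos
    have hnt : Nontrivial V := by
      apply Module.nontrivial_of_finrank_pos (R := k)
      omega
    -- operators commuting with 𝒯 are zero or injective
    have hzi : ∀ f : Module.End k V, (∀ T ∈ 𝒯, ∀ x, T (f x) = f (T x)) →
        f = 0 ∨ Function.Injective f := by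
      intro f hf
      rcases hirr (LinearMap.ker f) (by
        intro T hT x hx
        rw [LinearMap.mem_ker] at hx ⊢
        rw [← hf T hT, hx, map_zero]) with h1 | h1
      · right; exact LinearMap.ker_eq_bot.mp h1
      · left; exact LinearMap.ker_eq_top.mp h1
    have hs1 : ∀ x, h (h.symm x) = x := h.apply_symm_apply
    have hs2 : ∀ x, h.symm (h x) = x := h.symm_apply_apply
    have hcomm' : ∀ T ∈ 𝒯, ∀ x, h.symm (T x) = T (h.symm x) := by
      intro T hT x
      apply h.injective
      rw [hs1, hcomm T hT, hs1]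
    obtain ⟨a, ha⟩ : ∃ a : Module.End k V, a = (h : V →ₗ[k] V) - (h.symm : V →ₗ[k] V) := ⟨_, rfl⟩
    obtain ⟨b, hb⟩ : ∃ b : Module.End k V, b = (h : V →ₗ[k] V) + (h.symm : V →ₗ[k] V) := ⟨_, rfl⟩
    have hax : ∀ x, a x = h x - h.symm x := fun x => by rw [ha]; rfl
    have hbx : ∀ x, b x = h x + h.symm x := fun x => by rw [hb]; rfl
    have hiso1 : ∀ x y, ω (h x) y = ω x (h.symm y) := by
      intro x y
      have := hiso x (h.symm y)
      rwa [hs1] at this
    have hiso2 : ∀ x y, ω (h.symm x) y = ω x (h y) := by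
      intro x y
      have := hiso (h.symm x) y
      rw [hs1] at this
      exact this.symm
    have hTa : ∀ T ∈ 𝒯, ∀ x, T (a x) = a (T x) := by
      intro T hT x
      rw [hax, hax, map_sub, hcomm T hT, hcomm' T hT]
    have hTb : ∀ T ∈ 𝒯, ∀ x, T (b x) = b (T x) := by
      intro T hT x
      rw [hbx, hbx, map_add, hcomm T hT, hcomm' T hT]
    have hab : ∀ x, a (b x) = b (a x) := by
      intro x
      rw [hax, hbx, hbx, hax]
      simp only [map_add, map_sub, hs1, hs2]
      abel
    have haskew : ∀ x y, ω (a x) y = - ω x (a y) := by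
      intro x y
      rw [hax, hax, map_sub, LinearMap.sub_apply, map_sub, hiso1, hiso2]; ring
    have hbsymm : ∀ x y, ω (b x) y = ω x (b y) := by
      intro x y
      rw [hbx, hbx, map_add, LinearMap.add_apply, map_add, hiso1, hiso2]; ring
    have ha0 : a ≠ 0 := by
      intro h0
      have h1 : ∀ x, h x = h.symm x := by
        intro x
        have := congrArg (fun f : Module.End k V => f x) h0
        simp only [hax, LinearMap.zero_apply] at this
        exact sub_eq_zero.mp this
      have h3 : ∀ x, h (h x) = x := by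
        intro x; rw [h1 (h x), hs2]
      rcases hzi ((h : V →ₗ[k] V) - 1) (by
        intro T hT x
        change T (h x - x) = h (T x) - T x
        rw [map_sub, hcomm T hT]) with h4 | h4
      · apply hne
        intro x
        have := congrArg (fun f : Module.End k V => f x) h4
        exact sub_eq_zero.mp this
      · apply hne'
        intro x
        have h5 : ((h : V →ₗ[k] V) - 1) (h x + x) = ((h : V →ₗ[k] V) - 1) 0 := by
          change h (h x + x) - (h x + x) = h 0 - 0
          rw [map_add, h3, map_zero]; abel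
        exact eq_neg_of_add_eq_zero_left (h4 h5)
    obtain ⟨Φ, iF, iT, iA, ρ, hρ1, hρ2, β, hβ⟩ := exists_field b (fun p =>
      hzi (aeval b p) (fun T hT x => comm_aeval (hTb T hT) p x))
    let _ : Module Φ V := Module.compHom V ρ
    have hsm : ∀ (φ : Φ) (x : V), φ • x = ρ φ x := fun φ x => rfl
    have _ : IsScalarTower k Φ V := ⟨by
      intro c φ x
      rw [hsm, hsm, Algebra.smul_def, map_mul, hρ1, Module.End.mul_apply,
        Module.algebraMap_end_apply]⟩
    have hρa : ∀ (φ : Φ) x, a (ρ φ x) = ρ φ (a x) := by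
      intro φ x
      obtain ⟨p, hp⟩ := hρ2 φ
      rw [hp]
      exact comm_aeval hab p x
    have hρT : ∀ (φ : Φ), ∀ T ∈ 𝒯, ∀ x, T (ρ φ x) = ρ φ (T x) := by
      intro φ T hT x
      obtain ⟨p, hp⟩ := hρ2 φ
      rw [hp]
      exact comm_aeval (hTb T hT) p x
    have hρs : ∀ (φ : Φ) x y, ω (ρ φ x) y = ω x (ρ φ y) := by
      intro φ x y
      obtain ⟨p, hp⟩ := hρ2 φ
      rw [hp]
      exact symm_aeval hbsymm p x y
    have hρinj : Function.Injective ρ := ρ.injective
    let aΦ : V →ₗ[Φ] V :=
      { toFun := a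
        map_add' := a.map_add
        map_smul' := fun φ x => hρa φ x }
    have haa : ∀ x, a (a x) = ρ (β ^ 2 - 4) x := by
      intro x
      have e4 : ρ (β ^ 2 - 4) x = b (b x) - (4 : k) • x := by
        have : ρ (4 : Φ) = algebraMap k (Module.End k V) 4 := by
          have e5 : algebraMap k Φ 4 = 4 := map_ofNat _ 4
          rw [← hρ1, e5]
        rw [map_sub, map_pow, hβ, this, LinearMap.sub_apply, sq, Module.End.mul_apply,
          Module.algebraMap_end_apply]
      rw [e4, hax (a x), hax x, hbx (b x), hbx x]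
      simp only [map_add, map_sub, hs1, hs2]
      have : (4 : k) • x = x + x + x + x := by
        rw [show (4 : k) = 1 + 1 + 1 + 1 by norm_num, add_smul, add_smul, add_smul, one_smul]
      rw [this]; abel
    have hνΦ0 : ¬ IsSquare (β ^ 2 - 4) := by
      rintro ⟨c, hc⟩
      have h4 : ∀ x, a (a x) = ρ c (ρ c x) := by
        intro x
        rw [haa, hc, map_mul, Module.End.mul_apply]
      have hkill : ∀ (f : Module.End k V), (∀ x y, ω (f x) y = ω x (f y)) → a ≠ f := by
        intro f hf haf
        apply ha0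
        ext x
        apply hω
        intro y
        have e1 := haskew x y
        have e2 : ω (a x) y = ω x (a y) := by rw [haf]; exact hf x y
        have e3 : 2 * ω (a x) y = 0 := by linear_combination e1 + e2
        exact (mul_eq_zero.mp e3).resolve_left h2
      rcases hzi (a - ρ c) (by
        intro T hT x
        rw [LinearMap.sub_apply, LinearMap.sub_apply, map_sub, hTa T hT, hρT c T hT]) with h5 | h5
      · exact hkill (ρ c) (hρs c) (sub_eq_zero.mp h5)
      · apply hkill (-(ρ c))
        · intro x y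
          rw [LinearMap.neg_apply, LinearMap.neg_apply, map_neg, LinearMap.neg_apply, map_neg, hρs]
        · ext x
          have h6 : (a - ρ c) (a x + ρ c x) = (a - ρ c) 0 := by
            rw [map_zero, LinearMap.sub_apply, map_add, map_add, h4, hρa]
            abel
          have h7 := h5 h6
          rw [LinearMap.neg_apply]
          exact eq_neg_of_add_eq_zero_left h7
    have heven : Even (finrank Φ V) := even_of_sq aΦ hνΦ0 (fun x => haa x)
    have hdim : finrank k Φ * finrank Φ V = 2 * m := by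
      rw [← hm]; exact Module.finrank_mul_finrank k Φ V
    have hodd : Odd (finrank k Φ) := by
      obtain ⟨r, hr⟩ := heven
      have h5 : finrank k Φ * r = m := by
        rw [hr, ← two_mul] at hdim
        have : 2 * (finrank k Φ * r) = 2 * m := by rw [← hdim]; ring
        omega
      exact (Nat.odd_mul.mp (h5 ▸ hmo)).1
    have hνΦ : ¬ IsSquare (algebraMap k Φ ν) := not_sq_of_odd hν hodd
    obtain ⟨c, hc⟩ := nonsq_mul hνΦ hνΦ0
    have hD0 : (β ^ 2 - 4) ≠ 0 := by
      intro h0; rw [h0] at hνΦ0; exact hνΦ0 IsSquare.zero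
    refine ⟨ρ (c / (β ^ 2 - 4)) ∘ₗ a, ⟨?_, ?_, ?_⟩, ?_⟩
    · intro x y
      rw [LinearMap.comp_apply, LinearMap.comp_apply, hρs, haskew, hρa]
    · intro x
      rw [LinearMap.comp_apply, LinearMap.comp_apply, hρa, haa, ← Module.End.mul_apply,
        ← Module.End.mul_apply, ← map_mul, ← map_mul]
      have : c / (β ^ 2 - 4) * (c / (β ^ 2 - 4)) * (β ^ 2 - 4) = algebraMap k Φ ν := by
        rw [mul_assoc, div_mul_cancel₀ _ hD0, div_mul_eq_mul_div, ← hc, mul_div_assoc, div_self hD0, mul_one]
      rw [this, hρ1, Module.algebraMap_end_apply]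
    · intro r x
      rw [map_smul]
    · intro T hT x
      rw [LinearMap.comp_apply, LinearMap.comp_apply, ← hTa T hT, hρT _ T hT]

end

end Pool.Agent.H330.Count
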