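import Pool.Agent.H373.MN.H7

/-!
# Harada's conjecture and primitive permutation groups with three normal subgroups
-/

set_option autoImplicit false
set_option linter.unusedSectionVars false
set_option linter.style.haveILetI false

open scoped BigOperators Classical MatrixGroups

noncomputable section

namespace Pool.Agent.H330.HA

open Pool.Agent.H373.BU hiding Ind
open Pool.Agent.H373.MN
open MonoidAlgebra hiding coeff_sum

section defs

variable {K G : Type} [Field K] [Group G]

/-- All coefficients of the element `a` of the group algebra `KG` are in the valuation ring `O`. -/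
def Integral (O : ValuationSubring K) (a : MonoidAlgebra K G) : Prop := ∀ g, a.coeff g ∈ O

/-- `e` is a block idempotent: a primitive idempotent of the centre of `OG`. -/
structure IsPBlock (O : ValuationSubring K) (e : MonoidAlgebra K G) : Prop where
  idem : e * e = e
  central : ∀ a, e * a = a * e
  integral : Integral O e
  ne_zero : e ≠ 0
  primitive : ∀ f : MonoidAlgebra K G, f * f = f → (∀ a, f * a = a * f) → Integral O f →
    f * e = f → f = 0 ∨ f = e

/-- The coefficients of `f` at all elements of `G` whose order is divisible by `p` are zero. -/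
def Vanishes (p : ℕ) (f : MonoidAlgebra K G) : Prop := ∀ g, p ∣ orderOf g → f.coeff g = 0

/-- **Harada's conjecture** for the blocks of `G`: a nonzero central idempotent `f` of `KG` with
`f e = f`, `e` a block idempotent, whose coefficients at the `p`-singular elements are zero, is equal
to `e`. -/
def Harada (p : ℕ) (O : ValuationSubring K) (G : Type) [Group G] : Prop :=
  ∀ e : MonoidAlgebra K G, IsPBlock O e → ∀ f : MonoidAlgebra K G, f * f = f →
    (∀ a, f * a = a * f) → f * e = f → f ≠ 0 → Vanishes p f → f = e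

end defs

section integral

variable {K G : Type} [Field K] [Group G] {O : ValuationSubring K}

theorem Integral.zero : Integral O (0 : MonoidAlgebra K G) := fun g => by
  rw [coeff_zero]
  exact O.zero_mem

theorem Integral.add {a b : MonoidAlgebra K G} (ha : Integral O a) (hb : Integral O b) :
    Integral O (a + b) := fun g => by
  rw [coeff_add]
  exact O.add_mem _ _ (ha g) (hb g)

theorem Integral.smul {r : K} (hr : r ∈ O) {a : MonoidAlgebra K G} (ha : Integral O a) :
    Integral O (r • a) := fun g => by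
  rw [coeff_smul]
  exact O.mul_mem _ _ hr (ha g)

theorem Integral.sum {ι : Type} (s : Finset ι) (a : ι → MonoidAlgebra K G)
    (h : ∀ i ∈ s, Integral O (a i)) : Integral O (∑ i ∈ s, a i) := by
  induction s using Finset.induction_on with
  | empty => exact Integral.zero
  | insert i s hi ih =>
    rw [Finset.sum_insert hi]
    exact (h i (Finset.mem_insert_self i s)).add
      (ih fun j hj => h j (Finset.mem_insert_of_mem hj))

theorem mem_of_pow {x : K} {n : ℕ} (hn : 0 < n) (hx : x ^ n = 1) : x ∈ O := by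
  rcases O.mem_or_inv_mem x with h | h
  · exact h
  · have hx0 : x ≠ 0 := by
      rintro rfl
      rw [zero_pow hn.ne'] at hx
      exact zero_ne_one hx
    have h1 : x = (x⁻¹) ^ (n - 1) := by
      have h2 : x⁻¹ ^ n = 1 := by rw [inv_pow, hx, inv_one]
      have h3 : x⁻¹ ^ (n - 1) * x⁻¹ = 1 := by
        rw [← pow_succ, Nat.sub_add_cancel hn, h2]
      field_simp at h3
      rw [inv_pow]
      field_simp
      rw [← pow_succ', Nat.sub_add_cancel hn, hx]
    rw [h1]
    exact pow_mem h _

theorem inv_mem_of {p : ℕ} [hp : Fact p.Prime] (hpO : (p : K) ∈ O.nonunits) {m : ℕ}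
    (hm : ¬ p ∣ m) : ((m : K))⁻¹ ∈ O := by
  have h1 : IsCoprime (m : ℤ) (p : ℤ) := by
    rw [Nat.isCoprime_iff_coprime]
    exact ((Nat.Prime.coprime_iff_not_dvd hp.out).mpr hm).symm
  obtain ⟨a, b, hab⟩ := h1
  have hab' : (a : K) * m + b * p = 1 := by exact_mod_cast congrArg (Int.cast : ℤ → K) hab
  have hv1 : ∀ x : K, x ∈ O → O.valuation x ≤ 1 := fun x hx => (O.valuation_le_one_iff x).mpr hx
  have hint : ∀ z : ℤ, (z : K) ∈ O := fun z => intCast_mem O z
  have hnat : ∀ z : ℕ, (z : K) ∈ O := fun z => natCast_mem O z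
  have hpv : O.valuation (p : K) < 1 := O.mem_nonunits_iff.mp hpO
  have hmv : O.valuation (m : K) = 1 := by
    by_contra hne
    have hlt : O.valuation (m : K) < 1 := lt_of_le_of_ne (hv1 _ (hnat m)) hne
    have h2 : O.valuation ((a : K) * m + b * p) < 1 := by
      refine lt_of_le_of_lt (O.valuation.map_add _ _) (max_lt ?_ ?_)
      · rw [map_mul]
        exact (mul_le_of_le_one_left' (hv1 _ (hint a))).trans_lt hlt
      · rw [map_mul]
        exact (mul_le_of_le_one_left' (hv1 _ (hint b))).trans_lt hpv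
    rw [hab', map_one] at h2
    exact lt_irrefl _ h2
  rw [← O.valuation_le_one_iff, map_inv₀, hmv, inv_one]

end integral

section mon

variable {K X V G : Type} [Field K] [Group X] [Group V] [Group G] [Fintype X] [Fintype V]
  (I : Mon K X V G) {u : K} (hu : u * (Fintype.card V : K) = 1)

theorem pow_form (v : V) (g : G) (n : ℕ) :
    ∃ v', (I.i v * I.j g) ^ n = I.i v' * I.j (g ^ n) := by
  induction n with
  | zero => exact ⟨1, by simp⟩
  | succ n ih =>
    obtain ⟨v', h⟩ := ih
    exact ⟨_, by rw [pow_succ, h, I.mul_form, pow_succ]⟩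

theorem dvd_order {p : ℕ} [hp : Fact p.Prime] (hV : ¬ p ∣ Fintype.card V) (v : V) (g : G)
    (h : p ∣ orderOf (I.i v * I.j g)) : p ∣ orderOf g := by
  obtain ⟨v', h1⟩ := pow_form I v g (orderOf g)
  rw [pow_orderOf_eq_one, map_one, mul_one] at h1
  have h2 : (I.i v * I.j g) ^ (orderOf g * Fintype.card V) = 1 := by
    rw [pow_mul, h1, ← map_pow, pow_card_eq_one, map_one]
  have h3 := h.trans (orderOf_dvd_of_pow_eq_one h2)
  rcases hp.out.dvd_mul.mp h3 with h4 | h4
  · exact h4
  · exact absurd h4 hV

theorem vanishes_cen {p : ℕ} [hp : Fact p.Prime] (hV : ¬ p ∣ Fintype.card V)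
    {b : MonoidAlgebra K G} (hb : Vanishes p b) : Vanishes p (I.cen u b) := by
  intro x hx
  rw [I.cen_coeff]
  refine Finset.sum_eq_zero fun t _ => ?_
  by_cases h : t.out⁻¹ * x * t.out ∈ I.Y
  · obtain ⟨v, g, hvg⟩ := h
    rw [← hvg, I.coeff_form, hb g, mul_zero]
    refine dvd_order I hV v g ?_
    rw [hvg]
    have : orderOf (t.out⁻¹ * x * t.out) = orderOf x := by
      have := orderOf_injective (MulAut.conj (t.out⁻¹ : X)).toMonoidHom
        (MulAut.conj (t.out⁻¹ : X)).injective x
      simpa using this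
    rw [this]
    exact hx
  · exact I.coeff_not b h

theorem lam_mem (O : ValuationSubring K) (v : V) : ((I.lam v : Kˣ) : K) ∈ O := by
  refine mem_of_pow (n := Fintype.card V) Fintype.card_pos ?_
  rw [← Units.val_pow_eq_pow_val, ← map_pow, pow_card_eq_one, map_one, Units.val_one]

theorem integral_cen {O : ValuationSubring K} (hu' : u ∈ O) {b : MonoidAlgebra K G}
    (hb : Integral O b) : Integral O (I.cen u b) := by
  intro x
  rw [I.cen_coeff]
  refine sum_mem fun t _ => ?_
  by_cases h : t.out⁻¹ * x * t.out ∈ I.Y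
  · obtain ⟨v, g, hvg⟩ := h
    rw [← hvg, I.coeff_form]
    exact O.mul_mem _ _ (O.mul_mem _ _ hu' (lam_mem I O _)) (hb g)
  · rw [I.coeff_not b h]
    exact O.zero_mem

theorem integral_wt (O : ValuationSubring K) (x : X) : Integral O (I.wt x) := by
  by_cases h : x ∈ I.Y
  · obtain ⟨v, g, rfl⟩ := h
    rw [I.wt_form]
    intro g'
    rw [coeff_single, Finsupp.single_apply]
    split_ifs
    · exact lam_mem I O v
    · exact O.zero_mem
  · rw [I.wt_not h]
    exact Integral.zero

theorem integral_sg {O : ValuationSubring K} {a : MonoidAlgebra K X} (ha : Integral O a) :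
    Integral O (I.sg a) :=
  Integral.sum _ _ fun x _ => (integral_wt I O x).smul (ha x)

include hu in
theorem isPBlock_cen {O : ValuationSubring K} (hu' : u ∈ O) {e : MonoidAlgebra K G}
    (he : IsPBlock O e) : IsPBlock O (I.cen u e) where
  idem := by rw [← I.cen_mul hu, he.idem]
  central := I.cen_comm hu he.central
  integral := integral_cen I hu' he.integral
  ne_zero h := he.ne_zero (I.cen_inj hu (h.trans I.cen_zero.symm))
  primitive := by
    intro F hF hc hint hFe
    have hE : I.El u * F = F := by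
      calc I.El u * F = I.El u * (I.cen u e * F) := by rw [← hc (I.cen u e), hFe]
        _ = I.El u * I.cen u e * F := by rw [mul_assoc]
        _ = I.cen u e * F := by rw [I.El_cen hu]
        _ = F := by rw [← hc (I.cen u e), hFe]
    obtain ⟨z, hz, hz'⟩ := I.exists_cen hu hc hE
    have h1 : z * z = z := I.cen_inj hu (by rw [I.cen_mul hu, hz', hF])
    have h2 : z * e = z := I.cen_inj hu (by rw [I.cen_mul hu, hz', hFe])
    have h3 : Integral O z := by
      rw [← I.sg_cen hu hz, hz']
      exact integral_sg I hint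
    rcases he.primitive z h1 hz h3 h2 with h | h
    · left
      rw [← hz', h, I.cen_zero]
    · right
      rw [← hz', h]

include I hu in
theorem harada_of {p : ℕ} [hp : Fact p.Prime] (hV : ¬ p ∣ Fintype.card V)
    {O : ValuationSubring K} (hu' : u ∈ O) (hX : Harada p O X) : Harada p O G := by
  intro e he f hf hc hfe hf0 hv
  refine I.cen_inj hu (hX _ (isPBlock_cen I hu hu' he) _ ?_ (I.cen_comm hu hc) ?_ ?_
    (vanishes_cen I hV hv))
  · rw [← I.cen_mul hu, hf]
  · rw [← I.cen_mul hu, hfe]
  · exact fun h => hf0 (I.cen_inj hu (h.trans I.cen_zero.symm))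

end mon

theorem harada_XP {K : Type} [Field K] [IsAlgClosed K] [CharZero K] {p : ℕ} [hp : Fact p.Prime]
    {O : ValuationSubring K} (hpO : (p : K) ∈ O.nonunits) {q : ℕ} (h : Good p q) (G : Type)
    [Group G] [Finite G] {n : ℕ} (hn : Nat.card G ^ 2 + 3 * Nat.card G ≤ n)
    (hX : Harada p O (XP n q)) : Harada p O G := by
  haveI : Fact q.Prime := ⟨h.prime⟩
  haveI : NeZero q := ⟨h.prime.ne_zero⟩
  haveI := Fintype.ofFinite G
  haveI := Fintype.ofFinite (XP n q)
  have h5 := h.ndvd.2.1
  obtain ⟨ζ, hζ⟩ : ∃ ζ : Kˣ, IsPrimitiveRoot ζ ((q - 1) / 2) := by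
    haveI : NeZero ((q - 1) / 2) := ⟨by omega⟩
    haveI : NeZero (((q - 1) / 2 : ℕ) : K) := ⟨by
      rw [Nat.cast_ne_zero]
      exact NeZero.ne _⟩
    obtain ⟨ζ, hζ⟩ := HasEnoughRootsOfUnity.exists_primitiveRoot K ((q - 1) / 2)
    exact ⟨(hζ.isUnit (NeZero.ne _)).unit, IsPrimitiveRoot.coe_units_iff.mp (by
      rwa [IsUnit.unit_spec])⟩
  obtain ⟨C, hC⟩ := exists_col h hζ
  obtain ⟨S, ι, hS0, hι, hs, hS⟩ := Irr.exists_rel (H := G) (n := n) (by
    rwa [← Nat.card_eq_fintype_card])
  haveI := Fintype.ofFinite (C.W fun ω : Arc n => decide (S ω.1.1 ω.1.2))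
  have hV : ¬ p ∣ Fintype.card (C.W fun ω : Arc n => decide (S ω.1.1 ω.1.2)) := by
    rw [← Nat.card_eq_fintype_card]
    exact C.card_W _ hC
  have hV0 : (Fintype.card (C.W fun ω : Arc n => decide (S ω.1.1 ω.1.2)) : K) ≠ 0 := by
    rw [Nat.cast_ne_zero]
    exact Fintype.card_ne_zero
  exact harada_of (xMon C S hS0 ι hι hs hS) (inv_mul_cancel₀ hV0) hV (inv_mem_of hpO hV) hX

theorem main (p : ℕ) [hp : Fact p.Prime] :
    (∀ N : ℕ, ∃ q, N < q ∧ Good p q) ∧
    ∀ q, Good p q →
      (∀ n, 5 ≤ n → ThreeNormal p q n (XP n q) ∧ IsPrimitiveGroup (XP n q)) ∧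
      ∀ (K : Type) [Field K] [IsAlgClosed K] [CharZero K] (O : ValuationSubring K),
        (p : K) ∈ O.nonunits →
        (∀ (G : Type) [Group G] [Finite G] (n : ℕ), Nat.card G ^ 2 + 3 * Nat.card G ≤ n →
          Harada p O (XP n q) → Harada p O G) ∧
        (∀ S : Set ℕ, S.Infinite →
          ((∀ (G : Type) [Group G] [Finite G], Harada p O G) ↔
            ∀ n ∈ S, Harada p O (XP n q))) ∧
        ((∀ (G : Type) [Group G] [Finite G], Harada p O G) ↔
          ∀ (X : Type) [Group X] [Finite X], PrimitiveThree X → Harada p O X) := by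
  refine ⟨exists_good p, fun q h => ⟨fun n hn => ⟨threeNormal_XP h hn, primitive_XP h hn⟩, ?_⟩⟩
  intro K _ _ _ O hpO
  haveI : NeZero q := ⟨h.prime.ne_zero⟩
  have key : ∀ S : Set ℕ, S.Infinite → (∀ n ∈ S, Harada p O (XP n q)) →
      ∀ (G : Type) [Group G] [Finite G], Harada p O G := by
    intro S hS h1 G _ _
    obtain ⟨n, hnS, hn⟩ := hS.exists_gt (Nat.card G ^ 2 + 3 * Nat.card G)
    exact harada_XP hpO h G hn.le (h1 n hnS)
  refine ⟨fun G _ _ n hn => harada_XP hpO h G hn, fun S hS => ⟨?_, key S hS⟩, ?_, ?_⟩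
  · exact fun h1 n _ => h1 (XP n q)
  · exact fun h1 X _ _ _ => h1 X
  · exact fun h1 => key _ infinite_five fun n hn => h1 (XP n q) (primitiveThree_XP h hn)

end Pool.Agent.H330.HA
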