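import Pool.Agent.H373.MN.H7

/-!
# The Malle–Robinson conjecture and primitive permutation groups with three normal subgroups
-/

set_option autoImplicit false
set_option linter.style.haveILetI false

namespace Pool.Agent.H330.MR

open Pool.Agent.H373.BU Pool.Agent.H373.MN

/-- `X` has a section `K / N` (`N` a normal subgroup of the subgroup `K` of `X`) which is an
elementary abelian `p`-group of rank `r`; in other words, a subgroup `K` of `X` has a homomorphism
onto `(Z/p) ^ r`. -/
def HasSection (p : ℕ) (X : Type) [Group X] (r : ℕ) : Prop :=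
  ∃ (K : Subgroup X) (N : Subgroup K) (_ : N.Normal),
    Nonempty (K ⧸ N ≃* Multiplicative (Fin r → ZMod p))

/-- The sectional `p`-rank `s(X)`: the largest rank of an elementary abelian section. -/
noncomputable def sRank (p : ℕ) (X : Type) [Group X] : ℕ := sSup {r | HasSection p X r}

/-- The inequality `l(B) ≤ p ^ s(D)` for all blocks `B` of `kG`. -/
def MalleRobinson (p : ℕ) (k G : Type) [Field k] [Group G] : Prop :=
  ∀ (B : Blk k G) (D : Subgroup G), B.IsDef p D → B.l ≤ p ^ sRank p D

/-- A relation between finite groups and numbers which depends only on the isomorphism type of the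
group. -/
def Inv (R : (D : Type) → [Group D] → ℕ → Prop) : Prop :=
  ∀ (D E : Type) [Group D] [Group E], Nonempty (D ≃* E) → ∀ m, R D m → R E m

theorem hasSection_hom {p : ℕ} {X : Type} [Group X] {r : ℕ} :
    HasSection p X r ↔ ∃ (K : Subgroup X) (f : K →* Multiplicative (Fin r → ZMod p)),
      Function.Surjective f := by
  constructor
  · rintro ⟨K, N, hN, ⟨f⟩⟩
    exact ⟨K, f.toMonoidHom.comp (QuotientGroup.mk' N),
      f.surjective.comp (QuotientGroup.mk'_surjective N)⟩
  · rintro ⟨K, f, hf⟩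
    exact ⟨K, f.ker, inferInstance, ⟨QuotientGroup.quotientKerEquivOfSurjective f hf⟩⟩

theorem HasSection.congr {p : ℕ} {X Y : Type} [Group X] [Group Y] (e : X ≃* Y) {r : ℕ}
    (h : HasSection p X r) : HasSection p Y r := by
  rw [hasSection_hom] at h ⊢
  obtain ⟨K, f, hf⟩ := h
  exact ⟨K.map e.toMonoidHom, f.comp (e.subgroupMap K).symm.toMonoidHom,
    hf.comp (e.subgroupMap K).symm.surjective⟩

theorem sRank_congr {p : ℕ} {X Y : Type} [Group X] [Group Y] (e : X ≃* Y) :
    sRank p X = sRank p Y := by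
  unfold sRank
  congr 1
  ext r
  exact ⟨fun h => h.congr e, fun h => h.congr e.symm⟩

/-- The sectional rank is attained, and it is an upper bound of the ranks of the elementary abelian
sections. -/
theorem sRank_spec {p : ℕ} [hp : Fact p.Prime] (X : Type) [Group X] [Finite X] :
    IsGreatest {r | HasSection p X r} (sRank p X) := by
  have hb : BddAbove {r | HasSection p X r} := by
    refine ⟨Nat.card X, ?_⟩
    intro r hr
    obtain ⟨K, f, hf⟩ := hasSection_hom.mp hr
    have h1 : Nat.card (Multiplicative (Fin r → ZMod p)) = p ^ r := by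
      rw [Nat.card_congr Multiplicative.toAdd, Nat.card_fun, Nat.card_zmod, Nat.card_fin]
    have h2 : p ^ r ≤ Nat.card X := by
      rw [← h1]
      exact (Nat.card_le_card_of_surjective f hf).trans
        (Nat.card_le_card_of_injective K.subtype K.subtype_injective)
    exact (Nat.lt_pow_self hp.out.one_lt).le.trans h2
  have hne : {r | HasSection p X r}.Nonempty := by
    refine ⟨0, hasSection_hom.mpr ⟨⊥, 1, fun x => ⟨1, ?_⟩⟩⟩
    exact Multiplicative.toAdd.injective (Subsingleton.elim _ _)
  exact ⟨Nat.sSup_mem hne hb, fun r hr => le_csSup hb hr⟩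

theorem key {p : ℕ} [hp : Fact p.Prime] {q : ℕ} (h : Good p q) {k : Type} [Field k]
    [IsAlgClosed k] [CharP k p] (R : (D : Type) → [Group D] → ℕ → Prop) (hR : Inv R) {S : Set ℕ}
    (hS : S.Infinite)
    (h1 : ∀ n ∈ S, ∀ (B : Blk k (XP n q)) (D : Subgroup (XP n q)), B.IsDef p D → R D B.l)
    (G : Type) [Group G] [Finite G] (B : Blk k G) (D : Subgroup G) (hD : B.IsDef p D) :
    R D B.l := by
  haveI : NeZero q := ⟨h.prime.ne_zero⟩
  obtain ⟨n, hnS, hn⟩ := hS.exists_gt (Nat.card G ^ 2 + 3 * Nat.card G)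
  obtain ⟨B', -, h2, h3, -⟩ := repro_XPk (k := k) h G hn.le B
  obtain ⟨D', hD', he⟩ := h2 D hD
  rw [← h3]
  exact hR D' D he _ (h1 n hnS B' D' hD')

theorem main (p : ℕ) [hp : Fact p.Prime] :
    (∀ N : ℕ, ∃ q, N < q ∧ Good p q) ∧
    ∀ q, Good p q →
      (∀ n, 5 ≤ n → ThreeNormal p q n (XP n q) ∧ IsPrimitiveGroup (XP n q)) ∧
      ∀ (k : Type) [Field k] [IsAlgClosed k] [CharP k p],
        (∀ (G : Type) [Group G] [Finite G] (n : ℕ), Nat.card G ^ 2 + 3 * Nat.card G ≤ n →
          Repro p k G (XP n q)) ∧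
        (∀ S : Set ℕ, S.Infinite →
          ((∀ (G : Type) [Group G] [Finite G], MalleRobinson p k G) ↔
            ∀ n ∈ S, MalleRobinson p k (XP n q))) ∧
        ((∀ (G : Type) [Group G] [Finite G], MalleRobinson p k G) ↔
          ∀ (X : Type) [Group X] [Finite X], PrimitiveThree X → MalleRobinson p k X) ∧
        ∀ R : (D : Type) → [Group D] → ℕ → Prop, Inv R →
          ((∀ (G : Type) [Group G] [Finite G] (B : Blk k G) (D : Subgroup G),
              B.IsDef p D → R D B.l) ↔
            ∀ (X : Type) [Group X] [Finite X], PrimitiveThree X →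
              ∀ (B : Blk k X) (D : Subgroup X), B.IsDef p D → R D B.l) := by
  refine ⟨exists_good p, fun q h => ⟨fun n hn => ⟨threeNormal_XP h hn, primitive_XP h hn⟩, ?_⟩⟩
  intro k _ _ _
  haveI : NeZero q := ⟨h.prime.ne_zero⟩
  have hMR : Inv (fun (D : Type) [Group D] (m : ℕ) => m ≤ p ^ sRank p D) := by
    rintro D E _ _ ⟨e⟩ m hm
    rw [← sRank_congr e]
    exact hm
  refine ⟨fun G _ _ n hn => repro_XPk h G hn, fun S hS => ⟨?_, ?_⟩, ⟨?_, ?_⟩, ?_⟩
  · exact fun h1 n _ => h1 (XP n q)
  · exact fun h1 G _ _ => key h _ hMR hS h1 G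
  · exact fun h1 X _ _ _ => h1 X
  · exact fun h1 G _ _ => key h _ hMR infinite_five
      (fun n hn => h1 (XP n q) (primitiveThree_XP h hn)) G
  · refine fun R hR => ⟨fun h1 X _ _ _ => h1 X, fun h1 G _ _ => ?_⟩
    exact key h R hR infinite_five (fun n hn => h1 (XP n q) (primitiveThree_XP h hn)) G

end Pool.Agent.H330.MR
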