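import Pool.Agent.H330.PU

/-!
# Multiplicities in source algebras of blocks and primitive permutation groups with three normal
subgroups
-/

set_option autoImplicit false
set_option linter.unusedSectionVars false
set_option linter.style.haveILetI false

open scoped BigOperators Classical MatrixGroups

noncomputable section

namespace Pool.Agent.H330.MU

open Pool.Agent.H373.BU hiding Ind
open Pool.Agent.H373.MN
open Pool.Agent.H330.PU
open MonoidAlgebra hiding coeff_sum

/-- `c` is a local primitive idempotent of `(i kG i)^Q`: it lies in the source algebra, commutes with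
the elements of `Q`, is a primitive idempotent of the algebra of these elements, and `Br_Q(c) ≠ 0`. -/
structure IsLocal {k G : Type} [Field k] [Group G] (i : MonoidAlgebra k G) (Q : Subgroup G)
    (c : MonoidAlgebra k G) : Prop where
  left : i * c = c
  right : c * i = c
  fixed : ∀ d ∈ Q, el k d * c = c * el k d
  idem : c * c = c
  br : ∃ g ∈ Subgroup.centralizer (Q : Set G), c.coeff g ≠ 0
  primitive : ∀ f, (∀ d ∈ Q, el k d * f = f * el k d) → f * f = f → f * c = f → c * f = f →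
    f = 0 ∨ f = c

/-- `b` and `c` belong to the same point of `Q` on the source algebra: `b = x y` and `c = y x` for
elements `x`, `y` of `(i kG i)^Q`. -/
def SamePoint {k G : Type} [Field k] [Group G] (i : MonoidAlgebra k G) (Q : Subgroup G)
    (b c : MonoidAlgebra k G) : Prop :=
  ∃ x y : MonoidAlgebra k G, i * x = x ∧ x * i = x ∧ i * y = y ∧ y * i = y ∧
    (∀ d ∈ Q, el k d * x = x * el k d) ∧ (∀ d ∈ Q, el k d * y = y * el k d) ∧
    x * y = b ∧ y * x = c

/-- The multiplicity `m (Q_δ, P_γ)` is at least `m`, for some local points `γ` of `P` and `δ` of `Q`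
on the source algebra of `s`, where `Q ≤ P ≤ D`: there are an idempotent `a` in `γ` and `m` pairwise
orthogonal idempotents in `δ`, each of which satisfies `c a = a c = c`. -/
def HasMult {p : ℕ} {k : Type} [Field k] (s : Src p k) (m : ℕ) : Prop :=
  ∃ (Q P : Subgroup s.G) (a : MonoidAlgebra k s.G) (c : Fin m → MonoidAlgebra k s.G),
    Q ≤ P ∧ P ≤ s.D ∧ IsLocal s.i P a ∧ (∀ j, IsLocal s.i Q (c j)) ∧
    (∀ j l, SamePoint s.i Q (c j) (c l)) ∧ (∀ j l, j ≠ l → c j * c l = 0) ∧
    ∀ j, a * c j = c j ∧ c j * a = c j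

/-- The multiplicities in the source algebras of the blocks of the groups in `C` with defect groups
isomorphic to `P` are bounded. -/
def BddMult (p : ℕ) (k : Type) [Field k] (P : Type) [Group P] (C : Cls) : Prop :=
  ∃ N : ℕ, ∀ s : Src p k, C s.G → Nonempty (s.D ≃* P) → ∀ m, HasMult s m → m ≤ N

section core

variable {k X V G : Type} [Field k] [Group X] [Group V] [Group G] [Fintype X] [Fintype V]
  [Finite G] (I : Mon k X V G) {u : k} (hu : u * (Fintype.card V : k) = 1)

theorem uniq_j {v : V} {g d : G} (h : I.j d * (I.i v * I.j g) = I.i v * I.j g * I.j d) :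
    d * g = g * d := by
  have h1 : I.i (I.act d v) * I.j (d * g) = I.i v * I.j (g * d) := by
    rw [map_mul, map_mul, ← mul_assoc, ← I.conj_i, mul_assoc, h, mul_assoc]
  exact (I.uniq h1).2

include hu in
theorem br_ph {Q : Subgroup G} {c : MonoidAlgebra k G} :
    (∃ x ∈ Subgroup.centralizer ((Q.map I.j : Subgroup X) : Set X), (ph I u c).coeff x ≠ 0) ↔
      ∃ g ∈ Subgroup.centralizer (Q : Set G), c.coeff g ≠ 0 := by
  constructor
  · rintro ⟨x, hx, hx'⟩
    by_cases hY : x ∈ I.Y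
    · obtain ⟨v, g, rfl⟩ := hY
      rw [ph_apply, I.coeff_form] at hx'
      refine ⟨g, ?_, right_ne_zero_of_mul hx'⟩
      rw [Subgroup.mem_centralizer_iff]
      intro d hd
      exact uniq_j I (Subgroup.mem_centralizer_iff.mp hx (I.j d) ⟨d, hd, rfl⟩)
    · rw [ph_apply, I.coeff_not _ hY] at hx'
      exact absurd rfl hx'
  · rintro ⟨g, hg, hg'⟩
    refine ⟨I.j g, ?_, ?_⟩
    · rw [Subgroup.mem_centralizer_iff]
      rintro _ ⟨d, hd, rfl⟩
      rw [← map_mul, ← map_mul, Subgroup.mem_centralizer_iff.mp hg d hd]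
    · have h1 := I.coeff_form (u := u) c 1 g
      rw [map_one, one_mul] at h1
      rw [ph_apply, h1, inv_one, map_one, Units.val_one, mul_one]
      exact mul_ne_zero (left_ne_zero_of_mul_eq_one hu) hg'

theorem fixed_ph {Q : Subgroup G} {c : MonoidAlgebra k G} (h : ∀ d ∈ Q, el k d * c = c * el k d) :
    ∀ x ∈ Q.map I.j, el k x * ph I u c = ph I u c * el k x := by
  rintro _ ⟨d, hd, rfl⟩
  rw [el_ph, ph_el, h d hd]

include hu in
theorem isLocal_ph {i c : MonoidAlgebra k G} {Q : Subgroup G} (h : IsLocal i Q c) :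
    IsLocal (ph I u i) (Q.map I.j) (ph I u c) where
  left := by rw [← ph_mul I hu, h.left]
  right := by rw [← ph_mul I hu, h.right]
  fixed := fixed_ph I h.fixed
  idem := by rw [← ph_mul I hu, h.idem]
  br := (br_ph I hu).mpr h.br
  primitive := by
    intro F hF1 hF2 hF3 hF4
    have h1 : I.ep u * F * I.ep u = F := by
      have h2 : I.ep u * F = F := by rw [← hF4, ← mul_assoc, ep_ph I hu]
      have h3 : F * I.ep u = F := by rw [← hF3, mul_assoc, ph_ep I hu]
      rw [h2, h3]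
    rw [corner I hu] at h1
    obtain ⟨a, ha⟩ : ∃ a, ph I u a = F := ⟨_, h1⟩
    subst ha
    have h2 : ∀ d ∈ Q, el k d * a = a * el k d := by
      intro d hd
      apply ph_inj I hu
      rw [← el_ph, ← ph_el]
      exact hF1 _ ⟨d, hd, rfl⟩
    have h3 : a * a = a := ph_inj I hu (by rw [ph_mul I hu, hF2])
    have h4 : a * c = a := ph_inj I hu (by rw [ph_mul I hu, hF3])
    have h5 : c * a = a := ph_inj I hu (by rw [ph_mul I hu, hF4])
    rcases h.primitive a h2 h3 h4 h5 with h6 | h6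
    · left
      rw [h6, map_zero]
    · right
      rw [h6]

include hu in
theorem samePoint_ph {i b c : MonoidAlgebra k G} {Q : Subgroup G} (h : SamePoint i Q b c) :
    SamePoint (ph I u i) (Q.map I.j) (ph I u b) (ph I u c) := by
  obtain ⟨x, y, h1, h2, h3, h4, h5, h6, h7, h8⟩ := h
  refine ⟨ph I u x, ph I u y, ?_, ?_, ?_, ?_, fixed_ph I h5, fixed_ph I h6, ?_, ?_⟩
  · rw [← ph_mul I hu, h1]
  · rw [← ph_mul I hu, h2]
  · rw [← ph_mul I hu, h3]
  · rw [← ph_mul I hu, h4]
  · rw [← ph_mul I hu, h7]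
  · rw [← ph_mul I hu, h8]

end core

theorem exists_mult {p : ℕ} [hp : Fact p.Prime] {k : Type} [Field k] [CharP k p] (s : Src p k)
    {X V : Type} [Group X] [Group V] [Finite X] [Finite V] (I : Mon k X V s.G)
    (hV : ¬ p ∣ Nat.card V) : ∃ (e' : MonoidAlgebra k X) (D' : Subgroup X)
      (i' : MonoidAlgebra k X) (h' : IsSource p e' D' i'), Nonempty (s.D ≃* D') ∧
        ∀ m, HasMult s m → HasMult ⟨X, e', D', i', h'⟩ m := by
  haveI := Fintype.ofFinite X
  haveI := Fintype.ofFinite V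
  have hV0 : (Fintype.card V : k) ≠ 0 := by
    rw [← Nat.card_eq_fintype_card, Ne, CharP.cast_eq_zero_iff k p]
    exact hV
  have hu : ((Fintype.card V : k)⁻¹) * (Fintype.card V : k) = 1 := inv_mul_cancel₀ hV0
  refine ⟨I.cen _ s.e, s.D.map I.j, ph I _ s.i, isSource_ph I hu s.h,
    ⟨s.D.equivMapOfInjective I.j I.j_inj⟩, ?_⟩
  rintro m ⟨Q, P, a, c, h1, h2, h3, h4, h5, h6, h7⟩
  refine ⟨Q.map I.j, P.map I.j, ph I _ a, fun j => ph I _ (c j), Subgroup.map_mono h1,
    Subgroup.map_mono h2, isLocal_ph I hu h3, fun j => isLocal_ph I hu (h4 j),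
    fun j l => samePoint_ph I hu (h5 j l), fun j l hjl => ?_, fun j => ⟨?_, ?_⟩⟩
  · change ph I _ (c j) * ph I _ (c l) = 0
    rw [← ph_mul I hu, h6 j l hjl, map_zero]
  · change ph I _ a * ph I _ (c j) = ph I _ (c j)
    rw [← ph_mul I hu, (h7 j).1]
  · change ph I _ (c j) * ph I _ a = ph I _ (c j)
    rw [← ph_mul I hu, (h7 j).2]

section main

variable {p q : ℕ} [hp : Fact p.Prime] (h : Good p q) {k : Type} [Field k]
  [IsAlgClosed k] [CharP k p]

include h in
theorem exists_XPm (s : Src p k) {n : ℕ} (hn : Nat.card s.G ^ 2 + 3 * Nat.card s.G ≤ n) :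
    ∃ t : Src p k, Nonempty (t.G ≃* XP n q) ∧ (5 ≤ n → PrimitiveThree t.G) ∧
      Nonempty (s.D ≃* t.D) ∧ ∀ m, HasMult s m → HasMult t m := by
  haveI : NeZero q := ⟨h.prime.ne_zero⟩
  obtain ⟨V, _, _, I, hV⟩ := exists_monK (k := k) h s.G hn
  obtain ⟨e', D', i', h', hs, hs'⟩ := exists_mult s I hV
  exact ⟨⟨XP n q, e', D', i', h'⟩, ⟨MulEquiv.refl _⟩, fun hn => primitiveThree_XP h hn, hs, hs'⟩

theorem bddMult_of {P : Type} [Group P] {C : Cls}
    (hC : ∀ s : Src p k, ∃ t : Src p k, C t.G ∧ Nonempty (s.D ≃* t.D) ∧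
      ∀ m, HasMult s m → HasMult t m) :
    BddMult p k P All ↔ BddMult p k P C := by
  constructor
  · rintro ⟨N, hr⟩
    exact ⟨N, fun s _ hs => hr s trivial hs⟩
  · rintro ⟨N, hr⟩
    refine ⟨N, fun s _ hs m hm => ?_⟩
    obtain ⟨t, ht, ⟨f⟩, hst⟩ := hC s
    obtain ⟨g⟩ := hs
    exact hr t ht ⟨f.symm.trans g⟩ m (hst m hm)

end main

theorem main (p : ℕ) [hp : Fact p.Prime] :
    (∀ N : ℕ, ∃ q, N < q ∧ Good p q) ∧
    ∀ q, Good p q →
      (∀ n, 5 ≤ n → ThreeNormal p q n (XP n q) ∧ IsPrimitiveGroup (XP n q)) ∧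
      ∀ (k : Type) [Field k] [IsAlgClosed k] [CharP k p],
        (∀ (s : Src p k) (n : ℕ), Nat.card s.G ^ 2 + 3 * Nat.card s.G ≤ n →
          ∃ t : Src p k, Nonempty (t.G ≃* XP n q) ∧ Nonempty (s.D ≃* t.D) ∧
            ∀ m, HasMult s m → HasMult t m) ∧
        ∀ (P : Type) [Group P],
          (∀ S : Set ℕ, S.Infinite → (BddMult p k P All ↔ BddMult p k P (InXP q S))) ∧
          (BddMult p k P All ↔ BddMult p k P PrimitiveThree) := by
  refine ⟨exists_good p, fun q h => ⟨fun n hn => ⟨threeNormal_XP h hn, primitive_XP h hn⟩, ?_⟩⟩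
  intro k _ _ _
  refine ⟨fun s n hn => ?_, fun P _ => ⟨fun S hS => bddMult_of fun s => ?_,
    bddMult_of fun s => ?_⟩⟩
  · obtain ⟨t, h1, -, h3, h4⟩ := exists_XPm h s hn
    exact ⟨t, h1, h3, h4⟩
  · obtain ⟨n, hnS, hn⟩ := hS.exists_gt (Nat.card s.G ^ 2 + 3 * Nat.card s.G)
    obtain ⟨t, h1, -, h3, h4⟩ := exists_XPm h s hn.le
    exact ⟨t, ⟨n, hnS, h1⟩, h3, h4⟩
  · obtain ⟨n, hnS, hn⟩ := infinite_five.exists_gt (Nat.card s.G ^ 2 + 3 * Nat.card s.G)
    obtain ⟨t, -, h2, h3, h4⟩ := exists_XPm h s hn.le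
    exact ⟨t, h2 hnS, h3, h4⟩

end Pool.Agent.H330.MU
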