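import Mathlib

namespace Pool.Agent.H330.Minus

open Module

variable (F K : Type) [Field F] [Fintype F] [Field K] [Fintype K] [Algebra F K] (m : ℕ)

/-- the automorphism `x ↦ x^(q^m)` -/
noncomputable def bar : K ≃ₐ[F] K := (FiniteField.frobeniusAlgEquivOfAlgebraic F K) ^ m

theorem bar_apply (x : K) : bar F K m x = x ^ (Fintype.card F ^ m) := by
  unfold bar
  rw [AlgEquiv.coe_pow, FiniteField.coe_frobeniusAlgEquivOfAlgebraic_iterate]

variable {F K m}

theorem cardK (hm : finrank F K = 2 * m) : Fintype.card K = Fintype.card F ^ (2 * m) := by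
  rw [← hm]; exact Module.card_eq_pow_finrank (K := F) (V := K)

theorem bar_bar (hm : finrank F K = 2 * m) (x : K) : bar F K m (bar F K m x) = x := by
  rw [bar_apply, bar_apply, ← pow_mul, ← pow_add, ← two_mul, ← cardK hm, FiniteField.pow_card]

theorem sq_sub_one {a : ℕ} (ha : 1 ≤ a) : a ^ 2 - 1 = (a - 1) * (a + 1) := by
  obtain ⟨s, rfl⟩ := Nat.exists_eq_add_of_le ha
  have : (1 + s) ^ 2 = (1 + s - 1) * (1 + s + 1) + 1 := by
    simp; ring
  rw [this]; simp

theorem dvd_half {q : ℕ} (hq : Odd q) {k : ℕ} : (q - 1) ∣ (q ^ (2 * k) - 1) / 2 ∧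
    Even ((q ^ (2 * k) - 1) / 2) := by
  obtain ⟨r, hr⟩ : ∃ r, q ^ k = 2 * r + 1 := hq.pow
  have h1 : q ^ (2 * k) - 1 = (q ^ k - 1) * (q ^ k + 1) := by
    rw [mul_comm 2 k, pow_mul, sq_sub_one (by omega)]
  have h2 : (q ^ (2 * k) - 1) / 2 = (q ^ k - 1) * (r + 1) := by
    rw [h1, hr]
    have : (2 * r + 1 - 1) * (2 * r + 1 + 1) = ((2 * r + 1 - 1) * (r + 1)) * 2 := by
      simp; ring
    rw [this, Nat.mul_div_cancel _ (by norm_num)]
  rw [h2]
  constructor
  · apply Dvd.dvd.mul_right
    exact Nat.sub_one_dvd_pow_sub_one q k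
  · apply Even.mul_right
    rw [hr]
    simp

/-- a nonsquare of `F` is a square in `K`, with root fixed by `bar` (when `m` is even) -/
theorem exists_root (hq : Odd (Fintype.card F)) (hm : finrank F K = 2 * m) (hme : Even m)
    (ν : F) (hν0 : ν ≠ 0) :
    ∃ e : K, e ^ 2 = algebraMap F K ν ∧ bar F K m e = e := by
  obtain ⟨k, rfl⟩ := hme
  set q := Fintype.card F with hqdef
  have hν : ν ^ (q - 1) = 1 := FiniteField.pow_card_sub_one_eq_one ν hν0
  have hK2 : ringChar K ≠ 2 := by
    intro h2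
    have : (2 : ℕ) ∣ Fintype.card K := by
      have := (FiniteField.even_card_iff_char_two (F := K)).mp h2
      exact Nat.dvd_of_mod_eq_zero this
    rw [cardK hm] at this
    have h3 : ¬ Even (Fintype.card F ^ (2 * (k + k))) := by
      rw [Nat.not_even_iff_odd]; exact hq.pow
    exact h3 (even_iff_two_dvd.mpr this)
  have hsq : IsSquare (algebraMap F K ν) := by
    rw [FiniteField.isSquare_iff hK2 (by simpa using hν0)]
    have hcard : Fintype.card K / 2 = (q ^ (2 * (k + k)) - 1) / 2 := by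
      rw [cardK hm]
      have : Odd (q ^ (2 * (k + k))) := hq.pow
      obtain ⟨r, hr⟩ := this
      rw [hr]; omega
    rw [hcard]
    obtain ⟨c, hc⟩ := (dvd_half hq (k := k + k)).1
    rw [hc, ← map_pow, pow_mul, hν, one_pow, map_one]
  obtain ⟨e, he⟩ := hsq
  have he2 : e ^ 2 = algebraMap F K ν := by rw [he, sq]
  refine ⟨e, he2, ?_⟩
  have he0 : e ≠ 0 := by
    rintro rfl
    apply hν0
    have : algebraMap F K ν = 0 := by rw [← he2]; simp
    simpa using this
  rw [bar_apply]
  have h1 : e ^ (q ^ (k + k) - 1) = 1 := by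
    have hodd : Odd (q ^ (k + k)) := hq.pow
    obtain ⟨r, hr⟩ := hodd
    have h2 : q ^ (k + k) - 1 = 2 * ((q ^ (2 * k) - 1) / 2) := by
      rw [two_mul k, hr]; simp
    obtain ⟨c, hc⟩ := (dvd_half hq (k := k)).1
    rw [h2, pow_mul, he2, hc, ← map_pow, pow_mul, hν, one_pow, map_one]
  have h3 : q ^ (k + k) = (q ^ (k + k) - 1) + 1 := by
    have : 0 < q ^ (k + k) := Nat.pow_pos (Fintype.card_pos)
    omega
  rw [h3, pow_succ, h1, one_mul]

/-- square roots of `-1` are fixed by `bar` -/
theorem bar_of_sq_eq_neg_one (hq : Odd (Fintype.card F)) (hme : Even m)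
    (α : K) (hα : α ^ 2 = -1) : bar F K m α = α := by
  obtain ⟨k, rfl⟩ := hme
  set q := Fintype.card F with hqdef
  rw [bar_apply]
  have h1 : α ^ (q ^ (k + k) - 1) = 1 := by
    have hodd : Odd (q ^ (k + k)) := hq.pow
    obtain ⟨r, hr⟩ := hodd
    have h2 : q ^ (k + k) - 1 = 2 * ((q ^ (2 * k) - 1) / 2) := by
      rw [two_mul k, hr]; simp
    have h3 := (dvd_half hq (k := k)).2
    rw [h2, pow_mul, hα, h3.neg_one_pow]
  have h3 : q ^ (k + k) = (q ^ (k + k) - 1) + 1 := by
    have : 0 < q ^ (k + k) := Nat.pow_pos (Fintype.card_pos)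
    omega
  rw [← hqdef, h3, pow_succ, h1, one_mul]

/-- an element `z` of norm one whose eighth power has large order -/
theorem exists_z (hq : Odd (Fintype.card F)) (hm : finrank F K = 2 * m) (hme : Even m)
    (hm0 : 0 < m) :
    ∃ z : K, bar F K m z * z = 1 ∧ ∀ j : ℕ, 0 < j → z ^ (8 * j) = 1 →
      Fintype.card F ^ m + 1 ≤ 2 * j := by
  classical
  set q := Fintype.card F with hqdef
  obtain ⟨ζ, hζ⟩ := IsCyclic.exists_generator (α := Kˣ)
  have hord : orderOf ζ = q ^ (2 * m) - 1 := by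
    rw [orderOf_eq_card_of_forall_mem_zpowers hζ, Nat.card_eq_fintype_card, Fintype.card_units,
      cardK hm]
  have hq1 : 1 ≤ q ^ m := Nat.one_le_pow _ _ Fintype.card_pos
  have hfac : q ^ (2 * m) - 1 = (q ^ m - 1) * (q ^ m + 1) := by
    rw [mul_comm 2 m, pow_mul, sq_sub_one hq1]
  have hq3 : 3 ≤ q := by
    have : 1 < q := Fintype.one_lt_card
    obtain ⟨r, hr⟩ := hq
    omega
  have hqm : 2 < q ^ m := by
    calc 2 < q := by omega
      _ = q ^ 1 := (pow_one q).symm
      _ ≤ q ^ m := Nat.pow_le_pow_right (by omega) hm0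
  have hz : orderOf (ζ ^ (q ^ m - 1)) = q ^ m + 1 := by
    rw [orderOf_pow_of_dvd (by omega) (by rw [hord, hfac]; exact Dvd.intro _ rfl), hord, hfac]
    exact Nat.mul_div_cancel_left _ (by omega)
  refine ⟨((ζ ^ (q ^ m - 1) : Kˣ) : K), ?_, ?_⟩
  · rw [bar_apply, ← pow_succ, ← hqdef, ← hz, ← Units.val_pow_eq_pow_val, pow_orderOf_eq_one,
      Units.val_one]
  · intro j hj hzj
    rw [← Units.val_pow_eq_pow_val, Units.val_eq_one] at hzj
    have hdvd : q ^ m + 1 ∣ 8 * j := by rw [← hz]; exact orderOf_dvd_of_pow_eq_one hzj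
    -- q^m + 1 = 2 * odd
    obtain ⟨k, rfl⟩ := hme
    obtain ⟨r, hr⟩ : ∃ r, q ^ k = 2 * r + 1 := hq.pow
    have h2 : q ^ (k + k) + 1 = 2 * (2 * (r * (r + 1)) + 1) := by
      rw [pow_add, hr]; ring
    rw [h2] at hdvd ⊢
    have h4 : (2 * (r * (r + 1)) + 1) ∣ 4 * j := by
      obtain ⟨c, hc⟩ := hdvd
      exact ⟨c, by nlinarith⟩
    have hcop : Nat.Coprime (2 * (r * (r + 1)) + 1) 4 := by
      have : Nat.Coprime (2 * (r * (r + 1)) + 1) 2 := by
        rw [Nat.coprime_two_right]; exact ⟨_, rfl⟩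
      exact Nat.Coprime.pow_right 2 this
    have h5 := hcop.dvd_of_dvd_mul_left h4
    have := Nat.le_of_dvd hj h5
    omega

theorem exists_bar_ne (hm : finrank F K = 2 * m) (hm0 : 0 < m) :
    ∃ w : K, bar F K m w ≠ w := by
  by_contra hcon
  push Not at hcon
  have h1 : bar F K m = 1 := AlgEquiv.ext hcon
  have h2 := FiniteField.orderOf_frobeniusAlgEquivOfAlgebraic F K
  have h3 : 2 * m ∣ m := by
    rw [← hm, ← h2]
    exact orderOf_dvd_of_pow_eq_one h1
  have := Nat.le_of_dvd hm0 h3
  omega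

theorem two_terms (hq : Odd (Fintype.card F)) (hm : finrank F K = 2 * m)
    (hm0 : 0 < m) (z : K) (hz1 : bar F K m z * z = 1)
    (hz : ∀ j : ℕ, 0 < j → z ^ (8 * j) = 1 → Fintype.card F ^ m + 1 ≤ 2 * j)
    (h : K →ₗ[F] K) (hh : ∀ x, h ((z ^ 8 + (z ^ 8)⁻¹) * x) = (z ^ 8 + (z ^ 8)⁻¹) * h x) :
    ∃ α β : K, ∀ x, h x = α * x + β * bar F K m x := by
  classical
  set q := Fintype.card F with hqdef
  have hz0 : z ≠ 0 := by rintro rfl; simp at hz1
  set T : K := z ^ 8 with hT
  have hT0 : T ≠ 0 := pow_ne_zero _ hz0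
  set ζ0 : K := T + T⁻¹ with hζ0
  have hbz : bar F K m z = z⁻¹ := eq_inv_of_mul_eq_one_left hz1
  have hbT : bar F K m T = T⁻¹ := by rw [hT, map_pow, hbz, inv_pow]
  have hbζ : bar F K m ζ0 = ζ0 := by
    rw [hζ0, map_add, map_inv₀, hbT, inv_inv, add_comm]
  set L0 : IntermediateField F K := IntermediateField.adjoin F {ζ0} with hL0
  have hsub : L0.toSubalgebra = Algebra.adjoin F {ζ0} :=
    IntermediateField.adjoin_toSubalgebra _
  have hmemL : ∀ a : K, a ∈ L0 → a ∈ Algebra.adjoin F {ζ0} := by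
    intro a ha; rw [← hsub]; exact ha
  -- (1) h is L0-linear
  have hlin : ∀ a ∈ L0, ∀ x, h (a * x) = a * h x := by
    intro a ha
    induction hmemL a ha using Algebra.adjoin_induction with
    | mem y hy =>
      rw [Set.mem_singleton_iff] at hy
      subst hy
      exact hh
    | algebraMap r =>
      intro x
      rw [← Algebra.smul_def, ← Algebra.smul_def, map_smul]
    | add y z' hy hz' ihy ihz =>
      intro x
      rw [add_mul, add_mul, map_add, ihy (by rw [← hsub] at hy; exact hy),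
        ihz (by rw [← hsub] at hz'; exact hz')]
    | mul y z' hy hz' ihy ihz =>
      intro x
      rw [mul_assoc, ihy (by rw [← hsub] at hy; exact hy),
        ihz (by rw [← hsub] at hz'; exact hz'), mul_assoc]
  -- bar fixes L0
  have hbarL : ∀ a ∈ L0, bar F K m a = a := by
    intro a ha
    induction hmemL a ha using Algebra.adjoin_induction with
    | mem y hy =>
      rw [Set.mem_singleton_iff] at hy
      subst hy
      exact hbζ
    | algebraMap r => exact AlgEquiv.commutes _ r
    | add y z' hy hz' ihy ihz =>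
      rw [map_add, ihy (by rw [← hsub] at hy; exact hy),
        ihz (by rw [← hsub] at hz'; exact hz')]
    | mul y z' hy hz' ihy ihz =>
      rw [map_mul, ihy (by rw [← hsub] at hy; exact hy),
        ihz (by rw [← hsub] at hz'; exact hz')]
  set k := finrank F L0 with hk
  have hmul : k * finrank L0 K = 2 * m := by rw [hk, Module.finrank_mul_finrank, hm]
  have hkpos : 0 < k := finrank_pos
  obtain ⟨w, hw⟩ := exists_bar_ne hm hm0
  have hwL : w ∉ L0 := fun hc => hw (hbarL w hc)
  -- (3) k ≥ m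
  have hkm : m ≤ k := by
    by_contra hlt
    push Not at hlt
    have hcardL : Fintype.card L0 = q ^ k := Module.card_eq_pow_finrank (K := F) (V := L0)
    have hζmem : ζ0 ∈ L0 := IntermediateField.mem_adjoin_simple_self F ζ0
    have hpow : ζ0 ^ (q ^ k) = ζ0 := by
      have := FiniteField.pow_card (⟨ζ0, hζmem⟩ : L0)
      rw [hcardL] at this
      simpa using congrArg (Subtype.val) this
    have hpow2 : bar F K k ζ0 = ζ0 := by rw [bar_apply]; exact hpow
    rw [hζ0, map_add, map_inv₀] at hpow2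
    set U : K := bar F K k T with hU
    have hU0 : U ≠ 0 := by simpa [hU] using hT0
    have hfac : (U - T) * (U * T - 1) = 0 := by
      field_simp at hpow2
      linear_combination hpow2
    have hUpow : U = T ^ (q ^ k) := by rw [hU, bar_apply]
    have hq3 : 3 ≤ q := by
      have : 1 < q := Fintype.one_lt_card
      obtain ⟨r, hr⟩ := hq
      omega
    have hqk : 3 ≤ q ^ k := by
      calc 3 ≤ q := hq3
        _ = q ^ 1 := (pow_one q).symm
        _ ≤ q ^ k := Nat.pow_le_pow_right (by omega) hkpos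
    have hqkm : 3 * q ^ k ≤ q ^ m := by
      calc 3 * q ^ k ≤ q * q ^ k := Nat.mul_le_mul_right _ hq3
        _ = q ^ (k + 1) := by ring
        _ ≤ q ^ m := Nat.pow_le_pow_right (by omega) hlt
    rcases mul_eq_zero.mp hfac with h1 | h1
    · have h2 : T ^ (q ^ k - 1) = 1 := by
        have h3 : T ^ (q ^ k - 1) * T = T := by
          rw [← pow_succ, Nat.sub_add_cancel (by omega), ← hUpow]
          exact sub_eq_zero.mp h1
        exact mul_right_cancel₀ hT0 (by rw [h3, one_mul])
      rw [hT, ← pow_mul] at h2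
      have := hz _ (by omega) h2
      omega
    · have h2 : T ^ (q ^ k + 1) = 1 := by
        rw [pow_succ, ← hUpow]; exact sub_eq_zero.mp h1
      rw [hT, ← pow_mul] at h2
      have := hz _ (by omega) h2
      omega
  have hfin1 : finrank L0 K ≠ 1 := by
    intro h1
    have : L0 = ⊤ := IntermediateField.finrank_eq_one_iff_eq_top.mp h1
    exact hwL (by rw [this]; trivial)
  have hfin0 : 0 < finrank L0 K := finrank_pos
  have hfin : finrank L0 K = 2 := by
    have h2 : 2 ≤ finrank L0 K := by omega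
    by_contra hne
    have h3 : 3 ≤ finrank L0 K := by omega
    have : 3 * m ≤ k * finrank L0 K := by
      calc 3 * m = m * 3 := by ring
        _ ≤ k * finrank L0 K := Nat.mul_le_mul hkm h3
    omega
  -- basis 1, w
  have hli : LinearIndependent L0 ![(1 : K), w] := by
    rw [LinearIndependent.pair_iff]
    intro s t hst
    by_cases ht : t = 0
    · subst ht
      simp only [zero_smul, add_zero] at hst
      refine ⟨?_, rfl⟩
      rw [Algebra.smul_def, mul_one] at hst
      exact (map_eq_zero _).mp hst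
    · exfalso
      apply hwL
      have h5 : w = -(t⁻¹ * s : L0) • (1 : K) := by
        have h6 : t⁻¹ • (s • (1 : K) + t • w) = 0 := by rw [hst, smul_zero]
        rw [smul_add, smul_smul, smul_smul, inv_mul_cancel₀ ht, one_smul] at h6
        rw [neg_smul]
        exact (neg_eq_of_add_eq_zero_right h6).symm
      rw [h5, Algebra.smul_def, mul_one]
      exact (-(t⁻¹ * s : L0)).2
  have hspan : ∀ x : K, ∃ a b : L0, x = (a : K) + (b : K) * w := by
    intro x
    let B := basisOfLinearIndependentOfCardEqFinrank hli (by simp [hfin])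
    have h7 := B.sum_repr x
    rw [Fin.sum_univ_two] at h7
    have hB0 : B 0 = 1 := by simp [B]
    have hB1 : B 1 = w := by simp [B]
    rw [hB0, hB1, Algebra.smul_def, Algebra.smul_def, mul_one] at h7
    exact ⟨B.repr x 0, B.repr x 1, h7.symm⟩
  have hd : w - bar F K m w ≠ 0 := fun hc => hw (sub_eq_zero.mp hc).symm
  refine ⟨(h w - h 1 * bar F K m w) / (w - bar F K m w),
    (h 1 * w - h w) / (w - bar F K m w), ?_⟩
  intro x
  obtain ⟨a, b, rfl⟩ := hspan x
  have e1 : h ((a : K) + (b : K) * w) = a * h 1 + b * h w := by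
    rw [map_add, hlin _ b.2]
    congr 1
    have := hlin _ a.2 1
    rwa [mul_one] at this
  have e2 : bar F K m ((a : K) + (b : K) * w) = a + b * bar F K m w := by
    rw [map_add, map_mul, hbarL _ a.2, hbarL _ b.2]
  rw [e1, e2]
  field_simp
  ring

end Pool.Agent.H330.Minus
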