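import Pool.Agent.H330.MinusMain

namespace Pool.Agent.H330.Minus

open Module Pool.Agent.H330

variable {F K : Type} [Field F] [Fintype F] [Field K] [Fintype K] [Algebra F K] {m : ℕ}

theorem mem_of_pow (L : IntermediateField F K) (x : K)
    (hx : x ^ (Fintype.card F ^ finrank F L) = x) : x ∈ L := by
  classical
  by_contra hxL
  set k := finrank F L with hk
  have hkpos : 0 < k := finrank_pos
  have hq1 : 1 < Fintype.card F := Fintype.one_lt_card
  have hqk : 1 < Fintype.card F ^ k := Nat.one_lt_pow (by omega) hq1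
  have hcardL : Fintype.card L = Fintype.card F ^ k :=
    Module.card_eq_pow_finrank (K := F) (V := L)
  have hP : (Polynomial.X ^ (Fintype.card F ^ k) - Polynomial.X : Polynomial K) ≠ 0 :=
    FiniteField.X_pow_card_sub_X_ne_zero K hqk
  have hdeg : (Polynomial.X ^ (Fintype.card F ^ k) - Polynomial.X : Polynomial K).natDegree
      = Fintype.card F ^ k := FiniteField.X_pow_card_sub_X_natDegree_eq K hqk
  have h1 : (insert x (Finset.univ.map (Function.Embedding.subtype (fun y => y ∈ L)))).card
      ≤ Fintype.card F ^ k := by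
    rw [← hdeg]
    refine le_trans ?_ (Polynomial.card_roots' _)
    refine le_trans ?_ (Multiset.toFinset_card_le _)
    apply Finset.card_le_card
    intro d hd
    rw [Multiset.mem_toFinset, Polynomial.mem_roots hP, Polynomial.IsRoot.def,
      Polynomial.eval_sub, Polynomial.eval_pow, Polynomial.eval_X]
    rw [Finset.mem_insert] at hd
    rcases hd with rfl | hd
    · rw [hx, sub_self]
    · simp only [Finset.mem_map, Finset.mem_univ, true_and, Function.Embedding.coe_subtype,
        Subtype.exists, exists_prop, exists_eq_right] at hd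
      have := FiniteField.pow_card (⟨d, hd⟩ : L)
      rw [hcardL] at this
      have h2 := congrArg Subtype.val this
      rw [SubmonoidClass.coe_pow] at h2
      rw [h2, sub_self]
  rw [Finset.card_insert_of_notMem (by simpa using hxL), Finset.card_map, Finset.card_univ] at h1
  have : Fintype.card {y // y ∈ L} = Fintype.card F ^ k := hcardL
  omega

theorem pow_of_mem (L : IntermediateField F K) (x : K) (hx : x ∈ L) :
    x ^ (Fintype.card F ^ finrank F L) = x := by
  classical
  have hcardL : Fintype.card L = Fintype.card F ^ finrank F L :=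
    Module.card_eq_pow_finrank (K := F) (V := L)
  have := FiniteField.pow_card (⟨x, hx⟩ : L)
  rw [hcardL] at this
  have h2 := congrArg Subtype.val this
  rwa [SubmonoidClass.coe_pow] at h2

/-- An intermediate field containing `z^8 + z^(-8)` and an element moved by `bar` is everything. -/
theorem eq_top_of_mem (hq : Odd (Fintype.card F)) (hm : finrank F K = 2 * m) (z : K) (hz1 : bar F K m z * z = 1)
    (hz : ∀ j : ℕ, 0 < j → z ^ (8 * j) = 1 → Fintype.card F ^ m + 1 ≤ 2 * j)
    (P : IntermediateField F K) (hP1 : z ^ 8 + (z ^ 8)⁻¹ ∈ P) (w : K) (hw : w ∈ P)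
    (hbw : bar F K m w ≠ w) : P = ⊤ := by
  classical
  set q := Fintype.card F with hqdef
  have hz0 : z ≠ 0 := by rintro rfl; simp at hz1
  set T : K := z ^ 8 with hT
  have hT0 : T ≠ 0 := pow_ne_zero _ hz0
  set ζ0 : K := T + T⁻¹ with hζ0
  have hbz : bar F K m z = z⁻¹ := eq_inv_of_mul_eq_one_left hz1
  have hbT : bar F K m T = T⁻¹ := by rw [hT, map_pow, hbz, inv_pow]
  have hbζ : bar F K m ζ0 = ζ0 := by
    rw [hζ0, map_add, map_inv₀, hbT, inv_inv, add_comm]
  set L0 : IntermediateField F K := IntermediateField.adjoin F {ζ0} with hL0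
  have hsub : L0.toSubalgebra = Algebra.adjoin F {ζ0} :=
    IntermediateField.adjoin_toSubalgebra _
  have hmemL : ∀ a : K, a ∈ L0 → a ∈ Algebra.adjoin F {ζ0} := by
    intro a ha; rw [← hsub]; exact ha
  have hbarL : ∀ a ∈ L0, bar F K m a = a := by
    intro a ha
    induction hmemL a ha using Algebra.adjoin_induction with
    | mem y hy =>
      rw [Set.mem_singleton_iff] at hy
      subst hy
      exact hbζ
    | algebraMap r => exact AlgEquiv.commutes _ r
    | add y z' hy hz' ihy ihz =>
      rw [map_add, ihy (by rw [← hsub] at hy; exact hy),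
        ihz (by rw [← hsub] at hz'; exact hz')]
    | mul y z' hy hz' ihy ihz =>
      rw [map_mul, ihy (by rw [← hsub] at hy; exact hy),
        ihz (by rw [← hsub] at hz'; exact hz')]
  set k := finrank F L0 with hk
  have hkpos : 0 < k := finrank_pos
  have hkm : m ≤ k := by
    by_contra hlt
    push Not at hlt
    have hζmem : ζ0 ∈ L0 := IntermediateField.mem_adjoin_simple_self F ζ0
    have hpow : ζ0 ^ (q ^ k) = ζ0 := pow_of_mem L0 ζ0 hζmem
    have hpow2 : bar F K k ζ0 = ζ0 := by rw [bar_apply]; exact hpow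
    rw [hζ0, map_add, map_inv₀] at hpow2
    set U : K := bar F K k T with hU
    have hU0 : U ≠ 0 := by simpa [hU] using hT0
    have hfac : (U - T) * (U * T - 1) = 0 := by
      field_simp at hpow2
      linear_combination hpow2
    have hUpow : U = T ^ (q ^ k) := by rw [hU, bar_apply]
    have hq3 : 3 ≤ q := by
      have : 1 < q := Fintype.one_lt_card
      obtain ⟨r, hr⟩ := hq
      omega
    have hqk : 3 ≤ q ^ k := by
      calc 3 ≤ q := hq3
        _ = q ^ 1 := (pow_one q).symm
        _ ≤ q ^ k := Nat.pow_le_pow_right (by omega) hkpos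
    have hqkm : 3 * q ^ k ≤ q ^ m := by
      calc 3 * q ^ k ≤ q * q ^ k := Nat.mul_le_mul_right _ hq3
        _ = q ^ (k + 1) := by ring
        _ ≤ q ^ m := Nat.pow_le_pow_right (by omega) hlt
    rcases mul_eq_zero.mp hfac with h1 | h1
    · have h2 : T ^ (q ^ k - 1) = 1 := by
        have h3 : T ^ (q ^ k - 1) * T = T := by
          rw [← pow_succ, Nat.sub_add_cancel (by omega), ← hUpow]
          exact sub_eq_zero.mp h1
        exact mul_right_cancel₀ hT0 (by rw [h3, one_mul])
      rw [hT, ← pow_mul] at h2
      have := hz _ (by omega) h2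
      omega
    · have h2 : T ^ (q ^ k + 1) = 1 := by
        rw [pow_succ, ← hUpow]; exact sub_eq_zero.mp h1
      rw [hT, ← pow_mul] at h2
      have := hz _ (by omega) h2
      omega
  -- P contains L0 properly
  have hle : L0 ≤ P := by
    rw [hL0, IntermediateField.adjoin_le_iff]
    intro x hx
    rw [Set.mem_singleton_iff] at hx
    rw [hx]; exact hP1
  have hdvd : finrank F L0 ∣ finrank F P := IntermediateField.finrank_dvd_of_le_right hle
  have hne : finrank F L0 ≠ finrank F P := by
    intro h
    have : L0 = P := IntermediateField.eq_of_le_of_finrank_eq hle h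
    exact hbw (hbarL w (by rw [this]; exact hw))
  have hPpos : 0 < finrank F P := finrank_pos
  have h2k : 2 * k ≤ finrank F P := by
    obtain ⟨c, hc⟩ := hdvd
    rw [← hk] at hc hne
    have : c ≠ 0 := by rintro rfl; omega
    have : c ≠ 1 := by rintro rfl; omega
    rw [hc]
    nlinarith [Nat.mul_le_mul_left k (show 2 ≤ c by omega)]
  apply IntermediateField.eq_of_le_of_finrank_le le_top
  rw [IntermediateField.finrank_top', hm]
  omega

variable (F) in
/-- `(l + l^q)/2` -/
noncomputable def half (l : K) : K := (l + bar F K 1 l) / 2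

variable (F) in
/-- `(l - l^q)/2` -/
noncomputable def dif (l : K) : K := (l - bar F K 1 l) / 2

theorem two_ne {F K : Type} [Field F] [Fintype F] [Field K] [Algebra F K]
    (hq : Odd (Fintype.card F)) : (2 : K) ≠ 0 := by
  have := (map_ne_zero (algebraMap F K)).mpr (two_ne_zero' hq)
  rwa [map_ofNat] at this

theorem dif_mul_self (l : K) (h2 : (2 : K) ≠ 0) : dif F (l * l) = 2 * half F l * dif F l := by
  unfold dif half
  rw [map_mul]
  field_simp
  ring

theorem frob_mem (L : IntermediateField F K) {l : K} (hl : l ∈ L) : bar F K 1 l ∈ L := by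
  rw [bar_apply]; exact pow_mem hl _

theorem mem_bot_of_dif (h2 : (2 : K) ≠ 0) {l : K} (h : dif F l = 0) :
    l ∈ (⊥ : IntermediateField F K) := by
  apply mem_of_pow
  rw [IntermediateField.finrank_bot]
  have h1 : l - bar F K 1 l = 0 := by
    unfold dif at h
    rcases div_eq_zero_iff.mp h with h | h
    · exact h
    · exact absurd h h2
  rw [bar_apply] at h1
  exact (sub_eq_zero.mp h1).symm

theorem exists_dif_ne (h2 : (2 : K) ≠ 0) (L : IntermediateField F K) (hL : 1 < finrank F L) :
    ∃ l ∈ L, dif F l ≠ 0 := by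
  by_contra hcon
  push Not at hcon
  have : L ≤ ⊥ := fun l hl => mem_bot_of_dif h2 (hcon l hl)
  have h3 : L = ⊥ := le_bot_iff.mp this
  rw [h3, IntermediateField.finrank_bot] at hL
  omega

theorem sq_dif_mem (h2 : (2 : K) ≠ 0) (L P : IntermediateField F K)
    (hL : Odd (finrank F L) ∨ finrank F L = 2)
    (hP : ∀ l ∈ L, half F l ∈ P) : ∀ l ∈ L, dif F l ^ 2 ∈ P := by
  have h2P : (2 : K) ∈ P := by
    have : (2 : K) = 1 + 1 := by norm_num
    rw [this]; exact add_mem (one_mem _) (one_mem _)
  rcases hL with hL | hL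
  · -- odd degree: L ≤ P
    have hstep : ∀ n : ℕ, ∀ l ∈ L, l - (-1) ^ n * (bar F K n l) ∈ P := by
      intro n
      induction n with
      | zero =>
        intro l _
        rw [bar_apply]; simp
      | succ n ih =>
        intro l hl
        have h3 : bar F K n l ∈ L := by rw [bar_apply]; exact pow_mem hl _
        have h4 := hP _ h3
        have h5 : bar F K (n + 1) l = bar F K 1 (bar F K n l) := by
          rw [bar_apply, bar_apply, bar_apply, ← pow_mul, pow_one, pow_succ]
        have h6 : l - (-1) ^ (n + 1) * bar F K (n + 1) l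
            = (l - (-1) ^ n * bar F K n l) + (-1) ^ n * (2 * half F (bar F K n l)) := by
          unfold half
          rw [← h5]
          field_simp
          ring
        rw [h6]
        refine add_mem (ih l hl) (mul_mem ?_ (mul_mem h2P h4))
        exact pow_mem (neg_mem (one_mem _)) n
    have hLP : ∀ l ∈ L, l ∈ P := by
      intro l hl
      have h3 := hstep (finrank F L) l hl
      rw [hL.neg_one_pow, bar_apply, pow_of_mem L l hl] at h3
      have h4 : l = (2 : K)⁻¹ * (l - -1 * l) := by field_simp; ring
      rw [h4]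
      exact mul_mem (inv_mem h2P) h3
    intro l hl
    apply pow_mem
    unfold dif
    exact div_mem (sub_mem (hLP l hl) (hLP _ (frob_mem L hl))) h2P
  · intro l hl
    have h3 : bar F K 1 (bar F K 1 l) = l := by
      have := pow_of_mem L l hl
      rw [hL] at this
      rw [bar_apply, bar_apply, ← pow_mul, pow_one, ← sq, this]
    have h4 : bar F K 1 (dif F l) = - dif F l := by
      unfold dif
      rw [map_div₀, map_sub, h3, map_ofNat]
      ring
    have h5 : dif F l ^ 2 ∈ (⊥ : IntermediateField F K) := by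
      apply mem_of_pow
      rw [IntermediateField.finrank_bot]
      have h6 : bar F K 1 (dif F l ^ 2) = dif F l ^ 2 := by
        rw [map_pow, h4, neg_sq]
      rwa [bar_apply] at h6
    exact (bot_le : ⊥ ≤ P) h5

theorem core2 (hq : Odd (Fintype.card F)) (hm : finrank F K = 2 * m) (hme : Even m)
    (hm0 : 0 < m) (h : K ≃ₗ[F] K) (hO : h ∈ Orth F K m) (z : K) (hz1 : bar F K m z * z = 1)
    (hz : ∀ j : ℕ, 0 < j → z ^ (8 * j) = 1 → Fintype.card F ^ m + 1 ≤ 2 * j)
    (L1 L2 : IntermediateField F K)
    (hL1 : Odd (finrank F L1) ∨ finrank F L1 = 2) (hL1' : 1 < finrank F L1)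
    (hL1d : finrank F L1 ∣ m)
    (hL2 : Odd (finrank F L2) ∨ finrank F L2 = 2) (hL2' : 1 < finrank F L2)
    (hL2d : finrank F L2 ∣ m)
    (n1 : ∀ l ∈ L1, ∃ l' ∈ L1, ∀ x, h (half F l * x + dif F l * bar F K m x)
      = half F l' * h x + dif F l' * bar F K m (h x))
    (n2 : ∀ l ∈ L2, ∃ l' ∈ L2, ∀ x, h (half F l * x + dif F l * (z ^ 4 * bar F K m x))
      = half F l' * h x + dif F l' * (z ^ 4 * bar F K m (h x))) :
    ∃ c : F, ∀ x, h x = c • x := by
  classical
  have h2K : (2 : K) ≠ 0 := two_ne hq
  have hz0 : z ≠ 0 := by rintro rfl; simp at hz1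
  set c := bar F K m with hc
  have hcc : ∀ x, c (c x) = x := bar_bar hm
  have hcz : c z = z⁻¹ := eq_inv_of_mul_eq_one_left hz1
  set t : K := z ^ 4 with ht
  have ht0 : t ≠ 0 := pow_ne_zero _ hz0
  have hct : c t = t⁻¹ := by rw [ht, map_pow, hcz, inv_pow]
  have hq3 : 3 ≤ Fintype.card F := by
    have : 1 < Fintype.card F := Fintype.one_lt_card
    obtain ⟨r, hr⟩ := hq
    omega
  have hqm9 : 9 ≤ Fintype.card F ^ m := by
    obtain ⟨k, rfl⟩ := hme
    calc 9 = 3 ^ 2 := by norm_num
      _ ≤ Fintype.card F ^ 2 := Nat.pow_le_pow_left hq3 2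
      _ ≤ Fintype.card F ^ (k + k) := Nat.pow_le_pow_right (by omega) (by omega)
  -- c fixes elements of L1 and L2
  have hfix : ∀ (L : IntermediateField F K), finrank F L ∣ m → ∀ l ∈ L, c l = l := by
    intro L hLd l hl
    obtain ⟨r, rfl⟩ := hLd
    rw [hc, bar_apply, pow_mul]
    have h3 := pow_of_mem L l hl
    clear * - h3
    induction r with
    | zero => simp
    | succ r ih => rw [pow_succ, pow_mul, ih, h3]
  have hfixA : ∀ (L : IntermediateField F K), finrank F L ∣ m → ∀ l ∈ L,
      c (half F l) = half F l ∧ c (dif F l) = dif F l := by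
    intro L hLd l hl
    have h3 := hfix L hLd l hl
    have h4 := hfix L hLd _ (frob_mem L hl)
    have h5 : c (2 : K) = 2 := map_ofNat c 2
    unfold half dif
    rw [map_div₀, map_add, h3, h4, h5, map_div₀, map_sub, h3, h4, h5]
    exact ⟨rfl, rfl⟩
  set δ : K := t⁻¹ - t with hδ
  have hcδ : c δ = -δ := by rw [hδ, map_sub, map_inv₀, hct, inv_inv]; ring
  -- orders
  have hord : ∀ j, 0 < j → j ≤ 4 → z ^ (8 * j) ≠ 1 := by
    intro j hj hj4 hzj
    have := hz j hj hzj
    omega
  have htsq : t ^ 2 ≠ 1 := by
    intro h3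
    apply hord 1 (by norm_num) (by norm_num)
    have : z ^ (8 * 1) = t ^ 2 := by rw [ht]; ring
    rw [this, h3]
  have hδ0 : δ ≠ 0 := by
    intro h3
    apply htsq
    rw [hδ] at h3
    field_simp at h3
    linear_combination -h3
  -- the field of elements acting as scalars up to h
  let P : IntermediateField F K :=
    { carrier := {x | ∃ y, ∀ u, h (x * u) = y * h u}
      mul_mem' := by
        rintro a b ⟨y, hy⟩ ⟨y', hy'⟩
        refine ⟨y * y', fun u => ?_⟩
        rw [mul_assoc, hy, hy', mul_assoc]
      one_mem' := ⟨1, fun u => by rw [one_mul, one_mul]⟩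
      add_mem' := by
        rintro a b ⟨y, hy⟩ ⟨y', hy'⟩
        refine ⟨y + y', fun u => ?_⟩
        rw [add_mul, map_add, hy, hy', add_mul]
      zero_mem' := ⟨0, fun u => by rw [zero_mul, zero_mul, map_zero]⟩
      algebraMap_mem' := by
        intro r
        refine ⟨algebraMap F K r, fun u => ?_⟩
        rw [← Algebra.smul_def, ← Algebra.smul_def, map_smul]
      inv_mem' := by
        rintro x ⟨y, hy⟩
        by_cases hx : x = 0
        · subst hx
          exact ⟨0, fun u => by rw [inv_zero, zero_mul, zero_mul, map_zero]⟩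
        · refine ⟨y⁻¹, fun u => ?_⟩
          have h3 := hy (x⁻¹ * u)
          rw [← mul_assoc, mul_inv_cancel₀ hx, one_mul] at h3
          have hy0 : y ≠ 0 := by
            rintro rfl
            have h4 := hy 1
            rw [mul_one, zero_mul] at h4
            exact hx (h.injective (by rw [h4, map_zero]))
          rw [h3, ← mul_assoc, inv_mul_cancel₀ hy0, one_mul] }
  have hPmem : ∀ x, x ∈ P ↔ ∃ y, ∀ u, h (x * u) = y * h u := fun x => Iff.rfl
  -- commutators
  have hcomm : ∀ l ∈ L1, ∀ l2 ∈ L2, dif F l * dif F l2 * δ ∈ P := by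
    intro l hl l2 hl2
    obtain ⟨l', hl', h1⟩ := n1 l hl
    obtain ⟨l2', hl2', h2⟩ := n2 l2 hl2
    rw [hPmem]
    refine ⟨dif F l' * dif F l2' * δ, fun u => ?_⟩
    obtain ⟨a1, a2⟩ := hfixA L1 hL1d l hl
    obtain ⟨a1', a2'⟩ := hfixA L1 hL1d l' hl'
    obtain ⟨b1, b2⟩ := hfixA L2 hL2d l2 hl2
    obtain ⟨b1', b2'⟩ := hfixA L2 hL2d l2' hl2'
    have e1 : dif F l * dif F l2 * δ * u
        = (half F l * (half F l2 * u + dif F l2 * (t * c u))
            + dif F l * c (half F l2 * u + dif F l2 * (t * c u)))
          - (half F l2 * (half F l * u + dif F l * c u)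
            + dif F l2 * (t * c (half F l * u + dif F l * c u))) := by
      simp only [map_add, map_mul, hcc, hct, a1, a2, b1, b2, hδ]
      ring
    have e2 : dif F l' * dif F l2' * δ * h u
        = (half F l' * (half F l2' * h u + dif F l2' * (t * c (h u)))
            + dif F l' * c (half F l2' * h u + dif F l2' * (t * c (h u))))
          - (half F l2' * (half F l' * h u + dif F l' * c (h u))
            + dif F l2' * (t * c (half F l' * h u + dif F l' * c (h u)))) := by
      simp only [map_add, map_mul, hcc, hct, a1', a2', b1', b2', hδ]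
      ring
    rw [e1, e2, map_sub, h1, h2, h2, h1]
  obtain ⟨l0, hl0, hB0⟩ := exists_dif_ne h2K L1 hL1'
  obtain ⟨l20, hl20, hB20⟩ := exists_dif_ne h2K L2 hL2'
  have h2P : (2 : K) ∈ P := by
    have : (2 : K) = 1 + 1 := by norm_num
    rw [this]; exact add_mem (one_mem _) (one_mem _)
  have hA1 : ∀ l ∈ L1, half F l ∈ P := by
    intro l hl
    by_cases hB : dif F l = 0
    · have h3 : bar F K 1 l = l := by
        unfold dif at hB
        rcases div_eq_zero_iff.mp hB with h4 | h4
        · exact (sub_eq_zero.mp h4).symm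
        · exact absurd h4 h2K
      have h4 : half F l = l := by
        unfold half; rw [h3]; field_simp; ring
      rw [h4]
      exact (bot_le : ⊥ ≤ P) (mem_bot_of_dif h2K hB)
    · have h3 := hcomm (l * l) (mul_mem hl hl) l20 hl20
      have h4 := hcomm l hl l20 hl20
      have h5 : half F l = (dif F (l * l) * dif F l20 * δ) / (dif F l * dif F l20 * δ) / 2 := by
        rw [dif_mul_self l h2K]
        field_simp
      rw [h5]
      exact div_mem (div_mem h3 h4) h2P
  have hA2 : ∀ l ∈ L2, half F l ∈ P := by
    intro l hl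
    by_cases hB : dif F l = 0
    · have h3 : bar F K 1 l = l := by
        unfold dif at hB
        rcases div_eq_zero_iff.mp hB with h4 | h4
        · exact (sub_eq_zero.mp h4).symm
        · exact absurd h4 h2K
      have h4 : half F l = l := by
        unfold half; rw [h3]; field_simp; ring
      rw [h4]
      exact (bot_le : ⊥ ≤ P) (mem_bot_of_dif h2K hB)
    · have h3 := hcomm l0 hl0 (l * l) (mul_mem hl hl)
      have h4 := hcomm l0 hl0 l hl
      have h5 : half F l = (dif F l0 * dif F (l * l) * δ) / (dif F l0 * dif F l * δ) / 2 := by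
        rw [dif_mul_self l h2K]
        field_simp
      rw [h5]
      exact div_mem (div_mem h3 h4) h2P
  have hS1 := sq_dif_mem h2K L1 P hL1 hA1 l0 hl0
  have hS2 := sq_dif_mem h2K L2 P hL2 hA2 l20 hl20
  set w : K := dif F l0 * dif F l20 * δ with hw
  have hwP : w ∈ P := hcomm l0 hl0 l20 hl20
  have hw0 : w ≠ 0 := mul_ne_zero (mul_ne_zero hB0 hB20) hδ0
  have hcw : c w = -w := by
    rw [hw, map_mul, map_mul, hcδ, (hfixA L1 hL1d l0 hl0).2, (hfixA L2 hL2d l20 hl20).2]; ring
  have hδ2 : δ ^ 2 ∈ P := by
    have h3 : δ ^ 2 = w ^ 2 / (dif F l0 ^ 2 * dif F l20 ^ 2) := by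
      rw [hw]; field_simp
    rw [h3]
    exact div_mem (pow_mem hwP 2) (mul_mem hS1 hS2)
  have hζ : z ^ 8 + (z ^ 8)⁻¹ ∈ P := by
    have h3 : z ^ 8 + (z ^ 8)⁻¹ = δ ^ 2 + 2 := by
      have e5 : z ^ 8 = t * t := by rw [ht]; ring
      rw [e5, hδ]
      field_simp
      ring
    rw [h3]
    exact add_mem hδ2 h2P
  have hcw' : bar F K m w ≠ w := by
    rw [← hc, hcw]
    intro h3
    have h4 : 2 * w = 0 := by linear_combination -h3
    exact hw0 ((mul_eq_zero.mp h4).resolve_left h2K)
  have hPtop : P = ⊤ := eq_top_of_mem hq hm z hz1 hz P hζ w hwP hcw'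
  -- the automorphism η
  set a : K := h 1 with ha
  have ha0 : a ≠ 0 := by
    intro h0
    have : (1 : K) = 0 := h.injective (by rw [← ha, h0, map_zero])
    exact one_ne_zero this
  have hmulh : ∀ x u, h (x * u) = h x / a * h u := by
    intro x u
    have hx : x ∈ P := by rw [hPtop]; trivial
    obtain ⟨y, hy⟩ := (hPmem x).mp hx
    have h3 := hy 1
    rw [mul_one, ← ha] at h3
    rw [hy, h3, mul_div_cancel_right₀ _ ha0]
  let η : K →ₐ[F] K :=
    { toFun := fun x => h x / a
      map_one' := div_self ha0
      map_mul' := by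
        intro x u
        change h (x * u) / a = h x / a * (h u / a)
        rw [hmulh]; ring
      map_zero' := by
        change h 0 / a = 0
        rw [map_zero, zero_div]
      map_add' := by
        intro x u
        change h (x + u) / a = h x / a + h u / a
        rw [map_add, add_div]
      commutes' := by
        intro r
        change h (algebraMap F K r) / a = algebraMap F K r
        rw [Algebra.algebraMap_eq_smul_one, map_smul, ← ha, smul_div_assoc, div_self ha0] }
  have hη : ∀ x, h x = a * η x := by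
    intro x
    change h x = a * (h x / a)
    field_simp
  have hηsurj : Function.Surjective η :=
    Finite.surjective_of_injective η.toRingHom.injective
  have hηc : ∀ x, η (c x) = c (η x) := by
    intro x
    rw [hc, bar_apply, bar_apply, map_pow]
  have hηinj : ∀ x, η x = 0 → x = 0 := fun x hx => by
    have := η.toRingHom.injective
    exact (map_eq_zero_iff η this).mp hx
  obtain ⟨w1, hw1⟩ := exists_bar_ne hm hm0
  -- independence of 1 and c
  have hind : ∀ a b : K, (∀ x, a * x + b * c x = 0) → a = 0 ∧ b = 0 := by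
    intro a b hab
    have h3 := hab 1
    rw [map_one, mul_one, mul_one] at h3
    have h4 := hab w1
    have h5 : b * (c w1 - w1) = 0 := by linear_combination h4 - w1 * h3
    have h6 : b = 0 := (mul_eq_zero.mp h5).resolve_right (sub_ne_zero.mpr hw1)
    refine ⟨?_, h6⟩
    rw [h6, add_zero] at h3
    exact h3
  have hca0 : c a ≠ 0 := by simpa using ha0
  have hB1 : ∃ d : K, c d = d ∧ a = d * c a := by
    obtain ⟨l', hl', h1⟩ := n1 l0 hl0
    have h3 := hind (a * η (half F l0) - half F l' * a) (a * η (dif F l0) - dif F l' * c a) (by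
      intro X
      obtain ⟨x, rfl⟩ := hηsurj X
      have h4 := h1 x
      rw [hη, hη x, map_add, map_mul, map_mul, map_mul, hηc] at h4
      linear_combination h4)
    have h4 : a * η (dif F l0) = dif F l' * c a := by linear_combination h3.2
    have hη0 : η (dif F l0) ≠ 0 := fun h5 => hB0 (hηinj _ h5)
    refine ⟨dif F l' / η (dif F l0), ?_, ?_⟩
    · rw [map_div₀, ← hηc, (hfixA L1 hL1d l0 hl0).2, (hfixA L1 hL1d l' hl').2]
    · field_simp
      linear_combination h4
  have hB2 : ∃ d : K, c d = d ∧ a * η t = d * (t * c a) := by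
    obtain ⟨l', hl', h1⟩ := n2 l20 hl20
    have h3 := hind (a * η (half F l20) - half F l' * a)
      (a * η (dif F l20) * η t - dif F l' * t * c a) (by
      intro X
      obtain ⟨x, rfl⟩ := hηsurj X
      have h4 := h1 x
      rw [hη, hη x, map_add, map_mul, map_mul, map_mul, map_mul, hηc] at h4
      linear_combination h4)
    have h4 : a * η (dif F l20) * η t = dif F l' * t * c a := by linear_combination h3.2
    have hη0 : η (dif F l20) ≠ 0 := fun h5 => hB20 (hηinj _ h5)
    refine ⟨dif F l' / η (dif F l20), ?_, ?_⟩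
    · rw [map_div₀, ← hηc, (hfixA L2 hL2d l20 hl20).2, (hfixA L2 hL2d l' hl').2]
    · field_simp
      linear_combination h4
  obtain ⟨d1, hd1c, hd1⟩ := hB1
  obtain ⟨d2, hd2c, hd2⟩ := hB2
  have hd1sq : d1 * d1 = 1 := by
    have h3 : c a = d1 * a := by
      have := congrArg c hd1
      rwa [map_mul, hcc, hd1c] at this
    have h4 : a * (d1 * d1) = a * 1 := by
      rw [mul_one]
      conv_rhs => rw [hd1, h3]
      ring
    exact mul_left_cancel₀ ha0 h4
  have hηt0 : η t ≠ 0 := fun h5 => ht0 (hηinj _ h5)
  have hηt : η t ^ 2 = t ^ 2 := by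
    have h3 := congrArg c hd2
    rw [map_mul, map_mul, map_mul, hcc, hd2c, ← hηc, hct, map_inv₀] at h3
    -- c a * (η t)⁻¹ = d2 * (t⁻¹ * a)
    have h4 : c a * t = d2 * (a * η t) := by
      field_simp at h3
      linear_combination h3
    have h5 : d2 * d2 * (t * c a) = t * c a := by
      calc d2 * d2 * (t * c a) = d2 * (d2 * (t * c a)) := by ring
        _ = d2 * (a * η t) := by rw [← hd2]
        _ = c a * t := h4.symm
        _ = t * c a := by ring
    have h6 : d2 * d2 = 1 := by
      have h7 : d2 * d2 * (t * c a) = 1 * (t * c a) := by rw [h5, one_mul]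
      exact mul_right_cancel₀ (mul_ne_zero ht0 hca0) h7
    -- a η t = d2 t c a and a = d1 c a
    have h7 : d1 * η t = d2 * t := by
      have h8 : c a * (d1 * η t) = c a * (d2 * t) := by
        linear_combination hd2 - η t * hd1
      exact mul_left_cancel₀ hca0 h8
    calc η t ^ 2 = (d1 * d1) * η t ^ 2 := by rw [hd1sq, one_mul]
      _ = (d1 * η t) ^ 2 := by ring
      _ = (d2 * t) ^ 2 := by rw [h7]
      _ = (d2 * d2) * t ^ 2 := by ring
      _ = t ^ 2 := by rw [h6, one_mul]
  have hηT : η (z ^ 8) = z ^ 8 := by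
    have : z ^ 8 = t ^ 2 := by rw [ht]; ring
    rw [this, map_pow, hηt]
  let P2 : IntermediateField F K :=
    { carrier := {x | η x = x}
      mul_mem' := by
        intro a b ha hb
        change η (a * b) = a * b
        rw [map_mul, ha, hb]
      one_mem' := map_one η
      add_mem' := by
        intro a b ha hb
        change η (a + b) = a + b
        rw [map_add, ha, hb]
      zero_mem' := map_zero η
      algebraMap_mem' := fun r => η.commutes r
      inv_mem' := by
        intro x hx
        change η x⁻¹ = x⁻¹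
        rw [map_inv₀, hx] }
  have hP2 : P2 = ⊤ := by
    apply eq_top_of_mem hq hm z hz1 hz P2 ?_ (z ^ 8) hηT ?_
    · exact add_mem hηT (inv_mem (show z ^ 8 ∈ P2 from hηT))
    · rw [← hc, map_pow, hcz, inv_pow]
      intro h3
      apply hord 2 (by norm_num) (by norm_num)
      have h4 : z ^ 8 * z ^ 8 = 1 := by
        nth_rewrite 1 [← h3]
        exact inv_mul_cancel₀ (pow_ne_zero _ hz0)
      have h5 : z ^ (8 * 2) = z ^ 8 * z ^ 8 := by ring
      rw [h5, h4]
  have hηid : ∀ x, η x = x := by
    intro x
    have : x ∈ P2 := by rw [hP2]; trivial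
    exact this
  have hh' : ∀ x, h x = a * x := by intro x; rw [hη, hηid]
  have hnorm : a * c a = 1 := by
    have h3 : a * c a - 1 = 0 := by
      apply trace_nondeg (F := F)
      intro y
      have h4 := hO 1 (c y)
      rw [form_eq, form_eq, hh', hh'] at h4
      rw [← hc] at h4
      rw [map_mul c, hcc, mul_one, one_mul] at h4
      have h5 : (a * c a - 1) * y = a * (c a * y) - y := by ring
      rw [h5, map_sub, h4, sub_self]
    linear_combination h3
  have hd1' : d1 = 1 ∨ d1 = -1 := by
    have : (d1 - 1) * (d1 + 1) = 0 := by linear_combination hd1sq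
    rcases mul_eq_zero.mp this with h4 | h4
    · left; exact sub_eq_zero.mp h4
    · right; exact eq_neg_of_add_eq_zero_left h4
  rcases hd1' with rfl | rfl
  · rw [one_mul] at hd1
    have h3 : (a - 1) * (a + 1) = 0 := by
      rw [← hd1] at hnorm
      linear_combination hnorm
    rcases mul_eq_zero.mp h3 with h4 | h4
    · refine ⟨1, fun x => ?_⟩
      rw [hh', sub_eq_zero.mp h4, one_mul, one_smul]
    · refine ⟨-1, fun x => ?_⟩
      rw [hh', eq_neg_of_add_eq_zero_left h4, neg_one_mul, neg_one_smul]
  · exfalso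
    have h3 : c a = -a := by linear_combination hd1
    have h4 : a ^ 2 = -1 := by
      rw [h3] at hnorm
      linear_combination -hnorm
    have h5 : c a = a := bar_of_sq_eq_neg_one hq hme a h4
    rw [h3] at h5
    have h6 : 2 * a = 0 := by linear_combination -h5
    exact ha0 ((mul_eq_zero.mp h6).resolve_left h2K)

end Pool.Agent.H330.Minus
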