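import Pool.Agent.H330.Minus

namespace Pool.Agent.H330.Minus

open Module

variable (F K : Type) [Field F] [Fintype F] [Field K] [Fintype K] [Algebra F K] (m : ℕ)

/-- The bilinear form `(x, y) ↦ Tr_{K/F}(x * y^(q^m))` on the `F`-space `K`, where `q = |F|`. -/
noncomputable def form (x y : K) : F := Algebra.trace F K (x * y ^ (Fintype.card F ^ m))

variable {F K m}

theorem form_eq (x y : K) : form F K m x y = Algebra.trace F K (x * bar F K m y) := by
  rw [form, bar_apply]

theorem trace_bar (x : K) : Algebra.trace F K (bar F K m x) = Algebra.trace F K x :=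
  Algebra.trace_eq_of_algEquiv (bar F K m) x

theorem form_symm (hm : finrank F K = 2 * m) (x y : K) : form F K m x y = form F K m y x := by
  rw [form_eq, form_eq, ← trace_bar (m := m) (x * bar F K m y), map_mul, bar_bar hm, mul_comm]

theorem trace_nondeg (x : K) (hx : ∀ y : K, Algebra.trace F K (x * y) = 0) : x = 0 := by
  have h := (traceForm_nondegenerate F K)
  by_contra hx0
  obtain ⟨y, hy⟩ := Algebra.trace_surjective F K 1
  have := hx (x⁻¹ * y)
  rw [← mul_assoc, mul_inv_cancel₀ hx0, one_mul, hy] at this
  exact one_ne_zero this

theorem form_nondeg (hm : finrank F K = 2 * m) (x : K) (hx : ∀ y : K, form F K m x y = 0) :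
    x = 0 := by
  apply trace_nondeg (F := F) x
  intro y
  have := hx (bar F K m y)
  rwa [form_eq, bar_bar hm] at this

/-- the form as a Mathlib bilinear form -/
noncomputable def bform (F K : Type) [Field F] [Fintype F] [Field K] [Fintype K] [Algebra F K]
    (m : ℕ) : LinearMap.BilinForm F K :=
  LinearMap.mk₂ F (form F K m)
    (fun x y z => by rw [form_eq, form_eq, form_eq, add_mul, map_add])
    (fun c x y => by rw [form_eq, form_eq, smul_mul_assoc, map_smul])
    (fun x y z => by rw [form_eq, form_eq, form_eq, map_add, mul_add, map_add])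
    (fun c x y => by rw [form_eq, form_eq, map_smul, mul_smul_comm, map_smul])

theorem bform_apply (x y : K) : bform F K m x y = form F K m x y := rfl

theorem bform_nondeg (hm : finrank F K = 2 * m) : (bform F K m).Nondegenerate := by
  constructor
  · intro x hx
    exact form_nondeg hm x hx
  · intro x hx
    apply form_nondeg hm x
    intro y
    rw [form_symm hm]
    exact hx y

/-- upper bound for the number of singular vectors -/
theorem card_sing_le [DecidableEq F] (hq : Odd (Fintype.card F)) (hm : finrank F K = 2 * m)
    (hm0 : 0 < m) :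
    (Finset.univ.filter (fun x : K => form F K m x x = 0)).card
      ≤ 1 + (Fintype.card F ^ m + 1) * (Fintype.card F ^ (m - 1) - 1) := by
  classical
  set q := Fintype.card F with hqdef
  have hq1 : 1 < q := Fintype.one_lt_card
  have h2 : (2 : F) ≠ 0 := by
    intro h2
    have h3 : ringChar F = 2 := by
      have h4 : ringChar F ∣ 2 := by
        apply (ringChar.spec F 2).mp
        exact_mod_cast h2
      rcases (Nat.dvd_prime Nat.prime_two).mp h4 with h5 | h5
      · exfalso
        have := CharP.ringChar_ne_one (R := F)
        exact this h5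
      · exact h5
    have := (FiniteField.even_card_iff_char_two (F := F)).mp h3
    rw [← hqdef] at this
    obtain ⟨r, hr⟩ := hq
    omega
  -- the fixed submodule of `bar`
  let D : Submodule F K := LinearMap.ker ((bar F K m).toLinearMap - LinearMap.id)
  have hDmem : ∀ d, d ∈ D ↔ bar F K m d = d := by
    intro d
    simp [D, sub_eq_zero]
  have hqm : 1 < q ^ m := Nat.one_lt_pow (by omega) hq1
  have hDcard : Fintype.card D ≤ q ^ m := by
    have hP : (Polynomial.X ^ (q ^ m) - Polynomial.X : Polynomial K) ≠ 0 :=
      FiniteField.X_pow_card_sub_X_ne_zero K hqm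
    have hdeg : (Polynomial.X ^ (q ^ m) - Polynomial.X : Polynomial K).natDegree = q ^ m :=
      FiniteField.X_pow_card_sub_X_natDegree_eq K hqm
    rw [← hdeg]
    refine le_trans ?_ (Polynomial.card_roots' _)
    refine le_trans ?_ (Multiset.toFinset_card_le _)
    rw [← Finset.card_univ, ← Finset.card_map (Function.Embedding.subtype _)]
    apply Finset.card_le_card
    intro d hd
    simp only [Finset.mem_map, Finset.mem_univ, true_and, Function.Embedding.coe_subtype,
      Subtype.exists, exists_prop, exists_eq_right] at hd
    rw [hDmem, bar_apply] at hd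
    rw [Multiset.mem_toFinset, Polynomial.mem_roots hP]
    rw [Polynomial.IsRoot.def, Polynomial.eval_sub, Polynomial.eval_pow, Polynomial.eval_X,
      hqdef, hd, sub_self]
  have hDfin : finrank F D ≤ m := by
    rw [Module.card_eq_pow_finrank (K := F) (V := D)] at hDcard
    exact (Nat.pow_le_pow_iff_right hq1).mp hDcard
  let tr : D →ₗ[F] F := (Algebra.trace F K).domRestrict D
  have htr : LinearMap.range tr = ⊤ := by
    apply LinearMap.range_eq_top.mpr
    have hne : tr ≠ 0 := by
      obtain ⟨y, hy⟩ := Algebra.trace_surjective F K 1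
      intro h0
      have h1 : tr ⟨y + bar F K m y, by rw [hDmem, map_add, bar_bar hm, add_comm]⟩ = 0 := by
        rw [h0]; rfl
      have h3 : tr ⟨y + bar F K m y, by rw [hDmem, map_add, bar_bar hm, add_comm]⟩ = 2 := by
        show Algebra.trace F K (y + bar F K m y) = 2
        rw [map_add, trace_bar, hy]; norm_num
      rw [h3] at h1
      exact h2 h1
    exact LinearMap.surjective hne
  have hker : finrank F (LinearMap.ker tr) ≤ m - 1 := by
    have := LinearMap.finrank_range_add_finrank_ker tr
    rw [htr, finrank_top, finrank_self] at this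
    omega
  have hkercard : Fintype.card (LinearMap.ker tr) ≤ q ^ (m - 1) := by
    rw [Module.card_eq_pow_finrank (K := F) (V := LinearMap.ker tr)]
    exact Nat.pow_le_pow_right (by omega) hker
  -- the target set
  let E : Finset K := Finset.univ.filter (fun d => bar F K m d = d ∧ Algebra.trace F K d = 0 ∧ d ≠ 0)
  have hE : E.card ≤ q ^ (m - 1) - 1 := by
    have h5 : (insert 0 E).card ≤ Fintype.card (LinearMap.ker tr) := by
      rw [← Finset.card_univ, ← Finset.card_image_of_injective (f := fun x : LinearMap.ker tr => ((x : D) : K)) Finset.univ (by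
        intro a b hab
        exact Subtype.ext (Subtype.ext hab))]
      apply Finset.card_le_card
      intro d hd
      rw [Finset.mem_insert] at hd
      rw [Finset.mem_image]
      rcases hd with rfl | hd
      · exact ⟨0, Finset.mem_univ _, rfl⟩
      · simp only [E, Finset.mem_filter, Finset.mem_univ, true_and] at hd
        exact ⟨⟨⟨d, (hDmem d).mpr hd.1⟩, hd.2.1⟩, Finset.mem_univ _, rfl⟩
    rw [Finset.card_insert_of_notMem (by simp [E])] at h5
    omega
  -- fibres
  set S := Finset.univ.filter (fun x : K => form F K m x x = 0) with hS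
  have hS0 : S.card ≤ 1 + (S.erase 0).card := by
    have h0 : (0 : K) ∈ S := by
      rw [hS, Finset.mem_filter]
      exact ⟨Finset.mem_univ _, by rw [form_eq, zero_mul, map_zero]⟩
    have := Finset.card_erase_add_one h0
    omega
  have hmaps : ∀ x ∈ S.erase 0, x * bar F K m x ∈ E := by
    intro x hx
    rw [Finset.mem_erase] at hx
    simp only [hS, Finset.mem_filter, Finset.mem_univ, true_and] at hx
    simp only [E, Finset.mem_filter, Finset.mem_univ, true_and]
    refine ⟨?_, ?_, ?_⟩
    · rw [map_mul, bar_bar hm, mul_comm]
    · rw [← form_eq]; exact hx.2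
    · apply mul_ne_zero hx.1
      simpa using hx.1
  have hcount : (S.erase 0).card ≤ (q ^ m + 1) * E.card := by
    apply Finset.card_le_mul_card_image_of_maps_to hmaps
    intro d hd
    refine le_trans ?_ (Polynomial.card_nthRoots (q ^ m + 1) d)
    refine le_trans ?_ (Multiset.toFinset_card_le _)
    apply Finset.card_le_card
    intro x hx
    rw [Finset.mem_filter] at hx
    rw [Multiset.mem_toFinset, Polynomial.mem_nthRoots (by omega), ← hx.2, bar_apply, pow_succ,
      mul_comm]
  calc S.card ≤ 1 + (S.erase 0).card := hS0
    _ ≤ 1 + (q ^ m + 1) * E.card := by omega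
    _ ≤ 1 + (q ^ m + 1) * (q ^ (m - 1) - 1) := by
      have := Nat.mul_le_mul_left (q ^ m + 1) hE
      omega

end Pool.Agent.H330.Minus
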