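import Pool.Agent.H330.MinusCore2

namespace Pool.Agent.H330.Minus

open Module Pool.Agent.H330

variable {F K : Type} [Field F] [Fintype F] [Field K] [Fintype K] [Algebra F K] {m : ℕ}

/-- the isometry `k = 1` on `D`, Frobenius on the `(-1)`-eigenspace of `bar` -/
theorem exists_k2 (hq : Odd (Fintype.card F)) (hm : finrank F K = 2 * m) :
    ∃ k ∈ Orth F K m, ∀ l, bar F K m l = l → ∀ x,
      k (l * x) = half F l * k x + dif F l * bar F K m (k x) := by
  have h2F : (2 : F) ≠ 0 := two_ne_zero' hq
  have h2 : (2 : K) ≠ 0 := by
    have := (map_ne_zero (algebraMap F K)).mpr h2F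
    rwa [map_ofNat] at this
  set c := bar F K m with hc
  have hcc : ∀ x, c (c x) = x := bar_bar hm
  let φ : K ≃ₐ[F] K := bar F K 1
  have hφ : ∀ x, φ x = x ^ Fintype.card F := by
    intro x; rw [bar_apply, pow_one]
  have hφc : ∀ x, φ (c x) = c (φ x) := by
    intro x; rw [hφ, hφ, map_pow]
  have hφsc : ∀ x, φ.symm (c x) = c (φ.symm x) := by
    intro x
    apply φ.injective
    rw [AlgEquiv.apply_symm_apply, hφc, AlgEquiv.apply_symm_apply]
  let kk : K ≃ₗ[F] K :=
    { toFun := fun x => (x + c x) / 2 + φ ((x - c x) / 2)
      map_add' := by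
        intro x y
        simp only [map_add, map_sub, map_div₀]
        ring
      map_smul' := by
        intro a x
        simp only [map_smul, RingHom.id_apply]
        rw [← smul_add, ← smul_sub, smul_div_assoc, smul_div_assoc, map_smul, ← smul_add]
      invFun := fun x => (x + c x) / 2 + φ.symm ((x - c x) / 2)
      left_inv := by
        intro x
        have e1 : c ((x + c x) / 2 + φ ((x - c x) / 2)) = (x + c x) / 2 - φ ((x - c x) / 2) := by
          rw [map_add, ← hφc, map_div₀, map_add, hcc, map_div₀ c, map_sub, hcc]
          have h3 : c (2 : K) = 2 := map_ofNat c 2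
          rw [h3]
          have h4 : (c x - x) / 2 = -((x - c x) / 2) := by ring
          rw [h4, map_neg]
          ring
        simp only [e1]
        have e2 : ((x + c x) / 2 + φ ((x - c x) / 2) - ((x + c x) / 2 - φ ((x - c x) / 2))) / 2
            = φ ((x - c x) / 2) := by
          field_simp; ring
        rw [e2, AlgEquiv.symm_apply_apply]
        field_simp; ring
      right_inv := by
        intro x
        have e1 : c ((x + c x) / 2 + φ.symm ((x - c x) / 2))
            = (x + c x) / 2 - φ.symm ((x - c x) / 2) := by
          rw [map_add, ← hφsc, map_div₀, map_add, hcc, map_div₀ c, map_sub, hcc]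
          have h3 : c (2 : K) = 2 := map_ofNat c 2
          rw [h3]
          have h4 : (c x - x) / 2 = -((x - c x) / 2) := by ring
          rw [h4, map_neg]
          ring
        simp only [e1]
        have e2 : ((x + c x) / 2 + φ.symm ((x - c x) / 2)
            - ((x + c x) / 2 - φ.symm ((x - c x) / 2))) / 2
            = φ.symm ((x - c x) / 2) := by
          field_simp; ring
        rw [e2, AlgEquiv.apply_symm_apply]
        field_simp; ring }
  have hkk : ∀ x, kk x = (x + c x) / 2 + φ ((x - c x) / 2) := fun x => rfl
  have h3 : c (2 : K) = 2 := map_ofNat c 2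
  have hckk : ∀ x, c (kk x) = (x + c x) / 2 - φ ((x - c x) / 2) := by
    intro x
    rw [hkk, map_add, ← hφc, map_div₀, map_add, hcc, map_div₀ c, map_sub, hcc, h3]
    have h4 : (c x - x) / 2 = -((x - c x) / 2) := by ring
    rw [h4, map_neg]
    ring
  refine ⟨kk, ?_, ?_⟩
  · intro x y
    rw [form_eq, form_eq]
    change Algebra.trace F K (kk x * c (kk y)) = Algebra.trace F K (x * c y)
    rw [hckk, hkk]
    -- write x = a + b, y = a' + b'
    set a := (x + c x) / 2 with ha
    set b := (x - c x) / 2 with hb
    set a' := (y + c y) / 2 with ha'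
    set b' := (y - c y) / 2 with hb'
    have hx : x = a + b := by rw [ha, hb]; field_simp; ring
    have hcx : c y = a' - b' := by rw [ha', hb']; field_simp; ring
    have hca : c a = a := by rw [ha, map_div₀, map_add, hcc, h3]; ring
    have hcb : c b = -b := by rw [hb, map_div₀, map_sub, hcc, h3]; ring
    have hca' : c a' = a' := by rw [ha', map_div₀, map_add, hcc, h3]; ring
    have hcb' : c b' = -b' := by rw [hb', map_div₀, map_sub, hcc, h3]; ring
    have hcφb : c (φ b) = -φ b := by rw [← hφc, hcb, map_neg]
    have hcφb' : c (φ b') = -φ b' := by rw [← hφc, hcb', map_neg]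
    -- elements negated by c have trace zero
    have htr : ∀ u : K, c u = -u → Algebra.trace F K u = 0 := by
      intro u hu
      have h5 : Algebra.trace F K (c u) = Algebra.trace F K u := trace_bar u
      rw [hu, map_neg] at h5
      have h6 : (2 : F) * Algebra.trace F K u = 0 := by linear_combination -h5
      exact (mul_eq_zero.mp h6).resolve_left h2F
    rw [hcx]
    conv_rhs => rw [hx]
    have e1 : (a + φ b) * (a' - φ b') = a * a' - φ (b * b') + φ b * a' - a * φ b' := by
      rw [map_mul]; ring
    have e2 : (a + b) * (a' - b') = a * a' - b * b' + b * a' - a * b' := by ring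
    rw [e1, e2]
    simp only [map_add, map_sub]
    rw [htr (φ b * a') (by rw [map_mul, hcφb, hca']; ring),
      htr (a * φ b') (by rw [map_mul, hcφb', hca]; ring),
      htr (b * a') (by rw [map_mul, hcb, hca']; ring),
      htr (a * b') (by rw [map_mul, hcb', hca]; ring),
      show Algebra.trace F K (φ (b * b')) = Algebra.trace F K (b * b') from
        Algebra.trace_eq_of_algEquiv φ _]
  · intro l hl x
    have hl' : c l = l := hl
    change kk (l * x) = half F l * kk x + dif F l * c (kk x)
    rw [hckk, hkk, map_mul]
    have hhl : half F l = (l + φ l) / 2 := rfl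
    have hdl : dif F l = (l - φ l) / 2 := rfl
    rw [hl', hkk, hhl, hdl, ← mul_add, ← mul_sub, mul_div_assoc, mul_div_assoc, map_mul]
    field_simp
    ring

end Pool.Agent.H330.Minus
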