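import Mathlib

/-!
# Projective images of linear groups and normalisers of subalgebras

For a subgroup `Γ` of `GL(V)` we define the group `Proj Γ = Γ / scalars`, and for a subalgebra
`A` of `End_F(V)` the subgroup `projNorm Γ A` of `Proj Γ`: the image of the normaliser of `A`.
-/

namespace Pool.Agent.H330

open Module

variable {F V : Type*} [Field F] [AddCommGroup V] [Module F V]

/-- The scalars in the linear group `Γ`. -/
def scalars (Γ : Subgroup (V ≃ₗ[F] V)) : Subgroup Γ where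
  carrier := {g | ∃ c : F, ∀ x : V, (g : V ≃ₗ[F] V) x = c • x}
  mul_mem' := by
    rintro a b ⟨c, hc⟩ ⟨d, hd⟩
    refine ⟨c * d, fun x => ?_⟩
    rw [Subgroup.coe_mul, LinearEquiv.mul_apply, hd, hc, smul_smul]
  one_mem' := ⟨1, fun x => by rw [one_smul]; rfl⟩
  inv_mem' := by
    rintro a ⟨c, hc⟩
    refine ⟨c⁻¹, fun x => ?_⟩
    have h1 : c • ((a⁻¹ : Γ) : V ≃ₗ[F] V) x = x := by
      rw [← hc, ← LinearEquiv.mul_apply, ← Subgroup.coe_mul, mul_inv_cancel]
      rfl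
    by_cases hc0 : c = 0
    · subst hc0
      have h0 : x = 0 := by
        rw [← h1, zero_smul]
      rw [h0]; simp
    · rw [eq_inv_smul_iff₀ hc0, h1]

instance (Γ : Subgroup (V ≃ₗ[F] V)) : (scalars Γ).Normal := by
  constructor
  rintro a ⟨c, hc⟩ g
  refine ⟨c, fun x => ?_⟩
  rw [Subgroup.coe_mul, Subgroup.coe_mul, LinearEquiv.mul_apply, LinearEquiv.mul_apply, hc,
    map_smul, ← LinearEquiv.mul_apply, ← Subgroup.coe_mul, mul_inv_cancel]
  rfl

/-- The projective image `Γ / scalars` of a linear group `Γ`. -/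
abbrev Proj (Γ : Subgroup (V ≃ₗ[F] V)) : Type _ := Γ ⧸ scalars Γ

/-- The normaliser in `Γ` of a subalgebra `A` of `End_F(V)`: all `g ∈ Γ` with
`g A g⁻¹ = A`. -/
def normIn (Γ : Subgroup (V ≃ₗ[F] V)) (A : Subalgebra F (Module.End F V)) : Subgroup Γ where
  carrier := {g | ∀ T : Module.End F V, T ∈ A ↔ (g : V ≃ₗ[F] V).conj T ∈ A}
  mul_mem' := by
    intro a b ha hb T
    rw [hb T, ha]
    exact Iff.rfl
  one_mem' := by
    intro T
    exact Iff.rfl
  inv_mem' := by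
    intro a ha T
    have h := ha (((a⁻¹ : Γ) : V ≃ₗ[F] V).conj T)
    have h2 : (a : V ≃ₗ[F] V).conj ((((a⁻¹ : Γ) : V ≃ₗ[F] V)).conj T) = T := by
      ext x
      rw [Subgroup.coe_inv]
      show (a : V ≃ₗ[F] V) ((a : V ≃ₗ[F] V)⁻¹ (T ((a : V ≃ₗ[F] V) ((a : V ≃ₗ[F] V)⁻¹ x)))) = T x
      rw [← LinearEquiv.mul_apply, ← LinearEquiv.mul_apply, mul_inv_cancel]
      rfl
    rw [h2] at h
    exact h.symm

/-- The image in `Proj Γ` of the normaliser of the subalgebra `A`. -/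
def projNorm (Γ : Subgroup (V ≃ₗ[F] V)) (A : Subalgebra F (Module.End F V)) :
    Subgroup (Proj Γ) :=
  (normIn Γ A).map (QuotientGroup.mk' (scalars Γ))

theorem conj_scalar {Γ : Subgroup (V ≃ₗ[F] V)} {g : Γ} (hg : g ∈ scalars Γ)
    (T : Module.End F V) : (g : V ≃ₗ[F] V).conj T = T := by
  obtain ⟨c, hc⟩ := hg
  ext x
  rw [LinearEquiv.conj_apply_apply, hc, ← map_smul, ← hc, LinearEquiv.apply_symm_apply]

theorem scalars_le_normIn (Γ : Subgroup (V ≃ₗ[F] V)) (A : Subalgebra F (Module.End F V)) :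
    scalars Γ ≤ normIn Γ A := by
  intro g hg T
  rw [conj_scalar hg]

theorem mem_projNorm {Γ : Subgroup (V ≃ₗ[F] V)} {A : Subalgebra F (Module.End F V)} {g : Γ} :
    (QuotientGroup.mk' (scalars Γ) g) ∈ projNorm Γ A ↔ g ∈ normIn Γ A := by
  constructor
  · rintro ⟨g', hg', he⟩
    rw [QuotientGroup.mk'_apply, QuotientGroup.mk'_apply, QuotientGroup.eq] at he
    have := (normIn Γ A).mul_mem hg' (scalars_le_normIn Γ A he)
    simpa using this
  · intro h
    exact ⟨g, h, rfl⟩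

/-- Passing from `Γ` to `Proj Γ`. -/
theorem proj_inter {Γ : Subgroup (V ≃ₗ[F] V)} {A B : Subalgebra F (Module.End F V)} {γ : Γ}
    (h : ∀ x ∈ normIn Γ A, γ⁻¹ * x * γ ∈ normIn Γ B → x ∈ scalars Γ) :
    ∀ x ∈ projNorm Γ A, (QuotientGroup.mk' (scalars Γ) γ)⁻¹ * x * (QuotientGroup.mk' (scalars Γ) γ)
      ∈ projNorm Γ B → x = 1 := by
  rintro _ ⟨x, hx, rfl⟩ h2
  rw [← map_inv, ← map_mul, ← map_mul, mem_projNorm] at h2
  rw [QuotientGroup.mk'_apply, QuotientGroup.eq_one_iff]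
  exact h x hx h2

end Pool.Agent.H330
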