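import Mathlib

/-!
# Base sizes, total dominating sets and the uniform domination number

Definitions and elementary facts used by the hand-ins of seat helper330.
-/

namespace Pool.Agent.H330

open scoped Pointwise

/-- The base size `b(G, X)`: the least size of a set of points of `X` whose pointwise stabiliser
is trivial. -/
noncomputable def baseSize (G X : Type*) [Group G] [MulAction G X] : ℕ :=
  sInf {n | ∃ S : Finset X, S.card = n ∧ ∀ g : G, (∀ x ∈ S, g • x = x) → g = 1}

/-- `S` is a total dominating set of `G`: its elements are nonidentity elements, and every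
nonidentity `x` generates `G` together with some `s ∈ S`. -/
def IsTDS {G : Type*} [Group G] (S : Set G) : Prop :=
  (∀ s ∈ S, s ≠ 1) ∧ ∀ x : G, x ≠ 1 → ∃ s ∈ S, Subgroup.closure {x, s} = ⊤

/-- The uniform domination number: the least size of a total dominating set of pairwise
conjugate elements. -/
noncomputable def gammaU (G : Type*) [Group G] : ℕ :=
  sInf {n | ∃ S : Finset G, S.card = n ∧ IsTDS (S : Set G) ∧ ∀ s ∈ S, ∀ t ∈ S, IsConj s t}

theorem baseSize_eq_two {G : Type*} [Group G] (H : Subgroup G) (hH : H ≠ ⊥) (g : G)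
    (hg : ∀ h ∈ H, g⁻¹ * h * g ∈ H → h = 1) : baseSize G (G ⧸ H) = 2 := by
  classical
  have hmem : (2 : ℕ) ∈ {n | ∃ S : Finset (G ⧸ H), S.card = n ∧
      ∀ x : G, (∀ y ∈ S, x • y = y) → x = 1} := by
    refine ⟨{((1 : G) : G ⧸ H), ((g : G) : G ⧸ H)}, ?_, ?_⟩
    · rw [Finset.card_pair]
      intro h
      rw [QuotientGroup.eq] at h
      apply hH
      rw [eq_bot_iff]
      intro x hx
      rw [Subgroup.mem_bot]
      apply hg x hx
      simp only [inv_one, one_mul] at h
      exact H.mul_mem (H.mul_mem (H.inv_mem h) hx) h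
    · intro x hx
      have h1 := hx ((1 : G) : G ⧸ H) (by simp)
      have h2 := hx ((g : G) : G ⧸ H) (by simp)
      rw [MulAction.Quotient.smul_coe, QuotientGroup.eq] at h1 h2
      simp only [smul_eq_mul, mul_one, mul_inv_rev] at h1 h2
      have h1' : x ∈ H := by simpa using H.inv_mem h1
      apply hg x h1'
      have := H.inv_mem h2
      simpa [mul_assoc] using this
  apply le_antisymm (Nat.sInf_le hmem)
  apply le_csInf ⟨2, hmem⟩
  rintro n ⟨S, rfl, hS⟩
  by_contra hlt
  push Not at hlt
  obtain ⟨h, hh, h1⟩ : ∃ h ∈ H, h ≠ 1 := by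
    by_contra hcon
    push Not at hcon
    exact hH (by rw [eq_bot_iff]; intro x hx; rw [Subgroup.mem_bot]; exact hcon x hx)
  have hcard : S.card ≤ 1 := by omega
  rcases Finset.card_le_one_iff_subset_singleton.mp hcard with ⟨x, hx⟩
  induction x using QuotientGroup.induction_on with
  | H a =>
    apply h1
    have := hS (a * h * a⁻¹) (by
      intro y hy
      have hy' := hx hy
      rw [Finset.mem_singleton] at hy'
      subst hy'
      rw [MulAction.Quotient.smul_coe, QuotientGroup.eq]
      simpa [mul_assoc] using hh)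
    simpa using this

/-- If every maximal subgroup containing `s` belongs to a family `H i` of subgroups, not all
trivial, with `H i ∩ (H j)^g = 1` for all `i, j`, then `{s, s^g}` is a total dominating set and
`γ_u(G) = 2`. -/
theorem gammaU_eq_two_family {G : Type*} [Group G] [Finite G] {ι : Type*} (H : ι → Subgroup G)
    (i₀ : ι) (hH : H i₀ ≠ ⊥) (g : G)
    (hg : ∀ i j, ∀ h ∈ H i, g⁻¹ * h * g ∈ H j → h = 1) (s : G) (hs1 : s ≠ 1)
    (hs : ∀ M : Subgroup G, IsCoatom M → s ∈ M → ∃ i, M = H i) :
    IsTDS ({s, g * s * g⁻¹} : Set G) ∧ gammaU G = 2 := by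
  classical
  have hsH : ∀ x : G, Subgroup.closure {x, s} ≠ ⊤ → ∃ i, x ∈ H i := by
    intro x hx
    obtain ⟨M, hM, hle⟩ := (eq_top_or_exists_le_coatom (Subgroup.closure {x, s})).resolve_left hx
    have h1 : s ∈ M := hle (Subgroup.subset_closure (by simp))
    have h2 : x ∈ M := hle (Subgroup.subset_closure (by simp))
    obtain ⟨i, hi⟩ := hs M hM h1
    exact ⟨i, by rw [← hi]; exact h2⟩
  have hsH' : ∀ x : G, Subgroup.closure {x, g * s * g⁻¹} ≠ ⊤ → ∃ i, g⁻¹ * x * g ∈ H i := by
    intro x hx
    apply hsH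
    intro htop
    apply hx
    have : Subgroup.map (MulAut.conj g).toMonoidHom (Subgroup.closure {g⁻¹ * x * g, s}) = ⊤ := by
      rw [htop]
      exact Subgroup.map_top_of_surjective _ (MulAut.conj g).surjective
    rw [MonoidHom.map_closure] at this
    rw [← this]
    congr 1
    ext y
    simp [Set.image_pair, MulAut.conj_apply, mul_assoc]
  have hTDS : IsTDS ({s, g * s * g⁻¹} : Set G) := by
    refine ⟨?_, ?_⟩
    · rintro x (rfl | rfl)
      · exact hs1
      · intro h
        apply hs1
        have : s = g⁻¹ * (g * s * g⁻¹) * g := by group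
        rw [this, h]; group
    · intro x hx
      by_contra hcon
      push Not at hcon
      have h1 := hcon s (by simp)
      have h2 := hcon (g * s * g⁻¹) (by simp)
      obtain ⟨i, hi⟩ := hsH x h1
      obtain ⟨j, hj⟩ := hsH' x h2
      exact hx (hg i j x hi hj)
  refine ⟨hTDS, ?_⟩
  have hnc : ∀ t : G, Subgroup.closure {t} ≠ ⊤ := by
    intro t ht
    -- the group would be abelian
    have hcomm : ∀ a b : G, a * b = b * a := by
      intro a b
      have ha : a ∈ Subgroup.closure {t} := by rw [ht]; trivial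
      have hb : b ∈ Subgroup.closure {t} := by rw [ht]; trivial
      rw [Subgroup.mem_closure_singleton] at ha hb
      obtain ⟨i, rfl⟩ := ha
      obtain ⟨j, rfl⟩ := hb
      rw [← zpow_add, ← zpow_add, add_comm]
    apply hH
    rw [eq_bot_iff]
    intro x hx
    rw [Subgroup.mem_bot]
    apply hg i₀ i₀ x hx
    rw [mul_assoc, hcomm x g]
    simpa using hx
  have hne : s ≠ g * s * g⁻¹ := by
    intro h
    obtain ⟨y, hy, hcl⟩ := hTDS.2 s hs1
    rw [← h] at hy
    simp only [Set.mem_insert_iff, Set.mem_singleton_iff, or_self] at hy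
    subst hy
    apply hnc y
    rw [← hcl]
    congr 1
    simp
  have hmem : (2 : ℕ) ∈ {n | ∃ S : Finset G, S.card = n ∧ IsTDS (S : Set G) ∧
      ∀ s ∈ S, ∀ t ∈ S, IsConj s t} := by
    refine ⟨{s, g * s * g⁻¹}, Finset.card_pair hne, ?_, ?_⟩
    · simpa using hTDS
    · have hc : IsConj s (g * s * g⁻¹) := isConj_iff.mpr ⟨g, rfl⟩
      intro a ha b hb
      simp only [Finset.mem_insert, Finset.mem_singleton] at ha hb
      rcases ha with rfl | rfl <;> rcases hb with rfl | rfl
      · exact IsConj.refl _
      · exact hc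
      · exact hc.symm
      · exact IsConj.refl _
  apply le_antisymm (Nat.sInf_le hmem)
  apply le_csInf ⟨2, hmem⟩
  rintro n ⟨S, rfl, hS, -⟩
  by_contra hlt
  push Not at hlt
  have hcard : S.card ≤ 1 := by omega
  rcases Finset.card_le_one_iff_subset_singleton.mp hcard with ⟨x, hx⟩
  obtain ⟨y, hy, -⟩ := hS.2 s hs1
  have hyx : y = x := by simpa using hx hy
  subst hyx
  have hy1 : y ≠ 1 := hS.1 y hy
  obtain ⟨z, hz, hcl⟩ := hS.2 y hy1
  have hzy : z = y := by simpa using hx hz
  subst hzy
  apply hnc z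
  rw [← hcl]
  congr 1
  simp

end Pool.Agent.H330
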