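import Pool.Agent.H330.MinusType
import Pool.Agent.H330.Proj
import Pool.Agent.H330.Uniform

namespace Pool.Agent.H330.Minus

open Module Pool.Agent.H330

section Definitions

variable (F K : Type) [Field F] [Fintype F] [Field K] [Fintype K] [Algebra F K] (m : ℕ)

/-- The full isometry group `O(V)` of the space `V = K` with the form
`(x, y) = Tr_{K/F}(x y^(q^m))`. -/
def Orth : Subgroup (K ≃ₗ[F] K) where
  carrier := {g | ∀ x y, form F K m (g x) (g y) = form F K m x y}
  mul_mem' := by
    intro a b ha hb x y
    rw [LinearEquiv.mul_apply, LinearEquiv.mul_apply, ha, hb]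
  one_mem' := by
    intro x y
    rfl
  inv_mem' := by
    intro a ha x y
    rw [← ha (a⁻¹ x) (a⁻¹ y), ← LinearEquiv.mul_apply, ← LinearEquiv.mul_apply, mul_inv_cancel]
    rfl

/-- `Ω(V)`: the derived subgroup of `O(V)`. -/
def Omega : Subgroup (K ≃ₗ[F] K) := (commutator (Orth F K m)).map (Orth F K m).subtype

/-- The algebra of multiplications by the elements of an intermediate field `L`. -/
def fieldAlg {F K : Type} [Field F] [Fintype F] [Field K] [Fintype K] [Algebra F K]
    (L : IntermediateField F K) : Subalgebra F (Module.End F K) :=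
  L.toSubalgebra.map (Algebra.lmul F K)

end Definitions

variable {F K : Type} [Field F] [Fintype F] [Field K] [Fintype K] [Algebra F K] {m : ℕ}

theorem mem_fieldAlg {L : IntermediateField F K} {T : Module.End F K} :
    T ∈ fieldAlg L ↔ ∃ l ∈ L, ∀ x, T x = l * x := by
  constructor
  · rintro ⟨l, hl, rfl⟩
    exact ⟨l, hl, fun x => rfl⟩
  · rintro ⟨l, hl, h⟩
    exact ⟨l, hl, by ext x; exact (h x).symm⟩

theorem omega_le : Omega F K m ≤ Orth F K m := by
  rintro _ ⟨x, -, rfl⟩
  exact x.2

theorem comm_mem {a b : K ≃ₗ[F] K} (ha : a ∈ Orth F K m) (hb : b ∈ Orth F K m) :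
    a * b * a⁻¹ * b⁻¹ ∈ Omega F K m := by
  refine ⟨(⟨a, ha⟩ : Orth F K m) * ⟨b, hb⟩ * (⟨a, ha⟩ : Orth F K m)⁻¹ *
    (⟨b, hb⟩ : Orth F K m)⁻¹, ?_, ?_⟩
  · exact Subgroup.commutator_mem_commutator (Subgroup.mem_top _) (Subgroup.mem_top _)
  · rfl

theorem conj_mem {a g : K ≃ₗ[F] K} (ha : a ∈ Orth F K m) (hg : g ∈ Omega F K m) :
    a * g * a⁻¹ ∈ Omega F K m := by
  obtain ⟨x, hx, rfl⟩ := hg
  refine ⟨(⟨a, ha⟩ : Orth F K m) * x * (⟨a, ha⟩ : Orth F K m)⁻¹, ?_, rfl⟩
  exact Subgroup.Normal.conj_mem inferInstance x hx _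

/-- multiplication by a nonzero element, as a linear automorphism -/
def mulE (F : Type) {K : Type} [Field F] [Field K] [Algebra F K] (z : K) (hz : z ≠ 0) :
    K ≃ₗ[F] K where
  toFun x := z * x
  map_add' x y := mul_add z x y
  map_smul' c x := mul_smul_comm c z x
  invFun x := z⁻¹ * x
  left_inv x := by
    change z⁻¹ * (z * x) = x
    rw [← mul_assoc, inv_mul_cancel₀ hz, one_mul]
  right_inv x := by
    change z * (z⁻¹ * x) = x
    rw [← mul_assoc, mul_inv_cancel₀ hz, one_mul]

theorem mulE_apply (z : K) (hz : z ≠ 0) (x : K) : mulE F z hz x = z * x := rfl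

theorem mulE_inv_apply (z : K) (hz : z ≠ 0) (x : K) : (mulE F z hz)⁻¹ x = z⁻¹ * x := rfl

theorem mulE_mem (z : K) (hz : z ≠ 0) (h : bar F K m z * z = 1) :
    mulE F z hz ∈ Orth F K m := by
  intro x y
  rw [form_eq, form_eq, mulE_apply, mulE_apply, map_mul (bar F K m)]
  have h1 : z * x * (bar F K m z * bar F K m y) = x * bar F K m y := by
    linear_combination (x * bar F K m y) * h
  rw [h1]

variable (F K m) in
/-- `bar` as a linear automorphism -/
noncomputable def barE : K ≃ₗ[F] K := (bar F K m).toLinearEquiv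

theorem barE_apply (x : K) : barE F K m x = bar F K m x := rfl

theorem barE_mem : barE F K m ∈ Orth F K m := by
  intro x y
  rw [form_eq, form_eq, barE_apply, barE_apply, ← map_mul, trace_bar]

theorem barE_inv_apply (hm : finrank F K = 2 * m) (x : K) : (barE F K m)⁻¹ x = bar F K m x := by
  apply (barE F K m).injective
  rw [← LinearEquiv.mul_apply, mul_inv_cancel, barE_apply, bar_bar hm]
  rfl

/-- the Singer elements: multiplication by `z^2`, `z` of norm one, lies in `Ω(V)` -/
theorem mulE_sq_mem (hm : finrank F K = 2 * m) (z : K) (hz : z ≠ 0) (h : bar F K m z * z = 1) :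
    mulE F (z ^ 2) (pow_ne_zero 2 hz) ∈ Omega F K m := by
  have h1 := comm_mem (mulE_mem z hz h) barE_mem
  have h2 : mulE F z hz * barE F K m * (mulE F z hz)⁻¹ * (barE F K m)⁻¹
      = mulE F (z ^ 2) (pow_ne_zero 2 hz) := by
    ext x
    rw [LinearEquiv.mul_apply, LinearEquiv.mul_apply, LinearEquiv.mul_apply, barE_inv_apply hm,
      mulE_inv_apply, barE_apply, mulE_apply, mulE_apply, map_mul, bar_bar hm, map_inv₀]
    have h3 : (bar F K m z)⁻¹ = z := by
      rw [eq_inv_of_mul_eq_one_left h, inv_inv]
    rw [h3]; ring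
  rw [← h2]; exact h1

/-- the isometry `k = 1` on `D`, Frobenius on the `(-1)`-eigenspace of `bar` -/
theorem exists_k (hq : Odd (Fintype.card F)) (hm : finrank F K = 2 * m)
    (e : K) (he : bar F K m e = e) (heq : e ^ Fintype.card F = -e) :
    ∃ k ∈ Orth F K m, ∀ x, k (e * x) = e * bar F K m (k x) := by
  have h2F : (2 : F) ≠ 0 := two_ne_zero' hq
  have h2 : (2 : K) ≠ 0 := by
    have := (map_ne_zero (algebraMap F K)).mpr h2F
    rwa [map_ofNat] at this
  set c := bar F K m with hc
  have hcc : ∀ x, c (c x) = x := bar_bar hm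
  let φ : K ≃ₐ[F] K := bar F K 1
  have hφ : ∀ x, φ x = x ^ Fintype.card F := by
    intro x; rw [bar_apply, pow_one]
  have hφc : ∀ x, φ (c x) = c (φ x) := by
    intro x; rw [hφ, hφ, map_pow]
  have hφsc : ∀ x, φ.symm (c x) = c (φ.symm x) := by
    intro x
    apply φ.injective
    rw [AlgEquiv.apply_symm_apply, hφc, AlgEquiv.apply_symm_apply]
  have hφe : φ e = -e := by rw [hφ, heq]
  let kk : K ≃ₗ[F] K :=
    { toFun := fun x => (x + c x) / 2 + φ ((x - c x) / 2)
      map_add' := by
        intro x y
        simp only [map_add, map_sub, map_div₀]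
        ring
      map_smul' := by
        intro a x
        simp only [map_smul, RingHom.id_apply]
        rw [← smul_add, ← smul_sub, smul_div_assoc, smul_div_assoc, map_smul, ← smul_add]
      invFun := fun x => (x + c x) / 2 + φ.symm ((x - c x) / 2)
      left_inv := by
        intro x
        have e1 : c ((x + c x) / 2 + φ ((x - c x) / 2)) = (x + c x) / 2 - φ ((x - c x) / 2) := by
          rw [map_add, ← hφc, map_div₀, map_add, hcc, map_div₀ c, map_sub, hcc]
          have h3 : c (2 : K) = 2 := map_ofNat c 2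
          rw [h3]
          have h4 : (c x - x) / 2 = -((x - c x) / 2) := by ring
          rw [h4, map_neg]
          ring
        simp only [e1]
        have e2 : ((x + c x) / 2 + φ ((x - c x) / 2) - ((x + c x) / 2 - φ ((x - c x) / 2))) / 2
            = φ ((x - c x) / 2) := by
          field_simp; ring
        rw [e2, AlgEquiv.symm_apply_apply]
        field_simp; ring
      right_inv := by
        intro x
        have e1 : c ((x + c x) / 2 + φ.symm ((x - c x) / 2))
            = (x + c x) / 2 - φ.symm ((x - c x) / 2) := by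
          rw [map_add, ← hφsc, map_div₀, map_add, hcc, map_div₀ c, map_sub, hcc]
          have h3 : c (2 : K) = 2 := map_ofNat c 2
          rw [h3]
          have h4 : (c x - x) / 2 = -((x - c x) / 2) := by ring
          rw [h4, map_neg]
          ring
        simp only [e1]
        have e2 : ((x + c x) / 2 + φ.symm ((x - c x) / 2)
            - ((x + c x) / 2 - φ.symm ((x - c x) / 2))) / 2
            = φ.symm ((x - c x) / 2) := by
          field_simp; ring
        rw [e2, AlgEquiv.apply_symm_apply]
        field_simp; ring }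
  have hkk : ∀ x, kk x = (x + c x) / 2 + φ ((x - c x) / 2) := fun x => rfl
  have h3 : c (2 : K) = 2 := map_ofNat c 2
  have hckk : ∀ x, c (kk x) = (x + c x) / 2 - φ ((x - c x) / 2) := by
    intro x
    rw [hkk, map_add, ← hφc, map_div₀, map_add, hcc, map_div₀ c, map_sub, hcc, h3]
    have h4 : (c x - x) / 2 = -((x - c x) / 2) := by ring
    rw [h4, map_neg]
    ring
  refine ⟨kk, ?_, ?_⟩
  · intro x y
    rw [form_eq, form_eq]
    change Algebra.trace F K (kk x * c (kk y)) = Algebra.trace F K (x * c y)
    rw [hckk, hkk]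
    -- write x = a + b, y = a' + b'
    set a := (x + c x) / 2 with ha
    set b := (x - c x) / 2 with hb
    set a' := (y + c y) / 2 with ha'
    set b' := (y - c y) / 2 with hb'
    have hx : x = a + b := by rw [ha, hb]; field_simp; ring
    have hcx : c y = a' - b' := by rw [ha', hb']; field_simp; ring
    have hca : c a = a := by rw [ha, map_div₀, map_add, hcc, h3]; ring
    have hcb : c b = -b := by rw [hb, map_div₀, map_sub, hcc, h3]; ring
    have hca' : c a' = a' := by rw [ha', map_div₀, map_add, hcc, h3]; ring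
    have hcb' : c b' = -b' := by rw [hb', map_div₀, map_sub, hcc, h3]; ring
    have hcφb : c (φ b) = -φ b := by rw [← hφc, hcb, map_neg]
    have hcφb' : c (φ b') = -φ b' := by rw [← hφc, hcb', map_neg]
    -- elements negated by c have trace zero
    have htr : ∀ u : K, c u = -u → Algebra.trace F K u = 0 := by
      intro u hu
      have h5 : Algebra.trace F K (c u) = Algebra.trace F K u := trace_bar u
      rw [hu, map_neg] at h5
      have h6 : (2 : F) * Algebra.trace F K u = 0 := by linear_combination -h5
      exact (mul_eq_zero.mp h6).resolve_left h2F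
    rw [hcx]
    conv_rhs => rw [hx]
    have e1 : (a + φ b) * (a' - φ b') = a * a' - φ (b * b') + φ b * a' - a * φ b' := by
      rw [map_mul]; ring
    have e2 : (a + b) * (a' - b') = a * a' - b * b' + b * a' - a * b' := by ring
    rw [e1, e2]
    simp only [map_add, map_sub]
    rw [htr (φ b * a') (by rw [map_mul, hcφb, hca']; ring),
      htr (a * φ b') (by rw [map_mul, hcφb', hca]; ring),
      htr (b * a') (by rw [map_mul, hcb, hca']; ring),
      htr (a * b') (by rw [map_mul, hcb', hca]; ring),
      show Algebra.trace F K (φ (b * b')) = Algebra.trace F K (b * b') from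
        Algebra.trace_eq_of_algEquiv φ _]
  · intro x
    change kk (e * x) = e * c (kk x)
    rw [hckk, hkk, map_mul]
    change (e * x + c e * c x) / 2 + φ ((e * x - c e * c x) / 2) = _
    have he' : c e = e := he
    rw [he', ← mul_add, ← mul_sub, mul_div_assoc, mul_div_assoc, map_mul, hφe]
    ring

end Pool.Agent.H330.Minus
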