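import Pool.Agent.H330.MinusK

/-!
# MP_8339c9_al: `PΩ^-_{2m}(q)` for all even `m ≥ 4` and all odd `q`

`F` is a finite field of odd order `q`, `K` its extension of degree `2m` with `m ≥ 4` even, and
`V = K` carries the symmetric bilinear form `form F K m x y = Tr_{K/F}(x y^(q^m))`.  This space is
nondegenerate of minus type, so `G F K m = Ω(V)/scalars` is `PΩ^-_{2m}(q)`.  Multiplication by an
element of `K` whose `(q^m+1)`-st power is `1` is an isometry: these give the Singer cycles.  For a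
subfield `L` of `K` of prime degree `t` over `F`, `t ∣ m`, the normaliser `H m L` in `G` of the
algebra of multiplications by elements of `L` is the field extension subgroup `H_t` of type
`O^-_{2m/t}(q^t)` containing the Singer cycle.

We construct one `g ∈ G` with `H_t ∩ (H_{t'})^g = 1` for all primes `t, t'` dividing `m`
simultaneously.  By the theorem of Bereczky quoted in the problem the `H_t` are all the maximal
overgroups of a Singer cycle, so `γ_u(PΩ^-_{2m}(q)) = 2` for all even `m ≥ 4` and odd `q`.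
-/

namespace Pool.Agent.H330.MinusOdd

open Module Pool.Agent.H330 Pool.Agent.H330.Minus

/-- `G = PΩ(V)`: the derived group of the isometry group of `V = K`, modulo scalars. -/
abbrev G (F K : Type) [Field F] [Fintype F] [Field K] [Fintype K] [Algebra F K] (m : ℕ) : Type :=
  Proj (Omega F K m)

/-- The image in `G = PΩ(V)` of the normaliser in `Ω(V)` of the algebra of multiplications of
`V = K` by the elements of the intermediate field `L`. -/
def H {F K : Type} [Field F] [Fintype F] [Field K] [Fintype K] [Algebra F K] (m : ℕ)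
    (L : IntermediateField F K) : Subgroup (G F K m) :=
  projNorm (Omega F K m) (fieldAlg L)

/-- The form on `V = K` is symmetric and nondegenerate, and `V` (of dimension `2m`) has no totally
isotropic subspace of dimension `m`: it is the space of minus type. -/
def IsMinusType (F K : Type) [Field F] [Fintype F] [Field K] [Fintype K] [Algebra F K] (m : ℕ) :
    Prop :=
  (∀ x y : K, form F K m x y = form F K m y x) ∧
    (∀ x : K, (∀ y, form F K m x y = 0) → x = 0) ∧
    ∀ U : Submodule F K, (∀ x ∈ U, ∀ y ∈ U, form F K m x y = 0) → finrank F U < m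

/-- The set of the field extension subgroups `H_t = H m L` of `G`, where `L` runs over the
subfields of `K` of prime degree `t ∣ m` over `F`. -/
def fieldExts (F K : Type) [Field F] [Fintype F] [Field K] [Fintype K] [Algebra F K] (m : ℕ) :
    Set (Subgroup (G F K m)) :=
  {A | ∃ L : IntermediateField F K, (finrank F L).Prime ∧ finrank F L ∣ m ∧ A = H m L}

/-- Every multiplication by `y^2`, where `y^(q^m+1) = 1`, lies in `Ω(V)`, and its image in `G` lies
in all members of `fieldExts`. -/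
def SingerInside (F K : Type) [Field F] [Fintype F] [Field K] [Fintype K] [Algebra F K] (m : ℕ) :
    Prop :=
  ∀ y : K, y ^ (Fintype.card F ^ m + 1) = 1 → ∃ t : Omega F K m,
    (∀ x : K, (t : K ≃ₗ[F] K) x = y ^ 2 * x) ∧
    ∀ A ∈ fieldExts F K m, QuotientGroup.mk' (scalars (Omega F K m)) t ∈ A

/-- There is one `g` with `A ∩ B^g = 1` for all `A, B ∈ S`. -/
def TrivialMeet {Γ : Type} [Group Γ] (S : Set (Subgroup Γ)) : Prop :=
  ∃ g : Γ, ∀ A ∈ S, ∀ B ∈ S, ∀ h ∈ A, g⁻¹ * h * g ∈ B → h = 1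

/-- If all maximal subgroups containing `s ≠ 1` belong to `S`, then some pair `{s, s^g}` is a
total dominating set, and `γ_u(Γ) = 2`. -/
def UniformPair {Γ : Type} [Group Γ] (S : Set (Subgroup Γ)) : Prop :=
  ∀ s : Γ, s ≠ 1 → (∀ M : Subgroup Γ, IsCoatom M → s ∈ M → M ∈ S) →
    (∃ g : Γ, IsTDS ({s, g * s * g⁻¹} : Set Γ)) ∧ gammaU Γ = 2

variable {F K : Type} [Field F] [Fintype F] [Field K] [Fintype K] [Algebra F K] {m : ℕ}

theorem singer_norm (y : K) (hy0 : y ≠ 0) (hΩ : mulE F (y ^ 2) (pow_ne_zero 2 hy0) ∈ Omega F K m)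
    (L : IntermediateField F K) :
    (⟨mulE F (y ^ 2) (pow_ne_zero 2 hy0), hΩ⟩ : Omega F K m)
      ∈ normIn (Omega F K m) (fieldAlg L) := by
  intro T
  have h4 : y ^ 2 ≠ 0 := pow_ne_zero 2 hy0
  constructor
  · intro hT
    obtain ⟨l, hl, hT'⟩ := mem_fieldAlg.mp hT
    rw [mem_fieldAlg]
    refine ⟨l, hl, fun x => ?_⟩
    rw [LinearEquiv.conj_apply_apply, hT']
    change y ^ 2 * (l * ((y ^ 2)⁻¹ * x)) = l * x
    field_simp
  · intro hT
    obtain ⟨l, hl, hT'⟩ := mem_fieldAlg.mp hT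
    rw [mem_fieldAlg]
    refine ⟨l, hl, fun x => ?_⟩
    have h3 := hT' (y ^ 2 * x)
    rw [LinearEquiv.conj_apply_apply] at h3
    change y ^ 2 * (T ((y ^ 2)⁻¹ * (y ^ 2 * x))) = l * (y ^ 2 * x) at h3
    rw [← mul_assoc (y ^ 2)⁻¹, inv_mul_cancel₀ h4, one_mul] at h3
    apply mul_left_cancel₀ h4
    rw [h3]; ring

theorem H_ne_bot (hq : Odd (Fintype.card F)) (hm : finrank F K = 2 * m) (hme : Even m)
    (hm0 : 0 < m) (L : IntermediateField F K) : H m L ≠ ⊥ := by
  intro hbot
  obtain ⟨z, hz1, hz⟩ := exists_z hq hm hme hm0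
  have hz0 : z ≠ 0 := by rintro rfl; simp at hz1
  have hMΩ : mulE F (z ^ 2) (pow_ne_zero 2 hz0) ∈ Omega F K m := mulE_sq_mem hm z hz0 hz1
  have h1 : (QuotientGroup.mk' (scalars (Omega F K m))
      (⟨mulE F (z ^ 2) (pow_ne_zero 2 hz0), hMΩ⟩ : Omega F K m)) ∈ H m L := by
    rw [H, mem_projNorm]
    exact singer_norm z hz0 hMΩ L
  rw [hbot, Subgroup.mem_bot, QuotientGroup.mk'_apply, QuotientGroup.eq_one_iff] at h1
  obtain ⟨c, hc⟩ := h1
  have h2 : z ^ 2 = algebraMap F K c := by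
    have := hc 1
    change z ^ 2 * 1 = c • (1 : K) at this
    rwa [mul_one, Algebra.smul_def, mul_one] at this
  have hc0 : c ≠ 0 := by
    rintro rfl
    rw [map_zero] at h2
    exact (pow_ne_zero 2 hz0) h2
  have hq3 : 3 ≤ Fintype.card F := by
    have : 1 < Fintype.card F := Fintype.one_lt_card
    obtain ⟨r, hr⟩ := hq
    omega
  have h3 : z ^ (8 * (Fintype.card F - 1)) = 1 := by
    have : z ^ (8 * (Fintype.card F - 1)) = (z ^ 2) ^ (4 * (Fintype.card F - 1)) := by
      rw [← pow_mul]; congr 1; ring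
    rw [this, h2, mul_comm, pow_mul, ← map_pow, FiniteField.pow_card_sub_one_eq_one c hc0,
      map_one, one_pow]
  have h4 := hz _ (by omega) h3
  obtain ⟨j, rfl⟩ := hme
  have h5 : Fintype.card F ^ 2 ≤ Fintype.card F ^ (j + j) :=
    Nat.pow_le_pow_right (by omega) (by omega)
  have h6 : 3 * Fintype.card F ≤ Fintype.card F ^ 2 := by
    rw [sq]; exact Nat.mul_le_mul_right _ hq3
  omega

theorem main (hq : Odd (Fintype.card F)) (hm : finrank F K = 2 * m) (hme : Even m)
    (hm0 : 0 < m) :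
    ∃ g : G F K m, ∀ L₁ L₂ : IntermediateField F K, (finrank F L₁).Prime → finrank F L₁ ∣ m →
      (finrank F L₂).Prime → finrank F L₂ ∣ m → ∀ h ∈ H m L₁, g⁻¹ * h * g ∈ H m L₂ → h = 1 := by
  classical
  obtain ⟨k, hk, hke⟩ := exists_k2 (K := K) hq hm
  obtain ⟨z, hz1, hz⟩ := exists_z hq hm hme hm0
  have hz0 : z ≠ 0 := by rintro rfl; simp at hz1
  have hcz : bar F K m z = z⁻¹ := eq_inv_of_mul_eq_one_left hz1
  set M : K ≃ₗ[F] K := mulE F (z ^ 2) (pow_ne_zero 2 hz0) with hM
  have hMΩ : M ∈ Omega F K m := mulE_sq_mem hm z hz0 hz1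
  have hkinv : k⁻¹ ∈ Orth F K m := (Orth F K m).inv_mem hk
  have hγ : k⁻¹ * M * k ∈ Omega F K m := by
    have := conj_mem hkinv hMΩ
    rwa [inv_inv] at this
  have hfix : ∀ (L : IntermediateField F K), finrank F L ∣ m → ∀ l ∈ L, bar F K m l = l := by
    intro L hLd l hl
    obtain ⟨r, hr⟩ := hLd
    rw [bar_apply, hr, pow_mul]
    have h3 := pow_of_mem L l hl
    clear * - h3
    induction r with
    | zero => simp
    | succ r ih => rw [pow_succ, pow_mul, ih, h3]
  -- elements normalising a subfield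
  have key : ∀ (L : IntermediateField F K) (x : Omega F K m),
      x ∈ normIn (Omega F K m) (fieldAlg L) → ∀ l ∈ L, ∃ l' ∈ L, ∀ y,
      (x : K ≃ₗ[F] K) (l * y) = l' * (x : K ≃ₗ[F] K) y := by
    intro L x hx l hl
    have h1 : Algebra.lmul F K l ∈ fieldAlg L := mem_fieldAlg.mpr ⟨l, hl, fun y => rfl⟩
    obtain ⟨l', hl'L, hl'⟩ := mem_fieldAlg.mp ((hx _).mp h1)
    refine ⟨l', hl'L, fun y => ?_⟩
    have h3 := hl' ((x : K ≃ₗ[F] K) y)
    rw [LinearEquiv.conj_apply_apply, LinearEquiv.symm_apply_apply] at h3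
    exact h3
  have hkk : ∀ y, k (k⁻¹ y) = y := by
    intro y; rw [← LinearEquiv.mul_apply, mul_inv_cancel]; rfl
  have hkk' : ∀ y, k⁻¹ (k y) = y := by
    intro y; rw [← LinearEquiv.mul_apply, inv_mul_cancel]; rfl
  have hke' : ∀ l, bar F K m l = l → ∀ y,
      k⁻¹ (half F l * y + dif F l * bar F K m y) = l * k⁻¹ y := by
    intro l hl y
    apply k.injective
    rw [hkk, hke l hl, hkk]
  have hMapply : ∀ y, M y = z ^ 2 * y := fun y => rfl
  have hMinv : ∀ y, M⁻¹ y = (z ^ 2)⁻¹ * y := fun y => rfl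
  have hz2 : z ^ 2 ≠ 0 := pow_ne_zero 2 hz0
  refine ⟨QuotientGroup.mk' _ (⟨k⁻¹ * M * k, hγ⟩ : Omega F K m), ?_⟩
  intro L₁ L₂ hp1 hd1 hp2 hd2
  apply proj_inter
  intro x hx hx'
  have h1 := key L₁ x hx
  have h2 := key L₂ _ hx'
  set X : K ≃ₗ[F] K := (x : K ≃ₗ[F] K) with hX
  have h2' : ∀ l ∈ L₂, ∃ l' ∈ L₂, ∀ y, (k⁻¹ * M * k)⁻¹ (X ((k⁻¹ * M * k) (l * y)))
      = l' * ((k⁻¹ * M * k)⁻¹ (X ((k⁻¹ * M * k) y))) := h2
  have hYO : k * X * k⁻¹ ∈ Orth F K m :=
    (Orth F K m).mul_mem ((Orth F K m).mul_mem hk (omega_le x.2)) hkinv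
  have happ : ∀ y, (k * X * k⁻¹) y = k (X (k⁻¹ y)) := fun y => rfl
  have hg1 : ∀ y, (k⁻¹ * M * k) y = k⁻¹ (M (k y)) := fun y => rfl
  have hg2 : ∀ y, (k⁻¹ * M * k)⁻¹ y = k⁻¹ (M⁻¹ (k y)) := by
    intro y
    have : (k⁻¹ * M * k)⁻¹ = k⁻¹ * M⁻¹ * k := by group
    rw [this]; rfl
  have hMM : ∀ y, M (M⁻¹ y) = y := by
    intro y; rw [← LinearEquiv.mul_apply, mul_inv_cancel]; rfl
  have hodd : ∀ n : ℕ, n.Prime → (Odd n ∨ n = 2) := by
    intro n hn
    rcases hn.eq_two_or_odd' with h | h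
    · exact Or.inr h
    · exact Or.inl h
  obtain ⟨c, hc⟩ := core2 hq hm hme hm0 (k * X * k⁻¹) hYO z hz1 hz L₁ L₂
    (hodd _ hp1) hp1.one_lt hd1 (hodd _ hp2) hp2.one_lt hd2
    (by
      intro l hl
      obtain ⟨l', hl', h3⟩ := h1 l hl
      refine ⟨l', hl', fun y => ?_⟩
      rw [happ, happ, hke' l (hfix L₁ hd1 l hl), h3, hke l' (hfix L₁ hd1 l' hl')])
    (by
      intro l hl
      obtain ⟨l', hl', h3⟩ := h2' l hl
      refine ⟨l', hl', fun y => ?_⟩
      rw [happ, happ]
      have h4 := h3 (k⁻¹ (M⁻¹ y))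
      rw [hg1, hg1, hg2, hg2, hke l (hfix L₂ hd2 l hl), hkk, hMM] at h4
      have h5 : M (half F l * M⁻¹ y + dif F l * bar F K m (M⁻¹ y))
          = half F l * y + dif F l * (z ^ 4 * bar F K m y) := by
        rw [hMapply, hMinv, map_mul, map_inv₀, map_pow, hcz]
        field_simp
      rw [h5] at h4
      have h6 := congrArg (fun u => M (k u)) h4
      simp only [hkk] at h6
      rw [hMM] at h6
      rw [h6, hke l' (hfix L₂ hd2 l' hl'), hkk, hMapply, hMinv, map_mul, map_inv₀, map_pow, hcz]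
      field_simp)
  refine ⟨c, fun y => ?_⟩
  have h3 := hc (k y)
  rw [happ, hkk'] at h3
  apply k.injective
  rw [h3, map_smul]

theorem exists_deg_two (hq : Odd (Fintype.card F)) (hm : finrank F K = 2 * m) (hme : Even m) :
    ∃ L : IntermediateField F K, finrank F L = 2 := by
  obtain ⟨ν, hν⟩ := FiniteField.exists_nonsquare (F := F) (by
    intro h3
    have := (FiniteField.even_card_iff_char_two (F := F)).mp h3
    obtain ⟨r, hr⟩ := hq
    omega)
  have hν0 : ν ≠ 0 := by rintro rfl; exact hν (IsSquare.zero)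
  obtain ⟨e, he2, -⟩ := exists_root hq hm hme ν hν0
  refine ⟨IntermediateField.adjoin F {e}, ?_⟩
  have hint : IsIntegral F e := Algebra.IsIntegral.isIntegral e
  rw [IntermediateField.adjoin.finrank hint]
  apply le_antisymm
  · have h1 : (minpoly F e).natDegree ≤ (Polynomial.X ^ 2 - Polynomial.C ν : Polynomial F).natDegree := by
      apply Polynomial.natDegree_le_natDegree
      apply minpoly.min F e (Polynomial.monic_X_pow_sub_C ν (by norm_num))
      simp [he2]
    rwa [Polynomial.natDegree_X_pow_sub_C] at h1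
  · rw [minpoly.two_le_natDegree_iff hint]
    rintro ⟨a, ha⟩
    apply hν
    refine ⟨a, ?_⟩
    apply (algebraMap F K).injective
    rw [map_mul, ha, ← he2, sq]

/-- **Main result.**  Let `q = |F|` be odd, `m ≥ 4` even and `[K : F] = 2m`.
(1) `V = K` with the form `Tr_{K/F}(x y^(q^m))` is the nondegenerate space of minus type of
dimension `2m`, so `G F K m = PΩ^-_{2m}(q)`.
(2) There is one `g ∈ G` such that `A ∩ B^g = 1` for all field extension subgroups `A = H_t`,
`B = H_{t'}`, `t, t'` prime divisors of `m`.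
(3) `b(G, G/H_t) = 2` for each of them.
(4) All of them contain the images of the multiplications by `y^2`, `y ∈ K`, `y^(q^m+1) = 1`
(for a generator `y` of the group of these elements, a Singer cycle of `G`).
(5) If `s ≠ 1` is an element of `G` each of whose maximal overgroups is one of the `H_t`,
then some pair `{s, s^g}` is a total dominating set of `G` and `γ_u(G) = 2`. -/
theorem result (F K : Type) [Field F] [Fintype F] [Field K] [Fintype K] [Algebra F K] (m : ℕ)
    (hq : Odd (Fintype.card F)) (hm4 : 4 ≤ m) (hme : Even m) (hm : finrank F K = 2 * m) :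
    IsMinusType F K m ∧ TrivialMeet (fieldExts F K m) ∧
    (∀ A ∈ fieldExts F K m, baseSize (G F K m) (G F K m ⧸ A) = 2) ∧
    SingerInside F K m ∧ UniformPair (fieldExts F K m) := by
  classical
  have hm0 : 0 < m := by omega
  obtain ⟨g, hg⟩ := main hq hm hme hm0
  refine ⟨⟨form_symm hm, fun x hx => form_nondeg hm x hx, fun U hU => minus_type hq hm hm0 U hU⟩,
    ⟨g, ?_⟩, ?_, ?_, ?_⟩
  · rintro _ ⟨L₁, hp1, hd1, rfl⟩ _ ⟨L₂, hp2, hd2, rfl⟩
    exact hg L₁ L₂ hp1 hd1 hp2 hd2
  · rintro _ ⟨L, hp, hd, rfl⟩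
    exact baseSize_eq_two (H m L) (H_ne_bot hq hm hme hm0 L) g (hg L L hp hd hp hd)
  · intro y hy
    have hy0 : y ≠ 0 := by
      rintro rfl
      rw [zero_pow (by omega)] at hy
      exact zero_ne_one hy
    have hyb : bar F K m y * y = 1 := by rw [bar_apply, ← pow_succ, hy]
    refine ⟨⟨mulE F (y ^ 2) (pow_ne_zero 2 hy0), mulE_sq_mem hm y hy0 hyb⟩, fun x => rfl, ?_⟩
    rintro _ ⟨L, -, -, rfl⟩
    rw [H, mem_projNorm]
    exact singer_norm y hy0 _ L
  · intro s hs1 hs
    have : Finite (K ≃ₗ[F] K) := Finite.of_injective (fun e => (e : K → K)) DFunLike.coe_injective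
    obtain ⟨L0, hL0⟩ := exists_deg_two (K := K) hq hm hme
    have h := gammaU_eq_two_family (ι := {L : IntermediateField F K //
        (finrank F L).Prime ∧ finrank F L ∣ m}) (fun L => H m L.1)
      ⟨L0, by rw [hL0]; exact ⟨Nat.prime_two, hme.two_dvd⟩⟩
      (H_ne_bot hq hm hme hm0 L0) g
      (fun i j => hg i.1 j.1 i.2.1 i.2.2 j.2.1 j.2.2) s hs1 (by
        intro M hM hsM
        obtain ⟨L, h1, h2, h3⟩ := hs M hM hsM
        exact ⟨⟨L, h1, h2⟩, h3⟩)
    exact ⟨⟨g, h.1⟩, h.2⟩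

end Pool.Agent.H330.MinusOdd
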