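import Pool.Agent.H330.MinusForm

namespace Pool.Agent.H330.Minus

open Module

variable {F K : Type} [Field F] [Fintype F] [Field K] [Fintype K] [Algebra F K] {m : ℕ}

theorem two_ne_zero' (hq : Odd (Fintype.card F)) : (2 : F) ≠ 0 := by
  intro h2
  have h3 : ringChar F = 2 := by
    have h4 : ringChar F ∣ 2 := by
      apply (ringChar.spec F 2).mp
      exact_mod_cast h2
    rcases (Nat.dvd_prime Nat.prime_two).mp h4 with h5 | h5
    · exact absurd h5 (CharP.ringChar_ne_one (R := F))
    · exact h5
  have := (FiniteField.even_card_iff_char_two (F := F)).mp h3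
  obtain ⟨r, hr⟩ := hq
  omega

/-- A fibre of a nonzero linear functional. -/
theorem card_fibre {U : Type} [AddCommGroup U] [Module F U] [Fintype U] [DecidableEq F]
    (l : U →ₗ[F] F)
    (hl : l ≠ 0) (c : F) : Fintype.card F * (Finset.univ.filter (fun u => l u = c)).card
      = Fintype.card U := by
  classical
  have hsurj : Function.Surjective l := LinearMap.surjective hl
  have h : ∀ c : F, (Finset.univ.filter (fun u => l u = c)).card
      = (Finset.univ.filter (fun u => l u = 0)).card := by
    intro c
    obtain ⟨v, hv⟩ := hsurj c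
    refine Finset.card_bij' (fun u _ => u - v) (fun u _ => u + v) ?_ ?_ ?_ ?_
    · intro u hu
      simp only [Finset.mem_filter, Finset.mem_univ, true_and] at hu ⊢
      rw [map_sub, hu, hv, sub_self]
    · intro u hu
      simp only [Finset.mem_filter, Finset.mem_univ, true_and] at hu ⊢
      rw [map_add, hu, hv, zero_add]
    · intro u _; simp
    · intro u _; simp
  have h2 : Fintype.card U = ∑ c : F, (Finset.univ.filter (fun u => l u = c)).card := by
    rw [← Finset.card_univ]
    exact Finset.card_eq_sum_card_fiberwise (f := l) (t := Finset.univ) (fun _ _ => Finset.mem_univ _)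
  rw [h2, Finset.sum_congr rfl (fun c' _ => h c'), Finset.sum_const, Finset.card_univ, h c,
    smul_eq_mul]

theorem card_sing_ge [DecidableEq F] (hq : Odd (Fintype.card F)) (hm : finrank F K = 2 * m)
    (hm0 : 0 < m) (U : Submodule F K) (hU : finrank F U = m)
    (hti : ∀ x ∈ U, ∀ y ∈ U, form F K m x y = 0) :
    (Fintype.card F ^ m - 1) * Fintype.card F ^ (m - 1) + Fintype.card F ^ m ≤
    (Finset.univ.filter (fun x : K => form F K m x x = 0)).card := by
  classical
  set q := Fintype.card F with hqdef
  have hq1 : 1 < q := Fintype.one_lt_card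
  have hperp : (bform F K m).orthogonal U = U := by
    symm
    apply Submodule.eq_of_le_of_finrank_le
    · intro x hx
      rw [LinearMap.BilinForm.mem_orthogonal_iff]
      intro y hy
      exact hti y hy x hx
    · rw [LinearMap.BilinForm.finrank_orthogonal (bform_nondeg hm), hm, hU]
      omega
  have hUcard : Fintype.card U = q ^ m := by
    rw [Module.card_eq_pow_finrank (K := F) (V := U), hU]
  have hquad : ∀ x u : K, u ∈ U → form F K m (x + u) (x + u) = form F K m x x
      + 2 * form F K m x u := by
    intro x u hu
    have h1 : form F K m (x + u) (x + u) = bform F K m (x + u) (x + u) := rfl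
    rw [h1]
    simp only [map_add, LinearMap.add_apply, bform_apply]
    rw [form_symm hm u x, hti u hu u hu]
    ring
  have hcardx : ∀ x : K, x ∉ U →
      q * (Finset.univ.filter (fun u : U => form F K m (x + u) (x + u) = 0)).card = q ^ m := by
    intro x hx
    let l : U →ₗ[F] F := (bform F K m x).domRestrict U
    have hl : l ≠ 0 := by
      intro h0
      apply hx
      rw [← hperp, LinearMap.BilinForm.mem_orthogonal_iff]
      intro y hy
      show form F K m y x = 0
      rw [form_symm hm]
      have : l ⟨y, hy⟩ = 0 := by rw [h0]; rfl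
      exact this
    have h3 := card_fibre l hl (-(form F K m x x) / 2)
    rw [← hUcard, ← h3]
    congr 2
    ext u
    simp only [Finset.mem_filter, Finset.mem_univ, true_and]
    rw [hquad x u u.2]
    have h2 := two_ne_zero' hq
    have hlu : l u = form F K m x u := rfl
    rw [hlu, eq_div_iff h2]
    constructor
    · intro h; linear_combination h
    · intro h; linear_combination h
  have hcardx' : ∀ x : K, x ∈ U →
      (Finset.univ.filter (fun u : U => form F K m (x + u) (x + u) = 0)).card = q ^ m := by
    intro x hx
    rw [← hUcard, ← Finset.card_univ]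
    congr 1
    rw [Finset.filter_true_of_mem]
    intro u _
    exact hti _ (U.add_mem hx u.2) _ (U.add_mem hx u.2)
  -- double counting
  have hsum : ∑ x : K, (Finset.univ.filter (fun u : U => form F K m (x + u) (x + u) = 0)).card
      = q ^ m * (Finset.univ.filter (fun x : K => form F K m x x = 0)).card := by
    have h1 : ∀ x : K, (Finset.univ.filter (fun u : U => form F K m (x + u) (x + u) = 0)).card
        = ∑ u : U, if form F K m (x + u) (x + u) = 0 then 1 else 0 := by
      intro x; rw [Finset.card_filter]
    rw [Finset.sum_congr rfl (fun x _ => h1 x), Finset.sum_comm]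
    have h2 : ∀ u : U, ∑ x : K, (if form F K m (x + u) (x + u) = 0 then 1 else 0)
        = (Finset.univ.filter (fun x : K => form F K m x x = 0)).card := by
      intro u
      rw [Finset.card_filter]
      exact Fintype.sum_equiv (Equiv.addRight (u : K)) _ _ (fun x => rfl)
    rw [Finset.sum_congr rfl (fun u _ => h2 u), Finset.sum_const, Finset.card_univ, hUcard,
      smul_eq_mul]
  have hsplit : q * ∑ x : K, (Finset.univ.filter
      (fun u : U => form F K m (x + u) (x + u) = 0)).card
      = (q ^ (2 * m) - q ^ m) * q ^ m + q ^ m * (q * q ^ m) := by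
    rw [Finset.mul_sum]
    have hKcard := cardK hm
    have hpart := Finset.sum_filter_add_sum_filter_not (Finset.univ : Finset K) (fun x => x ∈ U)
      (fun x => q * (Finset.univ.filter (fun u : U => form F K m (x + u) (x + u) = 0)).card)
    rw [← hpart]
    have hUf : (Finset.univ.filter (fun x : K => x ∈ U)).card = q ^ m := by
      rw [← hUcard, Fintype.card_subtype]
    have e1 : ∑ x ∈ Finset.univ.filter (fun x : K => x ∈ U),
        q * (Finset.univ.filter (fun u : U => form F K m (x + u) (x + u) = 0)).card
        = q ^ m * (q * q ^ m) := by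
      rw [Finset.sum_congr rfl (fun x hx => by
        rw [hcardx' x (Finset.mem_filter.mp hx).2]), Finset.sum_const, hUf, smul_eq_mul]
    have e2 : ∑ x ∈ Finset.univ.filter (fun x : K => ¬ x ∈ U),
        q * (Finset.univ.filter (fun u : U => form F K m (x + u) (x + u) = 0)).card
        = (q ^ (2 * m) - q ^ m) * q ^ m := by
      rw [Finset.sum_congr rfl (fun x hx => hcardx x (Finset.mem_filter.mp hx).2),
        Finset.sum_const, smul_eq_mul]
      congr 1
      have := Finset.card_filter_add_card_filter_not (s := (Finset.univ : Finset K))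
        (fun x : K => x ∈ U)
      rw [Finset.card_univ, hKcard, hUf, ← hqdef] at this
      omega
    rw [e1, e2, add_comm]
  rw [hsum] at hsplit
  obtain ⟨n, rfl⟩ : ∃ n, m = n + 1 := ⟨m - 1, by omega⟩
  set N := (Finset.univ.filter (fun x : K => form F K (n + 1) x x = 0)).card
  have hpos : 0 < q ^ (n + 1) := Nat.pow_pos (by omega)
  have hge : q ^ (n + 1) ≤ q ^ (2 * (n + 1)) := Nat.pow_le_pow_right (by omega) (by omega)
  have h1 : q ^ (2 * (n + 1)) - q ^ (n + 1) = q ^ (n + 1) * (q ^ (n + 1) - 1) := by
    rw [two_mul, pow_add, Nat.mul_sub, mul_one]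
  rw [h1] at hsplit
  have h2 : (q ^ (n + 1) * q) * N = (q ^ (n + 1) * q) *
      ((q ^ (n + 1) - 1) * q ^ n + q ^ (n + 1)) := by
    calc (q ^ (n + 1) * q) * N = q * (q ^ (n + 1) * N) := by ring
      _ = q ^ (n + 1) * (q ^ (n + 1) - 1) * q ^ (n + 1) + q ^ (n + 1) * (q * q ^ (n + 1)) := hsplit
      _ = _ := by ring
  have h3 := Nat.eq_of_mul_eq_mul_left (by positivity) h2
  rw [h3]
  simp

/-- The space is of minus type: no totally isotropic subspace of dimension `m`. -/
theorem minus_type (hq : Odd (Fintype.card F)) (hm : finrank F K = 2 * m)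
    (hm0 : 0 < m) (U : Submodule F K)
    (hti : ∀ x ∈ U, ∀ y ∈ U, form F K m x y = 0) : finrank F U < m := by
  classical
  by_contra hge
  push Not at hge
  obtain ⟨f, hf⟩ := exists_linearIndependent_of_le_finrank hge
  let g : Fin m → K := fun i => (f i : K)
  have hg : LinearIndependent F g := hf.map' U.subtype (Submodule.ker_subtype U)
  have hle : Submodule.span F (Set.range g) ≤ U := by
    rw [Submodule.span_le]
    rintro _ ⟨i, rfl⟩
    exact (f i).2
  have h1 := card_sing_ge hq hm hm0 (Submodule.span F (Set.range g))
    (by rw [finrank_span_eq_card hg, Fintype.card_fin])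
    (fun x hx y hy => hti x (hle hx) y (hle hy))
  have h2 := card_sing_le hq hm hm0
  have h3 := h1.trans h2
  set q := Fintype.card F with hqdef
  have hq1 : 1 < q := Fintype.one_lt_card
  obtain ⟨n, rfl⟩ : ∃ n, m = n + 1 := ⟨m - 1, by omega⟩
  simp only [Nat.add_sub_cancel] at h3
  obtain ⟨a, ha⟩ : ∃ a, q ^ n = a + 1 := ⟨q ^ n - 1, by
    have : 0 < q ^ n := Nat.pow_pos (by omega)
    omega⟩
  obtain ⟨b, hb⟩ : ∃ b, q ^ (n + 1) = a + 1 + b + 1 := ⟨q ^ (n + 1) - (a + 1) - 1, by
    have : q ^ n < q ^ (n + 1) := Nat.pow_lt_pow_right hq1 (by omega)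
    omega⟩
  rw [ha, hb] at h3
  simp only [Nat.add_sub_cancel] at h3
  nlinarith

end Pool.Agent.H330.Minus
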