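import Pool.Agent.H330.Proj
import Pool.Agent.H330.Uniform

/-!
# Linear groups, their projective images, and normalisers of algebras (short form)
-/

namespace Pool.Agent.H330.Short

open Module

/-- The general linear group of `V` (all `F`-linear automorphisms of `V`). -/
def LinAut (F V : Type) [Field F] [AddCommGroup V] [Module F V] : Type := V ≃ₗ[F] V

variable {F V : Type} [Field F] [AddCommGroup V] [Module F V]

/-- Composition of automorphisms. -/
instance linAutGroup : Group (LinAut F V) := LinearEquiv.automorphismGroup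

/-- `act g x = g x`. -/
def act (g : LinAut F V) (x : V) : V := (show V ≃ₗ[F] V from g) x

/-- `g` acts as a scalar. -/
def IsScalar (g : LinAut F V) : Prop := ∃ c : F, ∀ x : V, act g x = c • x

/-- `g` normalises the subalgebra `A` of `End_F(V)`: for all `T ∈ End_F(V)`,
`T ∈ A` if and only if `g T g⁻¹ ∈ A`. -/
def Normalises (A : Subalgebra F (Module.End F V)) (g : LinAut F V) : Prop :=
  ∀ T : Module.End F V, T ∈ A ↔ (show V ≃ₗ[F] V from g).conj T ∈ A

/-- The same group, seen in the Mathlib type of linear automorphisms. -/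
def toOld (Γ : Subgroup (LinAut F V)) : Subgroup (V ≃ₗ[F] V) := Γ

theorem scalar_mul (Γ : Subgroup (LinAut F V)) {a b : Γ} (ha : IsScalar (a : LinAut F V))
    (hb : IsScalar (b : LinAut F V)) : IsScalar ((a * b : Γ) : LinAut F V) :=
  (scalars (toOld Γ)).mul_mem ha hb

theorem scalar_one (Γ : Subgroup (LinAut F V)) : IsScalar ((1 : Γ) : LinAut F V) :=
  (scalars (toOld Γ)).one_mem

theorem scalar_inv (Γ : Subgroup (LinAut F V)) {a : Γ} (ha : IsScalar (a : LinAut F V)) :
    IsScalar ((a⁻¹ : Γ) : LinAut F V) :=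
  (scalars (toOld Γ)).inv_mem ha

theorem norm_mul (Γ : Subgroup (LinAut F V)) (A : Subalgebra F (Module.End F V)) {a b : Γ}
    (ha : Normalises A (a : LinAut F V)) (hb : Normalises A (b : LinAut F V)) :
    Normalises A ((a * b : Γ) : LinAut F V) :=
  (normIn (toOld Γ) A).mul_mem ha hb

theorem norm_one (Γ : Subgroup (LinAut F V)) (A : Subalgebra F (Module.End F V)) :
    Normalises A ((1 : Γ) : LinAut F V) :=
  (normIn (toOld Γ) A).one_mem

theorem norm_inv (Γ : Subgroup (LinAut F V)) (A : Subalgebra F (Module.End F V)) {a : Γ}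
    (ha : Normalises A (a : LinAut F V)) : Normalises A ((a⁻¹ : Γ) : LinAut F V) :=
  (normIn (toOld Γ) A).inv_mem ha

/-- The scalars in the linear group `Γ`. -/
def Scal (Γ : Subgroup (LinAut F V)) : Subgroup Γ :=
  ⟨⟨⟨{g | IsScalar (g : LinAut F V)}, scalar_mul Γ⟩, scalar_one Γ⟩, scalar_inv Γ⟩

/-- The normaliser of the algebra `A` in the linear group `Γ`. -/
def NormOf (Γ : Subgroup (LinAut F V)) (A : Subalgebra F (Module.End F V)) : Subgroup Γ :=
  ⟨⟨⟨{g | Normalises A (g : LinAut F V)}, norm_mul Γ A⟩, norm_one Γ A⟩, norm_inv Γ A⟩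

instance scal_normal (Γ : Subgroup (LinAut F V)) : (Scal Γ).Normal :=
  inferInstanceAs ((scalars (toOld Γ)).Normal)

/-- `P Γ = Γ / scalars`. -/
def P (Γ : Subgroup (LinAut F V)) : Type := Γ ⧸ Scal Γ

/-- The quotient group structure. -/
instance projGroup (Γ : Subgroup (LinAut F V)) : Group (P Γ) :=
  QuotientGroup.Quotient.group (Scal Γ)

/-- The projection `Γ → P Γ`. -/
def proj (Γ : Subgroup (LinAut F V)) : Γ →* P Γ := QuotientGroup.mk' (Scal Γ)

/-- The image in `P Γ` of the normaliser in `Γ` of the algebra `A`. -/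
def PNorm (Γ : Subgroup (LinAut F V)) (A : Subalgebra F (Module.End F V)) : Subgroup (P Γ) :=
  (NormOf Γ A).map (proj Γ)

/-- There is one `g` with `A ∩ B^g = 1` for all `A, B ∈ S`. -/
def TrivialMeet {Γ : Type} [Group Γ] (S : Set (Subgroup Γ)) : Prop :=
  ∃ g : Γ, ∀ A ∈ S, ∀ B ∈ S, ∀ h ∈ A, g⁻¹ * h * g ∈ B → h = 1

/-- If all maximal subgroups containing `s ≠ 1` belong to `S`, then some pair `{s, s^g}` is a
total dominating set, and `γ_u(Γ) = 2`. -/
def UniformPair {Γ : Type} [Group Γ] (S : Set (Subgroup Γ)) : Prop :=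
  ∀ s : Γ, s ≠ 1 → (∀ M : Subgroup Γ, IsCoatom M → s ∈ M → M ∈ S) →
    (∃ g : Γ, IsTDS ({s, g * s * g⁻¹} : Set Γ)) ∧ gammaU Γ = 2

/-- `b(Γ, Γ/A) = 2` for all `A ∈ S`. -/
def BaseTwo {Γ : Type} [Group Γ] (S : Set (Subgroup Γ)) : Prop :=
  ∀ A ∈ S, baseSize Γ (Γ ⧸ A) = 2

end Pool.Agent.H330.Short
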