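import Pool.Agent.H373.MN.H7

/-!
# Source algebras of blocks and primitive permutation groups with three normal subgroups
-/

set_option autoImplicit false
set_option linter.unusedSectionVars false
set_option linter.style.haveILetI false

open scoped BigOperators Classical MatrixGroups

noncomputable section

namespace Pool.Agent.H330.PU

open Pool.Agent.H373.BU hiding Ind
open Pool.Agent.H373.MN
open MonoidAlgebra hiding coeff_sum

/-- `i` is a source idempotent of the block `kGe` with the defect group `D`: a primitive idempotent of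
the algebra of the `D`-fixed elements of `kGe` with `Br_D(i) ≠ 0`, i.e. the coefficient of `i` at some
element of `C_G(D)` is not zero. -/
structure IsSource {k G : Type} [Field k] [Group G] (p : ℕ) (e : MonoidAlgebra k G)
    (D : Subgroup G) (i : MonoidAlgebra k G) : Prop where
  block : IsBlock e
  pgroup : IsPGroup p D
  defect : IsMinTr D e
  fixed : ∀ d ∈ D, el k d * i = i * el k d
  idem : i * i = i
  mul_e : i * e = i
  br : ∃ g ∈ Subgroup.centralizer (D : Set G), i.coeff g ≠ 0
  primitive : ∀ f, (∀ d ∈ D, el k d * f = f * el k d) → f * f = f → f * i = f → i * f = f →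
    f = 0 ∨ f = i

/-- A block with a defect group and a source idempotent. -/
structure Src (p : ℕ) (k : Type) [Field k] where
  /-- the group -/
  G : Type
  [grp : Group G]
  [fin : Finite G]
  /-- the block idempotent -/
  e : MonoidAlgebra k G
  /-- the defect group -/
  D : Subgroup G
  /-- the source idempotent -/
  i : MonoidAlgebra k G
  h : IsSource p e D i

attribute [instance] Src.grp Src.fin

/-- The source algebra `i kG i`, as a subspace of `kG`. -/
def Src.alg {p : ℕ} {k : Type} [Field k] (s : Src p k) : Submodule k (MonoidAlgebra k s.G) where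
  carrier := {a | s.i * a = a ∧ a * s.i = a}
  add_mem' := by
    rintro a b ⟨h1, h2⟩ ⟨h3, h4⟩
    exact ⟨by rw [mul_add, h1, h3], by rw [add_mul, h2, h4]⟩
  zero_mem' := ⟨mul_zero _, zero_mul _⟩
  smul_mem' := by
    rintro c a ⟨h1, h2⟩
    exact ⟨by rw [mul_smul_comm, h1], by rw [smul_mul_assoc, h2]⟩

/-- The source algebra `i kG i`, as a subset of `kG`. -/
def Src.set {p : ℕ} {k : Type} [Field k] (s : Src p k) : Set (MonoidAlgebra k s.G) :=
  {a | s.i * a = a ∧ a * s.i = a}

/-- `Φ` is `k`-linear. -/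
def Lin {k G H : Type} [Field k] (Φ : MonoidAlgebra k G → MonoidAlgebra k H) : Prop :=
  ∀ (c : k) (a b : MonoidAlgebra k G), Φ (c • a + b) = c • Φ a + Φ b

/-- `Φ` is multiplicative on the source algebra of `s`. -/
def Mult {p : ℕ} {k : Type} [Field k] (s t : Src p k)
    (Φ : MonoidAlgebra k s.G → MonoidAlgebra k t.G) : Prop :=
  ∀ a b : MonoidAlgebra k s.G, a ∈ s.set → b ∈ s.set → Φ (a * b) = Φ a * Φ b

/-- `Φ (d i) = φ(d) i'` for the elements `d` of the defect group. -/
def Compat {p : ℕ} {k : Type} [Field k] (s t : Src p k) (φ : s.D → t.D)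
    (Φ : MonoidAlgebra k s.G → MonoidAlgebra k t.G) : Prop :=
  ∀ d : s.D, Φ (el k d.1 * s.i) = el k (φ d).1 * t.i

/-- The source algebras of `s` and `t` are isomorphic interior algebras: there are an isomorphism `φ`
of the defect groups and a linear map `Φ` which restricts to an isomorphism of the algebra `i kG i`
onto the other one, with `Φ (d i) = φ(d) i'`. -/
def SrcIso {p : ℕ} {k : Type} [Field k] (s t : Src p k) : Prop :=
  ∃ (φ : s.D ≃* t.D) (Φ : MonoidAlgebra k s.G → MonoidAlgebra k t.G),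
    Lin Φ ∧ Set.BijOn Φ s.set t.set ∧ Mult s t Φ ∧ Compat s t φ Φ

theorem SrcIso.trans {p : ℕ} {k : Type} [Field k] {s t w : Src p k} (h : SrcIso s t)
    (h' : SrcIso t w) : SrcIso s w := by
  obtain ⟨φ, Φ, h0, h1, h2, h3⟩ := h
  obtain ⟨ψ, Ψ, h0', h1', h2', h3'⟩ := h'
  refine ⟨φ.trans ψ, Ψ ∘ Φ, fun c a b => ?_, h1'.comp h1, fun a b ha hb => ?_, fun d => ?_⟩
  · change Ψ (Φ (c • a + b)) = c • Ψ (Φ a) + Ψ (Φ b)
    rw [h0, h0']
  · change Ψ (Φ (a * b)) = Ψ (Φ a) * Ψ (Φ b)
    rw [h2 a b ha hb, h2' _ _ (h1.mapsTo ha) (h1.mapsTo hb)]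
  · change Ψ (Φ (el k d.1 * s.i)) = el k (ψ (φ d)).1 * w.i
    rw [h3 d, h3' (φ d)]

section core

variable {k X V G : Type} [Field k] [Group X] [Group V] [Group G] [Fintype X] [Fintype V]
  [Finite G] (I : Mon k X V G) {u : k} (hu : u * (Fintype.card V : k) = 1)

/-- the map `a ↦ ε a` -/
def ph (u : k) : MonoidAlgebra k G →ₗ[k] MonoidAlgebra k X where
  toFun a := I.ep u * I.io a
  map_add' a b := by rw [map_add, mul_add]
  map_smul' r a := by rw [map_smul, mul_smul_comm, RingHom.id_apply]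

theorem ph_apply (a : MonoidAlgebra k G) : ph I u a = I.ep u * I.io a := rfl

include hu in
theorem ph_mul (a b : MonoidAlgebra k G) : ph I u (a * b) = ph I u a * ph I u b := by
  rw [ph_apply, ph_apply, ph_apply, map_mul, mul_assoc, ← mul_assoc (I.io a), I.io_ep, mul_assoc,
    ← mul_assoc (I.ep u) (I.ep u), I.ep_idem hu]

include hu in
theorem sg_ep' (a : MonoidAlgebra k X) : I.sg (I.ep u * a) = I.sg a := by
  have := I.sg_ep hu 1 a
  rwa [el_one, one_mul, I.wt_one, one_mul] at this

theorem sg_one : I.sg (1 : MonoidAlgebra k X) = 1 := by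
  have := I.sg_el (1 : X)
  rwa [el_one, I.wt_one] at this

include hu in
theorem sg_ph (a : MonoidAlgebra k G) : I.sg (ph I u a) = a := by
  rw [ph_apply, sg_ep' I hu]
  have := I.sg_io_mul a 1
  rw [mul_one, sg_one, mul_one] at this
  exact this

include hu in
theorem ph_inj {a b : MonoidAlgebra k G} (h : ph I u a = ph I u b) : a = b := by
  rw [← sg_ph I hu a, h, sg_ph I hu]

include hu in
/-- `ε x ε = ε σ(x)` -/
theorem corner (y : MonoidAlgebra k X) : I.ep u * y * I.ep u = ph I u (I.sg y) := by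
  induction y using MonoidAlgebra.induction_linear with
  | zero => simp
  | add a b ha hb => rw [mul_add, add_mul, ha, hb, map_add, map_add]
  | single x r =>
    rw [single_eq, mul_smul_comm, smul_mul_assoc, map_smul, map_smul]
    congr 1
    rw [I.sg_el]
    by_cases hx : x ∈ I.Y
    · rw [mul_assoc, I.ep_comm u hx, ← mul_assoc, I.ep_idem hu, ph_apply, I.ep_wt u hx]
    · rw [I.wt_not hx, map_zero]
      obtain ⟨v, v', h2, h3⟩ := I.mackey x hx
      have h4 : ((I.lam v' : kˣ) : k) • (I.ep u * el k x * I.ep u) =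
          ((I.lam v : kˣ) : k) • (I.ep u * el k x * I.ep u) := by
        rw [← smul_mul_assoc, ← smul_mul_assoc, ← I.ep_i, mul_assoc (I.ep u), el_mul, h2,
          inv_mul_cancel_right, ← el_mul, ← mul_assoc, mul_assoc _ (el k (I.i v)), I.i_ep,
          mul_smul_comm]
      have h5 : (((I.lam v' : kˣ) : k) - ((I.lam v : kˣ) : k)) •
          (I.ep u * el k x * I.ep u) = 0 := by
        rw [sub_smul, h4, sub_self]
      have h6 : (((I.lam v' : kˣ) : k) - ((I.lam v : kˣ) : k)) ≠ 0 := by
        rw [sub_ne_zero]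
        exact fun h => h3 (Units.ext h)
      exact (smul_eq_zero.mp h5).resolve_left h6

include hu in
theorem ep_ph (a : MonoidAlgebra k G) : I.ep u * ph I u a = ph I u a := by
  rw [ph_apply, ← mul_assoc, I.ep_idem hu]

include hu in
theorem ph_ep (a : MonoidAlgebra k G) : ph I u a * I.ep u = ph I u a := by
  rw [ph_apply, mul_assoc, I.io_ep, ← mul_assoc, I.ep_idem hu]

theorem el_ph (g : G) (a : MonoidAlgebra k G) :
    el k (I.j g) * ph I u a = ph I u (el k g * a) := by
  rw [ph_apply, ph_apply, map_mul, I.io_single, ← mul_assoc, I.ep_j, mul_assoc]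

theorem ph_el (g : G) (a : MonoidAlgebra k G) :
    ph I u a * el k (I.j g) = ph I u (a * el k g) := by
  rw [ph_apply, ph_apply, map_mul, I.io_single, mul_assoc]

include hu in
theorem ph_cen {e : MonoidAlgebra k G} (he : ∀ a, e * a = a * e) (a : MonoidAlgebra k G) :
    ph I u a * I.cen u e = ph I u (a * e) := by
  have h1 : I.ep u * I.cen u e = ph I u e := by
    have h2 := corner I hu (I.cen u e)
    rw [I.sg_cen hu he, mul_assoc, I.cen_comm hu he, ← mul_assoc, I.ep_idem hu] at h2
    exact h2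
  rw [ph_mul I hu, ← h1, ← mul_assoc, ph_ep I hu]

include hu in
theorem isSource_ph {p : ℕ} {e : MonoidAlgebra k G} {D : Subgroup G} {i : MonoidAlgebra k G}
    (h : IsSource p e D i) : IsSource p (I.cen u e) (D.map I.j) (ph I u i) where
  block := I.cen_isBlock hu h.block
  pgroup := h.pgroup.map I.j
  defect := I.cen_isMinTr hu h.block h.defect
  fixed := by
    rintro _ ⟨d, hd, rfl⟩
    rw [el_ph, ph_el, h.fixed d hd]
  idem := by rw [← ph_mul I hu, h.idem]
  mul_e := by rw [ph_cen I hu h.block.central, h.mul_e]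
  br := by
    obtain ⟨g, hg, hg'⟩ := h.br
    refine ⟨I.j g, ?_, ?_⟩
    · rw [Subgroup.mem_centralizer_iff]
      rintro _ ⟨d, hd, rfl⟩
      rw [← map_mul, ← map_mul, Subgroup.mem_centralizer_iff.mp hg d hd]
    · have h1 := I.coeff_form (u := u) i 1 g
      rw [map_one, one_mul] at h1
      rw [ph_apply, h1, inv_one, map_one, Units.val_one, mul_one]
      exact mul_ne_zero (left_ne_zero_of_mul_eq_one hu) hg'
  primitive := by
    intro F hF1 hF2 hF3 hF4
    have h1 : I.ep u * F * I.ep u = F := by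
      have h2 : I.ep u * F = F := by rw [← hF4, ← mul_assoc, ep_ph I hu]
      have h3 : F * I.ep u = F := by rw [← hF3, mul_assoc, ph_ep I hu]
      rw [h2, h3]
    rw [corner I hu] at h1
    obtain ⟨a, ha⟩ : ∃ a, ph I u a = F := ⟨_, h1⟩
    subst ha
    have h2 : ∀ d ∈ D, el k d * a = a * el k d := by
      intro d hd
      apply ph_inj I hu
      rw [← el_ph, ← ph_el]
      exact hF1 _ ⟨d, hd, rfl⟩
    have h3 : a * a = a := ph_inj I hu (by rw [ph_mul I hu, hF2])
    have h4 : a * i = a := ph_inj I hu (by rw [ph_mul I hu, hF3])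
    have h5 : i * a = a := ph_inj I hu (by rw [ph_mul I hu, hF4])
    rcases h.primitive a h2 h3 h4 h5 with h6 | h6
    · left
      rw [h6, map_zero]
    · right
      rw [h6]

end core

theorem exists_src {p : ℕ} [hp : Fact p.Prime] {k : Type} [Field k] [CharP k p] (s : Src p k)
    {X V : Type} [Group X] [Group V] [Finite X] [Finite V] (I : Mon k X V s.G)
    (hV : ¬ p ∣ Nat.card V) : ∃ (e' : MonoidAlgebra k X) (D' : Subgroup X)
      (i' : MonoidAlgebra k X) (h' : IsSource p e' D' i'), SrcIso s ⟨X, e', D', i', h'⟩ := by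
  haveI := Fintype.ofFinite X
  haveI := Fintype.ofFinite V
  have hV0 : (Fintype.card V : k) ≠ 0 := by
    rw [← Nat.card_eq_fintype_card, Ne, CharP.cast_eq_zero_iff k p]
    exact hV
  have hu : ((Fintype.card V : k)⁻¹) * (Fintype.card V : k) = 1 := inv_mul_cancel₀ hV0
  refine ⟨I.cen _ s.e, s.D.map I.j, ph I _ s.i, isSource_ph I hu s.h,
    s.D.equivMapOfInjective I.j I.j_inj, ?_⟩
  refine ⟨ph I (Fintype.card V : k)⁻¹, fun c a b => by rw [map_add, map_smul], ⟨?_, ?_, ?_⟩,
    fun a b _ _ => ph_mul I hu a b, fun d => (el_ph I d.1 s.i).symm⟩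
  · rintro a ⟨h1, h2⟩
    refine ⟨?_, ?_⟩
    · change ph I _ s.i * ph I _ a = ph I _ a
      rw [← ph_mul I hu, h1]
    · change ph I _ a * ph I _ s.i = ph I _ a
      rw [← ph_mul I hu, h2]
  · exact fun a _ b _ hab => ph_inj I hu hab
  · rintro F ⟨hF1, hF2⟩
    change ph I _ s.i * F = F at hF1
    change F * ph I _ s.i = F at hF2
    have h1 : I.ep (Fintype.card V : k)⁻¹ * F * I.ep (Fintype.card V : k)⁻¹ = F := by
      have h2 : I.ep (Fintype.card V : k)⁻¹ * F = F := by rw [← hF1, ← mul_assoc, ep_ph I hu]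
      have h3 : F * I.ep (Fintype.card V : k)⁻¹ = F := by rw [← hF2, mul_assoc, ph_ep I hu]
      rw [h2, h3]
    rw [corner I hu] at h1
    refine ⟨I.sg F, ⟨?_, ?_⟩, h1⟩
    · apply ph_inj I hu
      rw [ph_mul I hu, h1, hF1]
    · apply ph_inj I hu
      rw [ph_mul I hu, h1, hF2]

theorem exists_XP {p q : ℕ} [hp : Fact p.Prime] (h : Good p q) {k : Type} [Field k]
    [IsAlgClosed k] [CharP k p] (s : Src p k) {n : ℕ}
    (hn : Nat.card s.G ^ 2 + 3 * Nat.card s.G ≤ n) :
    ∃ t : Src p k, Nonempty (t.G ≃* XP n q) ∧ (5 ≤ n → PrimitiveThree t.G) ∧ SrcIso s t := by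
  haveI : NeZero q := ⟨h.prime.ne_zero⟩
  obtain ⟨V, _, _, I, hV⟩ := exists_monK (k := k) h s.G hn
  obtain ⟨e', D', i', h', hs⟩ := exists_src s I hV
  exact ⟨⟨XP n q, e', D', i', h'⟩, ⟨MulEquiv.refl _⟩, fun hn => primitiveThree_XP h hn, hs⟩

/-- A class of groups. -/
abbrev Cls : Type 1 := (G : Type) → [Group G] → Prop

/-- The class of all groups. -/
def All : Cls := fun _ _ => True

/-- The groups which are isomorphic to `X_n` for some `n ∈ S`. -/
def InXP (q : ℕ) (S : Set ℕ) : Cls := fun G _ => ∃ n ∈ S, Nonempty (G ≃* XP n q)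

/-- **Puig's finiteness conjecture** for the group `P` and the class `C` of finite groups: there are
finitely many source algebras of blocks such that the source algebras of the blocks of the groups in
`C` with defect groups isomorphic to `P` are isomorphic to one of them, as interior algebras. -/
def Puig (p : ℕ) (k : Type) [Field k] (P : Type) [Group P] (C : Cls) : Prop :=
  ∃ (N : ℕ) (r : Fin N → Src p k), ∀ s : Src p k, C s.G → Nonempty (s.D ≃* P) →
    ∃ j, SrcIso s (r j)

/-- The dimensions of the source algebras of the blocks of the groups in `C` with defect groups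
isomorphic to `P` are bounded. -/
def Bounded (p : ℕ) (k : Type) [Field k] (P : Type) [Group P] (C : Cls) : Prop :=
  ∃ N : ℕ, ∀ s : Src p k, C s.G → Nonempty (s.D ≃* P) → Module.finrank k s.alg ≤ N

theorem SrcIso.defect {p : ℕ} {k : Type} [Field k] {s t : Src p k} (h : SrcIso s t) {P : Type}
    [Group P] (hs : Nonempty (s.D ≃* P)) : Nonempty (t.D ≃* P) := by
  obtain ⟨φ, -⟩ := h
  obtain ⟨f⟩ := hs
  exact ⟨φ.symm.trans f⟩

theorem SrcIso.finrank {p : ℕ} {k : Type} [Field k] {s t : Src p k} (h : SrcIso s t) :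
    Module.finrank k s.alg = Module.finrank k t.alg := by
  obtain ⟨-, Φ, h0, h1, -, -⟩ := h
  let L : MonoidAlgebra k s.G →ₗ[k] MonoidAlgebra k t.G :=
    { toFun := Φ
      map_add' := fun a b => by
        have := h0 1 a b
        rwa [one_smul, one_smul] at this
      map_smul' := fun c a => by
        have h3 := h0 c a 0
        rw [add_zero] at h3
        have h4 := h0 1 0 0
        rw [smul_zero, zero_add, one_smul] at h4
        have h5 : Φ 0 = 0 := by simpa using h4
        rw [h3, h5, add_zero, RingHom.id_apply] }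
  let M : s.alg →ₗ[k] t.alg := (L.comp s.alg.subtype).codRestrict t.alg fun a => h1.mapsTo a.2
  have hM : Function.Bijective M := by
    constructor
    · intro a b hab
      exact Subtype.ext (h1.injOn a.2 b.2 (congrArg Subtype.val hab))
    · rintro ⟨F, hF⟩
      obtain ⟨a, ha, rfl⟩ := h1.surjOn hF
      exact ⟨⟨a, ha⟩, rfl⟩
  exact (LinearEquiv.ofBijective M hM).finrank_eq

section main

variable {p q : ℕ} [hp : Fact p.Prime] (h : Good p q) {k : Type} [Field k]
  [IsAlgClosed k] [CharP k p]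

include h in
theorem exists_S {S : Set ℕ} (hS : S.Infinite) (s : Src p k) :
    ∃ t : Src p k, InXP q S t.G ∧ SrcIso s t := by
  obtain ⟨n, hnS, hn⟩ := hS.exists_gt (Nat.card s.G ^ 2 + 3 * Nat.card s.G)
  obtain ⟨t, h1, -, h3⟩ := exists_XP h s hn.le
  exact ⟨t, ⟨n, hnS, h1⟩, h3⟩

include h in
theorem exists_P (s : Src p k) : ∃ t : Src p k, PrimitiveThree t.G ∧ SrcIso s t := by
  obtain ⟨n, hnS, hn⟩ := infinite_five.exists_gt (Nat.card s.G ^ 2 + 3 * Nat.card s.G)
  obtain ⟨t, -, h2, h3⟩ := exists_XP h s hn.le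
  exact ⟨t, h2 hnS, h3⟩

theorem puig_of {P : Type} [Group P] {C : Cls}
    (hC : ∀ s : Src p k, ∃ t : Src p k, C t.G ∧ SrcIso s t) :
    Puig p k P All ↔ Puig p k P C := by
  constructor
  · rintro ⟨N, r, hr⟩
    exact ⟨N, r, fun s _ hs => hr s trivial hs⟩
  · rintro ⟨N, r, hr⟩
    refine ⟨N, r, fun s _ hs => ?_⟩
    obtain ⟨t, ht, hst⟩ := hC s
    obtain ⟨j, hj⟩ := hr t ht (hst.defect hs)
    exact ⟨j, hst.trans hj⟩

theorem bounded_of {P : Type} [Group P] {C : Cls}
    (hC : ∀ s : Src p k, ∃ t : Src p k, C t.G ∧ SrcIso s t) :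
    Bounded p k P All ↔ Bounded p k P C := by
  constructor
  · rintro ⟨N, hr⟩
    exact ⟨N, fun s _ hs => hr s trivial hs⟩
  · rintro ⟨N, hr⟩
    refine ⟨N, fun s _ hs => ?_⟩
    obtain ⟨t, ht, hst⟩ := hC s
    rw [hst.finrank]
    exact hr t ht (hst.defect hs)

end main

theorem main_puig (p : ℕ) [hp : Fact p.Prime] :
    (∀ N : ℕ, ∃ q, N < q ∧ Good p q) ∧
    ∀ q, Good p q →
      (∀ n, 5 ≤ n → ThreeNormal p q n (XP n q) ∧ IsPrimitiveGroup (XP n q)) ∧
      ∀ (k : Type) [Field k] [IsAlgClosed k] [CharP k p],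
        (∀ (s : Src p k) (n : ℕ), Nat.card s.G ^ 2 + 3 * Nat.card s.G ≤ n →
          ∃ t : Src p k, Nonempty (t.G ≃* XP n q) ∧ SrcIso s t) ∧
        ∀ (P : Type) [Group P],
          (∀ S : Set ℕ, S.Infinite → (Puig p k P All ↔ Puig p k P (InXP q S))) ∧
          (Puig p k P All ↔ Puig p k P PrimitiveThree) := by
  refine ⟨exists_good p, fun q h => ⟨fun n hn => ⟨threeNormal_XP h hn, primitive_XP h hn⟩, ?_⟩⟩
  intro k _ _ _
  refine ⟨fun s n hn => ?_, fun P _ => ⟨fun S hS => puig_of (exists_S h hS), puig_of (exists_P h)⟩⟩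
  obtain ⟨t, h1, -, h3⟩ := exists_XP h s hn
  exact ⟨t, h1, h3⟩

theorem main_bounded (p : ℕ) [hp : Fact p.Prime] :
    (∀ N : ℕ, ∃ q, N < q ∧ Good p q) ∧
    ∀ q, Good p q →
      (∀ n, 5 ≤ n → ThreeNormal p q n (XP n q) ∧ IsPrimitiveGroup (XP n q)) ∧
      ∀ (k : Type) [Field k] [IsAlgClosed k] [CharP k p],
        (∀ (s : Src p k) (n : ℕ), Nat.card s.G ^ 2 + 3 * Nat.card s.G ≤ n →
          ∃ t : Src p k, Nonempty (t.G ≃* XP n q) ∧ Nonempty (s.D ≃* t.D) ∧
            Module.finrank k s.alg = Module.finrank k t.alg) ∧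
        ∀ (P : Type) [Group P],
          (∀ S : Set ℕ, S.Infinite → (Bounded p k P All ↔ Bounded p k P (InXP q S))) ∧
          (Bounded p k P All ↔ Bounded p k P PrimitiveThree) := by
  refine ⟨exists_good p, fun q h => ⟨fun n hn => ⟨threeNormal_XP h hn, primitive_XP h hn⟩, ?_⟩⟩
  intro k _ _ _
  refine ⟨fun s n hn => ?_, fun P _ => ⟨fun S hS => bounded_of (exists_S h hS),
    bounded_of (exists_P h)⟩⟩
  obtain ⟨t, h1, -, h3⟩ := exists_XP h s hn
  exact ⟨t, h1, h3.defect ⟨MulEquiv.refl _⟩ |>.map MulEquiv.symm, h3.finrank⟩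

end Pool.Agent.H330.PU
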