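import Pool.Agent.H330.SympCore4

namespace Pool.Agent.H330.Symp

open Module Pool.Agent.H330 Pool.Agent.H330.Minus

variable {F K : Type} [Field F] [Fintype F] [Field K] [Fintype K] [Algebra F K] {m : ℕ}

theorem delta_ne_of_notMem {x0 x1 : K} (hx0 : x0 ≠ 0)
    (h : ∀ d, bar F K m d = d → x1 ≠ d * x0) :
    x0 * bar F K m x1 - x1 * bar F K m x0 ≠ 0 := by
  intro h0
  have hcx : bar F K m x0 ≠ 0 := by simpa using hx0
  apply h (x1 / x0)
  · rw [map_div₀, div_eq_div_iff hcx hx0]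
    linear_combination h0
  · field_simp

namespace Pair

variable {lam : K} {ν : F} {J0 J1 : K →ₗ[F] K} {a p r r' : K}

/-- the second isometry -/
noncomputable def U' (P : Pair m lam ν J0 J1 a p r r') (γ : F) : K ≃ₗ[F] K :=
  UU P.two P.hm P.hl P.ab1 ν γ

/-- `w = U⁻¹ U'` -/
noncomputable def W (P : Pair m lam ν J0 J1 a p r r') (γ γ' : F) : K ≃ₗ[F] K :=
  (P.U γ)⁻¹ * P.U' γ'

/-- `w - 1` -/
noncomputable def MM (P : Pair m lam ν J0 J1 a p r r') (γ γ' : F) : K →ₗ[F] K :=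
  (P.W γ γ' : K →ₗ[F] K) - LinearMap.id

theorem MM_apply (P : Pair m lam ν J0 J1 a p r r') (γ γ' : F) (x : K) :
    P.MM γ γ' x = (P.U γ).symm (P.U' γ' x) - x := rfl

theorem MM_eq (P : Pair m lam ν J0 J1 a p r r') (γ γ' : F) (x : K) :
    P.MM γ γ' x = ((γ' - γ) * bil F K m lam x a) • a
      + (γ * ν⁻¹ * bil F K m lam x (J0 a)
        - γ * γ' * ν⁻¹ ^ 2 * bil F K m lam (J1 a) (J0 a) * bil F K m lam x (J1 a)) • J0 a
      + (-(γ' * ν⁻¹ * bil F K m lam x (J1 a))) • J1 a := by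
  have hNa : NN m lam ν a (J0 a) a = 0 := by
    rw [NN_apply, P.ab, bil_self P.two P.hm P.hl]; module
  have hNb : NN m lam ν a (J0 a) (J1 a) = (-(ν⁻¹ * bil F K m lam (J1 a) (J0 a))) • J0 a := by
    rw [NN_apply, P.s1.skew, P.ab1]
    module
  rw [MM_apply, U, U', UU_symm_apply, UU_apply, map_add (NN m lam ν a (J0 a)),
    map_smul (NN m lam ν a (J0 a)), NN_apply lam ν a (J1 a) x, map_sub, map_smul (NN m lam ν a (J0 a)),
    map_smul (NN m lam ν a (J0 a)), hNa, hNb, NN_apply lam ν a (J0 a) x]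
  module

theorem MM_surj (P : Pair m lam ν J0 J1 a p r r') (hq : Odd (Fintype.card F)) (hmo : Odd m)
    {γ γ' : F} (hγ : γ ≠ 0) (hγ' : γ' ≠ 0) (hne : γ' - γ ≠ 0) (c0 c1 c2 : F) :
    ∃ x, P.MM γ γ' x = c0 • a + c1 • J0 a + c2 • J1 a := by
  have hν0 := P.nu0
  obtain ⟨x, hx⟩ := exists_dual P.hm P.hl P.hl0 _ (P.linInd hq hmo)
    ![c0 / (γ' - γ), (c1 - γ * ν⁻¹ * bil F K m lam (J1 a) (J0 a) * c2) * ν / γ,
      -(c2 * ν / γ'), 0]
  have x0 : bil F K m lam x a = c0 / (γ' - γ) := hx 0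
  have x1 : bil F K m lam x (J0 a)
      = (c1 - γ * ν⁻¹ * bil F K m lam (J1 a) (J0 a) * c2) * ν / γ := hx 1
  have x2 : bil F K m lam x (J1 a) = -(c2 * ν / γ') := hx 2
  refine ⟨x, ?_⟩
  rw [P.MM_eq, x0, x1, x2]
  congr 1
  · congr 1
    · congr 1
      field_simp
    · congr 1
      field_simp
      ring
  · congr 1
    field_simp

/-- if `h₁ w = w h₂` with `h₁`, `h₂` semilinear over `D` then `h₁ = h₂` -/
theorem eq_of_conj (P : Pair m lam ν J0 J1 a p r r')
    (hm7 : 7 ≤ m) {γ γ' : F} (h1 h2 : K ≃ₗ[F] K) {i1 i2 : ℕ} (ht1 : Tw m i1 h1)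
    (ht2 : Tw m i2 h2) (hw : ∀ x, h1 (P.W γ γ' x) = P.W γ γ' (h2 x)) : ∀ x, h1 x = h2 x := by
  have hWM : ∀ x, P.W γ γ' x = x + P.MM γ γ' x := by
    intro x
    change _ = x + (P.W γ γ' x - x)
    abel
  let co : K →ₗ[F] (Fin 3 → F) :=
    LinearMap.pi (fun k => (bil F K m lam).flip ((![a, J0 a, J1 a] : Fin 3 → K) k))
  have hco : ∀ y, co y = 0 → P.MM γ γ' y = 0 := by
    intro y hy
    have y0 : bil F K m lam y a = 0 := congrFun hy 0
    have y1 : bil F K m lam y (J0 a) = 0 := congrFun hy 1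
    have y2 : bil F K m lam y (J1 a) = 0 := congrFun hy 2
    rw [P.MM_eq, y0, y1, y2]
    simp
  let f : K →ₗ[F] ((Fin 3 → F) × (Fin 3 → F)) := co.prod (co ∘ₗ (h2 : K →ₗ[F] K))
  have hf : ∀ x, f x = 0 → h1 x = h2 x := by
    intro x hx
    have e1 : co x = 0 := congrArg Prod.fst hx
    have e2 : co (h2 x) = 0 := congrArg Prod.snd hx
    have e3 := hw x
    rw [hWM, hWM, hco _ e1, hco _ e2, add_zero, add_zero] at e3
    exact e3
  have hdim : finrank F ((Fin 3 → F) × (Fin 3 → F)) = 6 := by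
    rw [finrank_prod, finrank_pi, Fintype.card_fin]
  -- the twists agree on D
  have htw : ∀ d, bar F K m d = d → bar F K i1 d = bar F K i2 d := by
    intro d hd
    let g : K →ₗ[F] (((Fin 3 → F) × (Fin 3 → F)) × ((Fin 3 → F) × (Fin 3 → F))) :=
      f.prod (f ∘ₗ (LinearMap.mulLeft F d))
    have hlt : finrank F (((Fin 3 → F) × (Fin 3 → F)) × ((Fin 3 → F) × (Fin 3 → F)))
        < finrank F K := by
      rw [finrank_prod, hdim, P.hm]
      omega
    have hker : LinearMap.ker g ≠ ⊥ := LinearMap.ker_ne_bot_of_finrank_lt hlt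
    obtain ⟨x0, hx0, hx00⟩ := (Submodule.ne_bot_iff _).mp hker
    have e0 : g x0 = 0 := hx0
    have e1 := hf x0 (congrArg Prod.fst e0)
    have e2 := hf (d * x0) (congrArg Prod.snd e0)
    rw [ht1 d hd, ht2 d hd, e1] at e2
    have e3 : h2 x0 ≠ 0 := by
      intro h0
      exact hx00 (h2.injective (by rw [h0, map_zero]))
    exact mul_right_cancel₀ e3 e2
  -- the kernel of f is large
  have hkf : 2 * m - 6 ≤ finrank F (LinearMap.ker f) := by
    have h3 := LinearMap.finrank_range_add_finrank_ker f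
    have h4 : finrank F (LinearMap.range f) ≤ 6 := by
      rw [← hdim]; exact Submodule.finrank_le _
    rw [P.hm] at h3
    omega
  have hkne : LinearMap.ker f ≠ ⊥ := by
    apply LinearMap.ker_ne_bot_of_finrank_lt
    rw [hdim, P.hm]; omega
  obtain ⟨x0, hx0, hx00⟩ := (Submodule.ne_bot_iff _).mp hkne
  obtain ⟨x1, hx1, hx1D⟩ : ∃ x1 ∈ LinearMap.ker f, ∀ d, bar F K m d = d → x1 ≠ d * x0 := by
    by_contra hcon
    push Not at hcon
    let g : DD F K m →ₗ[F] K :=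
      { toFun := fun l => l * x0
        map_add' := fun u v => by simp [add_mul]
        map_smul' := fun c u => by simp }
    have hle : LinearMap.ker f ≤ LinearMap.range g := by
      intro y hy
      obtain ⟨d, hd, rfl⟩ := hcon y hy
      exact ⟨⟨d, hd⟩, rfl⟩
    have h3 := Submodule.finrank_mono hle
    have h4 : finrank F (LinearMap.range g) ≤ m := by
      have := LinearMap.finrank_range_le g
      rwa [finrank_DD P.hm (by omega)] at this
    omega
  have hδ := delta_ne_of_notMem hx00 hx1D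
  have e0 := hf x0 hx0
  have e1 := hf x1 hx1
  intro x
  obtain ⟨d0, d1, k0, k1, rfl⟩ := span_two P.hm hδ x
  rw [map_add, map_add, ht1 d0 k0, ht1 d1 k1, ht2 d0 k0, ht2 d1 k1, e0, e1, htw d0 k0, htw d1 k1]

/-- the set of isometries normalising `D` and `w D w⁻¹` -/
def S1 (P : Pair m lam ν J0 J1 a p r r') (γ γ' : F) : Set (K ≃ₗ[F] K) :=
  {h | (∀ x y, bil F K m lam (h x) (h y) = bil F K m lam x y) ∧ (∃ i, Tw m i h) ∧
    ∃ i, Tw m i ((P.W γ γ')⁻¹ * h * P.W γ γ')}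

theorem S1_pow (P : Pair m lam ν J0 J1 a p r r') (γ γ' : F) :
    ∀ h ∈ P.S1 γ γ', ∀ k : ℕ, h ^ k ∈ P.S1 γ γ' := by
  rintro h ⟨h1, ⟨i, hi⟩, ⟨i', hi'⟩⟩ k
  refine ⟨?_, ⟨_, hi.pow k⟩, ?_⟩
  · induction k with
    | zero => intro x y; rfl
    | succ k ih => intro x y; rw [pow_succ, LinearEquiv.mul_apply, LinearEquiv.mul_apply, ih, h1]
  · refine ⟨k * i', ?_⟩
    have e1 : (P.W γ γ')⁻¹ * h ^ k * P.W γ γ' = ((P.W γ γ')⁻¹ * h * P.W γ γ') ^ k := by
      have := conj_pow (i := k) (a := (P.W γ γ')⁻¹) (b := h)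
      rw [inv_inv] at this
      exact this.symm
    rw [e1]
    exact hi'.pow k

/-- the condition excluding twists -/
def Excl1 (_P : Pair m lam ν J0 J1 a p r r') : Prop :=
  ∀ k0 k1 k2 : F, bar F K 1 (TT F m lam a (J0 a)) ≠
    (algebraMap F K k0 + algebraMap F K k1 * p + algebraMap F K k2 * r) * TT F m lam a (J0 a)

theorem core_one (P : Pair m lam ν J0 J1 a p r r') (hq : Odd (Fintype.card F)) (hmp : m.Prime)
    (hm7 : 7 ≤ m) {γ γ' : F} (hγ : γ ≠ 0) (hγ' : γ' ≠ 0) (hne : γ' - γ ≠ 0) (hex : P.Excl1) :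
    ∀ h ∈ P.S1 γ γ', ∃ c : F, ∀ x, h x = c • x := by
  have hmo : Odd m := hmp.odd_of_ne_two (by omega)
  -- members commute with w
  have hcomm : ∀ h ∈ P.S1 γ γ', ∀ x, h (P.MM γ γ' x) = P.MM γ γ' (h x) := by
    rintro h ⟨-, ⟨i, hi⟩, ⟨i', hi'⟩⟩ x
    have e1 := P.eq_of_conj hm7 (γ := γ) (γ' := γ') h ((P.W γ γ')⁻¹ * h * P.W γ γ') hi hi' (by
      intro y
      have : P.W γ γ' (((P.W γ γ')⁻¹ * h * P.W γ γ') y)
          = (P.W γ γ' * ((P.W γ γ')⁻¹ * h * P.W γ γ')) y := rfl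
      rw [this, ← mul_assoc, ← mul_assoc, mul_inv_cancel, one_mul]
      rfl)
    have e2 : h (P.W γ γ' x) = P.W γ γ' (h x) := by
      have e3 := e1 x
      have : P.W γ γ' (h x) = (P.W γ γ' * ((P.W γ γ')⁻¹ * h * P.W γ γ')) x := by
        rw [e3]; rfl
      rw [this, ← mul_assoc, ← mul_assoc, mul_inv_cancel, one_mul]
      rfl
    have hWM : ∀ x, P.MM γ γ' x = P.W γ γ' x - x := fun x => rfl
    rw [hWM, hWM, map_sub, e2]
  -- images of the basic vectors
  have himg : ∀ h ∈ P.S1 γ γ', ∀ c0 c1 c2 : F, ∃ x1 x2 x3 : F,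
      h (c0 • a + c1 • J0 a + c2 • J1 a) = x1 • a + x2 • J0 a + x3 • J1 a := by
    intro h hh c0 c1 c2
    obtain ⟨u, hu⟩ := P.MM_surj hq hmo hγ hγ' hne c0 c1 c2
    rw [← hu, hcomm h hh, P.MM_eq]
    exact ⟨_, _, _, rfl⟩
  have hlin := no_twist hmp (P.S1 γ γ') (P.S1_pow γ γ') (fun h hh => hh.2.1) (by
    intro h hh htw
    obtain ⟨x1, x2, x3, hx⟩ := himg h hh 1 0 0
    obtain ⟨y1, y2, y3, hy⟩ := himg h hh 0 1 0
    have hx' : h a = x1 • a + x2 • J0 a + x3 • J1 a := by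
      rw [← hx]; congr 1; module
    have hy' : h (J0 a) = y1 • a + y2 • J0 a + y3 • J1 a := by
      rw [← hy]; congr 1; module
    have h5 := TT_twist P.two P.hm P.hl h hh.1 htw a (J0 a)
    rw [hx', hy', P.eq1] at h5
    apply hex (x1 * y2 - x2 * y1) (-(x2 * y3 - x3 * y2)) (x1 * y3 - x3 * y1)
    rw [← h5]
    unfold TT
    simp only [map_add, map_sub, map_mul, Algebra.smul_def, bar_alg, P.p_D, P.r_D, map_neg]
    ring)
  intro h hh
  have hD := hlin h hh
  obtain ⟨x1, x2, x3, hx⟩ := himg h hh 1 0 0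
  obtain ⟨y1, y2, y3, hy⟩ := himg h hh 0 1 0
  obtain ⟨z1, z2, z3, hz⟩ := himg h hh 0 0 1
  have hx' : h a = x1 • a + x2 • J0 a + x3 • J1 a := by
    rw [← hx]; congr 1; module
  have hy' : h (J0 a) = y1 • a + y2 • J0 a + y3 • J1 a := by
    rw [← hy]; congr 1; module
  have hz' : h (J1 a) = z1 • a + z2 • J0 a + z3 • J1 a := by
    rw [← hz]; congr 1; module
  set A := algebraMap F K with hA
  have hAD : ∀ c, bar F K m (A c) = A c := fun c => AlgEquiv.commutes _ _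
  have hrel : (p * (A x1 + A x3 * p) + r * (A y1 + A y3 * p) - (A z1 + A z3 * p)) * a
      + (p * (A x2 + A x3 * r) + r * (A y2 + A y3 * r) - (A z2 + A z3 * r)) * J0 a = 0 := by
    have e1 : h (J1 a) = p * h a + r * h (J0 a) := by
      rw [← hD p P.p_D, ← hD r P.r_D, ← map_add, ← P.eq1]
    rw [hz', hx', hy', P.eq1] at e1
    simp only [Algebra.smul_def, ← hA] at e1
    linear_combination -e1
  obtain ⟨e1, e2⟩ := indep_two (P.delta hq hmo) (by
      simp only [map_add, map_sub, map_mul, hAD, P.p_D, P.r_D]) (by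
      simp only [map_add, map_sub, map_mul, hAD, P.p_D, P.r_D]) hrel
  set μ : K := A z3 - A x3 * p - A y3 * r with hμ
  have hμD : bar F K m μ = μ := by
    rw [hμ]; simp only [map_sub, map_mul, hAD, P.p_D, P.r_D]
  have m1 : μ * p = A x1 * p + A y1 * r - A z1 := by rw [hμ]; linear_combination -e1
  have m2 : μ * r = A x2 * p + A y2 * r - A z2 := by rw [hμ]; linear_combination -e2
  let X : Submodule F K := Submodule.span F (Set.range (![1, p, r] : Fin 3 → K))
  have hmem : ∀ k : Fin 3, (![1, p, r] : Fin 3 → K) k ∈ X :=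
    fun k => Submodule.subset_span ⟨k, rfl⟩
  have hcomb : ∀ c0 c1 c2 : F, A c0 + A c1 * p + A c2 * r ∈ X := by
    intro c0 c1 c2
    have e3 : A c0 + A c1 * p + A c2 * r = c0 • (1 : K) + c1 • p + c2 • r := by
      rw [Algebra.smul_def, Algebra.smul_def, Algebra.smul_def, mul_one]
    rw [e3]
    exact X.add_mem (X.add_mem (X.smul_mem _ (hmem 0)) (X.smul_mem _ (hmem 1)))
      (X.smul_mem _ (hmem 2))
  have hXne : X ≠ ⊥ := by
    intro hbot
    have := hmem 0
    rw [hbot, Submodule.mem_bot] at this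
    exact one_ne_zero this
  have hXm : finrank F X < m := by
    have : finrank F X ≤ 3 := by
      calc finrank F X ≤ Fintype.card (Fin 3) := finrank_range_le_card _
        _ = 3 := Fintype.card_fin 3
    omega
  obtain ⟨μ0, hμ0⟩ := mem_F_of_stab P.hm hmp hμD X hXne hXm (by
    intro x hx
    induction hx using Submodule.span_induction with
    | mem y hy =>
      obtain ⟨k, rfl⟩ := hy
      fin_cases k
      · change μ * 1 ∈ X
        have e3 : μ * 1 = A z3 + A (-x3) * p + A (-y3) * r := by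
          rw [hμ, map_neg, map_neg]; ring
        rw [e3]; exact hcomb _ _ _
      · change μ * p ∈ X
        have e3 : μ * p = A (-z1) + A x1 * p + A y1 * r := by
          rw [m1, map_neg]; ring
        rw [e3]; exact hcomb _ _ _
      · change μ * r ∈ X
        have e3 : μ * r = A (-z2) + A x2 * p + A y2 * r := by
          rw [m2, map_neg]; ring
        rw [e3]; exact hcomb _ _ _
    | zero => rw [mul_zero]; exact X.zero_mem
    | add y z _ _ ihy ihz => rw [mul_add]; exact X.add_mem ihy ihz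
    | smul c y _ ih => rw [mul_smul_comm]; exact X.smul_mem c ih)
  rw [← hμ0, ← hA] at m1 m2 hμ
  obtain ⟨-, f2, f3, -⟩ := P.ind (z3 - μ0) (-x3) (-y3) 0 (by
    rw [map_sub, map_neg, map_neg, map_zero]; linear_combination -hμ)
  obtain ⟨g1, g2, g3, -⟩ := P.ind (-z1) (x1 - μ0) y1 0 (by
    rw [map_sub, map_neg, map_zero]; linear_combination -m1)
  obtain ⟨k1, k2, k3, -⟩ := P.ind (-z2) x2 (y2 - μ0) 0 (by
    rw [map_sub, map_neg, map_zero]; linear_combination -m2)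
  have hx3 : x3 = 0 := neg_eq_zero.mp f2
  have hy3 : y3 = 0 := neg_eq_zero.mp f3
  have hx1 : x1 = μ0 := sub_eq_zero.mp g2
  have hy2 : y2 = μ0 := sub_eq_zero.mp k3
  rw [hx1, k2, hx3] at hx'
  rw [g3, hy2, hy3] at hy'
  have ha1 : h a = μ0 • a := by rw [hx']; module
  have hb1 : h (J0 a) = μ0 • J0 a := by rw [hy']; module
  refine ⟨μ0, fun x => ?_⟩
  obtain ⟨d0, d1, l0, l1, rfl⟩ := span_two P.hm (P.delta hq hmo) x
  rw [map_add, hD d0 l0, hD d1 l1, ha1, hb1, smul_add, mul_smul_comm, mul_smul_comm]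

end Pair

end Pool.Agent.H330.Symp
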