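import Pool.Agent.H330.SympTwo

namespace Pool.Agent.H330.Symp

open Module Pool.Agent.H330 Pool.Agent.H330.Minus

variable {F K : Type} [Field F] [Fintype F] [Field K] [Fintype K] [Algebra F K] {m : ℕ}

/-- four elements are linearly independent over `F` -/
def Ind4 (F : Type) {K : Type} [Field F] [Field K] [Algebra F K] (x0 x1 x2 x3 : K) : Prop :=
  ∀ c0 c1 c2 c3 : F, algebraMap F K c0 * x0 + algebraMap F K c1 * x1 + algebraMap F K c2 * x2
    + algebraMap F K c3 * x3 = 0 → c0 = 0 ∧ c1 = 0 ∧ c2 = 0 ∧ c3 = 0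

/-- The data for the second intersection. -/
structure Pair (m : ℕ) (lam : K) (ν : F) (J0 J1 : K →ₗ[F] K) (a p r r' : K) : Prop where
  two : (2 : F) ≠ 0
  hm : finrank F K = 2 * m
  hl : bar F K m lam = -lam
  hl0 : lam ≠ 0
  ns : ¬ IsSquare ν
  s0 : SkewRoot m lam ν J0
  s1 : SkewRoot m lam ν J1
  a0 : a ≠ 0
  ab : bil F K m lam a (J0 a) = 0
  ab1 : bil F K m lam a (J1 a) = 0
  p_D : bar F K m p = p
  r_D : bar F K m r = r
  r'_D : bar F K m r' = r'
  eq1 : J1 a = p * a + r * J0 a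
  eq2 : J1 (J0 a) = algebraMap F K ν * r' * a - p * J0 a
  ind : Ind4 F 1 p r r'

namespace Pair

variable {lam : K} {ν : F} {J0 J1 : K →ₗ[F] K} {a p r r' : K}

theorem nu0 (P : Pair m lam ν J0 J1 a p r r') : ν ≠ 0 := by
  rintro rfl; exact P.ns (IsSquare.zero)

theorem nuK (P : Pair m lam ν J0 J1 a p r r') : algebraMap F K ν ≠ 0 := by
  simpa using P.nu0

theorem bar_alg (c : F) : bar F K m (algebraMap F K c) = algebraMap F K c := AlgEquiv.commutes _ _

theorem rel (P : Pair m lam ν J0 J1 a p r r') :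
    p ^ 2 + algebraMap F K ν * r * r' = algebraMap F K ν := by
  have h := P.s1.sq a
  rw [P.eq1, map_add, P.s1.lin _ P.p_D, P.s1.lin _ P.r_D, P.eq1, P.eq2, Algebra.smul_def] at h
  apply mul_right_cancel₀ P.a0
  linear_combination h

theorem r0 (P : Pair m lam ν J0 J1 a p r r') : r ≠ 0 := by
  intro h
  have := P.ind 0 0 1 0 (by rw [h]; simp)
  exact one_ne_zero this.2.2.1

theorem delta (P : Pair m lam ν J0 J1 a p r r') (hq : Odd (Fintype.card F)) (hmo : Odd m) :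
    a * bar F K m (J0 a) - J0 a * bar F K m a ≠ 0 :=
  P.s0.delta_ne hq P.hm hmo P.ns P.a0

/-- independence of `a, J0 a, J1 a, J1 J0 a` -/
theorem indY (P : Pair m lam ν J0 J1 a p r r') (hq : Odd (Fintype.card F)) (hmo : Odd m)
    {c0 c1 c2 c3 : F} (h : c0 • a + c1 • J0 a + c2 • J1 a + c3 • J1 (J0 a) = 0) :
    c0 = 0 ∧ c1 = 0 ∧ c2 = 0 ∧ c3 = 0 := by
  rw [P.eq1, P.eq2, Algebra.smul_def, Algebra.smul_def, Algebra.smul_def, Algebra.smul_def] at h
  have h' : (algebraMap F K c0 + algebraMap F K c2 * p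
        + algebraMap F K c3 * (algebraMap F K ν * r')) * a
      + (algebraMap F K c1 + algebraMap F K c2 * r - algebraMap F K c3 * p) * J0 a = 0 := by
    linear_combination h
  obtain ⟨e1, e2⟩ := indep_two (P.delta hq hmo) (by
      simp only [map_add, map_mul, bar_alg, P.p_D, P.r'_D]) (by
      simp only [map_add, map_sub, map_mul, bar_alg, P.p_D, P.r_D]) h'
  obtain ⟨f1, f2, -, f3⟩ := P.ind c0 c2 0 (c3 * ν) (by
    rw [map_mul, map_zero]; linear_combination e1)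
  obtain ⟨g1, -, g2, -⟩ := P.ind c1 (-c3) c2 0 (by
    rw [map_neg, map_zero]; linear_combination e2)
  exact ⟨f1, g1, f2, (mul_eq_zero.mp f3).resolve_right P.nu0⟩

theorem linInd (P : Pair m lam ν J0 J1 a p r r') (hq : Odd (Fintype.card F)) (hmo : Odd m) :
    LinearIndependent F ![a, J0 a, J1 a, J1 (J0 a)] := by
  rw [Fintype.linearIndependent_iff]
  intro g hg
  rw [Fin.sum_univ_four] at hg
  have h := P.indY hq hmo (c0 := g 0) (c1 := g 1) (c2 := g 2) (c3 := g 3) hg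
  intro i
  fin_cases i
  · exact h.1
  · exact h.2.1
  · exact h.2.2.1
  · exact h.2.2.2

/-- the isometry -/
noncomputable def U (P : Pair m lam ν J0 J1 a p r r') (γ : F) : K ≃ₗ[F] K :=
  UU P.two P.hm P.hl P.ab ν γ

/-- the conjugate of `J1` minus `J1` -/
noncomputable def Del (P : Pair m lam ν J0 J1 a p r r') (γ : F) : K →ₗ[F] K :=
  ((P.U γ).symm : K →ₗ[F] K) ∘ₗ J1 ∘ₗ ((P.U γ) : K →ₗ[F] K) - J1

theorem Del_apply (P : Pair m lam ν J0 J1 a p r r') (γ : F) (x : K) :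
    P.Del γ x = (P.U γ).symm (J1 (P.U γ x)) - J1 x := rfl

theorem Del_eq (P : Pair m lam ν J0 J1 a p r r') (γ : F) (x : K) :
    P.Del γ x =
      (γ * bil F K m lam x (J1 a) + γ ^ 2 * ν⁻¹ * bil F K m lam (J1 a) (J0 a)
        * bil F K m lam x (J0 a)) • a
      + (-(γ * ν⁻¹ * bil F K m lam x (J1 (J0 a)))
        + γ ^ 2 * ν⁻¹ * bil F K m lam (J1 a) (J0 a) * bil F K m lam x a
        - γ ^ 2 * ν⁻¹ ^ 2 * bil F K m lam (J1 (J0 a)) (J0 a) * bil F K m lam x (J0 a)) • J0 a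
      + (γ * bil F K m lam x a) • J1 a
      + (-(γ * ν⁻¹ * bil F K m lam x (J0 a))) • J1 (J0 a) := by
  have hN1 : ∀ x, NN m lam ν a (J0 a) (J1 x) = (-bil F K m lam x (J1 a)) • a
      + (ν⁻¹ * bil F K m lam x (J1 (J0 a))) • J0 a := by
    intro x
    rw [NN_apply, P.s1.skew, P.s1.skew]
    module
  have hN2 : NN m lam ν a (J0 a) (J1 a) = (-(ν⁻¹ * bil F K m lam (J1 a) (J0 a))) • J0 a := by
    rw [NN_apply, P.s1.skew, P.ab1]
    module
  have h3 : bil F K m lam (J1 (J0 a)) a = bil F K m lam (J1 a) (J0 a) := by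
    rw [P.s1.skew, bil_swap P.hm P.hl (J1 a) (J0 a), neg_neg]
  have hN3 : NN m lam ν a (J0 a) (J1 (J0 a)) = bil F K m lam (J1 a) (J0 a) • a
      - (ν⁻¹ * bil F K m lam (J1 (J0 a)) (J0 a)) • J0 a := by
    rw [NN_apply, h3]
  have hJN : J1 (NN m lam ν a (J0 a) x) = bil F K m lam x a • J1 a
      - (ν⁻¹ * bil F K m lam x (J0 a)) • J1 (J0 a) := by
    rw [NN_apply, map_sub, map_smul J1, map_smul J1]
  rw [Del_apply, U, UU_symm_apply, UU_apply, map_add J1, map_smul J1, map_add (NN m lam ν a (J0 a)),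
    map_smul (NN m lam ν a (J0 a)), hJN, map_sub, map_smul (NN m lam ν a (J0 a)),
    map_smul (NN m lam ν a (J0 a)), hN1 x, hN2, hN3]
  module

/-- `Del` is onto the span of `a, J0 a, J1 a, J1 J0 a` -/
theorem Del_surj (P : Pair m lam ν J0 J1 a p r r') (hq : Odd (Fintype.card F)) (hmo : Odd m)
    {γ : F} (hγ : γ ≠ 0) (c0 c1 c2 c3 : F) :
    ∃ x, P.Del γ x = c0 • a + c1 • J0 a + c2 • J1 a + c3 • J1 (J0 a) := by
  have hν0 := P.nu0
  obtain ⟨x, hx⟩ := exists_dual P.hm P.hl P.hl0 _ (P.linInd hq hmo)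
    ![c2 / γ, -(c3 * ν / γ), (c0 + γ * bil F K m lam (J1 a) (J0 a) * c3) / γ,
      -((c1 - γ * ν⁻¹ * bil F K m lam (J1 a) (J0 a) * c2
        - γ * ν⁻¹ * bil F K m lam (J1 (J0 a)) (J0 a) * c3) * ν / γ)]
  have x0 : bil F K m lam x a = c2 / γ := hx 0
  have x1 : bil F K m lam x (J0 a) = -(c3 * ν / γ) := hx 1
  have x2 : bil F K m lam x (J1 a) = (c0 + γ * bil F K m lam (J1 a) (J0 a) * c3) / γ := hx 2
  have x3 : bil F K m lam x (J1 (J0 a)) = -((c1 - γ * ν⁻¹ * bil F K m lam (J1 a) (J0 a) * c2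
        - γ * ν⁻¹ * bil F K m lam (J1 (J0 a)) (J0 a) * c3) * ν / γ) := hx 3
  refine ⟨x, ?_⟩
  rw [P.Del_eq, x0, x1, x2, x3]
  congr 1
  · congr 1
    · congr 1
      · congr 1
        field_simp
        ring
      · congr 1
        field_simp
        ring
    · congr 1
      field_simp
  · congr 1
    field_simp

end Pair

end Pool.Agent.H330.Symp
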