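import Pool.Agent.H330.SympCore2

namespace Pool.Agent.H330.Symp

open Module Pool.Agent.H330 Pool.Agent.H330.Minus

variable {F K : Type} [Field F] [Fintype F] [Field K] [Fintype K] [Algebra F K] {m : ℕ}

namespace Pair

variable {lam : K} {ν : F} {J0 J1 : K →ₗ[F] K} {a p r r' : K}

/-- Step A -/
theorem stepA (P : Pair m lam ν J0 J1 a p r r') (hq : Odd (Fintype.card F)) (hmo : Odd m)
    (hm5 : 5 ≤ m) {γ : F} (h : K ≃ₗ[F] K) {i : ℕ}
    (htw : ∀ d, bar F K m d = d → ∀ y, h (d * y) = bar F K i d * h y)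
    {ε : F} (hε : ε * ε = 1)
    (hU : ∀ x, h ((P.U γ).symm (J1 (P.U γ x))) = ε • (P.U γ).symm (J1 (P.U γ (h x)))) :
    (∀ x, h (J1 x) = ε • J1 (h x)) ∧ ∀ x, h (P.Del γ x) = ε • P.Del γ (h x) := by
  have hT : ∀ x, h (J1 x) - ε • J1 (h x) = -(h (P.Del γ x) - ε • P.Del γ (h x)) := by
    intro x
    have := hU x
    rw [P.Del_apply, P.Del_apply, map_sub, smul_sub, this]
    module
  -- a nonzero vector killed by everything
  obtain ⟨x0, hx00, hx0⟩ : ∃ x0 : K, x0 ≠ 0 ∧ (P.Del γ x0 = 0 ∧ P.Del γ (h x0) = 0) := by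
    let co : K →ₗ[F] (Fin 4 → F) :=
      LinearMap.pi (fun k => (bil F K m lam).flip ((![a, J0 a, J1 a, J1 (J0 a)] : Fin 4 → K) k))
    let f : K →ₗ[F] ((Fin 4 → F) × (Fin 4 → F)) := co.prod (co ∘ₗ (h : K →ₗ[F] K))
    have hlt : finrank F ((Fin 4 → F) × (Fin 4 → F)) < finrank F K := by
      rw [finrank_prod, finrank_pi, Fintype.card_fin, P.hm]
      omega
    have hker : LinearMap.ker f ≠ ⊥ := LinearMap.ker_ne_bot_of_finrank_lt hlt
    obtain ⟨x0, hx0, hx00⟩ := (Submodule.ne_bot_iff _).mp hker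
    refine ⟨x0, hx00, ?_⟩
    have h1 : f x0 = 0 := hx0
    have h2 : co x0 = 0 := congrArg Prod.fst h1
    have h3 : co (h x0) = 0 := congrArg Prod.snd h1
    have hco : ∀ y, co y = 0 → P.Del γ y = 0 := by
      intro y hy
      have y0 : bil F K m lam y a = 0 := congrFun hy 0
      have y1 : bil F K m lam y (J0 a) = 0 := congrFun hy 1
      have y2 : bil F K m lam y (J1 a) = 0 := congrFun hy 2
      have y3 : bil F K m lam y (J1 (J0 a)) = 0 := congrFun hy 3
      rw [P.Del_eq, y0, y1, y2, y3]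
      simp
    exact ⟨hco _ h2, hco _ h3⟩
  have hJ : ∀ x, h (J1 x) = ε • J1 (h x) := by
    have t0 : h (J1 x0) = ε • J1 (h x0) := by
      have := hT x0
      rw [hx0.1, hx0.2, map_zero, smul_zero, sub_zero, neg_zero] at this
      exact sub_eq_zero.mp this
    have t1 : h (J1 (J1 x0)) = ε • J1 (h (J1 x0)) := by
      rw [t0, map_smul, P.s1.sq, P.s1.sq, map_smul, smul_smul, hε, one_smul]
    intro x
    obtain ⟨d0, d1, h0, h1, rfl⟩ := span_two P.hm (P.s1.delta_ne hq P.hm hmo P.ns hx00) x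
    have hcomm : ∀ u : K, bar F K m u = u → bar F K m (bar F K i u) = bar F K i u := by
      intro u hu
      have : bar F K m (bar F K i u) = bar F K i (bar F K m u) := by
        rw [bar_apply, bar_apply, bar_apply, bar_apply, ← pow_mul, ← pow_mul, mul_comm]
      rw [this, hu]
    rw [map_add, map_add, P.s1.lin d0 h0, P.s1.lin d1 h1, map_add, htw d0 h0, htw d1 h1, t0, t1,
      htw d0 h0, htw d1 h1, map_add, P.s1.lin _ (hcomm d0 h0), P.s1.lin _ (hcomm d1 h1),
      smul_add, mul_smul_comm, mul_smul_comm]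
  refine ⟨hJ, fun x => ?_⟩
  have := hT x
  rw [hJ, sub_self] at this
  have h2 : h (P.Del γ x) - ε • P.Del γ (h x) = 0 := neg_eq_zero.mp this.symm
  exact sub_eq_zero.mp h2

theorem range_Del (P : Pair m lam ν J0 J1 a p r r') (γ : F) :
    finrank F (LinearMap.range (P.Del γ)) ≤ 4 := by
  have hle : LinearMap.range (P.Del γ) ≤
      Submodule.span F (Set.range (![a, J0 a, J1 a, J1 (J0 a)] : Fin 4 → K)) := by
    rintro _ ⟨x, rfl⟩
    rw [P.Del_eq]
    have hmem : ∀ k : Fin 4, (![a, J0 a, J1 a, J1 (J0 a)] : Fin 4 → K) k ∈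
        Submodule.span F (Set.range (![a, J0 a, J1 a, J1 (J0 a)] : Fin 4 → K)) :=
      fun k => Submodule.subset_span ⟨k, rfl⟩
    refine Submodule.add_mem _ (Submodule.add_mem _ (Submodule.add_mem _ ?_ ?_) ?_) ?_
    · exact Submodule.smul_mem _ _ (hmem 0)
    · exact Submodule.smul_mem _ _ (hmem 1)
    · exact Submodule.smul_mem _ _ (hmem 2)
    · exact Submodule.smul_mem _ _ (hmem 3)
  calc finrank F (LinearMap.range (P.Del γ)) ≤ _ := Submodule.finrank_mono hle
    _ ≤ Fintype.card (Fin 4) := finrank_range_le_card _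
    _ = 4 := Fintype.card_fin 4

/-- D-linear maps agreeing with `x + y J1` -/
theorem form_of_comm (P : Pair m lam ν J0 J1 a p r r') (hq : Odd (Fintype.card F)) (hmo : Odd m)
    (h : K ≃ₗ[F] K) (hD : ∀ d, bar F K m d = d → ∀ y, h (d * y) = d * h y)
    (hJ : ∀ x, h (J1 x) = J1 (h x)) :
    ∃ x y : K, bar F K m x = x ∧ bar F K m y = y ∧ ∀ u, h u = x * u + y * J1 u := by
  obtain ⟨d0, d1, h0, h1, ha⟩ := span_two P.hm (P.delta hq hmo) (h a)
  have hr0 := P.r0
  have hy : bar F K m (d1 / r) = d1 / r := by rw [map_div₀, h1, P.r_D]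
  have hx : bar F K m (d0 - d1 / r * p) = d0 - d1 / r * p := by
    rw [map_sub, map_mul, hy, h0, P.p_D]
  set y := d1 / r with hydef
  set x := d0 - y * p with hxdef
  have hyr : y * r = d1 := by rw [hydef]; field_simp
  have ha' : h a = x * a + y * J1 a := by
    rw [ha, P.eq1, hxdef]
    linear_combination (-(J0 a)) * hyr
  have hJa : h (J1 a) = x * J1 a + y * J1 (J1 a) := by
    rw [hJ, ha', map_add, P.s1.lin x hx, P.s1.lin y hy]
  have hb : h (J0 a) = x * J0 a + y * J1 (J0 a) := by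
    apply mul_left_cancel₀ hr0
    have e1 : r * J0 a = J1 a - p * a := by rw [P.eq1]; ring
    rw [← hD r P.r_D, e1, map_sub, hJa, hD p P.p_D, ha']
    have e2 : r * (x * J0 a + y * J1 (J0 a)) = x * (r * J0 a) + y * J1 (r * J0 a) := by
      rw [P.s1.lin r P.r_D]; ring
    rw [e2, e1, map_sub, P.s1.lin p P.p_D]
    ring
  refine ⟨x, y, hx, hy, fun u => ?_⟩
  obtain ⟨e0, e1, k0, k1, rfl⟩ := span_two P.hm (P.delta hq hmo) u
  rw [map_add, hD e0 k0, hD e1 k1, ha', hb, map_add J1, P.s1.lin e0 k0, P.s1.lin e1 k1]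
  ring

theorem norm_eq (P : Pair m lam ν J0 J1 a p r r')
    (h : K ≃ₗ[F] K) (hiso : ∀ x y, bil F K m lam (h x) (h y) = bil F K m lam x y)
    {x y : K} (hx : bar F K m x = x) (hy : bar F K m y = y)
    (hxy : ∀ u, h u = x * u + y * J1 u) : x ^ 2 - algebraMap F K ν * y ^ 2 = 1 := by
  have h1 : (x ^ 2 - algebraMap F K ν * y ^ 2 - 1) * 1 = 0 := by
    apply bil_nondeg' P.hm P.hl P.hl0
    intro v
    have h2 := hiso v 1
    have h3 : bil F K m lam (h v) (h 1) = bil F K m lam v (x * h 1 - y * J1 (h 1)) := by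
      rw [hxy v, map_add, LinearMap.add_apply, bil_D lam v _ hx, map_sub]
      have h4 : bil F K m lam (y * J1 v) (h 1) = - bil F K m lam v (y * J1 (h 1)) := by
        rw [bil_D lam _ _ hy, P.s1.skew, P.s1.lin y hy]
      rw [h4]; ring
    have h5 : x * h 1 - y * J1 (h 1) = (x ^ 2 - algebraMap F K ν * y ^ 2) * 1 := by
      rw [hxy 1, map_add J1, P.s1.lin x hx, P.s1.lin y hy, P.s1.sq, Algebra.smul_def]
      ring
    rw [sub_mul, map_sub, ← h5, ← h3, h2, one_mul, sub_self]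
  linear_combination h1

theorem stepC_pos (P : Pair m lam ν J0 J1 a p r r') (hq : Odd (Fintype.card F)) (hmp : m.Prime)
    (hm5 : 5 ≤ m) {γ : F} (hγ : γ ≠ 0) (h : K ≃ₗ[F] K)
    (hiso : ∀ x y, bil F K m lam (h x) (h y) = bil F K m lam x y)
    (hD : ∀ d, bar F K m d = d → ∀ y, h (d * y) = d * h y)
    (hJ : ∀ x, h (J1 x) = J1 (h x)) (hDel : ∀ x, h (P.Del γ x) = P.Del γ (h x)) :
    ∃ c : F, ∀ x, h x = c • x := by
  have hmo : Odd m := hmp.odd_of_ne_two (by omega)
  have h2K : (2 : K) ≠ 0 := two_ne hq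
  obtain ⟨x, y, hx, hy, hxy⟩ := P.form_of_comm hq hmo h hD hJ
  have hnorm := P.norm_eq h hiso hx hy hxy
  -- x stabilises the range
  have hstab : ∀ w ∈ LinearMap.range (P.Del γ), x * w ∈ LinearMap.range (P.Del γ) := by
    rintro _ ⟨u, rfl⟩
    have e1 : 2 * x * (P.Del γ u) = P.Del γ (h u + h.symm u) := by
      have e2 : P.Del γ u = h (P.Del γ (h.symm u)) := by
        rw [hDel, LinearEquiv.apply_symm_apply]
      rw [map_add, ← hDel, e2]
      set w := P.Del γ (h.symm u) with hw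
      have e3 : h (h w) = x * h w + y * J1 (h w) := hxy _
      rw [e3, hxy w, map_add J1, P.s1.lin x hx, P.s1.lin y hy, P.s1.sq, Algebra.smul_def]
      linear_combination (w) * hnorm
    have e4 : x * (P.Del γ u) = P.Del γ ((2 : F)⁻¹ • (h u + h.symm u)) := by
      rw [map_smul, ← e1, Algebra.smul_def, map_inv₀, map_ofNat]
      field_simp
    exact ⟨_, e4.symm⟩
  have hne : LinearMap.range (P.Del γ) ≠ ⊥ := by
    intro hbot
    obtain ⟨u, hu⟩ := P.Del_surj hq hmo hγ 1 0 0 0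
    have h3 : P.Del γ u ∈ LinearMap.range (P.Del γ) := ⟨u, rfl⟩
    rw [hbot, Submodule.mem_bot, hu] at h3
    simp at h3
    exact P.a0 h3
  obtain ⟨x0, hx0⟩ := mem_F_of_stab P.hm hmp hx _ hne
    (lt_of_le_of_lt (P.range_Del γ) (by omega)) hstab
  -- y lies in F
  have hyF : y ∈ (⊥ : IntermediateField F K) := by
    apply mem_of_sq_mem hq hmo ⊥ hy
    have : y ^ 2 = algebraMap F K ((x0 ^ 2 - 1) / ν) := by
      rw [map_div₀, map_sub, map_pow, map_one, hx0]
      have := P.nuK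
      field_simp
      linear_combination -hnorm
    rw [this]
    exact IntermediateField.algebraMap_mem _ _
  rw [IntermediateField.mem_bot] at hyF
  obtain ⟨y0, hy0⟩ := hyF
  have hxy' : ∀ u, h u = x0 • u + y0 • J1 u := by
    intro u
    rw [hxy, Algebra.smul_def, Algebra.smul_def, hx0, hy0]
  by_cases hy00 : y0 = 0
  · refine ⟨x0, fun u => ?_⟩
    rw [hxy', hy00, zero_smul, add_zero]
  · exfalso
    have hcomm : ∀ u, J1 (P.Del γ u) = P.Del γ (J1 u) := by
      intro u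
      have e1 := hDel u
      rw [hxy', hxy' u, map_add (P.Del γ), map_smul (P.Del γ), map_smul (P.Del γ)] at e1
      have e2 := add_left_cancel e1
      exact smul_right_injective _ hy00 e2
    -- (J1 + Del)^2 = ν
    have hsq : ∀ u, 2 • J1 (P.Del γ u) + P.Del γ (P.Del γ u) = 0 := by
      intro u
      have e1 : ∀ v, (P.U γ).symm (J1 (P.U γ v)) = J1 v + P.Del γ v := by
        intro v; rw [P.Del_apply]; abel
      have e2 : (P.U γ).symm (J1 (P.U γ ((P.U γ).symm (J1 (P.U γ u))))) = ν • u := by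
        rw [LinearEquiv.apply_symm_apply, P.s1.sq, map_smul, LinearEquiv.symm_apply_apply]
      rw [e1, e1, map_add, map_add, P.s1.sq, ← hcomm] at e2
      rw [two_smul]
      have e3 : J1 (P.Del γ u) + J1 (P.Del γ u) + P.Del γ (P.Del γ u)
          = (ν • u + J1 (P.Del γ u) + (J1 (P.Del γ u) + P.Del γ (P.Del γ u))) - ν • u := by abel
      rw [e3, e2, sub_self]
    obtain ⟨v, hv⟩ := P.Del_surj hq hmo hγ 1 0 0 0
    have hv' : P.Del γ v = a := by rw [hv]; simp
    have e4 := hsq v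
    rw [hv', P.Del_eq, P.ab, P.ab1, bil_self P.two P.hm P.hl] at e4
    have e5 : (0 : F) • a + (-(γ * ν⁻¹ * bil F K m lam a (J1 (J0 a)))) • J0 a + (2 : F) • J1 a
        + (0 : F) • J1 (J0 a) = 0 := by
      rw [← e4]
      module
    exact P.two (P.indY hq hmo e5).2.2.1

theorem stepC_neg (P : Pair m lam ν J0 J1 a p r r') (hq : Odd (Fintype.card F)) (hmo : Odd m)
    {γ : F} (hγ : γ ≠ 0) (h : K ≃ₗ[F] K)
    (hD : ∀ d, bar F K m d = d → ∀ y, h (d * y) = d * h y)
    (hJ : ∀ x, h (J1 x) = -J1 (h x)) (hDel : ∀ x, h (P.Del γ x) = -P.Del γ (h x)) : False := by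
  have h2K : (2 : K) ≠ 0 := two_ne hq
  have hν := P.nuK
  have hr0 := P.r0
  -- images of a and b lie in the span
  have himg : ∀ c0 c1 : F, ∃ x1 x2 x3 x4 : F, h (c0 • a + c1 • J0 a)
      = x1 • a + x2 • J1 a + x3 • J0 a + x4 • J1 (J0 a) := by
    intro c0 c1
    obtain ⟨u, hu⟩ := P.Del_surj hq hmo hγ c0 c1 0 0
    have e1 : c0 • a + c1 • J0 a = P.Del γ u := by rw [hu]; module
    rw [e1, hDel, P.Del_eq]
    exact ⟨-(γ * bil F K m lam (h u) (J1 a) + γ ^ 2 * ν⁻¹ * bil F K m lam (J1 a) (J0 a)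
        * bil F K m lam (h u) (J0 a)), -(γ * bil F K m lam (h u) a),
      -(-(γ * ν⁻¹ * bil F K m lam (h u) (J1 (J0 a)))
        + γ ^ 2 * ν⁻¹ * bil F K m lam (J1 a) (J0 a) * bil F K m lam (h u) a
        - γ ^ 2 * ν⁻¹ ^ 2 * bil F K m lam (J1 (J0 a)) (J0 a) * bil F K m lam (h u) (J0 a)),
      -(-(γ * ν⁻¹ * bil F K m lam (h u) (J0 a))), by module⟩
  obtain ⟨x1, x2, x3, x4, hx⟩ := himg 1 0
  obtain ⟨y1, y2, y3, y4, hy⟩ := himg 0 1
  rw [one_smul, zero_smul, add_zero] at hx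
  rw [one_smul, zero_smul, zero_add] at hy
  have hN := P.rel
  -- coordinates
  set A := algebraMap F K with hA
  have hAD : ∀ c, bar F K m (A c) = A c := fun c => AlgEquiv.commutes _ _
  set β1 : K := A x1 + A x2 * p + A x4 * (A ν * r') with hβ1
  set β2 : K := A x3 + A x2 * r - A x4 * p with hβ2
  set δ1 : K := A y1 + A y2 * p + A y4 * (A ν * r') with hδ1
  set δ2 : K := A y3 + A y2 * r - A y4 * p with hδ2
  have hβ1D : bar F K m β1 = β1 := by
    rw [hβ1]; simp only [map_add, map_mul, hAD, P.p_D, P.r'_D]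
  have hβ2D : bar F K m β2 = β2 := by
    rw [hβ2]; simp only [map_add, map_sub, map_mul, hAD, P.p_D, P.r_D]
  have hδ1D : bar F K m δ1 = δ1 := by
    rw [hδ1]; simp only [map_add, map_mul, hAD, P.p_D, P.r'_D]
  have hδ2D : bar F K m δ2 = δ2 := by
    rw [hδ2]; simp only [map_add, map_sub, map_mul, hAD, P.p_D, P.r_D]
  have hx' : h a = β1 * a + β2 * J0 a := by
    rw [hx, P.eq1, P.eq2, Algebra.smul_def, Algebra.smul_def, Algebra.smul_def,
      Algebra.smul_def, hβ1, hβ2]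
    ring
  have hy' : h (J0 a) = δ1 * a + δ2 * J0 a := by
    rw [hy, P.eq1, P.eq2, Algebra.smul_def, Algebra.smul_def, Algebra.smul_def,
      Algebra.smul_def, hδ1, hδ2]
    ring
  have hrel : (p * β1 + r * δ1 + (p * β1 + A ν * r' * β2)) * a
      + (p * β2 + r * δ2 + (r * β1 - p * β2)) * J0 a = 0 := by
    have e1 := hJ a
    rw [P.eq1, map_add, hD p P.p_D, hD r P.r_D, hy', hx', map_add, P.s1.lin β1 hβ1D,
      P.s1.lin β2 hβ2D, P.eq1, P.eq2] at e1
    linear_combination e1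
  obtain ⟨e1, e2⟩ := indep_two (P.delta hq hmo) (by
      simp only [map_add, map_mul, hAD, P.p_D, P.r_D, P.r'_D, hβ1D, hβ2D, hδ1D]) (by
      simp only [map_add, map_sub, map_mul, P.p_D, P.r_D, hβ1D, hβ2D, hδ2D]) hrel
  have e3 : δ2 + β1 = 0 := by
    have : r * (δ2 + β1) = 0 := by linear_combination e2
    exact (mul_eq_zero.mp this).resolve_left hr0
  obtain ⟨f1, f2, f3, f4⟩ := P.ind (y3 + x1) (x2 - y4) y2 (x4 * ν) (by
    rw [map_add, map_sub, map_mul]
    rw [hδ2, hβ1] at e3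
    linear_combination e3)
  have hx4 : x4 = 0 := (mul_eq_zero.mp f4).resolve_right P.nu0
  have hy4 : y4 = x2 := (sub_eq_zero.mp f2).symm
  obtain ⟨g1, g2, g3, g4⟩ := P.ind (2 * x2 * ν) (2 * x1) y1 (ν * x3) (by
    rw [hβ1, hβ2, hδ1, hx4, hy4, f3] at e1
    simp only [map_mul, map_ofNat, ← hA, map_zero] at e1 ⊢
    linear_combination e1 - (2 * A x2) * hN)
  have hx1 : x1 = 0 := (mul_eq_zero.mp g2).resolve_left P.two
  have hx3 : x3 = 0 := (mul_eq_zero.mp g4).resolve_left P.nu0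
  have hx2 : x2 = 0 := by
    have := (mul_eq_zero.mp g1).resolve_right P.nu0
    exact (mul_eq_zero.mp this).resolve_left P.two
  apply P.a0
  apply h.injective
  rw [hx, hx1, hx2, hx3, hx4, map_zero]
  simp

end Pair

end Pool.Agent.H330.Symp
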