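import Pool.Agent.H330.SympCore3

namespace Pool.Agent.H330.Symp

open Module Pool.Agent.H330 Pool.Agent.H330.Minus

variable {F K : Type} [Field F] [Fintype F] [Field K] [Fintype K] [Algebra F K] {m : ℕ}

/-- `h` has twist `i` -/
def Tw (m : ℕ) (i : ℕ) (h : K ≃ₗ[F] K) : Prop :=
  ∀ d, bar F K m d = d → ∀ y, h (d * y) = bar F K i d * h y

theorem bar_comm (i j : ℕ) (u : K) : bar F K i (bar F K j u) = bar F K j (bar F K i u) := by
  rw [bar_apply, bar_apply, bar_apply, bar_apply, ← pow_mul, ← pow_mul, mul_comm]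

theorem bar_add (i j : ℕ) (u : K) : bar F K (i + j) u = bar F K i (bar F K j u) := by
  rw [bar_apply, bar_apply, bar_apply, ← pow_mul, ← pow_add, add_comm]

theorem bar_zero (u : K) : bar F K 0 u = u := by
  rw [bar_apply]; simp

theorem bar_mul_fix (k : ℕ) {u : K} (hu : bar F K m u = u) : bar F K (k * m) u = u := by
  rw [bar_apply]; exact bar_iter hu k

theorem Tw.pow {i : ℕ} {h : K ≃ₗ[F] K} (hh : Tw m i h) (k : ℕ) : Tw m (k * i) (h ^ k) := by
  induction k with
  | zero =>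
    intro d _ y
    rw [zero_mul, bar_zero, pow_zero]; rfl
  | succ k ih =>
    intro d hd y
    rw [pow_succ, LinearEquiv.mul_apply, LinearEquiv.mul_apply, hh d hd,
      ih _ (by rw [bar_comm, hd]), show (k + 1) * i = k * i + i by ring, bar_add]

/-- If no member of a family closed under powers has the Frobenius as twist, then all members are
`D`-linear (`m` prime). -/
theorem no_twist (hmp : m.Prime) (S : Set (K ≃ₗ[F] K)) (hpow : ∀ h ∈ S, ∀ k : ℕ, h ^ k ∈ S)
    (htw : ∀ h ∈ S, ∃ i, Tw m i h) (hno : ∀ h ∈ S, ¬ Tw m 1 h) :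
    ∀ h ∈ S, ∀ d, bar F K m d = d → ∀ y, h (d * y) = d * h y := by
  intro h hh d hd y
  obtain ⟨i, hi⟩ := htw h hh
  by_cases hdvd : m ∣ i
  · obtain ⟨l, rfl⟩ := hdvd
    rw [hi d hd, mul_comm m l, bar_mul_fix l hd]
  · exfalso
    have hcop : Nat.Coprime i m := ((Nat.Prime.coprime_iff_not_dvd hmp).mpr hdvd).symm
    obtain ⟨k, -, hk⟩ := Nat.exists_mul_mod_eq_one_of_coprime hcop hmp.one_lt
    apply hno (h ^ k) (hpow h hh k)
    intro e he z
    rw [(hi.pow k) e he]
    congr 1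
    have h1 : k * i = 1 + (k * i / m) * m := by
      have := Nat.mod_add_div (k * i) m
      rw [mul_comm k i, hk] at this
      rw [mul_comm k i]
      nth_rewrite 1 [← this]
      ring
    rw [h1, bar_add, bar_mul_fix _ he]

namespace Pair

variable {lam : K} {ν : F} {J0 J1 : K →ₗ[F] K} {a p r r' : K}

/-- the set of isometries normalising `D` and the conjugate of `F[J1]` -/
def SS (P : Pair m lam ν J0 J1 a p r r') (γ : F) : Set (K ≃ₗ[F] K) :=
  {h | (∀ x y, bil F K m lam (h x) (h y) = bil F K m lam x y) ∧ (∃ i, Tw m i h) ∧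
    ∃ ε : F, ε * ε = 1 ∧
      ∀ x, h ((P.U γ).symm (J1 (P.U γ x))) = ε • (P.U γ).symm (J1 (P.U γ (h x)))}

theorem SS_pow (P : Pair m lam ν J0 J1 a p r r') (γ : F) :
    ∀ h ∈ P.SS γ, ∀ k : ℕ, h ^ k ∈ P.SS γ := by
  rintro h ⟨h1, ⟨i, hi⟩, ε, hε, h3⟩ k
  refine ⟨?_, ⟨_, hi.pow k⟩, ?_⟩
  · induction k with
    | zero => intro x y; rfl
    | succ k ih => intro x y; rw [pow_succ, LinearEquiv.mul_apply, LinearEquiv.mul_apply, ih, h1]
  · induction k with
    | zero => exact ⟨1, one_mul 1, fun x => by rw [pow_zero, one_smul]; rfl⟩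
    | succ k ih =>
      obtain ⟨ε', hε', h4⟩ := ih
      refine ⟨ε * ε', by linear_combination (ε' * ε') * hε + hε', fun x => ?_⟩
      rw [pow_succ, LinearEquiv.mul_apply, LinearEquiv.mul_apply, h3, map_smul, h4, smul_smul]

/-- the condition excluding twists -/
def Excl (_P : Pair m lam ν J0 J1 a p r r') : Prop :=
  ∀ c0 c1 c2 c3 ε : F, ε * ε = 1 →
    bar F K 1 (TT F m lam a (J1 a)) ≠
      ε • TT F m lam (c0 • a + c1 • J0 a + c2 • J1 a + c3 • J1 (J0 a))
        (J1 (c0 • a + c1 • J0 a + c2 • J1 a + c3 • J1 (J0 a)))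

theorem core_two (P : Pair m lam ν J0 J1 a p r r') (hq : Odd (Fintype.card F)) (hmp : m.Prime)
    (hm5 : 5 ≤ m) {γ : F} (hγ : γ ≠ 0) (hex : P.Excl) :
    ∀ h ∈ P.SS γ, ∃ c : F, ∀ x, h x = c • x := by
  have hmo : Odd m := hmp.odd_of_ne_two (by omega)
  have hlin := no_twist hmp (P.SS γ) (P.SS_pow γ) (fun h hh => hh.2.1) (by
    rintro h ⟨h1, -, ε, hε, h3⟩ htw
    obtain ⟨hJ, hDel⟩ := P.stepA hq hmo hm5 h htw hε h3
    obtain ⟨u, hu⟩ := P.Del_surj hq hmo hγ 1 0 0 0
    have hu' : P.Del γ u = a := by rw [hu]; module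
    have h4 := hDel u
    rw [hu', P.Del_eq, smul_add, smul_add, smul_add, smul_smul, smul_smul, smul_smul,
      smul_smul] at h4
    have h5 := TT_twist P.two P.hm P.hl h h1 htw a (J1 a)
    rw [hJ, h4] at h5
    have h6 : ∀ x y : K, TT F m lam x (ε • y) = ε • TT F m lam x y := by
      intro x y
      unfold TT
      rw [map_smul, Algebra.smul_def, Algebra.smul_def, Algebra.smul_def]
      ring
    rw [h6] at h5
    exact hex _ _ _ _ ε hε h5.symm)
  intro h hh
  have hD := hlin h hh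
  obtain ⟨h1, ⟨i, hi⟩, ε, hε, h3⟩ := hh
  obtain ⟨hJ, hDel⟩ := P.stepA hq hmo hm5 h hi hε h3
  have hε' : ε = 1 ∨ ε = -1 := by
    have : (ε - 1) * (ε + 1) = 0 := by linear_combination hε
    rcases mul_eq_zero.mp this with h4 | h4
    · left; exact sub_eq_zero.mp h4
    · right; exact eq_neg_of_add_eq_zero_left h4
  rcases hε' with rfl | rfl
  · exact P.stepC_pos hq hmp hm5 hγ h h1 hD (fun x => by rw [hJ, one_smul])
      (fun x => by rw [hDel, one_smul])
  · exact (P.stepC_neg hq hmo hγ h hD (fun x => by rw [hJ, neg_smul, one_smul])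
      (fun x => by rw [hDel, neg_smul, one_smul])).elim

end Pair

end Pool.Agent.H330.Symp
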