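import Pool.Agent.H330.SympCore1

namespace Pool.Agent.H330.Symp

open Module Pool.Agent.H330 Pool.Agent.H330.Minus

variable {F K : Type} [Field F] [Fintype F] [Field K] [Fintype K] [Algebra F K] {m : ℕ}

/-- At most `q - 1` nonzero solutions of `φ(θ) = v θ`. -/
theorem card_twist_le [DecidableEq K] (v : K) :
    (Finset.univ.filter (fun θ : K => θ ≠ 0 ∧ bar F K 1 θ = v * θ)).card
      ≤ Fintype.card F - 1 := by
  classical
  by_cases hne : ∃ θ0 : K, θ0 ≠ 0 ∧ bar F K 1 θ0 = v * θ0
  · obtain ⟨θ0, h0, h1⟩ := hne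
    have hsub : Finset.univ.filter (fun θ : K => θ ≠ 0 ∧ bar F K 1 θ = v * θ) ⊆
        (Finset.univ.filter (fun k : F => k ≠ 0)).image (fun k => algebraMap F K k * θ0) := by
      intro θ hθ
      rw [Finset.mem_filter] at hθ
      obtain ⟨-, hθ0, hθ1⟩ := hθ
      rw [Finset.mem_image]
      have hv : v ≠ 0 := by
        rintro rfl
        rw [zero_mul] at h1
        exact h0 (by simpa using h1)
      have h2 : bar F K 1 (θ / θ0) = θ / θ0 := by
        rw [map_div₀, hθ1, h1, mul_div_mul_left _ _ hv]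
      have h3 : θ / θ0 ∈ (⊥ : IntermediateField F K) := by
        apply mem_of_pow
        rw [IntermediateField.finrank_bot, ← bar_apply]; exact h2
      rw [IntermediateField.mem_bot] at h3
      obtain ⟨k, hk⟩ := h3
      refine ⟨k, ?_, ?_⟩
      · rw [Finset.mem_filter]
        refine ⟨Finset.mem_univ _, ?_⟩
        rintro rfl
        rw [map_zero] at hk
        exact div_ne_zero hθ0 h0 hk.symm
      · rw [hk]; field_simp
    refine (Finset.card_le_card hsub).trans (Finset.card_image_le.trans ?_)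
    rw [Finset.filter_ne', Finset.card_erase_of_mem (Finset.mem_univ _), Finset.card_univ]
  · rw [Finset.filter_false_of_mem]
    · simp
    · intro θ _ hθ
      exact hne ⟨θ, hθ⟩

theorem exists_theta (hq : Odd (Fintype.card F)) (hm : finrank F K = 2 * m) (hm7 : 7 ≤ m)
    {ι : Type} [Fintype ι] (v : ι → K)
    (hι : Fintype.card ι ≤ 3 * Fintype.card F ^ 3 + 2 * Fintype.card F) (r : K) :
    ∃ θ : K, θ ≠ 0 ∧ bar F K m θ = θ ∧ Algebra.trace F K θ = 0 ∧
      Algebra.trace F K (θ * r) = 0 ∧ ∀ i, bar F K 1 θ ≠ v i * θ := by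
  classical
  set q := Fintype.card F with hqdef
  have hq3 : 3 ≤ q := by
    have : 1 < q := Fintype.one_lt_card
    obtain ⟨r, hr⟩ := hq
    omega
  let f : DD F K m →ₗ[F] (F × F) :=
    ((Algebra.trace F K) ∘ₗ ((DD F K m).val : DD F K m →ₐ[F] K).toLinearMap).prod
      ((Algebra.trace F K) ∘ₗ (LinearMap.mulRight F r) ∘ₗ
        ((DD F K m).val : DD F K m →ₐ[F] K).toLinearMap)
  have hker : m - 2 ≤ finrank F (LinearMap.ker f) := by
    have h1 := LinearMap.finrank_range_add_finrank_ker f
    have h2 : finrank F (LinearMap.range f) ≤ 2 := by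
      have := Submodule.finrank_le (LinearMap.range f)
      rwa [finrank_prod, finrank_self] at this
    rw [finrank_DD hm (by omega)] at h1
    omega
  by_contra hcon
  push Not at hcon
  -- the kernel injects in the union
  let g : LinearMap.ker f → K := fun x => ((x : DD F K m) : K)
  have hg : Function.Injective g := fun x y h => Subtype.ext (Subtype.ext h)
  have hsub : (Finset.univ.image g) ⊆ insert (0 : K) (Finset.univ.biUnion
      (fun i : ι => Finset.univ.filter (fun θ : K => θ ≠ 0 ∧ bar F K 1 θ = v i * θ))) := by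
    intro θ hθ
    rw [Finset.mem_image] at hθ
    obtain ⟨x, -, rfl⟩ := hθ
    rw [Finset.mem_insert]
    by_cases h0 : g x = 0
    · left; exact h0
    · right
      have hx : f (x : DD F K m) = 0 := x.2
      obtain ⟨i, hi⟩ := hcon (g x) h0 (x : DD F K m).2 (congrArg Prod.fst hx)
        (congrArg Prod.snd hx)
      rw [Finset.mem_biUnion]
      exact ⟨i, Finset.mem_univ _, by
        rw [Finset.mem_filter]; exact ⟨Finset.mem_univ _, h0, hi⟩⟩
  have h1 := Finset.card_le_card hsub
  rw [Finset.card_image_of_injective _ hg, Finset.card_univ,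
    Module.card_eq_pow_finrank (K := F) (V := LinearMap.ker f), ← hqdef] at h1
  have h2 : (insert (0 : K) (Finset.univ.biUnion
      (fun i : ι => Finset.univ.filter (fun θ : K => θ ≠ 0 ∧ bar F K 1 θ = v i * θ)))).card
      ≤ 1 + (q - 1) * (3 * q ^ 3 + 2 * q) := by
    refine (Finset.card_insert_le _ _).trans ?_
    rw [add_comm]
    apply Nat.add_le_add_left
    refine Finset.card_biUnion_le.trans ?_
    calc ∑ i : ι, (Finset.univ.filter (fun θ : K => θ ≠ 0 ∧ bar F K 1 θ = v i * θ)).card
        ≤ ∑ _i : ι, (q - 1) := Finset.sum_le_sum (fun i _ => card_twist_le (v i))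
      _ = Fintype.card ι * (q - 1) := by
        rw [Finset.sum_const, Finset.card_univ, smul_eq_mul]
      _ ≤ (3 * q ^ 3 + 2 * q) * (q - 1) := Nat.mul_le_mul_right _ hι
      _ = (q - 1) * (3 * q ^ 3 + 2 * q) := mul_comm _ _
  have h3 : q ^ 5 ≤ q ^ (finrank F (LinearMap.ker f)) :=
    Nat.pow_le_pow_right (by omega) (by omega)
  have h4 : q ^ 5 ≤ 1 + (q - 1) * (3 * q ^ 3 + 2 * q) := h3.trans (h1.trans h2)
  obtain ⟨n, hn⟩ : ∃ n, q = n + 3 := ⟨q - 3, by omega⟩
  rw [hn] at h4
  have h5 : n + 3 - 1 = n + 2 := by omega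
  rw [h5] at h4
  nlinarith [sq_nonneg (n : ℤ), Nat.zero_le (n ^ 5), Nat.zero_le (n ^ 4), Nat.zero_le (n ^ 3),
    Nat.zero_le (n ^ 2), Nat.zero_le n]

/-- a quadratic equation has at most two solutions -/
theorem card_quad_le [DecidableEq K] {A B C : K} (hA : A ≠ 0) :
    (Finset.univ.filter (fun x : K => A * x ^ 2 + B * x + C = 0)).card ≤ 2 := by
  classical
  let P : Polynomial K := Polynomial.C A * Polynomial.X ^ 2 + Polynomial.C B * Polynomial.X
    + Polynomial.C C
  have hdeg : P.natDegree = 2 := Polynomial.natDegree_quadratic hA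
  have hP : P ≠ 0 := by
    intro h
    rw [h] at hdeg
    simp at hdeg
  refine le_trans (le_trans ?_ (Polynomial.card_roots' P)) hdeg.le
  refine le_trans ?_ (Multiset.toFinset_card_le _)
  apply Finset.card_le_card
  intro x hx
  rw [Finset.mem_filter] at hx
  rw [Multiset.mem_toFinset, Polynomial.mem_roots hP, Polynomial.IsRoot.def]
  simp only [P, Polynomial.eval_add, Polynomial.eval_mul, Polynomial.eval_C, Polynomial.eval_pow,
    Polynomial.eval_X]
  exact hx.2

/-- there are at least `q^m + 1` elements of norm one -/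
theorem card_norm_one [DecidableEq K] (hm : finrank F K = 2 * m) (hm0 : 0 < m) :
    Fintype.card F ^ m + 1 ≤
      (Finset.univ.filter (fun ζ : K => ζ * bar F K m ζ = 1)).card := by
  classical
  set q := Fintype.card F with hqdef
  obtain ⟨ζ, hζ⟩ := IsCyclic.exists_generator (α := Kˣ)
  have hord : orderOf ζ = q ^ (2 * m) - 1 := by
    rw [orderOf_eq_card_of_forall_mem_zpowers hζ, Nat.card_eq_fintype_card, Fintype.card_units,
      cardK hm]
  have hq1 : 1 < q := Fintype.one_lt_card
  have hqm : 1 < q ^ m := Nat.one_lt_pow (by omega) hq1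
  have hfac : q ^ (2 * m) - 1 = (q ^ m - 1) * (q ^ m + 1) := by
    rw [mul_comm 2 m, pow_mul, sq_sub_one (by omega)]
  have hz : orderOf (ζ ^ (q ^ m - 1)) = q ^ m + 1 := by
    rw [orderOf_pow_of_dvd (by omega) (by rw [hord, hfac]; exact Dvd.intro _ rfl), hord, hfac]
    exact Nat.mul_div_cancel_left _ (by omega)
  set z := ζ ^ (q ^ m - 1) with hzdef
  have hsub : (Finset.range (q ^ m + 1)).image (fun i => ((z ^ i : Kˣ) : K)) ⊆
      Finset.univ.filter (fun ζ : K => ζ * bar F K m ζ = 1) := by
    intro x hx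
    rw [Finset.mem_image] at hx
    obtain ⟨i, -, rfl⟩ := hx
    rw [Finset.mem_filter]
    refine ⟨Finset.mem_univ _, ?_⟩
    rw [bar_apply, ← pow_succ', ← hqdef, ← Units.val_pow_eq_pow_val, ← pow_mul, mul_comm i,
      pow_mul, ← hz, pow_orderOf_eq_one, one_pow, Units.val_one]
  have h1 := Finset.card_le_card hsub
  rw [Finset.card_image_of_injOn, Finset.card_range] at h1
  · exact h1
  · intro a ha b hb hab
    have ha' : a < orderOf z := by rw [hz]; simpa using ha
    have hb' : b < orderOf z := by rw [hz]; simpa using hb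
    exact pow_injOn_Iio_orderOf ha' hb' (Units.ext hab)

end Pool.Agent.H330.Symp
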