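import Pool.Agent.H330.SympZeta

namespace Pool.Agent.H330.Symp

open Module Pool.Agent.H330 Pool.Agent.H330.Minus

variable {F K : Type} [Field F] [Fintype F] [Field K] [Fintype K] [Algebra F K] {m : ℕ}

/-- `δ_J(y) = y bar(J y) - J y bar(y)` -/
noncomputable def dl (m : ℕ) (J : K →ₗ[F] K) (y : K) : K :=
  y * bar F K m (J y) - J y * bar F K m y

/-- base points -/
noncomputable def bs (J : K →ₗ[F] K) (a b : K) : Option (F × F) → K
  | none => a
  | some t => t.1 • a + t.2 • J a + b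

theorem dl_scale {ν : F} {J : K →ₗ[F] K} (hJ : ∀ x, J (J x) = ν • x) (k l : F) (y : K) :
    dl m J (k • y + l • J y) = algebraMap F K (k ^ 2 - ν * l ^ 2) * dl m J y := by
  unfold dl
  rw [map_add, map_smul, map_smul, hJ]
  simp only [map_add, Algebra.smul_def, map_mul, map_sub, map_pow, AlgEquiv.commutes]
  ring

theorem dl_reduce {ν : F} (hν : ¬ IsSquare ν) {J : K →ₗ[F] K} (hJ : ∀ x, J (J x) = ν • x)
    (a b : K) (k0 k1 k2 k3 : F) :
    ∃ (k : F) (t : Option (F × F)), dl m J (k0 • a + k1 • b + k2 • J a + k3 • J b)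
      = algebraMap F K k * dl m J (bs J a b t) := by
  by_cases h : k1 = 0 ∧ k3 = 0
  · refine ⟨k0 ^ 2 - ν * k2 ^ 2, none, ?_⟩
    rw [bs, ← dl_scale hJ]
    congr 1
    rw [h.1, h.2]
    module
  · -- k1^2 - ν k3^2 ≠ 0
    have hn : k1 ^ 2 - ν * k3 ^ 2 ≠ 0 := by
      intro h0
      have hk3 : k3 ≠ 0 := by
        rintro rfl
        apply h
        refine ⟨?_, rfl⟩
        have : k1 ^ 2 = 0 := by linear_combination h0
        exact pow_eq_zero_iff (two_ne_zero) |>.mp this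
      apply hν
      refine ⟨k1 / k3, ?_⟩
      field_simp
      linear_combination -h0
    refine ⟨k1 ^ 2 - ν * k3 ^ 2, some ((k1 * k0 - ν * k3 * k2) / (k1 ^ 2 - ν * k3 ^ 2),
      (k1 * k2 - k3 * k0) / (k1 ^ 2 - ν * k3 ^ 2)), ?_⟩
    rw [← dl_scale hJ]
    congr 1
    simp only [bs, map_add, map_smul, hJ, smul_add, smul_smul]
    have e1 : k0 • a = (k1 * ((k1 * k0 - ν * k3 * k2) / (k1 ^ 2 - ν * k3 ^ 2))
        + k3 * ((k1 * k2 - k3 * k0) / (k1 ^ 2 - ν * k3 ^ 2)) * ν) • a := by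
      congr 1
      rw [← mul_div_assoc, ← mul_div_assoc, div_mul_eq_mul_div, ← add_div, eq_div_iff hn]
      ring
    have e2 : k2 • J a = (k1 * ((k1 * k2 - k3 * k0) / (k1 ^ 2 - ν * k3 ^ 2))
        + k3 * ((k1 * k0 - ν * k3 * k2) / (k1 ^ 2 - ν * k3 ^ 2))) • J a := by
      congr 1
      rw [← mul_div_assoc, ← mul_div_assoc, ← add_div, eq_div_iff hn]
      ring
    rw [e1, e2]
    module

namespace Pair

variable {ν : F} {J0 J1 : K →ₗ[F] K} {a p r r' θ j : K}

/-- reduction of the exclusion condition to finitely many values -/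
theorem excl_of (P : Pair m (θ / j) ν J0 J1 a p r r') (hθ0 : θ ≠ 0) (hj0 : j ≠ 0)
    (hex : ∀ (k : F) (t : Option (F × F)), bar F K 1 θ ≠
      (algebraMap F K k * dl m J1 (bs J1 a (J0 a) t) / (j * bar F K 1 (dl m J1 a / j))) * θ)
    (hδ : dl m J1 a ≠ 0) : P.Excl := by
  intro c0 c1 c2 c3 ε hε heq
  obtain ⟨k, t, hkt⟩ := dl_reduce (m := m) P.ns P.s1.sq a (J0 a) c0 c1 c2 c3
  apply hex (ε * k) t
  have e1 : TT F m (θ / j) a (J1 a) = θ * (dl m J1 a / j) := by
    unfold TT dl; ring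
  have e2 : ∀ y : K, TT F m (θ / j) y (J1 y) = θ / j * dl m J1 y := by
    intro y; unfold TT dl; ring
  have hτ : bar F K 1 (dl m J1 a / j) ≠ 0 := by
    simpa using div_ne_zero hδ hj0
  rw [e1, e2, hkt, map_mul, Algebra.smul_def] at heq
  apply mul_right_cancel₀ hτ
  rw [heq, map_mul]
  field_simp

end Pair

end Pool.Agent.H330.Symp
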