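import Pool.Agent.H330.MinusCore2

/-!
# The symplectic space `K = F_{q^{2m}}`, `m` odd

`V = K` with the alternating form `Tr_{K/F}(lam x y^(q^m))`, `lam^(q^m) = -lam`.
-/

namespace Pool.Agent.H330.Symp

open Module Pool.Agent.H330 Pool.Agent.H330.Minus

variable {F K : Type} [Field F] [Fintype F] [Field K] [Fintype K] [Algebra F K] {m : ℕ}

variable (F K m) in
/-- The bilinear form `(x, y) ↦ Tr_{K/F}(lam * x * y^(q^m))`. -/
noncomputable def form (lam x y : K) : F :=
  Algebra.trace F K (lam * x * y ^ (Fintype.card F ^ m))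

theorem form_eq (lam x y : K) :
    form F K m lam x y = Algebra.trace F K (lam * x * bar F K m y) := by
  rw [form, bar_apply]

variable (F K m) in
/-- The bilinear form `(x, y) ↦ Tr_{K/F}(lam * x * y^(q^m))`. -/
noncomputable def bil (lam : K) : K →ₗ[F] K →ₗ[F] F :=
  LinearMap.mk₂ F (form F K m lam)
    (fun x y z => by rw [form_eq, form_eq, form_eq, mul_add, add_mul, map_add])
    (fun c x y => by rw [form_eq, form_eq, mul_smul_comm, smul_mul_assoc, map_smul])
    (fun x y z => by rw [form_eq, form_eq, form_eq, map_add, mul_add, map_add])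
    (fun c x y => by rw [form_eq, form_eq, map_smul, mul_smul_comm, map_smul])

theorem bil_apply (lam x y : K) :
    bil F K m lam x y = Algebra.trace F K (lam * x * bar F K m y) := form_eq lam x y

theorem trace_zero (h2 : (2 : F) ≠ 0) {u : K} (hu : bar F K m u = -u) :
    Algebra.trace F K u = 0 := by
  have h5 : Algebra.trace F K (bar F K m u) = Algebra.trace F K u := trace_bar u
  rw [hu, map_neg] at h5
  have h6 : (2 : F) * Algebra.trace F K u = 0 := by linear_combination -h5
  exact (mul_eq_zero.mp h6).resolve_left h2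

theorem bil_swap (hm : finrank F K = 2 * m) {lam : K} (hl : bar F K m lam = -lam) (x y : K) :
    bil F K m lam y x = - bil F K m lam x y := by
  rw [bil_apply, bil_apply, ← trace_bar (m := m) (lam * y * bar F K m x),
    map_mul (bar F K m), map_mul (bar F K m), bar_bar hm, hl, ← map_neg]
  congr 1; ring

theorem bil_self (h2 : (2 : F) ≠ 0) (hm : finrank F K = 2 * m) {lam : K}
    (hl : bar F K m lam = -lam) (x : K) : bil F K m lam x x = 0 := by
  have h := bil_swap hm hl x x
  have h6 : (2 : F) * bil F K m lam x x = 0 := by linear_combination h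
  exact (mul_eq_zero.mp h6).resolve_left h2

theorem bil_nondeg (hm : finrank F K = 2 * m) {lam : K} (hl0 : lam ≠ 0) (x : K)
    (hx : ∀ y, bil F K m lam x y = 0) : x = 0 := by
  have h1 : lam * x = 0 := by
    apply trace_nondeg (F := F)
    intro y
    have := hx (bar F K m y)
    rwa [bil_apply, bar_bar hm] at this
  exact (mul_eq_zero.mp h1).resolve_left hl0

theorem bil_nondeg' (hm : finrank F K = 2 * m) {lam : K} (hl : bar F K m lam = -lam)
    (hl0 : lam ≠ 0) (y : K) (hy : ∀ x, bil F K m lam x y = 0) : y = 0 := by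
  apply bil_nondeg hm hl0 y
  intro x
  rw [bil_swap hm hl, hy, neg_zero]

/-- multiplications by elements of `D` are self-adjoint -/
theorem bil_D (lam x y : K) {d : K} (hd : bar F K m d = d) :
    bil F K m lam (d * x) y = bil F K m lam x (d * y) := by
  rw [bil_apply, bil_apply, map_mul (bar F K m), hd]
  congr 1; ring

/-- `x ↦ α x + β bar(x)` with `bar α = -α` is skew-adjoint -/
theorem bil_skew (hm : finrank F K = 2 * m) {lam : K} (hl : bar F K m lam = -lam) (x y : K)
    {α β : K} (hα : bar F K m α = -α) :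
    bil F K m lam (α * x + β * bar F K m x) y
      = - bil F K m lam x (α * y + β * bar F K m y) := by
  rw [bil_apply, bil_apply, map_add (bar F K m), map_mul (bar F K m), map_mul (bar F K m),
    bar_bar hm, hα]
  have h1 : Algebra.trace F K (lam * (β * bar F K m x) * bar F K m y)
      = - Algebra.trace F K (lam * x * (bar F K m β * y)) := by
    rw [← trace_bar (m := m) (lam * (β * bar F K m x) * bar F K m y), map_mul (bar F K m),
      map_mul (bar F K m), map_mul (bar F K m), bar_bar hm, bar_bar hm, hl, ← map_neg]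
    congr 1; ring
  have h2 : lam * (α * x + β * bar F K m x) * bar F K m y
      = lam * α * x * bar F K m y + lam * (β * bar F K m x) * bar F K m y := by ring
  have h3 : lam * x * (-α * bar F K m y + bar F K m β * y)
      = - (lam * α * x * bar F K m y) + lam * x * (bar F K m β * y) := by ring
  rw [h2, h3, map_add, map_add, h1, map_neg]
  ring

/-- The norm `K → D` is surjective. -/
theorem exists_norm (hm : finrank F K = 2 * m) (hm0 : 0 < m) {e : K} (he : bar F K m e = e) :
    ∃ κ : K, κ * bar F K m κ = e := by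
  classical
  by_cases he0 : e = 0
  · exact ⟨0, by rw [he0, zero_mul]⟩
  set q := Fintype.card F with hqdef
  obtain ⟨ζ, hζ⟩ := IsCyclic.exists_generator (α := Kˣ)
  have hord : orderOf ζ = q ^ (2 * m) - 1 := by
    rw [orderOf_eq_card_of_forall_mem_zpowers hζ, Nat.card_eq_fintype_card, Fintype.card_units,
      cardK hm]
  have hq1 : 1 < q := Fintype.one_lt_card
  have hqm : 1 < q ^ m := Nat.one_lt_pow (by omega) hq1
  have hfac : q ^ (2 * m) - 1 = (q ^ m - 1) * (q ^ m + 1) := by
    rw [mul_comm 2 m, pow_mul, sq_sub_one (by omega)]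
  obtain ⟨k, hk⟩ : ∃ k : ℕ, ζ ^ k = Units.mk0 e he0 := by
    have := hζ (Units.mk0 e he0)
    rwa [← mem_powers_iff_mem_zpowers, Submonoid.mem_powers_iff] at this
  have he1 : (Units.mk0 e he0) ^ (q ^ m - 1) = 1 := by
    ext
    rw [Units.val_pow_eq_pow_val, Units.val_mk0, Units.val_one]
    have h1 : e ^ (q ^ m - 1) * e = e := by
      rw [← pow_succ, Nat.sub_add_cancel (by omega), hqdef, ← bar_apply, he]
    exact mul_right_cancel₀ he0 (by rw [h1, one_mul])
  rw [← hk, ← pow_mul] at he1
  have h1 : (q ^ m - 1) * (q ^ m + 1) ∣ (q ^ m - 1) * k := by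
    rw [← hfac, ← hord, mul_comm _ k]
    exact orderOf_dvd_of_pow_eq_one he1
  obtain ⟨l, hl⟩ := Nat.dvd_of_mul_dvd_mul_left (by omega) h1
  refine ⟨((ζ ^ l : Kˣ) : K), ?_⟩
  rw [bar_apply, ← pow_succ', ← Units.val_pow_eq_pow_val, ← pow_mul, ← hqdef, mul_comm l, ← hl, hk]
  rfl

/-- the square root of a nonsquare: anti-invariant under `bar` when `m` is odd -/
theorem exists_j (hq : Odd (Fintype.card F)) (hm : finrank F K = 2 * m) (hmo : Odd m)
    {ν : F} (hν : ¬ IsSquare ν) :
    ∃ j : K, j ^ 2 = algebraMap F K ν ∧ bar F K m j = -j ∧ j ^ Fintype.card F = -j := by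
  set q := Fintype.card F with hqdef
  have hν0 : ν ≠ 0 := by rintro rfl; exact hν (IsSquare.zero)
  have hνq : ν ^ (q - 1) = 1 := FiniteField.pow_card_sub_one_eq_one ν hν0
  have h2K : (2 : K) ≠ 0 := two_ne hq
  have hK2 : ringChar K ≠ 2 := by
    intro h2
    apply h2K
    have := ringChar.spec K 2
    rw [Nat.cast_ofNat] at this
    exact this.mpr (by rw [h2])
  have hsq : IsSquare (algebraMap F K ν) := by
    rw [FiniteField.isSquare_iff hK2 (by simpa using hν0)]
    have hcard : Fintype.card K / 2 = (q ^ (2 * m) - 1) / 2 := by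
      rw [cardK hm]
      have : Odd (q ^ (2 * m)) := hq.pow
      obtain ⟨r, hr⟩ := this
      rw [hr]; omega
    rw [hcard]
    obtain ⟨c, hc⟩ := (dvd_half hq (k := m)).1
    rw [hc, ← map_pow, pow_mul, hνq, one_pow, map_one]
  obtain ⟨e, he⟩ := hsq
  have he2 : e ^ 2 = algebraMap F K ν := by rw [he, sq]
  have hφ : e ^ q = -e := by
    have h1 : (e ^ q) ^ 2 = e ^ 2 := by
      rw [← pow_mul, mul_comm, pow_mul, he2, ← map_pow]
      congr 1
      exact FiniteField.pow_card ν
    have h3 : (e ^ q - e) * (e ^ q + e) = 0 := by linear_combination h1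
    rcases mul_eq_zero.mp h3 with h4 | h4
    · exfalso
      apply hν
      have h5 : e ∈ (⊥ : IntermediateField F K) := by
        apply mem_of_pow
        rw [IntermediateField.finrank_bot, pow_one]
        exact sub_eq_zero.mp h4
      rw [IntermediateField.mem_bot] at h5
      obtain ⟨a, ha⟩ := h5
      refine ⟨a, ?_⟩
      apply (algebraMap F K).injective
      rw [map_mul, ha, ← he2, sq]
    · exact eq_neg_of_add_eq_zero_left h4
  refine ⟨e, he2, ?_, hφ⟩
  have hind : ∀ n : ℕ, e ^ (q ^ n) = (-1) ^ n * e := by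
    intro n
    induction n with
    | zero => simp
    | succ n ih =>
      rw [pow_succ, pow_mul, ih, mul_pow, hφ, ← pow_mul, mul_comm n q, pow_mul, hq.neg_one_pow,
        pow_succ]
      ring
  rw [bar_apply, ← hqdef, hind, hmo.neg_one_pow]
  ring

variable (F K m) in
/-- the fixed field `D` of `bar` -/
noncomputable def DD : IntermediateField F K :=
  { carrier := {x | bar F K m x = x}
    mul_mem' := by
      intro a b ha hb
      change bar F K m (a * b) = a * b
      rw [map_mul, ha, hb]
    one_mem' := map_one _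
    add_mem' := by
      intro a b ha hb
      change bar F K m (a + b) = a + b
      rw [map_add, ha, hb]
    zero_mem' := map_zero _
    algebraMap_mem' := fun r => (bar F K m).commutes r
    inv_mem' := by
      intro x hx
      change bar F K m x⁻¹ = x⁻¹
      rw [map_inv₀, hx] }

theorem mem_DD {x : K} : x ∈ DD F K m ↔ bar F K m x = x := Iff.rfl

theorem finrank_DD (hm : finrank F K = 2 * m) (hm0 : 0 < m) : finrank F (DD F K m) = m := by
  classical
  -- [K : D] = 2
  have h1 : DD F K m = IntermediateField.fixedField (Subgroup.zpowers (bar F K m)) := by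
    ext x
    rw [mem_DD, IntermediateField.mem_fixedField_iff]
    constructor
    · intro hx f hf
      obtain ⟨n, rfl⟩ := Subgroup.mem_zpowers_iff.mp hf
      induction n with
      | zero => simp
      | succ n ih =>
        rw [zpow_add_one, AlgEquiv.mul_apply, hx]
        exact ih (Subgroup.zpow_mem_zpowers _ _)
      | pred n ih =>
        have h3 : (bar F K m)⁻¹ x = x := by
          apply (bar F K m).injective
          rw [← AlgEquiv.mul_apply, mul_inv_cancel, hx]; rfl
        rw [zpow_sub_one, AlgEquiv.mul_apply, h3]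
        exact ih (Subgroup.zpow_mem_zpowers _ _)
    · intro hx
      exact hx _ (Subgroup.mem_zpowers _)
  have hord : orderOf (bar F K m) = 2 := by
    apply orderOf_eq_prime
    · ext x
      rw [sq, AlgEquiv.mul_apply, bar_bar hm]; rfl
    · intro h2
      obtain ⟨w, hw⟩ := exists_bar_ne hm hm0
      apply hw
      rw [h2]; rfl
  have h2 : finrank (DD F K m) K = 2 := by
    rw [h1, IntermediateField.finrank_fixedField_eq_card, Nat.card_zpowers, hord]
  have h3 := Module.finrank_mul_finrank F (DD F K m) K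
  rw [h2, hm] at h3
  omega

/-- if `t` has large order, an intermediate field containing `t^2` contains `D` -/
theorem exists_t (hm : finrank F K = 2 * m) (hm0 : 0 < m) :
    ∃ t : K, t ≠ 0 ∧ bar F K m t = t ∧
      ∀ k : ℕ, 0 < k → t ^ k = 1 → Fintype.card F ^ m - 1 ≤ k := by
  classical
  set q := Fintype.card F with hqdef
  obtain ⟨ζ, hζ⟩ := IsCyclic.exists_generator (α := Kˣ)
  have hord : orderOf ζ = q ^ (2 * m) - 1 := by
    rw [orderOf_eq_card_of_forall_mem_zpowers hζ, Nat.card_eq_fintype_card, Fintype.card_units,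
      cardK hm]
  have hq1 : 1 < q := Fintype.one_lt_card
  have hqm : 1 < q ^ m := Nat.one_lt_pow (by omega) hq1
  have hfac : q ^ (2 * m) - 1 = (q ^ m - 1) * (q ^ m + 1) := by
    rw [mul_comm 2 m, pow_mul, sq_sub_one (by omega)]
  have hz : orderOf (ζ ^ (q ^ m + 1)) = q ^ m - 1 := by
    rw [orderOf_pow_of_dvd (by omega) (by rw [hord, hfac]; exact Dvd.intro_left _ rfl), hord, hfac]
    exact Nat.mul_div_cancel _ (by omega)
  refine ⟨((ζ ^ (q ^ m + 1) : Kˣ) : K), Units.ne_zero _, ?_, ?_⟩
  · rw [bar_apply, ← hqdef, ← Units.val_pow_eq_pow_val]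
    congr 1
    have h1 : (ζ ^ (q ^ m + 1)) ^ (q ^ m - 1) = 1 := by rw [← hz]; exact pow_orderOf_eq_one _
    have h2 : q ^ m = (q ^ m - 1) + 1 := by omega
    nth_rewrite 2 [h2]
    rw [pow_succ, h1, one_mul]
  · intro k hk hk1
    rw [← Units.val_pow_eq_pow_val, Units.val_eq_one] at hk1
    rw [← hz]
    exact Nat.le_of_dvd hk (orderOf_dvd_of_pow_eq_one hk1)

theorem DD_le (hq : Odd (Fintype.card F)) (hm : finrank F K = 2 * m) (hm0 : 0 < m) {t : K}
    (ht : ∀ k : ℕ, 0 < k → t ^ k = 1 → Fintype.card F ^ m - 1 ≤ k) (ht0 : t ≠ 0)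
    (P : IntermediateField F K) (hP : t ^ 2 ∈ P) {d : K} (hd : bar F K m d = d) : d ∈ P := by
  set q := Fintype.card F with hqdef
  have hq3 : 3 ≤ q := by
    have : 1 < q := Fintype.one_lt_card
    obtain ⟨r, hr⟩ := hq
    omega
  set k := finrank F P with hk
  have hkpos : 0 < k := finrank_pos
  have hqk : 1 < q ^ k := Nat.one_lt_pow (by omega) (by omega)
  have h1 : (t ^ 2) ^ (q ^ k) = t ^ 2 := pow_of_mem P _ hP
  have h2 : t ^ (2 * (q ^ k - 1)) = 1 := by
    have h3 : (t ^ 2) ^ (q ^ k - 1) * t ^ 2 = t ^ 2 := by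
      rw [← pow_succ, Nat.sub_add_cancel (by omega), h1]
    rw [pow_mul]
    exact mul_right_cancel₀ (pow_ne_zero 2 ht0) (by rw [h3, one_mul])
  have h3 := ht _ (by omega) h2
  have hkm : m ≤ k := by
    by_contra hlt
    push Not at hlt
    have : 3 * q ^ k ≤ q ^ m := by
      calc 3 * q ^ k ≤ q * q ^ k := Nat.mul_le_mul_right _ hq3
        _ = q ^ (k + 1) := by ring
        _ ≤ q ^ m := Nat.pow_le_pow_right (by omega) hlt
    omega
  have hdvd : k ∣ 2 * m := by
    rw [← hm]; exact Dvd.intro _ (Module.finrank_mul_finrank F P K)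
  obtain ⟨r, hr⟩ := hdvd
  have hr2 : r ≤ 2 := by
    by_contra hlt
    push Not at hlt
    have : k * 3 ≤ k * r := Nat.mul_le_mul_left _ hlt
    omega
  apply mem_of_pow
  rw [← hk]
  have hr0 : r ≠ 0 := by rintro rfl; omega
  have hcase : k = m ∨ k = 2 * m := by
    interval_cases r
    · exact absurd rfl hr0
    · right; omega
    · left; omega
  rcases hcase with h | h
  · rw [h, ← hqdef, ← bar_apply, hd]
  · have : (q ^ (2 * m)) = q ^ m * q ^ m := by ring
    have h5 : d ^ (Fintype.card F ^ m) = d := by rw [← bar_apply, hd]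
    rw [h, this, pow_mul, hqdef, h5, h5]

end Pool.Agent.H330.Symp
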