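import Pool.Agent.H330.SympK
import Pool.Agent.H330.MinusMain

namespace Pool.Agent.H330.Symp

open Module Pool.Agent.H330 Pool.Agent.H330.Minus

variable {F K : Type} [Field F] [Fintype F] [Field K] [Fintype K] [Algebra F K] {m : ℕ}

variable (F K m) in
/-- The isometry group `Sp(V)`. -/
def Sp (lam : K) : Subgroup (K ≃ₗ[F] K) where
  carrier := {g | ∀ x y, form F K m lam (g x) (g y) = form F K m lam x y}
  mul_mem' := by
    intro a b ha hb x y
    rw [LinearEquiv.mul_apply, LinearEquiv.mul_apply, ha, hb]
  one_mem' := by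
    intro x y
    rfl
  inv_mem' := by
    intro a ha x y
    rw [← ha (a⁻¹ x) (a⁻¹ y), ← LinearEquiv.mul_apply, ← LinearEquiv.mul_apply, mul_inv_cancel]
    rfl

/-- `x ↦ α x + β bar(x)` with `α bar α - β bar β = 1`. -/
noncomputable def zz (hm : finrank F K = 2 * m) (α β : K)
    (h : α * bar F K m α - β * bar F K m β = 1) : K ≃ₗ[F] K where
  toFun x := α * x + β * bar F K m x
  map_add' x y := by rw [map_add]; ring
  map_smul' c x := by
    rw [map_smul, mul_smul_comm, mul_smul_comm, RingHom.id_apply, smul_add]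
  invFun x := bar F K m α * x - β * bar F K m x
  left_inv x := by
    change bar F K m α * (α * x + β * bar F K m x) - β * bar F K m (α * x + β * bar F K m x) = x
    rw [map_add, map_mul, map_mul, bar_bar hm]
    linear_combination x * h
  right_inv x := by
    change α * (bar F K m α * x - β * bar F K m x)
      + β * bar F K m (bar F K m α * x - β * bar F K m x) = x
    rw [map_sub, map_mul, map_mul, bar_bar hm, bar_bar hm]
    linear_combination x * h

theorem zz_apply (hm : finrank F K = 2 * m) (α β : K)
    (h : α * bar F K m α - β * bar F K m β = 1) (x : K) :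
    zz hm α β h x = α * x + β * bar F K m x := rfl

theorem zz_mem (hm : finrank F K = 2 * m) (α β : K)
    (h : α * bar F K m α - β * bar F K m β = 1) {lam : K} (hl : bar F K m lam = -lam) :
    zz hm α β h ∈ Sp F K m lam := by
  intro x y
  rw [zz_apply, zz_apply, form_eq, form_eq]
  set c := bar F K m with hc
  have hcc : ∀ x, c (c x) = x := bar_bar hm
  have e1 : lam * (α * x + β * c x) * c (α * y + β * c y)
      = lam * x * c y + (lam * (α * c β * x * y) + lam * (c α * β * c x * c y))
        + (lam * (β * c β * x * c y) + lam * (β * c β * c x * y)) := by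
    rw [map_add, map_mul c, map_mul c, hcc]
    linear_combination (lam * x * c y) * h
  rw [e1, map_add, map_add]
  have h2 : ∀ u : K, Algebra.trace F K (lam * u + lam * c u) = 0 := by
    intro u
    have h3 : Algebra.trace F K (lam * c u) = - Algebra.trace F K (lam * u) := by
      rw [← trace_bar (m := m) (lam * c u), ← hc, map_mul c, hcc, hl, ← map_neg]
      congr 1; ring
    rw [map_add, h3]; ring
  have h3 := h2 (α * c β * x * y)
  rw [map_mul c, map_mul c, map_mul c, hcc] at h3
  have h4 := h2 (β * c β * x * c y)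
  rw [map_mul c, map_mul c, map_mul c, hcc, hcc] at h4
  have e2 : lam * (α * c β * x * y) + lam * (c α * β * c x * c y)
      = lam * (α * c β * x * y) + lam * (c α * β * c x * c y) := rfl
  have e3 : lam * (β * c β * x * c y) + lam * (β * c β * c x * y)
      = lam * (β * c β * x * c y) + lam * (c β * β * c x * y) := by ring
  rw [h3, e3, h4]
  ring

/-- the isometry conjugating multiplication by `j` to `J' = s j + e ζ bar` -/
theorem exists_zz (hq : Odd (Fintype.card F)) (hm : finrank F K = 2 * m) (hm0 : 0 < m)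
    {j : K} {ν : F} (hν0 : ν ≠ 0) (hj2 : j ^ 2 = algebraMap F K ν) (hjb : bar F K m j = -j)
    {s e ζ : K} (hs : bar F K m s = s) (he : bar F K m e = e) (hs1 : 1 + s ≠ 0)
    (hζ : ζ * bar F K m ζ = 1) (hse : algebraMap F K ν * (1 - s ^ 2) = e ^ 2) :
    ∃ z : K ≃ₗ[F] K, (∀ lam : K, bar F K m lam = -lam → z ∈ Sp F K m lam) ∧
      (∀ d, bar F K m d = d → ∀ x, z (d * x) = d * z x) ∧
      (∀ x, z (j * x) = s * j * z x + e * ζ * bar F K m (z x)) := by
  have h2K : (2 : K) ≠ 0 := two_ne hq
  have hν : algebraMap F K ν ≠ 0 := by simpa using hν0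
  have hj0 : j ≠ 0 := by
    rintro rfl
    rw [zero_pow (by norm_num)] at hj2
    exact hν hj2.symm
  have hc2 : bar F K m (2 : K) = 2 := map_ofNat _ 2
  obtain ⟨α, hα⟩ := exists_norm hm hm0 (e := (1 + s) / 2) (by
    rw [map_div₀, map_add, map_one, hs, hc2])
  have hα0 : α ≠ 0 := by
    rintro rfl
    rw [zero_mul] at hα
    rcases div_eq_zero_iff.mp hα.symm with h | h
    · exact hs1 h
    · exact h2K h
  set c := bar F K m with hc
  have hcc : ∀ x, c (c x) = x := bar_bar hm
  have hcα0 : c α ≠ 0 := by simpa using hα0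
  have hα' : 2 * (α * c α) = 1 + s := by rw [hα]; field_simp
  obtain ⟨β, hβ⟩ : ∃ β : K, β = -(e * ζ) / (2 * j * α) := ⟨_, rfl⟩
  have hβ1 : 2 * j * α * β = -(e * ζ) := by rw [hβ]; field_simp
  have hcβ1 : 2 * j * c α * c β = e * c ζ := by
    have := congrArg c hβ1
    simp only [map_mul c, map_neg, hc2, hjb, he] at this
    linear_combination -this
  have hββ : β * c β = -(1 - s) / 2 := by
    have h3 : (4 * j ^ 2 * (α * c α)) * (β * c β) = -(e ^ 2) := by
      have : (4 * j ^ 2 * (α * c α)) * (β * c β)
          = (2 * j * α * β) * (2 * j * c α * c β) := by ring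
      rw [this, hβ1, hcβ1]
      linear_combination (-(e ^ 2)) * hζ
    rw [hj2, ← hse] at h3
    have h4 : (2 * algebraMap F K ν * (1 + s)) * (β * c β)
        = (2 * algebraMap F K ν * (1 + s)) * (-(1 - s) / 2) := by
      have h5 : (2 * algebraMap F K ν * (1 + s)) * (-(1 - s) / 2)
          = -(algebraMap F K ν * (1 - s ^ 2)) := by field_simp; ring
      rw [h5, ← h3]
      linear_combination (-(2 * algebraMap F K ν * (β * c β))) * hα'
    exact mul_left_cancel₀ (mul_ne_zero (mul_ne_zero h2K hν) hs1) h4
  have hdet : α * c α - β * c β = 1 := by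
    rw [hββ, hα]; field_simp; ring
  refine ⟨zz hm α β hdet, fun lam hl => zz_mem hm α β hdet hl, ?_, ?_⟩
  · intro d hd x
    rw [zz_apply, zz_apply, map_mul, hd]; ring
  · intro x
    rw [zz_apply, zz_apply, ← hc, map_mul c, map_add, map_mul c, map_mul c, hcc, hjb]
    -- coefficients
    have e1 : e * ζ * c α = -(β * j * (1 + s)) := by
      linear_combination (c α) * hβ1 - (j * β) * hα'
    have e2 : e * ζ * c β = α * j * (1 - s) := by
      have h5 : (2 * j * c α) * (e * ζ * c β) = (2 * j * c α) * (α * j * (1 - s)) := by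
        have : (2 * j * c α) * (e * ζ * c β) = e * ζ * (2 * j * c α * c β) := by ring
        rw [this, hcβ1]
        have h6 : algebraMap F K ν * (1 - s ^ 2) = e ^ 2 := hse
        rw [← hj2] at h6
        linear_combination (e ^ 2) * hζ - h6 - (j ^ 2 * (1 - s)) * hα'
      exact mul_left_cancel₀ (mul_ne_zero (mul_ne_zero h2K hj0) hcα0) h5
    linear_combination (-(x)) * e2 - (c x) * e1

end Pool.Agent.H330.Symp
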