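import Pool.Agent.H330.SympForm

namespace Pool.Agent.H330.Symp

open Module Pool.Agent.H330 Pool.Agent.H330.Minus

variable {F K : Type} [Field F] [Fintype F] [Field K] [Fintype K] [Algebra F K] {m : ℕ}

theorem bar_iter {s : K} (hs : bar F K m s = s) (k : ℕ) : s ^ (Fintype.card F ^ (k * m)) = s := by
  induction k with
  | zero => simp
  | succ n ih =>
    have h5 : s ^ (Fintype.card F ^ m) = s := by rw [← bar_apply, hs]
    rw [add_mul, one_mul, pow_add, pow_mul, ih, h5]

/-- an element of `D` whose square lies in `P` lies in `P`, when `m` is odd -/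
theorem mem_of_sq_mem (hq : Odd (Fintype.card F)) (hmo : Odd m) (P : IntermediateField F K)
    {s : K} (hs : bar F K m s = s) (hP : s ^ 2 ∈ P) : s ∈ P := by
  have h2 : (2 : K) ≠ 0 := two_ne hq
  set q := Fintype.card F with hqdef
  set k := finrank F P with hk
  have h1 : (s ^ (q ^ k)) ^ 2 = s ^ 2 := by
    rw [← pow_mul, mul_comm, pow_mul]
    exact pow_of_mem P _ hP
  have h3 : (s ^ (q ^ k) - s) * (s ^ (q ^ k) + s) = 0 := by linear_combination h1
  rcases mul_eq_zero.mp h3 with h4 | h4
  · exact mem_of_pow P s (sub_eq_zero.mp h4)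
  · have h5 : s ^ (q ^ k) = -s := eq_neg_of_add_eq_zero_left h4
    have h6 : ∀ n : ℕ, s ^ (q ^ (k * n)) = (-1) ^ n * s := by
      intro n
      induction n with
      | zero => simp
      | succ n ih =>
        have hodd : Odd (q ^ k) := hq.pow
        rw [mul_add, mul_one, pow_add, pow_mul, ih, mul_pow, h5, ← pow_mul, mul_comm n (q ^ k),
          pow_mul, hodd.neg_one_pow, pow_succ]
        ring
    have h7 := h6 m
    rw [bar_iter hs k, hmo.neg_one_pow] at h7
    have h8 : s = 0 := by
      have : 2 * s = 0 := by linear_combination h7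
      exact (mul_eq_zero.mp this).resolve_left h2
    rw [h8]; exact zero_mem P

/-- the elements by which multiplication commutes with `h` -/
def PP (h : K ≃ₗ[F] K) : IntermediateField F K :=
  { carrier := {x | ∀ u, h (x * u) = x * h u}
    mul_mem' := by
      intro a b ha hb u
      rw [mul_assoc, ha, hb, mul_assoc]
    one_mem' := fun u => by rw [one_mul, one_mul]
    add_mem' := by
      intro a b ha hb u
      rw [add_mul, map_add, ha, hb, add_mul]
    zero_mem' := fun u => by rw [zero_mul, zero_mul, map_zero]
    algebraMap_mem' := by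
      intro r u
      rw [← Algebra.smul_def, ← Algebra.smul_def, map_smul]
    inv_mem' := by
      intro x hx u
      by_cases hx0 : x = 0
      · subst hx0
        rw [inv_zero, zero_mul, zero_mul, map_zero]
      · have h3 := hx (x⁻¹ * u)
        rw [← mul_assoc, mul_inv_cancel₀ hx0, one_mul] at h3
        rw [h3, ← mul_assoc, inv_mul_cancel₀ hx0, one_mul] }

theorem mem_PP {h : K ≃ₗ[F] K} {x : K} : x ∈ PP h ↔ ∀ u, h (x * u) = x * h u := Iff.rfl

/-- decomposition `K = D ⊕ D j` -/
theorem decomp (hq : Odd (Fintype.card F)) (hm : finrank F K = 2 * m) {j : K} (hj0 : j ≠ 0)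
    (hjb : bar F K m j = -j) (x : K) :
    ∃ a b : K, bar F K m a = a ∧ bar F K m b = b ∧ x = a + b * j := by
  have h2 : (2 : K) ≠ 0 := two_ne hq
  have h3 : bar F K m (2 : K) = 2 := map_ofNat _ 2
  refine ⟨(x + bar F K m x) / 2, (x - bar F K m x) / (2 * j), ?_, ?_, ?_⟩
  · rw [map_div₀, map_add, bar_bar hm, h3, add_comm]
  · rw [map_div₀, map_sub, bar_bar hm, map_mul, h3, hjb]
    rw [div_eq_div_iff (mul_ne_zero h2 (neg_ne_zero.mpr hj0)) (mul_ne_zero h2 hj0)]
    ring
  · field_simp; ring

theorem coreK (hq : Odd (Fintype.card F)) (hm : finrank F K = 2 * m) (hmo : Odd m) (hm2 : 2 ≤ m)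
    {lam : K} (hl : bar F K m lam = -lam) (hl0 : lam ≠ 0)
    {j : K} {ν : F} (hν0 : ν ≠ 0) (hj2 : j ^ 2 = algebraMap F K ν) (hjb : bar F K m j = -j)
    {t : K} (ht : ∀ k : ℕ, 0 < k → t ^ k = 1 → Fintype.card F ^ m - 1 ≤ k) (ht0 : t ≠ 0)
    {s e ζ : K} (hs : bar F K m s = s) (he : bar F K m e = e) (he0 : e ≠ 0)
    (hζ : ζ * bar F K m ζ = 1) (hts : t ^ 2 * (1 - s) = algebraMap F K ν * (1 + s))
    (h : K ≃ₗ[F] K) (hiso : ∀ x y, bil F K m lam (h x) (h y) = bil F K m lam x y)
    (h1 : (∀ x, h (j * x) = j * h x) ∨ (∀ x, h (j * x) = -(j * h x)))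
    (h2 : (∀ x, h (s * j * x + e * ζ * bar F K m x)
        = s * j * h x + e * ζ * bar F K m (h x)) ∨
      (∀ x, h (s * j * x + e * ζ * bar F K m x)
        = -(s * j * h x + e * ζ * bar F K m (h x)))) :
    (∀ x, h x = x) ∨ (∀ x, h x = -x) := by
  have h2K : (2 : K) ≠ 0 := two_ne hq
  have hν : algebraMap F K ν ≠ 0 := by simpa using hν0
  have hj0 : j ≠ 0 := by
    rintro rfl
    rw [zero_pow (by norm_num)] at hj2
    exact hν hj2.symm
  have hm0 : 0 < m := hmo.pos
  set c := bar F K m with hc
  have hcc : ∀ x, c (c x) = x := bar_bar hm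
  have hs0 : s ≠ 0 := by
    rintro rfl
    have h3 : t ^ 2 = j ^ 2 := by rw [hj2]; linear_combination hts
    have hq3 : 3 ≤ Fintype.card F := by
      have : 1 < Fintype.card F := Fintype.one_lt_card
      obtain ⟨r, hr⟩ := hq
      omega
    have h5 : t ^ (2 * (Fintype.card F - 1)) = 1 := by
      rw [pow_mul, h3, hj2, ← map_pow, FiniteField.pow_card_sub_one_eq_one ν hν0, map_one]
    have h6 := ht _ (by omega) h5
    have h7 : Fintype.card F ^ 2 ≤ Fintype.card F ^ m :=
      Nat.pow_le_pow_right (by omega) hm2
    have h8 : 3 * Fintype.card F ≤ Fintype.card F ^ 2 := by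
      rw [sq]; exact Nat.mul_le_mul_right _ hq3
    omega
  have hs1 : 1 - s ≠ 0 := by
    intro h3
    rw [h3, mul_zero] at hts
    rcases mul_eq_zero.mp hts.symm with h4 | h4
    · exact hν h4
    · have : (2 : K) = 0 := by linear_combination h3 + h4
      exact h2K this
  -- multiplication by `s`
  have hsP : s ∈ PP h := by
    have hcalc : ∀ x, j * (s * j * x + e * ζ * c x) + (s * j * (j * x) + e * ζ * c (j * x))
        = algebraMap F K ν * (2 * (s * x)) := by
      intro x
      rw [map_mul, hjb, ← hj2]; ring
    have hν2 : ∀ x y : K, algebraMap F K ν * (2 * x) = algebraMap F K ν * (2 * y) → x = y := by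
      intro x y hxy
      exact mul_left_cancel₀ h2K (mul_left_cancel₀ hν hxy)
    have hlin : ∀ x, h (algebraMap F K ν * (2 * x)) = algebraMap F K ν * (2 * h x) := by
      intro x
      rw [← Algebra.smul_def, ← Algebra.smul_def, map_smul, two_mul, map_add, two_mul]
    rcases h1 with h1 | h1 <;> rcases h2 with h2 | h2
    · intro x
      apply hν2
      rw [← hlin, ← hcalc, ← hcalc, map_add, h1, h2, h2, h1]
    · -- h s = - s h
      have h3 : ∀ x, h (s * x) = -(s * h x) := by
        intro x
        apply hν2
        have e1 : algebraMap F K ν * (2 * -(s * h x)) = -(algebraMap F K ν * (2 * (s * h x))) := by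
          ring
        rw [e1, ← hlin, ← hcalc, ← hcalc, map_add, h1, h2, h2, h1]
        ring
      have h4 : s ^ 2 ∈ PP h := by
        intro u
        rw [sq, mul_assoc, h3, h3]; ring
      exact mem_of_sq_mem hq hmo _ hs h4
    · have h3 : ∀ x, h (s * x) = -(s * h x) := by
        intro x
        apply hν2
        have e1 : algebraMap F K ν * (2 * -(s * h x)) = -(algebraMap F K ν * (2 * (s * h x))) := by
          ring
        have e2 := hcalc (h x)
        rw [e1, ← hlin, ← hcalc, ← e2, map_add, h1, h2, h2, h1]
        have e3 : c (-(j * h x)) = -(c (j * h x)) := map_neg c _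
        rw [e3]
        ring
      have h4 : s ^ 2 ∈ PP h := by
        intro u
        rw [sq, mul_assoc, h3, h3]; ring
      exact mem_of_sq_mem hq hmo _ hs h4
    · intro x
      apply hν2
      rw [← hlin, ← hcalc, ← hcalc, map_add, h1, h2, h2, h1]
      have e3 : c (-(j * h x)) = -(c (j * h x)) := map_neg c _
      rw [e3]
      ring
  have ht2 : t ^ 2 ∈ PP h := by
    have : t ^ 2 = algebraMap F K ν * (1 + s) / (1 - s) := by
      rw [eq_div_iff hs1]; exact hts
    rw [this]
    exact div_mem (mul_mem (IntermediateField.algebraMap_mem _ ν) (add_mem (one_mem _) hsP))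
      (sub_mem (one_mem _) hsP)
  have hD : ∀ d, c d = d → ∀ u, h (d * u) = d * h u := fun d hd =>
    DD_le hq hm hm0 ht ht0 (PP h) ht2 hd
  set β : K := h 1 with hβ
  have hβ0 : β ≠ 0 := by
    intro h0
    have : (1 : K) = 0 := h.injective (by rw [← hβ, h0, map_zero])
    exact one_ne_zero this
  rcases h1 with h1 | h1
  · -- h x = β x
    have hx : ∀ x, h x = x * β := by
      intro x
      obtain ⟨a, b, ha, hb, rfl⟩ := decomp hq hm hj0 hjb x
      rw [map_add, ← mul_one a, hD a ha, hD b hb, ← mul_one j, h1, ← hβ]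
      ring
    have h4ne : (4 : K) ≠ 0 := by
      have : (4 : K) = 2 * 2 := by norm_num
      rw [this]; exact mul_ne_zero h2K h2K
    have hcβ : c β = β := by
      rcases h2 with h2 | h2
      · have h3 := h2 1
        rw [hx, hx, map_one, one_mul] at h3
        have h4 : e * ζ * (c β - β) = 0 := by linear_combination -h3
        have hζ0 : ζ ≠ 0 := by rintro rfl; simp at hζ
        exact sub_eq_zero.mp ((mul_eq_zero.mp h4).resolve_left (mul_ne_zero he0 hζ0))
      · exfalso
        have h3 := h2 1
        rw [hx, hx, map_one, one_mul] at h3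
        have h4 := h2 j
        rw [hx, hx, map_mul c, hjb] at h4
        have h5 : 4 * (s * (j * (j * β))) = 0 := by
          linear_combination j * h3 + h4
        exact (mul_ne_zero h4ne (mul_ne_zero hs0 (mul_ne_zero hj0 (mul_ne_zero hj0 hβ0)))) h5
    have hββ : β * β = 1 := by
      have h3 : (β * β - 1) * 1 = 0 := by
        apply bil_nondeg' hm hl hl0
        intro x
        have h4 := hiso x 1
        rw [hx, hx, mul_comm x β, bil_D lam x _ (show bar F K m β = β from hcβ)] at h4
        have h5 : (β * β - 1) * 1 = β * (1 * β) - 1 := by ring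
        rw [h5, map_sub, h4, sub_self]
      linear_combination h3
    have h3 : (β - 1) * (β + 1) = 0 := by linear_combination hββ
    rcases mul_eq_zero.mp h3 with h4 | h4
    · left; intro x; rw [hx, sub_eq_zero.mp h4, mul_one]
    · right; intro x; rw [hx, eq_neg_of_add_eq_zero_left h4]; ring
  · exfalso
    have h4ne : (4 : K) ≠ 0 := by
      have : (4 : K) = 2 * 2 := by norm_num
      rw [this]; exact mul_ne_zero h2K h2K
    have hj1 : h j = -(j * β) := by
      have := h1 1
      rwa [mul_one] at this
    have hx : ∀ x, h x = c x * β := by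
      intro x
      obtain ⟨a, b, ha, hb, rfl⟩ := decomp hq hm hj0 hjb x
      have ha' : c a = a := ha
      have hb' : c b = b := hb
      rw [map_add, map_add, map_mul c, ha', hb', hjb, hD b hb, hj1]
      nth_rewrite 1 [← mul_one a]
      rw [hD a ha, ← hβ]
      ring
    rcases h2 with h2 | h2
    · have h3 := h2 1
      rw [hx, hx, map_one, one_mul, map_add, map_mul c, map_mul c, map_mul c, map_mul c, hs, he, hjb,
        map_one] at h3
      have h4 := h2 j
      simp only [hx, map_add, map_mul c, hs, he, hjb, map_neg] at h4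
      have h5 : 4 * (s * (j * (j * β))) = 0 := by
        linear_combination h4 - j * h3
      exact (mul_ne_zero h4ne (mul_ne_zero hs0 (mul_ne_zero hj0 (mul_ne_zero hj0 hβ0)))) h5
    · have h3 := h2 1
      rw [hx, hx, map_one, one_mul, map_add, map_mul c, map_mul c, map_mul c, map_mul c, hs, he, hjb,
        map_one] at h3
      have h4 : e * (c ζ * β + ζ * c β) = 0 := by linear_combination h3
      have h5 : c ζ * β + ζ * c β = 0 := (mul_eq_zero.mp h4).resolve_left he0
      -- isometry
      have h6 : β * c β = -1 := by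
        have h7 : (β * c β + 1) * 1 = 0 := by
          apply bil_nondeg' hm hl hl0
          intro x
          have h8 := hiso x 1
          rw [hx, hx, bil_apply, bil_apply] at h8
          rw [bil_apply]
          rw [← hc] at h8 ⊢
          have h9 : Algebra.trace F K (lam * (c x * β) * c (c 1 * β))
              = - Algebra.trace F K (lam * x * (β * c β)) := by
            rw [← trace_bar (m := m) (lam * (c x * β) * c (c 1 * β)), ← hc, ← map_neg]
            congr 1
            simp only [map_mul c, hcc, hl, map_one]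
            ring
          rw [h9] at h8
          have h10 : lam * x * c ((β * c β + 1) * 1) = lam * x * (β * c β) + lam * x * c 1 := by
            rw [mul_one, map_add, map_mul c, hcc]; ring
          rw [h10, map_add, ← h8]; ring
        linear_combination h7
      have hζ' : ζ * c ζ = 1 := hζ
      have h7 : (β - ζ) * (β + ζ) = 0 := by
        linear_combination (ζ * β) * h5 - ζ ^ 2 * h6 - β ^ 2 * hζ'
      have h8 : β * c β = 1 := by
        rcases mul_eq_zero.mp h7 with h9 | h9
        · rw [sub_eq_zero.mp h9]; exact hζ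
        · rw [eq_neg_of_add_eq_zero_left h9, map_neg, neg_mul_neg]; exact hζ
      rw [h6] at h8
      exact h2K (by linear_combination -h8)

end Pool.Agent.H330.Symp
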