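import Pool.Agent.H330.SympExcl

namespace Pool.Agent.H330.Symp

open Module Pool.Agent.H330 Pool.Agent.H330.Minus

variable {F K : Type} [Field F] [Fintype F] [Field K] [Fintype K] [Algebra F K] {m : ℕ}

/-- multiplication by `j` -/
noncomputable def JJ (F : Type) {K : Type} [Field F] [Field K] [Algebra F K] (j : K) :
    K →ₗ[F] K := LinearMap.mulLeft F j

theorem JJ_apply (j x : K) : JJ F j x = j * x := rfl

variable (F m) in
/-- `x ↦ s j x + e ζ bar(x)` -/
noncomputable def JP (s j e ζ : K) : K →ₗ[F] K where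
  toFun x := s * j * x + e * ζ * bar F K m x
  map_add' x y := by rw [map_add]; ring
  map_smul' c x := by
    rw [map_smul, mul_smul_comm, mul_smul_comm, RingHom.id_apply, smul_add]

theorem JP_apply (s j e ζ x : K) : JP F m s j e ζ x = s * j * x + e * ζ * bar F K m x := rfl

theorem skew_JJ (hm : finrank F K = 2 * m) {lam : K} (hl : bar F K m lam = -lam) {ν : F} {j : K}
    (hj2 : j ^ 2 = algebraMap F K ν) (hjb : bar F K m j = -j) :
    SkewRoot m lam ν (JJ F j) := by
  refine ⟨fun d _ x => ?_, fun x => ?_, fun x y => ?_⟩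
  · rw [JJ_apply, JJ_apply]; ring
  · rw [JJ_apply, JJ_apply, Algebra.smul_def, ← hj2]; ring
  · have h := bil_skew hm hl x y (α := j) (β := 0) hjb
    rw [zero_mul, zero_mul, add_zero, add_zero] at h
    exact h

theorem skew_JP (hm : finrank F K = 2 * m) {lam : K} (hl : bar F K m lam = -lam) {ν : F}
    {j s e ζ : K} (hj2 : j ^ 2 = algebraMap F K ν) (hjb : bar F K m j = -j)
    (hs : bar F K m s = s) (he : bar F K m e = e) (hζ : ζ * bar F K m ζ = 1)
    (hse : algebraMap F K ν * (1 - s ^ 2) = e ^ 2) :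
    SkewRoot m lam ν (JP F m s j e ζ) := by
  refine ⟨fun d hd x => ?_, fun x => ?_, fun x y => ?_⟩
  · rw [JP_apply, JP_apply, map_mul, hd]; ring
  · rw [JP_apply, JP_apply]
    simp only [map_add, map_mul, bar_bar hm, hs, he, hjb]
    rw [Algebra.smul_def]
    linear_combination (s ^ 2 * x) * hj2 + (e ^ 2 * x) * hζ - x * hse
  · exact bil_skew hm hl x y (by rw [map_mul, hs, hjb]; ring)

/-- the index type of the excluded values -/
abbrev Idx (F : Type) : Type := (F × F × F) ⊕ ((F × Option (F × F)) ⊕ (F × Option (F × F)))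

theorem card_Idx : Fintype.card (Idx F) = 3 * Fintype.card F ^ 3 + 2 * Fintype.card F := by
  simp only [Fintype.card_sum, Fintype.card_prod, Fintype.card_option]
  ring

/-- All the data. -/
theorem exists_pairs (hq : Odd (Fintype.card F)) (hm : finrank F K = 2 * m) (hmp : m.Prime)
    (hm7 : 7 ≤ m) :
    ∃ (ν : F) (j t s e ζ lam p r r' p2 r2 r2' : K)
      (P1 : Pair m lam ν (JJ F j) (JP F m s j e ζ) 1 p r r')
      (P2 : Pair m lam ν (JP F m s j e ζ) (JJ F j) 1 p2 r2 r2'),
      ν ≠ 0 ∧ j ^ 2 = algebraMap F K ν ∧ bar F K m j = -j ∧ j ^ Fintype.card F = -j ∧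
      t ≠ 0 ∧ (∀ k : ℕ, 0 < k → t ^ k = 1 → Fintype.card F ^ m - 1 ≤ k) ∧
      bar F K m s = s ∧ bar F K m e = e ∧ e ≠ 0 ∧ 1 + s ≠ 0 ∧
      t ^ 2 * (1 - s) = algebraMap F K ν * (1 + s) ∧
      algebraMap F K ν * (1 - s ^ 2) = e ^ 2 ∧ ζ * bar F K m ζ = 1 ∧
      bar F K m lam = -lam ∧ lam ≠ 0 ∧ P1.Excl1 ∧ P1.Excl ∧ P2.Excl := by
  classical
  have hmo : Odd m := hmp.odd_of_ne_two (by omega)
  have h2F : (2 : F) ≠ 0 := two_ne_zero' hq
  have h2K : (2 : K) ≠ 0 := two_ne hq
  obtain ⟨ν, hν⟩ := exists_nonsq hq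
  have hν0 : ν ≠ 0 := by rintro rfl; exact hν (IsSquare.zero)
  have hνK : algebraMap F K ν ≠ 0 := by simpa using hν0
  obtain ⟨j, hj2, hjb, hjq⟩ := exists_j hq hm hmo hν
  have hj0 : j ≠ 0 := by
    rintro rfl
    rw [zero_pow (by norm_num)] at hj2
    exact hνK hj2.symm
  obtain ⟨t, s, e, ht0, ht, htb, hs, he, he0, hs1, hts, hse⟩ :=
    exists_ste hq hm (by omega : 2 ≤ m) hν0
  have hsF : ∀ a0 a1 : F, algebraMap F K a0 + algebraMap F K a1 * s = 0 → a0 = 0 ∧ a1 = 0 := by
    intro a0 a1 h
    by_cases ha1 : a1 = 0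
    · subst ha1
      rw [map_zero, zero_mul, add_zero] at h
      exact ⟨(algebraMap F K).injective (by rw [h, map_zero]), rfl⟩
    · exfalso
      have ha1K : algebraMap F K a1 ≠ 0 := by simpa using ha1
      have hsA : s = algebraMap F K (-a0 / a1) := by
        rw [map_div₀, map_neg, eq_div_iff ha1K]
        linear_combination h
      set σ := -a0 / a1 with hσ
      have hs1' : (1 : F) - σ ≠ 0 := by
        intro h0
        have h1 : (1 : K) - s = 0 := by rw [hsA, ← map_one (algebraMap F K), ← map_sub, h0, map_zero]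
        rw [h1, mul_zero] at hts
        have h3 : (1 : K) + s = 0 := (mul_eq_zero.mp hts.symm).resolve_left hνK
        exact hs1 h3
      have ht2 : t ^ 2 = algebraMap F K (ν * (1 + σ) / (1 - σ)) := by
        rw [map_div₀, map_mul, map_add, map_sub, map_one, ← hsA, eq_div_iff]
        · exact hts
        · rw [hsA, ← map_one (algebraMap F K), ← map_sub]
          exact (map_ne_zero (algebraMap F K)).mpr hs1'
      set y := ν * (1 + σ) / (1 - σ) with hy
      have hy0 : y ≠ 0 := by
        intro h0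
        rw [h0, map_zero] at ht2
        exact pow_ne_zero 2 ht0 ht2
      have h5 : t ^ (2 * (Fintype.card F - 1)) = 1 := by
        rw [pow_mul, ht2, ← map_pow, FiniteField.pow_card_sub_one_eq_one _ hy0, map_one]
      have hq3 : 3 ≤ Fintype.card F := by
        have : 1 < Fintype.card F := Fintype.one_lt_card
        obtain ⟨r, hr⟩ := hq
        omega
      have h6 := ht _ (by omega) h5
      have h7 : Fintype.card F ^ 2 ≤ Fintype.card F ^ m :=
        Nat.pow_le_pow_right (by omega) (by omega)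
      have h8 : 3 * Fintype.card F ≤ Fintype.card F ^ 2 := by
        rw [_root_.sq]; exact Nat.mul_le_mul_right _ hq3
      omega
  obtain ⟨ζ, hζ, hi1, hi2⟩ := exists_zeta hq hm hm7 hj0 hjb he0 hs hsF
  have hcc : ∀ x : K, bar F K m (bar F K m x) = x := bar_bar hm
  have hc2 : bar F K m (2 : K) = 2 := map_ofNat _ 2
  set p := pp F m e ζ with hp
  set f := ff F m j e ζ with hf
  have hpD : bar F K m p = p := by
    rw [hp, pp, map_div₀, map_mul, map_add, hcc, he, hc2, add_comm]
  have hfD : bar F K m f = f := by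
    rw [hf, ff, map_div₀, map_mul, map_sub, hcc, he, map_mul, hc2, hjb]
    rw [div_eq_div_iff (mul_ne_zero h2K (neg_ne_zero.mpr hj0)) (mul_ne_zero h2K hj0)]
    ring
  have heζ : e * ζ = p + f * j := by
    rw [hp, hf, pp, ff]
    field_simp
    ring
  set r := s + f with hr
  set r' := s - f with hr'
  have hrD : bar F K m r = r := by rw [hr, map_add, hs, hfD]
  have hr'D : bar F K m r' = r' := by rw [hr', map_sub, hs, hfD]
  have hr0 : r ≠ 0 := by
    intro h
    have := hi1 0 0 1 0 (by rw [h]; simp)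
    exact one_ne_zero this.2.2.1
  have hceζ : e * bar F K m ζ = p - f * j := by
    have := congrArg (bar F K m) heζ
    rw [map_mul, he, map_add, map_mul, hpD, hfD, hjb] at this
    rw [this]; ring
  have hprel : p ^ 2 - algebraMap F K ν * f ^ 2 = e ^ 2 := by
    have h1 : (p + f * j) * (p - f * j) = e ^ 2 := by
      rw [← heζ, ← hceζ]
      linear_combination (e ^ 2) * hζ
    rw [← h1, ← hj2]; ring
  -- values
  set J0 := JJ F j with hJ0
  set J1 := JP F m s j e ζ with hJ1
  have hJ01 : J0 1 = j := by rw [hJ0, JJ_apply, mul_one]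
  have hJ11 : J1 1 = p + r * j := by
    rw [hJ1, JP_apply, map_one, mul_one, mul_one, heζ, hr]; ring
  let v : Idx F → K := fun x => match x with
    | Sum.inl (k0, k1, k2) => algebraMap F K k0 + algebraMap F K k1 * p + algebraMap F K k2 * r
    | Sum.inr (Sum.inl (k, t)) =>
        algebraMap F K k * dl m J1 (bs J1 1 (J0 1) t) / (j * bar F K 1 (dl m J1 1 / j))
    | Sum.inr (Sum.inr (k, t)) =>
        algebraMap F K k * dl m J0 (bs J0 1 (J1 1) t) / (j * bar F K 1 (dl m J0 1 / j))
  obtain ⟨θ, hθ0, hθD, hθ1, hθ2, hθv⟩ := exists_theta hq hm hm7 v (card_Idx (F := F)).le r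
  have hl : bar F K m (θ / j) = -(θ / j) := by
    rw [map_div₀, hθD, hjb, div_neg]
  have hl0 : θ / j ≠ 0 := div_ne_zero hθ0 hj0
  have hS0 : SkewRoot m (θ / j) ν J0 := skew_JJ hm hl hj2 hjb
  have hS1 : SkewRoot m (θ / j) ν J1 := skew_JP hm hl hj2 hjb hs he hζ hse
  have hab : bil F K m (θ / j) 1 (J0 1) = 0 := by
    rw [bil_apply, hJ01, hjb]
    have : θ / j * 1 * -j = -θ := by field_simp
    rw [this, map_neg, hθ1, neg_zero]
  have hab1 : bil F K m (θ / j) 1 (J1 1) = 0 := by
    rw [bil_apply, hJ11, map_add, map_mul (bar F K m), hpD, hrD, hjb]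
    have h1 : θ / j * 1 * (p + r * -j) = θ / j * p - θ * r := by
      field_simp
      ring
    rw [h1, map_sub, hθ2, sub_zero]
    apply trace_zero h2F (m := m)
    rw [map_mul, hl, hpD]; ring
  have P1 : Pair m (θ / j) ν J0 J1 1 p r r' :=
    { two := h2F, hm := hm, hl := hl, hl0 := hl0, ns := hν, s0 := hS0, s1 := hS1,
      a0 := one_ne_zero, ab := hab, ab1 := hab1, p_D := hpD, r_D := hrD, r'_D := hr'D,
      eq1 := by rw [hJ11, hJ01, mul_one]
      eq2 := by
        rw [hJ01, hJ1, JP_apply, hjb, mul_one]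
        rw [hr']
        linear_combination (-j) * heζ + (s - f) * hj2
      ind := hi1 }
  have P2 : Pair m (θ / j) ν J1 J0 1 (-p / r) (1 / r) (r - p ^ 2 / (algebraMap F K ν * r)) :=
    { two := h2F, hm := hm, hl := hl, hl0 := hl0, ns := hν, s0 := hS1, s1 := hS0,
      a0 := one_ne_zero, ab := hab1, ab1 := hab,
      p_D := by rw [map_div₀, map_neg, hpD, hrD]
      r_D := by rw [map_div₀, map_one, hrD]
      r'_D := by
        rw [map_sub, map_div₀, map_mul, map_pow, hpD, hrD, AlgEquiv.commutes]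
      eq1 := by
        rw [hJ11, hJ01]
        field_simp
        ring
      eq2 := by
        rw [hJ11, hJ0, JJ_apply, mul_one]
        field_simp
        linear_combination (r ^ 2) * hj2
      ind := by
        intro c0 c1 c2 c3 h
        have h1 : algebraMap F K c0 * r - algebraMap F K c1 * p + algebraMap F K c2
            + algebraMap F K c3 * (2 * (s * r) - 1) = 0 := by
          have h2 : r * (r - p ^ 2 / (algebraMap F K ν * r)) = 2 * (s * r) - 1 := by
            field_simp
            rw [hr]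
            linear_combination -hprel + hse
          have h3 := congrArg (fun x => r * x) h
          simp only [mul_zero] at h3
          have h4 : r * (algebraMap F K c0 * 1 + algebraMap F K c1 * (-p / r)
              + algebraMap F K c2 * (1 / r)
              + algebraMap F K c3 * (r - p ^ 2 / (algebraMap F K ν * r)))
              = algebraMap F K c0 * r - algebraMap F K c1 * p + algebraMap F K c2
                + algebraMap F K c3 * (r * (r - p ^ 2 / (algebraMap F K ν * r))) := by
            field_simp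
            ring
          rw [h4, h2] at h3
          exact h3
        obtain ⟨k0, k1, k2, k3⟩ := hi2 (c2 - c3) (-c1) c0 (2 * c3) (by
          rw [map_sub, map_neg, map_mul, map_ofNat]
          linear_combination h1)
        have hc3 : c3 = 0 := (mul_eq_zero.mp k3).resolve_left h2F
        rw [hc3, sub_zero] at k0
        exact ⟨k2, neg_eq_zero.mp k1, k0, hc3⟩ }
  refine ⟨ν, j, t, s, e, ζ, θ / j, p, r, r', _, _, _, P1, P2, hν0, hj2, hjb, hjq, ht0, ht, hs, he,
    he0, hs1, hts, hse, hζ, hl, hl0, ?_, ?_, ?_⟩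
  · intro k0 k1 k2 heq
    apply hθv (Sum.inl (k0, k1, k2))
    have e1 : TT F m (θ / j) 1 (J0 1) = -2 * θ := by
      rw [hJ01]
      unfold TT
      rw [map_one, hjb]
      field_simp
      ring
    rw [e1, map_mul, map_neg, map_ofNat] at heq
    have h3 : -2 * (bar F K 1 θ) = -2 * ((algebraMap F K k0 + algebraMap F K k1 * p
        + algebraMap F K k2 * r) * θ) := by linear_combination heq
    exact mul_left_cancel₀ (neg_ne_zero.mpr h2K) h3
  · apply P1.excl_of hθ0 hj0 _ (hS1.delta_ne hq hm hmo hν one_ne_zero)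
    intro k t
    exact hθv (Sum.inr (Sum.inl (k, t)))
  · apply P2.excl_of hθ0 hj0 _ (hS0.delta_ne hq hm hmo hν one_ne_zero)
    intro k t
    exact hθv (Sum.inr (Sum.inr (k, t)))

end Pool.Agent.H330.Symp
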