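import Pool.Agent.H330.SympGroup

namespace Pool.Agent.H330.Symp

open Module Pool.Agent.H330 Pool.Agent.H330.Minus

variable {F K : Type} [Field F] [Fintype F] [Field K] [Fintype K] [Algebra F K] {m : ℕ}

theorem exists_nonsq (hq : Odd (Fintype.card F)) : ∃ ν : F, ¬ IsSquare ν :=
  FiniteField.exists_nonsquare (F := F) (by
    intro h3
    have := (FiniteField.even_card_iff_char_two (F := F)).mp h3
    obtain ⟨r, hr⟩ := hq
    omega)

/-- the basic parameters -/
theorem exists_ste (hq : Odd (Fintype.card F)) (hm : finrank F K = 2 * m) (hm2 : 2 ≤ m)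
    {ν : F} (hν0 : ν ≠ 0) :
    ∃ t s e : K, t ≠ 0 ∧ (∀ k : ℕ, 0 < k → t ^ k = 1 → Fintype.card F ^ m - 1 ≤ k) ∧
      bar F K m t = t ∧ bar F K m s = s ∧ bar F K m e = e ∧ e ≠ 0 ∧ 1 + s ≠ 0 ∧
      t ^ 2 * (1 - s) = algebraMap F K ν * (1 + s) ∧
      algebraMap F K ν * (1 - s ^ 2) = e ^ 2 := by
  have h2K : (2 : K) ≠ 0 := two_ne hq
  have hν : algebraMap F K ν ≠ 0 := by simpa using hν0
  have hc2 : bar F K m (2 : K) = 2 := map_ofNat _ 2
  have hcν : bar F K m (algebraMap F K ν) = algebraMap F K ν := AlgEquiv.commutes _ _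
  obtain ⟨t, ht0, htb, ht⟩ := exists_t hm (by omega : 0 < m)
  have hq3 : 3 ≤ Fintype.card F := by
    have : 1 < Fintype.card F := Fintype.one_lt_card
    obtain ⟨r, hr⟩ := hq
    omega
  have h7 : Fintype.card F ^ 2 ≤ Fintype.card F ^ m :=
    Nat.pow_le_pow_right (by omega) hm2
  have h8 : 3 * Fintype.card F ≤ Fintype.card F ^ 2 := by
    rw [sq]; exact Nat.mul_le_mul_right _ hq3
  have htν : t ^ 2 + algebraMap F K ν ≠ 0 := by
    intro h3
    have h4 : t ^ 2 = algebraMap F K (-ν) := by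
      rw [map_neg]; exact eq_neg_of_add_eq_zero_left h3
    have h5 : t ^ (2 * (Fintype.card F - 1)) = 1 := by
      rw [pow_mul, h4, ← map_pow,
        FiniteField.pow_card_sub_one_eq_one _ (neg_ne_zero.mpr hν0), map_one]
    have h6 := ht _ (by omega) h5
    omega
  refine ⟨t, (t ^ 2 - algebraMap F K ν) / (t ^ 2 + algebraMap F K ν),
    2 * algebraMap F K ν * t / (t ^ 2 + algebraMap F K ν), ht0, ht, htb, ?_, ?_, ?_, ?_, ?_, ?_⟩
  · rw [map_div₀, map_sub, map_add, map_pow, htb, hcν]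
  · rw [map_div₀, map_mul, map_mul, map_add, map_pow, htb, hcν, hc2]
  · exact div_ne_zero (mul_ne_zero (mul_ne_zero h2K hν) ht0) htν
  · have : 1 + (t ^ 2 - algebraMap F K ν) / (t ^ 2 + algebraMap F K ν)
        = 2 * t ^ 2 / (t ^ 2 + algebraMap F K ν) := by
      field_simp; ring
    rw [this]
    exact div_ne_zero (mul_ne_zero h2K (pow_ne_zero 2 ht0)) htν
  · field_simp; ring
  · field_simp; ring

end Pool.Agent.H330.Symp
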