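import Pool.Agent.H330.SympUnitary2

namespace Pool.Agent.H330.Symp

open Module Pool.Agent.H330 Pool.Agent.H330.Minus

variable {F K : Type} [Field F] [Fintype F] [Field K] [Fintype K] [Algebra F K] {m : ℕ}

/-- dual vectors -/
theorem exists_dual (hm : finrank F K = 2 * m) {lam : K} (hl : bar F K m lam = -lam)
    (hl0 : lam ≠ 0) {n : ℕ} (v : Fin n → K) (hv : LinearIndependent F v) (t : Fin n → F) :
    ∃ x : K, ∀ i, bil F K m lam x (v i) = t i := by
  let f : K →ₗ[F] (Fin n → F) := LinearMap.pi (fun i => (bil F K m lam).flip (v i))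
  have hf : LinearMap.range f = ⊤ := by
    by_contra hne
    obtain ⟨g, hg0, hg⟩ := Submodule.exists_le_ker_of_lt_top _ (lt_top_iff_ne_top.mpr hne)
    have h1 : ∀ x : K, bil F K m lam x (∑ i, g (Pi.single i 1) • v i) = 0 := by
      intro x
      have h2 : g (f x) = 0 := hg ⟨x, rfl⟩
      have h3 : f x = ∑ i, (bil F K m lam x (v i)) • (Pi.single i (1 : F) : Fin n → F) := by
        ext k
        rw [Finset.sum_apply]
        simp [f, Pi.single_apply]
      rw [h3, map_sum] at h2
      rw [map_sum, ← h2]
      apply Finset.sum_congr rfl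
      intro i _
      rw [map_smul, map_smul, smul_eq_mul, smul_eq_mul, mul_comm]
    have h4 := bil_nondeg' hm hl hl0 _ h1
    have h5 := Fintype.linearIndependent_iff.mp hv _ h4
    apply hg0
    ext i
    simpa using h5 i
  obtain ⟨x, hx⟩ := LinearMap.range_eq_top.mp hf t
  exact ⟨x, fun i => by rw [← hx]; rfl⟩

/-- for `m` prime, an element of `D` stabilising a small subspace lies in `F` -/
theorem mem_F_of_stab (hm : finrank F K = 2 * m) (hmp : m.Prime) {d : K}
    (hd : bar F K m d = d) (X : Submodule F K) (hX : X ≠ ⊥) (hXm : finrank F X < m)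
    (hdX : ∀ x ∈ X, d * x ∈ X) : ∃ a : F, algebraMap F K a = d := by
  set L0 : IntermediateField F K := IntermediateField.adjoin F {d} with hL0
  have hsub : L0.toSubalgebra = Algebra.adjoin F {d} :=
    IntermediateField.adjoin_toSubalgebra _
  have hle : L0 ≤ DD F K m := by
    rw [hL0, IntermediateField.adjoin_le_iff]
    intro x hx
    rw [Set.mem_singleton_iff] at hx
    rw [hx]; exact hd
  have hdvd : finrank F L0 ∣ m := by
    have := IntermediateField.finrank_dvd_of_le_right hle
    rwa [finrank_DD hm hmp.pos] at this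
  have hstab : ∀ l ∈ L0, ∀ x ∈ X, l * x ∈ X := by
    intro l hl
    have hl' : l ∈ Algebra.adjoin F {d} := by rw [← hsub]; exact hl
    induction hl' using Algebra.adjoin_induction with
    | mem y hy =>
      rw [Set.mem_singleton_iff] at hy
      subst hy
      exact hdX
    | algebraMap r =>
      intro x hx
      rw [← Algebra.smul_def]
      exact X.smul_mem r hx
    | add y z hy hz ihy ihz =>
      intro x hx
      rw [add_mul]
      exact X.add_mem (ihy (by rw [← hsub] at hy; exact hy) x hx)
        (ihz (by rw [← hsub] at hz; exact hz) x hx)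
    | mul y z hy hz ihy ihz =>
      intro x hx
      rw [mul_assoc]
      exact ihy (by rw [← hsub] at hy; exact hy) _ (ihz (by rw [← hsub] at hz; exact hz) x hx)
  obtain ⟨x0, hx0, hx00⟩ := X.ne_bot_iff.mp hX
  rcases (Nat.dvd_prime hmp).mp hdvd with h1 | h1
  · have h2 : L0 = ⊥ := IntermediateField.finrank_eq_one_iff.mp h1
    have h3 : d ∈ L0 := IntermediateField.mem_adjoin_simple_self F d
    rw [h2, IntermediateField.mem_bot] at h3
    exact h3
  · exfalso
    let f : L0 →ₗ[F] X :=
      { toFun := fun l => ⟨l * x0, hstab l l.2 x0 hx0⟩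
        map_add' := fun a b => by ext; simp [add_mul]
        map_smul' := fun c a => by
          ext
          simp }
    have hf : Function.Injective f := by
      intro a b hab
      have h3 : (a : K) * x0 = b * x0 := congrArg Subtype.val hab
      exact Subtype.ext (mul_right_cancel₀ hx00 h3)
    have := LinearMap.finrank_le_finrank_of_injective hf
    omega

/-- The twist of an automorphism normalising the algebra of multiplications by `D`. -/
theorem exists_twist (h : K ≃ₗ[F] K)
    (hn : ∀ d, bar F K m d = d → ∃ d', bar F K m d' = d' ∧ ∀ y, h (d * y) = d' * h y) :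
    ∃ i : ℕ, ∀ d, bar F K m d = d → ∀ y, h (d * y) = bar F K i d * h y := by
  classical
  set a : K := h 1 with ha
  have ha0 : a ≠ 0 := by
    intro h0
    have : (1 : K) = 0 := h.injective (by rw [← ha, h0, map_zero])
    exact one_ne_zero this
  have h1 : ∀ d ∈ DD F K m, h d / a ∈ DD F K m ∧ ∀ y, h (d * y) = h d / a * h y := by
    intro d hd
    obtain ⟨d', hd', h2⟩ := hn d hd
    have h3 := h2 1
    rw [mul_one, ← ha] at h3
    have h4 : h d / a = d' := by rw [h3, mul_div_cancel_right₀ _ ha0]
    rw [h4]
    exact ⟨hd', h2⟩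
  let η : DD F K m →ₐ[F] DD F K m :=
    { toFun := fun d => ⟨h d / a, (h1 d d.2).1⟩
      map_one' := by
        ext
        change h 1 / a = 1
        exact div_self ha0
      map_mul' := by
        intro x y
        ext
        change h (x * y) / a = h x / a * (h y / a)
        rw [(h1 x x.2).2]; ring
      map_zero' := by
        ext
        change h 0 / a = 0
        rw [map_zero, zero_div]
      map_add' := by
        intro x y
        ext
        change h (x + y) / a = h x / a + h y / a
        rw [map_add, add_div]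
      commutes' := by
        intro r
        ext
        change h (algebraMap F K r) / a = algebraMap F K r
        rw [Algebra.algebraMap_eq_smul_one, map_smul, ← ha, smul_div_assoc, div_self ha0] }
  have hbij : Function.Bijective η :=
    Finite.injective_iff_bijective.mp η.toRingHom.injective
  obtain ⟨i, hi⟩ := (FiniteField.bijective_frobeniusAlgEquivOfAlgebraic_pow F (DD F K m)).2
    (AlgEquiv.ofBijective η hbij)
  refine ⟨i.1, fun d hd y => ?_⟩
  rw [(h1 d hd).2]
  congr 1
  have h5 : (η ⟨d, hd⟩ : DD F K m) = (⟨d, hd⟩ : DD F K m) ^ (Fintype.card F ^ i.1) := by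
    have h6 : (AlgEquiv.ofBijective η hbij) ⟨d, hd⟩ = η ⟨d, hd⟩ := rfl
    rw [← h6, ← hi]
    simp only
    rw [AlgEquiv.coe_pow, FiniteField.coe_frobeniusAlgEquivOfAlgebraic_iterate]
  have h7 := congrArg Subtype.val h5
  rw [bar_apply]
  exact h7

/-- The `D`-valued form. -/
noncomputable def TT (F : Type) {K : Type} [Field F] [Fintype F] [Field K] [Fintype K]
    [Algebra F K] (m : ℕ) (lam x y : K) : K :=
  lam * (x * bar F K m y - y * bar F K m x)

theorem two_bil (hm : finrank F K = 2 * m) {lam : K} (hl : bar F K m lam = -lam) (x y : K) :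
    2 * bil F K m lam x y = Algebra.trace F K (TT F m lam x y) := by
  have h1 : Algebra.trace F K (lam * y * bar F K m x) = - Algebra.trace F K (lam * x * bar F K m y) := by
    rw [← trace_bar (m := m) (lam * y * bar F K m x), map_mul (bar F K m), map_mul (bar F K m),
      bar_bar hm, hl, ← map_neg]
    congr 1; ring
  have h2 : TT F m lam x y = lam * x * bar F K m y - lam * y * bar F K m x := by
    unfold TT; ring
  rw [h2, map_sub, h1, bil_apply]; ring

theorem bar_TT (hm : finrank F K = 2 * m) {lam : K} (hl : bar F K m lam = -lam) (x y : K) :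
    bar F K m (TT F m lam x y) = TT F m lam x y := by
  unfold TT
  rw [map_mul, map_sub, map_mul, map_mul, bar_bar hm, bar_bar hm, hl]; ring

theorem TT_D {lam : K} {d : K} (hd : bar F K m d = d) (x y : K) :
    TT F m lam (d * x) y = d * TT F m lam x y := by
  unfold TT
  rw [map_mul, hd]; ring

/-- an element of `D` orthogonal to `D` under the trace form is zero -/
theorem eq_zero_of_trace (h2 : (2 : F) ≠ 0) (hm : finrank F K = 2 * m) {E : K}
    (hE : bar F K m E = E)
    (h : ∀ d, bar F K m d = d → Algebra.trace F K (d * E) = 0) : E = 0 := by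
  apply trace_nondeg (F := F)
  intro y
  have h3 := h (y + bar F K m y) (by rw [map_add, bar_bar hm, add_comm])
  have h4 : Algebra.trace F K (bar F K m y * E) = Algebra.trace F K (y * E) := by
    rw [← trace_bar (m := m) (y * E), map_mul (bar F K m), hE]
  rw [add_mul, map_add, h4] at h3
  have h5 : (2 : F) * Algebra.trace F K (y * E) = 0 := by linear_combination h3
  rw [mul_comm]
  exact (mul_eq_zero.mp h5).resolve_left h2

theorem TT_twist (h2 : (2 : F) ≠ 0) (hm : finrank F K = 2 * m) {lam : K}
    (hl : bar F K m lam = -lam) (h : K ≃ₗ[F] K)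
    (hiso : ∀ x y, bil F K m lam (h x) (h y) = bil F K m lam x y) {i : ℕ}
    (htw : ∀ d, bar F K m d = d → ∀ y, h (d * y) = bar F K i d * h y) (x y : K) :
    TT F m lam (h x) (h y) = bar F K i (TT F m lam x y) := by
  have hcomm : ∀ u : K, bar F K m (bar F K i u) = bar F K i (bar F K m u) := by
    intro u
    rw [bar_apply, bar_apply, bar_apply, bar_apply, ← pow_mul, ← pow_mul, mul_comm]
  rw [← sub_eq_zero]
  apply eq_zero_of_trace h2 hm
  · rw [map_sub, bar_TT hm hl, hcomm, bar_TT hm hl]
  · intro d hd
    -- d = σ d'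
    obtain ⟨d', hd'⟩ := (bar F K i).surjective d
    have hd'D : bar F K m d' = d' := by
      apply (bar F K i).injective
      rw [← hcomm, hd', hd]
    have e1 := two_bil hm hl (d' * x) y
    have e2 := two_bil hm hl (h (d' * x)) (h y)
    rw [hiso, e1, htw d' hd'D, hd', TT_D hd, TT_D hd'D] at e2
    rw [mul_sub, map_sub, ← e2, ← hd', ← map_mul, sub_eq_zero]
    exact (Algebra.trace_eq_of_algEquiv (bar F K i) _).symm

end Pool.Agent.H330.Symp
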