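import Pool.Agent.H330.SympTools

namespace Pool.Agent.H330.Symp

open Module Pool.Agent.H330 Pool.Agent.H330.Minus

variable {F K : Type} [Field F] [Fintype F] [Field K] [Fintype K] [Algebra F K] {m : ℕ}

/-- `D`-linear skew operators with square `ν` -/
structure SkewRoot (m : ℕ) (lam : K) (ν : F) (J : K →ₗ[F] K) : Prop where
  lin : ∀ d, bar F K m d = d → ∀ x, J (d * x) = d * J x
  sq : ∀ x, J (J x) = ν • x
  skew : ∀ x y, bil F K m lam (J x) y = - bil F K m lam x (J y)

/-- Cramer's rule -/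
theorem span_two (hm : finrank F K = 2 * m) {x0 x1 : K}
    (h : x0 * bar F K m x1 - x1 * bar F K m x0 ≠ 0) (x : K) :
    ∃ d0 d1 : K, bar F K m d0 = d0 ∧ bar F K m d1 = d1 ∧ x = d0 * x0 + d1 * x1 := by
  set c := bar F K m with hc
  have hcc : ∀ x, c (c x) = x := bar_bar hm
  refine ⟨(x * c x1 - x1 * c x) / (x0 * c x1 - x1 * c x0),
    (x0 * c x - x * c x0) / (x0 * c x1 - x1 * c x0), ?_, ?_, ?_⟩
  · rw [map_div₀]
    simp only [map_sub, map_mul, hcc]
    rw [div_eq_div_iff]
    · ring
    · intro h'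
      apply h
      linear_combination -h'
    · exact h
  · rw [map_div₀]
    simp only [map_sub, map_mul, hcc]
    rw [div_eq_div_iff]
    · ring
    · intro h'
      apply h
      linear_combination -h'
    · exact h
  · apply mul_right_cancel₀ h
    have e1 : ((x * c x1 - x1 * c x) / (x0 * c x1 - x1 * c x0) * x0
        + (x0 * c x - x * c x0) / (x0 * c x1 - x1 * c x0) * x1) * (x0 * c x1 - x1 * c x0)
        = (x * c x1 - x1 * c x) / (x0 * c x1 - x1 * c x0) * (x0 * c x1 - x1 * c x0) * x0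
        + (x0 * c x - x * c x0) / (x0 * c x1 - x1 * c x0) * (x0 * c x1 - x1 * c x0) * x1 := by
      ring
    rw [e1, div_mul_cancel₀ _ h, div_mul_cancel₀ _ h]
    ring

theorem indep_two {x0 x1 : K}
    (h : x0 * bar F K m x1 - x1 * bar F K m x0 ≠ 0) {d0 d1 : K} (h0 : bar F K m d0 = d0)
    (h1 : bar F K m d1 = d1) (h2 : d0 * x0 + d1 * x1 = 0) : d0 = 0 ∧ d1 = 0 := by
  set c := bar F K m with hc
  have h3 : d0 * c x0 + d1 * c x1 = 0 := by
    have := congrArg c h2
    rwa [map_add, map_mul, map_mul, map_zero, h0, h1] at this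
  constructor
  · have : d0 * (x0 * c x1 - x1 * c x0) = 0 := by linear_combination (c x1) * h2 - x1 * h3
    exact (mul_eq_zero.mp this).resolve_right h
  · have : d1 * (x0 * c x1 - x1 * c x0) = 0 := by linear_combination (-(c x0)) * h2 + x0 * h3
    exact (mul_eq_zero.mp this).resolve_right h

/-- a nonsquare of `F` is not a square in `D` -/
theorem nonsq_D (hq : Odd (Fintype.card F)) (hmo : Odd m) {ν : F} (hν : ¬ IsSquare ν) {d : K}
    (hd : bar F K m d = d) : d ^ 2 ≠ algebraMap F K ν := by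
  intro h
  have h1 : d ^ 2 ∈ (⊥ : IntermediateField F K) := by
    rw [h]; exact IntermediateField.algebraMap_mem _ ν
  have h2 := mem_of_sq_mem hq hmo ⊥ hd h1
  rw [IntermediateField.mem_bot] at h2
  obtain ⟨a, ha⟩ := h2
  apply hν
  refine ⟨a, ?_⟩
  apply (algebraMap F K).injective
  rw [map_mul, ha, ← h, _root_.sq]

theorem SkewRoot.delta_ne (hq : Odd (Fintype.card F)) (hm : finrank F K = 2 * m) (hmo : Odd m)
    {lam : K} {ν : F} (hν : ¬ IsSquare ν) {J : K →ₗ[F] K} (hJ : SkewRoot m lam ν J) {x : K}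
    (hx : x ≠ 0) : x * bar F K m (J x) - J x * bar F K m x ≠ 0 := by
  intro h
  set c := bar F K m with hc
  have hcc : ∀ x, c (c x) = x := bar_bar hm
  have hcx : c x ≠ 0 := by simpa using hx
  have h1 : c (J x / x) = J x / x := by
    rw [map_div₀, div_eq_div_iff hcx hx]
    linear_combination h
  have h2 : J x = (J x / x) * x := by field_simp
  have h3 : J (J x) = (J x / x) * ((J x / x) * x) := by
    nth_rewrite 1 [h2]
    rw [hJ.lin _ h1]
    nth_rewrite 2 [h2]
    rfl
  rw [hJ.sq, Algebra.smul_def] at h3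
  apply nonsq_D hq hmo hν h1
  apply mul_right_cancel₀ hx
  rw [h3]; ring

section

variable (lam : K) (ν γ : F) (a b : K)

variable (m) in
/-- the nilpotent map -/
noncomputable def NN (lam : K) (ν : F) (a b : K) : K →ₗ[F] K :=
  ((bil F K m lam).flip a).smulRight a - ν⁻¹ • ((bil F K m lam).flip b).smulRight b

theorem NN_apply (x : K) : NN m lam ν a b x
    = bil F K m lam x a • a - (ν⁻¹ * bil F K m lam x b) • b := by
  simp [NN, smul_smul]

theorem NN_NN (h2 : (2 : F) ≠ 0) (hm : finrank F K = 2 * m) {lam : K}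
    (hl : bar F K m lam = -lam) {a b : K} (hab : bil F K m lam a b = 0) (x : K) :
    NN m lam ν a b (NN m lam ν a b x) = 0 := by
  have hba : bil F K m lam b a = 0 := by rw [bil_swap hm hl, hab, neg_zero]
  rw [NN_apply, NN_apply]
  simp [bil_self h2 hm hl, hab, hba]

/-- the isometry `1 + γ N` -/
noncomputable def UU (h2 : (2 : F) ≠ 0) (hm : finrank F K = 2 * m) {lam : K}
    (hl : bar F K m lam = -lam) {a b : K} (hab : bil F K m lam a b = 0) (ν γ : F) :
    K ≃ₗ[F] K where
  toFun x := x + γ • NN m lam ν a b x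
  map_add' x y := by rw [map_add, smul_add]; abel
  map_smul' c x := by rw [map_smul, RingHom.id_apply, smul_add, smul_comm]
  invFun x := x - γ • NN m lam ν a b x
  left_inv x := by
    change (x + γ • NN m lam ν a b x) - γ • NN m lam ν a b (x + γ • NN m lam ν a b x) = x
    rw [map_add, map_smul, NN_NN ν h2 hm hl hab, smul_zero, add_zero, add_sub_cancel_right]
  right_inv x := by
    change (x - γ • NN m lam ν a b x) + γ • NN m lam ν a b (x - γ • NN m lam ν a b x) = x
    rw [map_sub, map_smul, NN_NN ν h2 hm hl hab, smul_zero, sub_zero, sub_add_cancel]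

theorem UU_apply (h2 : (2 : F) ≠ 0) (hm : finrank F K = 2 * m) {lam : K}
    (hl : bar F K m lam = -lam) {a b : K} (hab : bil F K m lam a b = 0) (ν γ : F) (x : K) :
    UU h2 hm hl hab ν γ x = x + γ • NN m lam ν a b x := rfl

theorem UU_symm_apply (h2 : (2 : F) ≠ 0) (hm : finrank F K = 2 * m) {lam : K}
    (hl : bar F K m lam = -lam) {a b : K} (hab : bil F K m lam a b = 0) (ν γ : F) (x : K) :
    (UU h2 hm hl hab ν γ).symm x = x - γ • NN m lam ν a b x := rfl

theorem NN_skew (hm : finrank F K = 2 * m) {lam : K}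
    (hl : bar F K m lam = -lam) (a b : K) (x y : K) :
    bil F K m lam (NN m lam ν a b x) y = - bil F K m lam x (NN m lam ν a b y) := by
  rw [NN_apply, NN_apply, map_sub, map_smul, map_smul, map_sub, map_smul, map_smul]
  simp only [LinearMap.sub_apply, LinearMap.smul_apply, smul_eq_mul]
  rw [bil_swap hm hl y a, bil_swap hm hl y b]
  ring

theorem UU_mem (h2 : (2 : F) ≠ 0) (hm : finrank F K = 2 * m) {lam : K}
    (hl : bar F K m lam = -lam) {a b : K} (hab : bil F K m lam a b = 0) (ν γ : F) :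
    UU h2 hm hl hab ν γ ∈ Sp F K m lam := by
  intro x y
  change bil F K m lam _ _ = bil F K m lam _ _
  rw [UU_apply, UU_apply]
  simp only [map_add, map_smul, LinearMap.add_apply, LinearMap.smul_apply, smul_eq_mul]
  rw [NN_skew ν hm hl a b x y, NN_skew ν hm hl a b x (NN m lam ν a b y),
    NN_NN ν h2 hm hl hab, map_zero]
  ring

/-- `N` commutes with `J` when `b = J a` -/
theorem NN_comm (hν0 : ν ≠ 0) {J : K →ₗ[F] K} (hJ : SkewRoot m lam ν J) (a : K) (x : K) :
    NN m lam ν a (J a) (J x) = J (NN m lam ν a (J a) x) := by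
  rw [NN_apply, NN_apply, hJ.skew, hJ.skew, hJ.sq, map_sub, map_smul J, map_smul J, hJ.sq,
    map_smul, smul_smul, smul_eq_mul]
  have e1 : ν⁻¹ * -(ν * bil F K m lam x a) = - bil F K m lam x a := by field_simp
  have e2 : ν⁻¹ * bil F K m lam x (J a) * ν = bil F K m lam x (J a) := by field_simp
  rw [e1, e2]
  module

end

end Pool.Agent.H330.Symp
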