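import Pool.Agent.H330.SympParam

namespace Pool.Agent.H330.Symp

open Module Pool.Agent.H330 Pool.Agent.H330.Minus

variable {F K : Type} [Field F] [Fintype F] [Field K] [Fintype K] [Algebra F K] {m : ℕ}

/-- `g` normalises the algebra of multiplications by `L`: elementwise form -/
theorem norm_elem {Γ : Subgroup (K ≃ₗ[F] K)} (L : IntermediateField F K) (x : Γ)
    (hx : x ∈ normIn Γ (fieldAlg L)) : ∀ l ∈ L, ∃ l' ∈ L, ∀ y,
    (x : K ≃ₗ[F] K) (l * y) = l' * (x : K ≃ₗ[F] K) y := by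
  intro l hl
  have h1 : Algebra.lmul F K l ∈ fieldAlg L := mem_fieldAlg.mpr ⟨l, hl, fun y => rfl⟩
  obtain ⟨l', hl'L, hl'⟩ := mem_fieldAlg.mp ((hx _).mp h1)
  refine ⟨l', hl'L, fun y => ?_⟩
  have h3 := hl' ((x : K ≃ₗ[F] K) y)
  rw [LinearEquiv.conj_apply_apply, LinearEquiv.symm_apply_apply] at h3
  exact h3

/-- an automorphism normalising the quadratic subfield commutes or anticommutes with `j` -/
theorem norm_quad {L : IntermediateField F K} (hL : finrank F L = 2)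
    {j : K} {ν : F} (hj2 : j ^ 2 = algebraMap F K ν)
    (hjq : j ^ Fintype.card F = -j) (hq : Odd (Fintype.card F)) (h : K ≃ₗ[F] K)
    (hn : ∀ l ∈ L, ∃ l' ∈ L, ∀ y, h (l * y) = l' * h y) :
    (∀ x, h (j * x) = j * h x) ∨ (∀ x, h (j * x) = -(j * h x)) := by
  have hjL : j ∈ L := by
    apply mem_of_pow
    rw [hL, sq, pow_mul, hjq, hq.neg_pow, hjq, neg_neg]
  obtain ⟨l', -, hl'⟩ := hn j hjL
  have h1 : l' ^ 2 = j ^ 2 := by
    have h2 : h (j * (j * 1)) = l' * (l' * h 1) := by rw [hl', hl']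
    have h3 : j * (j * 1) = algebraMap F K ν * 1 := by rw [← hj2]; ring
    rw [h3, ← Algebra.smul_def, map_smul, Algebra.smul_def, ← hj2] at h2
    have h4 : h 1 ≠ 0 := by
      intro h0
      exact one_ne_zero (h.injective (by rw [h0, map_zero]))
    apply mul_right_cancel₀ h4
    rw [h2]; ring
  have h2 : (l' - j) * (l' + j) = 0 := by linear_combination h1
  rcases mul_eq_zero.mp h2 with h3 | h3
  · left; intro x; rw [hl', sub_eq_zero.mp h3]
  · right; intro x; rw [hl', eq_neg_of_add_eq_zero_left h3]; ring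

theorem mainK (hq : Odd (Fintype.card F)) (hm : finrank F K = 2 * m) (hmo : Odd m) (hm2 : 2 ≤ m)
    {lam : K} (hl : bar F K m lam = -lam) (hl0 : lam ≠ 0) :
    ∃ g ∈ Sp F K m lam, ∀ L₁ L₂ : IntermediateField F K, finrank F L₁ = 2 → finrank F L₂ = 2 →
      ∀ h ∈ Sp F K m lam, (∀ l ∈ L₁, ∃ l' ∈ L₁, ∀ y, h (l * y) = l' * h y) →
      (∀ l ∈ L₂, ∃ l' ∈ L₂, ∀ y, (g⁻¹ * h * g) (l * y) = l' * (g⁻¹ * h * g) y) →
      ∃ c : F, ∀ x, h x = c • x := by
  obtain ⟨ν, hν⟩ := exists_nonsq hq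
  have hν0 : ν ≠ 0 := by rintro rfl; exact hν (IsSquare.zero)
  obtain ⟨j, hj2, hjb, hjq⟩ := exists_j hq hm hmo hν
  obtain ⟨t, s, e, ht0, ht, htb, hs, he, he0, hs1, hts, hse⟩ := exists_ste hq hm hm2 hν0
  have hζ : (1 : K) * bar F K m 1 = 1 := by rw [map_one, one_mul]
  obtain ⟨z, hz, -, hzj⟩ := exists_zz hq hm (by omega) hν0 hj2 hjb hs he hs1 hζ hse
  refine ⟨z, hz lam hl, ?_⟩
  intro L₁ L₂ hL₁ hL₂ h hh h1 h2
  have h1' := norm_quad hL₁ hj2 hjq hq h h1
  have h2' := norm_quad hL₂ hj2 hjq hq _ h2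
  have hzz : ∀ x, z (z⁻¹ x) = x := by
    intro x; rw [← LinearEquiv.mul_apply, mul_inv_cancel]; rfl
  have h2'' : (∀ x, h (s * j * x + e * 1 * bar F K m x)
        = s * j * h x + e * 1 * bar F K m (h x)) ∨
      (∀ x, h (s * j * x + e * 1 * bar F K m x)
        = -(s * j * h x + e * 1 * bar F K m (h x))) := by
    rcases h2' with h3 | h3
    · left
      intro x
      have h4 := h3 (z⁻¹ x)
      have h5 : ∀ y, (z⁻¹ * h * z) y = z⁻¹ (h (z y)) := fun y => rfl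
      rw [h5, h5, hzj, hzz] at h4
      have h6 := congrArg z h4
      rw [hzj, hzz, hzz] at h6
      exact h6
    · right
      intro x
      have h4 := h3 (z⁻¹ x)
      have h5 : ∀ y, (z⁻¹ * h * z) y = z⁻¹ (h (z y)) := fun y => rfl
      rw [h5, h5, hzj, hzz] at h4
      have h6 := congrArg z h4
      rw [map_neg, hzj, hzz, hzz] at h6
      exact h6
  rcases coreK hq hm hmo hm2 hl hl0 hν0 hj2 hjb ht ht0 hs he he0 hζ hts h hh h1' h2'' with h3 | h3
  · exact ⟨1, fun x => by rw [h3, one_smul]⟩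
  · exact ⟨-1, fun x => by rw [h3, neg_smul, one_smul]⟩

end Pool.Agent.H330.Symp
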