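import Pool.Agent.H330.SympUnitary
import Pool.Agent.H330.Short

namespace Pool.Agent.H330.Symp

open Module Pool.Agent.H330 Pool.Agent.H330.Minus Pool.Agent.H330.Short

variable {F K : Type} [Field F] [Fintype F] [Field K] [Fintype K] [Algebra F K] {m : ℕ}

variable (F K m) in
/-- `PSp(V)` -/
abbrev G (lam : K) : Type := Proj (Sp F K m lam)

/-- the normaliser of the multiplications by `L` -/
def H (m : ℕ) (lam : K) (L : IntermediateField F K) : Subgroup (G F K m lam) :=
  projNorm (Sp F K m lam) (fieldAlg L)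

theorem mulE_mem_Sp (lam y : K) (hy : y ≠ 0) (h : bar F K m y * y = 1) :
    mulE F y hy ∈ Sp F K m lam := by
  intro x z
  rw [form_eq, form_eq, mulE_apply, mulE_apply, map_mul (bar F K m)]
  have h1 : lam * (y * x) * (bar F K m y * bar F K m z) = lam * x * bar F K m z := by
    linear_combination (lam * x * bar F K m z) * h
  rw [h1]

theorem mulE_norm (lam y : K) (hy : y ≠ 0) (hΩ : mulE F y hy ∈ Sp F K m lam)
    (L : IntermediateField F K) :
    (⟨mulE F y hy, hΩ⟩ : Sp F K m lam) ∈ normIn (Sp F K m lam) (fieldAlg L) := by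
  intro T
  constructor
  · intro hT
    obtain ⟨l, hl, hT'⟩ := mem_fieldAlg.mp hT
    rw [mem_fieldAlg]
    refine ⟨l, hl, fun x => ?_⟩
    rw [LinearEquiv.conj_apply_apply, hT']
    change y * (l * (y⁻¹ * x)) = l * x
    field_simp
  · intro hT
    obtain ⟨l, hl, hT'⟩ := mem_fieldAlg.mp hT
    rw [mem_fieldAlg]
    refine ⟨l, hl, fun x => ?_⟩
    have h3 := hT' (y * x)
    rw [LinearEquiv.conj_apply_apply] at h3
    change y * (T (y⁻¹ * (y * x))) = l * (y * x) at h3
    rw [← mul_assoc y⁻¹, inv_mul_cancel₀ hy, one_mul] at h3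
    apply mul_left_cancel₀ hy
    rw [h3]; ring

/-- an element of norm one which is not in `F` -/
theorem exists_norm_one_notin (hq : Odd (Fintype.card F)) (hm : finrank F K = 2 * m)
    (hm2 : 2 ≤ m) :
    ∃ y : K, y ≠ 0 ∧ bar F K m y * y = 1 ∧ ∀ c : F, y ≠ algebraMap F K c := by
  classical
  set q := Fintype.card F with hqdef
  obtain ⟨ζ, hζ⟩ := IsCyclic.exists_generator (α := Kˣ)
  have hord : orderOf ζ = q ^ (2 * m) - 1 := by
    rw [orderOf_eq_card_of_forall_mem_zpowers hζ, Nat.card_eq_fintype_card, Fintype.card_units,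
      cardK hm]
  have hq3 : 3 ≤ q := by
    have : 1 < q := Fintype.one_lt_card
    obtain ⟨r, hr⟩ := hq
    omega
  have hqm : 1 < q ^ m := Nat.one_lt_pow (by omega) (by omega)
  have hfac : q ^ (2 * m) - 1 = (q ^ m - 1) * (q ^ m + 1) := by
    rw [mul_comm 2 m, pow_mul, sq_sub_one (by omega)]
  have hz : orderOf (ζ ^ (q ^ m - 1)) = q ^ m + 1 := by
    rw [orderOf_pow_of_dvd (by omega) (by rw [hord, hfac]; exact Dvd.intro _ rfl), hord, hfac]
    exact Nat.mul_div_cancel_left _ (by omega)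
  refine ⟨((ζ ^ (q ^ m - 1) : Kˣ) : K), Units.ne_zero _, ?_, ?_⟩
  · rw [bar_apply, ← pow_succ, ← hqdef, ← hz, ← Units.val_pow_eq_pow_val, pow_orderOf_eq_one,
      Units.val_one]
  · intro c hc
    have hc0 : c ≠ 0 := by
      rintro rfl
      rw [map_zero] at hc
      exact Units.ne_zero _ hc
    have h1 : (ζ ^ (q ^ m - 1)) ^ (q - 1) = 1 := by
      ext
      rw [Units.val_pow_eq_pow_val, hc, ← map_pow, FiniteField.pow_card_sub_one_eq_one c hc0,
        map_one, Units.val_one]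
    have h2 := Nat.le_of_dvd (by omega) (orderOf_dvd_of_pow_eq_one h1)
    rw [hz] at h2
    have h3 : q ^ 1 ≤ q ^ m := Nat.pow_le_pow_right (by omega) (by omega)
    rw [pow_one] at h3
    omega

theorem H_ne_bot (hq : Odd (Fintype.card F)) (hm : finrank F K = 2 * m) (hm2 : 2 ≤ m) (lam : K)
    (L : IntermediateField F K) : H m lam L ≠ ⊥ := by
  intro hbot
  obtain ⟨y, hy0, hy1, hy⟩ := exists_norm_one_notin (K := K) hq hm hm2
  have hM := mulE_mem_Sp lam y hy0 hy1
  have h1 : (QuotientGroup.mk' (scalars (Sp F K m lam))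
      (⟨mulE F y hy0, hM⟩ : Sp F K m lam)) ∈ H m lam L := by
    rw [H, mem_projNorm]
    exact mulE_norm lam y hy0 hM L
  rw [hbot, Subgroup.mem_bot, QuotientGroup.mk'_apply, QuotientGroup.eq_one_iff] at h1
  obtain ⟨c, hc⟩ := h1
  have := hc 1
  change y * 1 = c • (1 : K) at this
  rw [mul_one, Algebra.smul_def, mul_one] at this
  exact hy c this

variable (F K m) in
/-- the subgroups `N(F_{q^2})` -/
def unitarySet (lam : K) : Set (Subgroup (G F K m lam)) :=
  {A | ∃ L : IntermediateField F K, finrank F L = 2 ∧ A = H m lam L}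

variable (F K m) in
/-- symplectic space -/
def IsSymp (lam : K) : Prop :=
  (∀ x : K, form F K m lam x x = 0) ∧ (∀ x : K, (∀ y, form F K m lam x y = 0) → x = 0)

variable (F K m) in
/-- Singer elements -/
def SingerIn (lam : K) (S : Set (Subgroup (G F K m lam))) : Prop :=
  ∀ y : K, y ^ (Fintype.card F ^ m + 1) = 1 → ∃ t : Sp F K m lam,
    (∀ x : K, (t : K ≃ₗ[F] K) x = y * x) ∧
    ∀ A ∈ S, QuotientGroup.mk' (scalars (Sp F K m lam)) t ∈ A

theorem exists_quad (hq : Odd (Fintype.card F)) (hm : finrank F K = 2 * m) (hmo : Odd m) :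
    ∃ L : IntermediateField F K, finrank F L = 2 := by
  obtain ⟨ν, hν⟩ := exists_nonsq hq
  obtain ⟨e, he2, -, -⟩ := exists_j hq hm hmo hν
  refine ⟨IntermediateField.adjoin F {e}, ?_⟩
  have hint : IsIntegral F e := Algebra.IsIntegral.isIntegral e
  rw [IntermediateField.adjoin.finrank hint]
  apply le_antisymm
  · have h1 : (minpoly F e).natDegree ≤ (Polynomial.X ^ 2 - Polynomial.C ν : Polynomial F).natDegree := by
      apply Polynomial.natDegree_le_natDegree
      apply minpoly.min F e (Polynomial.monic_X_pow_sub_C ν (by norm_num))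
      simp [he2]
    rwa [Polynomial.natDegree_X_pow_sub_C] at h1
  · rw [minpoly.two_le_natDegree_iff hint]
    rintro ⟨a, ha⟩
    apply hν
    refine ⟨a, ?_⟩
    apply (algebraMap F K).injective
    rw [map_mul, ha, ← he2, sq]

theorem singer_in (lam : K) (S : Set (Subgroup (G F K m lam)))
    (hS : ∀ A ∈ S, ∃ L : IntermediateField F K, A = H m lam L) : SingerIn F K m lam S := by
  intro y hy
  have hy0 : y ≠ 0 := by
    rintro rfl
    rw [zero_pow (by omega)] at hy
    exact zero_ne_one hy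
  have hyb : bar F K m y * y = 1 := by rw [bar_apply, ← pow_succ, hy]
  refine ⟨⟨mulE F y hy0, mulE_mem_Sp lam y hy0 hyb⟩, fun x => rfl, ?_⟩
  intro A hA
  obtain ⟨L, rfl⟩ := hS A hA
  rw [H, mem_projNorm]
  exact mulE_norm lam y hy0 _ L

theorem resultK (hq : Odd (Fintype.card F)) (hm : finrank F K = 2 * m) (hmo : Odd m) (hm3 : 3 ≤ m)
    {lam : K} (hl : bar F K m lam = -lam) (hl0 : lam ≠ 0) :
    IsSymp F K m lam ∧ (unitarySet F K m lam).Nonempty ∧ TrivialMeet (unitarySet F K m lam) ∧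
    BaseTwo (unitarySet F K m lam) ∧ SingerIn F K m lam (unitarySet F K m lam) := by
  obtain ⟨g, hg, hmain⟩ := mainK hq hm hmo (by omega) hl hl0
  have key : ∀ A ∈ unitarySet F K m lam, ∀ B ∈ unitarySet F K m lam, ∀ h ∈ A,
      (QuotientGroup.mk' (scalars (Sp F K m lam)) ⟨g, hg⟩)⁻¹ * h *
        (QuotientGroup.mk' (scalars (Sp F K m lam)) ⟨g, hg⟩) ∈ B → h = 1 := by
    rintro _ ⟨L₁, h1, rfl⟩ _ ⟨L₂, h2, rfl⟩
    apply proj_inter
    intro x hx hx'
    exact hmain L₁ L₂ h1 h2 x x.2 (norm_elem L₁ x hx) (norm_elem L₂ _ hx')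
  refine ⟨⟨bil_self (two_ne_zero' hq) hm hl, bil_nondeg hm hl0⟩, ?_, ⟨_, key⟩, ?_, ?_⟩
  · obtain ⟨L, hL⟩ := exists_quad (K := K) hq hm hmo
    exact ⟨_, L, hL, rfl⟩
  · rintro _ ⟨L, hL, rfl⟩
    exact baseSize_eq_two (H m lam L) (H_ne_bot hq hm (by omega) lam L) _
      (key _ ⟨L, hL, rfl⟩ _ ⟨L, hL, rfl⟩)
  · apply singer_in
    rintro A ⟨L, -, rfl⟩
    exact ⟨L, rfl⟩

end Pool.Agent.H330.Symp
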