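import Pool.Agent.H330.SympCount

namespace Pool.Agent.H330.Symp

open Module Pool.Agent.H330 Pool.Agent.H330.Minus

variable {F K : Type} [Field F] [Fintype F] [Field K] [Fintype K] [Algebra F K] {m : ℕ}

/-- real part of `e ζ` -/
noncomputable def pp (F : Type) {K : Type} [Field F] [Fintype F] [Field K] [Fintype K]
    [Algebra F K] (m : ℕ) (e ζ : K) : K := e * (ζ + bar F K m ζ) / 2

/-- imaginary part of `e ζ` -/
noncomputable def ff (F : Type) {K : Type} [Field F] [Fintype F] [Field K] [Fintype K]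
    [Algebra F K] (m : ℕ) (j e ζ : K) : K := e * (ζ - bar F K m ζ) / (2 * j)

theorem uvw (hq : Odd (Fintype.card F)) [DecidableEq K] {j e : K} (hj0 : j ≠ 0)
    (hjb : bar F K m j = -j) (he0 : e ≠ 0) {u v w : K} (hu : bar F K m u = u)
    (hv : bar F K m v = v) (hne : ¬ (u = 0 ∧ v = 0 ∧ w = 0)) :
    (Finset.univ.filter (fun ζ : K => ζ * bar F K m ζ = 1 ∧
      u * pp F m e ζ + v * ff F m j e ζ + w = 0)).card ≤ 2 := by
  classical
  have h2K : (2 : K) ≠ 0 := two_ne hq
  have hrel : ∀ ζ : K, ζ * bar F K m ζ = 1 → u * pp F m e ζ + v * ff F m j e ζ + w = 0 →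
      ((u * j + v) * e) * ζ ^ 2 + (2 * j * w) * ζ + (u * j - v) * e = 0 := by
    intro ζ h1 h2
    have h3 : (2 * j * ζ) * (u * pp F m e ζ + v * ff F m j e ζ + w) = 0 := by rw [h2, mul_zero]
    have h4 : (2 * j * ζ) * (u * pp F m e ζ + v * ff F m j e ζ + w)
        = u * e * j * (ζ ^ 2 + ζ * bar F K m ζ) + v * e * (ζ ^ 2 - ζ * bar F K m ζ)
          + 2 * j * w * ζ := by
      unfold pp ff
      field_simp
    rw [h4, h1] at h3
    linear_combination h3
  by_cases hA : u * j + v = 0
  · -- then u = v = 0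
    have hcA : -(u * j) + v = 0 := by
      have := congrArg (bar F K m) hA
      rw [map_add, map_mul, hu, hv, hjb, map_zero] at this
      linear_combination this
    have hv0 : v = 0 := by
      have : 2 * v = 0 := by linear_combination hA + hcA
      exact (mul_eq_zero.mp this).resolve_left h2K
    have hu0 : u = 0 := by
      rw [hv0, add_zero] at hA
      exact (mul_eq_zero.mp hA).resolve_right hj0
    have hw0 : w ≠ 0 := fun h => hne ⟨hu0, hv0, h⟩
    rw [Finset.filter_false_of_mem]
    · simp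
    · rintro ζ - ⟨h1, h2⟩
      rw [hu0, hv0, zero_mul, zero_mul, zero_add, zero_add] at h2
      exact hw0 h2
  · refine (Finset.card_le_card ?_).trans
      (card_quad_le (A := (u * j + v) * e) (B := 2 * j * w) (C := (u * j - v) * e)
        (mul_ne_zero hA he0))
    intro ζ hζ
    rw [Finset.mem_filter] at hζ ⊢
    exact ⟨Finset.mem_univ _, hrel ζ hζ.2.1 hζ.2.2⟩

theorem exists_zeta (hq : Odd (Fintype.card F)) (hm : finrank F K = 2 * m) (hm5 : 7 ≤ m)
    {j e s : K} (hj0 : j ≠ 0) (hjb : bar F K m j = -j) (he0 : e ≠ 0) (hs : bar F K m s = s)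
    (hsF : ∀ a0 a1 : F, algebraMap F K a0 + algebraMap F K a1 * s = 0 → a0 = 0 ∧ a1 = 0) :
    ∃ ζ : K, ζ * bar F K m ζ = 1 ∧
      Ind4 F 1 (pp F m e ζ) (s + ff F m j e ζ) (s - ff F m j e ζ) ∧
      Ind4 F 1 (pp F m e ζ) (s + ff F m j e ζ) (s * (s + ff F m j e ζ)) := by
  classical
  have h2F : (2 : F) ≠ 0 := two_ne_zero' hq
  set q := Fintype.card F with hqdef
  have hq3 : 3 ≤ q := by
    have : 1 < q := Fintype.one_lt_card
    obtain ⟨r, hr⟩ := hq
    omega
  set A := algebraMap F K with hA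
  have hAD : ∀ c, bar F K m (A c) = A c := fun c => AlgEquiv.commutes _ _
  let S : (Bool × (F × F) × (F × F)) → Finset K := fun x =>
    if x.2 = 0 then ∅ else
    if x.1 then
      Finset.univ.filter (fun ζ : K => ζ * bar F K m ζ = 1 ∧
        (A x.2.1.2) * pp F m e ζ + (A x.2.2.1 - A x.2.2.2) * ff F m j e ζ
          + (A x.2.1.1 + (A x.2.2.1 + A x.2.2.2) * s) = 0)
    else
      Finset.univ.filter (fun ζ : K => ζ * bar F K m ζ = 1 ∧
        (A x.2.1.2) * pp F m e ζ + (A x.2.2.1 + A x.2.2.2 * s) * ff F m j e ζ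
          + (A x.2.1.1 + A x.2.2.1 * s + A x.2.2.2 * s ^ 2) = 0)
  have hS : ∀ x, (S x).card ≤ 2 := by
    rintro ⟨b, ⟨c0, c1⟩, ⟨c2, c3⟩⟩
    simp only [S]
    by_cases h0 : (((c0, c1), (c2, c3)) : (F × F) × (F × F)) = 0
    · rw [if_pos h0]; simp
    · rw [if_neg h0]
      cases b
      · simp only [Bool.false_eq_true, if_false]
        apply uvw hq hj0 hjb he0
        · exact hAD _
        · rw [map_add, map_mul, hAD, hAD, hs]
        · rintro ⟨h1, h2, h3⟩
          apply h0
          obtain ⟨k2, k3⟩ := hsF c2 c3 h2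
          have k1 : c1 = 0 := A.injective (by rw [h1, map_zero])
          rw [k2, k3, map_zero, zero_mul, zero_mul, add_zero, add_zero] at h3
          have k0 : c0 = 0 := A.injective (by rw [h3, map_zero])
          rw [k0, k1, k2, k3]; rfl
      · simp only [if_true]
        apply uvw hq hj0 hjb he0
        · exact hAD _
        · rw [map_sub, hAD, hAD]
        · rintro ⟨h1, h2, h3⟩
          apply h0
          have k1 : c1 = 0 := A.injective (by rw [h1, map_zero])
          have k23 : c2 = c3 := A.injective (sub_eq_zero.mp h2)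
          rw [← map_add] at h3
          obtain ⟨k0, k4⟩ := hsF c0 (c2 + c3) h3
          rw [← k23, ← two_mul] at k4
          have k2 : c2 = 0 := (mul_eq_zero.mp k4).resolve_left h2F
          rw [k0, k1, ← k23, k2]; rfl
  by_contra hcon
  push Not at hcon
  have hsub : Finset.univ.filter (fun ζ : K => ζ * bar F K m ζ = 1) ⊆
      Finset.univ.biUnion S := by
    intro ζ hζ
    rw [Finset.mem_filter] at hζ
    rw [Finset.mem_biUnion]
    by_cases h1 : Ind4 F 1 (pp F m e ζ) (s + ff F m j e ζ) (s - ff F m j e ζ)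
    · have h2 := hcon ζ hζ.2 h1
      unfold Ind4 at h2
      push Not at h2
      obtain ⟨c0, c1, c2, c3, h3, h4⟩ := h2
      refine ⟨(false, (c0, c1), (c2, c3)), Finset.mem_univ _, ?_⟩
      simp only [S]
      rw [if_neg]
      · simp only [Bool.false_eq_true, if_false]
        rw [Finset.mem_filter]
        refine ⟨Finset.mem_univ _, hζ.2, ?_⟩
        linear_combination h3
      · intro h5
        have k0 : c0 = 0 := congrArg (fun x => x.1.1) h5
        have k1 : c1 = 0 := congrArg (fun x => x.1.2) h5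
        have k2 : c2 = 0 := congrArg (fun x => x.2.1) h5
        have k3 : c3 = 0 := congrArg (fun x => x.2.2) h5
        exact h4 k0 k1 k2 k3
    · unfold Ind4 at h1
      push Not at h1
      obtain ⟨c0, c1, c2, c3, h3, h4⟩ := h1
      refine ⟨(true, (c0, c1), (c2, c3)), Finset.mem_univ _, ?_⟩
      simp only [S]
      rw [if_neg]
      · simp only [if_true]
        rw [Finset.mem_filter]
        refine ⟨Finset.mem_univ _, hζ.2, ?_⟩
        linear_combination h3
      · intro h5
        have k0 : c0 = 0 := congrArg (fun x => x.1.1) h5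
        have k1 : c1 = 0 := congrArg (fun x => x.1.2) h5
        have k2 : c2 = 0 := congrArg (fun x => x.2.1) h5
        have k3 : c3 = 0 := congrArg (fun x => x.2.2) h5
        exact h4 k0 k1 k2 k3
  have h1 := Finset.card_le_card hsub
  have h2 := (card_norm_one (F := F) (K := K) hm (by omega)).trans h1
  have h3 : (Finset.univ.biUnion S).card ≤ 4 * q ^ 4 := by
    refine Finset.card_biUnion_le.trans ?_
    calc ∑ x : Bool × (F × F) × (F × F), (S x).card
        ≤ ∑ _x : Bool × (F × F) × (F × F), 2 := Finset.sum_le_sum (fun x _ => hS x)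
      _ = Fintype.card (Bool × (F × F) × (F × F)) * 2 := by
        rw [Finset.sum_const, Finset.card_univ, smul_eq_mul]
      _ = 4 * q ^ 4 := by
        simp only [Fintype.card_prod, Fintype.card_bool]
        ring
  have h4 : q ^ 7 ≤ q ^ m := Nat.pow_le_pow_right (by omega) hm5
  rw [← hqdef] at h2
  have h5 : q ^ 7 + 1 ≤ 4 * q ^ 4 := by omega
  have h6 : 4 * q ^ 4 ≤ q ^ 7 := by
    have h7 : 4 ≤ q ^ 3 := by
      calc 4 ≤ 3 ^ 3 := by norm_num
        _ ≤ q ^ 3 := Nat.pow_le_pow_left hq3 3
    calc 4 * q ^ 4 ≤ q ^ 3 * q ^ 4 := Nat.mul_le_mul_right _ h7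
      _ = q ^ 7 := by ring
  omega

end Pool.Agent.H330.Symp
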